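import Pool.Agent.X298.HC.PoleDefs

/-!
# The edge line, twists by virtual representations and products: the statements

`X` is a projective variety of dimension `d` over a number field `K`, with Betti numbers `N a`, and `R a`
are natural numbers, `a ≤ 2 d`.
-/

set_option autoImplicit false

namespace Pool.Agent.X298.HC

open NumberField IsDedekindDomain Filter Topology Polynomial
open Pool.Agent.W353.EH (size HasOrder)

section
variable {K : Type} [Field K] [NumberField K] {n : ℕ}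
  (X : Set (MvPolynomial (Fin n) (𝓞 K))) (d : ℕ) (N R : ℕ → ℕ)

/-- The Gram inequality for the twists of `H^a(X)`: for all finite families of virtual representations
`ρ_k`, Euler factors of the `L(H^a(X) ⊗ ρ_k, s)`, and real numbers `c_k`, with the intertwining numbers
`⟨ρ_k, ρ_l⟩`: `(∑ c_k s_k(ε))² ≤ R a ∑ c_k c_l ⟨ρ_k, ρ_l⟩ + η` for all `η > 0` and all small `ε > 0`, where
`s_k(ε) = log |L(H^a(X) ⊗ ρ_k, a/2 + 1 + ε)| / log(1/ε)`, and, if there are continuations of the orders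
`m_k` at `a/2 + 1`, `(∑ c_k m_k)² ≤ R a ∑ c_k c_l ⟨ρ_k, ρ_l⟩`. -/
def TwistGram (a : ℕ) : Prop :=
  ∀ (l : ℕ) (ρ : Fin l → Virt K) (B : Fin l → ∀ π : Mono K, HeightOneSpectrum (𝓞 π.F) → ℂ[X])
    (c : Fin l → ℝ), (∀ k, ∀ π ∈ (ρ k).support, IsTwistBy X d a (N a) π (B k π)) →
    (∀ η : ℝ, 0 < η → ∀ᶠ ε : ℝ in 𝓝[>] 0, (∑ k, c k * (ρ k).size a (B k) ε) ^ 2 ≤
      R a * ∑ k, ∑ k', c k * c k' * ((ρ k).inter (ρ k') : ℝ) + η) ∧
    ∀ m : Fin l → ℤ, (∀ k, (ρ k).HasOrder a (B k) (m k)) →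
      (∑ k, c k * m k) ^ 2 ≤ R a * ∑ k, ∑ k', c k * c k' * ((ρ k).inter (ρ k') : ℝ)

/-- There is a set `S` of at most `k² r R a` virtual representations such that for all `ρ` orthogonal to `S`
with `⟨ρ, ρ⟩ ≤ r` and all Euler factors of `L(H^a(X) ⊗ ρ, s)`:
`|log |L(a/2 + 1 + ε)| / log(1/ε)| < 1/k` for arbitrarily small `ε > 0`, and a continuation of the
`L`-function has neither a pole nor a zero at `a/2 + 1`. -/
def TwistExceptional (a r k : ℕ) : Prop :=
  ∃ S : Finset (Virt K), S.card ≤ k ^ 2 * r * R a ∧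
    ∀ (ρ : Virt K) (B : ∀ π : Mono K, HeightOneSpectrum (𝓞 π.F) → ℂ[X]),
      ρ.inter ρ ≤ r → (∀ σ ∈ S, ρ.inter σ = 0) →
      (∀ π ∈ ρ.support, IsTwistBy X d a (N a) π (B π)) →
      (∃ᶠ ε : ℝ in 𝓝[>] 0, |ρ.size a B ε| < 1 / k) ∧ ∀ m : ℤ, ρ.HasOrder a B m → m = 0

end

/-- Euler factors of `L(H^i(X × Y), s)`, and of the `L(H^a(X) ⊗ κ (i - a) N^{-iτ}, s)`, `a ≤ 2 d`, where `Y`
is a projective variety with potentially abelian cohomology, given by the representations `ρ b`. -/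
structure EdgeData {K : Type} [Field K] [NumberField K] {n : ℕ}
    (X : Set (MvPolynomial (Fin n) (𝓞 K))) (d : ℕ) (N : ℕ → ℕ) where
  /-- the number of the coordinates -/
  n' : ℕ
  /-- the equations of `Y` -/
  Y : Set (MvPolynomial (Fin n') (𝓞 K))
  /-- the dimension of `Y` -/
  e : ℕ
  /-- the Betti numbers of `Y` -/
  M : ℕ → ℕ
  /-- the representations for the cohomology of `Y` -/
  ρ : ℕ → Virt K
  /-- arbitrary representations, for instance parts of the `ρ b` -/
  κ : ℕ → Virt K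
  /-- the degree -/
  i : ℕ
  /-- the height -/
  τ : ℝ
  /-- the Euler factors of `L(H^i(X × Y), s)` -/
  B : HeightOneSpectrum (𝓞 K) → ℂ[X]
  /-- the Euler factors of the twists of `X` -/
  B' : ℕ → ∀ π : Mono K, HeightOneSpectrum (𝓞 π.F) → ℂ[X]
  pot : IsPotAbelian Y e M ρ
  prod : IsProduct X d N Y e M i τ B
  twist : ∀ p ∈ degrees d e i, ∀ π ∈ ((κ p.2).shift τ).support,
    IsTwistBy X d p.1 (N p.1) π (B' p.1 π)

section
variable {K : Type} [Field K] [NumberField K] {n : ℕ}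
  {X : Set (MvPolynomial (Fin n) (𝓞 K))} {d : ℕ} {N : ℕ → ℕ}

/-- The tuple of the representations `(ρ (i - a) - κ (i - a)) N^{-iτ}`, `a ≤ 2 d`. -/
noncomputable def EdgeData.rest (D : EdgeData X d N) : ℕ → Virt K :=
  restTuple d D.e D.i D.τ D.ρ D.κ

/-- `log |L(H^i(X × Y), i/2 + 1 + iτ + ε)| / log(1/ε)`, minus the sum of the numbers
`log |L(H^a(X) ⊗ κ (i - a), a/2 + 1 + iτ + ε)| / log(1/ε)`. -/
noncomputable def EdgeData.defect (D : EdgeData X d N) (ε : ℝ) : ℝ :=
  size D.i D.τ D.B ε - ∑ p ∈ degrees d D.e D.i, ((D.κ p.2).shift D.τ).size p.1 (D.B' p.1) ε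

/-- The order of `L(H^i(X × Y), s)` at `i/2 + 1 + iτ` is the sum of the orders of the
`L(H^a(X) ⊗ κ (i - a), s)` at `a/2 + 1 + iτ`, if these orders exist. -/
def EdgeData.OrderFormula (D : EdgeData X d N) : Prop :=
  ∀ (k : ℤ) (k' : ℕ → ℤ), HasOrder D.i D.τ D.B k →
    (∀ p ∈ degrees d D.e D.i, ((D.κ p.2).shift D.τ).HasOrder p.1 (D.B' p.1) (k' p.1)) →
    k = ∑ p ∈ degrees d D.e D.i, k' p.1

end

section
variable {K : Type} [Field K] [NumberField K] {n : ℕ}
  (X : Set (MvPolynomial (Fin n) (𝓞 K))) (d : ℕ) (N R : ℕ → ℕ)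

/-- There is a set `S` of at most `r ∑ R a` tuples such that for all products, degrees and heights with a
rest orthogonal to `S` and of norm at most `r` the defect is `< 1` in absolute value for arbitrarily
small `ε > 0`, and the formula for the orders holds. -/
def EdgeExceptional (r : ℕ) : Prop :=
  ∃ S : Finset (ℕ → Virt K), S.card ≤ r * ∑ a ∈ Finset.range (2 * d + 1), R a ∧
    ∀ D : EdgeData X d N, tupleInter d D.rest D.rest ≤ r →
      (∀ σ ∈ S, tupleInter d D.rest σ = 0) →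
      (∃ᶠ ε : ℝ in 𝓝[>] 0, |D.defect ε| < 1) ∧ D.OrderFormula

/-- There is a set `S` of at most `∑ R a` pairs `(a, π)`, `π` monomial, such that for all products, degrees
and heights for which the `(ρ b - κ b) N^{-iτ}` are combinations of monomial irreducible representations
(any number of them) not equivalent to a `π` with `(i - b, π) ∈ S` the defect tends to zero, and the
formula for the orders holds. -/
def EdgeMonomial : Prop :=
  ∃ S : Finset (ℕ × Mono K), S.card ≤ ∑ a ∈ Finset.range (2 * d + 1), R a ∧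
    ∀ D : EdgeData X d N,
      (∀ p ∈ degrees d D.e D.i, ∀ π ∈ ((D.ρ p.2 - D.κ p.2).shift D.τ).support,
        π.inter π = 1 ∧ ∀ s ∈ S, s.1 = p.1 → π.inter s.2 = 0) →
      Tendsto D.defect (𝓝[>] 0) (𝓝 0) ∧ D.OrderFormula

end

end Pool.Agent.X298.HC
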