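import Pool.Agent.X298.HC.MDefs

/-!
# The pole at `s = m + 1` of the products `X × Y`, `Y` with potentially abelian cohomology: the statements

`X` is a projective variety of dimension `d` over a number field `K`, with Betti numbers `N a`, and `R a`
are natural numbers, `a ≤ 2 d`.
-/

set_option autoImplicit false

namespace Pool.Agent.X298.HC

open NumberField IsDedekindDomain Filter Topology Polynomial
open Pool.Agent.W353.EH (size HasOrder)

/-- Euler factors of `L(H^{2m}(X × Y), s)` and of the `L(H^a(X) ⊗ κ (2m - a), s)`, `a ≤ 2 d`, where `Y` is a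
projective variety with potentially abelian cohomology, given by the representations `ρ b`. -/
structure PoleData {K : Type} [Field K] [NumberField K] {n : ℕ}
    (X : Set (MvPolynomial (Fin n) (𝓞 K))) (d : ℕ) (N : ℕ → ℕ) where
  /-- the number of the coordinates -/
  n' : ℕ
  /-- the equations of `Y` -/
  Y : Set (MvPolynomial (Fin n') (𝓞 K))
  /-- the dimension of `Y` -/
  e : ℕ
  /-- the Betti numbers of `Y` -/
  M : ℕ → ℕ
  /-- the representations for the cohomology of `Y` -/
  ρ : ℕ → Virt K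
  /-- arbitrary representations, for instance parts of the `ρ b` -/
  κ : ℕ → Virt K
  m : ℕ
  /-- the Euler factors of `L(H^{2m}(X × Y), s)` -/
  B : HeightOneSpectrum (𝓞 K) → ℂ[X]
  /-- the Euler factors of the twists of `X` -/
  B' : ℕ → ∀ π : Mono K, HeightOneSpectrum (𝓞 π.F) → ℂ[X]
  pot : IsPotAbelian Y e M ρ
  prod : IsProduct X d N Y e M (2 * m) 0 B
  twist : ∀ p ∈ degrees d e (2 * m), ∀ π ∈ (κ p.2).support, IsTwistBy X d p.1 (N p.1) π (B' p.1 π)

section
variable {K : Type} [Field K] [NumberField K] {n : ℕ}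
  {X : Set (MvPolynomial (Fin n) (𝓞 K))} {d : ℕ} {N : ℕ → ℕ}

/-- The tuple of the representations `ρ (2m - a) - κ (2m - a)`, `a ≤ 2 d`. -/
noncomputable def PoleData.rest (D : PoleData X d N) : ℕ → Virt K :=
  restTuple d D.e (2 * D.m) 0 D.ρ D.κ

/-- `log |L(H^{2m}(X × Y), m + 1 + ε)| / log(1/ε)`, minus the sum of the numbers
`log |L(H^a(X) ⊗ κ (2m - a), a/2 + 1 + ε)| / log(1/ε)`. -/
noncomputable def PoleData.defect (D : PoleData X d N) (ε : ℝ) : ℝ :=
  size (2 * D.m) 0 D.B ε - ∑ p ∈ degrees d D.e (2 * D.m), (D.κ p.2).size p.1 (D.B' p.1) ε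

/-- The formula `ord_{s = m + 1} L(H^{2m}(X × Y), s) = ∑ ord_{s = a/2 + 1} L(H^a(X) ⊗ κ (2m - a), s)`
holds, if these orders exist. -/
def PoleData.OrderFormula (D : PoleData X d N) : Prop :=
  ∀ (k : ℤ) (k' : ℕ → ℤ), HasOrder (2 * D.m) 0 D.B k →
    (∀ p ∈ degrees d D.e (2 * D.m), (D.κ p.2).HasOrder p.1 (D.B' p.1) (k' p.1)) →
    k = ∑ p ∈ degrees d D.e (2 * D.m), k' p.1

end

section
variable {K : Type} [Field K] [NumberField K] {n : ℕ}
  (X : Set (MvPolynomial (Fin n) (𝓞 K))) (d : ℕ) (N R : ℕ → ℕ)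

/-- Bessel's inequality: for finitely many products with pairwise orthogonal rests, of norms `q_k`, and
all `η > 0`, `∑ defect_k(ε)² / q_k ≤ ∑ R a + η` for all small `ε > 0`. -/
def PoleBessel : Prop :=
  ∀ (l : ℕ) (D : Fin l → PoleData X d N),
    (∀ k k', k ≠ k' → tupleInter d (D k).rest (D k').rest = 0) →
    ∀ η : ℝ, 0 < η → ∀ᶠ ε : ℝ in 𝓝[>] 0,
      ∑ k, (D k).defect ε ^ 2 / (tupleInter d (D k).rest (D k).rest) ≤
        ((∑ a ∈ Finset.range (2 * d + 1), R a : ℕ) : ℝ) + η

/-- There is a set `S` of at most `r ∑ R a` tuples such that for all products with a rest orthogonal to `S`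
and of norm at most `r` the defect is `< 1` in absolute value for arbitrarily small `ε > 0`, and the
formula for the orders holds. -/
def PoleExceptional (r : ℕ) : Prop :=
  ∃ S : Finset (ℕ → Virt K), S.card ≤ r * ∑ a ∈ Finset.range (2 * d + 1), R a ∧
    ∀ D : PoleData X d N, tupleInter d D.rest D.rest ≤ r →
      (∀ σ ∈ S, tupleInter d D.rest σ = 0) →
      (∃ᶠ ε : ℝ in 𝓝[>] 0, |D.defect ε| < 1) ∧ D.OrderFormula

/-- All `L(H^a(X) ⊗ π, s)`, `a ≤ 2 d`, `π` monomial and irreducible, have meromorphic continuations to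
neighbourhoods of `s = a/2 + 1`. -/
def Continuations : Prop :=
  ∀ a ≤ 2 * d, ∀ π : Mono K, π.inter π = 1 →
    ∃ (B : HeightOneSpectrum (𝓞 π.F) → ℂ[X]) (k : ℤ),
      IsTwistBy X d a (N a) π B ∧ HasOrder a π.τ B k

/-- There is a set `S` of at most `∑ R a` pairs `(a, π)`, `π` monomial, such that for all products for
which the `ρ b - κ b` are combinations of monomial irreducible representations (any number of them) not
equivalent to a `π` with `(2m - b, π) ∈ S` the defect tends to zero, and the formula for the orders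
holds. -/
def PoleMonomial : Prop :=
  ∃ S : Finset (ℕ × Mono K), S.card ≤ ∑ a ∈ Finset.range (2 * d + 1), R a ∧
    ∀ D : PoleData X d N,
      (∀ p ∈ degrees d D.e (2 * D.m), ∀ π ∈ (D.ρ p.2 - D.κ p.2).support,
        π.inter π = 1 ∧ ∀ s ∈ S, s.1 = p.1 → π.inter s.2 = 0) →
      Tendsto D.defect (𝓝[>] 0) (𝓝 0) ∧ D.OrderFormula

end

end Pool.Agent.X298.HC
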