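import Pool.Agent.X298.HC.Defs
import Pool.Agent.H484R2.Zeta

/-! Properties of the archimedean part of a Hecke character. -/

set_option autoImplicit false
open Filter Topology NumberField NumberField.InfinitePlace

namespace Pool.Agent.X298.HC

open Pool.Agent.H484R2

variable {K : Type} [Field K] [NumberField K] (n : InfinitePlace K → ℤ) (t : InfinitePlace K → ℝ)

/-- local factor -/
noncomputable def loc (n : ℤ) (t : ℝ) (w : InfinitePlace K) (x : K) : ℂ :=
  (w.embedding x / ((w x : ℝ) : ℂ)) ^ n * Complex.exp (((t * Real.log (w x) : ℝ) : ℂ) * Complex.I)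

lemma arch_eq (x : K) : archimedean n t x = ∏ w, loc (n w) (t w) w x := rfl

lemma place_pos (w : InfinitePlace K) {x : K} (hx : x ≠ 0) : 0 < w x := (w.pos_iff).mpr hx

lemma norm_ang (w : InfinitePlace K) {x : K} (hx : x ≠ 0) :
    ‖w.embedding x / ((w x : ℝ) : ℂ)‖ = 1 := by
  have h := place_pos w hx
  rw [norm_div, norm_embedding_eq, Complex.norm_real, Real.norm_eq_abs, abs_of_pos h,
    div_self h.ne']

lemma norm_loc (a : ℤ) (b : ℝ) (w : InfinitePlace K) {x : K} (hx : x ≠ 0) :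
    ‖loc a b w x‖ = 1 := by
  unfold loc
  rw [norm_mul, norm_zpow, norm_ang w hx, one_zpow, Complex.norm_exp_ofReal_mul_I, one_mul]

lemma norm_arch {x : K} (hx : x ≠ 0) : ‖archimedean n t x‖ = 1 := by
  rw [arch_eq, norm_prod]
  exact Finset.prod_eq_one fun w _ => norm_loc _ _ w hx

lemma arch_ne_zero {x : K} (hx : x ≠ 0) : archimedean n t x ≠ 0 := by
  intro h
  have := norm_arch n t hx
  rw [h, norm_zero] at this
  exact zero_ne_one this

lemma loc_mul (a : ℤ) (b : ℝ) (w : InfinitePlace K) {x y : K} (hx : x ≠ 0) (hy : y ≠ 0) :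
    loc a b w (x * y) = loc a b w x * loc a b w y := by
  unfold loc
  have h1 := place_pos w hx
  have h2 := place_pos w hy
  rw [map_mul, map_mul, Real.log_mul h1.ne' h2.ne', Complex.ofReal_mul, mul_div_mul_comm, mul_zpow,
    mul_add, Complex.ofReal_add, add_mul, Complex.exp_add]
  ring

lemma arch_mul {x y : K} (hx : x ≠ 0) (hy : y ≠ 0) :
    archimedean n t (x * y) = archimedean n t x * archimedean n t y := by
  rw [arch_eq, arch_eq, arch_eq, ← Finset.prod_mul_distrib]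
  exact Finset.prod_congr rfl fun w _ => loc_mul _ _ w hx hy

lemma arch_nat (ht : ∑ w, t w = 0) {m : ℕ} (hm : m ≠ 0) : archimedean n t (m : K) = 1 := by
  have hmR : (m : ℝ) ≠ 0 := by exact_mod_cast hm
  have h1 : ∀ w : InfinitePlace K, loc (n w) (t w) w (m : K) =
      Complex.exp (((t w * Real.log m : ℝ) : ℂ) * Complex.I) := by
    intro w
    unfold loc
    have h2 : w (m : K) = m := by simp
    rw [h2, map_natCast]
    have h3 : (m : ℂ) / ((m : ℝ) : ℂ) = 1 := by
      rw [Complex.ofReal_natCast, div_self]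
      exact_mod_cast hm
    rw [h3, one_zpow, one_mul]
  rw [arch_eq, Finset.prod_congr rfl fun w _ => h1 w, ← Complex.exp_sum, ← Finset.sum_mul]
  have h4 : ∑ w, ((t w * Real.log m : ℝ) : ℂ) = 0 := by
    rw [← Complex.ofReal_sum, ← Finset.sum_mul, ht, zero_mul, Complex.ofReal_zero]
  rw [h4, zero_mul, Complex.exp_zero]

lemma arch_nat_mul (ht : ∑ w, t w = 0) {m : ℕ} (hm : m ≠ 0) {x : K} (hx : x ≠ 0) :
    archimedean n t ((m : K) * x) = archimedean n t x := by
  have hm' : (m : K) ≠ 0 := by exact_mod_cast hm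
  rw [arch_mul n t hm' hx, arch_nat n t ht hm, one_mul]

lemma norm_zpow_sub_le {a b : ℂ} (ha : ‖a‖ = 1) (hb : ‖b‖ = 1) (k : ℤ) :
    ‖a ^ k - b ^ k‖ ≤ |(k : ℝ)| * ‖a - b‖ := by
  have key : ∀ m : ℕ, ‖a ^ m - b ^ m‖ ≤ m * ‖a - b‖ := by
    intro m
    induction m with
    | zero => simp
    | succ m ih =>
      have h1 : a ^ (m + 1) - b ^ (m + 1) = a ^ m * (a - b) + (a ^ m - b ^ m) * b := by ring
      rw [h1]
      refine (norm_add_le _ _).trans ?_
      rw [norm_mul, norm_mul, norm_pow, ha, hb, one_pow, one_mul, mul_one]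
      push_cast
      linarith
  have ha0 : a ≠ 0 := by intro h; rw [h, norm_zero] at ha; exact zero_ne_one ha
  have hb0 : b ≠ 0 := by intro h; rw [h, norm_zero] at hb; exact zero_ne_one hb
  rcases Int.natAbs_eq k with h | h
  · rw [h, zpow_natCast, zpow_natCast]
    refine (key _).trans (le_of_eq ?_)
    simp
  · rw [h, zpow_neg, zpow_neg, zpow_natCast, zpow_natCast]
    have h2 : (a ^ k.natAbs)⁻¹ - (b ^ k.natAbs)⁻¹ =
        -((a ^ k.natAbs)⁻¹ * (b ^ k.natAbs)⁻¹ * (a ^ k.natAbs - b ^ k.natAbs)) := by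
      have := pow_ne_zero k.natAbs ha0
      have := pow_ne_zero k.natAbs hb0
      field_simp
      ring
    rw [h2, norm_neg, norm_mul, norm_mul, norm_inv, norm_inv, norm_pow, norm_pow, ha, hb, one_pow,
      inv_one, one_mul, one_mul]
    refine (key _).trans (le_of_eq ?_)
    simp

lemma ang_close (w : InfinitePlace K) {x y : K} (hx : x ≠ 0) (hy : y ≠ 0) {c D : ℝ} (hc : 0 < c)
    (h1 : c ≤ w x) (h2 : c ≤ w y) (h3 : w (x - y) ≤ D) :
    ‖w.embedding x / ((w x : ℝ) : ℂ) - w.embedding y / ((w y : ℝ) : ℂ)‖ ≤ 2 * D / c := by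
  have hxp := place_pos w hx
  have hyp := place_pos w hy
  have hx0 : ((w x : ℝ) : ℂ) ≠ 0 := by exact_mod_cast hxp.ne'
  have hy0 : ((w y : ℝ) : ℂ) ≠ 0 := by exact_mod_cast hyp.ne'
  have e : w.embedding x / ((w x : ℝ) : ℂ) - w.embedding y / ((w y : ℝ) : ℂ) =
      (w.embedding x - w.embedding y) / ((w x : ℝ) : ℂ) +
      (w.embedding y / ((w y : ℝ) : ℂ)) * (((w y - w x : ℝ) : ℂ) / ((w x : ℝ) : ℂ)) := by
    push_cast
    field_simp
    ring
  rw [e]
  refine (norm_add_le _ _).trans ?_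
  have h4 : ‖(w.embedding x - w.embedding y) / ((w x : ℝ) : ℂ)‖ ≤ D / c := by
    rw [norm_div, ← map_sub, norm_embedding_eq, Complex.norm_real, Real.norm_eq_abs,
      abs_of_pos hxp]
    have hD : 0 ≤ D := (apply_nonneg w _).trans h3
    gcongr
  have h5 : ‖(w.embedding y / ((w y : ℝ) : ℂ)) * (((w y - w x : ℝ) : ℂ) / ((w x : ℝ) : ℂ))‖ ≤
      D / c := by
    rw [norm_mul, norm_ang w hy, one_mul, norm_div, Complex.norm_real, Complex.norm_real,
      Real.norm_eq_abs, Real.norm_eq_abs, abs_of_pos hxp]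
    have hD : 0 ≤ D := (apply_nonneg w _).trans h3
    have h6 : |w y - w x| ≤ D := by
      rw [abs_sub_comm]
      exact (abs_place_sub w x y).trans h3
    gcongr
  calc _ ≤ D / c + D / c := add_le_add h4 h5
    _ = 2 * D / c := by ring

lemma loc_close (a : ℤ) (b : ℝ) (w : InfinitePlace K) {x y : K} (hx : x ≠ 0) (hy : y ≠ 0)
    {c D δ : ℝ} (hc : 0 < c) (h1 : c ≤ w x) (h2 : c ≤ w y) (h3 : w (x - y) ≤ D)
    (h4 : |Real.log (w x) - Real.log (w y)| ≤ δ) :
    ‖loc a b w x - loc a b w y‖ ≤ |(a : ℝ)| * (2 * D / c) + |b| * δ := by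
  unfold loc
  set u := w.embedding x / ((w x : ℝ) : ℂ)
  set v := w.embedding y / ((w y : ℝ) : ℂ)
  set ex := Complex.exp (((b * Real.log (w x) : ℝ) : ℂ) * Complex.I)
  set ey := Complex.exp (((b * Real.log (w y) : ℝ) : ℂ) * Complex.I)
  have hu : ‖u‖ = 1 := norm_ang w hx
  have hv : ‖v‖ = 1 := norm_ang w hy
  have e : u ^ a * ex - v ^ a * ey = (u ^ a - v ^ a) * ex + v ^ a * (ex - ey) := by ring
  rw [e]
  refine (norm_add_le _ _).trans (add_le_add ?_ ?_)
  · rw [norm_mul]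
    have : ‖ex‖ = 1 := Complex.norm_exp_ofReal_mul_I _
    rw [this, mul_one]
    refine (norm_zpow_sub_le hu hv a).trans ?_
    gcongr
    exact ang_close w hx hy hc h1 h2 h3
  · rw [norm_mul, norm_zpow, hv, one_zpow, one_mul]
    have h5 : ex - ey = ey * (Complex.exp (((b * (Real.log (w x) - Real.log (w y)) : ℝ) : ℂ) *
        Complex.I) - 1) := by
      have h8 : ey * Complex.exp (((b * (Real.log (w x) - Real.log (w y)) : ℝ) : ℂ) *
          Complex.I) = ex := by
        change Complex.exp _ * Complex.exp _ = Complex.exp _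
        rw [← Complex.exp_add]
        congr 1
        push_cast
        ring
      rw [mul_sub, mul_one, h8]
    have h6 : ‖ey‖ = 1 := Complex.norm_exp_ofReal_mul_I _
    rw [h5, norm_mul, h6, one_mul]
    have h7 : ‖Complex.exp (((b * (Real.log (w x) - Real.log (w y)) : ℝ) : ℂ) *
        Complex.I) - 1‖ ≤ |b * (Real.log (w x) - Real.log (w y))| := by
      have := Real.norm_exp_I_mul_ofReal_sub_one_le (x := b * (Real.log (w x) - Real.log (w y)))
      rw [Real.norm_eq_abs] at this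
      rwa [mul_comm Complex.I] at this
    refine h7.trans ?_
    rw [abs_mul]
    gcongr

lemma norm_prod_sub_prod_le {ι : Type*} (S : Finset ι) (f g : ι → ℂ) (hf : ∀ i, ‖f i‖ ≤ 1)
    (hg : ∀ i, ‖g i‖ ≤ 1) : ‖∏ i ∈ S, f i - ∏ i ∈ S, g i‖ ≤ ∑ i ∈ S, ‖f i - g i‖ := by
  classical
  induction S using Finset.induction_on with
  | empty => simp
  | insert a S ha ih =>
    rw [Finset.prod_insert ha, Finset.prod_insert ha, Finset.sum_insert ha]
    have h1 : f a * ∏ i ∈ S, f i - g a * ∏ i ∈ S, g i =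
        (f a - g a) * ∏ i ∈ S, f i + g a * (∏ i ∈ S, f i - ∏ i ∈ S, g i) := by ring
    rw [h1]
    refine (norm_add_le _ _).trans (add_le_add ?_ ?_)
    · rw [norm_mul]
      have : ‖∏ i ∈ S, f i‖ ≤ 1 := by
        rw [norm_prod]
        exact Finset.prod_le_one (fun i _ => norm_nonneg _) fun i _ => hf i
      calc ‖f a - g a‖ * ‖∏ i ∈ S, f i‖ ≤ ‖f a - g a‖ * 1 := by gcongr
        _ = _ := mul_one _
    · rw [norm_mul]
      calc ‖g a‖ * ‖∏ i ∈ S, f i - ∏ i ∈ S, g i‖ ≤ 1 * ∑ i ∈ S, ‖f i - g i‖ := by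
            gcongr
            exact hg a
        _ = _ := one_mul _

lemma arch_close : ∃ C : ℝ, 0 ≤ C ∧ ∀ (x y : K), x ≠ 0 → y ≠ 0 → ∀ (c D δ : ℝ), 0 < c →
    0 ≤ D → 0 ≤ δ →
    (∀ w : InfinitePlace K, c ≤ w x ∧ c ≤ w y ∧ w (x - y) ≤ D ∧
      |Real.log (w x) - Real.log (w y)| ≤ δ) →
    ‖archimedean n t x - archimedean n t y‖ ≤ C * (D / c + δ) := by
  refine ⟨∑ w, (2 * |(n w : ℝ)| + |t w|), Finset.sum_nonneg fun w _ => by positivity, ?_⟩
  intro x y hx hy c D δ hc hD hδ h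
  rw [arch_eq, arch_eq]
  refine (norm_prod_sub_prod_le _ _ _ (fun w => (norm_loc _ _ w hx).le)
    (fun w => (norm_loc _ _ w hy).le)).trans ?_
  rw [Finset.sum_mul]
  refine Finset.sum_le_sum fun w _ => ?_
  obtain ⟨h1, h2, h3, h4⟩ := h w
  refine (loc_close _ _ w hx hy hc h1 h2 h3 h4).trans ?_
  have h5 : 0 ≤ D / c := by positivity
  have h6 := abs_nonneg (n w : ℝ)
  have h7 := abs_nonneg (t w)
  have e : |(n w : ℝ)| * (2 * D / c) = 2 * |(n w : ℝ)| * (D / c) := by ring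
  rw [e]
  nlinarith [mul_nonneg h6 hδ, mul_nonneg h7 h5]

end Pool.Agent.X298.HC
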