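import Pool.Agent.X298.HC.Arch

/-! Base change of Hecke characters: norms. -/

set_option autoImplicit false
set_option linter.unusedSectionVars false
open Filter Topology NumberField Ideal NumberField.InfinitePlace

namespace Pool.Agent.X298.HC

section norm
variable {F M : Type} [Field F] [NumberField F] [Field M] [NumberField M] [Algebra F M]

/-- `∏ (1 + m a_i) = 1 + m b` -/
lemma prod_one_add {A : Type*} [CommRing A] (S : Subring A) (m : ℕ) {ι : Type*} (s : Finset ι)
    (a : ι → A) (ha : ∀ i ∈ s, a i ∈ S) : ∃ b ∈ S, ∏ i ∈ s, (1 + m * a i) = 1 + m * b := by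
  classical
  induction s using Finset.induction_on with
  | empty => exact ⟨0, S.zero_mem, by simp⟩
  | insert i s hi ih =>
    obtain ⟨b, hb, h⟩ := ih fun j hj => ha j (Finset.mem_insert_of_mem hj)
    have hai := ha i (Finset.mem_insert_self i s)
    refine ⟨a i + b + m * (a i * b), S.add_mem (S.add_mem hai hb)
      (S.mul_mem (natCast_mem S m) (S.mul_mem hai hb)), ?_⟩
    rw [Finset.prod_insert hi, h]
    ring

/-- the norm of an integer congruent to one -/
lemma norm_modEq {m : ℕ} (hm : m ≠ 0) {x : 𝓞 M} (h : (m : 𝓞 M) ∣ x - 1) :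
    (m : 𝓞 F) ∣ Algebra.intNorm (𝓞 F) (𝓞 M) x - 1 := by
  obtain ⟨y, hy⟩ := h
  have hx : x = 1 + m * y := by rw [← hy]; ring
  set Ω := AlgebraicClosure F
  have h1 : algebraMap F Ω (Algebra.norm F (x : M)) =
      ∏ σ : M →ₐ[F] Ω, σ (x : M) := Algebra.norm_eq_prod_embeddings F Ω (x : M)
  obtain ⟨b, hb, h2⟩ := prod_one_add (integralClosure ℤ Ω).toSubring m
    (Finset.univ : Finset (M →ₐ[F] Ω)) (fun σ => σ (y : M)) (by
      intro σ _
      have h3 : IsIntegral ℤ (y : M) := y.isIntegral_coe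
      exact h3.map (σ.restrictScalars ℤ))
  have h3 : ∏ σ : M →ₐ[F] Ω, σ (x : M) = 1 + m * b := by
    rw [← h2]
    refine Finset.prod_congr rfl fun σ _ => ?_
    rw [hx]
    push_cast
    rw [map_add, map_one, map_mul, map_natCast]
  have hmF : (m : F) ≠ 0 := by exact_mod_cast hm
  set c : F := (Algebra.norm F (x : M) - 1) / m with hc
  have h4 : algebraMap F Ω c = b := by
    rw [hc, map_div₀, map_sub, h1, h3, map_one, map_natCast]
    have : (m : Ω) ≠ 0 := by exact_mod_cast hm
    rw [add_sub_cancel_left, mul_div_cancel_left₀ _ this]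
  have h5 : IsIntegral ℤ c := by
    have h6 : IsIntegral ℤ (algebraMap F Ω c) := by
      rw [h4]
      exact hb
    exact (isIntegral_algebraMap_iff (algebraMap F Ω).injective).1 h6
  obtain ⟨c', hc'⟩ : ∃ c' : 𝓞 F, algebraMap (𝓞 F) F c' = c := ⟨⟨c, h5⟩, rfl⟩
  refine ⟨c', ?_⟩
  apply RingOfIntegers.coe_injective
  have h7 : (algebraMap (𝓞 F) F) (Algebra.intNorm (𝓞 F) (𝓞 M) x) =
      Algebra.norm F (algebraMap (𝓞 M) M x) := Algebra.algebraMap_intNorm x
  rw [map_sub, map_one, map_mul, map_natCast, h7, hc']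
  change Algebra.norm F (x : M) - 1 = m * c
  rw [hc]
  field_simp

lemma coprime_relNorm_iff {m : ℕ} (hm : m ≠ 0) (I : Ideal (𝓞 M)) :
    IsCoprime (relNorm (𝓞 F) I) (span {(m : 𝓞 F)}) ↔ IsCoprime I (span {(m : 𝓞 M)}) := by
  constructor
  · intro h
    rw [Ideal.isCoprime_iff_exists] at h ⊢
    obtain ⟨a, ha, b, hb, hab⟩ := h
    refine ⟨algebraMap (𝓞 F) (𝓞 M) a, relNorm_le_comap (𝓞 F) I ha, algebraMap (𝓞 F) (𝓞 M) b, ?_, ?_⟩
    · rw [Ideal.mem_span_singleton] at hb ⊢
      obtain ⟨c, rfl⟩ := hb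
      exact ⟨algebraMap (𝓞 F) (𝓞 M) c, by rw [map_mul, map_natCast]⟩
    · rw [← map_add, hab, map_one]
  · intro h
    rw [Ideal.isCoprime_iff_exists] at h ⊢
    obtain ⟨a, ha, b, hb, hab⟩ := h
    rw [Ideal.mem_span_singleton] at hb
    obtain ⟨c, rfl⟩ := hb
    obtain ⟨c', hc'⟩ := norm_modEq (F := F) hm (x := a) ⟨-c, by
      have : a = 1 - m * c := by rw [← hab]; ring
      rw [this]
      ring⟩
    refine ⟨Algebra.intNorm (𝓞 F) (𝓞 M) a, ?_, -(m * c'), ?_, ?_⟩
    · exact intNorm_mem_spanNorm (𝓞 F) ha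
    · rw [Ideal.neg_mem_iff]
      exact Ideal.mul_mem_right _ _ (Ideal.mem_span_singleton_self _)
    · rw [← hc']
      ring

end norm

/-- the local character on complex numbers -/
noncomputable def uc (n : ℤ) (t : ℝ) (z : ℂ) : ℂ :=
  (z / ((‖z‖ : ℝ) : ℂ)) ^ n * Complex.exp (((t * Real.log ‖z‖ : ℝ) : ℂ) * Complex.I)

lemma uc_one (n : ℤ) (t : ℝ) : uc n t 1 = 1 := by
  unfold uc
  simp

lemma uc_mul (n : ℤ) (t : ℝ) {z w : ℂ} (hz : z ≠ 0) (hw : w ≠ 0) :
    uc n t (z * w) = uc n t z * uc n t w := by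
  unfold uc
  have h1 : ‖z‖ ≠ 0 := norm_ne_zero_iff.2 hz
  have h2 : ‖w‖ ≠ 0 := norm_ne_zero_iff.2 hw
  rw [norm_mul, Real.log_mul h1 h2, Complex.ofReal_mul, mul_div_mul_comm, mul_zpow,
    mul_add, Complex.ofReal_add, add_mul, Complex.exp_add]
  ring

lemma uc_prod (n : ℤ) (t : ℝ) {ι : Type*} (s : Finset ι) (f : ι → ℂ) (hf : ∀ i ∈ s, f i ≠ 0) :
    uc n t (∏ i ∈ s, f i) = ∏ i ∈ s, uc n t (f i) := by
  classical
  induction s using Finset.induction_on with
  | empty => simp [uc_one]
  | insert i s hi ih =>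
    have h1 := hf i (Finset.mem_insert_self i s)
    have h2 : ∀ j ∈ s, f j ≠ 0 := fun j hj => hf j (Finset.mem_insert_of_mem hj)
    rw [Finset.prod_insert hi, Finset.prod_insert hi, uc_mul n t h1 (Finset.prod_ne_zero_iff.2 h2),
      ih h2]

lemma uc_add (n n' : ℤ) (t t' : ℝ) {z : ℂ} (hz : z ≠ 0) :
    uc (n + n') (t + t') z = uc n t z * uc n' t' z := by
  unfold uc
  have h1 : z / ((‖z‖ : ℝ) : ℂ) ≠ 0 :=
    div_ne_zero hz (by exact_mod_cast norm_ne_zero_iff.2 hz)
  rw [zpow_add₀ h1, add_mul, Complex.ofReal_add, add_mul, Complex.exp_add]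
  ring

lemma uc_zero (z : ℂ) : uc 0 0 z = 1 := by
  unfold uc
  simp

lemma uc_conj (n : ℤ) (t : ℝ) {z : ℂ} (hz : z ≠ 0) :
    uc n t ((starRingEnd ℂ) z) = uc (-n) t z := by
  unfold uc
  have h0 : ‖z‖ ≠ 0 := norm_ne_zero_iff.2 hz
  have h0c : ((‖z‖ : ℝ) : ℂ) ≠ 0 := by exact_mod_cast h0
  rw [Complex.norm_conj]
  congr 1
  rw [zpow_neg, ← inv_zpow]
  congr 1
  rw [inv_div]
  have h1 : z * (starRingEnd ℂ) z = ((‖z‖ : ℝ) : ℂ) * ((‖z‖ : ℝ) : ℂ) := by
    rw [Complex.mul_conj, Complex.normSq_eq_norm_sq]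
    push_cast
    ring
  field_simp
  rw [mul_comm, h1]
  ring

lemma loc_eq_uc {K : Type} [Field K] [NumberField K] (n : ℤ) (t : ℝ) (w : InfinitePlace K)
    (x : K) : loc n t w x = uc n t (w.embedding x) := by
  unfold loc uc
  rw [norm_embedding_eq]

section places
variable {F M : Type} [Field F] [NumberField F] [Field M] [NumberField M] [Algebra F M]

/-- restriction of an embedding -/
noncomputable def rs (F : Type) {M : Type} [Field F] [Field M] [Algebra F M] (τ : M →+* ℂ) :
    F →+* ℂ := τ.comp (algebraMap F M)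

/-- the restriction is the chosen embedding of its place -/
def good (F : Type) {M : Type} [Field F] [Field M] [Algebra F M] (τ : M →+* ℂ) : Prop :=
  (mk (rs F τ)).embedding = rs F τ

lemma rs_eq_iff (τ : M →+* ℂ) (w : InfinitePlace F) :
    rs F τ = w.embedding ↔ good F τ ∧ mk (rs F τ) = w := by
  constructor
  · intro h
    have h1 : mk (rs F τ) = w := by rw [h, mk_embedding]
    refine ⟨?_, h1⟩
    unfold good
    rw [h1, h]
  · rintro ⟨h1, h2⟩
    rw [← h2]
    exact h1.symm

open Classical in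
/-- the product over the embeddings -/
lemma embedding_norm (x : M) (w : InfinitePlace F) :
    w.embedding (Algebra.norm F x) =
      ∏ τ ∈ Finset.univ.filter (fun τ : M →+* ℂ => rs F τ = w.embedding), τ x := by
  letI : Algebra F ℂ := w.embedding.toAlgebra
  have h1 : algebraMap F ℂ (Algebra.norm F x) = ∏ σ : M →ₐ[F] ℂ, σ x :=
    Algebra.norm_eq_prod_embeddings F ℂ x
  have h2 : algebraMap F ℂ = w.embedding := rfl
  rw [h2] at h1
  rw [h1]
  refine Finset.prod_bij (fun σ _ => (σ : M →+* ℂ)) ?_ ?_ ?_ ?_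
  · intro σ _
    rw [Finset.mem_filter]
    refine ⟨Finset.mem_univ _, ?_⟩
    ext y
    exact σ.commutes y
  · intro σ _ σ' _ h
    exact AlgHom.coe_ringHom_injective h
  · intro τ hτ
    rw [Finset.mem_filter] at hτ
    exact ⟨{ τ with commutes' := fun y => RingHom.congr_fun hτ.2 y }, Finset.mem_univ _, rfl⟩
  · intro σ _
    rfl

open Classical in
lemma card_embeddings (w : InfinitePlace F) :
    (Finset.univ.filter (fun τ : M →+* ℂ => rs F τ = w.embedding)).card =
      Module.finrank F M := by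
  letI : Algebra F ℂ := w.embedding.toAlgebra
  have h1 : Fintype.card (M →ₐ[F] ℂ) = Module.finrank F M := AlgHom.card F M ℂ
  rw [← h1, ← Finset.card_univ]
  symm
  refine Finset.card_bij (fun σ _ => (σ : M →+* ℂ)) ?_ ?_ ?_
  · intro σ _
    rw [Finset.mem_filter]
    refine ⟨Finset.mem_univ _, ?_⟩
    ext y
    exact σ.commutes y
  · intro σ _ σ' _ h
    exact AlgHom.coe_ringHom_injective h
  · intro τ hτ
    rw [Finset.mem_filter] at hτ
    exact ⟨{ τ with commutes' := fun y => RingHom.congr_fun hτ.2 y }, Finset.mem_univ _, rfl⟩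

open Classical in
/-- the exponents of the angles -/
noncomputable def bcn (n : InfinitePlace F → ℤ) (w : InfinitePlace M) : ℤ :=
  (if good F w.embedding then n (mk (rs F w.embedding)) else 0) +
    if good F (ComplexEmbedding.conjugate w.embedding) ∧
      ComplexEmbedding.conjugate w.embedding ≠ w.embedding then
      -n (mk (rs F w.embedding)) else 0

open Classical in
/-- the exponents of the absolute values -/
noncomputable def bct (t : InfinitePlace F → ℝ) (w : InfinitePlace M) : ℝ :=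
  (if good F w.embedding then t (mk (rs F w.embedding)) else 0) +
    if good F (ComplexEmbedding.conjugate w.embedding) ∧
      ComplexEmbedding.conjugate w.embedding ≠ w.embedding then
      t (mk (rs F w.embedding)) else 0

lemma rs_conj (τ : M →+* ℂ) : rs F (ComplexEmbedding.conjugate τ) =
    ComplexEmbedding.conjugate (rs F τ) := by
  ext y
  rfl

lemma mk_rs_conj (τ : M →+* ℂ) : mk (rs F (ComplexEmbedding.conjugate τ)) = mk (rs F τ) := by
  rw [rs_conj, mk_conjugate_eq]

open Classical in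
lemma filter_mk (w : InfinitePlace M) : (Finset.univ.filter fun τ : M →+* ℂ => mk τ = w) =
    {w.embedding, ComplexEmbedding.conjugate w.embedding} := by
  ext τ
  rw [Finset.mem_filter, Finset.mem_insert, Finset.mem_singleton]
  constructor
  · rintro ⟨-, h⟩
    rw [← mk_embedding w] at h
    rcases mk_eq_iff.1 h.symm with h1 | h1
    · exact Or.inl h1.symm
    · exact Or.inr h1.symm
  · rintro (h | h)
    · rw [h]
      exact ⟨Finset.mem_univ _, mk_embedding w⟩
    · rw [h, mk_conjugate_eq]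
      exact ⟨Finset.mem_univ _, mk_embedding w⟩

/-- **The archimedean part of the base change.** -/
theorem arch_norm (n : InfinitePlace F → ℤ) (t : InfinitePlace F → ℝ) {x : M} (hx : x ≠ 0) :
    archimedean n t (Algebra.norm F x) = archimedean (bcn n) (bct t) x := by
  classical
  have hτ : ∀ τ : M →+* ℂ, τ x ≠ 0 := fun τ => by
    rw [Ne, map_eq_zero]
    exact hx
  set h : (M →+* ℂ) → ℂ := fun τ =>
    if good F τ then uc (n (mk (rs F τ))) (t (mk (rs F τ))) (τ x) else 1 with hh
  -- over the places of `F`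
  have e1 : archimedean n t (Algebra.norm F x) = ∏ τ : M →+* ℂ, h τ := by
    rw [arch_eq, ← Finset.prod_fiberwise (Finset.univ : Finset (M →+* ℂ))
      (fun τ => mk (rs F τ)) h]
    refine Finset.prod_congr rfl fun w _ => ?_
    rw [loc_eq_uc, embedding_norm, uc_prod _ _ _ _ fun τ _ => hτ τ]
    have e2 : (Finset.univ.filter (fun τ : M →+* ℂ => rs F τ = w.embedding)) =
        (Finset.univ.filter (fun τ : M →+* ℂ => mk (rs F τ) = w)).filter
          (fun τ => good F τ) := by
      ext τ
      rw [Finset.mem_filter, Finset.mem_filter, Finset.mem_filter, rs_eq_iff]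
      tauto
    rw [e2, Finset.prod_filter]
    refine Finset.prod_congr rfl fun τ hτ' => ?_
    rw [Finset.mem_filter] at hτ'
    rw [hh]
    simp only
    rw [hτ'.2]
  -- over the places of `M`
  rw [e1, arch_eq, ← Finset.prod_fiberwise (Finset.univ : Finset (M →+* ℂ)) (fun τ => mk τ) h]
  refine Finset.prod_congr rfl fun w _ => ?_
  rw [filter_mk, loc_eq_uc]
  have h2 : h (ComplexEmbedding.conjugate w.embedding) =
      if good F (ComplexEmbedding.conjugate w.embedding) then
        uc (-n (mk (rs F w.embedding))) (t (mk (rs F w.embedding))) (w.embedding x) else 1 := by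
    rw [hh]
    simp only
    rw [mk_rs_conj]
    by_cases hg : good F (ComplexEmbedding.conjugate w.embedding)
    · rw [if_pos hg, if_pos hg, ComplexEmbedding.conjugate_coe_eq, uc_conj _ _ (hτ _)]
    · rw [if_neg hg, if_neg hg]
  by_cases hr : ComplexEmbedding.conjugate w.embedding = w.embedding
  · have hc : ¬ (good F (ComplexEmbedding.conjugate w.embedding) ∧
        ComplexEmbedding.conjugate w.embedding ≠ w.embedding) := fun h => h.2 hr
    rw [hr, Finset.pair_eq_singleton, Finset.prod_singleton]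
    unfold bcn bct
    rw [if_neg hc, if_neg hc, add_zero, add_zero]
    rw [hh]
    simp only
    by_cases hg : good F w.embedding
    · rw [if_pos hg, if_pos hg, if_pos hg]
    · rw [if_neg hg, if_neg hg, if_neg hg, uc_zero]
  · rw [Finset.prod_pair (Ne.symm hr), h2]
    unfold bcn bct
    rw [uc_add _ _ _ _ (hτ _)]
    congr 1
    · rw [hh]
      simp only
      by_cases hg : good F w.embedding
      · rw [if_pos hg, if_pos hg, if_pos hg]
      · rw [if_neg hg, if_neg hg, if_neg hg, uc_zero]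
    · by_cases hg : good F (ComplexEmbedding.conjugate w.embedding)
      · rw [if_pos hg, if_pos ⟨hg, hr⟩, if_pos ⟨hg, hr⟩]
      · rw [if_neg hg, if_neg (fun h => hg h.1), if_neg (fun h => hg h.1), uc_zero]

/-- the sum of the exponents -/
theorem bct_sum (t : InfinitePlace F → ℝ) (ht : ∑ w, t w = 0) :
    ∑ w : InfinitePlace M, bct t w = 0 := by
  classical
  set h : (M →+* ℂ) → ℝ := fun τ => if good F τ then t (mk (rs F τ)) else 0 with hh
  have e1 : ∑ w : InfinitePlace M, bct t w = ∑ τ : M →+* ℂ, h τ := by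
    rw [← Finset.sum_fiberwise (Finset.univ : Finset (M →+* ℂ)) (fun τ => mk τ) h]
    refine Finset.sum_congr rfl fun w _ => ?_
    rw [filter_mk]
    by_cases hr : ComplexEmbedding.conjugate w.embedding = w.embedding
    · have hc : ¬ (good F (ComplexEmbedding.conjugate w.embedding) ∧
          ComplexEmbedding.conjugate w.embedding ≠ w.embedding) := fun h => h.2 hr
      rw [hr, Finset.pair_eq_singleton, Finset.sum_singleton]
      unfold bct
      rw [if_neg hc, add_zero]
    · rw [Finset.sum_pair (Ne.symm hr)]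
      unfold bct
      congr 1
      rw [hh]
      simp only
      rw [mk_rs_conj]
      by_cases hg : good F (ComplexEmbedding.conjugate w.embedding)
      · rw [if_pos hg, if_pos ⟨hg, hr⟩]
      · rw [if_neg hg, if_neg (fun h => hg h.1)]
  rw [e1, ← Finset.sum_fiberwise (Finset.univ : Finset (M →+* ℂ)) (fun τ => mk (rs F τ)) h]
  have e2 : ∀ w : InfinitePlace F, ∑ τ ∈ Finset.univ.filter (fun τ : M →+* ℂ =>
      mk (rs F τ) = w), h τ = Module.finrank F M * t w := by
    intro w
    have e3 : (Finset.univ.filter (fun τ : M →+* ℂ => rs F τ = w.embedding)) =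
        (Finset.univ.filter (fun τ : M →+* ℂ => mk (rs F τ) = w)).filter
          (fun τ => good F τ) := by
      ext τ
      rw [Finset.mem_filter, Finset.mem_filter, Finset.mem_filter, rs_eq_iff]
      tauto
    have e4 : ∑ τ ∈ Finset.univ.filter (fun τ : M →+* ℂ => mk (rs F τ) = w), h τ =
        ∑ τ ∈ Finset.univ.filter (fun τ : M →+* ℂ => rs F τ = w.embedding), t w := by
      rw [e3, Finset.sum_filter (s := Finset.univ.filter (fun τ : M →+* ℂ => mk (rs F τ) = w))]
      refine Finset.sum_congr rfl fun τ hτ' => ?_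
      rw [Finset.mem_filter] at hτ'
      rw [hh]
      simp only
      rw [hτ'.2]
    rw [e4, Finset.sum_const, card_embeddings, nsmul_eq_mul]
  rw [Finset.sum_congr rfl fun w _ => e2 w, ← Finset.mul_sum, ht, mul_zero]

/-- **Base change of a Hecke character**: the composition with the relative norm. -/
noncomputable def HeckeChar.bc (ψ : HeckeChar F) (M : Type) [Field M] [NumberField M]
    [Algebra F M] : HeckeChar M where
  modulus := ψ.modulus
  one_lt := ψ.one_lt
  toFun := ψ.toFun.comp (relNorm (𝓞 F) : Ideal (𝓞 M) →*₀ Ideal (𝓞 F)).toMonoidHom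
  norm_eq_one I hI := ψ.norm_eq_one _ ((coprime_relNorm_iff (by
    have := ψ.one_lt
    omega) I).2 hI)
  eq_zero I hI := ψ.eq_zero _ fun h => hI ((coprime_relNorm_iff (by
    have := ψ.one_lt
    omega) I).1 h)
  n := bcn ψ.n
  t := bct ψ.t
  sum_t := bct_sum ψ.t ψ.sum_t
  principal x hx hx1 := by
    have hm : ψ.modulus ≠ 0 := by
      have := ψ.one_lt
      omega
    have hxM : (x : M) ≠ 0 := by exact_mod_cast hx
    have h1 : (algebraMap (𝓞 F) F) (Algebra.intNorm (𝓞 F) (𝓞 M) x) =
        Algebra.norm F (algebraMap (𝓞 M) M x) := Algebra.algebraMap_intNorm x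
    have h2 : Algebra.intNorm (𝓞 F) (𝓞 M) x ≠ 0 := by
      intro h0
      rw [h0, map_zero] at h1
      exact hxM ((Algebra.norm_eq_zero_iff).1 h1.symm)
    change ψ.toFun (relNorm (𝓞 F) (Ideal.span {x})) = _
    rw [relNorm_singleton, ψ.principal _ h2 (norm_modEq hm hx1), ← arch_norm ψ.n ψ.t hxM]
    congr 1

lemma bc_apply (ψ : HeckeChar F) (I : Ideal (𝓞 M)) :
    (ψ.bc M).toFun I = ψ.toFun (relNorm (𝓞 F) I) := rfl

end places

end Pool.Agent.X298.HC
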