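import Pool.Agent.X298.HC.Sum

/-! Continuation of the Dirichlet series of a Hecke character; the mean value of the weight. -/

set_option autoImplicit false
set_option linter.unusedSectionVars false
open Filter Topology NumberField NumberField.InfinitePlace NumberField.Units Module Ideal

namespace Pool.Agent.X298.HC

open Pool.Agent.H484R2 Pool.Agent.W45.Ch

section avg
variable {ι : Type} [Fintype ι] [DecidableEq ι] (m : ℕ) [NeZero m]

/-- the mean value of an `m`-periodic function -/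
noncomputable def avg (W : (ι → ℤ) → ℂ) : ℂ :=
  (m : ℂ) ^ (-((Fintype.card ι : ℂ))) * ∑ η : ι → Fin m, W (Cont.dig m η)

/-- periodic -/
def Per (W : (ι → ℤ) → ℂ) : Prop := ∀ a y : ι → ℤ, W (a + (m : ℤ) • y) = W a

variable {m}

lemma avg_sum {κ : Type} (S : Finset κ) (W : κ → (ι → ℤ) → ℂ) :
    avg m (fun a => ∑ k ∈ S, W k a) = ∑ k ∈ S, avg m (W k) := by
  unfold avg
  rw [← Finset.mul_sum, Finset.sum_comm]

/-- values of a periodic function via residue classes -/
lemma per_eq {W : (ι → ℤ) → ℂ} (hW : Per m W) {a b : ι → ℤ}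
    (h : ∀ i, ((a i : ℤ) : ZMod m) = ((b i : ℤ) : ZMod m)) : W a = W b := by
  have h1 : ∀ i, ∃ c : ℤ, a i = b i + (m : ℤ) * c := by
    intro i
    have := (ZMod.intCast_eq_intCast_iff_dvd_sub (b i) (a i) m).1 (h i).symm
    obtain ⟨c, hc⟩ := this
    exact ⟨c, by linarith⟩
  choose c hc using h1
  have : a = b + (m : ℤ) • c := by
    funext i
    rw [Pi.add_apply, Pi.smul_apply, smul_eq_mul]
    exact hc i
  rw [this, hW]

/-- sum over a set of residue classes -/
lemma sum_dig {W : (ι → ℤ) → ℂ} (hW : Per m W) :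
    ∑ η : ι → Fin m, W (Cont.dig m η) = ∑ ζ : ι → ZMod m, W (fun i => ((ζ i).val : ℤ)) := by
  classical
  let e : (ι → Fin m) ≃ (ι → ZMod m) :=
    { toFun := fun η i => ((η i : ℕ) : ZMod m)
      invFun := fun ζ i => ⟨(ζ i).val, ZMod.val_lt _⟩
      left_inv := by
        intro η
        funext i
        apply Fin.ext
        simp only
        rw [ZMod.val_natCast, Nat.mod_eq_of_lt (η i).2]
      right_inv := by
        intro ζ
        funext i
        simp }
  rw [← e.sum_comp]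
  refine Finset.sum_congr rfl fun η _ => ?_
  refine per_eq hW fun i => ?_
  have h1 : ((((e η i).val : ℕ) : ℤ) : ZMod m) = e η i := by simp
  rw [h1]
  simp [e, Cont.dig]

/-- the mean value is invariant under translations -/
lemma avg_translate {W : (ι → ℤ) → ℂ} (hW : Per m W) (y : ι → ℤ) :
    avg m (fun a => W (a + y)) = avg m W := by
  classical
  have hW' : Per m (fun a => W (a + y)) := by
    intro a z
    simp only
    rw [add_right_comm, hW]
  unfold avg
  congr 1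
  rw [sum_dig hW, sum_dig hW']
  let e : (ι → ZMod m) ≃ (ι → ZMod m) := Equiv.addRight (fun i => ((y i : ℤ) : ZMod m))
  rw [← e.sum_comp (fun ζ => W fun i => ((ζ i).val : ℤ))]
  refine Finset.sum_congr rfl fun ζ _ => per_eq hW fun i => ?_
  have h1 : ((((e ζ i).val : ℕ) : ℤ) : ZMod m) = e ζ i := by simp
  rw [h1]
  simp [e]

/-- the limit of the weighted series at `z = 1` -/
lemma tendsto_weighted {g : (ι → ℤ) → ℂ → ℂ} (D : Cont.Data ι g) : ∃ ρ : ℂ, ∀ (m : ℕ) [NeZero m]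
    (W : (ι → ℤ) → ℂ), (∀ a, ‖W a‖ ≤ 1) → Per m W →
    Tendsto (fun ε : ℝ => (ε : ℂ) * ∑' a, W a * g a (1 + ε)) (𝓝[>] 0) (𝓝 (avg m W * ρ)) := by
  obtain ⟨h, hh1, hh2⟩ := D.continuation 0
  rw [Complex.ofReal_zero, zero_mul, add_zero] at hh1 hh2
  refine ⟨h 1, fun m _ W hW1 hW => ?_⟩
  have hm : 1 ≤ m := NeZero.one_le
  have hm0 : (m : ℂ) ≠ 0 := by exact_mod_cast (NeZero.ne m)
  have hpath : Tendsto (fun ε : ℝ => (1 : ℂ) + ε) (𝓝[>] 0) (𝓝 1) := by
    have h1 : Tendsto (fun ε : ℝ => (1 : ℂ) + ε) (𝓝 0) (𝓝 (1 + ((0 : ℝ) : ℂ))) := by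
      exact (continuous_const.add Complex.continuous_ofReal).tendsto 0
    rw [Complex.ofReal_zero, add_zero] at h1
    exact h1.mono_left nhdsWithin_le_nhds
  have hε0 : Tendsto (fun ε : ℝ => (ε : ℂ)) (𝓝[>] 0) (𝓝 0) := by
    have h1 : Tendsto (fun ε : ℝ => (ε : ℂ)) (𝓝 0) (𝓝 ((0 : ℝ) : ℂ)) :=
      Complex.continuous_ofReal.tendsto 0
    rw [Complex.ofReal_zero] at h1
    exact h1.mono_left nhdsWithin_le_nhds
  have hn1 : (1 : ℝ) ≤ Fintype.card ι := by exact_mod_cast D.card_pos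
  have hre : 1 - 1 / (2 * (Fintype.card ι : ℝ)) < (1 : ℂ).re := by
    have : (0 : ℝ) < 1 / (2 * (Fintype.card ι : ℝ)) := by positivity
    rw [Complex.one_re]
    linarith
  have hEr : ∀ η : ι → Fin m, Tendsto (fun ε : ℝ => Er g m η (1 + ε)) (𝓝[>] 0)
      (𝓝 (Er g m η 1)) := fun η =>
    ((analytic_Er D m hm η hre).continuousAt.tendsto).comp hpath
  have hcp : Tendsto (fun ε : ℝ => (m : ℂ) ^ (-((Fintype.card ι : ℂ) * (1 + ε)))) (𝓝[>] 0)
      (𝓝 ((m : ℂ) ^ (-((Fintype.card ι : ℂ) * 1)))) := by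
    have hd : Continuous fun z : ℂ => (m : ℂ) ^ (-((Fintype.card ι : ℂ) * z)) := by
      have : Differentiable ℂ fun z : ℂ => (m : ℂ) ^ (-((Fintype.card ι : ℂ) * z)) := by
        intro z
        exact DifferentiableAt.const_cpow (by fun_prop) (Or.inl hm0)
      exact this.continuous
    exact (hd.tendsto 1).comp hpath
  have hh : Tendsto (fun ε : ℝ => h (1 + ε)) (𝓝[>] 0) (𝓝 (h 1)) :=
    (hh1.continuousAt.tendsto).comp hpath
  have hlim : Tendsto (fun ε : ℝ => ∑ η : ι → Fin m, W (Cont.dig m η) *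
      ((ε : ℂ) * Er g m η (1 + ε) + (m : ℂ) ^ (-((Fintype.card ι : ℂ) * (1 + ε))) * h (1 + ε)))
      (𝓝[>] 0) (𝓝 (∑ η : ι → Fin m, W (Cont.dig m η) *
      (0 * Er g m η 1 + (m : ℂ) ^ (-((Fintype.card ι : ℂ) * 1)) * h 1))) := by
    refine tendsto_finsetSum _ fun η _ => ?_
    exact ((hε0.mul (hEr η)).add (hcp.mul hh)).const_mul _
  have hval : ∑ η : ι → Fin m, W (Cont.dig m η) *
      (0 * Er g m η 1 + (m : ℂ) ^ (-((Fintype.card ι : ℂ) * 1)) * h 1) = avg m W * h 1 := by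
    unfold avg
    rw [mul_one, Finset.mul_sum, Finset.sum_mul]
    refine Finset.sum_congr rfl fun η _ => ?_
    ring
  rw [hval] at hlim
  refine hlim.congr' ?_
  have hev := hpath.eventually hh2
  filter_upwards [hev, self_mem_nhdsWithin] with ε h1 h2
  have hε : (0 : ℝ) < ε := h2
  have hre1 : 1 < ((1 : ℂ) + ε).re := by
    rw [Complex.add_re, Complex.one_re, Complex.ofReal_re]
    linarith
  have h3 := h1 hre1
  rw [add_sub_cancel_left] at h3
  rw [tsum_weighted D m hre1 W hW1 (fun a η => by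
    rw [add_comm]
    exact hW _ _), h3, Finset.mul_sum]
  refine Finset.sum_congr rfl fun η _ => ?_
  ring

end avg

variable {K : Type} [Field K] [NumberField K] (ψ : HeckeChar K)

instance : NeZero ψ.modulus := ⟨by have := ψ.one_lt; omega⟩

/-- `(z - 1) L(z, ψ)` is analytic at every point of the edge -/
theorem continuation (t : ℝ) :
    ∃ h : ℂ → ℂ, AnalyticAt ℂ h (1 + t * Complex.I) ∧
      ∀ᶠ z in 𝓝 ((1 : ℂ) + t * Complex.I), 1 < z.re → h z = (z - 1) * LS ψ z := by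
  classical
  have hw : ∀ C : ClassGroup (𝓞 K), ∃ h : ℂ → ℂ, AnalyticAt ℂ h (1 + t * Complex.I) ∧
      ∀ᶠ z in 𝓝 ((1 : ℂ) + t * Complex.I), 1 < z.re → h z = (z - 1) *
        ∑' a, Wt ψ (rep K C).1 (rep K C).2 a * gX ψ.n ψ.t (rep K C).1 (rep K C).2 a z := by
    intro C
    refine weighted_continuation (dataX ψ.n ψ.t (rep K C).1 (rep K C).2 ψ.sum_t) ψ.modulus
      (Wt ψ (rep K C).1 (rep K C).2) (norm_Wt_le ψ _ _) ?_ t
    intro a η
    rw [add_comm]
    exact Wt_period ψ _ _ _ _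
  choose g hg1 hg2 using hw
  refine ⟨fun z => ∑ C : ClassGroup (𝓞 K),
    (absNorm (rep K C).1 : ℂ) ^ z / (torsionOrder K : ℂ) * g C z, ?_, ?_⟩
  · refine Finset.analyticAt_fun_sum _ fun C _ => ?_
    have hJ0 : (absNorm (rep K C).1 : ℂ) ≠ 0 := by
      have : absNorm (rep K C).1 ≠ 0 := by
        rw [Ne, absNorm_eq_zero_iff]
        exact (rep K C).2
      exact_mod_cast this
    refine AnalyticAt.mul ?_ (hg1 C)
    refine AnalyticAt.div ?_ analyticAt_const ?_
    · have hd : Differentiable ℂ fun z : ℂ => (absNorm (rep K C).1 : ℂ) ^ z := by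
        intro z
        exact DifferentiableAt.const_cpow differentiableAt_id (Or.inl hJ0)
      exact hd.analyticAt _
    · exact_mod_cast torsionOrder_ne_zero K
  · have h3 : ∀ᶠ z in 𝓝 ((1 : ℂ) + t * Complex.I), ∀ C : ClassGroup (𝓞 K),
        1 < z.re → g C z = (z - 1) * ∑' a, Wt ψ (rep K C).1 (rep K C).2 a *
          gX ψ.n ψ.t (rep K C).1 (rep K C).2 a z :=
      Filter.eventually_all.mpr fun C => hg2 C
    filter_upwards [h3] with z hz hz1
    rw [LS_eq ψ hz1, Finset.mul_sum]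
    refine Finset.sum_congr rfl fun C _ => ?_
    rw [hz C hz1]
    ring

end Pool.Agent.X298.HC
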