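import Pool.Agent.X298.HC.Defs
import Pool.Agent.W353.EH.Defs

/-!
# Twists by Hecke characters and products with varieties of Hecke type: definitions

`X` is a projective variety of dimension `d` over a number field `K`, given by homogeneous equations
with coefficients in `𝓞_K`, with Betti numbers `N a`.  `edgePoint i τ = i/2 + 1 + iτ` is a point of the
edge of the half plane of absolute convergence of `L(H^i, s)`; `size i τ B ε` is
`log |L(i/2 + 1 + iτ + ε)| / log(1/ε)` for the Euler product `L` with the factors `B`, it tends to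
`-m` if `L` has a meromorphic continuation of order `m` at the point (`HasOrder i τ B m`).
-/

set_option autoImplicit false

namespace Pool.Agent.X298.HC

open NumberField IsDedekindDomain Filter Topology Polynomial
open Pool.Agent.W353.EF (IsFrobenius LFun)
open Pool.Agent.W353.EH (edgePoint)

variable {K : Type} [Field K] [NumberField K] {n n' : ℕ}

/-- The characters `ψ N^{-iτ}` and `φ N^{-iσ}` of the idele classes are different, in the sense that the
heights `τ`, `σ` are different, or `ψ` and `φ` have different values on an ideal prime to both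
moduli. -/
def Distinct (ψ φ : HeckeChar K) (τ σ : ℝ) : Prop :=
  τ ≠ σ ∨ ∃ I : Ideal (𝓞 K), ψ.toFun I ≠ 0 ∧ φ.toFun I ≠ 0 ∧ ψ.toFun I ≠ φ.toFun I

/-- The squares of the characters are different, in the same sense. -/
def SquaresDistinct (ψ φ : HeckeChar K) (τ σ : ℝ) : Prop :=
  τ ≠ σ ∨ ∃ I : Ideal (𝓞 K), ψ.toFun I ≠ 0 ∧ φ.toFun I ≠ 0 ∧ ψ.toFun I ^ 2 ≠ φ.toFun I ^ 2

/-- `ψ(I) = 1` for all ideals `I` prime to the modulus. -/
def HeckeChar.IsTrivial (ψ : HeckeChar K) : Prop :=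
  ∀ I : Ideal (𝓞 K), ψ.toFun I ≠ 0 → ψ.toFun I = 1

/-- The polynomials `B v` are the Euler factors of `L(H^i(X) ⊗ ψ, s)`: `B_v(z) = ∏ (1 - ψ(v) α_j z)` for
almost all primes `v`, `α_1, …, α_N` the eigenvalues of Frobenius.  At the other primes `B v` is an
arbitrary polynomial, and no factor `1 / B_v(q_v^{-s})` has a pole at `s = i/2 + 1 + iτ`. -/
def IsTwist (X : Set (MvPolynomial (Fin n) (𝓞 K))) (d i N : ℕ) (ψ : HeckeChar K) (τ : ℝ)
    (B : HeightOneSpectrum (𝓞 K) → ℂ[X]) : Prop :=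
  (∀ᶠ v in cofinite, ∃ α : Fin N → ℂ, IsFrobenius X d i v α ∧
    ∀ z : ℂ, (B v).eval z = ∏ j, (1 - ψ.toFun v.asIdeal * α j * z)) ∧
  ∀ v, (B v).eval ((Ideal.absNorm v.asIdeal : ℂ) ^ (-edgePoint i τ)) ≠ 0

/-- `Y` is a projective variety of dimension `e` over `K`, with the Betti numbers `M b`, of Hecke type:
at almost all primes `v` the eigenvalues of Frobenius on `H^b(Y)` are the values
`φ_{b,l}(v) q_v^{b/2}`, `l = 1, …, M b`, of Hecke characters.  By the theorems of Shimura, Taniyama and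
Weil this is so for abelian varieties with complex multiplication and for the hypersurfaces of Fermat
(over suitable number fields `K`), and for the products of such varieties. -/
def IsHeckeType (Y : Set (MvPolynomial (Fin n') (𝓞 K))) (e : ℕ) (M : ℕ → ℕ)
    (φ : ∀ b, Fin (M b) → HeckeChar K) : Prop :=
  ∀ᶠ v : HeightOneSpectrum (𝓞 K) in cofinite, ∀ b ≤ 2 * e,
    IsFrobenius Y e b v fun l => (φ b l).toFun v.asIdeal *
      (Ideal.absNorm v.asIdeal : ℂ) ^ ((b : ℂ) / 2)

/-- The pairs `(a, b)` with `a + b = i`, `a ≤ 2 d` and `b ≤ 2 e`. -/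
def degrees (d e i : ℕ) : Finset (ℕ × ℕ) :=
  (Finset.HasAntidiagonal.antidiagonal i).filter fun p => p.1 ≤ 2 * d ∧ p.2 ≤ 2 * e

/-- The polynomials `B v` are the Euler factors of `L(H^i(X × Y), s)` (theorem of Künneth):
`B_v(z) = ∏ (1 - α_{a,k} β_{b,l} z)` for almost all primes `v`, the product over `a + b = i` and all
`k`, `l`, where `α_{a,k}` and `β_{b,l}` are the eigenvalues of Frobenius on `H^a(X)` and `H^b(Y)`.  At
the other primes `B v` is an arbitrary polynomial, and no factor `1 / B_v(q_v^{-s})` has a pole at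
`s = i/2 + 1 + iτ`. -/
def IsProduct (X : Set (MvPolynomial (Fin n) (𝓞 K))) (d : ℕ) (N : ℕ → ℕ)
    (Y : Set (MvPolynomial (Fin n') (𝓞 K))) (e : ℕ) (M : ℕ → ℕ) (i : ℕ) (τ : ℝ)
    (B : HeightOneSpectrum (𝓞 K) → ℂ[X]) : Prop :=
  (∀ᶠ v in cofinite, ∃ (α : ∀ a, Fin (N a) → ℂ) (β : ∀ b, Fin (M b) → ℂ),
    (∀ a ≤ 2 * d, IsFrobenius X d a v (α a)) ∧ (∀ b ≤ 2 * e, IsFrobenius Y e b v (β b)) ∧
    ∀ z : ℂ, (B v).eval z = ∏ p ∈ degrees d e i, ∏ k, ∏ l, (1 - α p.1 k * β p.2 l * z)) ∧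
  ∀ v, (B v).eval ((Ideal.absNorm v.asIdeal : ℂ) ^ (-edgePoint i τ)) ≠ 0

/-- The polynomials `B v` are the Euler factors of `L(H^i(X) ⊗ H^i(X), s)`:
`B_v(z) = ∏ (1 - α_j α_k z)` for almost all `v`; the others are arbitrary, without a pole of
`1 / B_v(q_v^{-s})` at `s = i + 1 = edgePoint (2 i) 0`. -/
def IsSquare (X : Set (MvPolynomial (Fin n) (𝓞 K))) (d i N : ℕ)
    (B : HeightOneSpectrum (𝓞 K) → ℂ[X]) : Prop :=
  (∀ᶠ v in cofinite, ∃ α : Fin N → ℂ, IsFrobenius X d i v α ∧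
    ∀ z : ℂ, (B v).eval z = ∏ j, ∏ k, (1 - α j * α k * z)) ∧
  ∀ v, (B v).eval ((Ideal.absNorm v.asIdeal : ℂ) ^ (-edgePoint (2 * i) 0)) ≠ 0

/-- For every `a ≤ 2 d` the number `R a` is equal to `(N a)²`, or it is the order of the pole of
`L(H^a(X) ⊗ H^a(X), s)` at `s = a + 1` (a meromorphic continuation to a neighbourhood of this point is
assumed in the second case). -/
def SecondMoment (X : Set (MvPolynomial (Fin n) (𝓞 K))) (d : ℕ) (N R : ℕ → ℕ) : Prop :=
  ∀ a ≤ 2 * d, R a = N a ^ 2 ∨ ∃ B : HeightOneSpectrum (𝓞 K) → ℂ[X],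
    IsSquare X d a (N a) B ∧ Pool.Agent.W353.EH.HasOrder (2 * a) 0 B (-(R a : ℤ))

open Classical in
/-- The number of the trivial characters in `H^b(Y)`: the order of the pole of `L(H^b(Y), s)` at
`s = b/2 + 1`. -/
noncomputable def trivials (M : ℕ → ℕ) (φ : ∀ b, Fin (M b) → HeckeChar K) (b : ℕ) : ℕ :=
  (Finset.univ.filter fun l => (φ b l).IsTrivial).card

open Classical in
/-- The number of the nontrivial characters in `H^b(Y)`. -/
noncomputable def nontrivials (M : ℕ → ℕ) (φ : ∀ b, Fin (M b) → HeckeChar K) (b : ℕ) : ℕ :=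
  (Finset.univ.filter fun l => ¬ (φ b l).IsTrivial).card

end Pool.Agent.X298.HC
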