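import Pool.Agent.X298.HC.Gram
import Pool.Agent.X298.HC.PDefs

/-! Bessel's inequality for Hecke characters: the core. -/

set_option autoImplicit false
set_option linter.unusedSectionVars false
open Filter Topology NumberField Ideal IsDedekindDomain ComplexConjugate

namespace Pool.Agent.X298.HC

open Pool.Agent.W540.BE Pool.Agent.H341R2

variable {K : Type} [Field K] [NumberField K]

/-- the quotient of two Hecke characters -/
noncomputable def quo (ψ φ : HeckeChar K) : HeckeChar K := ψ.mul φ.conj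

lemma av_quo (ψ φ : HeckeChar K) (τ σ : ℝ) (v : HeightOneSpectrum (𝓞 K)) :
    conj (av ψ τ v) * conj (conj (av φ σ v)) = av (quo φ ψ) (σ - τ) v := by
  unfold av quo
  have hq := two_le_nm v
  have hpos : 0 < nm K v := by omega
  have hqc : ((nm K v : ℕ) : ℂ) ≠ 0 := by
    have : nm K v ≠ 0 := by omega
    exact_mod_cast this
  rw [mul_apply, conj_apply, Complex.conj_conj, map_mul, conj_cpow_I hpos]
  have h5 : ((nm K v : ℕ) : ℂ) ^ (-(((σ - τ : ℝ) : ℂ) * Complex.I)) =
      ((nm K v : ℕ) : ℂ) ^ (τ * Complex.I) * ((nm K v : ℕ) : ℂ) ^ (-(σ * Complex.I)) := by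
    rw [← Complex.cpow_add _ _ hqc]
    congr 1
    push_cast
    ring
  rw [h5]
  ring

lemma norm_of_ne (ψ : HeckeChar K) {I : Ideal (𝓞 K)} (h : ψ.toFun I ≠ 0) : ‖ψ.toFun I‖ = 1 :=
  (norm_or ψ I).resolve_right h

lemma nt_of_sep {ψ φ : HeckeChar K} {τ σ : ℝ} (h : Distinct ψ φ τ σ) : NT (quo φ ψ) (σ - τ) := by
  rcases h with h | ⟨I, h1, h2, h3⟩
  · left
    intro h0
    exact h (sub_eq_zero.1 h0).symm
  · right
    refine ⟨I, ?_, ?_⟩
    · unfold quo
      rw [mul_apply, conj_apply]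
      exact mul_ne_zero h2 (by rwa [Ne, map_eq_zero])
    · unfold quo
      rw [mul_apply, conj_apply]
      intro h0
      apply h3
      have h4 : ψ.toFun I * (starRingEnd ℂ) (ψ.toFun I) = 1 := by
        rw [Complex.mul_conj, Complex.normSq_eq_norm_sq, norm_of_ne ψ h1]
        simp
      calc ψ.toFun I = ψ.toFun I * (φ.toFun I * (starRingEnd ℂ) (ψ.toFun I)) := by
            rw [h0, mul_one]
        _ = φ.toFun I * (ψ.toFun I * (starRingEnd ℂ) (ψ.toFun I)) := by ring
        _ = φ.toFun I := by rw [h4, mul_one]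

lemma nt2_of_sep2 {ψ φ : HeckeChar K} {τ σ : ℝ} (h : SquaresDistinct ψ φ τ σ) :
    NT ((quo φ ψ).mul (quo φ ψ)) (2 * (σ - τ)) := by
  rcases h with h | ⟨I, h1, h2, h3⟩
  · left
    intro h0
    have : σ - τ = 0 := by linarith
    exact h (sub_eq_zero.1 this).symm
  · right
    have h4 : ψ.toFun I * (starRingEnd ℂ) (ψ.toFun I) = 1 := by
      rw [Complex.mul_conj, Complex.normSq_eq_norm_sq, norm_of_ne ψ h1]
      simp
    refine ⟨I, ?_, ?_⟩
    · unfold quo
      rw [mul_apply, mul_apply, conj_apply]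
      have : φ.toFun I * (starRingEnd ℂ) (ψ.toFun I) ≠ 0 :=
        mul_ne_zero h2 (by rwa [Ne, map_eq_zero])
      exact mul_ne_zero this this
    · unfold quo
      rw [mul_apply, mul_apply, conj_apply]
      intro h0
      apply h3
      calc ψ.toFun I ^ 2 = ψ.toFun I ^ 2 * ((φ.toFun I * (starRingEnd ℂ) (ψ.toFun I)) *
            (φ.toFun I * (starRingEnd ℂ) (ψ.toFun I))) := by
            rw [h0, mul_one]
        _ = φ.toFun I ^ 2 * (ψ.toFun I * (starRingEnd ℂ) (ψ.toFun I)) ^ 2 := by ring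
        _ = φ.toFun I ^ 2 := by rw [h4, one_pow, mul_one]

/-- **The core inequality.** -/
theorem core {κ : Type*} [Fintype κ] (ψ : κ → HeckeChar K) (τ : κ → ℝ)
    (hsep : ∀ k l, k ≠ l → Distinct (ψ k) (ψ l) (τ k) (τ l))
    (t : HeightOneSpectrum (𝓞 K) → ℂ) {b : ℝ} (ht : ∀ v, ‖t v‖ ≤ b)
    (q : ℝ → ℝ) {b' : ℝ} (hq0 : ∀ᶠ ε : ℝ in 𝓝[>] 0, 0 ≤ q ε ∧ q ε ≤ b')
    (hq : ∀ δ : ℝ, 0 < δ → ∀ᶠ ε : ℝ in 𝓝[>] 0, (EP (nm K) ε fun v => ‖t v‖ ^ 2) / lam ε ≤ q ε + δ)
    (x : κ → ℝ → ℝ) (hx : ∀ k, Tendsto (fun ε : ℝ =>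
      (EP (nm K) ε fun v => (t v * av (ψ k) (τ k) v).re) / lam ε - x k ε) (𝓝[>] 0) (𝓝 0))
    (C : ℝ) {η : ℝ} (hη : 0 < η) :
    ∀ᶠ ε : ℝ in 𝓝[>] 0, ∀ c : κ → ℝ, (∀ k, |c k| ≤ C) →
      (∀ k l, k ≠ l → ¬ SquaresDistinct (ψ k) (ψ l) (τ k) (τ l) → 0 ≤ c k * c l) →
      (∑ k, c k * x k ε) ^ 2 ≤ q ε * ∑ k, c k ^ 2 + η := by
  classical
  have hN : NormSys (nm K) := normSys
  obtain ⟨p0⟩ : Nonempty (HeightOneSpectrum (𝓞 K)) := by
    obtain ⟨M, hM⟩ := Ideal.exists_maximal (𝓞 K)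
    exact ⟨⟨M, hM.isPrime, Ring.ne_bot_of_isMaximal_of_not_isField hM
      (RingOfIntegers.not_isField K)⟩⟩
  have hb0 : 0 ≤ b := (norm_nonneg _).trans (ht p0)
  set C1 : ℝ := |C| + 1 with hC1
  have hC1pos : 0 < C1 := by positivity
  set n : ℝ := ((Finset.univ : Finset κ).card : ℝ) with hn
  set b2 : ℝ := max b' (2 * b + 1) with hb2
  have hb20 : 0 ≤ b2 := le_max_of_le_right (by positivity)
  obtain ⟨δ, hδ0, hδ1, hδ⟩ : ∃ δ : ℝ, 0 < δ ∧ δ ≤ 1 ∧
      δ * (C1 ^ 2 * n ^ 2 * (2 * b2 + 1) + (b2 + 1) * (2 * C1 ^ 2 * n ^ 2) +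
        C1 ^ 2 * n ^ 2) ≤ η := by
    set D : ℝ := C1 ^ 2 * n ^ 2 * (2 * b2 + 1) + (b2 + 1) * (2 * C1 ^ 2 * n ^ 2) +
      C1 ^ 2 * n ^ 2 with hD
    have hD0 : 0 ≤ D := by positivity
    refine ⟨min 1 (η / (D + 1)), lt_min one_pos (by positivity), min_le_left _ _, ?_⟩
    calc min 1 (η / (D + 1)) * D ≤ η / (D + 1) * D :=
          mul_le_mul_of_nonneg_right (min_le_right _ _) hD0
      _ = η * (D / (D + 1)) := by ring
      _ ≤ η * 1 := by
          refine mul_le_mul_of_nonneg_left ?_ hη.le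
          rw [div_le_one (by linarith)]
          linarith
      _ = η := mul_one η
  -- the vectors
  set vv : κ → HeightOneSpectrum (𝓞 K) → ℂ := fun k v => conj (av (ψ k) (τ k) v) with hvv
  have hvvb : ∀ k v, ‖vv k v‖ ≤ 1 := fun k v => by
    rw [hvv]
    simp only
    rw [Complex.norm_conj]
    exact norm_av_le _ _ _
  have ev1 : ∀ᶠ ε : ℝ in 𝓝[>] 0, (EP (nm K) ε fun _ => 1) / lam ε < 1 + δ :=
    (EP_one K).eventually_lt_const (by linarith)
  have ev3 : ∀ᶠ ε : ℝ in 𝓝[>] 0, ∀ k,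
      |(EP (nm K) ε fun v => (t v * av (ψ k) (τ k) v).re) / lam ε - x k ε| < δ := by
    rw [Filter.eventually_all]
    intro k
    have := (Metric.tendsto_nhds.1 (hx k)) δ hδ0
    simpa [Real.dist_eq] using this
  have hup : ∀ k l, k ≠ l → ∀ᶠ ε : ℝ in 𝓝[>] 0,
      (EP (nm K) ε fun v => (vv k v * conj (vv l v)).re) / lam ε ≤ δ := by
    intro k l hkl
    obtain ⟨C2, hC2⟩ := EP_up (quo (ψ l) (ψ k)) (τ l - τ k) (nt_of_sep (hsep k l hkl))
    have hlim : Tendsto (fun ε : ℝ => C2 / lam ε) (𝓝[>] 0) (𝓝 0) :=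
      tendsto_const_nhds.div_atTop lam_tendsto
    filter_upwards [hC2, hlim.eventually_lt_const hδ0, lam_tendsto.eventually_gt_atTop 0]
      with ε h1 h2 h3
    have h4 : (EP (nm K) ε fun v => (vv k v * conj (vv l v)).re) =
        EP (nm K) ε fun v => (av (quo (ψ l) (ψ k)) (τ l - τ k) v).re := by
      congr 1
      funext v
      rw [← av_quo]
    rw [h4]
    exact (div_le_div_of_nonneg_right h1 h3.le).trans h2.le
  have hlow : ∀ k l, k ≠ l → SquaresDistinct (ψ k) (ψ l) (τ k) (τ l) → ∀ᶠ ε : ℝ in 𝓝[>] 0,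
      |(EP (nm K) ε fun v => (vv k v * conj (vv l v)).re) / lam ε| ≤ δ := by
    intro k l hkl h
    obtain ⟨C2, hC2⟩ := EP_bdd (quo (ψ l) (ψ k)) (τ l - τ k) (nt2_of_sep2 h)
    have hlim : Tendsto (fun ε : ℝ => C2 / lam ε) (𝓝[>] 0) (𝓝 0) :=
      tendsto_const_nhds.div_atTop lam_tendsto
    filter_upwards [hC2, hlim.eventually_lt_const hδ0, lam_tendsto.eventually_gt_atTop 0]
      with ε h1 h2 h3
    have h4 : (EP (nm K) ε fun v => (vv k v * conj (vv l v)).re) =
        EP (nm K) ε fun v => (av (quo (ψ l) (ψ k)) (τ l - τ k) v).re := by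
      congr 1
      funext v
      rw [← av_quo]
    rw [h4, abs_div, abs_of_pos h3]
    exact (div_le_div_of_nonneg_right h1 h3.le).trans h2.le
  have ev2 : ∀ᶠ ε : ℝ in 𝓝[>] 0, ∀ k l, k ≠ l →
      (EP (nm K) ε fun v => (vv k v * conj (vv l v)).re) / lam ε ≤ δ ∧
      (SquaresDistinct (ψ k) (ψ l) (τ k) (τ l) →
        |(EP (nm K) ε fun v => (vv k v * conj (vv l v)).re) / lam ε| ≤ δ) := by
    rw [Filter.eventually_all]
    intro k
    rw [Filter.eventually_all]
    intro l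
    by_cases hkl : k = l
    · exact Eventually.of_forall fun ε h => absurd hkl h
    · by_cases h2 : SquaresDistinct (ψ k) (ψ l) (τ k) (τ l)
      · filter_upwards [hup k l hkl, hlow k l hkl h2] with ε h3 h4
        exact fun _ => ⟨h3, fun _ => h4⟩
      · filter_upwards [hup k l hkl] with ε h3
        exact fun _ => ⟨h3, fun h => absurd h h2⟩
  filter_upwards [ev1, ev2, ev3, hq0, hq δ hδ0, self_mem_nhdsWithin,
    lam_tendsto.eventually_gt_atTop 0] with ε h1 h2 h3 h4 h5 h6 h7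
  have hε : (0 : ℝ) < ε := h6
  intro c hc hcs
  set E : κ → κ → ℝ := fun k l => (EP (nm K) ε fun v => (vv k v * conj (vv l v)).re) / lam ε
    with hE
  set y : κ → ℝ := fun k => (EP (nm K) ε fun v => (t v * av (ψ k) (τ k) v).re) / lam ε with hy
  set Q : ℝ := (EP (nm K) ε fun v => ‖t v‖ ^ 2) / lam ε with hQ
  have hgram : (∑ k, c k * y k) ^ 2 ≤ Q * ∑ k, ∑ l, (c k * c l) * E k l := by
    have hg := gram_sq hN p0 Finset.univ t vv b ht (fun _ => 1) hvvb c hε
    have e0 : ∀ k, (EP (nm K) ε fun p => (t p * conj (vv k p)).re) =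
        EP (nm K) ε fun v => (t v * av (ψ k) (τ k) v).re := by
      intro k
      congr 1
      funext v
      rw [hvv]
      simp only
      rw [Complex.conj_conj]
    have e1 : ∑ k, c k * y k =
        (∑ k, c k * EP (nm K) ε fun p => (t p * conj (vv k p)).re) / lam ε := by
      rw [Finset.sum_div]
      exact Finset.sum_congr rfl fun k _ => by rw [hy, e0]; ring
    have e2 : ∑ k, ∑ l, (c k * c l) * E k l =
        (∑ k, ∑ l, (c k * c l) * EP (nm K) ε fun p => (vv k p * conj (vv l p)).re) /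
          lam ε := by
      rw [Finset.sum_div]
      refine Finset.sum_congr rfl fun k _ => ?_
      rw [Finset.sum_div]
      exact Finset.sum_congr rfl fun l _ => by rw [hE]; ring
    rw [e1, e2, hQ, div_pow]
    have e3 : ((EP (nm K) ε fun v => ‖t v‖ ^ 2) / lam ε) *
        ((∑ k, ∑ l, (c k * c l) * EP (nm K) ε fun p => (vv k p * conj (vv l p)).re) / lam ε) =
        ((EP (nm K) ε fun v => ‖t v‖ ^ 2) *
          ∑ k, ∑ l, (c k * c l) * EP (nm K) ε fun p => (vv k p * conj (vv l p)).re) /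
          lam ε ^ 2 := by
      field_simp
    rw [e3]
    exact div_le_div_of_nonneg_right hg (by positivity)
  have hu0 : 0 ≤ EP (nm K) ε fun _ => 1 := EP_nonneg fun _ => zero_le_one
  have hyb : ∀ k, |y k| ≤ 2 * b := by
    intro k
    have hb1 : ∀ v, |(t v * av (ψ k) (τ k) v).re| ≤ b := by
      intro v
      refine (Complex.abs_re_le_norm _).trans ?_
      rw [norm_mul]
      calc ‖t v‖ * ‖av (ψ k) (τ k) v‖ ≤ b * 1 :=
            mul_le_mul (ht v) (norm_av_le _ _ _) (norm_nonneg _) hb0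
        _ = b := mul_one b
    have h8 : |EP (nm K) ε fun v => (t v * av (ψ k) (τ k) v).re| ≤ b * EP (nm K) ε fun _ => 1 := by
      rw [abs_le]
      constructor
      · have h9 := EP_le hN hε (φ := fun v => (-1) * (t v * av (ψ k) (τ k) v).re) (B := b)
          (fun v => by rw [abs_mul, abs_neg, abs_one, one_mul]; exact hb1 v) (b := b)
          (fun v => by have := (abs_le.1 (hb1 v)).1; linarith)
        rw [EP_const_mul] at h9
        linarith
      · exact EP_le hN hε hb1 fun v => (le_abs_self _).trans (hb1 v)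
    rw [hy]
    simp only
    rw [abs_div, abs_of_pos h7]
    calc |EP (nm K) ε fun v => (t v * av (ψ k) (τ k) v).re| / lam ε
        ≤ (b * EP (nm K) ε fun _ => 1) / lam ε := div_le_div_of_nonneg_right h8 h7.le
      _ = b * ((EP (nm K) ε fun _ => 1) / lam ε) := by ring
      _ ≤ b * 2 := mul_le_mul_of_nonneg_left (by linarith) hb0
      _ = 2 * b := mul_comm _ _
  have hxb : ∀ k ∈ (Finset.univ : Finset κ), |x k ε| ≤ b2 := by
    intro k _
    have h8 : |x k ε| ≤ |y k| + |y k - x k ε| := by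
      have : x k ε = y k - (y k - x k ε) := by ring
      calc |x k ε| = |y k - (y k - x k ε)| := by rw [← this]
        _ ≤ |y k| + |y k - x k ε| := abs_sub _ _
    refine (h8.trans ?_).trans (le_max_right _ _)
    have := hyb k
    have := (h3 k).le
    linarith
  have hdiag : ∀ k ∈ (Finset.univ : Finset κ), E k k ≤ 1 + δ := by
    intro k _
    rw [hE]
    simp only
    have h8 : (EP (nm K) ε fun v => (vv k v * conj (vv k v)).re) ≤ 1 * EP (nm K) ε fun _ => 1 := by
      have h9 : ∀ v, |(vv k v * conj (vv k v)).re| ≤ 1 := by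
        intro v
        refine (Complex.abs_re_le_norm _).trans ?_
        rw [norm_mul]
        have h10 : ‖conj (vv k v)‖ ≤ 1 := by
          rw [Complex.norm_conj]
          exact hvvb k v
        calc ‖vv k v‖ * ‖conj (vv k v)‖ ≤ (1 : ℝ) * 1 :=
              mul_le_mul (hvvb k v) h10 (norm_nonneg _) zero_le_one
          _ = 1 := one_mul _
      exact EP_le hN hε h9 fun v => (le_abs_self _).trans (h9 v)
    rw [one_mul] at h8
    exact (div_le_div_of_nonneg_right h8 h7.le).trans h1.le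
  have hstep := abstract_step (Finset.univ : Finset κ) (c := c) (x := fun k => x k ε) (y := y)
    (E := E) (Q := Q) (q := q ε) (u := 1 + δ) (δ := δ) (C := C1) (b := b2) hC1pos.le hδ0.le hδ1
    (div_nonneg (EP_nonneg fun _ => sq_nonneg _) h7.le) hgram h5 h4.1
    (h4.2.trans (le_max_left _ _)) hdiag le_rfl
    (by
      intro k _ l _ hkl
      obtain ⟨h8, h9⟩ := h2 k l hkl
      by_cases h10 : SquaresDistinct (ψ k) (ψ l) (τ k) (τ l)
      · refine (le_abs_self _).trans ?_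
        rw [abs_mul]
        exact mul_le_mul_of_nonneg_left (h9 h10) (abs_nonneg _)
      · have h11 := hcs k l hkl h10
        rw [abs_of_nonneg h11]
        exact mul_le_mul_of_nonneg_left h8 h11)
    (fun k _ => (hc k).trans ((le_abs_self C).trans (by rw [hC1]; linarith)))
    (fun k _ => by
      rw [abs_sub_comm]
      exact (h3 k).le) hxb
  refine hstep.trans ?_
  have := hδ
  linarith

end Pool.Agent.X298.HC
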