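import Pool.Agent.X298.HC.Kun

/-! The Gram inequality for families of Hecke characters that are not necessarily distinct. -/

set_option autoImplicit false
set_option linter.unusedSectionVars false
open Filter Topology NumberField Ideal IsDedekindDomain ComplexConjugate Polynomial

namespace Pool.Agent.X298.HC

open Pool.Agent.W540.BE Pool.Agent.H341R2

variable {K : Type} [Field K] [NumberField K] {n : ℕ}
variable {X : Set (MvPolynomial (Fin n) (𝓞 K))} {d a N : ℕ}

open scoped Classical in
/-- `1` if the characters are equal (at all ideals prime to both moduli), `0` if not -/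
noncomputable def same (ψ φ : HeckeChar K) (τ σ : ℝ) : ℝ := if Distinct ψ φ τ σ then 0 else 1

/-- **The Gram inequality for the limits.** -/
theorem gram_lim {κ : Type*} [Fintype κ] (ψ : κ → HeckeChar K) (τ : κ → ℝ) {U : Ultrafilter ℝ}
    (hU : (U : Filter ℝ) ≤ 𝓝[>] 0) {R : ℝ} (hR0 : 0 ≤ R)
    (hR : ∀ δ : ℝ, 0 < δ → ∀ᶠ ε : ℝ in 𝓝[>] 0,
      (EP (nm K) ε fun v => ‖tX X d a N v‖ ^ 2) / lam ε ≤ R + δ)
    (x : κ → ℝ) (hx : ∀ k, Tendsto (yX X d a N (ψ k) (τ k)) U (𝓝 (x k)))
    (c : κ → ℝ) (hc : ∀ k l, 0 ≤ c k * c l) :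
    (∑ k, c k * x k) ^ 2 ≤ R * ∑ k, ∑ l, c k * c l * same (ψ k) (ψ l) (τ k) (τ l) := by
  classical
  have hN : NormSys (nm K) := normSys
  obtain ⟨p0⟩ : Nonempty (HeightOneSpectrum (𝓞 K)) := by
    obtain ⟨M, hM⟩ := Ideal.exists_maximal (𝓞 K)
    exact ⟨⟨M, hM.isPrime, Ring.ne_bot_of_isMaximal_of_not_isField hM
      (RingOfIntegers.not_isField K)⟩⟩
  set G : ℝ := ∑ k, ∑ l, c k * c l * same (ψ k) (ψ l) (τ k) (τ l) with hG
  set A : ℝ := ∑ k, ∑ l, c k * c l with hA
  have hA0 : 0 ≤ A := Finset.sum_nonneg fun k _ => Finset.sum_nonneg fun l _ => hc k l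
  have hG0 : 0 ≤ G := Finset.sum_nonneg fun k _ => Finset.sum_nonneg fun l _ => by
    refine mul_nonneg (hc k l) ?_
    unfold same
    split_ifs <;> norm_num
  -- for every `δ`
  have hstep : ∀ δ : ℝ, 0 < δ → (∑ k, c k * x k) ^ 2 ≤ (R + δ) * (G + δ * A) := by
    intro δ hδ
    set vv : κ → HeightOneSpectrum (𝓞 K) → ℂ := fun k v => conj (av (ψ k) (τ k) v) with hvv
    have hvvb : ∀ k v, ‖vv k v‖ ≤ 1 := fun k v => by
      rw [hvv]
      simp only
      rw [Complex.norm_conj]
      exact norm_av_le _ _ _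
    have hpair : ∀ k l, ∀ᶠ ε : ℝ in 𝓝[>] 0,
        (EP (nm K) ε fun v => (vv k v * conj (vv l v)).re) / lam ε ≤
          same (ψ k) (ψ l) (τ k) (τ l) + δ := by
      intro k l
      by_cases hkl : Distinct (ψ k) (ψ l) (τ k) (τ l)
      · obtain ⟨C2, hC2⟩ := EP_up (quo (ψ l) (ψ k)) (τ l - τ k) (nt_of_sep hkl)
        have hlim : Tendsto (fun ε : ℝ => C2 / lam ε) (𝓝[>] 0) (𝓝 0) :=
          tendsto_const_nhds.div_atTop lam_tendsto
        filter_upwards [hC2, hlim.eventually_lt_const hδ, lam_tendsto.eventually_gt_atTop 0]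
          with ε h1 h2 h3
        have h4 : (EP (nm K) ε fun v => (vv k v * conj (vv l v)).re) =
            EP (nm K) ε fun v => (av (quo (ψ l) (ψ k)) (τ l - τ k) v).re := by
          congr 1
          funext v
          rw [← av_quo]
        rw [h4, same, if_pos hkl, zero_add]
        exact (div_le_div_of_nonneg_right h1 h3.le).trans h2.le
      · filter_upwards [(EP_one K).eventually_lt_const (show (1 : ℝ) < 1 + δ by linarith),
          self_mem_nhdsWithin, lam_tendsto.eventually_gt_atTop 0] with ε h1 h2 h3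
        have hε : (0 : ℝ) < ε := h2
        rw [same, if_neg hkl]
        have h8 : (EP (nm K) ε fun v => (vv k v * conj (vv l v)).re) ≤
            1 * EP (nm K) ε fun _ => 1 := by
          have h9 : ∀ v, |(vv k v * conj (vv l v)).re| ≤ 1 := by
            intro v
            refine (Complex.abs_re_le_norm _).trans ?_
            rw [norm_mul]
            have h10 : ‖conj (vv l v)‖ ≤ 1 := by
              rw [Complex.norm_conj]
              exact hvvb l v
            calc ‖vv k v‖ * ‖conj (vv l v)‖ ≤ (1 : ℝ) * 1 :=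
                  mul_le_mul (hvvb k v) h10 (norm_nonneg _) zero_le_one
              _ = 1 := one_mul _
          exact EP_le hN hε h9 fun v => (le_abs_self _).trans (h9 v)
        rw [one_mul] at h8
        exact (div_le_div_of_nonneg_right h8 h3.le).trans h1.le
    have hpair' : ∀ᶠ ε : ℝ in 𝓝[>] 0, ∀ k l,
        (EP (nm K) ε fun v => (vv k v * conj (vv l v)).re) / lam ε ≤
          same (ψ k) (ψ l) (τ k) (τ l) + δ :=
      Filter.eventually_all.2 fun k => Filter.eventually_all.2 fun l => hpair k l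
    have hlim : Tendsto (fun ε => (∑ k, c k * yX X d a N (ψ k) (τ k) ε) ^ 2) U
        (𝓝 ((∑ k, c k * x k) ^ 2)) :=
      (tendsto_finsetSum _ fun k _ => (hx k).const_mul _).pow 2
    refine le_of_tendsto hlim ?_
    refine hU ?_
    filter_upwards [hpair', hR δ hδ, self_mem_nhdsWithin, lam_tendsto.eventually_gt_atTop 0]
      with ε h1 h2 h3 h4
    have hε : (0 : ℝ) < ε := h3
    have hg := gram_sq hN p0 Finset.univ (tX X d a N) vv N (norm_tX_le X d a N) (fun _ => 1)
      hvvb c hε
    have e0 : ∀ k, (EP (nm K) ε fun p => (tX X d a N p * conj (vv k p)).re) =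
        EP (nm K) ε fun v => (tX X d a N v * av (ψ k) (τ k) v).re := by
      intro k
      congr 1
      funext v
      rw [hvv]
      simp only
      rw [Complex.conj_conj]
    have e1 : ∑ k, c k * yX X d a N (ψ k) (τ k) ε =
        (∑ k, c k * EP (nm K) ε fun p => (tX X d a N p * conj (vv k p)).re) / lam ε := by
      rw [Finset.sum_div]
      exact Finset.sum_congr rfl fun k _ => by rw [e0]; unfold yX; ring
    rw [e1, div_pow]
    have hEE : ∑ k, ∑ l, (c k * c l) * EP (nm K) ε (fun p => (vv k p * conj (vv l p)).re) ≤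
        lam ε * (G + δ * A) := by
      have h5 : ∀ k l, (c k * c l) * EP (nm K) ε (fun p => (vv k p * conj (vv l p)).re) ≤
          lam ε * (c k * c l * same (ψ k) (ψ l) (τ k) (τ l) + δ * (c k * c l)) := by
        intro k l
        have h6 := (div_le_iff₀ h4).1 (h1 k l)
        calc (c k * c l) * EP (nm K) ε (fun p => (vv k p * conj (vv l p)).re)
            ≤ (c k * c l) * ((same (ψ k) (ψ l) (τ k) (τ l) + δ) * lam ε) :=
              mul_le_mul_of_nonneg_left h6 (hc k l)
          _ = _ := by ring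
      refine (Finset.sum_le_sum fun k _ => Finset.sum_le_sum fun l _ => h5 k l).trans
        (le_of_eq ?_)
      rw [hG, hA, Finset.mul_sum, ← Finset.sum_add_distrib, Finset.mul_sum]
      refine Finset.sum_congr rfl fun k _ => ?_
      rw [Finset.mul_sum, ← Finset.sum_add_distrib, Finset.mul_sum]
    have hT0 : 0 ≤ EP (nm K) ε fun v => ‖tX X d a N v‖ ^ 2 := EP_nonneg fun _ => sq_nonneg _
    have hT : (EP (nm K) ε fun v => ‖tX X d a N v‖ ^ 2) ≤ (R + δ) * lam ε := (div_le_iff₀ h4).1 h2
    rw [div_le_iff₀ (by positivity)]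
    refine hg.trans ?_
    have hGA : 0 ≤ lam ε * (G + δ * A) := by positivity
    calc _ ≤ (EP (nm K) ε fun v => ‖tX X d a N v‖ ^ 2) * (lam ε * (G + δ * A)) :=
          mul_le_mul_of_nonneg_left hEE hT0
      _ ≤ ((R + δ) * lam ε) * (lam ε * (G + δ * A)) := mul_le_mul_of_nonneg_right hT hGA
      _ = (R + δ) * (G + δ * A) * lam ε ^ 2 := by ring
  -- let `δ → 0`
  have hcont : Tendsto (fun δ : ℝ => (R + δ) * (G + δ * A)) (𝓝[>] 0) (𝓝 ((R + 0) * (G + 0 * A))) := by
    have : Continuous fun δ : ℝ => (R + δ) * (G + δ * A) := by fun_prop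
    exact (this.tendsto 0).mono_left nhdsWithin_le_nhds
  rw [add_zero, zero_mul, add_zero] at hcont
  refine ge_of_tendsto hcont ?_
  filter_upwards [self_mem_nhdsWithin] with δ hδ
  exact hstep δ hδ

end Pool.Agent.X298.HC
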