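import Pool.Agent.X298.HC.Arch
import Pool.Agent.W45.Ch.Weighted

/-! The lattice data attached to a nonzero ideal and an archimedean character. -/

set_option autoImplicit false
open Filter Topology NumberField NumberField.InfinitePlace Module

namespace Pool.Agent.X298.HC

open Pool.Agent.H484R2

variable {K : Type} [Field K] [NumberField K] (n : InfinitePlace K → ℤ) (t : InfinitePlace K → ℝ)
  (J : Ideal (𝓞 K)) (hJ : J ≠ ⊥)

/-- the twisted family -/
noncomputable def gX (a : Idx K → ℤ) (s : ℂ) : ℂ :=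
  archimedean n t (xK K J hJ a) * gJ K J hJ a s

lemma norm_gX_le (a : Idx K → ℤ) (s : ℂ) : ‖gX n t J hJ a s‖ ≤ ‖gJ K J hJ a s‖ := by
  unfold gX
  by_cases ha : a = 0
  · subst ha
    rw [gJ_zero, mul_zero]
  · rw [norm_mul, norm_arch n t (xK_ne_zero K J hJ ha), one_mul]

lemma gX_hom (ht : ∑ w, t w = 0) (m : ℕ) (hm : 1 ≤ m) (a : Idx K → ℤ) (s : ℂ) :
    gX n t J hJ ((m : ℤ) • a) s =
      (m : ℂ) ^ (-((Fintype.card (Idx K) : ℂ) * s)) * gX n t J hJ a s := by
  unfold gX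
  rw [gJ_hom K J hJ m hm a s]
  by_cases ha : a = 0
  · subst ha
    rw [gJ_zero]
    ring
  · rw [xK_nsmul, arch_nat_mul n t ht (by omega) (xK_ne_zero K J hJ ha)]
    ring

lemma gX_lip (ht : ∑ w, t w = 0) (m : ℕ) (hm : 1 ≤ m) (R : ℝ) (hR : 0 < R) :
    ∃ C : ℝ, 0 ≤ C ∧ ∀ s : ℂ, ‖s‖ ≤ R →
    0 ≤ s.re → ∀ a : Idx K → ℤ, a ≠ 0 → ∀ η : Idx K → Fin m,
    ‖gX n t J hJ ((m : ℤ) • a + Cont.dig m η) s - gX n t J hJ ((m : ℤ) • a) s‖ ≤
      C * ‖a‖ ^ (-((Fintype.card (Idx K) : ℝ) * s.re + 1)) := by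
  obtain ⟨C1, hC1, h1⟩ := gJ_lip K J hJ m hm R hR
  obtain ⟨C2, hC2, h2⟩ := gJ_bound K J hJ R
  obtain ⟨T, κ, hT, hκ, hκ1, hclose⟩ := close_logs K J hJ
  obtain ⟨Λ, hΛ, hup⟩ := exists_upper K J hJ
  obtain ⟨C3, hC3, h3⟩ := arch_close n t
  set ν : ℝ := (Fintype.card (Idx K) : ℝ) with hν
  have hν0 : 0 ≤ ν := by rw [hν]; positivity
  set C4 : ℝ := 2 * T ^ (ν * R + 1) with hC4
  set C5 : ℝ := C3 * (Λ * m / κ + T) * C2 with hC5
  have hT0 : 0 < T := by linarith
  have hC50 : 0 ≤ C5 := by rw [hC5]; positivity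
  have hC40 : 0 ≤ C4 := by rw [hC4]; positivity
  refine ⟨C1 + C4 + C5, by positivity, fun s hsR hs a ha η => ?_⟩
  have hA1 : 1 ≤ ‖a‖ := Cont.one_le_norm ha
  have hA0 : 0 < ‖a‖ := by linarith
  have hpow : 0 < ‖a‖ ^ (-(ν * s.re + 1)) := by positivity
  have hma : (m : ℤ) • a ≠ 0 := smul_ne_zero (by positivity) ha
  have hσR : s.re ≤ R := (Complex.re_le_norm s).trans hsR
  by_cases hsmall : ‖a‖ < T
  · have h4 : ‖gX n t J hJ ((m : ℤ) • a + Cont.dig m η) s - gX n t J hJ ((m : ℤ) • a) s‖ ≤ 2 := by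
      refine (norm_sub_le _ _).trans ?_
      have := (norm_gX_le n t J hJ ((m : ℤ) • a + Cont.dig m η) s).trans
        (gJ_norm_le_one K J hJ ((m : ℤ) • a + Cont.dig m η) hs)
      have := (norm_gX_le n t J hJ ((m : ℤ) • a) s).trans
        (gJ_norm_le_one K J hJ ((m : ℤ) • a) hs)
      linarith
    have h5 : 1 ≤ T ^ (ν * R + 1) * ‖a‖ ^ (-(ν * s.re + 1)) := by
      rw [Real.rpow_neg hA0.le, ← div_eq_mul_inv, one_le_div (by positivity)]
      calc ‖a‖ ^ (ν * s.re + 1) ≤ T ^ (ν * s.re + 1) := by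
            apply Real.rpow_le_rpow hA0.le hsmall.le
            nlinarith
        _ ≤ T ^ (ν * R + 1) := by
            apply Real.rpow_le_rpow_of_exponent_le hT
            nlinarith
    calc _ ≤ (2 : ℝ) := h4
      _ ≤ C4 * ‖a‖ ^ (-(ν * s.re + 1)) := by rw [hC4]; nlinarith
      _ ≤ _ := by
          gcongr
          linarith
  · push Not at hsmall
    have e1 : gX n t J hJ ((m : ℤ) • a + Cont.dig m η) s - gX n t J hJ ((m : ℤ) • a) s =
        archimedean n t (xK K J hJ ((m : ℤ) • a + Cont.dig m η)) *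
          (gJ K J hJ ((m : ℤ) • a + Cont.dig m η) s - gJ K J hJ ((m : ℤ) • a) s) +
        (archimedean n t (xK K J hJ ((m : ℤ) • a + Cont.dig m η)) -
          archimedean n t (xK K J hJ ((m : ℤ) • a))) * gJ K J hJ ((m : ℤ) • a) s := by
      unfold gX
      ring
    rw [e1]
    refine (norm_add_le _ _).trans ?_
    by_cases hp : psi K (xK K J hJ ((m : ℤ) • a)) = 0
    · -- the second summand vanishes
      have e2 : gJ K J hJ ((m : ℤ) • a) s = 0 := by
        rw [gJ_ne K J hJ hma, hp]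
        simp
      rw [e2, mul_zero, norm_zero, add_zero, sub_zero]
      have h6 := h1 s hsR hs a ha η
      rw [e2, sub_zero] at h6
      have h7 : ‖archimedean n t (xK K J hJ ((m : ℤ) • a + Cont.dig m η)) *
          gJ K J hJ ((m : ℤ) • a + Cont.dig m η) s‖ ≤
          ‖gJ K J hJ ((m : ℤ) • a + Cont.dig m η) s‖ := norm_gX_le n t J hJ _ s
      refine (h7.trans h6).trans ?_
      gcongr
      linarith
    · have hc := hclose m hm a hsmall η (Or.inl hp)
      set x := xK K J hJ ((m : ℤ) • a) with hx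
      set x' := xK K J hJ ((m : ℤ) • a + Cont.dig m η) with hx'
      have hx0 : x ≠ 0 := xK_ne_zero K J hJ hma
      have hx'0 : x' ≠ 0 := by
        intro h0
        obtain ⟨w⟩ := (inferInstance : Nonempty (InfinitePlace K))
        have := (hc w).2.1
        rw [h0, map_zero] at this
        have : 0 < κ * ‖a‖ := by positivity
        linarith
      have h6 : ‖archimedean n t x' - archimedean n t x‖ ≤
          C3 * ((Λ * m) / (κ * ‖a‖) + T / ‖a‖) := by
        refine h3 x' x hx'0 hx0 (κ * ‖a‖) (Λ * m) (T / ‖a‖) (by positivity) (by positivity)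
          (by positivity) fun w => ⟨(hc w).2.1, (hc w).1, ?_, (hc w).2.2⟩
        have h7 : x' - x = xK K J hJ (Cont.dig m η) := by
          rw [hx', hx, xK_add]; ring
        rw [h7]
        refine (hup _ w).trans ?_
        gcongr
        exact norm_dig_le K η
      have h8 : ‖gJ K J hJ ((m : ℤ) • a) s‖ ≤ C2 * ‖a‖ ^ (-(ν * s.re)) := by
        refine (h2 s hsR hs _ hma).trans ?_
        have h9 : ‖a‖ ≤ ‖(m : ℤ) • a‖ := by
          rw [norm_smul]
          have : (1 : ℝ) ≤ ‖(m : ℤ)‖ := by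
            rw [Int.norm_natCast]
            exact_mod_cast hm
          nlinarith
        gcongr C2 * ?_
        rw [Real.rpow_neg (norm_nonneg _), Real.rpow_neg hA0.le]
        have : 0 ≤ ν * s.re := by positivity
        gcongr
      have h10 : ‖archimedean n t x' * (gJ K J hJ ((m : ℤ) • a + Cont.dig m η) s -
          gJ K J hJ ((m : ℤ) • a) s)‖ ≤ C1 * ‖a‖ ^ (-(ν * s.re + 1)) := by
        rw [norm_mul, norm_arch n t hx'0, one_mul]
        exact h1 s hsR hs a ha η
      have hAA : ‖a‖ ^ (-(ν * s.re + 1)) = ‖a‖ ^ (-(ν * s.re)) / ‖a‖ := by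
        rw [neg_add, Real.rpow_add hA0, Real.rpow_neg_one]
        rfl
      have h11 : ‖(archimedean n t x' - archimedean n t x) * gJ K J hJ ((m : ℤ) • a) s‖ ≤
          C5 * ‖a‖ ^ (-(ν * s.re + 1)) := by
        rw [norm_mul]
        calc _ ≤ (C3 * ((Λ * m) / (κ * ‖a‖) + T / ‖a‖)) * (C2 * ‖a‖ ^ (-(ν * s.re))) := by
              gcongr
          _ = _ := by
              rw [hAA, hC5]
              field_simp
      calc _ ≤ C1 * ‖a‖ ^ (-(ν * s.re + 1)) + C5 * ‖a‖ ^ (-(ν * s.re + 1)) := add_le_add h10 h11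
        _ ≤ _ := by nlinarith

theorem dataX (ht : ∑ w, t w = 0) : Cont.Data (Idx K) (gX n t J hJ) where
  card_pos := by rw [card_idx]; exact finrank_pos
  han := fun a => by
    unfold gX
    exact (gJ_diff K J hJ a).const_mul _
  h0 := fun s => by
    unfold gX
    rw [gJ_zero, mul_zero]
  hhom := fun m hm a s => gX_hom n t J hJ ht m hm a s
  hb := fun R _ => by
    obtain ⟨C, hC, h⟩ := gJ_bound K J hJ R
    exact ⟨C, hC, fun s h1 h2 a ha => (norm_gX_le n t J hJ a s).trans (h s h1 h2 a ha)⟩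
  hlip := fun m hm R hR => gX_lip n t J hJ ht m hm R hR

end Pool.Agent.X298.HC
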