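import Mathlib

/-!
# Unitary Hecke characters of a number field: definitions
-/

set_option autoImplicit false

namespace Pool.Agent.X298.HC

open NumberField

/-- The character `∏_w (σ_w(x) / |σ_w(x)|)^{n_w} |σ_w(x)|^{i t_w}` of the group of the nonzero elements of
`K`, the product over the infinite places `w` of `K`, `σ_w` an embedding of `K` into `ℂ` belonging to
`w`. -/
noncomputable def archimedean {K : Type} [Field K] [NumberField K] (n : InfinitePlace K → ℤ)
    (t : InfinitePlace K → ℝ) (x : K) : ℂ :=
  ∏ w : InfinitePlace K, (w.embedding x / ((w x : ℝ) : ℂ)) ^ (n w) *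
    Complex.exp (((t w * Real.log (w x) : ℝ) : ℂ) * Complex.I)

/-- A unitary Hecke character (Größencharakter) `ψ` of `K`, in the language of ideals: a completely
multiplicative function on the ideals, of absolute value one on the ideals prime to the modulus and
zero on the others, such that `ψ((x)) = ∏_w (σ_w(x) / |σ_w(x)|)^{n_w} |σ_w(x)|^{i t_w}` for all nonzero
integers `x` of `K` congruent to `1` modulo the modulus.  The modulus is a natural number greater than
one (every modulus divides such a number), and `∑_w t_w = 0` (every unitary Hecke character is the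
product of such a character and a power `N^{iτ}` of the norm). -/
structure HeckeChar (K : Type) [Field K] [NumberField K] where
  /-- the modulus -/
  modulus : ℕ
  one_lt : 1 < modulus
  /-- the values -/
  toFun : Ideal (𝓞 K) →* ℂ
  norm_eq_one : ∀ I : Ideal (𝓞 K), IsCoprime I (Ideal.span {(modulus : 𝓞 K)}) → ‖toFun I‖ = 1
  eq_zero : ∀ I : Ideal (𝓞 K), ¬ IsCoprime I (Ideal.span {(modulus : 𝓞 K)}) → toFun I = 0
  /-- the exponents of the angles -/
  n : InfinitePlace K → ℤ
  /-- the exponents of the absolute values -/
  t : InfinitePlace K → ℝ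
  sum_t : ∑ w, t w = 0
  principal : ∀ x : 𝓞 K, x ≠ 0 → (modulus : 𝓞 K) ∣ x - 1 →
    toFun (Ideal.span {x}) = archimedean n t (x : K)

end Pool.Agent.X298.HC
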