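import Pool.Agent.X298.HC.Ultra
import Pool.Agent.W353.PV.Ord

/-! The theorems. -/

set_option autoImplicit false
set_option linter.unusedSectionVars false
open Filter Topology NumberField Ideal IsDedekindDomain ComplexConjugate Polynomial

namespace Pool.Agent.X298.HC

open Pool.Agent.W540.BE Pool.Agent.H341R2
open Pool.Agent.W353.EF (LFun)
open Pool.Agent.W353.EH (edgePoint size HasOrder IsEulerSystem)

variable {K : Type} [Field K] [NumberField K] {n : ℕ}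
variable {X : Set (MvPolynomial (Fin n) (𝓞 K))} {d a N : ℕ}

theorem edge_re (i : ℕ) (τ : ℝ) : (edgePoint i τ).re = (i : ℝ) / 2 + 1 := by
  unfold edgePoint
  simp

/-- the limit of the size is minus the order -/
theorem size_lim {i : ℕ} {τ : ℝ} {B : HeightOneSpectrum (𝓞 K) → ℂ[X]}
    (hne : ∀ᶠ ε : ℝ in 𝓝[>] 0, Pool.Agent.W353.EF.LFun B (edgePoint i τ + ε) ≠ 0) {m : ℤ}
    (hm : HasOrder i τ B m) : Tendsto (size i τ B) (𝓝[>] 0) (𝓝 (-(m : ℝ))) := by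
  obtain ⟨Λ, h1, h2, h3⟩ := hm
  exact Pool.Agent.W353.PV.lim_ord hne h1 (h2.mono fun s hs hs' => hs (by
    rw [edge_re] at hs'
    exact hs')) h3

theorem twist_lim (ha : a ≤ 2 * d) {ψ : HeckeChar K} {τ : ℝ}
    {B : HeightOneSpectrum (𝓞 K) → ℂ[X]} (hB : IsTwist X d a N ψ τ B) {m : ℤ}
    (hm : HasOrder a τ B m) : Tendsto (yX X d a N ψ τ) (𝓝[>] 0) (𝓝 (-(m : ℝ))) := by
  have h := twist_size ha hB
  have h2 := h.2.add (size_lim h.1 hm)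
  rw [zero_add] at h2
  refine h2.congr fun ε => ?_
  ring

/-- the bound of the second moment -/
theorem square_bound (ha : a ≤ 2 * d) {B : HeightOneSpectrum (𝓞 K) → ℂ[X]}
    (hB : IsSquare X d a N B) {R : ℕ} (hR : HasOrder (2 * a) 0 B (-(R : ℤ))) :
    ∀ δ : ℝ, 0 < δ → ∀ᶠ ε : ℝ in 𝓝[>] 0,
      (EP (nm K) ε fun v => ‖tX X d a N v‖ ^ 2) / lam ε ≤ R + δ := by
  intro δ hδ
  have h := square_size ha hB
  have h2 := h.2.add (size_lim h.1 hR)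
  have h3 : Tendsto (fun ε : ℝ => (EP (nm K) ε fun v => ‖tX X d a N v‖ ^ 2) / lam ε) (𝓝[>] 0)
      (𝓝 R) := by
    have e : (0 : ℝ) + -((-(R : ℤ) : ℤ) : ℝ) = R := by push_cast; ring
    rw [e] at h2
    refine h2.congr fun ε => ?_
    ring
  exact (h3.eventually_lt_const (by linarith)).mono fun ε h => h.le

/-- the bound of the second moment, both cases -/
theorem second {N' R : ℕ → ℕ} (h : SecondMoment X d N' R) (ha : a ≤ 2 * d) :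
    ∀ δ : ℝ, 0 < δ → ∀ᶠ ε : ℝ in 𝓝[>] 0,
      (EP (nm K) ε fun v => ‖tX X d a (N' a) v‖ ^ 2) / lam ε ≤ R a + δ := by
  rcases h a ha with h1 | ⟨B, h1, h2⟩
  · have := sq_mean X d a (N' a)
    rw [h1]
    push_cast
    exact this
  · exact square_bound ha h1 h2

lemma exists_ultra : ∃ U : Ultrafilter ℝ, (U : Filter ℝ) ≤ 𝓝[>] 0 :=
  ⟨Ultrafilter.of _, Ultrafilter.of_le _⟩

/-- Bessel's inequality for the orders -/
theorem bessel_orders (ha : a ≤ 2 * d) {κ : Type*} [Fintype κ] (ψ : κ → HeckeChar K) (τ : κ → ℝ)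
    (hsep : ∀ k l, k ≠ l → Distinct (ψ k) (ψ l) (τ k) (τ l))
    (B : κ → HeightOneSpectrum (𝓞 K) → ℂ[X]) (hB : ∀ k, IsTwist X d a N (ψ k) (τ k) (B k))
    (m : κ → ℤ) (hm : ∀ k, HasOrder a (τ k) (B k) (m k)) {R : ℕ}
    (hR : ∀ δ : ℝ, 0 < δ → ∀ᶠ ε : ℝ in 𝓝[>] 0,
      (EP (nm K) ε fun v => ‖tX X d a N v‖ ^ 2) / lam ε ≤ R + δ)
    (J : Finset κ) (hJ : ∀ k ∈ J, ∀ l ∈ J, k ≠ l →
      ¬ SquaresDistinct (ψ k) (ψ l) (τ k) (τ l) → 0 ≤ m k * m l) :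
    ∑ k ∈ J, m k ^ 2 ≤ (R : ℤ) := by
  obtain ⟨U, hU⟩ := exists_ultra
  have h := bessel_lim ψ τ hsep hU (Nat.cast_nonneg R) hR (fun k => -(m k : ℝ))
    (fun k => (twist_lim ha (hB k) (hm k)).mono_left hU) J (by
      intro k hk l hl hkl hs
      have := hJ k hk l hl hkl hs
      have h2 : (0 : ℝ) ≤ (m k : ℝ) * m l := by exact_mod_cast this
      linarith)
  have e : ∑ k ∈ J, (-(m k : ℝ)) ^ 2 = ((∑ k ∈ J, m k ^ 2 : ℤ) : ℝ) := by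
    push_cast
    exact Finset.sum_congr rfl fun k _ => by ring
  rw [e] at h
  exact_mod_cast h

/-- Bessel's inequality for the sizes -/
theorem bessel_sizes (ha : a ≤ 2 * d) {κ : Type*} [Fintype κ] (ψ : κ → HeckeChar K) (τ : κ → ℝ)
    (hsep : ∀ k l, k ≠ l → Distinct (ψ k) (ψ l) (τ k) (τ l))
    (B : κ → HeightOneSpectrum (𝓞 K) → ℂ[X]) (hB : ∀ k, IsTwist X d a N (ψ k) (τ k) (B k))
    {η : ℝ} (hη : 0 < η) : ∀ᶠ ε : ℝ in 𝓝[>] 0, ∀ J : Finset κ,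
      (∀ k ∈ J, ∀ l ∈ J, k ≠ l → ¬ SquaresDistinct (ψ k) (ψ l) (τ k) (τ l) →
        0 ≤ size a (τ k) (B k) ε * size a (τ l) (B l) ε) →
      ∑ k ∈ J, size a (τ k) (B k) ε ^ 2 ≤ (N : ℝ) ^ 2 + η := by
  classical
  by_contra hcon
  rw [not_eventually] at hcon
  obtain ⟨U, hU, hU2⟩ : ∃ U : Ultrafilter ℝ, (U : Filter ℝ) ≤ 𝓝[>] 0 ∧
      ∀ᶠ ε in (U : Filter ℝ), ¬ ∀ J : Finset κ,
      (∀ k ∈ J, ∀ l ∈ J, k ≠ l → ¬ SquaresDistinct (ψ k) (ψ l) (τ k) (τ l) →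
        0 ≤ size a (τ k) (B k) ε * size a (τ l) (B l) ε) →
      ∑ k ∈ J, size a (τ k) (B k) ε ^ 2 ≤ (N : ℝ) ^ 2 + η := by
    set A : Set ℝ := {ε | ¬ ∀ J : Finset κ,
      (∀ k ∈ J, ∀ l ∈ J, k ≠ l → ¬ SquaresDistinct (ψ k) (ψ l) (τ k) (τ l) →
        0 ≤ size a (τ k) (B k) ε * size a (τ l) (B l) ε) →
      ∑ k ∈ J, size a (τ k) (B k) ε ^ 2 ≤ (N : ℝ) ^ 2 + η} with hA
    have hne' : (𝓝[>] (0 : ℝ) ⊓ 𝓟 A).NeBot := frequently_iff_neBot.1 hcon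
    refine ⟨Ultrafilter.of (𝓝[>] (0 : ℝ) ⊓ 𝓟 A), (Ultrafilter.of_le _).trans inf_le_left, ?_⟩
    have h1 : ((Ultrafilter.of (𝓝[>] (0 : ℝ) ⊓ 𝓟 A) : Ultrafilter ℝ) : Filter ℝ) ≤
        𝓟 A := (Ultrafilter.of_le _).trans inf_le_right
    exact h1 (mem_principal_self _)
  -- one set `J` for almost all `ε`
  obtain ⟨J, hJ⟩ : ∃ J : Finset κ, ∀ᶠ ε in (U : Filter ℝ),
      (∀ k ∈ J, ∀ l ∈ J, k ≠ l → ¬ SquaresDistinct (ψ k) (ψ l) (τ k) (τ l) →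
        0 ≤ size a (τ k) (B k) ε * size a (τ l) (B l) ε) ∧
      (N : ℝ) ^ 2 + η < ∑ k ∈ J, size a (τ k) (B k) ε ^ 2 := by
    by_contra hno
    push Not at hno
    have h2 := Filter.eventually_all.2 hno
    obtain ⟨ε, h3, h4⟩ := (h2.and hU2).exists
    exact h4 h3
  choose x hx using fun k => exists_lim (U := U) (hU (yX_bdd X d a N (ψ k) (τ k)))
  have hs : ∀ k, Tendsto (size a (τ k) (B k)) U (𝓝 (x k)) := by
    intro k
    have h := (hx k).sub ((twist_size ha (hB k)).2.mono_left hU)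
    rw [sub_zero] at h
    refine h.congr fun ε => ?_
    ring
  have hb := bessel_lim ψ τ hsep hU (sq_nonneg (N : ℝ)) (sq_mean X d a N) x hx J (by
    intro k hk l hl hkl hsd
    refine ge_of_tendsto ((hs k).mul (hs l)) ?_
    filter_upwards [hJ] with ε hε
    exact hε.1 k hk l hl hkl hsd)
  have hlim : Tendsto (fun ε => ∑ k ∈ J, size a (τ k) (B k) ε ^ 2) U (𝓝 (∑ k ∈ J, x k ^ 2)) :=
    tendsto_finsetSum _ fun k _ => (hs k).pow 2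
  have h6 : (N : ℝ) ^ 2 + η ≤ ∑ k ∈ J, x k ^ 2 := by
    refine ge_of_tendsto hlim ?_
    filter_upwards [hJ] with ε hε
    exact hε.2.le
  linarith

end Pool.Agent.X298.HC
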