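import Pool.Agent.X298.HC.Mean
import Pool.Agent.X298.HC.PDefs
import Pool.Agent.Y772.HG.Tot
import Pool.Agent.Y773.HG.Ent

/-! The quadratic characters: `L(1, ψ) ≠ 0`, and the boundedness of the means for all nontrivial
characters. -/

set_option autoImplicit false
set_option linter.unusedSectionVars false
open Filter Topology NumberField Ideal IsDedekindDomain ComplexConjugate NumberField.InfinitePlace

namespace Pool.Agent.X298.HC

open Pool.Agent.H484R2 Pool.Agent.W540.BE Pool.Agent.H341R2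

variable {K : Type} [Field K] [NumberField K]

lemma loc_one (a : ℤ) (b : ℝ) (w : InfinitePlace K) : loc a b w 1 = 1 := by
  unfold loc
  simp

lemma exists_approx (a : InfinitePlace K → K) {δ : ℝ} (hδ : 0 < δ) :
    ∃ u : K, ∀ w : InfinitePlace K, w (u - a w) < δ := by
  have h := InfinitePlace.denseRange_algebraMap_pi K
  have h2 := h.exists_mem_open (s := {f : (v : InfinitePlace K) → WithAbs v.1 |
    ∀ v, dist (f v) ((WithAbs.equiv v.1).symm (a v)) < δ}) (by
      rw [Set.ofPred_forall]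
      exact isOpen_iInter_of_finite fun v =>
        isOpen_lt ((continuous_apply v).dist continuous_const) continuous_const)
    ⟨fun v => (WithAbs.equiv v.1).symm (a v), fun v => by simpa using hδ⟩
  obtain ⟨u, hu⟩ := h2
  refine ⟨u, fun w => ?_⟩
  have h3 := hu w
  rw [dist_eq_norm] at h3
  exact h3

lemma log_close {a b c : ℝ} (hc : 0 < c) (ha : c ≤ a) (hb : c ≤ b) :
    |Real.log a - Real.log b| ≤ |a - b| / c := by
  wlog hab : b ≤ a with H
  · rw [abs_sub_comm, abs_sub_comm a b]
    exact H hc hb ha (le_of_not_ge hab)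
  have ha0 : 0 < a := hc.trans_le ha
  have hb0 : 0 < b := hc.trans_le hb
  have h1 : Real.log a - Real.log b = Real.log (a / b) := (Real.log_div ha0.ne' hb0.ne').symm
  have h2 : 0 ≤ Real.log (a / b) := Real.log_nonneg ((one_le_div hb0).2 hab)
  rw [h1, abs_of_nonneg h2, abs_of_nonneg (sub_nonneg.2 hab)]
  have h3 : Real.log (a / b) ≤ a / b - 1 := Real.log_le_sub_one_of_pos (by positivity)
  have h4 : a / b - 1 = (a - b) / b := by field_simp
  rw [h4] at h3
  refine h3.trans ?_
  have : 0 ≤ a - b := sub_nonneg.2 hab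
  gcongr

lemma arch_approx (n : InfinitePlace K → ℤ) (t : InfinitePlace K → ℝ) (a : InfinitePlace K → K)
    (ha : ∀ w, a w ≠ 0) {η : ℝ} (hη : 0 < η) :
    ∃ u : K, u ≠ 0 ∧ ∀ w, ‖loc (n w) (t w) w u - loc (n w) (t w) w (a w)‖ ≤ η := by
  classical
  -- a common lower bound
  obtain ⟨c, hc0, hc⟩ : ∃ c : ℝ, 0 < c ∧ ∀ w : InfinitePlace K, 2 * c ≤ w (a w) := by
    obtain ⟨w0, hw0⟩ := Finite.exists_min fun w : InfinitePlace K => w (a w)
    refine ⟨w0 (a w0) / 2, by
      have := place_pos w0 (ha w0)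
      positivity, fun w => ?_⟩
    have := hw0 w
    linarith
  obtain ⟨A, hA0, hA⟩ : ∃ A : ℝ, 0 < A ∧ ∀ w : InfinitePlace K, 2 * |(n w : ℝ)| + |t w| ≤ A := by
    refine ⟨∑ w, (2 * |(n w : ℝ)| + |t w|) + 1, by positivity, fun w => ?_⟩
    have h1 := Finset.single_le_sum (f := fun w : InfinitePlace K => 2 * |(n w : ℝ)| + |t w|)
      (fun w _ => by positivity) (Finset.mem_univ w)
    linarith
  obtain ⟨u, hu⟩ := exists_approx a (δ := min c (η * c / A)) (by positivity)
  have hcu : ∀ w : InfinitePlace K, c ≤ w u := by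
    intro w
    have h1 : w (a w) ≤ w u + w (u - a w) := by
      have h2 : a w = u - (u - a w) := by ring
      calc w (a w) = w (u - (u - a w)) := by rw [← h2]
        _ ≤ w u + w (u - a w) := by
          have := w.1.sub_le_add u (u - a w)
          exact this
    have h2 := (hu w).trans_le (min_le_left _ _)
    have h3 := hc w
    linarith
  refine ⟨u, ?_, fun w => ?_⟩
  · rintro rfl
    obtain ⟨w0⟩ := (inferInstance : Nonempty (InfinitePlace K))
    have := hcu w0
    rw [map_zero] at this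
    linarith
  have h1 := (hu w).le.trans (min_le_right _ _)
  have hca : c ≤ w (a w) := by
    have := hc w
    linarith
  have hu0 : u ≠ 0 := by
    rintro rfl
    have := hcu w
    rw [map_zero] at this
    linarith
  have h2 : |Real.log (w u) - Real.log (w (a w))| ≤ w (u - a w) / c := by
    refine (log_close hc0 (hcu w) hca).trans ?_
    gcongr
    exact abs_place_sub w u (a w)
  refine (loc_close (n w) (t w) w hu0 (ha w) hc0 (hcu w) hca le_rfl h2).trans ?_
  have h3 : 0 ≤ w (u - a w) / c := div_nonneg (apply_nonneg w _) hc0.le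
  calc |(n w : ℝ)| * (2 * w (u - a w) / c) + |t w| * (w (u - a w) / c)
      = (2 * |(n w : ℝ)| + |t w|) * (w (u - a w) / c) := by ring
    _ ≤ A * (w (u - a w) / c) := mul_le_mul_of_nonneg_right (hA w) h3
    _ ≤ A * ((η * c / A) / c) := by gcongr
    _ = η := by field_simp

/-- if the product is trivial, all factors are -/
lemma loc_triv {n : InfinitePlace K → ℤ} {t : InfinitePlace K → ℝ}
    (h : ∀ z : K, z ≠ 0 → archimedean n t z = 1) (w₀ : InfinitePlace K) {α : K} (hα : α ≠ 0) :
    loc (n w₀) (t w₀) w₀ α = 1 := by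
  classical
  set a : InfinitePlace K → K := Function.update (fun _ => 1) w₀ α with ha
  have ha0 : ∀ w, a w ≠ 0 := by
    intro w
    by_cases hw : w = w₀
    · rw [hw, ha, Function.update_self]
      exact hα
    · rw [ha, Function.update_of_ne hw]
      exact one_ne_zero
  have hprod : ∏ w, loc (n w) (t w) w (a w) = loc (n w₀) (t w₀) w₀ α := by
    rw [Finset.prod_eq_single w₀]
    · rw [ha, Function.update_self]
    · intro w _ hw
      rw [ha, Function.update_of_ne hw]
      exact loc_one _ _ w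
    · intro hcon
      exact absurd (Finset.mem_univ _) hcon
  have key : ∀ η : ℝ, 0 < η → ‖(1 : ℂ) - loc (n w₀) (t w₀) w₀ α‖ ≤
      Fintype.card (InfinitePlace K) * η := by
    intro η hη
    obtain ⟨u, hu0, hu⟩ := arch_approx n t a ha0 hη
    rw [← h u hu0, arch_eq, ← hprod]
    refine (norm_prod_sub_prod_le _ _ _ (fun w => (norm_loc _ _ w hu0).le)
      (fun w => (norm_loc _ _ w (ha0 w)).le)).trans ?_
    rw [← nsmul_eq_mul]
    exact Finset.sum_le_card_nsmul _ _ _ fun w _ => hu w
  have hcard : (0 : ℝ) < Fintype.card (InfinitePlace K) := by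
    exact_mod_cast Fintype.card_pos
  have h2 : ‖(1 : ℂ) - loc (n w₀) (t w₀) w₀ α‖ ≤ 0 := by
    refine le_of_forall_pos_le_add fun ε hε => ?_
    rw [zero_add]
    refine (key (ε / Fintype.card (InfinitePlace K)) (by positivity)).trans (le_of_eq ?_)
    field_simp
  exact (sub_eq_zero.1 (norm_le_zero_iff.1 h2)).symm

lemma loc_nat (a : ℤ) (b : ℝ) (w : InfinitePlace K) {m : ℕ} (hm : m ≠ 0) :
    loc a b w (m : K) = Complex.exp (((b * Real.log m : ℝ) : ℂ) * Complex.I) := by
  unfold loc
  have h1 : (w (m : K) : ℝ) = m := w.map_natCast m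
  rw [map_natCast, h1]
  have h2 : ((m : ℕ) : ℂ) / (((m : ℕ) : ℝ) : ℂ) = 1 := by
    rw [Complex.ofReal_natCast]
    exact div_self (by exact_mod_cast hm)
  rw [h2, one_zpow, one_mul]

lemma t_zero {b : ℝ} (h2 : Complex.exp (((b * Real.log 2 : ℝ) : ℂ) * Complex.I) = 1)
    (h3 : Complex.exp (((b * Real.log 3 : ℝ) : ℂ) * Complex.I) = 1) : b = 0 := by
  rw [Complex.exp_eq_one_iff] at h2 h3
  obtain ⟨k, hk⟩ := h2
  obtain ⟨l, hl⟩ := h3
  have hk' : b * Real.log 2 = k * (2 * Real.pi) := by
    have h4 : (((b * Real.log 2 : ℝ) : ℂ)) * Complex.I = (((k * (2 * Real.pi) : ℝ)) : ℂ) *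
        Complex.I := by
      rw [hk]
      push_cast
      ring
    exact_mod_cast mul_right_cancel₀ Complex.I_ne_zero h4
  have hl' : b * Real.log 3 = l * (2 * Real.pi) := by
    have h4 : (((b * Real.log 3 : ℝ) : ℂ)) * Complex.I = (((l * (2 * Real.pi) : ℝ)) : ℂ) *
        Complex.I := by
      rw [hl]
      push_cast
      ring
    exact_mod_cast mul_right_cancel₀ Complex.I_ne_zero h4
  by_contra hb
  -- `l log 2 = k log 3`
  have h5 : (l : ℝ) * Real.log 2 = k * Real.log 3 := by
    have h6 : b * (l * Real.log 2) = b * (k * Real.log 3) := by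
      calc b * (l * Real.log 2) = l * (b * Real.log 2) := by ring
        _ = l * (k * (2 * Real.pi)) := by rw [hk']
        _ = k * (l * (2 * Real.pi)) := by ring
        _ = k * (b * Real.log 3) := by rw [hl']
        _ = b * (k * Real.log 3) := by ring
    exact mul_left_cancel₀ hb h6
  have hlog2 : 0 < Real.log 2 := Real.log_pos (by norm_num)
  have hlog3 : 0 < Real.log 3 := Real.log_pos (by norm_num)
  have hk0 : k ≠ 0 := by
    rintro rfl
    rw [Int.cast_zero, zero_mul] at hk'
    rcases mul_eq_zero.1 hk' with h | h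
    · exact hb h
    · exact hlog2.ne' h
  have h6 : (l.natAbs : ℝ) * Real.log 2 = k.natAbs * Real.log 3 := by
    have h7 := congrArg abs h5
    rw [abs_mul, abs_mul, abs_of_pos hlog2, abs_of_pos hlog3] at h7
    rw [Nat.cast_natAbs, Nat.cast_natAbs, Int.cast_abs, Int.cast_abs]
    exact h7
  rw [← Real.log_pow, ← Real.log_pow] at h6
  have h7 : (2 : ℝ) ^ l.natAbs = 3 ^ k.natAbs :=
    Real.log_injOn_pos (Set.mem_Ioi.2 (by positivity)) (Set.mem_Ioi.2 (by positivity)) h6
  have h8 : 2 ^ l.natAbs = 3 ^ k.natAbs := by exact_mod_cast h7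
  have hk1 : 1 ≤ k.natAbs := Nat.one_le_iff_ne_zero.2 (Int.natAbs_ne_zero.2 hk0)
  have hodd : Odd (3 ^ k.natAbs) := Odd.pow (by decide)
  rw [← h8] at hodd
  rcases Nat.eq_zero_or_pos l.natAbs with h0 | h0
  · rw [h0, pow_zero] at h8
    have h9 : 3 ≤ 3 ^ k.natAbs := Nat.le_self_pow (by omega) 3
    omega
  · exact (Nat.not_odd_iff_even.2 ((Nat.even_pow.2 ⟨by decide, by omega⟩))) hodd

lemma n_zero {w : InfinitePlace K} (hw : w.IsComplex) {a : ℤ}
    (h : ∀ α : K, α ≠ 0 → loc a 0 w α = 1) : a = 0 := by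
  by_contra ha
  obtain ⟨α, hα⟩ : ∃ α : K, (w.embedding α).im ≠ 0 := by
    by_contra hcon
    push Not at hcon
    have h1 := (InfinitePlace.isComplex_iff).1 hw
    apply h1
    rw [ComplexEmbedding.isReal_iff]
    ext x
    rw [ComplexEmbedding.conjugate_coe_eq]
    exact Complex.conj_eq_iff_im.2 (hcon x)
  set z : ℕ → ℂ := fun k => w.embedding (α + k) / ((w (α + k) : ℝ) : ℂ) with hz
  have hne : ∀ k : ℕ, α + k ≠ 0 := by
    intro k h0
    apply hα
    have : α = -(k : K) := by linear_combination h0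
    rw [this, map_neg, map_natCast]
    simp
  have him : ∀ k, (z k).im ≠ 0 := by
    intro k
    rw [hz]
    simp only
    rw [Complex.div_ofReal_im, map_add, map_natCast, Complex.add_im, Complex.natCast_im, add_zero]
    exact div_ne_zero hα (place_pos w (hne k)).ne'
  have hroot : ∀ k, z k ^ a.natAbs = 1 := by
    intro k
    have h1 := h (α + k) (hne k)
    unfold loc at h1
    rw [zero_mul, Complex.ofReal_zero, zero_mul, Complex.exp_zero, mul_one] at h1
    have h2 : z k ^ a = 1 := h1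
    rcases Int.natAbs_eq a with h3 | h3
    · rw [h3, zpow_natCast] at h2
      exact h2
    · rw [h3, zpow_neg, zpow_natCast, inv_eq_one] at h2
      exact h2
  -- the limit is `1`
  have hlim : Tendsto z atTop (𝓝 1) := by
    have h1 : Tendsto (fun k : ℕ => w.embedding α / ((k : ℕ) : ℂ) + 1) atTop (𝓝 (0 + 1)) :=
      (tendsto_const_div_atTop_nhds_zero_nat (w.embedding α)).add tendsto_const_nhds
    rw [zero_add] at h1
    have h2 : Tendsto (fun k : ℕ => (((‖w.embedding α / ((k : ℕ) : ℂ) + 1‖ : ℝ)) : ℂ)) atTop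
        (𝓝 (((‖(1 : ℂ)‖ : ℝ)) : ℂ)) :=
      (Complex.continuous_ofReal.tendsto _).comp h1.norm
    rw [norm_one, Complex.ofReal_one] at h2
    have h3 := h1.div h2 one_ne_zero
    rw [div_one] at h3
    refine h3.congr' ?_
    filter_upwards [eventually_gt_atTop 0] with k hk
    have hkc : ((k : ℕ) : ℂ) ≠ 0 := by exact_mod_cast hk.ne'
    have hkr : (0 : ℝ) < k := by exact_mod_cast hk
    have h4 : w.embedding (α + k) = (w.embedding α / ((k : ℕ) : ℂ) + 1) * k := by
      rw [map_add, map_natCast]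
      field_simp
    have h5 : ((w (α + k) : ℝ) : ℂ) = ((‖w.embedding α / ((k : ℕ) : ℂ) + 1‖ : ℝ) : ℂ) * k := by
      rw [← norm_embedding_eq, h4, norm_mul, Complex.norm_natCast]
      push_cast
      ring
    rw [hz]
    simp only [Pi.div_apply]
    rw [h4, h5, mul_div_mul_right _ _ hkc]
  have hfin : (({1} : Set ℂ)ᶜ ∩ {x : ℂ | x ^ a.natAbs = 1}).Finite := by
    refine Set.Finite.subset (Polynomial.nthRootsFinset a.natAbs (1 : ℂ)).finite_toSet fun x hx => ?_
    rw [Finset.mem_coe, Polynomial.mem_nthRootsFinset (Int.natAbs_pos.2 ha)]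
    exact hx.2
  have hev : ∀ᶠ k in atTop, z k ∈ (({1} : Set ℂ)ᶜ ∩ {x : ℂ | x ^ a.natAbs = 1})ᶜ :=
    hlim.eventually (hfin.isClosed.isOpen_compl.mem_nhds (by simp))
  obtain ⟨k, hk⟩ := hev.exists
  apply hk
  refine ⟨?_, hroot k⟩
  intro h1
  rw [Set.mem_singleton_iff] at h1
  apply him k
  rw [h1, Complex.one_im]

/-- for a trivial character the archimedean part is trivial -/
lemma arch_triv (χ : HeckeChar K) (h : χ.IsTrivial) {z : K} (hz : z ≠ 0) :
    archimedean χ.n χ.t z = 1 := by
  -- it is enough to consider integers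
  suffices H : ∀ z : 𝓞 K, z ≠ 0 → archimedean χ.n χ.t (z : K) = 1 by
    obtain ⟨a, b, hb, rfl⟩ := IsFractionRing.div_surjective (A := 𝓞 K) z
    have hb0 : b ≠ 0 := nonZeroDivisors.ne_zero hb
    have ha0 : a ≠ 0 := by
      rintro rfl
      simp at hz
    have hbK : (algebraMap (𝓞 K) K b) ≠ 0 := by
      rw [Ne, FaithfulSMul.algebraMap_eq_zero_iff]
      exact hb0
    have h1 : archimedean χ.n χ.t (algebraMap (𝓞 K) K a) =
        archimedean χ.n χ.t (algebraMap (𝓞 K) K a / algebraMap (𝓞 K) K b) *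
          archimedean χ.n χ.t (algebraMap (𝓞 K) K b) := by
      rw [← arch_mul _ _ hz hbK, div_mul_cancel₀ _ hbK]
    have h2 := H a ha0
    have h3 := H b hb0
    rw [h2, h3, mul_one] at h1
    exact h1.symm
  clear hz z
  intro z hz
  have hzK : (z : K) ≠ 0 := by exact_mod_cast hz
  obtain ⟨C, hC0, hC⟩ := arch_close χ.n χ.t
  obtain ⟨c, hc0, hc⟩ : ∃ c : ℝ, 0 < c ∧ ∀ w : InfinitePlace K, c ≤ w (z : K) := by
    obtain ⟨w0, hw0⟩ := Finite.exists_min fun w : InfinitePlace K => w (z : K)
    exact ⟨w0 z, place_pos w0 hzK, hw0⟩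
  have hm : (1 : ℝ) < χ.modulus := by exact_mod_cast χ.one_lt
  -- the bound for all large `T`
  have key : ∀ T : ℕ, 2 ≤ T * c → ‖(1 : ℂ) - archimedean χ.n χ.t (z : K)‖ ≤
      C * (4 / (T * c)) := by
    intro T hT
    have hT0 : T ≠ 0 := by
      rintro rfl
      rw [Nat.cast_zero, zero_mul] at hT
      norm_num at hT
    set y : 𝓞 K := 1 + (χ.modulus : 𝓞 K) * (T * z) with hy
    have hwT : ∀ w : InfinitePlace K, T * c ≤ w (((χ.modulus * T : ℕ) : K) * z) := by
      intro w
      rw [map_mul, w.map_natCast]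
      push_cast
      have h1 := hc w
      have h2 : (0 : ℝ) ≤ T := Nat.cast_nonneg T
      calc (T : ℝ) * c ≤ T * w (z : K) := by gcongr
        _ = 1 * (T * w (z : K)) := by ring
        _ ≤ χ.modulus * (T * w (z : K)) := by
          have : 0 ≤ (T : ℝ) * w (z : K) := mul_nonneg h2 (apply_nonneg w _)
          gcongr
        _ = χ.modulus * T * w (z : K) := by ring
    have hyK : (y : K) = 1 + ((χ.modulus * T : ℕ) : K) * z := by
      rw [hy]
      push_cast
      ring
    have hmul : ((χ.modulus * T : ℕ) : K) * z ≠ 0 := by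
      refine mul_ne_zero ?_ hzK
      have : χ.modulus ≠ 0 := by
        have := χ.one_lt
        omega
      exact_mod_cast mul_ne_zero this hT0
    have hlow : ∀ w : InfinitePlace K, T * c / 2 ≤ w (y : K) := by
      intro w
      have h1 : w (((χ.modulus * T : ℕ) : K) * z) ≤ w (y : K) + w (1 : K) := by
        have h2 : ((χ.modulus * T : ℕ) : K) * z = (y : K) - 1 := by
          rw [hyK]
          ring
        rw [h2]
        exact w.1.sub_le_add _ _
      rw [map_one] at h1
      have := hwT w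
      linarith
    have hy0 : (y : K) ≠ 0 := by
      intro h0
      obtain ⟨w0⟩ := (inferInstance : Nonempty (InfinitePlace K))
      have := hlow w0
      rw [h0, map_zero] at this
      linarith
    have hy1 : archimedean χ.n χ.t (y : K) = 1 := by
      have h1 : (χ.modulus : 𝓞 K) ∣ y - 1 := ⟨T * z, by rw [hy]; ring⟩
      rw [← χ.principal y (by exact_mod_cast hy0) h1]
      apply h
      intro h2
      have h3 := χ.norm_eq_one (Ideal.span {y}) (by
        rw [Ideal.isCoprime_iff_exists]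
        obtain ⟨c', hc'⟩ := h1
        refine ⟨y, Ideal.mem_span_singleton_self y, -((χ.modulus : 𝓞 K) * c'),
          neg_mem (Ideal.mul_mem_right _ _ (Ideal.mem_span_singleton_self _)), ?_⟩
        rw [← hc']
        ring)
      rw [h2, norm_zero] at h3
      exact zero_ne_one h3
    have hT2 : 0 < T * c / 2 := by linarith
    have h4 := hC (y : K) (((χ.modulus * T : ℕ) : K) * z) hy0 hmul (T * c / 2) 1 (1 / (T * c / 2))
      hT2 zero_le_one (by positivity) (by
        intro w
        have h5 : w ((y : K) - ((χ.modulus * T : ℕ) : K) * z) = 1 := by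
          rw [hyK, add_sub_cancel_right, map_one]
        have h6 : T * c / 2 ≤ w (((χ.modulus * T : ℕ) : K) * z) := by
          have := hwT w
          linarith
        refine ⟨hlow w, h6, h5.le, ?_⟩
        refine (log_close hT2 (hlow w) h6).trans ?_
        gcongr
        exact (abs_place_sub w _ _).trans h5.le)
    rw [hy1, arch_nat_mul _ _ χ.sum_t (mul_ne_zero (by
      have := χ.one_lt
      omega) hT0) hzK] at h4
    refine h4.trans (le_of_eq ?_)
    have : (T : ℝ) * c ≠ 0 := by
      intro h0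
      rw [h0] at hT
      norm_num at hT
    field_simp
    ring
  have hlim : Tendsto (fun T : ℕ => C * (4 / (T * c))) atTop (𝓝 (C * 0)) := by
    refine Tendsto.const_mul C ?_
    have h1 : Tendsto (fun T : ℕ => (T : ℝ) * c) atTop atTop :=
      tendsto_natCast_atTop_atTop.atTop_mul_const hc0
    exact h1.const_div_atTop 4
  rw [mul_zero] at hlim
  have h7 : ‖(1 : ℂ) - archimedean χ.n χ.t (z : K)‖ ≤ 0 := by
    refine ge_of_tendsto hlim ?_
    have h1 : Tendsto (fun T : ℕ => (T : ℝ) * c) atTop atTop :=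
      tendsto_natCast_atTop_atTop.atTop_mul_const hc0
    filter_upwards [h1.eventually_ge_atTop 2] with T hT
    exact key T hT
  exact (sub_eq_zero.1 (norm_le_zero_iff.1 h7)).symm

/-- for a trivial character the exponents are trivial -/
lemma exps_triv (χ : HeckeChar K) (h : χ.IsTrivial) (w : InfinitePlace K) :
    χ.t w = 0 ∧ (w.IsComplex → χ.n w = 0) := by
  have h1 : ∀ z : K, z ≠ 0 → archimedean χ.n χ.t z = 1 := fun z hz => arch_triv χ h hz
  have ht : χ.t w = 0 := by
    have h2 := loc_triv h1 w (α := ((2 : ℕ) : K)) (by norm_num)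
    have h3 := loc_triv h1 w (α := ((3 : ℕ) : K)) (by norm_num)
    rw [loc_nat _ _ _ (by norm_num)] at h2 h3
    exact t_zero (by exact_mod_cast h2) (by exact_mod_cast h3)
  refine ⟨ht, fun hw => n_zero hw fun α hα => ?_⟩
  have := loc_triv h1 w hα
  rwa [ht] at this

/-- the character as a homomorphism of monoids with zero -/
noncomputable def toZ (ψ : HeckeChar K) : Ideal (𝓞 K) →*₀ ℂ where
  toFun := ψ.toFun
  map_zero' := by
    by_contra h
    exact ne_bot_of_ne ψ h rfl
  map_one' := map_one _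
  map_mul' := map_mul _

lemma toZ_apply (ψ : HeckeChar K) (I : Ideal (𝓞 K)) : toZ ψ I = ψ.toFun I := rfl

lemma LI_toZ (ψ : HeckeChar K) (s : ℂ) : Pool.Agent.Y773.LI (toZ ψ) s = LS ψ s := by
  unfold Pool.Agent.Y773.LI LS
  have h := tsum_subtype_eq_of_support_subset (f := fun I : Ideal (𝓞 K) =>
    toZ ψ I * ((absNorm I : ℕ) : ℂ) ^ (-s)) (s := {I | I ≠ ⊥}) (by
      intro I hI
      rw [Function.mem_support] at hI
      have h1 : ψ.toFun I ≠ 0 := left_ne_zero_of_mul hI
      exact ne_bot_of_ne ψ h1)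
  rw [← h]
  rfl

lemma span_ne_top (ψ : HeckeChar K) : span {(ψ.modulus : 𝓞 K)} ≠ ⊤ := by
  intro h
  have h6 : absNorm (span {(ψ.modulus : 𝓞 K)}) = 1 := by
    rw [Ideal.absNorm_eq_one_iff]
    exact h
  rw [Ideal.absNorm_span_natCast] at h6
  have h7 : ψ.modulus ∣ 1 := by
    rw [← h6]
    exact dvd_pow_self _ (by
      have := Module.finrank_pos (R := ℤ) (M := 𝓞 K)
      omega)
  rw [Nat.dvd_one] at h7
  have := ψ.one_lt
  omega

lemma exists_modChar (ψ : HeckeChar K) (h : (ψ.mul ψ).IsTrivial) :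
    ∃ e : InfinitePlace K → ℕ,
      Pool.Agent.Y773.G.IsModChar (span {(ψ.modulus : 𝓞 K)}) e (toZ ψ) := by
  have hexp := exps_triv (ψ.mul ψ) h
  have ht : ∀ w, ψ.t w = 0 := by
    intro w
    have h1 : ψ.t w + ψ.t w = 0 := (hexp w).1
    linarith
  have hn : ∀ w : InfinitePlace K, w.IsComplex → ψ.n w = 0 := by
    intro w hw
    have h1 : ψ.n w + ψ.n w = 0 := (hexp w).2 hw
    omega
  refine Pool.Agent.Y772.G.exists_sig ?_ (span_ne_top ψ) ?_ ?_
  · rw [Ne, Ideal.span_singleton_eq_bot]
    have := ψ.one_lt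
    exact_mod_cast (by omega : ψ.modulus ≠ 0)
  · intro I _
    rw [toZ_apply]
    constructor
    · exact coprime_of_ne ψ
    · intro hc h0
      have := ψ.norm_eq_one I hc
      rw [h0, norm_zero] at this
      exact zero_ne_one this
  · intro x hx hx1 hpos
    rw [toZ_apply, ψ.principal x hx ((Ideal.mem_span_singleton).1 hx1), arch_eq]
    refine Finset.prod_eq_one fun w _ => ?_
    unfold loc
    rw [ht w, zero_mul, Complex.ofReal_zero, zero_mul, Complex.exp_zero, mul_one]
    by_cases hw : w.IsReal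
    · have h1 : 0 < embedding_of_isReal hw (x : K) := hpos _
      have h2 : w.embedding (x : K) = ((embedding_of_isReal hw (x : K) : ℝ) : ℂ) :=
        (embedding_of_isReal_apply hw _).symm
      have h3 : w (x : K) = embedding_of_isReal hw (x : K) := by
        rw [← norm_embedding_eq, h2, Complex.norm_real, Real.norm_eq_abs, abs_of_pos h1]
      rw [h2, h3, div_self (by exact_mod_cast h1.ne'), one_zpow]
    · rw [hn w (InfinitePlace.not_isReal_iff_isComplex.1 hw), zpow_zero]

/-- **The means are bounded**, for all nontrivial characters. -/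
theorem EP_bdd_all (ψ : HeckeChar K) (τ : ℝ) (h : NT ψ τ) :
    ∃ C : ℝ, ∀ᶠ ε : ℝ in 𝓝[>] 0, |EP (nm K) ε fun v => (av ψ τ v).re| ≤ C := by
  by_cases h2 : NT (ψ.mul ψ) (2 * τ)
  · exact EP_bdd ψ τ h2
  unfold NT at h2
  push Not at h2
  obtain ⟨h3, h4⟩ := h2
  have htriv : (ψ.mul ψ).IsTrivial := fun I hI => h4 I hI
  obtain ⟨e, he⟩ := exists_modChar ψ htriv
  obtain ⟨f, hf1, hf2⟩ := analytic_LS ψ τ (h.imp_right fun ⟨b, hb1, hb2⟩ =>
    ⟨b, ne_bot_of_ne ψ hb1, coprime_of_ne ψ hb1, hb2⟩)
  have hf0 : f (1 + τ * Complex.I) ≠ 0 :=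
    Pool.Agent.Y772.G.nv_tot Pool.Agent.Y773.G.t_ent he (by simp) hf1 (by
      filter_upwards [hf2] with z hz hz1
      rw [LI_toZ]
      exact hz hz1)
  obtain ⟨C, hC⟩ := size_LS ψ τ
  have hf3 : ∀ᶠ ε : ℝ in 𝓝[>] 0, f (1 + τ * Complex.I + ε) = LS ψ (1 + τ * Complex.I + ε) := by
    filter_upwards [(path_edge τ).eventually hf2, self_mem_nhdsWithin] with ε h1 h2
    exact h1 (re_edge τ h2)
  have h3 : Tendsto (fun ε : ℝ => Real.log ‖f (1 + τ * Complex.I + ε)‖) (𝓝[>] 0)
      (𝓝 (Real.log ‖f (1 + τ * Complex.I)‖)) :=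
    ((hf1.continuousAt.tendsto.comp (path_edge τ)).norm).log (norm_ne_zero_iff.2 hf0)
  obtain ⟨B, hB⟩ := h3.abs.isBoundedUnder_le
  refine ⟨C + B, ?_⟩
  filter_upwards [hC, hf3, Filter.eventually_map.1 hB] with ε h4 h5 h6
  rw [h5] at h6
  have h7 : (EP (nm K) ε fun v => (av ψ τ v).re) =
      ((EP (nm K) ε fun v => (av ψ τ v).re) - Real.log ‖LS ψ (1 + τ * Complex.I + ε)‖) +
        Real.log ‖LS ψ (1 + τ * Complex.I + ε)‖ := by ring
  rw [h7]
  exact (abs_add_le _ _).trans (add_le_add h4 h6)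

end Pool.Agent.X298.HC
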