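import Pool.Agent.X298.HC.Core2
import Pool.Agent.X298.HC.Quad

/-! The Gram inequality for all coefficients. -/

set_option autoImplicit false
set_option linter.unusedSectionVars false
open Filter Topology NumberField Ideal IsDedekindDomain ComplexConjugate Polynomial

namespace Pool.Agent.X298.HC

open Pool.Agent.W540.BE Pool.Agent.H341R2

variable {K : Type} [Field K] [NumberField K] {n : ℕ}
variable {X : Set (MvPolynomial (Fin n) (𝓞 K))} {d a N : ℕ}

/-- **The engine.** -/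
theorem engine {κ : Type*} [Fintype κ] {U : Ultrafilter ℝ} (hU : (U : Filter ℝ) ≤ 𝓝[>] 0)
    (vv : κ → HeightOneSpectrum (𝓞 K) → ℂ) (B : κ → ℝ) (hvv : ∀ k v, ‖vv k v‖ ≤ B k)
    (G : κ → κ → ℝ) (hG : ∀ k l, Tendsto (fun ε : ℝ =>
      (EP (nm K) ε fun v => (vv k v * conj (vv l v)).re) / lam ε) U (𝓝 (G k l)))
    (t : HeightOneSpectrum (𝓞 K) → ℂ) {b : ℝ} (ht : ∀ v, ‖t v‖ ≤ b)
    {R : ℝ} (hR : ∀ δ : ℝ, 0 < δ → ∀ᶠ ε : ℝ in (U : Filter ℝ),
      (EP (nm K) ε fun v => ‖t v‖ ^ 2) / lam ε ≤ R + δ)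
    (x : κ → ℝ) (hx : ∀ k, Tendsto (fun ε : ℝ =>
      (EP (nm K) ε fun v => (t v * conj (vv k v)).re) / lam ε) U (𝓝 (x k))) (c : κ → ℝ) :
    0 ≤ ∑ k, ∑ l, c k * c l * G k l ∧
    (∑ k, c k * x k) ^ 2 ≤ R * ∑ k, ∑ l, c k * c l * G k l := by
  classical
  have hN : NormSys (nm K) := normSys
  obtain ⟨p0⟩ : Nonempty (HeightOneSpectrum (𝓞 K)) := by
    obtain ⟨M, hM⟩ := Ideal.exists_maximal (𝓞 K)
    exact ⟨⟨M, hM.isPrime, Ring.ne_bot_of_isMaximal_of_not_isField hM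
      (RingOfIntegers.not_isField K)⟩⟩
  have hl1 : Tendsto (fun ε : ℝ => ∑ k, c k * ((EP (nm K) ε fun v =>
      (t v * conj (vv k v)).re) / lam ε)) U (𝓝 (∑ k, c k * x k)) :=
    tendsto_finsetSum _ fun k _ => (hx k).const_mul _
  have hl2 : Tendsto (fun ε : ℝ => ∑ k, ∑ l, c k * c l * ((EP (nm K) ε fun v =>
      (vv k v * conj (vv l v)).re) / lam ε)) U (𝓝 (∑ k, ∑ l, c k * c l * G k l)) :=
    tendsto_finsetSum _ fun k _ => tendsto_finsetSum _ fun l _ => (hG k l).const_mul _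
  have hpos : ∀ᶠ ε : ℝ in (U : Filter ℝ), 0 < ε ∧ 0 < lam ε := by
    refine hU ?_
    filter_upwards [self_mem_nhdsWithin, lam_tendsto.eventually_gt_atTop 0] with ε h1 h2
    exact ⟨h1, h2⟩
  -- the Gram form is nonnegative
  have hg0 : ∀ᶠ ε : ℝ in (U : Filter ℝ), 0 ≤ ∑ k, ∑ l, c k * c l * ((EP (nm K) ε fun v =>
      (vv k v * conj (vv l v)).re) / lam ε) := by
    filter_upwards [hpos, hU ((EP_one K).eventually_const_lt (show (0 : ℝ) < 1 by norm_num))]
      with ε ⟨h1, h2⟩ h0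
    have h3 := gram_sq hN p0 Finset.univ (fun _ => (1 : ℂ)) vv 1 (fun _ => by simp) B hvv c h1
    have h4 : 0 < EP (nm K) ε fun _ : HeightOneSpectrum (𝓞 K) => ‖(1 : ℂ)‖ ^ 2 := by
      have h5 : (fun _ : HeightOneSpectrum (𝓞 K) => ‖(1 : ℂ)‖ ^ 2) = fun _ => (1 : ℝ) := by
        funext v
        rw [norm_one, one_pow]
      rw [h5]
      have h6 := mul_pos h0 h2
      rwa [div_mul_cancel₀ _ h2.ne'] at h6
    have h7 : 0 ≤ ∑ k, ∑ l, (c k * c l) * EP (nm K) ε
        (fun v => (vv k v * conj (vv l v)).re) := by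
      by_contra hcon
      push Not at hcon
      have h8 := mul_neg_of_pos_of_neg h4 hcon
      have h9 := (sq_nonneg _).trans h3
      linarith
    have e2 : ∑ k, ∑ l, c k * c l * ((EP (nm K) ε fun v =>
        (vv k v * conj (vv l v)).re) / lam ε) =
        (∑ k, ∑ l, (c k * c l) * EP (nm K) ε fun v => (vv k v * conj (vv l v)).re) / lam ε := by
      rw [Finset.sum_div]
      refine Finset.sum_congr rfl fun k _ => ?_
      rw [Finset.sum_div]
      exact Finset.sum_congr rfl fun l _ => by ring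
    rw [e2]
    exact div_nonneg h7 h2.le
  refine ⟨ge_of_tendsto hl2 hg0, ?_⟩
  have key : ∀ δ : ℝ, 0 < δ → (∑ k, c k * x k) ^ 2 ≤
      (R + δ) * ∑ k, ∑ l, c k * c l * G k l := by
    intro δ hδ
    refine le_of_tendsto_of_tendsto (hl1.pow 2) (hl2.const_mul (R + δ)) ?_
    filter_upwards [hpos, hR δ hδ, hg0] with ε ⟨h1, h2⟩ h3 h4
    have h5 := gram_sq hN p0 Finset.univ t vv b ht B hvv c h1
    have e1 : ∑ k, c k * ((EP (nm K) ε fun v => (t v * conj (vv k v)).re) / lam ε) =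
        (∑ k, c k * EP (nm K) ε fun v => (t v * conj (vv k v)).re) / lam ε := by
      rw [Finset.sum_div]
      exact Finset.sum_congr rfl fun k _ => by ring
    have e2 : ∑ k, ∑ l, c k * c l * ((EP (nm K) ε fun v =>
        (vv k v * conj (vv l v)).re) / lam ε) =
        (∑ k, ∑ l, (c k * c l) * EP (nm K) ε fun v => (vv k v * conj (vv l v)).re) / lam ε := by
      rw [Finset.sum_div]
      refine Finset.sum_congr rfl fun k _ => ?_
      rw [Finset.sum_div]
      exact Finset.sum_congr rfl fun l _ => by ring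
    have hT : (EP (nm K) ε fun v => ‖t v‖ ^ 2) ≤ (R + δ) * lam ε := (div_le_iff₀ h2).1 h3
    rw [e2] at h4
    have h6 : 0 ≤ ∑ k, ∑ l, (c k * c l) * EP (nm K) ε (fun v => (vv k v * conj (vv l v)).re) := by
      have := mul_nonneg h4 h2.le
      rwa [div_mul_cancel₀ _ h2.ne'] at this
    rw [e1, e2, div_pow, div_le_iff₀ (by positivity)]
    refine h5.trans ?_
    calc _ ≤ ((R + δ) * lam ε) * ∑ k, ∑ l, (c k * c l) *
          EP (nm K) ε (fun v => (vv k v * conj (vv l v)).re) :=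
        mul_le_mul_of_nonneg_right hT h6
      _ = _ := by
        field_simp
  have hcont : Tendsto (fun δ : ℝ => (R + δ) * ∑ k, ∑ l, c k * c l * G k l) (𝓝[>] 0)
      (𝓝 ((R + 0) * ∑ k, ∑ l, c k * c l * G k l)) := by
    have : Continuous fun δ : ℝ => (R + δ) * ∑ k, ∑ l, c k * c l * G k l := by fun_prop
    exact (this.tendsto 0).mono_left nhdsWithin_le_nhds
  rw [add_zero] at hcont
  refine ge_of_tendsto hcont ?_
  filter_upwards [self_mem_nhdsWithin] with δ hδ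
  exact key δ hδ

lemma av_one_of_same {ψ φ : HeckeChar K} {τ σ : ℝ} (h : ¬ Distinct ψ φ τ σ) :
    ∀ᶠ v : HeightOneSpectrum (𝓞 K) in cofinite, av (quo φ ψ) (σ - τ) v = 1 := by
  unfold Distinct at h
  push Not at h
  obtain ⟨h1, h2⟩ := h
  filter_upwards [ae_ne ψ, ae_ne φ] with v h3 h4
  unfold av quo
  rw [mul_apply, conj_apply, ← h2 _ h3 h4, Complex.mul_conj, Complex.normSq_eq_norm_sq,
    norm_of_ne ψ h3, h1, sub_self]
  simp

/-- the Gram matrix of the Hecke characters -/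
theorem gram_hecke (ψ φ : HeckeChar K) (τ σ : ℝ) : Tendsto (fun ε : ℝ =>
    (EP (nm K) ε fun v => (conj (av ψ τ v) * conj (conj (av φ σ v))).re) / lam ε) (𝓝[>] 0)
    (𝓝 (same ψ φ τ σ)) := by
  have e : (fun v => (conj (av ψ τ v) * conj (conj (av φ σ v))).re) =
      fun v => (av (quo φ ψ) (σ - τ) v).re := by
    funext v
    rw [av_quo]
  rw [e]
  by_cases h : Distinct ψ φ τ σ
  · rw [same, if_pos h]
    obtain ⟨C, hC⟩ := EP_bdd_all (quo φ ψ) (σ - τ) (nt_of_sep h)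
    have hlim : Tendsto (fun ε : ℝ => C / lam ε) (𝓝[>] 0) (𝓝 0) :=
      tendsto_const_nhds.div_atTop lam_tendsto
    refine squeeze_zero_norm' ?_ hlim
    filter_upwards [hC, lam_tendsto.eventually_gt_atTop 0] with ε h1 h2
    rw [Real.norm_eq_abs, abs_div, abs_of_pos h2]
    exact div_le_div_of_nonneg_right h1 h2.le
  · rw [same, if_neg h]
    have h1 := EP_ae (K := K) (f := fun v => (av (quo φ ψ) (σ - τ) v).re) (g := fun _ => 1) (B := 1)
      (fun v => (Complex.abs_re_le_norm _).trans (norm_av_le _ _ v)) (fun _ => by simp) (by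
        filter_upwards [av_one_of_same h] with v hv
        rw [hv, Complex.one_re])
    have h2 := h1.add (EP_one K)
    rw [zero_add] at h2
    refine h2.congr fun ε => ?_
    ring

/-- **The Gram inequality for the limits, all coefficients.** -/
theorem gram_full {κ : Type*} [Fintype κ] (ψ : κ → HeckeChar K) (τ : κ → ℝ) {U : Ultrafilter ℝ}
    (hU : (U : Filter ℝ) ≤ 𝓝[>] 0) {R : ℝ}
    (hR : ∀ δ : ℝ, 0 < δ → ∀ᶠ ε : ℝ in (U : Filter ℝ),
      (EP (nm K) ε fun v => ‖tX X d a N v‖ ^ 2) / lam ε ≤ R + δ)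
    (x : κ → ℝ) (hx : ∀ k, Tendsto (yX X d a N (ψ k) (τ k)) U (𝓝 (x k))) (c : κ → ℝ) :
    (∑ k, c k * x k) ^ 2 ≤ R * ∑ k, ∑ l, c k * c l * same (ψ k) (ψ l) (τ k) (τ l) := by
  refine (engine hU (fun k v => conj (av (ψ k) (τ k) v)) (fun _ => 1) (fun k v => ?_)
    (fun k l => same (ψ k) (ψ l) (τ k) (τ l))
    (fun k l => (gram_hecke (ψ k) (ψ l) (τ k) (τ l)).mono_left hU) (tX X d a N) (b := N)
    (norm_tX_le X d a N) hR x (fun k => ?_) c).2
  · rw [Complex.norm_conj]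
    exact norm_av_le _ _ _
  · have h := hx k
    unfold yX at h
    refine h.congr fun ε => ?_
    simp only [Complex.conj_conj]

/-- the second moment is nonnegative -/
lemma R_nonneg {U : Ultrafilter ℝ} (hU : (U : Filter ℝ) ≤ 𝓝[>] 0) {R : ℝ}
    {t : HeightOneSpectrum (𝓞 K) → ℂ} (hR : ∀ δ : ℝ, 0 < δ → ∀ᶠ ε : ℝ in (U : Filter ℝ),
      (EP (nm K) ε fun v => ‖t v‖ ^ 2) / lam ε ≤ R + δ) : 0 ≤ R := by
  refine le_of_forall_pos_le_add fun δ hδ => ?_
  have hpos : ∀ᶠ ε : ℝ in (U : Filter ℝ), 0 < lam ε :=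
    hU (lam_tendsto.eventually_gt_atTop 0)
  obtain ⟨ε, h1, h2⟩ := (hpos.and (hR δ hδ)).exists
  exact (div_nonneg (EP_nonneg fun _ => sq_nonneg _) h1.le).trans h2

/-- **Bessel's inequality**, without conditions on the signs -/
theorem bessel_full {κ : Type*} [Fintype κ] (ψ : κ → HeckeChar K) (τ : κ → ℝ)
    (hsep : ∀ k l, k ≠ l → Distinct (ψ k) (ψ l) (τ k) (τ l)) {U : Ultrafilter ℝ}
    (hU : (U : Filter ℝ) ≤ 𝓝[>] 0) {R : ℝ}
    (hR : ∀ δ : ℝ, 0 < δ → ∀ᶠ ε : ℝ in (U : Filter ℝ),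
      (EP (nm K) ε fun v => ‖tX X d a N v‖ ^ 2) / lam ε ≤ R + δ)
    (x : κ → ℝ) (hx : ∀ k, Tendsto (yX X d a N (ψ k) (τ k)) U (𝓝 (x k))) :
    ∑ k, x k ^ 2 ≤ R := by
  classical
  have hR0 : 0 ≤ R := R_nonneg hU hR
  have h := gram_full ψ τ hU hR x hx x
  have e1 : ∑ k, ∑ l, x k * x l * same (ψ k) (ψ l) (τ k) (τ l) = ∑ k, x k ^ 2 := by
    refine Finset.sum_congr rfl fun k _ => ?_
    rw [Finset.sum_eq_single k]
    · have : same (ψ k) (ψ k) (τ k) (τ k) = 1 := by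
        unfold same
        rw [if_neg (distinct_irrefl (ψ k, τ k))]
      rw [this, mul_one, sq]
    · intro l _ hl
      have : same (ψ k) (ψ l) (τ k) (τ l) = 0 := by
        unfold same
        rw [if_pos (hsep k l hl.symm)]
      rw [this, mul_zero]
    · intro h
      exact absurd (Finset.mem_univ _) h
  have e2 : ∑ k, x k * x k = ∑ k, x k ^ 2 := Finset.sum_congr rfl fun k _ => (sq _).symm
  rw [e1, e2] at h
  set s := ∑ k, x k ^ 2 with hs
  have hs0 : 0 ≤ s := Finset.sum_nonneg fun _ _ => sq_nonneg _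
  by_contra hcon
  push Not at hcon
  have hspos : 0 < s := hR0.trans_lt hcon
  nlinarith

end Pool.Agent.X298.HC
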