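import Pool.Agent.X298.HC.MDefs

/-!
# Tensor products of an arbitrary motive with motives with potentially abelian cohomology: definitions
-/

set_option autoImplicit false

namespace Pool.Agent.X298.HC

open NumberField IsDedekindDomain Filter Topology Polynomial ComplexConjugate
open Pool.Agent.W353.EF (LFun)

/-- The point `w/2 + 1 + iτ` of the edge of the half plane of absolute convergence of the `L`-function of a
motive of weight `w`. -/
noncomputable def edgeW (w : ℤ) (τ : ℝ) : ℂ := (w : ℂ) / 2 + 1 + τ * Complex.I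

/-- One cohomology group of a motive over the number field `K`, as far as it matters here: its weight, its
dimension, and the eigenvalues of the geometric Frobenius at the primes `v`.  They have the absolute
value `q_v^{w/2}` for almost all `v` (theorem of Deligne, for all Chow motives over `K`). -/
structure PureMotive (K : Type) [Field K] [NumberField K] where
  /-- the weight -/
  w : ℤ
  /-- the dimension -/
  rank : ℕ
  /-- the eigenvalues of Frobenius -/
  α : HeightOneSpectrum (𝓞 K) → Fin rank → ℂ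
  pure : ∀ᶠ v in cofinite, ∀ j, ‖α v j‖ = (Ideal.absNorm v.asIdeal : ℝ) ^ ((w : ℝ) / 2)

/-- `log |L(w/2 + 1 + iτ + ε)| / log(1/ε)` for the Euler product with the factors `B`. -/
noncomputable def sizeW {F : Type} [Field F] [NumberField F] (w : ℤ) (τ : ℝ)
    (B : HeightOneSpectrum (𝓞 F) → ℂ[X]) (ε : ℝ) : ℝ :=
  Real.log ‖LFun B (edgeW w τ + ε)‖ / Real.log (1 / ε)

/-- The Euler product with the factors `B` has a meromorphic continuation to a neighbourhood of
`w/2 + 1 + iτ`, of order `m` at this point (`m < 0` for a pole, `m > 0` for a zero). -/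
def HasOrderW {F : Type} [Field F] [NumberField F] (w : ℤ) (τ : ℝ)
    (B : HeightOneSpectrum (𝓞 F) → ℂ[X]) (m : ℤ) : Prop :=
  ∃ Λ : ℂ → ℂ, MeromorphicAt Λ (edgeW w τ) ∧
    (∀ᶠ s in 𝓝 (edgeW w τ), (w : ℝ) / 2 + 1 < s.re → Λ s = LFun B s) ∧
    meromorphicOrderAt Λ (edgeW w τ) = m

section
variable {K : Type} [Field K] [NumberField K]

/-- The trace of Frobenius on `M'` is `q_v^{w'/2}` times the trace of Frobenius on a virtual
representation `ρ` of the Weil group of `K`, at almost all primes `v`. -/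
def PotAbelian (M' : PureMotive K) (ρ : Virt K) : Prop :=
  ∀ᶠ v : HeightOneSpectrum (𝓞 K) in cofinite,
    ∑ l, M'.α v l = (Ideal.absNorm v.asIdeal : ℂ) ^ ((M'.w : ℂ) / 2) * ρ.trace v

/-- The polynomials `B v` are the Euler factors of `L(M ⊗ M', s)`: `B_v(z) = ∏ (1 - α_j β_l z)` for almost all
`v`.  At the other primes `B v` is an arbitrary polynomial, and no factor `1 / B_v(q_v^{-s})` has a pole
at `s = (w + w')/2 + 1 + iτ`. -/
def IsTensor (M M' : PureMotive K) (τ : ℝ) (B : HeightOneSpectrum (𝓞 K) → ℂ[X]) : Prop :=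
  (∀ᶠ v in cofinite, ∀ z : ℂ, (B v).eval z = ∏ j, ∏ l, (1 - M.α v j * M'.α v l * z)) ∧
  ∀ v, (B v).eval ((Ideal.absNorm v.asIdeal : ℂ) ^ (-edgeW (M.w + M'.w) τ)) ≠ 0

/-- The polynomials `B v` are the Euler factors of `L(M ⊗ M^∨, s)`:
`B_v(z) = ∏ (1 - α_j conj(α_k) q_v^{-w} z)` for almost all `v`; the others are arbitrary, without a pole
of `1 / B_v(q_v^{-s})` at `s = 1`. -/
def IsEnd (M : PureMotive K) (B : HeightOneSpectrum (𝓞 K) → ℂ[X]) : Prop :=
  (∀ᶠ v in cofinite, ∀ z : ℂ, (B v).eval z =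
    ∏ j, ∏ k, (1 - M.α v j * conj (M.α v k) * (Ideal.absNorm v.asIdeal : ℂ) ^ (-(M.w : ℂ)) * z)) ∧
  ∀ v, (B v).eval ((Ideal.absNorm v.asIdeal : ℂ) ^ (-edgeW 0 0)) ≠ 0

/-- The polynomials `B w`, `w` a prime of `F`, are the Euler factors of
`L(M ⊗ Ind ψ, s) = L(M_F ⊗ ψ, s)`, for `π = (F, ψ, τ)`: `B_w(z) = ∏ (1 - ψ(w) α_j(v)^f z)` for almost all
primes `w`, where `v` is the prime of `K` below `w` and `N(w) = N(v)^f`.  At the other primes `B w` is
arbitrary, and no factor `1 / B_w(q_w^{-s})` has a pole at the edge point for `τ`. -/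
def IsTwistOf (M : PureMotive K) (π : Mono K) (B : HeightOneSpectrum (𝓞 π.F) → ℂ[X]) : Prop :=
  (∀ᶠ w : HeightOneSpectrum (𝓞 π.F) in cofinite, ∃ (v : HeightOneSpectrum (𝓞 K)) (f : ℕ),
    w.asIdeal.comap (algebraMap (𝓞 K) (𝓞 π.F)) = v.asIdeal ∧
    Ideal.absNorm w.asIdeal = Ideal.absNorm v.asIdeal ^ f ∧
    ∀ z : ℂ, (B w).eval z = ∏ j, (1 - π.ψ.toFun w.asIdeal * M.α v j ^ f * z)) ∧
  ∀ w, (B w).eval ((Ideal.absNorm w.asIdeal : ℂ) ^ (-edgeW M.w π.τ)) ≠ 0

/-- `L(M ⊗ κ, s)` has a meromorphic continuation to a neighbourhood of `w/2 + 1`, of order `m` at this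
point, for a virtual representation `κ`, where `B π` are Euler factors of `L(M_F ⊗ ψ, s)`. -/
def HasOrderV (M : PureMotive K) (κ : Virt K)
    (B : ∀ π : Mono K, HeightOneSpectrum (𝓞 π.F) → ℂ[X]) (m : ℤ) : Prop :=
  ∃ Λ : ℂ → ℂ, MeromorphicAt Λ (edgeW M.w 0) ∧
    (∀ᶠ s in 𝓝 (edgeW M.w 0), (M.w : ℝ) / 2 + 1 < s.re → Λ s = κ.LFun B s) ∧
    meromorphicOrderAt Λ (edgeW M.w 0) = m

/-- The dual of `κ` is a part of `M`, and the rest has dimension `s`: at almost all primes `v` the sum of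
all but `s` of the eigenvalues of Frobenius is `q_v^{w/2}` times the complex conjugate of the trace of
Frobenius on `κ`. -/
def IsPartOf (M : PureMotive K) (s : ℕ) (κ : Virt K) : Prop :=
  ∀ᶠ v : HeightOneSpectrum (𝓞 K) in cofinite, ∃ J : Finset (Fin M.rank), J.card = s ∧
    ∑ j ∈ Jᶜ, M.α v j = (Ideal.absNorm v.asIdeal : ℂ) ^ ((M.w : ℂ) / 2) * conj (κ.trace v)

/-- The dual of `κ` is a part of `M`, and `R` is the square of the dimension of the rest `M₀`, or it is the
order of the pole of `L(M₀ ⊗ M₀^∨, s)` at `s = 1`: `R = r - 2 m + q`, where `r` is the order of the pole of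
`L(M ⊗ M^∨, s)` at `s = 1`, `m` the one of `L(M ⊗ κ, s)` at `s = w/2 + 1` and `q` the intertwining number
of `κ` with itself (meromorphic continuations to neighbourhoods of these points are assumed). -/
def RestOf (M : PureMotive K) (κ : Virt K) (R : ℕ) : Prop :=
  (∃ s : ℕ, IsPartOf M s κ ∧ R = s ^ 2) ∨
  ∃ (B : HeightOneSpectrum (𝓞 K) → ℂ[X])
    (B' : ∀ π : Mono K, HeightOneSpectrum (𝓞 π.F) → ℂ[X]) (r m : ℤ),
    IsEnd M B ∧ HasOrderW 0 0 B (-r) ∧ (∀ π ∈ κ.support, IsTwistOf M π (B' π)) ∧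
    HasOrderV M κ B' (-m) ∧ (R : ℤ) = r - 2 * m + κ.inter κ

/-- A motive `M'` over `K` with potentially abelian cohomology, given by `ρ`, a height `τ`, and Euler
factors of `L(M ⊗ M', s)`. -/
structure TensorData (M : PureMotive K) where
  /-- the motive -/
  M' : PureMotive K
  /-- the representation for `M'` -/
  ρ : Virt K
  /-- the height -/
  τ : ℝ
  /-- the Euler factors of `L(M ⊗ M', s)` -/
  B : HeightOneSpectrum (𝓞 K) → ℂ[X]
  pot : PotAbelian M' ρ
  tensor : IsTensor M M' τ B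

section
variable {M : PureMotive K}

/-- The representation `ρ N^{-iτ}`. -/
noncomputable def TensorData.rep (D : TensorData M) : Virt K := D.ρ.shift D.τ

/-- `log |L(M ⊗ M', (w + w')/2 + 1 + iτ + ε)| / log(1/ε)`. -/
noncomputable def TensorData.size (D : TensorData M) (ε : ℝ) : ℝ :=
  sizeW (M.w + D.M'.w) D.τ D.B ε

/-- `L(M ⊗ M', s)` has a meromorphic continuation to a neighbourhood of `(w + w')/2 + 1 + iτ`, of order `m`
at this point. -/
def TensorData.HasOrder (D : TensorData M) (m : ℤ) : Prop :=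
  HasOrderW (M.w + D.M'.w) D.τ D.B m

end

variable (M : PureMotive K) (R : ℕ) (κ : Virt K)

/-- For finitely many pairs `(M'_k, τ_k)` and real `c_k`, with `h_k` the intertwining number of `κ` and
`ρ_k N^{-iτ_k}`, and `q_kl` those of the `ρ_k N^{-iτ_k}`: the orders `m_k` of `L(M ⊗ M'_k, s)` at
`(w + w'_k)/2 + 1 + iτ_k` satisfy `(∑ c_k (m_k + h_k))² ≤ R ∑ c_k c_l q_kl`, if they exist, and without
continuations the same holds with `size` instead of `-m_k`, up to `η`, for all small `ε > 0`. -/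
def TensorGram : Prop :=
  ∀ (l : ℕ) (D : Fin l → TensorData M) (c : Fin l → ℝ),
    (∀ η : ℝ, 0 < η → ∀ᶠ ε : ℝ in 𝓝[>] 0,
      (∑ k, c k * ((D k).size ε - κ.inter (D k).rep)) ^ 2 ≤
        R * ∑ k, ∑ k', c k * c k' * ((D k).rep.inter (D k').rep : ℝ) + η) ∧
    ∀ m : Fin l → ℤ, (∀ k, (D k).HasOrder (m k)) →
      (∑ k, c k * ((m k + κ.inter (D k).rep : ℤ) : ℝ)) ^ 2 ≤
        R * ∑ k, ∑ k', c k * c k' * ((D k).rep.inter (D k').rep : ℝ)

/-- There are at most `k² r R` exceptional pairs `(M'_s, τ_s)` such that for all pairs `(M', τ)` for which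
`ρ N^{-iτ}` has norm at most `r` and is orthogonal to the `ρ_s N^{-iτ_s}` the order of `L(M ⊗ M', s)` at
the edge point for `τ` is `-h`, `h` the intertwining number of `κ` and `ρ N^{-iτ}`, if it exists, and
without continuation `size` differs from `h` by less than `1/k` for arbitrarily small `ε > 0`. -/
def TensorExceptional (r k : ℕ) : Prop :=
  ∃ S : Finset (TensorData M), S.card ≤ k ^ 2 * r * R ∧
    ∀ D : TensorData M, D.rep.inter D.rep ≤ r → (∀ D' ∈ S, D.rep.inter D'.rep = 0) →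
      (∃ᶠ ε : ℝ in 𝓝[>] 0, |D.size ε - κ.inter D.rep| < 1 / k) ∧
      ∀ m : ℤ, D.HasOrder m → m = -κ.inter D.rep

/-- All `L(M ⊗ π, s)`, `π` monomial and irreducible, have meromorphic continuations to neighbourhoods of
the edge points. -/
def ContinuationsOf : Prop :=
  ∀ π : Mono K, π.inter π = 1 → ∃ (B : HeightOneSpectrum (𝓞 π.F) → ℂ[X]) (k : ℤ),
    IsTwistOf M π B ∧ HasOrderW M.w π.τ B k

/-- There is a set `S` of at most `R` monomial representations such that for all `(M', τ)` for which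
`ρ N^{-iτ}` is a combination (of any number) of monomial irreducible representations not equivalent to
those in `S` the order at the edge point is `-h`, and `size` tends to `h`; and for every monomial
irreducible `π` not equivalent to one in `S` the order of `L(M ⊗ π, s)` is `-h`, `h` the intertwining
number of `κ` and `π`. -/
def TensorMonomial : Prop :=
  ∃ S : Finset (Mono K), S.card ≤ R ∧
    (∀ D : TensorData M, (∀ π ∈ D.rep.support, π.inter π = 1 ∧ ∀ s ∈ S, π.inter s = 0) →
      Tendsto D.size (𝓝[>] 0) (𝓝 (κ.inter D.rep)) ∧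
      ∀ m : ℤ, D.HasOrder m → m = -κ.inter D.rep) ∧
    ∀ π : Mono K, π.inter π = 1 → (∀ s ∈ S, π.inter s = 0) →
      ∀ (B : HeightOneSpectrum (𝓞 π.F) → ℂ[X]) (m : ℤ), IsTwistOf M π B →
        HasOrderW M.w π.τ B m → m = -κ.inter (Finsupp.single π 1)

end

end Pool.Agent.X298.HC
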