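import Pool.Agent.X298.HC.GMain

/-! Families: the abstract form of the theorems. -/

set_option autoImplicit false
set_option linter.unusedSectionVars false
open Filter Topology NumberField Ideal IsDedekindDomain ComplexConjugate Polynomial

namespace Pool.Agent.X298.HC

open Pool.Agent.W540.BE Pool.Agent.H341R2
open Pool.Agent.W353.TP (HX push res)
open Pool.Agent.W353.NF (vx nm_vx vx_asIdeal)

variable {K : Type} [Field K] [NumberField K] {κ : Virt K} {t : HX K → ℂ} {b : ℝ}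
  {P : Type*} {rep : P → Virt K} {sz : P → ℝ → ℝ}

lemma int_eq_of_abs {m h : ℤ} (hL : |(m : ℝ) - h| < 1) : m = h := by
  have e : (m : ℝ) - (h : ℝ) = ((m - h : ℤ) : ℝ) := by push_cast; ring
  rw [e, ← Int.cast_abs] at hL
  have h6 : |m - h| < 1 := by exact_mod_cast hL
  have h7 := Int.abs_lt_one_iff.1 h6
  linarith

theorem fam_lim (ht : ∀ x, ‖t x‖ ≤ b)
    (hsz : ∀ p, Tendsto (fun ε => gV t (rep p) ε - sz p ε) (𝓝[>] 0) (𝓝 0)) (p : P)
    {F : Filter ℝ} (hF : F ≤ 𝓝[>] 0) {x : Mono K → ℝ}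
    (hx : ∀ π ∈ (rep p).support, Tendsto (gM t π) F (𝓝 (x π))) :
    Tendsto (sz p) F (𝓝 (xG x (rep p))) := by
  have h1 := (gV_lim ht hF hx).sub ((hsz p).mono_left hF)
  rw [sub_zero] at h1
  refine h1.congr fun ε => ?_
  ring

/-- **The Gram inequality.** -/
theorem fam_gram (ht : ∀ x, ‖t x‖ ≤ b) {R : ℝ}
    (hR : ∀ δ : ℝ, 0 < δ → ∀ᶠ ε : ℝ in 𝓝[>] 0,
      (EP (nx K) ε fun x => ‖tR t κ x‖ ^ 2) / lam ε ≤ R + δ)
    (hsz : ∀ p, Tendsto (fun ε => gV t (rep p) ε - sz p ε) (𝓝[>] 0) (𝓝 0))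
    {l : ℕ} (D : Fin l → P) (c : Fin l → ℝ) :
    (∀ η : ℝ, 0 < η → ∀ᶠ ε : ℝ in 𝓝[>] 0,
      (∑ k, c k * (sz (D k) ε - κ.inter (rep (D k)))) ^ 2 ≤
        R * ∑ k, ∑ k', c k * c k' * ((rep (D k)).inter (rep (D k')) : ℝ) + η) ∧
    ∀ m : Fin l → ℤ, (∀ k, Tendsto (sz (D k)) (𝓝[>] 0) (𝓝 (m k))) →
      (∑ k, c k * ((m k - κ.inter (rep (D k)) : ℤ) : ℝ)) ^ 2 ≤
        R * ∑ k, ∑ k', c k * c k' * ((rep (D k)).inter (rep (D k')) : ℝ) := by
  have key : ∀ η : ℝ, 0 < η → ∀ᶠ ε : ℝ in 𝓝[>] 0,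
      (∑ k, c k * (sz (D k) ε - κ.inter (rep (D k)))) ^ 2 ≤
        R * ∑ k, ∑ k', c k * c k' * ((rep (D k)).inter (rep (D k')) : ℝ) + η := by
    intro η hη
    by_contra hcon
    rw [Filter.not_eventually] at hcon
    obtain ⟨U, hU, hUP⟩ := exists_ultra_of hcon
    choose x hx using fun (π : Mono K) =>
      exists_lim (U := U) (hU (gM_bdd ht π))
    have h1 := (gram_gen ht hU hR hx (fun k => rep (D k)) c).2
    have h3 : Tendsto (fun ε : ℝ => (∑ k, c k * (sz (D k) ε - κ.inter (rep (D k)))) ^ 2) U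
        (𝓝 ((∑ k, c k * (xG x (rep (D k)) - κ.inter (rep (D k)))) ^ 2)) :=
      (tendsto_finsetSum _ fun k _ => ((fam_lim ht hsz (D k) hU fun π _ => hx π).sub
        tendsto_const_nhds).const_mul _).pow 2
    have h4 := ge_of_tendsto h3 (hUP.mono fun ε hε => (not_le.1 hε).le)
    linarith
  refine ⟨key, fun m h3 => ?_⟩
  refine le_of_forall_pos_le_add fun η hη => ?_
  have h4 : Tendsto (fun ε : ℝ => (∑ k, c k * (sz (D k) ε - κ.inter (rep (D k)))) ^ 2)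
      (𝓝[>] 0) (𝓝 ((∑ k, c k * ((m k : ℝ) - κ.inter (rep (D k)))) ^ 2)) :=
    (tendsto_finsetSum _ fun k _ => ((h3 k).sub tendsto_const_nhds).const_mul _).pow 2
  have h5 := le_of_tendsto h4 (key η hη)
  have e1 : ∑ k, c k * ((m k : ℝ) - κ.inter (rep (D k))) =
      ∑ k, c k * ((m k - κ.inter (rep (D k)) : ℤ) : ℝ) := by
    refine Finset.sum_congr rfl fun k _ => ?_
    push_cast
    ring
  rw [e1] at h5
  exact h5

/-- **The exceptional set.** -/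
theorem fam_exceptional (ht : ∀ x, ‖t x‖ ≤ b) {R : ℕ}
    (hR : ∀ δ : ℝ, 0 < δ → ∀ᶠ ε : ℝ in 𝓝[>] 0,
      (EP (nx K) ε fun x => ‖tR t κ x‖ ^ 2) / lam ε ≤ R + δ)
    (hsz : ∀ p, Tendsto (fun ε => gV t (rep p) ε - sz p ε) (𝓝[>] 0) (𝓝 0))
    (r k : ℕ) (hk : 1 ≤ k) : ∃ S : Finset P, S.card ≤ k ^ 2 * r * R ∧
      ∀ p : P, (rep p).inter (rep p) ≤ r → (∀ q ∈ S, (rep p).inter (rep q) = 0) →
        (∃ᶠ ε : ℝ in 𝓝[>] 0, |sz p ε - κ.inter (rep p)| < 1 / k) ∧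
        ∀ m : ℤ, Tendsto (sz p) (𝓝[>] 0) (𝓝 m) → m = κ.inter (rep p) := by
  obtain ⟨U, hU⟩ := exists_ultra
  choose x hx using fun (π : Mono K) => exists_lim (U := U) (hU (gM_bdd ht π))
  have hG := (gramForm_gen ht hU hR hx).comp rep
  obtain ⟨S, hS, hS2⟩ := hG.exceptional r k hk
  refine ⟨S, hS, fun p h1 h2 => ?_⟩
  have h3 := hS2 p h1 h2
  have h4 := fam_lim ht hsz p hU fun π _ => hx π
  refine ⟨?_, fun m hm => ?_⟩
  · have h5 : ∀ᶠ ε in (U : Filter ℝ), |sz p ε - κ.inter (rep p)| < 1 / k :=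
      (h4.sub tendsto_const_nhds).abs.eventually_lt_const h3
    exact (h5.frequently).filter_mono hU
  · have h5 := tendsto_nhds_unique h4 (hm.mono_left hU)
    rw [h5] at h3
    refine int_eq_of_abs (h3.trans_le ?_)
    have hk0 : (0 : ℝ) < k := by exact_mod_cast hk
    rw [div_le_one hk0]
    exact_mod_cast hk

/-- **The exceptional set for monomial representations, with continuations.** -/
theorem fam_monomial (ht : ∀ x, ‖t x‖ ≤ b) {R : ℕ}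
    (hR : ∀ δ : ℝ, 0 < δ → ∀ᶠ ε : ℝ in 𝓝[>] 0,
      (EP (nx K) ε fun x => ‖tR t κ x‖ ^ 2) / lam ε ≤ R + δ)
    (H : ∀ π : Mono K, π.inter π = 1 → ∃ m : ℤ, Tendsto (gM t π) (𝓝[>] 0) (𝓝 (m : ℝ))) :
    ∃ S : Finset (Mono K), S.card ≤ R ∧
      (∀ π : Mono K, π.inter π = 1 → (∀ s ∈ S, π.inter s = 0) →
        Tendsto (gM t π) (𝓝[>] 0) (𝓝 (κ.inter (Finsupp.single π 1) : ℝ))) ∧
      ∀ (ρ : Virt K) (f : ℝ → ℝ), Tendsto (fun ε => gV t ρ ε - f ε) (𝓝[>] 0) (𝓝 0) →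
        (∀ π ∈ ρ.support, π.inter π = 1 ∧ ∀ s ∈ S, π.inter s = 0) →
        Tendsto f (𝓝[>] 0) (𝓝 (κ.inter ρ : ℝ)) := by
  classical
  obtain ⟨U, hU⟩ := exists_ultra
  choose x hx using fun (π : Mono K) => exists_lim (U := U) (hU (gM_bdd ht π))
  have hG := (gramForm_gen ht hU hR hx).comp
    (fun π : {π : Mono K // π.inter π = 1} => (Finsupp.single π.1 1 : Virt K))
  obtain ⟨S, hS, hS2⟩ := hG.exceptional 1 1 le_rfl
  have hord : ∀ π : Mono K, π.inter π = 1 → (∀ s ∈ S.image Subtype.val, π.inter s = 0) →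
      Tendsto (gM t π) (𝓝[>] 0) (𝓝 (κ.inter (Finsupp.single π 1) : ℝ)) := by
    intro π h1 h2
    have h8 := hS2 ⟨π, h1⟩ (by
      simp only
      rw [inter_single]
      exact_mod_cast h1.le) (by
      intro s hs
      simp only
      rw [inter_single]
      exact_mod_cast h2 s.1 (Finset.mem_image_of_mem _ hs))
    simp only [Nat.cast_one, div_one] at h8
    rw [xG_single] at h8
    obtain ⟨m, hm⟩ := H π h1
    have h9 := tendsto_nhds_unique (hx π) (hm.mono_left hU)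
    rw [h9] at h8
    have h10 := int_eq_of_abs h8
    rw [h10] at hm
    exact hm
  refine ⟨S.image Subtype.val, Finset.card_image_le.trans (by simpa using hS), hord, ?_⟩
  intro ρ f hf hρ
  have h1 := gV_lim ht (le_refl (𝓝[>] (0 : ℝ)))
    (x := fun π => (κ.inter (Finsupp.single π 1) : ℝ)) (ρ := ρ)
    (fun π hπ => hord π (hρ π hπ).1 (hρ π hπ).2)
  rw [← inter_eq_xG κ ρ] at h1
  have h2 := h1.sub hf
  rw [sub_zero] at h2
  refine h2.congr fun ε => ?_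
  ring

end Pool.Agent.X298.HC
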