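import Pool.Agent.X298.HC.KAlb

/-! The Gram inequality for an arbitrary bounded function on the primes of degree one. -/

set_option autoImplicit false
set_option linter.unusedSectionVars false
open Filter Topology NumberField Ideal IsDedekindDomain ComplexConjugate Polynomial

namespace Pool.Agent.X298.HC

open Pool.Agent.W540.BE Pool.Agent.H341R2
open Pool.Agent.W353.TP (HX push res)
open Pool.Agent.W353.NF (vx nm_vx vx_asIdeal)

variable {K : Type} [Field K] [NumberField K]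

/-- the mean of a twist -/
noncomputable def gM (t : HX K → ℂ) (π : Mono K) (ε : ℝ) : ℝ :=
  (EP (nx K) ε fun x => (t x * π.trace (vx x)).re) / lam ε

/-- the mean of a twist by a virtual representation -/
noncomputable def gV (t : HX K → ℂ) (ρ : Virt K) (ε : ℝ) : ℝ :=
  (EP (nx K) ε fun x => (t x * ρ.trace (vx x)).re) / lam ε

/-- the limit for a virtual representation -/
noncomputable def xG (x : Mono K → ℝ) (ρ : Virt K) : ℝ := ρ.sum fun π n => (n : ℝ) * x π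

variable {t : HX K → ℂ} {b : ℝ}

lemma gM_bdd (ht : ∀ x, ‖t x‖ ≤ b) (π : Mono K) : ∀ᶠ ε : ℝ in 𝓝[>] 0,
    |gM t π ε| ≤ 2 * (b * Module.finrank ℚ π.F) := by
  obtain ⟨x0⟩ : Nonempty (HX K) := (Pool.Agent.W353.TP.sysH K).nonempty
  have hb0 : 0 ≤ b := (norm_nonneg _).trans (ht x0)
  filter_upwards [(EPH_one (K := K)).eventually_lt_const (show (1 : ℝ) < 2 by norm_num),
    self_mem_nhdsWithin, lam_tendsto.eventually_gt_atTop 0] with ε h1 h2 h3
  have hε : (0 : ℝ) < ε := h2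
  have hb1 : ∀ x : HX K, |(t x * π.trace (vx x)).re| ≤ b * Module.finrank ℚ π.F := by
    intro x
    refine (Complex.abs_re_le_norm _).trans ?_
    rw [norm_mul, trace_vx]
    exact mul_le_mul (ht x) (norm_wv _ _ _) (norm_nonneg _) hb0
  have h8 := EPH_abs_le hb1 hε
  unfold gM
  rw [abs_div, abs_of_pos h3, div_le_iff₀ h3]
  refine h8.trans ?_
  rw [div_lt_iff₀ h3] at h1
  have hm0 : (0 : ℝ) ≤ b * Module.finrank ℚ π.F := by positivity
  nlinarith

lemma gV_eq (ht : ∀ x, ‖t x‖ ≤ b) (ρ : Virt K) {ε : ℝ} (hε : 0 < ε) :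
    gV t ρ ε = ρ.sum fun π n => (n : ℝ) * gM t π ε := by
  have hN : NormSys (nx K) := normSysH
  obtain ⟨x0⟩ : Nonempty (HX K) := (Pool.Agent.W353.TP.sysH K).nonempty
  have hb0 : 0 ≤ b := (norm_nonneg _).trans (ht x0)
  unfold gV
  have e1 : (fun x : HX K => (t x * ρ.trace (vx x)).re) = fun x =>
      ∑ π ∈ ρ.support, (ρ π : ℝ) * (t x * π.trace (vx x)).re := by
    funext x
    rw [trace_eq_sum, Finset.mul_sum, Complex.re_sum]
    refine Finset.sum_congr rfl fun π _ => ?_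
    have : t x * ((ρ π : ℂ) * π.trace (vx x)) =
        (((ρ π : ℝ)) : ℂ) * (t x * π.trace (vx x)) := by
      push_cast
      ring
    rw [this, Complex.re_ofReal_mul]
  rw [e1, EP_sum hN hε _ _ (fun π => |(ρ π : ℝ)| * (b * Module.finrank ℚ π.F)) (by
    intro π _ x
    rw [abs_mul]
    refine mul_le_mul_of_nonneg_left ?_ (abs_nonneg _)
    refine (Complex.abs_re_le_norm _).trans ?_
    rw [norm_mul, trace_vx]
    exact mul_le_mul (ht x) (norm_wv _ _ _) (norm_nonneg _) hb0), Finset.sum_div]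
  unfold Finsupp.sum
  refine Finset.sum_congr rfl fun π _ => ?_
  rw [EP_const_mul]
  unfold gM
  ring

lemma gV_lim (ht : ∀ x, ‖t x‖ ≤ b) {F : Filter ℝ} (hF : F ≤ 𝓝[>] 0) {x : Mono K → ℝ}
    {ρ : Virt K} (hx : ∀ π ∈ ρ.support, Tendsto (gM t π) F (𝓝 (x π))) :
    Tendsto (gV t ρ) F (𝓝 (xG x ρ)) := by
  have h1 : Tendsto (fun ε : ℝ => ρ.sum fun π n => (n : ℝ) * gM t π ε) F
      (𝓝 (xG x ρ)) := by
    unfold xG Finsupp.sum
    exact tendsto_finsetSum _ fun π hπ => (hx π hπ).const_mul _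
  refine h1.congr' ?_
  filter_upwards [hF self_mem_nhdsWithin] with ε hε
  exact (gV_eq ht ρ hε).symm

/-- the rest -/
noncomputable def tR (t : HX K → ℂ) (κ : Virt K) (x : HX K) : ℂ := t x - conj (κ.trace (vx x))

lemma norm_tR_le (ht : ∀ x, ‖t x‖ ≤ b) (κ : Virt K) (x : HX K) : ‖tR t κ x‖ ≤ b + κ.bd := by
  unfold tR
  refine (norm_sub_le _ _).trans ?_
  rw [Complex.norm_conj]
  exact add_le_add (ht x) (norm_trace_le κ x)

/-- the mean of the rest -/
lemma mean_tR (ht : ∀ x, ‖t x‖ ≤ b) (κ ρ : Virt K) {ε : ℝ} (hε : 0 < ε) :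
    (EP (nx K) ε fun x => (tR t κ x * ρ.trace (vx x)).re) / lam ε = gV t ρ ε -
      (EP (nx K) ε fun x => (conj (κ.trace (vx x)) * ρ.trace (vx x)).re) / lam ε := by
  have hN : NormSys (nx K) := normSysH
  obtain ⟨x0⟩ : Nonempty (HX K) := (Pool.Agent.W353.TP.sysH K).nonempty
  have hb0 : 0 ≤ b := (norm_nonneg _).trans (ht x0)
  have b2 : ∀ x : HX K, |(t x * ρ.trace (vx x)).re| ≤ b * ρ.bd := by
    intro x
    refine (Complex.abs_re_le_norm _).trans ?_
    rw [norm_mul]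
    exact mul_le_mul (ht x) (norm_trace_le _ x) (norm_nonneg _) hb0
  have b3 : ∀ x : HX K, |(-1) * (conj (κ.trace (vx x)) * ρ.trace (vx x)).re| ≤
      κ.bd * ρ.bd := by
    intro x
    rw [abs_mul, abs_neg, abs_one, one_mul]
    refine (Complex.abs_re_le_norm _).trans ?_
    rw [norm_mul, Complex.norm_conj]
    exact mul_le_mul (norm_trace_le _ x) (norm_trace_le _ x) (norm_nonneg _)
      ((norm_nonneg _).trans (norm_trace_le κ x))
  have e2 : (fun x => (tR t κ x * ρ.trace (vx x)).re) = fun x : HX K =>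
      (t x * ρ.trace (vx x)).re +
      (-1) * (conj (κ.trace (vx x)) * ρ.trace (vx x)).re := by
    funext x
    unfold tR
    rw [sub_mul, Complex.sub_re]
    ring
  rw [e2, EP_add hN hε b2 b3, EP_const_mul]
  unfold gV
  ring

/-- the second moment of the rest from the three moments -/
lemma second_tR (ht : ∀ x, ‖t x‖ ≤ b) {κ : Virt K} {r m : ℝ}
    (h1 : Tendsto (fun ε : ℝ => (EP (nx K) ε fun x => ‖t x‖ ^ 2) / lam ε) (𝓝[>] 0) (𝓝 r))
    (h2 : Tendsto (gV t κ) (𝓝[>] 0) (𝓝 m)) :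
    Tendsto (fun ε : ℝ => (EP (nx K) ε fun x => ‖tR t κ x‖ ^ 2) / lam ε) (𝓝[>] 0)
      (𝓝 (r - 2 * m + κ.inter κ)) := by
  have hN : NormSys (nx K) := normSysH
  obtain ⟨x0⟩ : Nonempty (HX K) := (Pool.Agent.W353.TP.sysH K).nonempty
  have hb0 : 0 ≤ b := (norm_nonneg _).trans (ht x0)
  have f4 := ((h1.sub (h2.const_mul 2)).add (gram_virt κ κ))
  refine f4.congr' ?_
  filter_upwards [self_mem_nhdsWithin] with ε hε'
  have hε : (0 : ℝ) < ε := hε'
  have b1 : ∀ x : HX K, |‖t x‖ ^ 2| ≤ b ^ 2 := fun x => by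
    rw [abs_of_nonneg (sq_nonneg _)]
    exact pow_le_pow_left₀ (norm_nonneg _) (ht x) 2
  have b2 : ∀ x : HX K, |(t x * κ.trace (vx x)).re| ≤ b * κ.bd := by
    intro x
    refine (Complex.abs_re_le_norm _).trans ?_
    rw [norm_mul]
    exact mul_le_mul (ht x) (norm_trace_le _ x) (norm_nonneg _) hb0
  have b3 : ∀ x : HX K, |(conj (κ.trace (vx x)) * κ.trace (vx x)).re| ≤ κ.bd * κ.bd := by
    intro x
    refine (Complex.abs_re_le_norm _).trans ?_
    rw [norm_mul, Complex.norm_conj]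
    exact mul_le_mul (norm_trace_le _ x) (norm_trace_le _ x) (norm_nonneg _)
      ((norm_nonneg _).trans (norm_trace_le κ x))
  have e2 : (fun x => ‖tR t κ x‖ ^ 2) = fun x : HX K =>
      (‖t x‖ ^ 2 + (-2) * (t x * κ.trace (vx x)).re) +
      (conj (κ.trace (vx x)) * κ.trace (vx x)).re := by
    funext x
    unfold tR
    rw [← Complex.normSq_eq_norm_sq, ← Complex.normSq_eq_norm_sq, Complex.normSq_sub,
      Complex.normSq_conj, Complex.conj_conj, ← Complex.normSq_eq_conj_mul_self,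
      Complex.ofReal_re]
    ring
  have b4 : ∀ x : HX K, |(-2) * (t x * κ.trace (vx x)).re| ≤ 2 * (b * κ.bd) := by
    intro x
    rw [abs_mul, abs_neg, abs_two]
    exact mul_le_mul_of_nonneg_left (b2 x) (by norm_num)
  rw [e2, EP_add hN hε (fun x => (abs_add_le _ _).trans (add_le_add (b1 x) (b4 x))) b3,
    EP_add hN hε b1 b4, EP_const_mul]
  unfold gV
  ring

/-- **The Gram inequality relative to the known part.** -/
theorem gram_gen (ht : ∀ x, ‖t x‖ ≤ b) {κ : Virt K} {R : ℝ} {U : Ultrafilter ℝ}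
    (hU : (U : Filter ℝ) ≤ 𝓝[>] 0)
    (hR : ∀ δ : ℝ, 0 < δ → ∀ᶠ ε : ℝ in 𝓝[>] 0,
      (EP (nx K) ε fun x => ‖tR t κ x‖ ^ 2) / lam ε ≤ R + δ)
    {x : Mono K → ℝ} (hx : ∀ π, Tendsto (gM t π) U (𝓝 (x π)))
    {ι : Type*} [Fintype ι] (ρ : ι → Virt K) (c : ι → ℝ) :
    0 ≤ ∑ k, ∑ l, c k * c l * ((ρ k).inter (ρ l) : ℝ) ∧
    (∑ k, c k * (xG x (ρ k) - κ.inter (ρ k))) ^ 2 ≤
      R * ∑ k, ∑ l, c k * c l * ((ρ k).inter (ρ l) : ℝ) := by
  obtain ⟨x0⟩ : Nonempty (HX K) := (Pool.Agent.W353.TP.sysH K).nonempty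
  refine engineP (normSysH (K := K)) x0 hU EPH_pos (fun k x => conj ((ρ k).trace (vx x)))
    (fun k => (ρ k).bd) (fun k x => ?_) (fun k l => ((ρ k).inter (ρ l) : ℝ)) (fun k l => ?_)
    (fun x => tR t κ x) (b := b + κ.bd) (norm_tR_le ht κ)
    (fun δ hδ => hU (hR δ hδ)) (fun k => xG x (ρ k) - κ.inter (ρ k)) (fun k => ?_) c
  · rw [Complex.norm_conj]
    exact norm_trace_le _ x
  · refine ((gram_virt (ρ k) (ρ l)).mono_left hU).congr fun ε => ?_
    simp only [Complex.conj_conj]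
  · have h1 := (gV_lim ht hU (ρ := ρ k) fun π _ => hx π).sub
      ((gram_virt κ (ρ k)).mono_left hU)
    refine h1.congr' ?_
    filter_upwards [hU self_mem_nhdsWithin] with ε hε
    have hε' : (0 : ℝ) < ε := hε
    simp only [Complex.conj_conj]
    exact (mean_tR ht κ (ρ k) hε').symm

/-- the abstract form -/
theorem gramForm_gen (ht : ∀ x, ‖t x‖ ≤ b) {κ : Virt K} {R : ℝ} {U : Ultrafilter ℝ}
    (hU : (U : Filter ℝ) ≤ 𝓝[>] 0)
    (hR : ∀ δ : ℝ, 0 < δ → ∀ᶠ ε : ℝ in 𝓝[>] 0,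
      (EP (nx K) ε fun x => ‖tR t κ x‖ ^ 2) / lam ε ≤ R + δ)
    {x : Mono K → ℝ} (hx : ∀ π, Tendsto (gM t π) U (𝓝 (x π))) :
    GramForm (Virt K) (fun ρ ρ' => ρ.inter ρ') (fun ρ => xG x ρ - κ.inter ρ) R := by
  classical
  refine ⟨inter_comm', fun S c => ?_⟩
  have h := gram_gen ht hU hR hx (ι := {ρ // ρ ∈ S}) (fun s => s.1) (fun s => c s.1)
  have e1 : ∀ f : Virt K → ℝ, ∑ s : {ρ // ρ ∈ S}, f s.1 = ∑ s ∈ S, f s :=
    fun f => Finset.sum_coe_sort S f
  have e2 : ∀ ρ : Virt K, ∑ l : {ρ // ρ ∈ S}, c ρ * c l.1 * (ρ.inter l.1 : ℝ) =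
      ∑ l ∈ S, c ρ * c l * (ρ.inter l : ℝ) :=
    fun ρ => e1 (fun l => c ρ * c l * (ρ.inter l : ℝ))
  rw [e1 (fun ρ => c ρ * (xG x ρ - κ.inter ρ)),
    e1 (fun ρ => ∑ l : {ρ // ρ ∈ S}, c ρ * c l.1 * (ρ.inter l.1 : ℝ)),
    Finset.sum_congr rfl fun ρ _ => e2 ρ] at h
  exact h

lemma xG_single (x : Mono K → ℝ) (π : Mono K) : xG x (Finsupp.single π 1) = x π := by
  unfold xG
  rw [Finsupp.sum_single_index (by simp)]
  simp

lemma inter_eq_xG (κ ρ : Virt K) : (κ.inter ρ : ℝ) =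
    xG (fun π => (κ.inter (Finsupp.single π 1) : ℝ)) ρ := inter_eq_xV κ 0 ρ

end Pool.Agent.X298.HC
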