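import Pool.Agent.X298.HC.KAlb

/-! The norm of the representation for the first cohomology group. -/

set_option autoImplicit false
set_option linter.unusedSectionVars false
open Filter Topology NumberField Ideal IsDedekindDomain ComplexConjugate Polynomial

namespace Pool.Agent.X298.HC

open Pool.Agent.W540.BE Pool.Agent.H341R2
open Pool.Agent.W353.TP (HX push res)
open Pool.Agent.W353.NF (vx nm_vx vx_asIdeal)
open Pool.Agent.W353.EF (IsFrobenius)
open Pool.Agent.W353.EH (edgePoint size HasOrder IsEulerSystem)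
open Pool.Agent.W353.PV (Eig alp pick_spec)

variable {K : Type} [Field K] [NumberField K] {n' : ℕ}

lemma inter_self_nonneg (ρ : Virt K) : 0 ≤ ρ.inter ρ := by
  have h1 : (0 : ℝ) ≤ (ρ.inter ρ : ℝ) := by
    refine ge_of_tendsto (gram_virt ρ ρ) ?_
    filter_upwards [lam_tendsto.eventually_gt_atTop 0] with ε h
    refine div_nonneg (EP_nonneg fun x => ?_) h.le
    rw [← Complex.normSq_eq_conj_mul_self, Complex.ofReal_re]
    exact Complex.normSq_nonneg _
  exact_mod_cast h1

/-- a bound of the norm by a bound of the traces -/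
lemma inter_le_of {ρ : Virt K} {b : ℝ}
    (h : ∀ᶠ x : HX K in cofinite, ‖ρ.trace (vx x)‖ ≤ b) : (ρ.inter ρ : ℝ) ≤ b ^ 2 := by
  refine le_of_forall_pos_le_add fun δ hδ => ?_
  refine le_of_tendsto (gram_virt ρ ρ) ?_
  have hbd : ∀ x : HX K, |(conj (ρ.trace (vx x)) * ρ.trace (vx x)).re| ≤ ρ.bd * ρ.bd := by
    intro x
    refine (Complex.abs_re_le_norm _).trans ?_
    rw [norm_mul, Complex.norm_conj]
    exact mul_le_mul (norm_trace_le _ x) (norm_trace_le _ x) (norm_nonneg _)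
      ((norm_nonneg _).trans (norm_trace_le ρ x))
  refine EPH_le_ae hbd (h.mono fun x hx => ?_) hδ
  rw [← Complex.normSq_eq_conj_mul_self, Complex.ofReal_re, Complex.normSq_eq_norm_sq]
  exact pow_le_pow_left₀ (norm_nonneg _) hx 2

/-- the norm is at most the square of the first Betti number -/
theorem pot1_norm {Y : Set (MvPolynomial (Fin n') (𝓞 K))} {e M : ℕ} {ρ : Virt K}
    (hY : IsPot1 Y e M ρ) : ρ.inter ρ ≤ (M : ℤ) ^ 2 := by
  have h := inter_le_of (ρ := ρ) (b := M) (by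
    have hcof : ∀ᶠ x : HX K in cofinite, ∃ β : Fin M → ℂ, IsFrobenius Y e 1 (vx x) β ∧
        ∑ l, β l = (Ideal.absNorm (vx x).asIdeal : ℂ) ^ ((1 : ℂ) / 2) * ρ.trace (vx x) :=
      vx_injective.tendsto_cofinite.eventually hY
    filter_upwards [hcof] with x hx
    obtain ⟨β, h1, h2⟩ := hx
    have h1' : Eig Y e 1 (vx x) β := h1
    have hq0 : (0 : ℝ) < nm K (vx x) := by exact_mod_cast nm_pos (vx x)
    have e1 : ‖∑ l, β l‖ ≤ M * (nm K (vx x) : ℝ) ^ ((1 : ℝ) / 2) := by
      refine (norm_sum_le _ _).trans (le_of_eq ?_)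
      have : ∀ l, ‖β l‖ = (nm K (vx x) : ℝ) ^ ((1 : ℝ) / 2) := by
        intro l
        have h3 : ‖β l‖ = (nm K (vx x) : ℝ) ^ (((1 : ℕ) : ℝ) / 2) := h1'.norm l
        rwa [Nat.cast_one] at h3
      rw [Finset.sum_congr rfl fun l _ => this l, Finset.sum_const, Finset.card_univ,
        Fintype.card_fin, nsmul_eq_mul]
    have e2 : ‖(Ideal.absNorm (vx x).asIdeal : ℂ) ^ ((1 : ℂ) / 2)‖ =
        (nm K (vx x) : ℝ) ^ ((1 : ℝ) / 2) := by
      have := Complex.norm_natCast_cpow_of_pos (nm_pos (vx x)) ((1 : ℂ) / 2)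
      have e3 : ((1 : ℂ) / 2).re = (1 : ℝ) / 2 := by
        rw [show ((1 : ℂ) / 2) = (((1 : ℝ) / 2 : ℝ) : ℂ) by push_cast; ring, Complex.ofReal_re]
      rw [e3] at this
      exact this
    rw [h2, norm_mul, e2, mul_comm (M : ℝ)] at e1
    exact le_of_mul_le_mul_left e1 (Real.rpow_pos_of_pos hq0 _))
  exact_mod_cast h

end Pool.Agent.X298.HC
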