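import Pool.Agent.X298.HC.GSize
import Pool.Agent.X298.HC.KNorm

/-! Tensor products of a motive with motives with potentially abelian cohomology: the theorems. -/

set_option autoImplicit false
set_option linter.unusedSectionVars false
open Filter Topology NumberField Ideal IsDedekindDomain ComplexConjugate Polynomial

namespace Pool.Agent.X298.HC

open Pool.Agent.W540.BE Pool.Agent.H341R2
open Pool.Agent.W353.TP (HX push res)
open Pool.Agent.W353.NF (vx nm_vx vx_asIdeal)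
open Pool.Agent.W353.EF (LFun)

variable {K : Type} [Field K] [NumberField K] {M : PureMotive K} {κ : Virt K} {R : ℕ}

/-- the size of a twist by a virtual representation -/
lemma virt_sizeG {κ : Virt K} {B : ∀ π : Mono K, HeightOneSpectrum (𝓞 π.F) → ℂ[X]}
    (hB : ∀ π ∈ κ.support, IsTwistOf M π (B π)) : ∀ᶠ ε : ℝ in 𝓝[>] 0,
      κ.LFun B (edgeW M.w 0 + ε) ≠ 0 ∧
      Real.log ‖κ.LFun B (edgeW M.w 0 + ε)‖ / Real.log (1 / ε) =
        ∑ π ∈ κ.support, (κ π : ℝ) * sizeW M.w π.τ (B π) ε := by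
  have h1 : ∀ᶠ ε : ℝ in 𝓝[>] 0, ∀ π ∈ κ.support,
      LFun (B π) (edgeW M.w π.τ + ε) ≠ 0 :=
    (Filter.eventually_all_finset _).2 fun π hπ => (twist_sizeG (hB π hπ)).1
  filter_upwards [h1] with ε h2
  have e1 : ∀ π : Mono K, edgeW M.w 0 + ε + π.τ * Complex.I = edgeW M.w π.τ + ε := by
    intro π
    unfold edgeW
    push_cast
    ring
  have e2 : κ.LFun B (edgeW M.w 0 + ε) = ∏ π ∈ κ.support,
      (LFun (B π) (edgeW M.w π.τ + ε)) ^ (κ π) := by
    unfold Virt.LFun Finsupp.prod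
    exact Finset.prod_congr rfl fun π _ => by simp only [e1]
  have h3 : κ.LFun B (edgeW M.w 0 + ε) ≠ 0 := by
    rw [e2, Finset.prod_ne_zero_iff]
    exact fun π hπ => zpow_ne_zero _ (h2 π hπ)
  refine ⟨h3, ?_⟩
  unfold sizeW
  rw [e2, norm_prod, Real.log_prod fun π hπ => norm_ne_zero_iff.2 (zpow_ne_zero _ (h2 π hπ)),
    Finset.sum_div]
  refine Finset.sum_congr rfl fun π _ => ?_
  rw [norm_zpow, Real.log_zpow]
  ring

/-- the mean and the order of a twist by a virtual representation -/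
lemma virt_meanG {κ : Virt K} {B : ∀ π : Mono K, HeightOneSpectrum (𝓞 π.F) → ℂ[X]}
    (hB : ∀ π ∈ κ.support, IsTwistOf M π (B π)) {m : ℤ} (hm : HasOrderV M κ B m) :
    Tendsto (gV (tM M) κ) (𝓝[>] 0) (𝓝 (-(m : ℝ))) := by
  have hs := virt_sizeG hB
  have h0 : Tendsto (fun ε : ℝ => Real.log ‖κ.LFun B (edgeW M.w 0 + ε)‖ / Real.log (1 / ε))
      (𝓝[>] 0) (𝓝 (-(m : ℝ))) := by
    obtain ⟨Λ, h1, h2, h3⟩ := hm
    exact Pool.Agent.W353.PV.lim_ord (hs.mono fun _ h => h.1) h1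
      (h2.mono fun s hs hs' => hs (by
        rw [edgeW_re] at hs'
        exact hs')) h3
  have h1 : Tendsto (fun ε : ℝ => ∑ π ∈ κ.support, (κ π : ℝ) * (gM (tM M) π ε -
      sizeW M.w π.τ (B π) ε)) (𝓝[>] 0) (𝓝 (∑ π ∈ κ.support, (κ π : ℝ) * 0)) :=
    tendsto_finsetSum _ fun π hπ => (twist_sizeG (hB π hπ)).2.const_mul _
  have e1 : (∑ π ∈ κ.support, (κ π : ℝ) * 0) = 0 := by simp
  rw [e1] at h1
  have h2 := h1.add h0
  rw [zero_add] at h2
  refine h2.congr' ?_
  filter_upwards [self_mem_nhdsWithin, hs] with ε hε h3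
  rw [gV_eq (norm_tM_le M) κ hε, h3.2]
  unfold Finsupp.sum
  rw [← Finset.sum_add_distrib]
  exact Finset.sum_congr rfl fun π _ => by ring

/-- **The second moment of the rest.** -/
theorem rest_boundG (h : RestOf M κ R) : ∀ δ : ℝ, 0 < δ → ∀ᶠ ε : ℝ in 𝓝[>] 0,
      (EP (nx K) ε fun x => ‖tR (tM M) κ x‖ ^ 2) / lam ε ≤ R + δ := by
  intro δ hδ
  have hb : ∀ x : HX K, |‖tR (tM M) κ x‖ ^ 2| ≤ (M.rank + κ.bd) ^ 2 := by
    intro x
    rw [abs_of_nonneg (sq_nonneg _)]
    exact pow_le_pow_left₀ (norm_nonneg _) (norm_tR_le (norm_tM_le M) κ x) 2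
  rcases h with ⟨s, h1, h2⟩ | ⟨B, B', r, m, h1, h2, h3, h4, h5⟩
  · rw [h2]
    refine EPH_le_ae hb ?_ hδ
    have hcof := vx_injective.tendsto_cofinite.eventually (M.pure.and h1)
    filter_upwards [hcof] with x hx
    obtain ⟨e1, J, e2, e3⟩ := hx
    have hq0 : (0 : ℝ) < nm K (vx x) := by exact_mod_cast nm_pos (vx x)
    have hqc : ((nm K (vx x) : ℕ) : ℂ) ≠ 0 := by exact_mod_cast (nm_pos (vx x)).ne'
    have n1 : ∀ j, ‖M.α (vx x) j‖ = (nm K (vx x) : ℝ) ^ ((M.w : ℝ) / 2) := fun j => e1 j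
    have e8 : ((nm K (vx x) : ℕ) : ℂ) ^ ((M.w : ℂ) / 2) * ((nm K (vx x) : ℕ) : ℂ) ^
        (-(((M.w : ℝ) / 2 : ℝ) : ℂ)) = 1 := by
      rw [← Complex.cpow_add _ _ hqc]
      have : (M.w : ℂ) / 2 + -(((M.w : ℝ) / 2 : ℝ) : ℂ) = 0 := by
        push_cast
        ring
      rw [this, Complex.cpow_zero]
    have e9 : (Ideal.absNorm (vx x).asIdeal : ℂ) = ((nm K (vx x) : ℕ) : ℂ) := rfl
    have e10 : tR (tM M) κ x = (∑ j ∈ J, M.α (vx x) j) * ((nm K (vx x) : ℕ) : ℂ) ^
        (-(((M.w : ℝ) / 2 : ℝ) : ℂ)) := by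
      unfold tR tM
      rw [T_mul n1, ← Finset.sum_add_sum_compl J (M.α (vx x)), e3, e9, add_mul]
      have : ((nm K (vx x) : ℕ) : ℂ) ^ ((M.w : ℂ) / 2) * conj (κ.trace (vx x)) *
          ((nm K (vx x) : ℕ) : ℂ) ^ (-(((M.w : ℝ) / 2 : ℝ) : ℂ)) = conj (κ.trace (vx x)) := by
        rw [mul_assoc, mul_comm (conj (κ.trace (vx x))), ← mul_assoc, e8, one_mul]
      rw [this, add_sub_cancel_right]
    have e11 : ‖tR (tM M) κ x‖ ≤ s := by
      rw [e10, norm_mul, Complex.norm_natCast_cpow_of_pos (nm_pos (vx x))]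
      have e12 : (-(((M.w : ℝ) / 2 : ℝ) : ℂ)).re = -((M.w : ℝ) / 2) := by
        rw [Complex.neg_re, Complex.ofReal_re]
      rw [e12]
      have e13 : ‖∑ j ∈ J, M.α (vx x) j‖ ≤ s * (nm K (vx x) : ℝ) ^ ((M.w : ℝ) / 2) := by
        refine (norm_sum_le _ _).trans (le_of_eq ?_)
        rw [Finset.sum_congr rfl fun j _ => n1 j, Finset.sum_const, e2, nsmul_eq_mul]
      calc _ ≤ (s * (nm K (vx x) : ℝ) ^ ((M.w : ℝ) / 2)) *
            (nm K (vx x) : ℝ) ^ (-((M.w : ℝ) / 2)) :=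
            mul_le_mul_of_nonneg_right e13 (by positivity)
        _ = s := by
            rw [mul_assoc, ← Real.rpow_add hq0, add_neg_cancel, Real.rpow_zero, mul_one]
    push_cast
    exact pow_le_pow_left₀ (norm_nonneg _) e11 2
  · have g1 := end_size h1
    have g2 := g1.2.add (sizeW_lim g1.1 h2)
    have f1 : Tendsto (fun ε : ℝ => (EP (nx K) ε fun x => ‖tM M x‖ ^ 2) / lam ε)
        (𝓝[>] 0) (𝓝 (r : ℝ)) := by
      have e : (0 : ℝ) + -((-r : ℤ) : ℝ) = r := by push_cast; ring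
      rw [e] at g2
      refine g2.congr fun ε => ?_
      ring
    have f2 : Tendsto (gV (tM M) κ) (𝓝[>] 0) (𝓝 (m : ℝ)) := by
      have g3 := virt_meanG h3 h4
      have e : -((-m : ℤ) : ℝ) = m := by push_cast; ring
      rwa [e] at g3
    have f3 := second_tR (norm_tM_le M) f1 f2
    have e1 : (r : ℝ) - 2 * m + (κ.inter κ : ℝ) = R := by exact_mod_cast h5.symm
    rw [e1] at f3
    exact (f3.eventually_lt_const (show (R : ℝ) < R + δ by linarith)).mono fun ε h => h.le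

/-- the limit of the size -/
lemma dataG_lim (D : TensorData M) {F : Filter ℝ} (hF : F ≤ 𝓝[>] 0) {x : Mono K → ℝ}
    (hx : ∀ π ∈ D.rep.support, Tendsto (gM (tM M) π) F (𝓝 (x π))) :
    Tendsto D.size F (𝓝 (xG x D.rep)) := by
  have h1 := (gV_lim (norm_tM_le M) hF hx).sub ((tensor_size D).2.mono_left hF)
  rw [sub_zero] at h1
  refine h1.congr fun ε => ?_
  ring

lemma dataG_order (D : TensorData M) {m : ℤ} (h : D.HasOrder m) :
    Tendsto D.size (𝓝[>] 0) (𝓝 (-(m : ℝ))) := sizeW_lim (tensor_size D).1 h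

/-- **The Gram inequality.** -/
theorem tensor_gram (hR : RestOf M κ R) : TensorGram M R κ := by
  intro l D c
  have hR' := rest_boundG hR
  have key : ∀ η : ℝ, 0 < η → ∀ᶠ ε : ℝ in 𝓝[>] 0,
      (∑ k, c k * ((D k).size ε - κ.inter (D k).rep)) ^ 2 ≤
        R * ∑ k, ∑ k', c k * c k' * ((D k).rep.inter (D k').rep : ℝ) + η := by
    intro η hη
    by_contra hcon
    rw [Filter.not_eventually] at hcon
    obtain ⟨U, hU, hUP⟩ := exists_ultra_of hcon
    choose x hx using fun (π : Mono K) =>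
      exists_lim (U := U) (hU (gM_bdd (norm_tM_le M) π))
    have h1 := (gram_gen (norm_tM_le M) hU hR' hx (fun k => (D k).rep) c).2
    have h3 : Tendsto (fun ε : ℝ => (∑ k, c k * ((D k).size ε - κ.inter (D k).rep)) ^ 2) U
        (𝓝 ((∑ k, c k * (xG x (D k).rep - κ.inter (D k).rep)) ^ 2)) :=
      (tendsto_finsetSum _ fun k _ => ((dataG_lim (D k) hU fun π _ => hx π).sub
        tendsto_const_nhds).const_mul _).pow 2
    have h4 := ge_of_tendsto h3 (hUP.mono fun ε hε => (not_le.1 hε).le)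
    linarith
  refine ⟨key, fun m h3 => ?_⟩
  refine le_of_forall_pos_le_add fun η hη => ?_
  have h4 : Tendsto (fun ε : ℝ => (∑ k, c k * ((D k).size ε - κ.inter (D k).rep)) ^ 2)
      (𝓝[>] 0) (𝓝 ((∑ k, c k * (-(m k : ℝ) - κ.inter (D k).rep)) ^ 2)) :=
    (tendsto_finsetSum _ fun k _ => ((dataG_order (D k) (h3 k)).sub
      tendsto_const_nhds).const_mul _).pow 2
  have h5 := le_of_tendsto h4 (key η hη)
  have e1 : ∑ k, c k * (-(m k : ℝ) - κ.inter (D k).rep) =
      -∑ k, c k * ((m k + κ.inter (D k).rep : ℤ) : ℝ) := by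
    rw [← Finset.sum_neg_distrib]
    refine Finset.sum_congr rfl fun k _ => ?_
    push_cast
    ring
  rw [e1, neg_sq] at h5
  exact h5

/-- integers that are close to zero -/
lemma eq_of_abs {m h : ℤ} {L : ℝ} (hL : L = -(m : ℝ)) (hL1 : |L - h| < 1) : m = -h := by
  rw [hL] at hL1
  have e : -(m : ℝ) - (h : ℝ) = ((-m - h : ℤ) : ℝ) := by
    push_cast
    ring
  rw [e, ← Int.cast_abs] at hL1
  have h6 : |-m - h| < 1 := by exact_mod_cast hL1
  have h7 := Int.abs_lt_one_iff.1 h6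
  linarith

/-- **The exceptional set.** -/
theorem tensor_exceptional (hR : RestOf M κ R) (r k : ℕ) (hk : 1 ≤ k) :
    TensorExceptional M R κ r k := by
  obtain ⟨U, hU⟩ := exists_ultra
  choose x hx using fun (π : Mono K) =>
    exists_lim (U := U) (hU (gM_bdd (norm_tM_le M) π))
  have hR' := rest_boundG hR
  have hG := (gramForm_gen (norm_tM_le M) hU hR' hx).comp (fun D : TensorData M => D.rep)
  obtain ⟨S, hS, hS2⟩ := hG.exceptional r k hk
  refine ⟨S, hS, fun D h1 h2 => ?_⟩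
  have h3 := hS2 D h1 h2
  have h4 := dataG_lim D hU fun π _ => hx π
  refine ⟨?_, fun m hm => ?_⟩
  · have h5 : ∀ᶠ ε in (U : Filter ℝ), |D.size ε - κ.inter D.rep| < 1 / k :=
      (h4.sub tendsto_const_nhds).abs.eventually_lt_const h3
    exact (h5.frequently).filter_mono hU
  · have h5 := tendsto_nhds_unique h4 ((dataG_order D hm).mono_left hU)
    refine eq_of_abs h5 (h3.trans_le ?_)
    have hk0 : (0 : ℝ) < k := by exact_mod_cast hk
    rw [div_le_one hk0]
    exact_mod_cast hk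

/-- **The exceptional set for monomial representations, with continuations.** -/
theorem tensor_monomial (hR : RestOf M κ R) (H : ContinuationsOf M) : TensorMonomial M R κ := by
  classical
  obtain ⟨U, hU⟩ := exists_ultra
  choose x hx using fun (π : Mono K) =>
    exists_lim (U := U) (hU (gM_bdd (norm_tM_le M) π))
  have hR' := rest_boundG hR
  have hG := (gramForm_gen (norm_tM_le M) hU hR' hx).comp
    (fun π : {π : Mono K // π.inter π = 1} => (Finsupp.single π.1 1 : Virt K))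
  obtain ⟨S, hS, hS2⟩ := hG.exceptional 1 1 le_rfl
  have hsmall : ∀ π : Mono K, π.inter π = 1 → (∀ s ∈ S.image Subtype.val, π.inter s = 0) →
      |x π - (κ.inter (Finsupp.single π 1) : ℝ)| < 1 := by
    intro π h1 h2
    have h8 := hS2 ⟨π, h1⟩ (by
      simp only
      rw [inter_single]
      exact_mod_cast h1.le) (by
      intro s hs
      simp only
      rw [inter_single]
      exact_mod_cast h2 s.1 (Finset.mem_image_of_mem _ hs))
    simp only [Nat.cast_one, div_one] at h8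
    rwa [xG_single] at h8
  have hord : ∀ (π : Mono K), π.inter π = 1 → (∀ s ∈ S.image Subtype.val, π.inter s = 0) →
      ∀ (B : HeightOneSpectrum (𝓞 π.F) → ℂ[X]) (m : ℤ), IsTwistOf M π B →
        HasOrderW M.w π.τ B m → Tendsto (gM (tM M) π) (𝓝[>] 0) (𝓝 (-(m : ℝ))) ∧
          m = -κ.inter (Finsupp.single π 1) := by
    intro π h1 h2 B m h3 h4
    have h5 := twist_sizeG h3
    have h6 : Tendsto (gM (tM M) π) (𝓝[>] 0) (𝓝 (-(m : ℝ))) := by
      have h7 := h5.2.add (sizeW_lim h5.1 h4)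
      rw [zero_add] at h7
      refine h7.congr fun ε => ?_
      ring
    exact ⟨h6, eq_of_abs (tendsto_nhds_unique (hx π) (h6.mono_left hU)) (hsmall π h1 h2)⟩
  refine ⟨S.image Subtype.val, Finset.card_image_le.trans (by simpa using hS),
    fun D hD => ?_, fun π h1 h2 B m h3 h4 => (hord π h1 h2 B m h3 h4).2⟩
  have hint : ∀ π ∈ D.rep.support, Tendsto (gM (tM M) π) (𝓝[>] 0)
      (𝓝 (κ.inter (Finsupp.single π 1) : ℝ)) := by
    intro π hπ
    obtain ⟨h1, h2⟩ := hD π hπ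
    obtain ⟨B₁, k₁, h4, h5⟩ := H π h1
    obtain ⟨h6, h7⟩ := hord π h1 h2 B₁ k₁ h4 h5
    rw [h7] at h6
    have e : -((-κ.inter (Finsupp.single π 1) : ℤ) : ℝ) =
        (κ.inter (Finsupp.single π 1) : ℝ) := by
      push_cast
      ring
    rwa [e] at h6
  have h1 := dataG_lim D (le_refl (𝓝[>] (0 : ℝ)))
    (x := fun π => (κ.inter (Finsupp.single π 1) : ℝ)) hint
  rw [← inter_eq_xG κ D.rep] at h1
  exact ⟨h1, fun m hm => eq_of_abs (tendsto_nhds_unique h1 (dataG_order D hm)) (by simp)⟩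

/-- the norm of the representation -/
theorem tensor_norm (D : TensorData M) :
    0 ≤ D.rep.inter D.rep ∧ D.rep.inter D.rep ≤ (D.M'.rank : ℤ) ^ 2 := by
  refine ⟨inter_self_nonneg _, ?_⟩
  unfold TensorData.rep
  rw [inter_shift]
  have h := inter_le_of (ρ := D.ρ) (b := D.M'.rank) (by
    have hcof := vx_injective.tendsto_cofinite.eventually (D.M'.pure.and D.pot)
    filter_upwards [hcof] with x hx
    obtain ⟨h1, h2⟩ := hx
    have hq0 : (0 : ℝ) < nm K (vx x) := by exact_mod_cast nm_pos (vx x)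
    have n1 : ∀ j, ‖D.M'.α (vx x) j‖ = (nm K (vx x) : ℝ) ^ ((D.M'.w : ℝ) / 2) :=
      fun j => h1 j
    have e1 : ‖∑ l, D.M'.α (vx x) l‖ ≤ D.M'.rank * (nm K (vx x) : ℝ) ^ ((D.M'.w : ℝ) / 2) := by
      refine (norm_sum_le _ _).trans (le_of_eq ?_)
      rw [Finset.sum_congr rfl fun l _ => n1 l, Finset.sum_const, Finset.card_univ,
        Fintype.card_fin, nsmul_eq_mul]
    have e2 : ‖(Ideal.absNorm (vx x).asIdeal : ℂ) ^ ((D.M'.w : ℂ) / 2)‖ =
        (nm K (vx x) : ℝ) ^ ((D.M'.w : ℝ) / 2) := by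
      have := Complex.norm_natCast_cpow_of_pos (nm_pos (vx x)) ((D.M'.w : ℂ) / 2)
      have e3 : ((D.M'.w : ℂ) / 2).re = (D.M'.w : ℝ) / 2 := by
        rw [show ((D.M'.w : ℂ) / 2) = (((D.M'.w : ℝ) / 2 : ℝ) : ℂ) by push_cast; ring,
          Complex.ofReal_re]
      rw [e3] at this
      exact this
    rw [h2, norm_mul, e2, mul_comm (D.M'.rank : ℝ)] at e1
    exact le_of_mul_le_mul_left e1 (Real.rpow_pos_of_pos hq0 _))
  exact_mod_cast h

end Pool.Agent.X298.HC
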