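import Pool.Agent.X298.HC.GGen
import Pool.Agent.X298.HC.GDefs

/-! The sizes of the `L`-functions of tensor products and twists of a motive. -/

set_option autoImplicit false
set_option linter.unusedSectionVars false
open Filter Topology NumberField Ideal IsDedekindDomain ComplexConjugate Polynomial

namespace Pool.Agent.X298.HC

open Pool.Agent.W540.BE Pool.Agent.H341R2
open Pool.Agent.W353.TP (HX push res)
open Pool.Agent.W353.NF (vx nm_vx vx_asIdeal)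
open Pool.Agent.W353.EF (LFun)

variable {K : Type} [Field K] [NumberField K]

lemma edgeW_eq (w : ℤ) (τ : ℝ) : ((((w : ℝ) / 2 : ℝ) : ℂ) + 1 + τ * Complex.I) = edgeW w τ := by
  unfold edgeW
  push_cast
  ring

lemma edgeW_re (w : ℤ) (τ : ℝ) : (edgeW w τ).re = (w : ℝ) / 2 + 1 := by
  rw [← edgeW_eq]
  simp

/-- the normalised trace of a motive -/
noncomputable def tM (M : PureMotive K) (x : HX K) : ℂ := T ((M.w : ℝ) / 2) M.α (vx x)

lemma norm_tM_le (M : PureMotive K) (x : HX K) : ‖tM M x‖ ≤ M.rank := by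
  have := norm_T_le ((M.w : ℝ) / 2) M.α (vx x)
  rwa [Fintype.card_fin] at this

lemma sizeW_lim {F : Type} [Field F] [NumberField F] {w : ℤ} {τ : ℝ}
    {B : HeightOneSpectrum (𝓞 F) → ℂ[X]}
    (hne : ∀ᶠ ε : ℝ in 𝓝[>] 0, LFun B (edgeW w τ + ε) ≠ 0) {m : ℤ}
    (hm : HasOrderW w τ B m) : Tendsto (sizeW w τ B) (𝓝[>] 0) (𝓝 (-(m : ℝ))) := by
  obtain ⟨Λ, h1, h2, h3⟩ := hm
  exact Pool.Agent.W353.PV.lim_ord hne h1 (h2.mono fun s hs hs' => hs (by
    rw [edgeW_re] at hs'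
    exact hs')) h3

/-- **The size of a tensor product.** -/
theorem tensor_size {M : PureMotive K} (D : TensorData M) :
    (∀ᶠ ε : ℝ in 𝓝[>] 0, LFun D.B (edgeW (M.w + D.M'.w) D.τ + ε) ≠ 0) ∧
    Tendsto (fun ε : ℝ => gV (tM M) D.rep ε - D.size ε) (𝓝[>] 0) (𝓝 0) := by
  classical
  set M' := D.M' with hM'
  set γ : HeightOneSpectrum (𝓞 K) → Fin M.rank × Fin M'.rank → ℂ := fun v c =>
    M.α v c.1 * M'.α v c.2 with hγ
  have hnorm : ∀ᶠ v in cofinite, ∀ c, ‖γ v c‖ = (nm K v : ℝ) ^ (((M.w + M'.w : ℤ) : ℝ) / 2) := by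
    filter_upwards [M.pure, M'.pure] with v h1 h2
    intro c
    have h0 : (0 : ℝ) < nm K v := by exact_mod_cast nm_pos v
    have e1 : ‖M.α v c.1‖ = (nm K v : ℝ) ^ ((M.w : ℝ) / 2) := h1 c.1
    have e2 : ‖M'.α v c.2‖ = (nm K v : ℝ) ^ ((M'.w : ℝ) / 2) := h2 c.2
    rw [hγ]
    simp only
    rw [norm_mul, e1, e2, ← Real.rpow_add h0]
    congr 1
    push_cast
    ring
  have hev : ∀ᶠ v in cofinite, ∀ z : ℂ, (D.B v).eval z = ∏ c, (1 - γ v c * z) := by
    filter_upwards [D.tensor.1] with v h1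
    intro z
    rw [h1 z, Fintype.prod_prod_type]
  have h := link (((M.w + M'.w : ℤ) : ℝ) / 2) D.τ γ hnorm D.B hev (by
    intro v
    rw [edgeW_eq]
    exact D.tensor.2 v)
  simp only [edgeW_eq] at h
  refine ⟨h.1, ?_⟩
  set g : HeightOneSpectrum (𝓞 K) → ℝ := fun v =>
    (T (((M.w + M'.w : ℤ) : ℝ) / 2) γ v * zt D.τ v).re with hgdef
  have hgb : ∀ v, |g v| ≤ (Fintype.card (Fin M.rank × Fin M'.rank) : ℝ) := by
    intro v
    refine (Complex.abs_re_le_norm _).trans ?_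
    rw [norm_mul, norm_zt, mul_one]
    exact norm_T_le _ _ v
  have hg2 := EP_vx (K := K) hgb
  have hb1 : ∀ x : HX K, |(tM M x * D.rep.trace (vx x)).re| ≤ M.rank * D.rep.bd := by
    intro x
    refine (Complex.abs_re_le_norm _).trans ?_
    rw [norm_mul]
    exact mul_le_mul (norm_tM_le M x) (norm_trace_le _ x) (norm_nonneg _) (Nat.cast_nonneg _)
  have hae : Tendsto (fun ε : ℝ => (EP (nx K) ε fun x => (tM M x * D.rep.trace (vx x)).re) / lam ε -
      (EP (nx K) ε fun x => g (vx x)) / lam ε) (𝓝[>] 0) (𝓝 0) := by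
    refine EPH_ae hb1 (fun x => hgb (vx x)) ?_
    have hcof := vx_injective.tendsto_cofinite.eventually ((M.pure.and M'.pure).and
      (hnorm.and D.pot))
    filter_upwards [hcof] with x hx
    obtain ⟨⟨h1, h1'⟩, h2, h3⟩ := hx
    have hqc : ((nm K (vx x) : ℕ) : ℂ) ≠ 0 := by exact_mod_cast (nm_pos (vx x)).ne'
    have n1 : ∀ j, ‖M.α (vx x) j‖ = (nm K (vx x) : ℝ) ^ ((M.w : ℝ) / 2) := fun j => h1 j
    rw [hgdef]
    simp only
    rw [T_mul h2]
    unfold tM TensorData.rep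
    rw [T_mul n1, trace_shift, hγ]
    simp only
    rw [Fintype.sum_prod_type, ← Finset.sum_mul_sum]
    have h3' : ∑ l, M'.α (vx x) l = ((nm K (vx x) : ℕ) : ℂ) ^ ((M'.w : ℂ) / 2) *
        D.ρ.trace (vx x) := h3
    rw [h3']
    have e3 : ((nm K (vx x) : ℕ) : ℂ) ^ ((M'.w : ℂ) / 2) * ((nm K (vx x) : ℕ) : ℂ) ^
        (-((((M.w + M'.w : ℤ) : ℝ) / 2 : ℝ) : ℂ)) =
        ((nm K (vx x) : ℕ) : ℂ) ^ (-((((M.w : ℝ) / 2 : ℝ)) : ℂ)) := by
      rw [← Complex.cpow_add _ _ hqc]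
      congr 1
      push_cast
      ring
    rw [← e3]
    congr 1
    ring
  have h5 := (hae.add h.2).sub hg2
  rw [add_zero, sub_zero] at h5
  refine h5.congr fun ε => ?_
  unfold gV TensorData.size sizeW
  ring

/-- **The size of `L(M ⊗ M^∨)`.** -/
theorem end_size {M : PureMotive K} {B : HeightOneSpectrum (𝓞 K) → ℂ[X]} (hB : IsEnd M B) :
    (∀ᶠ ε : ℝ in 𝓝[>] 0, LFun B (edgeW 0 0 + ε) ≠ 0) ∧
    Tendsto (fun ε : ℝ => (EP (nx K) ε fun x => ‖tM M x‖ ^ 2) / lam ε - sizeW 0 0 B ε)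
      (𝓝[>] 0) (𝓝 0) := by
  classical
  set γ : HeightOneSpectrum (𝓞 K) → Fin M.rank × Fin M.rank → ℂ := fun v c =>
    M.α v c.1 * conj (M.α v c.2) * (Ideal.absNorm v.asIdeal : ℂ) ^ (-(M.w : ℂ)) with hγ
  have hnorm : ∀ᶠ v in cofinite, ∀ c, ‖γ v c‖ = (nm K v : ℝ) ^ (((0 : ℤ) : ℝ) / 2) := by
    filter_upwards [M.pure] with v h1
    intro c
    have h0 : (0 : ℝ) < nm K v := by exact_mod_cast nm_pos v
    have e1 : ‖M.α v c.1‖ = (nm K v : ℝ) ^ ((M.w : ℝ) / 2) := h1 c.1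
    have e2 : ‖M.α v c.2‖ = (nm K v : ℝ) ^ ((M.w : ℝ) / 2) := h1 c.2
    have e3 : ‖(Ideal.absNorm v.asIdeal : ℂ) ^ (-(M.w : ℂ))‖ = (nm K v : ℝ) ^ (-(M.w : ℝ)) := by
      have e4 := Complex.norm_natCast_cpow_of_pos (nm_pos v) (-(M.w : ℂ))
      have e5 : (-(M.w : ℂ)).re = -(M.w : ℝ) := by simp
      rw [e5] at e4
      exact e4
    rw [hγ]
    simp only
    rw [norm_mul, norm_mul, Complex.norm_conj, e1, e2, e3, ← Real.rpow_add h0,
      ← Real.rpow_add h0]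
    congr 1
    push_cast
    ring
  have hev : ∀ᶠ v in cofinite, ∀ z : ℂ, (B v).eval z = ∏ c, (1 - γ v c * z) := by
    filter_upwards [hB.1] with v h1
    intro z
    rw [h1 z, Fintype.prod_prod_type]
  have h := link (((0 : ℤ) : ℝ) / 2) 0 γ hnorm B hev (by
    intro v
    rw [edgeW_eq]
    exact hB.2 v)
  simp only [edgeW_eq] at h
  refine ⟨h.1, ?_⟩
  set g : HeightOneSpectrum (𝓞 K) → ℝ := fun v =>
    (T (((0 : ℤ) : ℝ) / 2) γ v * zt 0 v).re with hgdef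
  have hgb : ∀ v, |g v| ≤ (Fintype.card (Fin M.rank × Fin M.rank) : ℝ) := by
    intro v
    refine (Complex.abs_re_le_norm _).trans ?_
    rw [norm_mul, norm_zt, mul_one]
    exact norm_T_le _ _ v
  have hg2 := EP_vx (K := K) hgb
  have hb1 : ∀ x : HX K, |‖tM M x‖ ^ 2| ≤ (M.rank : ℝ) ^ 2 := by
    intro x
    rw [abs_of_nonneg (sq_nonneg _)]
    exact pow_le_pow_left₀ (norm_nonneg _) (norm_tM_le M x) 2
  have hae : Tendsto (fun ε : ℝ => (EP (nx K) ε fun x => ‖tM M x‖ ^ 2) / lam ε -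
      (EP (nx K) ε fun x => g (vx x)) / lam ε) (𝓝[>] 0) (𝓝 0) := by
    refine EPH_ae hb1 (fun x => hgb (vx x)) ?_
    have hcof := vx_injective.tendsto_cofinite.eventually (M.pure.and hnorm)
    filter_upwards [hcof] with x hx
    obtain ⟨h1, h2⟩ := hx
    have hqc : ((nm K (vx x) : ℕ) : ℂ) ≠ 0 := by exact_mod_cast (nm_pos (vx x)).ne'
    have hq0 : (0 : ℝ) < nm K (vx x) := by exact_mod_cast nm_pos (vx x)
    have n1 : ∀ j, ‖M.α (vx x) j‖ = (nm K (vx x) : ℝ) ^ ((M.w : ℝ) / 2) := fun j => h1 j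
    have hz : zt 0 (vx x) = 1 := by
      unfold zt
      simp
    rw [hgdef]
    simp only
    rw [T_mul h2, hz, mul_one]
    unfold tM
    rw [T_mul n1, hγ]
    simp only
    rw [Fintype.sum_prod_type]
    have e1 : ∑ j, ∑ k, M.α (vx x) j * conj (M.α (vx x) k) *
        (Ideal.absNorm (vx x).asIdeal : ℂ) ^ (-(M.w : ℂ)) =
        (((‖∑ j, M.α (vx x) j‖ ^ 2 * (nm K (vx x) : ℝ) ^ (-(M.w : ℝ)) : ℝ)) : ℂ) := by
      have e2 : ∀ j, ∑ k, M.α (vx x) j * conj (M.α (vx x) k) *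
          (Ideal.absNorm (vx x).asIdeal : ℂ) ^ (-(M.w : ℂ)) =
          M.α (vx x) j * ((∑ k, conj (M.α (vx x) k)) *
            (Ideal.absNorm (vx x).asIdeal : ℂ) ^ (-(M.w : ℂ))) := by
        intro j
        rw [Finset.sum_mul, Finset.mul_sum]
        exact Finset.sum_congr rfl fun k _ => by ring
      rw [Finset.sum_congr rfl fun j _ => e2 j, ← Finset.sum_mul, ← map_sum, ← mul_assoc,
        Complex.mul_conj, Complex.normSq_eq_norm_sq]
      push_cast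
      congr 1
      rw [Complex.ofReal_cpow hq0.le]
      push_cast
      rfl
    rw [e1]
    have e4 : ((nm K (vx x) : ℕ) : ℂ) ^ (-((((0 : ℤ) : ℝ) / 2 : ℝ) : ℂ)) = 1 := by
      simp
    rw [e4, mul_one, Complex.ofReal_re, norm_mul, mul_pow,
      Complex.norm_natCast_cpow_of_pos (nm_pos (vx x))]
    congr 1
    have e5 : (-((((M.w : ℝ) / 2 : ℝ)) : ℂ)).re = -((M.w : ℝ) / 2) := by
      rw [Complex.neg_re, Complex.ofReal_re]
    rw [e5, ← Real.rpow_natCast, ← Real.rpow_mul hq0.le]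
    congr 1
    push_cast
    ring
  have h5 := (hae.add h.2).sub hg2
  rw [add_zero, sub_zero] at h5
  refine h5.congr fun ε => ?_
  unfold sizeW
  ring

section
variable {F : Type} [Field F] [NumberField F] [Algebra K F]

/-- properties of almost all primes hold for the primes below almost all primes -/
lemma above_cofinite {P : HeightOneSpectrum (𝓞 K) → Prop} (h : ∀ᶠ v in cofinite, P v) :
    ∀ᶠ w : HeightOneSpectrum (𝓞 F) in cofinite, ∀ v : HeightOneSpectrum (𝓞 K),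
      w.asIdeal.comap (algebraMap (𝓞 K) (𝓞 F)) = v.asIdeal → P v := by
  rw [Filter.eventually_cofinite] at h ⊢
  refine (h.biUnion (t := fun v => {w : HeightOneSpectrum (𝓞 F) |
    w.asIdeal.comap (algebraMap (𝓞 K) (𝓞 F)) = v.asIdeal}) fun v _ => ?_).subset ?_
  · have h1 := Algebra.QuasiFinite.finite_primesOver (S := 𝓞 F) v.asIdeal
    refine Set.Finite.of_finite_image (f := fun w : HeightOneSpectrum (𝓞 F) => w.asIdeal)
      (h1.subset ?_) (fun a _ b _ hab => HeightOneSpectrum.ext hab)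
    rintro _ ⟨w, hw, rfl⟩
    exact ⟨w.isPrime, ⟨hw.symm⟩⟩
  · intro w hw
    simp only [Set.mem_ofPred_eq, not_forall] at hw
    obtain ⟨v, hv, hP⟩ := hw
    exact Set.mem_biUnion (show v ∈ {v | ¬ P v} from hP) hv

end

/-- **The size of a twist by a monomial representation.** -/
theorem twist_sizeG {M : PureMotive K} {π : Mono K} {B : HeightOneSpectrum (𝓞 π.F) → ℂ[X]}
    (hB : IsTwistOf M π B) :
    (∀ᶠ ε : ℝ in 𝓝[>] 0, LFun B (edgeW M.w π.τ + ε) ≠ 0) ∧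
    Tendsto (fun ε : ℝ => gM (tM M) π ε - sizeW M.w π.τ B ε) (𝓝[>] 0) (𝓝 0) := by
  classical
  set P : HeightOneSpectrum (𝓞 π.F) → HeightOneSpectrum (𝓞 K) → ℕ → Prop := fun w v f =>
    w.asIdeal.comap (algebraMap (𝓞 K) (𝓞 π.F)) = v.asIdeal ∧
    Ideal.absNorm w.asIdeal = Ideal.absNorm v.asIdeal ^ f ∧
    ∀ z : ℂ, (B w).eval z = ∏ j, (1 - π.ψ.toFun w.asIdeal * M.α v j ^ f * z) with hP
  set γ : HeightOneSpectrum (𝓞 π.F) → Fin M.rank → ℂ := fun w j =>
    if h : ∃ (v : HeightOneSpectrum (𝓞 K)) (f : ℕ), P w v f then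
      π.ψ.toFun w.asIdeal * M.α h.choose j ^ h.choose_spec.choose else 0 with hγ
  have hγ2 : ∀ w, (∃ (v : HeightOneSpectrum (𝓞 K)) (f : ℕ), P w v f) →
      ∃ (v : HeightOneSpectrum (𝓞 K)) (f : ℕ), P w v f ∧
        ∀ j, γ w j = π.ψ.toFun w.asIdeal * M.α v j ^ f := by
    intro w h
    refine ⟨h.choose, h.choose_spec.choose, h.choose_spec.choose_spec, fun j => ?_⟩
    rw [hγ]
    simp only
    rw [dif_pos h]
  have hpure := above_cofinite (F := π.F) M.pure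
  have hnorm : ∀ᶠ w in cofinite, ∀ j, ‖γ w j‖ = (nm π.F w : ℝ) ^ ((M.w : ℝ) / 2) := by
    filter_upwards [hB.1, hpure, ae_ne π.ψ] with w h1 h2 h3
    intro j
    obtain ⟨v, f, ⟨e1, e2, -⟩, e4⟩ := hγ2 w h1
    have h0 : (0 : ℝ) < nm K v := by exact_mod_cast nm_pos v
    have e5 : ‖M.α v j‖ = (nm K v : ℝ) ^ ((M.w : ℝ) / 2) := h2 v e1 j
    have e6 : (nm π.F w : ℝ) = (nm K v : ℝ) ^ f := by exact_mod_cast e2
    rw [e4, norm_mul, norm_pow, norm_of_ne π.ψ h3, one_mul, e5, e6, ← Real.rpow_natCast,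
      ← Real.rpow_natCast, ← Real.rpow_mul h0.le, ← Real.rpow_mul h0.le, mul_comm]
  have hev : ∀ᶠ w in cofinite, ∀ z : ℂ, (B w).eval z = ∏ j, (1 - γ w j * z) := by
    filter_upwards [hB.1] with w h1
    intro z
    obtain ⟨v, f, ⟨-, -, e3⟩, e4⟩ := hγ2 w h1
    rw [e3 z]
    exact Finset.prod_congr rfl fun j _ => by rw [e4]
  have h := link ((M.w : ℝ) / 2) π.τ γ hnorm B hev (by
    intro v
    rw [edgeW_eq]
    exact hB.2 v)
  simp only [edgeW_eq] at h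
  refine ⟨h.1, ?_⟩
  set g : HeightOneSpectrum (𝓞 π.F) → ℝ := fun w =>
    (T ((M.w : ℝ) / 2) γ w * zt π.τ w).re with hgdef
  have hgb : ∀ w, |g w| ≤ (M.rank : ℝ) := by
    intro w
    refine (Complex.abs_re_le_norm _).trans ?_
    rw [norm_mul, norm_zt, mul_one]
    have := norm_T_le ((M.w : ℝ) / 2) γ w
    rwa [Fintype.card_fin] at this
  have hg2 := EP_vx (K := π.F) hgb
  have hb0 : ∀ y : HX π.F, |(tM M (⟨y.1, res K y.2⟩ : HX K) * av π.ψ π.τ (vx y)).re| ≤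
      M.rank := by
    intro y
    refine (Complex.abs_re_le_norm _).trans ?_
    rw [norm_mul]
    calc _ ≤ (M.rank : ℝ) * 1 := mul_le_mul (norm_tM_le M _) (norm_av_le _ _ _)
          (norm_nonneg _) (Nat.cast_nonneg _)
      _ = M.rank := mul_one _
  have hae : Tendsto (fun ε : ℝ => (EP (nx π.F) ε fun y =>
      (tM M (⟨y.1, res K y.2⟩ : HX K) * av π.ψ π.τ (vx y)).re) / lam ε -
      (EP (nx π.F) ε fun y => g (vx y)) / lam ε) (𝓝[>] 0) (𝓝 0) := by
    refine EPH_ae hb0 (fun y => hgb (vx y)) ?_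
    have hcof := vx_injective.tendsto_cofinite.eventually ((hB.1.and hpure).and hnorm)
    filter_upwards [hcof] with y hy
    obtain ⟨⟨h1, h2⟩, h3⟩ := hy
    obtain ⟨v, f, ⟨e1, e2, -⟩, e4⟩ := hγ2 (vx y) h1
    have ev : v = vx (⟨y.1, res K y.2⟩ : HX K) := by
      apply HeightOneSpectrum.ext
      rw [← e1, vx_asIdeal, vx_asIdeal]
      unfold Pool.Agent.W353.TP.res
      rw [RingHom.comap_ker]
    have hp : 2 ≤ (y.1 : ℕ) := y.1.2.two_le
    have ef : f = 1 := by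
      have e5 : Ideal.absNorm (vx y).asIdeal = (y.1 : ℕ) := nm_vx y
      have e6 : Ideal.absNorm v.asIdeal = (y.1 : ℕ) := by
        rw [ev]
        exact nm_vx (⟨y.1, res K y.2⟩ : HX K)
      rw [e5, e6] at e2
      have e7 : (y.1 : ℕ) ^ 1 = (y.1 : ℕ) ^ f := by
        rw [pow_one]
        exact e2
      exact (Nat.pow_right_injective hp e7).symm
    have n1 : ∀ j, ‖M.α v j‖ = (nm K v : ℝ) ^ ((M.w : ℝ) / 2) := fun j => h2 v e1 j
    rw [ev] at n1
    have e8 : tM M (⟨y.1, res K y.2⟩ : HX K) = (∑ j, M.α (vx (⟨y.1, res K y.2⟩ : HX K)) j) *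
        ((nm K (vx (⟨y.1, res K y.2⟩ : HX K)) : ℕ) : ℂ) ^ (-((((M.w : ℝ) / 2 : ℝ)) : ℂ)) :=
      T_mul n1
    have e9 : nm K (vx (⟨y.1, res K y.2⟩ : HX K)) = nm π.F (vx y) := by
      have e5 : nm π.F (vx y) = (y.1 : ℕ) := nm_vx y
      have e6 : nm K (vx (⟨y.1, res K y.2⟩ : HX K)) = (y.1 : ℕ) := nm_vx _
      rw [e5, e6]
    rw [hgdef]
    simp only
    rw [T_mul h3, av_eq, e8, e9]
    have e10 : ∑ j, γ (vx y) j = π.ψ.toFun (vx y).asIdeal *
        ∑ j, M.α (vx (⟨y.1, res K y.2⟩ : HX K)) j := by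
      rw [Finset.mul_sum]
      refine Finset.sum_congr rfl fun j _ => ?_
      rw [e4, ef, pow_one, ev]
    rw [e10]
    congr 1
    ring
  have h5 := (hae.add h.2).sub hg2
  rw [add_zero, sub_zero] at h5
  refine h5.congr' ?_
  filter_upwards [self_mem_nhdsWithin] with ε hε
  have hε' : (0 : ℝ) < ε := hε
  have e1 : (EP (nx π.F) ε fun y => (tM M (⟨y.1, res K y.2⟩ : HX K) *
      av π.ψ π.τ (vx y)).re) = EP (nx K) ε fun x => (tM M x * π.trace (vx x)).re := by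
    have e2 := Pool.Agent.W353.TP.EH_push (K := K) hε' (h := fun y : HX π.F =>
      (tM M (⟨y.1, res K y.2⟩ : HX K) * av π.ψ π.τ (vx y)).re) hb0
    refine e2.trans ?_
    rw [EPH]
    congr 1
    funext x
    rw [trace_vx]
    unfold wv push
    rw [Finset.mul_sum, Complex.re_sum]
    refine Finset.sum_congr rfl fun u hu => ?_
    have h5 := (Finset.mem_filter.1 hu).2
    simp only
    rw [h5]
  rw [e1]
  unfold gM sizeW
  ring

end Pool.Agent.X298.HC
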