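import Pool.Agent.X298.HC.Mean

/-! The Gram inequality with the second moment. -/

set_option autoImplicit false
set_option linter.unusedSectionVars false
open Filter Topology ComplexConjugate

namespace Pool.Agent.X298.HC

open Pool.Agent.W540.BE Pool.Agent.H341R2

section
variable {P : Type*} {N : P → ℕ}

/-- Cauchy-Schwarz for the weighted sums, at a fixed `ε`, with the second moment of `t` -/
theorem gram_sq (hN : NormSys N) (p0 : P) {κ : Type*} (K : Finset κ) (t : P → ℂ)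
    (v : κ → P → ℂ) (b : ℝ) (ht : ∀ p, ‖t p‖ ≤ b) (B : κ → ℝ) (hv : ∀ k p, ‖v k p‖ ≤ B k)
    (c : κ → ℝ) {ε : ℝ} (hε : 0 < ε) :
    (∑ k ∈ K, c k * EP N ε fun p => (t p * conj (v k p)).re) ^ 2 ≤
      (EP N ε fun p => ‖t p‖ ^ 2) *
        ∑ k ∈ K, ∑ l ∈ K, (c k * c l) * EP N ε fun p => (v k p * conj (v l p)).re := by
  classical
  have hb0 : 0 ≤ b := (norm_nonneg _).trans (ht p0)
  have hB0 : ∀ k, 0 ≤ B k := fun k => (norm_nonneg _).trans (hv k p0)
  -- quadratic polynomial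
  have key : ∀ x : ℝ, 0 ≤ (∑ k ∈ K, ∑ l ∈ K, (c k * c l) * EP N ε fun p =>
      (v k p * conj (v l p)).re) * (x * x) +
      (2 * ∑ k ∈ K, c k * EP N ε fun p => (t p * conj (v k p)).re) * x +
      EP N ε fun p => ‖t p‖ ^ 2 := by
    intro x
    have hpt : ∀ p, ‖t p + ∑ k ∈ K, ((x * c k : ℝ) : ℂ) * v k p‖ ^ 2 =
        ‖t p‖ ^ 2 + (∑ k ∈ K, 2 * ((x * c k) * (t p * conj (v k p)).re) +
          ∑ k ∈ K, ∑ l ∈ K, ((x * c k) * (x * c l)) * (v k p * conj (v l p)).re) := by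
      intro p
      have e1 : ‖t p + ∑ k ∈ K, ((x * c k : ℝ) : ℂ) * v k p‖ ^ 2 =
          ((t p + ∑ k ∈ K, ((x * c k : ℝ) : ℂ) * v k p) *
            conj (t p + ∑ k ∈ K, ((x * c k : ℝ) : ℂ) * v k p)).re := by
        rw [Complex.mul_conj, Complex.ofReal_re, Complex.normSq_eq_norm_sq]
      have e2 : ‖t p‖ ^ 2 = (t p * conj (t p)).re := by
        rw [Complex.mul_conj, Complex.ofReal_re, Complex.normSq_eq_norm_sq]
      have e3 : ((∑ k ∈ K, ((x * c k : ℝ) : ℂ) * v k p) * conj (t p)).re =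
          (t p * conj (∑ k ∈ K, ((x * c k : ℝ) : ℂ) * v k p)).re := by
        rw [← Complex.conj_re, map_mul, Complex.conj_conj, mul_comm]
      have e4 : (t p * conj (∑ k ∈ K, ((x * c k : ℝ) : ℂ) * v k p)).re =
          ∑ k ∈ K, (x * c k) * (t p * conj (v k p)).re := by
        rw [map_sum, Finset.mul_sum, Complex.re_sum]
        refine Finset.sum_congr rfl fun k _ => ?_
        rw [map_mul, Complex.conj_ofReal, mul_left_comm, Complex.re_ofReal_mul]
      have e5 : ((∑ k ∈ K, ((x * c k : ℝ) : ℂ) * v k p) *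
          conj (∑ k ∈ K, ((x * c k : ℝ) : ℂ) * v k p)).re =
          ∑ k ∈ K, ∑ l ∈ K, ((x * c k) * (x * c l)) * (v k p * conj (v l p)).re := by
        rw [map_sum, Finset.sum_mul_sum, Complex.re_sum]
        refine Finset.sum_congr rfl fun k _ => ?_
        rw [Complex.re_sum]
        refine Finset.sum_congr rfl fun l _ => ?_
        rw [map_mul, Complex.conj_ofReal]
        have : ((x * c k : ℝ) : ℂ) * v k p * (((x * c l : ℝ) : ℂ) * conj (v l p)) =
            (((x * c k) * (x * c l) : ℝ) : ℂ) * (v k p * conj (v l p)) := by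
          push_cast; ring
        rw [this, Complex.re_ofReal_mul]
      rw [e1, map_add, add_mul, mul_add, mul_add, Complex.add_re, Complex.add_re,
        Complex.add_re, e3, e4, e5, e2, ← Finset.mul_sum]
      ring
    have hbt : ∀ p, |‖t p‖ ^ 2| ≤ b ^ 2 := by
      intro p
      rw [abs_of_nonneg (sq_nonneg _)]
      exact pow_le_pow_left₀ (norm_nonneg _) (ht p) 2
    have hb1 : ∀ k p, |(t p * conj (v k p)).re| ≤ b * B k := by
      intro k p
      refine (Complex.abs_re_le_norm _).trans ?_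
      rw [norm_mul, Complex.norm_conj]
      exact mul_le_mul (ht p) (hv k p) (norm_nonneg _) hb0
    have hb2 : ∀ k l p, |(v k p * conj (v l p)).re| ≤ B k * B l := by
      intro k l p
      refine (Complex.abs_re_le_norm _).trans ?_
      rw [norm_mul, Complex.norm_conj]
      exact mul_le_mul (hv k p) (hv l p) (norm_nonneg _) (hB0 k)
    have hb1' : ∀ k p, |2 * ((x * c k) * (t p * conj (v k p)).re)| ≤
        2 * (|x * c k| * (b * B k)) := by
      intro k p
      rw [abs_mul, abs_mul, abs_two]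
      gcongr
      exact hb1 k p
    have hb2' : ∀ k l p, |(x * c k) * (x * c l) * (v k p * conj (v l p)).re| ≤
        |(x * c k) * (x * c l)| * (B k * B l) := by
      intro k l p
      rw [abs_mul]
      gcongr
      exact hb2 k l p
    have hS2 : ∀ k p, |∑ l ∈ K, (x * c k) * (x * c l) * (v k p * conj (v l p)).re| ≤
        ∑ l ∈ K, |(x * c k) * (x * c l)| * (B k * B l) := fun k p =>
      (Finset.abs_sum_le_sum_abs _ _).trans (Finset.sum_le_sum fun l _ => hb2' k l p)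
    have s1 : ∀ p, |∑ k ∈ K, 2 * ((x * c k) * (t p * conj (v k p)).re)| ≤
        ∑ k ∈ K, 2 * (|x * c k| * (b * B k)) := fun p =>
      (Finset.abs_sum_le_sum_abs _ _).trans (Finset.sum_le_sum fun k _ => hb1' k p)
    have s2 : ∀ p, |∑ k ∈ K, ∑ l ∈ K, ((x * c k) * (x * c l)) * (v k p * conj (v l p)).re| ≤
        ∑ k ∈ K, ∑ l ∈ K, |(x * c k) * (x * c l)| * (B k * B l) := fun p =>
      (Finset.abs_sum_le_sum_abs _ _).trans (Finset.sum_le_sum fun k _ => hS2 k p)
    have hexp : EP N ε (fun p => ‖t p + ∑ k ∈ K, ((x * c k : ℝ) : ℂ) * v k p‖ ^ 2) =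
        EP N ε (fun p => ‖t p‖ ^ 2) +
        (∑ k ∈ K, 2 * ((x * c k) * EP N ε fun p => (t p * conj (v k p)).re) +
          ∑ k ∈ K, ∑ l ∈ K, ((x * c k) * (x * c l)) *
            EP N ε fun p => (v k p * conj (v l p)).re) := by
      rw [funext hpt, EP_add hN hε hbt (B' := ∑ k ∈ K, 2 * (|x * c k| * (b * B k)) +
        ∑ k ∈ K, ∑ l ∈ K, |(x * c k) * (x * c l)| * (B k * B l))
        (fun p => (abs_add_le _ _).trans (add_le_add (s1 p) (s2 p))), EP_add hN hε s1 s2,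
        EP_sum hN hε K _ (fun k => 2 * (|x * c k| * (b * B k))) (fun k _ p => hb1' k p),
        EP_sum hN hε K _ (fun k => ∑ l ∈ K, |(x * c k) * (x * c l)| * (B k * B l))
          (fun k _ p => hS2 k p)]
      congr 2
      · refine Finset.sum_congr rfl fun k _ => ?_
        rw [EP_const_mul, EP_const_mul]
      · refine Finset.sum_congr rfl fun k _ => ?_
        rw [EP_sum hN hε K _ (fun l => |(x * c k) * (x * c l)| * (B k * B l))
          (fun l _ p => hb2' k l p)]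
        refine Finset.sum_congr rfl fun l _ => ?_
        rw [EP_const_mul]
    have h1 : 0 ≤ EP N ε (fun p => ‖t p + ∑ k ∈ K, ((x * c k : ℝ) : ℂ) * v k p‖ ^ 2) :=
      EP_nonneg fun p => sq_nonneg _
    rw [hexp] at h1
    have e1 : ∑ k ∈ K, 2 * ((x * c k) * EP N ε fun p => (t p * conj (v k p)).re) =
        (2 * ∑ k ∈ K, c k * EP N ε fun p => (t p * conj (v k p)).re) * x := by
      rw [Finset.mul_sum, Finset.sum_mul]
      exact Finset.sum_congr rfl fun k _ => by ring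
    have e2 : ∑ k ∈ K, ∑ l ∈ K, ((x * c k) * (x * c l)) *
        (EP N ε fun p => (v k p * conj (v l p)).re) =
        (∑ k ∈ K, ∑ l ∈ K, (c k * c l) * EP N ε fun p => (v k p * conj (v l p)).re) *
          (x * x) := by
      rw [Finset.sum_mul]
      refine Finset.sum_congr rfl fun k _ => ?_
      rw [Finset.sum_mul]
      exact Finset.sum_congr rfl fun l _ => by ring
    rw [e1, e2] at h1
    linarith
  have h1 := discrim_le_zero key
  rw [discrim] at h1
  nlinarith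

end

/-- the abstract inequality: from the Gram inequality at one `ε` to the sizes -/
lemma abstract_step {κ : Type*} (K : Finset κ) [DecidableEq κ] {c x y : κ → ℝ} {E : κ → κ → ℝ}
    {Q q u δ C b : ℝ} (hC : 0 ≤ C) (hδ : 0 ≤ δ) (hδ1 : δ ≤ 1) (hQ0 : 0 ≤ Q)
    (hgram : (∑ k ∈ K, c k * y k) ^ 2 ≤ Q * ∑ k ∈ K, ∑ l ∈ K, (c k * c l) * E k l)
    (hQ : Q ≤ q + δ) (hq0 : 0 ≤ q) (hqb : q ≤ b)
    (hdiag : ∀ k ∈ K, E k k ≤ u) (hu : u ≤ 1 + δ)
    (hoff : ∀ k ∈ K, ∀ l ∈ K, k ≠ l → (c k * c l) * E k l ≤ |c k * c l| * δ)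
    (hc : ∀ k ∈ K, |c k| ≤ C) (hxy : ∀ k ∈ K, |x k - y k| ≤ δ)
    (hx : ∀ k ∈ K, |x k| ≤ b) :
    (∑ k ∈ K, c k * x k) ^ 2 ≤ q * ∑ k ∈ K, c k ^ 2 +
      δ * (C ^ 2 * (K.card : ℝ) ^ 2 * (2 * b + 1) + (b + 1) * (2 * C ^ 2 * (K.card : ℝ) ^ 2) +
        C ^ 2 * (K.card : ℝ) ^ 2) := by
  set n : ℝ := (K.card : ℝ) with hn
  have hn0 : 0 ≤ n := by positivity
  have hb0 : 0 ≤ b := hq0.trans hqb
  -- the double sum
  have hcc : ∀ k ∈ K, ∀ l ∈ K, |c k * c l| ≤ C ^ 2 := by
    intro k hk l hl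
    rw [abs_mul, sq]
    exact mul_le_mul (hc k hk) (hc l hl) (abs_nonneg _) hC
  have hdouble : ∑ k ∈ K, ∑ l ∈ K, (c k * c l) * E k l ≤
      (1 + δ) * ∑ k ∈ K, c k ^ 2 + C ^ 2 * n ^ 2 * δ := by
    have h1 : ∀ k ∈ K, ∑ l ∈ K, (c k * c l) * E k l ≤ (1 + δ) * c k ^ 2 + C ^ 2 * n * δ := by
      intro k hk
      rw [← Finset.add_sum_erase _ _ hk]
      refine add_le_add ?_ ?_
      · have h2 : E k k ≤ 1 + δ := (hdiag k hk).trans hu
        have h3 : 0 ≤ c k * c k := mul_self_nonneg _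
        nlinarith
      · calc ∑ l ∈ K.erase k, (c k * c l) * E k l ≤ ∑ l ∈ K.erase k, C ^ 2 * δ := by
              refine Finset.sum_le_sum fun l hl => ?_
              have hl' := Finset.mem_of_mem_erase hl
              refine (hoff k hk l hl' (Finset.ne_of_mem_erase hl).symm).trans ?_
              exact mul_le_mul_of_nonneg_right (hcc k hk l hl') hδ
          _ ≤ ∑ l ∈ K, C ^ 2 * δ := Finset.sum_le_sum_of_subset_of_nonneg
              (Finset.erase_subset _ _) fun _ _ _ => by positivity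
          _ = C ^ 2 * n * δ := by
              rw [Finset.sum_const, nsmul_eq_mul, hn]
              ring
    refine (Finset.sum_le_sum h1).trans (le_of_eq ?_)
    rw [Finset.sum_add_distrib, ← Finset.mul_sum, Finset.sum_const, nsmul_eq_mul, ← hn]
    ring
  have hS : ∑ k ∈ K, c k ^ 2 ≤ n * C ^ 2 := by
    calc ∑ k ∈ K, c k ^ 2 ≤ ∑ k ∈ K, C ^ 2 := by
          refine Finset.sum_le_sum fun k hk => ?_
          rw [← sq_abs]
          exact pow_le_pow_left₀ (abs_nonneg _) (hc k hk) 2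
      _ = n * C ^ 2 := by rw [Finset.sum_const, nsmul_eq_mul]
  have hS0 : 0 ≤ ∑ k ∈ K, c k ^ 2 := Finset.sum_nonneg fun _ _ => sq_nonneg _
  -- the difference of the linear forms
  set X := ∑ k ∈ K, c k * x k with hX
  set Y := ∑ k ∈ K, c k * y k with hY
  have hXY : |X - Y| ≤ n * C * δ := by
    rw [hX, hY, ← Finset.sum_sub_distrib]
    refine (Finset.abs_sum_le_sum_abs _ _).trans ?_
    calc ∑ k ∈ K, |c k * x k - c k * y k| ≤ ∑ k ∈ K, C * δ := by
          refine Finset.sum_le_sum fun k hk => ?_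
          rw [← mul_sub, abs_mul]
          exact mul_le_mul (hc k hk) (hxy k hk) (abs_nonneg _) hC
      _ = n * C * δ := by rw [Finset.sum_const, nsmul_eq_mul]; ring
  have hXb : |X| ≤ n * C * b := by
    rw [hX]
    refine (Finset.abs_sum_le_sum_abs _ _).trans ?_
    calc ∑ k ∈ K, |c k * x k| ≤ ∑ k ∈ K, C * b := by
          refine Finset.sum_le_sum fun k hk => ?_
          rw [abs_mul]
          exact mul_le_mul (hc k hk) (hx k hk) (abs_nonneg _) hC
      _ = n * C * b := by rw [Finset.sum_const, nsmul_eq_mul]; ring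
  have h1 : X ^ 2 ≤ Y ^ 2 + δ * (C ^ 2 * n ^ 2 * (2 * b + 1)) := by
    have e : X ^ 2 = Y ^ 2 + 2 * (X * (X - Y)) - (X - Y) ^ 2 := by ring
    rw [e]
    have h2 : X * (X - Y) ≤ (n * C * b) * (n * C * δ) := by
      refine (le_abs_self _).trans ?_
      rw [abs_mul]
      exact mul_le_mul hXb hXY (abs_nonneg _) (by positivity)
    have h3 : 0 ≤ δ * (C ^ 2 * n ^ 2) := by positivity
    nlinarith [sq_nonneg (X - Y)]
  set D := ∑ k ∈ K, ∑ l ∈ K, (c k * c l) * E k l with hD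
  have hQb : Q ≤ b + 1 := by linarith
  have h4 : Q * D ≤ Q * ((1 + δ) * ∑ k ∈ K, c k ^ 2 + C ^ 2 * n ^ 2 * δ) :=
    mul_le_mul_of_nonneg_left hdouble hQ0
  have hnn : n ≤ n ^ 2 := by
    by_cases h0 : K.card = 0
    · rw [hn, h0]; simp
    · have : (1 : ℝ) ≤ n := by
        rw [hn]
        exact_mod_cast Nat.one_le_iff_ne_zero.2 h0
      nlinarith
  have h5 : Q * ((1 + δ) * ∑ k ∈ K, c k ^ 2 + C ^ 2 * n ^ 2 * δ) ≤
      q * ∑ k ∈ K, c k ^ 2 + δ * ((b + 1) * (2 * C ^ 2 * n ^ 2) + C ^ 2 * n ^ 2) := by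
    set S := ∑ k ∈ K, c k ^ 2 with hSdef
    have e : Q * ((1 + δ) * S + C ^ 2 * n ^ 2 * δ) = Q * S + δ * (Q * S + Q * (C ^ 2 * n ^ 2)) := by
      ring
    rw [e]
    have a1 : Q * S ≤ (q + δ) * S := mul_le_mul_of_nonneg_right hQ hS0
    have a2 : Q * S ≤ (b + 1) * (C ^ 2 * n ^ 2) := by
      refine mul_le_mul hQb (hS.trans ?_) hS0 (by linarith)
      nlinarith [sq_nonneg C]
    have a3 : Q * (C ^ 2 * n ^ 2) ≤ (b + 1) * (C ^ 2 * n ^ 2) :=
      mul_le_mul_of_nonneg_right hQb (by positivity)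
    have a4 : S ≤ C ^ 2 * n ^ 2 := by
      refine hS.trans ?_
      nlinarith [sq_nonneg C]
    nlinarith
  calc X ^ 2 ≤ Y ^ 2 + δ * (C ^ 2 * n ^ 2 * (2 * b + 1)) := h1
    _ ≤ Q * D + δ * (C ^ 2 * n ^ 2 * (2 * b + 1)) := by linarith
    _ ≤ _ := by linarith

end Pool.Agent.X298.HC
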