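import Pool.Agent.X298.HC.PDefs

/-!
# Products with varieties whose Albanese variety has complex multiplication: definitions
-/

set_option autoImplicit false

namespace Pool.Agent.X298.HC

open NumberField IsDedekindDomain Filter Topology Polynomial
open Pool.Agent.W353.EF (IsFrobenius LFun)
open Pool.Agent.W353.EH (edgePoint)

variable {K : Type} [Field K] [NumberField K] {n n' : ℕ}

/-- `Y` is a projective variety of dimension `e` over `K` such that at almost all primes `v` the
eigenvalues of Frobenius on `H^1(Y)` are the values `φ_l(v) q_v^{1/2}`, `l = 1, …, M`, of Hecke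
characters.  By the theorem of Shimura and Taniyama this is so if the Albanese variety of `Y` has
complex multiplication over `K`. -/
def IsHecke1 (Y : Set (MvPolynomial (Fin n') (𝓞 K))) (e M : ℕ) (φ : Fin M → HeckeChar K) : Prop :=
  ∀ᶠ v : HeightOneSpectrum (𝓞 K) in cofinite,
    IsFrobenius Y e 1 v fun l => (φ l).toFun v.asIdeal *
      (Ideal.absNorm v.asIdeal : ℂ) ^ ((1 : ℂ) / 2)

/-- The polynomials `B v` are the Euler factors of `L₂(s, X × Y) = L(H²(X × Y), s)` for geometrically
connected `X` and `Y`, by the theorem of Künneth: for almost all primes `v`,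
`B_v(z) = ∏ (1 - γ_k z) ∏ (1 - δ_l z) ∏ (1 - α_j β_l z)`, where `α_j`, `γ_k` are the eigenvalues of
Frobenius on `H¹(X)`, `H²(X)`, and `β_l`, `δ_l` those on `H¹(Y)`, `H²(Y)`.  At the other primes `B v` is
an arbitrary polynomial, and no factor `1 / B_v(q_v^{-s})` has a pole at `s = 2 = edgePoint 2 0`. -/
def IsProduct2 (X : Set (MvPolynomial (Fin n) (𝓞 K))) (d N₁ N₂ : ℕ)
    (Y : Set (MvPolynomial (Fin n') (𝓞 K))) (e M₁ M₂ : ℕ)
    (B : HeightOneSpectrum (𝓞 K) → ℂ[X]) : Prop :=
  (∀ᶠ v in cofinite, ∃ (α : Fin N₁ → ℂ) (γ : Fin N₂ → ℂ) (β : Fin M₁ → ℂ) (δ : Fin M₂ → ℂ),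
    IsFrobenius X d 1 v α ∧ IsFrobenius X d 2 v γ ∧ IsFrobenius Y e 1 v β ∧
    IsFrobenius Y e 2 v δ ∧ ∀ z : ℂ, (B v).eval z =
      (∏ k, (1 - γ k * z)) * (∏ l, (1 - δ l * z)) * ∏ j, ∏ l, (1 - α j * β l * z)) ∧
  ∀ v, (B v).eval ((Ideal.absNorm v.asIdeal : ℂ) ^ (-edgePoint 2 0)) ≠ 0

/-- `R` is the square of the first Betti number `N₁` of `X`, or it is the order of the pole of
`L(H¹(X) ⊗ H¹(X), s)` at `s = 2` (a meromorphic continuation to a neighbourhood of this point is
assumed in the second case); by Tate's conjecture this should be the rank of the ring of the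
endomorphisms of the Albanese variety of `X`. -/
def Moment1 (X : Set (MvPolynomial (Fin n) (𝓞 K))) (d N₁ R : ℕ) : Prop :=
  R = N₁ ^ 2 ∨ ∃ B : HeightOneSpectrum (𝓞 K) → ℂ[X],
    IsSquare X d 1 N₁ B ∧ Pool.Agent.W353.EH.HasOrder 2 0 B (-(R : ℤ))

/-- The number of the pairs `(l, l')` such that the characters `φ l` and `φ' l'` are equal (at all
ideals prime to both moduli).  For the characters of two abelian varieties with complex multiplication
over `K` this is the rank of the group of the homomorphisms between them. -/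
noncomputable def homRank {M M' : ℕ} (φ : Fin M → HeckeChar K) (φ' : Fin M' → HeckeChar K) : ℕ :=
  Nat.card {p : Fin M × Fin M' // ¬ Distinct (φ p.1) (φ' p.2) 0 0}

end Pool.Agent.X298.HC
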