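import Pool.Agent.X298.HC.Core2
import Pool.Agent.X298.HC.H2Defs

/-! Products with varieties whose Albanese variety has complex multiplication. -/

set_option autoImplicit false
set_option linter.unusedSectionVars false
open Filter Topology NumberField Ideal IsDedekindDomain ComplexConjugate Polynomial

namespace Pool.Agent.X298.HC

open Pool.Agent.W540.BE Pool.Agent.H341R2
open Pool.Agent.W353.EF (IsFrobenius)
open Pool.Agent.W353.EH (edgePoint size HasOrder IsEulerSystem)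
open Pool.Agent.W353.PV (Eig alp pick_spec)

variable {K : Type} [Field K] [NumberField K] {n n' : ℕ}

/-- the size of the L-function itself -/
theorem euler_size {X : Set (MvPolynomial (Fin n) (𝓞 K))} {d a N : ℕ} (ha : a ≤ 2 * d) {τ : ℝ}
    {B : HeightOneSpectrum (𝓞 K) → ℂ[X]} (hB : IsEulerSystem X d a N τ B) :
    (∀ᶠ ε : ℝ in 𝓝[>] 0, Pool.Agent.W353.EF.LFun B (edgePoint a τ + ε) ≠ 0) ∧
    Tendsto (fun ε : ℝ => (EP (nm K) ε fun v => (tX X d a N v * zt τ v).re) / lam ε -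
      size a τ B ε) (𝓝[>] 0) (𝓝 0) := by
  have hg : ∀ᶠ v in cofinite, (∀ j, ‖alp X d a N K v j‖ = (nm K v : ℝ) ^ ((a : ℝ) / 2)) ∧
      ∀ z : ℂ, (B v).eval z = ∏ j, (1 - alp X d a N K v j * z) := by
    refine hB.1.mono fun v hv => ?_
    obtain ⟨α, h1, h2⟩ := hv
    have h3 : Eig X d a v (alp X d a N K v) := pick_spec ⟨α, h1⟩
    refine ⟨fun j => h3.norm j, fun z => ?_⟩
    rw [h2 z]
    have h1' : Eig X d a v α := h1
    have h4 := congrArg (fun s : Multiset ℂ =>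
      (s.map fun a => (1 - a * z)).prod) (h1'.unique' ha h3)
    simp only [Multiset.map_map] at h4
    exact h4
  have h := link ((a : ℝ) / 2) τ (fun v => alp X d a N K v) (hg.mono fun v hv => hv.1) B
    (hg.mono fun v hv => hv.2) (by
      intro v
      rw [edge_eq]
      exact hB.2 v)
  simp only [edge_eq] at h
  exact h

variable {X : Set (MvPolynomial (Fin n) (𝓞 K))} {d N₁ N₂ : ℕ}
  {Y : Set (MvPolynomial (Fin n') (𝓞 K))} {e M₁ M₂ : ℕ} {φ : Fin M₁ → HeckeChar K}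

/-- the size of `L₂` of the product -/
theorem product2_size (hd : 1 ≤ d) (he : 1 ≤ e) (hY : IsHecke1 Y e M₁ φ)
    {B : HeightOneSpectrum (𝓞 K) → ℂ[X]} (hB : IsProduct2 X d N₁ N₂ Y e M₁ M₂ B)
    {BX BY : HeightOneSpectrum (𝓞 K) → ℂ[X]} (hX : IsEulerSystem X d 2 N₂ 0 BX)
    (hY2 : IsEulerSystem Y e 2 M₂ 0 BY) :
    (∀ᶠ ε : ℝ in 𝓝[>] 0, Pool.Agent.W353.EF.LFun B (edgePoint 2 0 + ε) ≠ 0) ∧
    Tendsto (fun ε : ℝ => (∑ l, yX X d 1 N₁ (φ l) 0 ε) -
      (size 2 0 B ε - size 2 0 BX ε - size 2 0 BY ε)) (𝓝[>] 0) (𝓝 0) := by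
  classical
  have hN : NormSys (nm K) := normSys
  set γ : HeightOneSpectrum (𝓞 K) → (Fin N₂ ⊕ Fin M₂) ⊕ (Fin N₁ × Fin M₁) → ℂ := fun v =>
    Sum.elim (Sum.elim (alp X d 2 N₂ K v) (alp Y e 2 M₂ K v)) (fun c => alp X d 1 N₁ K v c.1 *
      ((φ c.2).toFun v.asIdeal * (Ideal.absNorm v.asIdeal : ℂ) ^ ((1 : ℂ) / 2))) with hγ
  have hg : ∀ᶠ v : HeightOneSpectrum (𝓞 K) in cofinite,
      Eig X d 1 v (alp X d 1 N₁ K v) ∧ Eig X d 2 v (alp X d 2 N₂ K v) ∧
      Eig Y e 2 v (alp Y e 2 M₂ K v) ∧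
      ∀ z : ℂ, (B v).eval z = ∏ c, (1 - γ v c * z) := by
    filter_upwards [hB.1, hY] with v hv hv2
    obtain ⟨α, g, β, δ, h1, h2, h3, h4, h5⟩ := hv
    have e1 : Eig X d 1 v (alp X d 1 N₁ K v) := pick_spec ⟨α, h1⟩
    have e2 : Eig X d 2 v (alp X d 2 N₂ K v) := pick_spec ⟨g, h2⟩
    have e3 : Eig Y e 2 v (alp Y e 2 M₂ K v) := pick_spec ⟨δ, h4⟩
    refine ⟨e1, e2, e3, fun z => ?_⟩
    rw [h5 z, Fintype.prod_sum_type, Fintype.prod_sum_type, Fintype.prod_prod_type]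
    have u2 : Eig X d 2 v g := h2
    have u3 : Eig Y e 2 v δ := h4
    have u1 : Eig X d 1 v α := h1
    have u4 : Eig Y e 1 v β := h3
    have u5 : Eig Y e 1 v (fun l => (φ l).toFun v.asIdeal *
      (Ideal.absNorm v.asIdeal : ℂ) ^ ((1 : ℂ) / 2)) := hv2
    have f2 := congrArg (fun s : Multiset ℂ => (s.map fun a => (1 - a * z)).prod)
      (u2.unique' (by omega) e2)
    have f3 := congrArg (fun s : Multiset ℂ => (s.map fun a => (1 - a * z)).prod)
      (u3.unique' (by omega) e3)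
    have f1 := congrArg (fun s : Multiset ℂ => (s.map fun x =>
      ((Finset.univ.val.map β).map fun y => (1 - x * y * z)).prod).prod)
      (u1.unique' (by omega) e1)
    simp only [Multiset.map_map] at f1 f2 f3
    have f2' : ∏ k, (1 - g k * z) = ∏ k, (1 - alp X d 2 N₂ K v k * z) := f2
    have f3' : ∏ k, (1 - δ k * z) = ∏ k, (1 - alp Y e 2 M₂ K v k * z) := f3
    have f1' : ∏ k, ∏ l, (1 - α k * β l * z) =
        ∏ k, ∏ l, (1 - alp X d 1 N₁ K v k * β l * z) := f1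
    rw [f1', f2', f3']
    congr 1
    refine Finset.prod_congr rfl fun k _ => ?_
    have e8 := congrArg (fun s : Multiset ℂ =>
      (s.map fun y => (1 - alp X d 1 N₁ K v k * y * z)).prod) (u4.unique' (by omega) u5)
    simp only [Multiset.map_map] at e8
    exact e8
  have hne : ∀ᶠ v : HeightOneSpectrum (𝓞 K) in cofinite, ∀ l, (φ l).toFun v.asIdeal ≠ 0 := by
    rw [Filter.eventually_all]
    intro l
    exact ae_ne _
  have hnorm : ∀ᶠ v in cofinite, ∀ c, ‖γ v c‖ = (nm K v : ℝ) ^ (((2 : ℕ) : ℝ) / 2) := by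
    filter_upwards [hg, hne] with v h1 h2
    have h0 : (0 : ℝ) < nm K v := by exact_mod_cast nm_pos v
    rintro ((k | k) | c)
    · exact h1.2.1.norm k
    · exact h1.2.2.1.norm k
    · rw [hγ]
      simp only [Sum.elim_inr]
      have e1 : ‖alp X d 1 N₁ K v c.1‖ = (nm K v : ℝ) ^ (((1 : ℕ) : ℝ) / 2) := h1.1.norm c.1
      have e2 : ‖(Ideal.absNorm v.asIdeal : ℂ) ^ ((1 : ℂ) / 2)‖ = (nm K v : ℝ) ^ ((1 : ℝ) / 2) := by
        have := Complex.norm_natCast_cpow_of_pos (nm_pos v) ((1 : ℂ) / 2)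
        have e3 : ((1 : ℂ) / 2).re = (1 : ℝ) / 2 := by
          rw [show ((1 : ℂ) / 2) = (((1 : ℝ) / 2 : ℝ) : ℂ) by push_cast; ring, Complex.ofReal_re]
        rw [e3] at this
        exact this
      rw [norm_mul, norm_mul, e1, norm_of_ne _ (h2 c.2), e2, one_mul, ← Real.rpow_add h0]
      congr 1
      push_cast
      ring
  have h := link (((2 : ℕ) : ℝ) / 2) 0 γ hnorm B (hg.mono fun v hv => hv.2.2.2) (by
    intro v
    rw [edge_eq]
    exact hB.2 v)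
  simp only [edge_eq] at h
  refine ⟨h.1, ?_⟩
  have hx := (euler_size (by omega : 2 ≤ 2 * d) hX).2
  have hy := (euler_size (by omega : 2 ≤ 2 * e) hY2).2
  -- bounds
  have hb1 : ∀ (l : Fin M₁) v, |(tX X d 1 N₁ v * av (φ l) 0 v).re| ≤ N₁ := by
    intro l v
    refine (Complex.abs_re_le_norm _).trans ?_
    rw [norm_mul]
    calc _ ≤ (N₁ : ℝ) * 1 := mul_le_mul (norm_tX_le X d 1 N₁ v) (norm_av_le _ _ _)
          (norm_nonneg _) (Nat.cast_nonneg _)
      _ = N₁ := mul_one _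
  have hb2 : ∀ v, |(tX X d 2 N₂ v * zt 0 v).re| ≤ N₂ := by
    intro v
    refine (Complex.abs_re_le_norm _).trans ?_
    rw [norm_mul, norm_zt, mul_one]
    exact norm_tX_le X d 2 N₂ v
  have hb3 : ∀ v, |(tX Y e 2 M₂ v * zt 0 v).re| ≤ M₂ := by
    intro v
    refine (Complex.abs_re_le_norm _).trans ?_
    rw [norm_mul, norm_zt, mul_one]
    exact norm_tX_le Y e 2 M₂ v
  set f1 : HeightOneSpectrum (𝓞 K) → ℝ := fun v => ∑ l, (tX X d 1 N₁ v * av (φ l) 0 v).re with hf1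
  have hbl : ∀ v, |f1 v| ≤ M₁ * N₁ := by
    intro v
    refine (Finset.abs_sum_le_sum_abs _ _).trans ?_
    refine (Finset.sum_le_sum fun l _ => hb1 l v).trans (le_of_eq ?_)
    rw [Finset.sum_const, Finset.card_univ, Fintype.card_fin, nsmul_eq_mul]
  set F : HeightOneSpectrum (𝓞 K) → ℝ := fun v => f1 v + ((tX X d 2 N₂ v * zt 0 v).re +
    (tX Y e 2 M₂ v * zt 0 v).re) with hF
  set C : ℝ := M₁ * N₁ + (N₂ + M₂) with hC
  have hb23 : ∀ v, |(tX X d 2 N₂ v * zt 0 v).re + (tX Y e 2 M₂ v * zt 0 v).re| ≤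
      (N₂ : ℝ) + M₂ := fun v => (abs_add_le _ _).trans (add_le_add (hb2 v) (hb3 v))
  have hFb : ∀ v, |F v| ≤ C := fun v => (abs_add_le _ _).trans (add_le_add (hbl v) (hb23 v))
  have hcard : (Fintype.card ((Fin N₂ ⊕ Fin M₂) ⊕ (Fin N₁ × Fin M₁)) : ℝ) = C := by
    rw [Fintype.card_sum, Fintype.card_sum, Fintype.card_prod]
    simp only [Fintype.card_fin]
    push_cast
    ring
  have hsum : ∀ ε : ℝ, 0 < ε → (EP (nm K) ε F) / lam ε = (∑ l, yX X d 1 N₁ (φ l) 0 ε) +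
      ((EP (nm K) ε fun v => (tX X d 2 N₂ v * zt 0 v).re) / lam ε +
      (EP (nm K) ε fun v => (tX Y e 2 M₂ v * zt 0 v).re) / lam ε) := by
    intro ε hε
    rw [hF, EP_add hN hε hbl hb23, EP_add hN hε hb2 hb3, hf1,
      EP_sum hN hε _ _ (fun _ => (N₁ : ℝ)) (fun l _ v => hb1 l v)]
    unfold yX
    rw [← Finset.sum_div]
    ring
  have hae : Tendsto (fun ε : ℝ => (EP (nm K) ε F) / lam ε -
      (EP (nm K) ε fun v => (T (((2 : ℕ) : ℝ) / 2) γ v * zt 0 v).re) / lam ε)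
      (𝓝[>] 0) (𝓝 0) := by
    refine EP_ae (B := C) hFb (fun v => ?_) ?_
    · refine (Complex.abs_re_le_norm _).trans ?_
      rw [norm_mul, norm_zt, mul_one, ← hcard]
      exact norm_T_le _ _ v
    · filter_upwards [hg, hnorm] with v h1 h2
      have hqc : ((nm K v : ℕ) : ℂ) ≠ 0 := by exact_mod_cast (nm_pos v).ne'
      have n1 : ∀ j, ‖alp X d 1 N₁ K v j‖ = (nm K v : ℝ) ^ (((1 : ℕ) : ℝ) / 2) :=
        fun j => h1.1.norm j
      have n2 : ∀ j, ‖alp X d 2 N₂ K v j‖ = (nm K v : ℝ) ^ (((2 : ℕ) : ℝ) / 2) :=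
        fun j => h1.2.1.norm j
      have n3 : ∀ j, ‖alp Y e 2 M₂ K v j‖ = (nm K v : ℝ) ^ (((2 : ℕ) : ℝ) / 2) :=
        fun j => h1.2.2.1.norm j
      have e1 : ∑ l, (tX X d 1 N₁ v * av (φ l) 0 v) =
          (∑ k, ∑ l, alp X d 1 N₁ K v k * ((φ l).toFun v.asIdeal *
            (Ideal.absNorm v.asIdeal : ℂ) ^ ((1 : ℂ) / 2))) *
            ((nm K v : ℕ) : ℂ) ^ (-((((2 : ℕ) : ℝ) / 2 : ℝ) : ℂ)) * zt 0 v := by
        rw [tX, T_mul n1]
        have e3 : ((nm K v : ℕ) : ℂ) ^ (-((((2 : ℕ) : ℝ) / 2 : ℝ) : ℂ)) *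
            (Ideal.absNorm v.asIdeal : ℂ) ^ ((1 : ℂ) / 2) =
            ((nm K v : ℕ) : ℂ) ^ (-((((1 : ℕ) : ℝ) / 2 : ℝ) : ℂ)) := by
          have : (Ideal.absNorm v.asIdeal : ℂ) = ((nm K v : ℕ) : ℂ) := rfl
          rw [this, ← Complex.cpow_add _ _ hqc]
          congr 1
          push_cast
          ring
        rw [← Finset.sum_mul_sum, ← e3, ← Finset.mul_sum]
        have e4 : ∑ l, av (φ l) 0 v = (∑ l, (φ l).toFun v.asIdeal) * zt 0 v := by
          rw [Finset.sum_mul]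
          exact Finset.sum_congr rfl fun l _ => av_eq _ _ _
        rw [e4, ← Finset.sum_mul]
        ring
      have t2 : tX X d 2 N₂ v = (∑ k, alp X d 2 N₂ K v k) *
          ((nm K v : ℕ) : ℂ) ^ (-((((2 : ℕ) : ℝ) / 2 : ℝ) : ℂ)) := T_mul n2
      have t3 : tX Y e 2 M₂ v = (∑ k, alp Y e 2 M₂ K v k) *
          ((nm K v : ℕ) : ℂ) ^ (-((((2 : ℕ) : ℝ) / 2 : ℝ) : ℂ)) := T_mul n3
      rw [T_mul h2, hF, hf1, hγ]
      simp only
      rw [Fintype.sum_sum_type, Fintype.sum_sum_type, Fintype.sum_prod_type]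
      simp only [Sum.elim_inl, Sum.elim_inr]
      rw [t2, t3, ← Complex.re_sum, ← Complex.add_re, ← Complex.add_re, e1]
      congr 1
      ring
  have h5 := ((hae.add h.2).sub hx).sub hy
  simp only [add_zero, sub_zero] at h5
  refine h5.congr' ?_
  filter_upwards [self_mem_nhdsWithin] with ε hε
  rw [hsum ε hε]
  unfold size
  ring

lemma homRank_eq {M M' : ℕ} (φ : Fin M → HeckeChar K) (φ' : Fin M' → HeckeChar K) :
    (homRank φ φ' : ℝ) = ∑ l, ∑ l', same (φ l) (φ' l') 0 0 := by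
  classical
  unfold homRank same
  rw [Nat.card_eq_fintype_card, Fintype.card_subtype, Finset.card_filter]
  push_cast
  rw [Fintype.sum_prod_type]
  refine Finset.sum_congr rfl fun l _ => Finset.sum_congr rfl fun l' _ => ?_
  by_cases h : Distinct (φ l) (φ' l') 0 0
  · rw [if_pos h, if_neg (not_not.2 h)]
  · rw [if_neg h, if_pos h]

end Pool.Agent.X298.HC
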