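import Pool.Agent.X298.HC.H2

/-! Products with varieties whose Albanese variety has complex multiplication: the theorems. -/

set_option autoImplicit false
set_option linter.unusedSectionVars false
open Filter Topology NumberField Ideal IsDedekindDomain ComplexConjugate Polynomial

namespace Pool.Agent.X298.HC

open Pool.Agent.W540.BE Pool.Agent.H341R2
open Pool.Agent.W353.EF (IsFrobenius)
open Pool.Agent.W353.EH (edgePoint size HasOrder IsEulerSystem)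

variable {K : Type} [Field K] [NumberField K] {n : ℕ}

theorem moment1 {X : Set (MvPolynomial (Fin n) (𝓞 K))} {d N₁ R : ℕ} (hd : 1 ≤ d)
    (h : Moment1 X d N₁ R) : ∀ δ : ℝ, 0 < δ → ∀ᶠ ε : ℝ in 𝓝[>] 0,
      (EP (nm K) ε fun v => ‖tX X d 1 N₁ v‖ ^ 2) / lam ε ≤ R + δ := by
  rcases h with h1 | ⟨B, h1, h2⟩
  · have := sq_mean X d 1 N₁
    rw [h1]
    push_cast
    exact this
  · exact square_bound (by omega) h1 h2

/-- the exceptional set in one degree -/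
theorem exists_S1 {X : Set (MvPolynomial (Fin n) (𝓞 K))} {d a N : ℕ} {R : ℕ}
    (hR : ∀ δ : ℝ, 0 < δ → ∀ᶠ ε : ℝ in 𝓝[>] 0,
      (EP (nm K) ε fun v => ‖tX X d a N v‖ ^ 2) / lam ε ≤ R + δ) {U : Ultrafilter ℝ}
    (hU : (U : Filter ℝ) ≤ 𝓝[>] 0) (x : HeckeChar K → ℝ)
    (hx : ∀ ψ, Tendsto (yX X d a N ψ 0) U (𝓝 (x ψ))) {δ : ℝ} (hδ : 0 < δ)
    (m : ℕ) (hm : 2 * (R : ℝ) ≤ m * δ ^ 2) :
    ∃ S : Finset (HeckeChar K), S.card ≤ m ∧
      ∀ ψ : HeckeChar K, (∀ s ∈ S, Distinct ψ s 0 0) → |x ψ| < δ := by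
  classical
  obtain ⟨S, -, -, h3, h4⟩ := exists_max
    (fun p q : HeckeChar K => Distinct p q 0 0)
    (fun p q h => distinct_symm (p, 0) (q, 0) h) (fun p => distinct_irrefl (p, 0))
    {p | δ ≤ |x p|} m (by
      intro S hS hS2
      have h := card_large (X := X) (d := d) (a := a) (N := N) (κ := {p // p ∈ S})
        (fun p => p.1) (fun p => 0) (by
          intro k l hkl
          exact hS2 k.1 k.2 l.1 l.2 (fun h => hkl (Subtype.ext h))) hU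
        (Nat.cast_nonneg R) hR
        (fun p => x p.1) (fun p => hx _) hδ (fun p => hS p.1 p.2)
      rw [Fintype.card_coe] at h
      have h5 : (S.card : ℝ) * δ ^ 2 ≤ m * δ ^ 2 := h.trans hm
      have h6 : (S.card : ℝ) ≤ m := le_of_mul_le_mul_right h5 (by positivity)
      exact_mod_cast h6)
  refine ⟨S, h3, fun ψ h => ?_⟩
  by_contra hcon
  push Not at hcon
  obtain ⟨s, hs, hs2⟩ := h4 ψ hcon
  exact hs2 (h s hs)

section family
variable {X : Set (MvPolynomial (Fin n) (𝓞 K))} {d N₁ N₂ R : ℕ}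
  {κ : Type} [Fintype κ] {n' : κ → ℕ} {Y : ∀ k, Set (MvPolynomial (Fin (n' k)) (𝓞 K))}
  {e M₁ M₂ : κ → ℕ} {φ : ∀ k, Fin (M₁ k) → HeckeChar K}
  {BX : HeightOneSpectrum (𝓞 K) → ℂ[X]} {BY B : κ → HeightOneSpectrum (𝓞 K) → ℂ[X]}

/-- the inequality for the limits along an ultrafilter -/
theorem family_lim (hd : 1 ≤ d) (hR : Moment1 X d N₁ R) (he : ∀ k, 1 ≤ e k)
    (hY : ∀ k, IsHecke1 (Y k) (e k) (M₁ k) (φ k)) (hX : IsEulerSystem X d 2 N₂ 0 BX)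
    (hY2 : ∀ k, IsEulerSystem (Y k) (e k) 2 (M₂ k) 0 (BY k))
    (hB : ∀ k, IsProduct2 X d N₁ N₂ (Y k) (e k) (M₁ k) (M₂ k) (B k)) (c : κ → ℝ)
    (hc : ∀ k, 0 ≤ c k) {U : Ultrafilter ℝ} (hU : (U : Filter ℝ) ≤ 𝓝[>] 0) :
    ∃ L : ℝ, Tendsto (fun ε => ∑ k, c k * (size 2 0 (B k) ε - size 2 0 BX ε -
      size 2 0 (BY k) ε)) U (𝓝 L) ∧
      L ^ 2 ≤ R * ∑ k, ∑ l, c k * c l * homRank (φ k) (φ l) := by
  classical
  choose x hx using fun (p : (k : κ) × Fin (M₁ k)) =>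
    exists_lim (U := U) (hU (yX_bdd X d 1 N₁ (φ p.1 p.2) 0))
  refine ⟨∑ k, c k * ∑ l, x ⟨k, l⟩, ?_, ?_⟩
  · refine tendsto_finsetSum _ fun k _ => Tendsto.const_mul _ ?_
    have h1 : Tendsto (fun ε => ∑ l, yX X d 1 N₁ (φ k l) 0 ε) U (𝓝 (∑ l, x ⟨k, l⟩)) :=
      tendsto_finsetSum _ fun l _ => hx ⟨k, l⟩
    have h2 := (product2_size hd (he k) (hY k) (hB k) hX (hY2 k)).2.mono_left hU
    have h3 := h1.sub h2
    rw [sub_zero] at h3
    refine h3.congr fun ε => ?_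
    ring
  · have h := gram_lim (X := X) (d := d) (a := 1) (N := N₁)
      (fun p : (k : κ) × Fin (M₁ k) => φ p.1 p.2) (fun _ => 0) hU (Nat.cast_nonneg R)
      (moment1 hd hR) x hx (fun p => c p.1) (fun p q => mul_nonneg (hc _) (hc _))
    have e1 : ∑ p : (k : κ) × Fin (M₁ k), c p.1 * x p = ∑ k, c k * ∑ l, x ⟨k, l⟩ := by
      rw [Fintype.sum_sigma]
      refine Finset.sum_congr rfl fun k _ => ?_
      rw [Finset.mul_sum]
    have e2 : ∑ p : (k : κ) × Fin (M₁ k), ∑ q : (k : κ) × Fin (M₁ k),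
        c p.1 * c q.1 * same (φ p.1 p.2) (φ q.1 q.2) 0 0 =
        ∑ k, ∑ l, c k * c l * homRank (φ k) (φ l) := by
      rw [Fintype.sum_sigma]
      refine Finset.sum_congr rfl fun k _ => ?_
      simp only
      have e3 : ∀ i : Fin (M₁ k), ∑ q : (k : κ) × Fin (M₁ k),
          c k * c q.1 * same (φ k i) (φ q.1 q.2) 0 0 =
          ∑ l, ∑ j, c k * c l * same (φ k i) (φ l j) 0 0 := by
        intro i
        rw [Fintype.sum_sigma]
      rw [Finset.sum_congr rfl fun i _ => e3 i, Finset.sum_comm]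
      refine Finset.sum_congr rfl fun l _ => ?_
      rw [homRank_eq, Finset.mul_sum]
      refine Finset.sum_congr rfl fun i _ => ?_
      rw [Finset.mul_sum]
    rw [e1, e2] at h
    exact h

/-- **The inequality for the sizes.** -/
theorem family_sizes (hd : 1 ≤ d) (hR : Moment1 X d N₁ R) (he : ∀ k, 1 ≤ e k)
    (hY : ∀ k, IsHecke1 (Y k) (e k) (M₁ k) (φ k)) (hX : IsEulerSystem X d 2 N₂ 0 BX)
    (hY2 : ∀ k, IsEulerSystem (Y k) (e k) 2 (M₂ k) 0 (BY k))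
    (hB : ∀ k, IsProduct2 X d N₁ N₂ (Y k) (e k) (M₁ k) (M₂ k) (B k)) (c : κ → ℝ)
    (hc : ∀ k, 0 ≤ c k) {η : ℝ} (hη : 0 < η) : ∀ᶠ ε : ℝ in 𝓝[>] 0,
      (∑ k, c k * (size 2 0 (B k) ε - size 2 0 BX ε - size 2 0 (BY k) ε)) ^ 2 ≤
        R * (∑ k, ∑ l, c k * c l * homRank (φ k) (φ l)) + η := by
  by_contra hcon
  rw [not_eventually] at hcon
  obtain ⟨U, hU, hU2⟩ : ∃ U : Ultrafilter ℝ, (U : Filter ℝ) ≤ 𝓝[>] 0 ∧
      ∀ᶠ ε in (U : Filter ℝ),
      ¬ (∑ k, c k * (size 2 0 (B k) ε - size 2 0 BX ε - size 2 0 (BY k) ε)) ^ 2 ≤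
        R * (∑ k, ∑ l, c k * c l * homRank (φ k) (φ l)) + η := by
    set A : Set ℝ := {ε |
      ¬ (∑ k, c k * (size 2 0 (B k) ε - size 2 0 BX ε - size 2 0 (BY k) ε)) ^ 2 ≤
        R * (∑ k, ∑ l, c k * c l * homRank (φ k) (φ l)) + η} with hA
    have hne' : (𝓝[>] (0 : ℝ) ⊓ 𝓟 A).NeBot := frequently_iff_neBot.1 hcon
    refine ⟨Ultrafilter.of (𝓝[>] (0 : ℝ) ⊓ 𝓟 A), (Ultrafilter.of_le _).trans inf_le_left, ?_⟩
    have h1 : ((Ultrafilter.of (𝓝[>] (0 : ℝ) ⊓ 𝓟 A) : Ultrafilter ℝ) : Filter ℝ) ≤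
        𝓟 A := (Ultrafilter.of_le _).trans inf_le_right
    exact h1 (mem_principal_self _)
  obtain ⟨L, hL, hL2⟩ := family_lim hd hR he hY hX hY2 hB c hc hU
  have h1 : R * (∑ k, ∑ l, c k * c l * homRank (φ k) (φ l)) + η ≤ L ^ 2 := by
    refine ge_of_tendsto (hL.pow 2) ?_
    filter_upwards [hU2] with ε hε
    exact (not_le.1 hε).le
  linarith

/-- **The inequality for the orders.** -/
theorem family_orders (hd : 1 ≤ d) (hR : Moment1 X d N₁ R) (he : ∀ k, 1 ≤ e k)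
    (hY : ∀ k, IsHecke1 (Y k) (e k) (M₁ k) (φ k)) (hX : IsEulerSystem X d 2 N₂ 0 BX)
    (hY2 : ∀ k, IsEulerSystem (Y k) (e k) 2 (M₂ k) 0 (BY k))
    (hB : ∀ k, IsProduct2 X d N₁ N₂ (Y k) (e k) (M₁ k) (M₂ k) (B k)) (c : κ → ℝ)
    (hc : ∀ k, 0 ≤ c k) {rX : ℤ} {rY r : κ → ℤ} (h1 : HasOrder 2 0 BX (-rX))
    (h2 : ∀ k, HasOrder 2 0 (BY k) (-rY k)) (h3 : ∀ k, HasOrder 2 0 (B k) (-r k)) :
    (∑ k, c k * (r k - rX - rY k : ℤ)) ^ 2 ≤
      R * ∑ k, ∑ l, c k * c l * homRank (φ k) (φ l) := by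
  obtain ⟨U, hU⟩ := exists_ultra
  obtain ⟨L, hL, hL2⟩ := family_lim hd hR he hY hX hY2 hB c hc hU
  have h4 : Tendsto (fun ε => ∑ k, c k * (size 2 0 (B k) ε - size 2 0 BX ε -
      size 2 0 (BY k) ε)) U (𝓝 (∑ k, c k * (-((-r k : ℤ) : ℝ) - -((-rX : ℤ) : ℝ) -
        -((-rY k : ℤ) : ℝ)))) := by
    refine tendsto_finsetSum _ fun k _ => Tendsto.const_mul _ ?_
    refine ((Tendsto.sub ?_ ?_).sub ?_).mono_left hU
    · exact size_lim (product2_size hd (he k) (hY k) (hB k) hX (hY2 k)).1 (h3 k)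
    · exact size_lim (euler_size (by omega) hX).1 h1
    · exact size_lim (euler_size (by have := he k; omega) (hY2 k)).1 (h2 k)
  have h5 := tendsto_nhds_unique hL h4
  have h6 : L = ∑ k, c k * ((r k - rX - rY k : ℤ) : ℝ) := by
    rw [h5]
    refine Finset.sum_congr rfl fun k _ => ?_
    push_cast
    ring
  rw [← h6]
  exact hL2

end family

/-- **The exceptional set for products, bounded number of characters.** -/
theorem h2_r {X : Set (MvPolynomial (Fin n) (𝓞 K))} {d N₁ N₂ R : ℕ} (hd : 1 ≤ d)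
    (hR : Moment1 X d N₁ R) (r : ℕ) :
    ∃ S : Finset (HeckeChar K), S.card ≤ 2 * (r + 1) ^ 2 * R ∧
      ∀ (n' : ℕ) (Y : Set (MvPolynomial (Fin n') (𝓞 K))) (e M₁ M₂ : ℕ)
        (φ : Fin M₁ → HeckeChar K), 1 ≤ e → IsHecke1 Y e M₁ φ → M₁ ≤ r →
        (∀ l, ∀ ψ ∈ S, Distinct (φ l) ψ 0 0) →
        ∀ BX BY B : HeightOneSpectrum (𝓞 K) → ℂ[X], IsEulerSystem X d 2 N₂ 0 BX →
          IsEulerSystem Y e 2 M₂ 0 BY → IsProduct2 X d N₁ N₂ Y e M₁ M₂ B →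
          (∃ᶠ ε : ℝ in 𝓝[>] 0, |size 2 0 B ε - size 2 0 BX ε - size 2 0 BY ε| < 1) ∧
          ∀ k kX kY : ℤ, HasOrder 2 0 B k → HasOrder 2 0 BX kX → HasOrder 2 0 BY kY →
            k = kX + kY := by
  obtain ⟨U, hU⟩ := exists_ultra
  choose x hx using fun (ψ : HeckeChar K) => exists_lim (U := U) (hU (yX_bdd X d 1 N₁ ψ 0))
  have hδ : (0 : ℝ) < 1 / ((r : ℝ) + 1) := by positivity
  obtain ⟨S, hS1, hS2⟩ := exists_S1 (moment1 hd hR) hU x hx hδ (2 * (r + 1) ^ 2 * R) (by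
      push_cast
      have : ((r : ℝ) + 1) ≠ 0 := by positivity
      apply le_of_eq
      field_simp)
  refine ⟨S, hS1, ?_⟩
  intro n' Y e M₁ M₂ φ he hY hr hφ BX BY B hX hY2 hB
  have h1 : Tendsto (fun ε => ∑ l, yX X d 1 N₁ (φ l) 0 ε) U (𝓝 (∑ l, x (φ l))) :=
    tendsto_finsetSum _ fun l _ => hx (φ l)
  have hsz := product2_size hd he hY hB hX hY2
  have h2 := hsz.2.mono_left hU
  have h3 : Tendsto (fun ε => size 2 0 B ε - size 2 0 BX ε - size 2 0 BY ε) U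
      (𝓝 (∑ l, x (φ l))) := by
    have h3 := h1.sub h2
    rw [sub_zero] at h3
    refine h3.congr fun ε => ?_
    ring
  have h4 : |∑ l, x (φ l)| < 1 := by
    refine (Finset.abs_sum_le_sum_abs _ _).trans_lt ?_
    have h5 : ∑ l, |x (φ l)| ≤ M₁ * (1 / ((r : ℝ) + 1)) := by
      refine (Finset.sum_le_sum fun l _ => (hS2 (φ l) (hφ l)).le).trans (le_of_eq ?_)
      rw [Finset.sum_const, Finset.card_univ, Fintype.card_fin, nsmul_eq_mul]
    have h6 : (M₁ : ℝ) ≤ r := by exact_mod_cast hr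
    calc _ ≤ (M₁ : ℝ) * (1 / ((r : ℝ) + 1)) := h5
      _ ≤ r * (1 / ((r : ℝ) + 1)) := mul_le_mul_of_nonneg_right h6 hδ.le
      _ < 1 := by
          rw [mul_one_div, div_lt_one (by positivity)]
          linarith
  refine ⟨?_, fun k kX kY hk hkX hkY => ?_⟩
  · exact ((h3.abs.eventually_lt_const h4).frequently).filter_mono hU
  · have h5 := (((size_lim hsz.1 hk).sub (size_lim (euler_size (by omega) hX).1 hkX)).sub
      (size_lim (euler_size (by omega) hY2).1 hkY)).mono_left hU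
    have h6 := tendsto_nhds_unique h3 h5
    rw [h6] at h4
    have h7 : (-(k : ℝ) - -(kX : ℝ) - -(kY : ℝ)) = ((-k + kX + kY : ℤ) : ℝ) := by
      push_cast
      ring
    rw [h7, ← Int.cast_abs] at h4
    have h8 : |(-k + kX + kY)| < 1 := by exact_mod_cast h4
    have h9 := Int.abs_lt_one_iff.1 h8
    linarith

/-- **The exceptional set for all products**, if there are continuations. -/
theorem h2_all {X : Set (MvPolynomial (Fin n) (𝓞 K))} {d N₁ N₂ R : ℕ} (hd : 1 ≤ d)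
    (hR : Moment1 X d N₁ R)
    (H : ∀ ψ : HeckeChar K, ∃ (B : HeightOneSpectrum (𝓞 K) → ℂ[X]) (k : ℤ),
      IsTwist X d 1 N₁ ψ 0 B ∧ HasOrder 1 0 B k) :
    ∃ S : Finset (HeckeChar K), S.card ≤ 2 * R ∧
      ∀ (n' : ℕ) (Y : Set (MvPolynomial (Fin n') (𝓞 K))) (e M₁ M₂ : ℕ)
        (φ : Fin M₁ → HeckeChar K), 1 ≤ e → IsHecke1 Y e M₁ φ →
        (∀ l, ∀ ψ ∈ S, Distinct (φ l) ψ 0 0) →
        ∀ BX BY B : HeightOneSpectrum (𝓞 K) → ℂ[X], IsEulerSystem X d 2 N₂ 0 BX →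
          IsEulerSystem Y e 2 M₂ 0 BY → IsProduct2 X d N₁ N₂ Y e M₁ M₂ B →
          Tendsto (fun ε => size 2 0 B ε - size 2 0 BX ε - size 2 0 BY ε) (𝓝[>] 0) (𝓝 0) ∧
          ∀ k kX kY : ℤ, HasOrder 2 0 B k → HasOrder 2 0 BX kX → HasOrder 2 0 BY kY →
            k = kX + kY := by
  obtain ⟨U, hU⟩ := exists_ultra
  choose x hx using fun (ψ : HeckeChar K) => exists_lim (U := U) (hU (yX_bdd X d 1 N₁ ψ 0))
  obtain ⟨S, hS1, hS2⟩ := exists_S1 (moment1 hd hR) hU x hx one_pos (2 * R) (by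
      push_cast
      apply le_of_eq
      ring)
  refine ⟨S, hS1, ?_⟩
  intro n' Y e M₁ M₂ φ he hY hφ BX BY B hX hY2 hB
  have hint : ∀ ψ : HeckeChar K, (∀ s ∈ S, Distinct ψ s 0 0) →
      Tendsto (yX X d 1 N₁ ψ 0) (𝓝[>] 0) (𝓝 0) := by
    intro ψ hψ
    obtain ⟨B₁, k₁, h1, h2⟩ := H ψ
    have h3 := twist_lim (by omega) h1 h2
    have h4 := tendsto_nhds_unique (h3.mono_left hU) (hx ψ)
    have h5 := hS2 ψ hψ
    rw [← h4, abs_neg, ← Int.cast_abs] at h5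
    have h6 : |k₁| < 1 := by exact_mod_cast h5
    have h7 := Int.abs_lt_one_iff.1 h6
    rw [h7] at h3
    simpa using h3
  have h1 : Tendsto (fun ε => ∑ l, yX X d 1 N₁ (φ l) 0 ε) (𝓝[>] 0) (𝓝 (∑ _l : Fin M₁, 0)) :=
    tendsto_finsetSum _ fun l _ => hint (φ l) (hφ l)
  rw [Finset.sum_const_zero] at h1
  have hsz := product2_size hd he hY hB hX hY2
  have h3 : Tendsto (fun ε => size 2 0 B ε - size 2 0 BX ε - size 2 0 BY ε) (𝓝[>] 0)
      (𝓝 0) := by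
    have h3 := h1.sub hsz.2
    rw [sub_zero] at h3
    refine h3.congr fun ε => ?_
    ring
  refine ⟨h3, fun k kX kY hk hkX hkY => ?_⟩
  have h5 := ((size_lim hsz.1 hk).sub (size_lim (euler_size (by omega) hX).1 hkX)).sub
    (size_lim (euler_size (by omega) hY2).1 hkY)
  have h6 := tendsto_nhds_unique h3 h5
  have h7 : ((-k + kX + kY : ℤ) : ℝ) = 0 := by
    push_cast
    linarith
  have h8 : -k + kX + kY = 0 := by exact_mod_cast h7
  linarith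

end Pool.Agent.X298.HC
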