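import Pool.Agent.X298.HC.MTwist

/-! Abstract form of the exceptional sets. -/

set_option autoImplicit false
set_option linter.unusedSectionVars false
open Filter Topology

namespace Pool.Agent.X298.HC

/-- a functional bounded by a semidefinite form -/
structure GramForm (P : Type*) (G : P → P → ℤ) (L : P → ℝ) (R : ℝ) : Prop where
  symm : ∀ p q, G p q = G q p
  gram : ∀ (S : Finset P) (c : P → ℝ), 0 ≤ ∑ s ∈ S, ∑ t ∈ S, c s * c t * (G s t : ℝ) ∧
    (∑ s ∈ S, c s * L s) ^ 2 ≤ R * ∑ s ∈ S, ∑ t ∈ S, c s * c t * (G s t : ℝ)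

variable {P : Type*} {G : P → P → ℤ} {L : P → ℝ} {R : ℝ}

lemma GramForm.self (h : GramForm P G L R) (p : P) : 0 ≤ G p p ∧ L p ^ 2 ≤ R * (G p p : ℝ) := by
  have h1 := h.gram {p} (fun _ => 1)
  simp only [Finset.sum_singleton, one_mul] at h1
  exact ⟨by exact_mod_cast h1.1, h1.2⟩

/-- restriction along a map -/
lemma GramForm.comp {Q : Type*} (h : GramForm P G L R) (f : Q → P) :
    GramForm Q (fun a b => G (f a) (f b)) (fun a => L (f a)) R := by
  classical
  refine ⟨fun p q => h.symm _ _, fun S c => ?_⟩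
  have h1 := h.gram (S.image f) (fun p => ∑ s ∈ S with f s = p, c s)
  have e1 : ∀ g : P → ℝ, ∑ p ∈ S.image f, (∑ s ∈ S with f s = p, c s) * g p =
      ∑ s ∈ S, c s * g (f s) := by
    intro g
    rw [← Finset.sum_fiberwise_of_maps_to (t := S.image f) (g := f)
      (fun s hs => Finset.mem_image_of_mem f hs)]
    refine Finset.sum_congr rfl fun p _ => ?_
    rw [Finset.sum_mul]
    refine Finset.sum_congr rfl fun s hs => ?_
    rw [(Finset.mem_filter.1 hs).2]
  have e2 : ∑ p ∈ S.image f, ∑ q ∈ S.image f, (∑ s ∈ S with f s = p, c s) *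
      (∑ s ∈ S with f s = q, c s) * (G p q : ℝ) =
      ∑ s ∈ S, ∑ t ∈ S, c s * c t * (G (f s) (f t) : ℝ) := by
    have e3 : ∀ p, ∑ q ∈ S.image f, (∑ s ∈ S with f s = p, c s) *
        (∑ s ∈ S with f s = q, c s) * (G p q : ℝ) =
        (∑ s ∈ S with f s = p, c s) * ∑ t ∈ S, c t * (G p (f t) : ℝ) := by
      intro p
      rw [← e1 (fun q => (G p q : ℝ)), Finset.mul_sum]
      exact Finset.sum_congr rfl fun q _ => by ring
    rw [Finset.sum_congr rfl fun p _ => e3 p, e1 (fun p => ∑ t ∈ S, c t * (G p (f t) : ℝ))]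
    refine Finset.sum_congr rfl fun s _ => ?_
    rw [Finset.mul_sum]
    exact Finset.sum_congr rfl fun t _ => by ring
  rw [e1, e2] at h1
  exact h1

/-- **The exceptional set.** -/
theorem GramForm.exceptional {R : ℕ} (h : GramForm P G L R) (r k : ℕ) (hk : 1 ≤ k) :
    ∃ S : Finset P, S.card ≤ k ^ 2 * r * R ∧
      ∀ p, G p p ≤ r → (∀ s ∈ S, G p s = 0) → |L p| < 1 / k := by
  classical
  have hk0 : (0 : ℝ) < k := by exact_mod_cast hk
  have hself : ∀ p : {p : P // 1 / (k : ℝ) ≤ |L p| ∧ G p p ≤ r}, G p.1 p.1 ≠ 0 := by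
    intro p h0
    obtain ⟨-, h2⟩ := h.self p.1
    rw [h0, Int.cast_zero, mul_zero] at h2
    have h4 : L p.1 = 0 := by nlinarith [sq_nonneg (L p.1)]
    have h5 := p.2.1
    rw [h4, abs_zero] at h5
    have : (0 : ℝ) < 1 / k := by positivity
    linarith
  obtain ⟨S, -, -, hS3, hS4⟩ := exists_max
    (P := {p : P // 1 / (k : ℝ) ≤ |L p| ∧ G p p ≤ r})
    (fun p q => G p.1 q.1 = 0) (fun p q h' => by rwa [h.symm]) hself Set.univ (k ^ 2 * r * R) (by
      intro S _ hS2
      have hf := h.comp (Q := {p : {p : P // 1 / (k : ℝ) ≤ |L p| ∧ G p p ≤ r} // p ∈ S})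
        (fun p => p.1.1)
      have hq : ∀ s : {p // p ∈ S}, 0 < (G s.1.1 s.1.1 : ℝ) := fun s => by
        have h1 := (h.self s.1.1).1
        have h2 := hself s.1
        exact_mod_cast lt_of_le_of_ne h1 (Ne.symm h2)
      have hb := bessel_abs (ι := {p // p ∈ S}) (fun s => L s.1.1)
        (fun s t => (G s.1.1 t.1.1 : ℝ)) (R := R) (Nat.cast_nonneg _)
        (fun s => (hq s).le) (fun c => (hf.gram Finset.univ c).2)
        (fun s t hst => by
          have := hS2 s.1 s.2 t.1 t.2 (fun h => hst (Subtype.ext h))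
          rw [this, Int.cast_zero])
      rcases S.eq_empty_or_nonempty with hE | ⟨s0, hs0⟩
      · rw [hE, Finset.card_empty]
        exact Nat.zero_le _
      · have hr0 : (0 : ℝ) < r := (hq ⟨s0, hs0⟩).trans_le (by exact_mod_cast s0.2.2)
        have h4 : (Fintype.card {p // p ∈ S} : ℝ) * ((1 / (k : ℝ)) ^ 2 / r) ≤ R := by
          refine le_trans ?_ hb
          rw [← nsmul_eq_mul, ← Finset.card_univ]
          refine Finset.card_nsmul_le_sum _ _ _ fun s _ => ?_
          have h5 : (1 / (k : ℝ)) ^ 2 ≤ L s.1.1 ^ 2 := by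
            rw [← sq_abs (L s.1.1)]
            exact pow_le_pow_left₀ (by positivity) s.1.2.1 2
          calc (1 / (k : ℝ)) ^ 2 / r ≤ (1 / (k : ℝ)) ^ 2 / (G s.1.1 s.1.1 : ℝ) :=
                div_le_div_of_nonneg_left (sq_nonneg _) (hq s) (by exact_mod_cast s.1.2.2)
            _ ≤ L s.1.1 ^ 2 / (G s.1.1 s.1.1 : ℝ) :=
                div_le_div_of_nonneg_right h5 (hq s).le
        rw [Fintype.card_coe] at h4
        have h6 : (S.card : ℝ) ≤ k ^ 2 * r * R := by
          have h7 := mul_le_mul_of_nonneg_left h4 (by positivity : (0 : ℝ) ≤ k ^ 2 * r)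
          have h8 : (k : ℝ) ^ 2 * r * (S.card * ((1 / (k : ℝ)) ^ 2 / r)) = S.card := by
            field_simp
          rwa [h8] at h7
        exact_mod_cast h6)
  refine ⟨S.image Subtype.val, Finset.card_image_le.trans hS3, ?_⟩
  intro p hr hσ
  by_contra hcon
  push Not at hcon
  obtain ⟨s, hs, hs2⟩ := hS4 ⟨p, hcon, hr⟩ (Set.mem_univ _)
  exact hs2 (hσ s.1 (Finset.mem_image_of_mem _ hs))

end Pool.Agent.X298.HC
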