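import Pool.Agent.X298.HC.KProd2
import Pool.Agent.X298.HC.H2Main

/-! Products with varieties whose Albanese variety has potential complex multiplication. -/

set_option autoImplicit false
set_option linter.unusedSectionVars false
open Filter Topology NumberField Ideal IsDedekindDomain ComplexConjugate Polynomial

namespace Pool.Agent.X298.HC

open Pool.Agent.W540.BE Pool.Agent.H341R2
open Pool.Agent.W353.TP (HX push res)
open Pool.Agent.W353.NF (vx nm_vx vx_asIdeal)
open Pool.Agent.W353.EF (IsFrobenius)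
open Pool.Agent.W353.EH (edgePoint size HasOrder IsEulerSystem)
open Pool.Agent.W353.PV (Eig alp pick_spec)

variable {K : Type} [Field K] [NumberField K] {n : ℕ}
variable {X : Set (MvPolynomial (Fin n) (𝓞 K))} {d N₁ N₂ R : ℕ} {κ : Virt K}

/-- the limit of the defect -/
lemma defect_lim (hd : 1 ≤ d) (D : AlbData X d N₁ N₂) {BX : HeightOneSpectrum (𝓞 K) → ℂ[X]}
    (hX : IsEulerSystem X d 2 N₂ 0 BX) {F : Filter ℝ} (hF : F ≤ 𝓝[>] 0)
    {x : ℕ → Mono K → ℝ}
    (hx : ∀ π ∈ D.ρ.support, Tendsto (yM X d (fun _ => N₁) 1 π) F (𝓝 (x 1 π))) :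
    Tendsto (D.defect BX) F (𝓝 (xV x 1 D.ρ)) := by
  have h1 := (product2_sizeM hd D.pos D.pot D.prod hX D.euler).2.mono_left hF
  have h2 := (yV_lim hF hx).sub h1
  rw [sub_zero] at h2
  refine h2.congr fun ε => ?_
  unfold AlbData.defect
  ring

/-- the orders and the limit of the defect -/
lemma defect_orders (hd : 1 ≤ d) (D : AlbData X d N₁ N₂) {BX : HeightOneSpectrum (𝓞 K) → ℂ[X]}
    (hX : IsEulerSystem X d 2 N₂ 0 BX) {rX rY r : ℤ} (h1 : HasOrder 2 0 BX (-rX))
    (h2 : HasOrder 2 0 D.BY (-rY)) (h3 : HasOrder 2 0 D.B (-r)) :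
    Tendsto (D.defect BX) (𝓝[>] 0) (𝓝 ((r - rX - rY : ℤ) : ℝ)) := by
  have h4 := ((size_lim (product2_sizeM hd D.pos D.pot D.prod hX D.euler).1 h3).sub
    (size_lim (euler_size (by omega) hX).1 h1)).sub
    (size_lim (euler_size (by have := D.pos; omega) D.euler).1 h2)
  have e1 : (-((-r : ℤ) : ℝ) - -((-rX : ℤ) : ℝ) - -((-rY : ℤ) : ℝ)) =
      ((r - rX - rY : ℤ) : ℝ) := by
    push_cast
    ring
  rw [e1] at h4
  exact h4

/-- **The Gram inequality.** -/
theorem alb_gram (hd : 1 ≤ d) (hR : RestMoment X d 1 N₁ κ R) : AlbGram X d N₁ N₂ R κ := by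
  intro BX hX l D c
  have hR' := rest_bound (N := fun _ => N₁) (by omega : 1 ≤ 2 * d) hR
  have key : ∀ η : ℝ, 0 < η → ∀ᶠ ε : ℝ in 𝓝[>] 0,
      (∑ k, c k * ((D k).defect BX ε - κ.inter (D k).ρ)) ^ 2 ≤
        R * ∑ k, ∑ k', c k * c k' * ((D k).ρ.inter (D k').ρ : ℝ) + η := by
    intro η hη
    by_contra hcon
    rw [Filter.not_eventually] at hcon
    obtain ⟨U, hU, hUP⟩ := exists_ultra_of hcon
    choose x hx using fun (a : ℕ) (π : Mono K) =>
      exists_lim (U := U) (hU (yM_bdd (X := X) (d := d) (N := fun _ => N₁) a π))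
    have h1 := (gram_oneK hU hR' hx (fun k => (D k).ρ) c).2
    have h3 : Tendsto (fun ε : ℝ => (∑ k, c k * ((D k).defect BX ε - κ.inter (D k).ρ)) ^ 2) U
        (𝓝 ((∑ k, c k * (xV x 1 (D k).ρ - κ.inter (D k).ρ)) ^ 2)) :=
      (tendsto_finsetSum _ fun k _ => ((defect_lim hd (D k) hX hU fun π _ => hx 1 π).sub
        tendsto_const_nhds).const_mul _).pow 2
    have h4 := ge_of_tendsto h3 (hUP.mono fun ε hε => (not_le.1 hε).le)
    linarith
  refine ⟨key, fun rX rY r h1 h2 h3 => ?_⟩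
  refine le_of_forall_pos_le_add fun η hη => ?_
  have h4 : Tendsto (fun ε : ℝ => (∑ k, c k * ((D k).defect BX ε - κ.inter (D k).ρ)) ^ 2)
      (𝓝[>] 0) (𝓝 ((∑ k, c k * (((r k - rX - rY k : ℤ) : ℝ) - κ.inter (D k).ρ)) ^ 2)) :=
    (tendsto_finsetSum _ fun k _ => ((defect_orders hd (D k) hX h1 (h2 k) (h3 k)).sub
      tendsto_const_nhds).const_mul _).pow 2
  have h5 := le_of_tendsto h4 (key η hη)
  have e1 : ∑ k, c k * (((r k - rX - rY k : ℤ) : ℝ) - κ.inter (D k).ρ) =
      ∑ k, c k * ((r k - rX - rY k - κ.inter (D k).ρ : ℤ) : ℝ) := by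
    refine Finset.sum_congr rfl fun k _ => ?_
    push_cast
    ring
  rw [e1] at h5
  exact h5

/-- the formula for the orders -/
lemma formula_of_lim (hd : 1 ≤ d) (D : AlbData X d N₁ N₂) {BX : HeightOneSpectrum (𝓞 K) → ℂ[X]}
    (hX : IsEulerSystem X d 2 N₂ 0 BX) {F : Filter ℝ} [F.NeBot] (hF : F ≤ 𝓝[>] 0) {L : ℝ}
    (h : Tendsto (D.defect BX) F (𝓝 L)) (hL : |L - κ.inter D.ρ| < 1) :
    D.TateFormula BX κ := by
  intro rX rY r h1 h2 h3
  have h4 := (defect_orders hd D hX h1 h2 h3).mono_left hF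
  have h5 := tendsto_nhds_unique h h4
  rw [h5] at hL
  have e : ((r - rX - rY : ℤ) : ℝ) - (κ.inter D.ρ : ℝ) = ((r - rX - rY - κ.inter D.ρ : ℤ) : ℝ) := by
    push_cast
    ring
  rw [e, ← Int.cast_abs] at hL
  have h6 : |r - rX - rY - κ.inter D.ρ| < 1 := by exact_mod_cast hL
  have h7 := Int.abs_lt_one_iff.1 h6
  linarith

/-- **The exceptional set.** -/
theorem alb_exceptional (hd : 1 ≤ d) (hR : RestMoment X d 1 N₁ κ R) (r : ℕ) :
    AlbExceptional X d N₁ N₂ R κ r := by
  obtain ⟨U, hU⟩ := exists_ultra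
  choose x hx using fun (a : ℕ) (π : Mono K) =>
    exists_lim (U := U) (hU (yM_bdd (X := X) (d := d) (N := fun _ => N₁) a π))
  have hR' := rest_bound (N := fun _ => N₁) (by omega : 1 ≤ 2 * d) hR
  have hG := (gramForm_one hU hR' hx).comp (fun D : AlbData X d N₁ N₂ => D.ρ)
  obtain ⟨S, hS, hS2⟩ := hG.exceptional r 1 le_rfl
  refine ⟨S, by simpa using hS, fun D h1 h2 BX hX => ?_⟩
  have h3 := hS2 D h1 h2
  simp only [Nat.cast_one, div_one] at h3
  have h4 := defect_lim hd D hX hU fun π _ => hx 1 π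
  refine ⟨?_, formula_of_lim hd D hX hU h4 h3⟩
  have h5 : ∀ᶠ ε in (U : Filter ℝ), |D.defect BX ε - κ.inter D.ρ| < 1 :=
    (h4.sub tendsto_const_nhds).abs.eventually_lt_const h3
  exact (h5.frequently).filter_mono hU

/-- the intertwining number with a virtual representation is additive -/
lemma inter_eq_xV (κ : Virt K) (a : ℕ) (ρ : Virt K) : (κ.inter ρ : ℝ) =
    xV (fun _ π => (κ.inter (Finsupp.single π 1) : ℝ)) a ρ := by
  classical
  have e1 : ∀ π : Mono K, κ.inter (Finsupp.single π 1) =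
      ∑ σ ∈ κ.support, κ σ * (σ.inter π : ℤ) := by
    intro π
    unfold Virt.inter
    unfold Finsupp.sum
    refine Finset.sum_congr rfl fun σ _ => ?_
    have := Finsupp.sum_single_index (a := π) (b := (1 : ℤ))
      (h := fun π' n' => κ σ * n' * (σ.inter π' : ℤ)) (by simp)
    unfold Finsupp.sum at this
    beta_reduce at this ⊢
    rw [this]
    ring
  unfold xV
  unfold Finsupp.sum
  rw [inter_eq_sum]
  push_cast
  rw [Finset.sum_comm]
  refine Finset.sum_congr rfl fun π _ => ?_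
  rw [e1, Int.cast_sum, Finset.mul_sum]
  refine Finset.sum_congr rfl fun σ _ => ?_
  push_cast
  ring

/-- **The exceptional set for monomial representations, with continuations.** -/
theorem alb_monomial (hd : 1 ≤ d) (hR : RestMoment X d 1 N₁ κ R)
    (H : Continuations1 X d N₁) : AlbMonomial X d N₁ N₂ R κ := by
  obtain ⟨U, hU⟩ := exists_ultra
  choose x hx using fun (a : ℕ) (π : Mono K) =>
    exists_lim (U := U) (hU (yM_bdd (X := X) (d := d) (N := fun _ => N₁) a π))
  have hR' := rest_bound (N := fun _ => N₁) (by omega : 1 ≤ 2 * d) hR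
  have hG := (gramForm_one hU hR' hx).comp
    (fun π : {π : Mono K // π.inter π = 1} => (Finsupp.single π.1 1 : Virt K))
  obtain ⟨S, hS, hS2⟩ := hG.exceptional 1 1 le_rfl
  classical
  refine ⟨S.image Subtype.val, Finset.card_image_le.trans (by simpa using hS),
    fun D hD BX hX => ?_⟩
  have hint : ∀ π ∈ D.ρ.support, Tendsto (yM X d (fun _ => N₁) 1 π) (𝓝[>] 0)
      (𝓝 (κ.inter (Finsupp.single π 1) : ℝ)) := by
    intro π hπ
    obtain ⟨h1, h2⟩ := hD π hπ
    obtain ⟨B₁, k₁, h4, h5⟩ := H π h1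
    have h6 := twist_limM (N := fun _ => N₁) (by omega : 1 ≤ 2 * d) h4 h5
    have h7 := tendsto_nhds_unique (h6.mono_left hU) (hx 1 π)
    have h8 := hS2 ⟨π, h1⟩ (by
      simp only
      rw [inter_single]
      exact_mod_cast h1.le) (by
      intro s hs
      simp only
      rw [inter_single]
      exact_mod_cast h2 s.1 (Finset.mem_image_of_mem _ hs))
    simp only [Nat.cast_one, div_one] at h8
    rw [xV_single, ← h7] at h8
    have e : (-(k₁ : ℝ)) - (κ.inter (Finsupp.single π 1) : ℝ) =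
        ((-k₁ - κ.inter (Finsupp.single π 1) : ℤ) : ℝ) := by
      push_cast
      ring
    rw [e, ← Int.cast_abs] at h8
    have h9 : |-k₁ - κ.inter (Finsupp.single π 1)| < 1 := by exact_mod_cast h8
    have h10 := Int.abs_lt_one_iff.1 h9
    have h11 : (-(k₁ : ℝ)) = (κ.inter (Finsupp.single π 1) : ℝ) := by
      have : -k₁ = κ.inter (Finsupp.single π 1) := by linarith
      exact_mod_cast this
    rw [h11] at h6
    exact h6
  have h1 := defect_lim hd D hX (le_refl (𝓝[>] (0 : ℝ)))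
    (x := fun _ π => (κ.inter (Finsupp.single π 1) : ℝ)) hint
  rw [← inter_eq_xV κ 1 D.ρ] at h1
  exact ⟨h1, formula_of_lim hd D hX (le_refl (𝓝[>] (0 : ℝ))) h1 (by simp)⟩

end Pool.Agent.X298.HC
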