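import Pool.Agent.X298.HC.MDefs
import Pool.Agent.X298.HC.H2Defs

/-!
# The potentially abelian part of the cohomology of a variety: definitions
-/

set_option autoImplicit false

namespace Pool.Agent.X298.HC

open NumberField IsDedekindDomain Filter Topology Polynomial ComplexConjugate
open Pool.Agent.W353.EF (IsFrobenius LFun)
open Pool.Agent.W353.EH (edgePoint size HasOrder IsEulerSystem)

section
variable {K : Type} [Field K] [NumberField K] {n n' : ℕ}

/-- `H^a(X)` has a part given by the dual of the representation `κ` of the Weil group of `K`, and the rest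
has dimension `s`: at almost all primes `v` the sum of all but `s` of the eigenvalues of Frobenius on
`H^a(X)` is `q_v^{a/2}` times the complex conjugate of the trace of Frobenius on `κ`.  (If `a = 1` and the
part is given by an abelian variety with potential complex multiplication, then the traces are
real.) -/
def IsPart (X : Set (MvPolynomial (Fin n) (𝓞 K))) (d a N s : ℕ) (κ : Virt K) : Prop :=
  ∀ᶠ v : HeightOneSpectrum (𝓞 K) in cofinite, ∃ (α : Fin N → ℂ) (J : Finset (Fin N)),
    IsFrobenius X d a v α ∧ J.card = s ∧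
      ∑ j ∈ Jᶜ, α j = (Ideal.absNorm v.asIdeal : ℂ) ^ ((a : ℂ) / 2) * conj (κ.trace v)

/-- The dual of `κ` is a part of `H^a(X)`, and `R` is the square of the dimension of the rest, or it is
the order of the pole of the `L`-function of the tensor square of the rest at the edge: `R = r - 2 m + q`,
where `r` is the order of the pole of `L(H^a(X) ⊗ H^a(X), s)` at `s = a + 1`, `m` is the order of the pole
of `L(H^a(X) ⊗ κ, s)` at `s = a/2 + 1` and `q` the intertwining number of `κ` with itself (meromorphic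
continuations to neighbourhoods of these points are assumed in this case). -/
def RestMoment (X : Set (MvPolynomial (Fin n) (𝓞 K))) (d a N : ℕ) (κ : Virt K) (R : ℕ) : Prop :=
  (∃ s : ℕ, IsPart X d a N s κ ∧ R = s ^ 2) ∨
  ∃ (B : HeightOneSpectrum (𝓞 K) → ℂ[X])
    (B' : ∀ π : Mono K, HeightOneSpectrum (𝓞 π.F) → ℂ[X]) (r m : ℤ),
    IsSquare X d a N B ∧ HasOrder (2 * a) 0 B (-r) ∧
    (∀ π ∈ κ.support, IsTwistBy X d a N π (B' π)) ∧ κ.HasOrder a B' (-m) ∧
    (R : ℤ) = r - 2 * m + κ.inter κ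

/-- `Y` is a projective variety of dimension `e` over `K` with first Betti number `M`, and at almost all
primes `v` the trace of Frobenius on `H^1(Y)` is `q_v^{1/2}` times the trace of Frobenius on a
representation `ρ` of the Weil group of `K`.  By the theorem of Shimura, Taniyama and Weil this is so if
the Albanese variety of `Y` has potential complex multiplication. -/
def IsPot1 (Y : Set (MvPolynomial (Fin n') (𝓞 K))) (e M : ℕ) (ρ : Virt K) : Prop :=
  ∀ᶠ v : HeightOneSpectrum (𝓞 K) in cofinite, ∃ β : Fin M → ℂ, IsFrobenius Y e 1 v β ∧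
    ∑ l, β l = (Ideal.absNorm v.asIdeal : ℂ) ^ ((1 : ℂ) / 2) * ρ.trace v

/-- A variety `Y` over `K` whose Albanese variety has potential complex multiplication, with the Euler
factors of `L₂` for `Y` and for `X × Y`. -/
structure AlbData (X : Set (MvPolynomial (Fin n) (𝓞 K))) (d N₁ N₂ : ℕ) where
  /-- the number of the coordinates -/
  n' : ℕ
  /-- the equations of `Y` -/
  Y : Set (MvPolynomial (Fin n') (𝓞 K))
  /-- the dimension of `Y` -/
  e : ℕ
  /-- the first Betti number of `Y` -/
  M₁ : ℕ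
  /-- the second Betti number of `Y` -/
  M₂ : ℕ
  /-- the representation for `H^1(Y)` -/
  ρ : Virt K
  /-- the Euler factors of `L₂` for `Y` -/
  BY : HeightOneSpectrum (𝓞 K) → ℂ[X]
  /-- the Euler factors of `L₂` for `X × Y` -/
  B : HeightOneSpectrum (𝓞 K) → ℂ[X]
  pos : 1 ≤ e
  pot : IsPot1 Y e M₁ ρ
  euler : IsEulerSystem Y e 2 M₂ 0 BY
  prod : IsProduct2 X d N₁ N₂ Y e M₁ M₂ B

section
variable {X : Set (MvPolynomial (Fin n) (𝓞 K))} {d N₁ N₂ : ℕ}

/-- `log |L₂(2 + ε)| / log(1/ε)` for `X × Y`, minus the same for `X`, minus the same for `Y`; it tends to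
`r(X × Y) - r(X) - r(Y)` for the orders `r` of the poles at `s = 2`, if there are continuations. -/
noncomputable def AlbData.defect (D : AlbData X d N₁ N₂) (BX : HeightOneSpectrum (𝓞 K) → ℂ[X])
    (ε : ℝ) : ℝ :=
  size 2 0 D.B ε - size 2 0 BX ε - size 2 0 D.BY ε

/-- `r(X × Y) = r(X) + r(Y) + h`, if `L₂` has poles of the orders `r(X × Y)`, `r(X)`, `r(Y)` at `s = 2`,
where `h` is the intertwining number of `κ` and `ρ`, the rank of `Hom(A, Alb Y)` if `κ` is given by the
abelian variety `A`. -/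
def AlbData.TateFormula (D : AlbData X d N₁ N₂) (BX : HeightOneSpectrum (𝓞 K) → ℂ[X])
    (κ : Virt K) : Prop :=
  ∀ rX rY r : ℤ, HasOrder 2 0 BX (-rX) → HasOrder 2 0 D.BY (-rY) → HasOrder 2 0 D.B (-r) →
    r = rX + rY + κ.inter D.ρ

end

section
variable (X : Set (MvPolynomial (Fin n) (𝓞 K))) (d N₁ N₂ R : ℕ) (κ : Virt K)

/-- For finitely many `Y_k` and real `c_k`, with `h_kl` the intertwining number of `ρ_k` and `ρ_l` (the rank
of `Hom(Alb Y_k, Alb Y_l)`) and `h_k` the one of `κ` and `ρ_k`: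
`(∑ c_k (defect_k(ε) - h_k))² ≤ R ∑ c_k c_l h_kl + η` for every `η > 0` and all small `ε > 0`, and
`(∑ c_k (r(X × Y_k) - r(X) - r(Y_k) - h_k))² ≤ R ∑ c_k c_l h_kl` for the orders of the poles, if there
are continuations. -/
def AlbGram : Prop :=
  ∀ (BX : HeightOneSpectrum (𝓞 K) → ℂ[X]), IsEulerSystem X d 2 N₂ 0 BX →
  ∀ (l : ℕ) (D : Fin l → AlbData X d N₁ N₂) (c : Fin l → ℝ),
    (∀ η : ℝ, 0 < η → ∀ᶠ ε : ℝ in 𝓝[>] 0,
      (∑ k, c k * ((D k).defect BX ε - κ.inter (D k).ρ)) ^ 2 ≤
        R * ∑ k, ∑ k', c k * c k' * ((D k).ρ.inter (D k').ρ : ℝ) + η) ∧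
    ∀ (rX : ℤ) (rY r : Fin l → ℤ), HasOrder 2 0 BX (-rX) →
      (∀ k, HasOrder 2 0 (D k).BY (-rY k)) → (∀ k, HasOrder 2 0 (D k).B (-r k)) →
      (∑ k, c k * ((r k - rX - rY k - κ.inter (D k).ρ : ℤ) : ℝ)) ^ 2 ≤
        R * ∑ k, ∑ k', c k * c k' * ((D k).ρ.inter (D k').ρ : ℝ)

/-- There are at most `r R` varieties `Y_s` such that for all `Y` for which the intertwining number of
`ρ` with itself (the rank of `End(Alb Y)`) is at most `r` and those with the `ρ_s` (the ranks of
`Hom(Alb Y, Alb Y_s)`) are zero, the formula `r(X × Y) = r(X) + r(Y) + h` holds for the orders of the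
poles, and without continuations the defect differs from `h` by less than one for arbitrarily small
`ε > 0`. -/
def AlbExceptional (r : ℕ) : Prop :=
  ∃ S : Finset (AlbData X d N₁ N₂), S.card ≤ r * R ∧
    ∀ D : AlbData X d N₁ N₂, D.ρ.inter D.ρ ≤ r → (∀ D' ∈ S, D.ρ.inter D'.ρ = 0) →
      ∀ BX : HeightOneSpectrum (𝓞 K) → ℂ[X], IsEulerSystem X d 2 N₂ 0 BX →
        (∃ᶠ ε : ℝ in 𝓝[>] 0, |D.defect BX ε - κ.inter D.ρ| < 1) ∧ D.TateFormula BX κ

/-- All `L(H^1(X) ⊗ π, s)`, `π` monomial and irreducible, have meromorphic continuations to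
neighbourhoods of `s = 3/2`. -/
def Continuations1 : Prop :=
  ∀ π : Mono K, π.inter π = 1 → ∃ (B : HeightOneSpectrum (𝓞 π.F) → ℂ[X]) (k : ℤ),
    IsTwistBy X d 1 N₁ π B ∧ HasOrder 1 π.τ B k

/-- There is a set `S` of at most `R` monomial representations such that for all `Y` for which `ρ` is a
combination (of any number) of monomial irreducible representations not equivalent to those in `S` the
defect tends to `h`, and the formula `r(X × Y) = r(X) + r(Y) + h` holds. -/
def AlbMonomial : Prop :=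
  ∃ S : Finset (Mono K), S.card ≤ R ∧
    ∀ D : AlbData X d N₁ N₂, (∀ π ∈ D.ρ.support, π.inter π = 1 ∧ ∀ s ∈ S, π.inter s = 0) →
      ∀ BX : HeightOneSpectrum (𝓞 K) → ℂ[X], IsEulerSystem X d 2 N₂ 0 BX →
        Tendsto (D.defect BX) (𝓝[>] 0) (𝓝 (κ.inter D.ρ)) ∧ D.TateFormula BX κ

end

end

end Pool.Agent.X298.HC
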