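import Pool.Agent.X298.HC.KPole
import Pool.Agent.X298.HC.KNorm

/-! The norm of the tuple of a product. -/

set_option autoImplicit false
set_option linter.unusedSectionVars false
open Filter Topology NumberField Ideal IsDedekindDomain ComplexConjugate Polynomial

namespace Pool.Agent.X298.HC

open Pool.Agent.W540.BE Pool.Agent.H341R2
open Pool.Agent.W353.TP (HX push res)
open Pool.Agent.W353.NF (vx nm_vx vx_asIdeal)
open Pool.Agent.W353.EF (IsFrobenius)
open Pool.Agent.W353.PV (Eig alp pick_spec)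

variable {K : Type} [Field K] [NumberField K] {n n' : ℕ}
variable {X : Set (MvPolynomial (Fin n) (𝓞 K))} {d : ℕ} {N : ℕ → ℕ}

/-- the norm in one degree is at most the square of the Betti number -/
theorem pot_norm {Y : Set (MvPolynomial (Fin n') (𝓞 K))} {e : ℕ} {M : ℕ → ℕ} {ρ : ℕ → Virt K}
    (hY : IsPotAbelian Y e M ρ) {b : ℕ} (hb : b ≤ 2 * e) :
    (ρ b).inter (ρ b) ≤ (M b : ℤ) ^ 2 := by
  have h := inter_le_of (ρ := ρ b) (b := M b) (by
    have hcof : ∀ᶠ x : HX K in cofinite, ∀ b ≤ 2 * e, ∃ β : Fin (M b) → ℂ,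
        IsFrobenius Y e b (vx x) β ∧
        ∑ l, β l = (Ideal.absNorm (vx x).asIdeal : ℂ) ^ ((b : ℂ) / 2) * (ρ b).trace (vx x) :=
      vx_injective.tendsto_cofinite.eventually hY
    filter_upwards [hcof] with x hx
    obtain ⟨β, h1, h2⟩ := hx b hb
    have h1' : Eig Y e b (vx x) β := h1
    have hq0 : (0 : ℝ) < nm K (vx x) := by exact_mod_cast nm_pos (vx x)
    have e1 : ‖∑ l, β l‖ ≤ M b * (nm K (vx x) : ℝ) ^ ((b : ℝ) / 2) := by
      refine (norm_sum_le _ _).trans (le_of_eq ?_)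
      have : ∀ l, ‖β l‖ = (nm K (vx x) : ℝ) ^ ((b : ℝ) / 2) := fun l => h1'.norm l
      rw [Finset.sum_congr rfl fun l _ => this l, Finset.sum_const, Finset.card_univ,
        Fintype.card_fin, nsmul_eq_mul]
    have e2 : ‖(Ideal.absNorm (vx x).asIdeal : ℂ) ^ ((b : ℂ) / 2)‖ =
        (nm K (vx x) : ℝ) ^ ((b : ℝ) / 2) := by
      have := Complex.norm_natCast_cpow_of_pos (nm_pos (vx x)) ((b : ℂ) / 2)
      have e3 : ((b : ℂ) / 2).re = (b : ℝ) / 2 := by
        rw [show ((b : ℂ) / 2) = (((b : ℝ) / 2 : ℝ) : ℂ) by push_cast; ring, Complex.ofReal_re]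
      rw [e3] at this
      exact this
    rw [h2, norm_mul, e2, mul_comm (M b : ℝ)] at e1
    exact le_of_mul_le_mul_left e1 (Real.rpow_pos_of_pos hq0 _))
  exact_mod_cast h

/-- the norm of the tuple -/
theorem tuple_norm (D : ProdData X d N) : 0 ≤ tupleInter d D.tuple D.tuple ∧
    tupleInter d D.tuple D.tuple ≤ ∑ p ∈ degrees d D.e (2 * D.m), (D.M p.2 : ℤ) ^ 2 := by
  constructor
  · exact Finset.sum_nonneg fun a _ => inter_self_nonneg _
  · have h1 := sum_degrees (A := ℤ) d D.e (2 * D.m) (fun p => (D.M p.2 : ℤ) ^ 2)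
    rw [h1]
    refine Finset.sum_le_sum fun a _ => ?_
    unfold ProdData.tuple pairTuple
    split_ifs with h
    · exact pot_norm D.pot (mem_degrees.1 h).2.2
    · rw [zero_inter]

end Pool.Agent.X298.HC
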