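import Pool.Agent.X298.HC.KAbs
import Pool.Agent.X298.HC.KDefs

/-! The part of the cohomology that is not known, in one degree. -/

set_option autoImplicit false
set_option linter.unusedSectionVars false
open Filter Topology NumberField Ideal IsDedekindDomain ComplexConjugate Polynomial

namespace Pool.Agent.X298.HC

open Pool.Agent.W540.BE Pool.Agent.H341R2
open Pool.Agent.W353.TP (HX push res)
open Pool.Agent.W353.NF (vx nm_vx vx_asIdeal)
open Pool.Agent.W353.EH (edgePoint size HasOrder)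
open Pool.Agent.W353.EF (IsFrobenius)
open Pool.Agent.W353.PV (Eig alp pick_spec)

section
variable {K : Type} [Field K] [NumberField K] {n : ℕ}
variable (X : Set (MvPolynomial (Fin n) (𝓞 K))) (d : ℕ) (N : ℕ → ℕ)

/-- the normalised trace of the rest -/
noncomputable def tK (a : ℕ) (κ : Virt K) (x : HX K) : ℂ :=
  tX X d a (N a) (vx x) - conj (κ.trace (vx x))

variable {X d N}

lemma norm_tK_le (a : ℕ) (κ : Virt K) (x : HX K) : ‖tK X d N a κ x‖ ≤ N a + κ.bd := by
  unfold tK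
  refine (norm_sub_le _ _).trans ?_
  rw [Complex.norm_conj]
  exact add_le_add (norm_tX_le X d a (N a) _) (norm_trace_le κ x)

/-- bounded by a constant almost everywhere -/
lemma EPH_le_ae {f : HX K → ℝ} {B b : ℝ} (hf : ∀ v, |f v| ≤ B) (h : ∀ᶠ v in cofinite, f v ≤ b)
    {δ : ℝ} (hδ : 0 < δ) : ∀ᶠ ε : ℝ in 𝓝[>] 0, (EP (nx K) ε f) / lam ε ≤ b + δ := by
  have hN : NormSys (nx K) := normSysH
  have h1 := EPH_ae (g := fun v => min (f v) b) (B' := B + |b|) hf (fun v => by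
    rcases le_total (f v) b with h2 | h2
    · rw [min_eq_left h2]
      exact (hf v).trans (le_add_of_nonneg_right (abs_nonneg _))
    · rw [min_eq_right h2]
      exact le_add_of_nonneg_left ((abs_nonneg _).trans (hf v)))
    (h.mono fun v hv => (min_eq_left hv).symm)
  have h2 := (EPH_one (K := K)).const_mul b
  rw [mul_one] at h2
  filter_upwards [h1.eventually_lt_const (show (0 : ℝ) < δ / 2 by positivity),
    h2.eventually_lt_const (show b < b + δ / 2 by linarith), self_mem_nhdsWithin,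
    lam_tendsto.eventually_gt_atTop 0] with ε h3 h4 h5 h6
  have hε : (0 : ℝ) < ε := h5
  have h7 := EP_le hN hε (φ := fun v => min (f v) b) (B := B + |b|) (fun v => by
    rcases le_total (f v) b with h2 | h2
    · rw [min_eq_left h2]
      exact (hf v).trans (le_add_of_nonneg_right (abs_nonneg _))
    · rw [min_eq_right h2]
      exact le_add_of_nonneg_left ((abs_nonneg _).trans (hf v))) (b := b)
    (fun v => min_le_right _ _)
  have h8 := div_le_div_of_nonneg_right h7 h6.le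
  have h9 : b * (EP (nx K) ε fun _ => 1) / lam ε = b * ((EP (nx K) ε fun _ => 1) / lam ε) := by
    ring
  rw [h9] at h8
  linarith

/-- **The second moment of the rest.** -/
theorem rest_bound {a : ℕ} (ha : a ≤ 2 * d) {κ : Virt K} {R : ℕ}
    (h : RestMoment X d a (N a) κ R) : ∀ δ : ℝ, 0 < δ → ∀ᶠ ε : ℝ in 𝓝[>] 0,
      (EP (nx K) ε fun x => ‖tK X d N a κ x‖ ^ 2) / lam ε ≤ R + δ := by
  have hN : NormSys (nx K) := normSysH
  intro δ hδ
  have hb : ∀ x : HX K, |‖tK X d N a κ x‖ ^ 2| ≤ (N a + κ.bd) ^ 2 := by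
    intro x
    rw [abs_of_nonneg (sq_nonneg _)]
    exact pow_le_pow_left₀ (norm_nonneg _) (norm_tK_le a κ x) 2
  rcases h with ⟨s, h1, h2⟩ | ⟨B, B', r, m, h1, h2, h3, h4, h5⟩
  · rw [h2]
    refine EPH_le_ae hb ?_ hδ
    have hcof : ∀ᶠ x : HX K in cofinite, ∃ (α : Fin (N a) → ℂ) (J : Finset (Fin (N a))),
        IsFrobenius X d a (vx x) α ∧ J.card = s ∧
        ∑ j ∈ Jᶜ, α j = (Ideal.absNorm (vx x).asIdeal : ℂ) ^ ((a : ℂ) / 2) *
          conj (κ.trace (vx x)) := vx_injective.tendsto_cofinite.eventually h1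
    filter_upwards [hcof] with x hx
    obtain ⟨α, J, e1, e2, e3⟩ := hx
    have e1' : Eig X d a (vx x) α := e1
    have e4 : Eig X d a (vx x) (alp X d a (N a) K (vx x)) := pick_spec ⟨α, e1⟩
    have hq0 : (0 : ℝ) < nm K (vx x) := by exact_mod_cast nm_pos (vx x)
    have hqc : ((nm K (vx x) : ℕ) : ℂ) ≠ 0 := by exact_mod_cast (nm_pos (vx x)).ne'
    have e5 : ∀ j, ‖alp X d a (N a) K (vx x) j‖ = (nm K (vx x) : ℝ) ^ ((a : ℝ) / 2) :=
      fun j => e4.norm j
    have e6 : ∑ j, alp X d a (N a) K (vx x) j = ∑ j, α j :=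
      congrArg Multiset.sum (e4.unique' ha e1')
    have e7 : tX X d a (N a) (vx x) = (∑ j, α j) * ((nm K (vx x) : ℕ) : ℂ) ^
        (-(((a : ℝ) / 2 : ℝ) : ℂ)) := by
      have : tX X d a (N a) (vx x) = (∑ j, alp X d a (N a) K (vx x) j) *
        ((nm K (vx x) : ℕ) : ℂ) ^ (-(((a : ℝ) / 2 : ℝ) : ℂ)) := T_mul e5
      rw [this, e6]
    have e8 : ((nm K (vx x) : ℕ) : ℂ) ^ ((a : ℂ) / 2) * ((nm K (vx x) : ℕ) : ℂ) ^
        (-(((a : ℝ) / 2 : ℝ) : ℂ)) = 1 := by
      rw [← Complex.cpow_add _ _ hqc]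
      have : (a : ℂ) / 2 + -(((a : ℝ) / 2 : ℝ) : ℂ) = 0 := by
        push_cast
        ring
      rw [this, Complex.cpow_zero]
    have e9 : (Ideal.absNorm (vx x).asIdeal : ℂ) = ((nm K (vx x) : ℕ) : ℂ) := rfl
    have e10 : tK X d N a κ x = (∑ j ∈ J, α j) * ((nm K (vx x) : ℕ) : ℂ) ^
        (-(((a : ℝ) / 2 : ℝ) : ℂ)) := by
      unfold tK
      rw [e7, ← Finset.sum_add_sum_compl J α, e3, e9, add_mul]
      have : ((nm K (vx x) : ℕ) : ℂ) ^ ((a : ℂ) / 2) * conj (κ.trace (vx x)) *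
          ((nm K (vx x) : ℕ) : ℂ) ^ (-(((a : ℝ) / 2 : ℝ) : ℂ)) = conj (κ.trace (vx x)) := by
        rw [mul_assoc, mul_comm (conj (κ.trace (vx x))), ← mul_assoc, e8, one_mul]
      rw [this, add_sub_cancel_right]
    have e11 : ‖tK X d N a κ x‖ ≤ s := by
      rw [e10, norm_mul, Complex.norm_natCast_cpow_of_pos (nm_pos (vx x))]
      have e12 : (-(((a : ℝ) / 2 : ℝ) : ℂ)).re = -((a : ℝ) / 2) := by
        rw [Complex.neg_re, Complex.ofReal_re]
      rw [e12]
      have e13 : ‖∑ j ∈ J, α j‖ ≤ s * (nm K (vx x) : ℝ) ^ ((a : ℝ) / 2) := by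
        refine (norm_sum_le _ _).trans (le_of_eq ?_)
        have : ∀ j ∈ J, ‖α j‖ = (nm K (vx x) : ℝ) ^ ((a : ℝ) / 2) := fun j _ => e1'.norm j
        rw [Finset.sum_congr rfl this, Finset.sum_const, e2, nsmul_eq_mul]
      calc _ ≤ (s * (nm K (vx x) : ℝ) ^ ((a : ℝ) / 2)) * (nm K (vx x) : ℝ) ^ (-((a : ℝ) / 2)) :=
            mul_le_mul_of_nonneg_right e13 (by positivity)
        _ = s := by
            rw [mul_assoc, ← Real.rpow_add hq0, add_neg_cancel, Real.rpow_zero, mul_one]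
    push_cast
    exact pow_le_pow_left₀ (norm_nonneg _) e11 2
  · -- the three moments
    have f1 : Tendsto (fun ε : ℝ => (EP (nx K) ε fun x => ‖tX X d a (N a) (vx x)‖ ^ 2) / lam ε)
        (𝓝[>] 0) (𝓝 r) := by
      have g1 := square_size ha h1
      have g2 := (g1.2.add (size_lim g1.1 h2)).sub (second_vx (X := X) (d := d) (a := a)
        (N := N a))
      have e : (0 : ℝ) + -((-r : ℤ) : ℝ) - 0 = r := by push_cast; ring
      rw [e] at g2
      refine g2.congr fun ε => ?_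
      ring
    have f2 : Tendsto (yV X d N a κ) (𝓝[>] 0) (𝓝 m) := by
      have g1 := (size_known (N := N) ha h3).add (virt_lim (N := N) ha h3 h4)
      have e : (0 : ℝ) + -((-m : ℤ) : ℝ) = m := by push_cast; ring
      rw [e] at g1
      refine g1.congr fun ε => ?_
      ring
    have f3 := gram_virt κ κ
    have f4 := ((f1.sub (f2.const_mul 2)).add f3)
    have e1 : (r : ℝ) - 2 * m + (κ.inter κ : ℝ) = R := by exact_mod_cast h5.symm
    rw [e1] at f4
    filter_upwards [f4.eventually_lt_const (show (R : ℝ) < R + δ by linarith),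
      self_mem_nhdsWithin] with ε h6 h7
    have hε : (0 : ℝ) < ε := h7
    refine le_of_eq_of_le ?_ h6.le
    have b1 : ∀ x : HX K, |‖tX X d a (N a) (vx x)‖ ^ 2| ≤ (N a : ℝ) ^ 2 := fun x => by
      rw [abs_of_nonneg (sq_nonneg _)]
      exact pow_le_pow_left₀ (norm_nonneg _) (norm_tX_le X d a (N a) _) 2
    have b2 : ∀ x : HX K, |(tX X d a (N a) (vx x) * κ.trace (vx x)).re| ≤ N a * κ.bd := by
      intro x
      refine (Complex.abs_re_le_norm _).trans ?_
      rw [norm_mul]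
      exact mul_le_mul (norm_tX_le X d a (N a) _) (norm_trace_le _ x) (norm_nonneg _)
        (Nat.cast_nonneg _)
    have b3 : ∀ x : HX K, |(conj (κ.trace (vx x)) * κ.trace (vx x)).re| ≤ κ.bd * κ.bd := by
      intro x
      refine (Complex.abs_re_le_norm _).trans ?_
      rw [norm_mul, Complex.norm_conj]
      exact mul_le_mul (norm_trace_le _ x) (norm_trace_le _ x) (norm_nonneg _)
        ((norm_nonneg _).trans (norm_trace_le κ x))
    have e2 : (fun x => ‖tK X d N a κ x‖ ^ 2) = fun x : HX K =>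
        (‖tX X d a (N a) (vx x)‖ ^ 2 + (-2) * (tX X d a (N a) (vx x) * κ.trace (vx x)).re) +
        (conj (κ.trace (vx x)) * κ.trace (vx x)).re := by
      funext x
      unfold tK
      rw [← Complex.normSq_eq_norm_sq, ← Complex.normSq_eq_norm_sq, Complex.normSq_sub,
        Complex.normSq_conj, Complex.conj_conj, ← Complex.normSq_eq_conj_mul_self,
        Complex.ofReal_re]
      ring
    have b4 : ∀ x : HX K, |(-2) * (tX X d a (N a) (vx x) * κ.trace (vx x)).re| ≤
        2 * (N a * κ.bd) := by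
      intro x
      rw [abs_mul, abs_neg, abs_two]
      exact mul_le_mul_of_nonneg_left (b2 x) (by norm_num)
    rw [e2, EP_add hN hε (fun x => (abs_add_le _ _).trans (add_le_add (b1 x) (b4 x))) b3,
      EP_add hN hε b1 b4, EP_const_mul]
    unfold yV
    ring

/-- **The Gram inequality relative to the known part.** -/
theorem gram_oneK {a : ℕ} {κ : Virt K} {R : ℝ} {U : Ultrafilter ℝ}
    (hU : (U : Filter ℝ) ≤ 𝓝[>] 0)
    (hR : ∀ δ : ℝ, 0 < δ → ∀ᶠ ε : ℝ in 𝓝[>] 0,
      (EP (nx K) ε fun x => ‖tK X d N a κ x‖ ^ 2) / lam ε ≤ R + δ)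
    {x : ℕ → Mono K → ℝ} (hx : ∀ a π, Tendsto (yM X d N a π) U (𝓝 (x a π)))
    {ι : Type*} [Fintype ι] (ρ : ι → Virt K) (c : ι → ℝ) :
    0 ≤ ∑ k, ∑ l, c k * c l * ((ρ k).inter (ρ l) : ℝ) ∧
    (∑ k, c k * (xV x a (ρ k) - κ.inter (ρ k))) ^ 2 ≤
      R * ∑ k, ∑ l, c k * c l * ((ρ k).inter (ρ l) : ℝ) := by
  have hN : NormSys (nx K) := normSysH
  obtain ⟨x0⟩ : Nonempty (HX K) := (Pool.Agent.W353.TP.sysH K).nonempty
  refine engineP (normSysH (K := K)) x0 hU EPH_pos (fun k x => conj ((ρ k).trace (vx x)))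
    (fun k => (ρ k).bd) (fun k x => ?_) (fun k l => ((ρ k).inter (ρ l) : ℝ)) (fun k l => ?_)
    (fun x => tK X d N a κ x) (b := N a + κ.bd) (norm_tK_le a κ)
    (fun δ hδ => hU (hR δ hδ)) (fun k => xV x a (ρ k) - κ.inter (ρ k)) (fun k => ?_) c
  · rw [Complex.norm_conj]
    exact norm_trace_le _ x
  · refine ((gram_virt (ρ k) (ρ l)).mono_left hU).congr fun ε => ?_
    simp only [Complex.conj_conj]
  · have h1 := (yV_lim hU (ρ := ρ k) fun π _ => hx a π).sub
      ((gram_virt κ (ρ k)).mono_left hU)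
    refine h1.congr' ?_
    filter_upwards [hU self_mem_nhdsWithin] with ε hε
    have hε' : (0 : ℝ) < ε := hε
    simp only [Complex.conj_conj]
    have b2 : ∀ x : HX K, |(tX X d a (N a) (vx x) * (ρ k).trace (vx x)).re| ≤
        N a * (ρ k).bd := by
      intro x
      refine (Complex.abs_re_le_norm _).trans ?_
      rw [norm_mul]
      exact mul_le_mul (norm_tX_le X d a (N a) _) (norm_trace_le _ x) (norm_nonneg _)
        (Nat.cast_nonneg _)
    have b3 : ∀ x : HX K, |(-1) * (conj (κ.trace (vx x)) * (ρ k).trace (vx x)).re| ≤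
        κ.bd * (ρ k).bd := by
      intro x
      rw [abs_mul, abs_neg, abs_one, one_mul]
      refine (Complex.abs_re_le_norm _).trans ?_
      rw [norm_mul, Complex.norm_conj]
      exact mul_le_mul (norm_trace_le _ x) (norm_trace_le _ x) (norm_nonneg _)
        ((norm_nonneg _).trans (norm_trace_le κ x))
    have e2 : (fun x => (tK X d N a κ x * (ρ k).trace (vx x)).re) = fun x : HX K =>
        (tX X d a (N a) (vx x) * (ρ k).trace (vx x)).re +
        (-1) * (conj (κ.trace (vx x)) * (ρ k).trace (vx x)).re := by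
      funext x
      unfold tK
      rw [sub_mul, Complex.sub_re]
      ring
    rw [e2, EP_add hN hε' b2 b3, EP_const_mul]
    unfold yV
    ring

/-- the abstract form -/
theorem gramForm_one {a : ℕ} {κ : Virt K} {R : ℝ} {U : Ultrafilter ℝ}
    (hU : (U : Filter ℝ) ≤ 𝓝[>] 0)
    (hR : ∀ δ : ℝ, 0 < δ → ∀ᶠ ε : ℝ in 𝓝[>] 0,
      (EP (nx K) ε fun x => ‖tK X d N a κ x‖ ^ 2) / lam ε ≤ R + δ)
    {x : ℕ → Mono K → ℝ} (hx : ∀ a π, Tendsto (yM X d N a π) U (𝓝 (x a π))) :
    GramForm (Virt K) (fun ρ ρ' => ρ.inter ρ') (fun ρ => xV x a ρ - κ.inter ρ) R := by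
  classical
  refine ⟨inter_comm', fun S c => ?_⟩
  have h := gram_oneK hU hR hx (ι := {ρ // ρ ∈ S}) (fun s => s.1) (fun s => c s.1)
  have e1 : ∀ f : Virt K → ℝ, ∑ s : {ρ // ρ ∈ S}, f s.1 = ∑ s ∈ S, f s :=
    fun f => Finset.sum_coe_sort S f
  have e2 : ∀ ρ : Virt K, ∑ l : {ρ // ρ ∈ S}, c ρ * c l.1 * (ρ.inter l.1 : ℝ) =
      ∑ l ∈ S, c ρ * c l * (ρ.inter l : ℝ) :=
    fun ρ => e1 (fun l => c ρ * c l * (ρ.inter l : ℝ))
  rw [e1 (fun ρ => c ρ * (xV x a ρ - κ.inter ρ)),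
    e1 (fun ρ => ∑ l : {ρ // ρ ∈ S}, c ρ * c l.1 * (ρ.inter l.1 : ℝ)),
    Finset.sum_congr rfl fun ρ _ => e2 ρ] at h
  exact h

end

end Pool.Agent.X298.HC
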