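import Pool.Agent.X298.HC.KTup

/-! Tate's formula for products and the potentially abelian part of `X`: the proofs. -/

set_option autoImplicit false
set_option linter.unusedSectionVars false
open Filter Topology NumberField Ideal IsDedekindDomain ComplexConjugate Polynomial

namespace Pool.Agent.X298.HC

open Pool.Agent.W540.BE Pool.Agent.H341R2
open Pool.Agent.W353.TP (HX push res)
open Pool.Agent.W353.NF (vx nm_vx vx_asIdeal)
open Pool.Agent.W353.EH (edgePoint HasOrder)

variable {K : Type} [Field K] [NumberField K] {n : ℕ}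
variable {X : Set (MvPolynomial (Fin n) (𝓞 K))} {d : ℕ} {N : ℕ → ℕ} {R : ℕ → ℕ}
  {κ : ℕ → Virt K}

lemma rest_zero (d e i : ℕ) (ρ : ℕ → Virt K) :
    restTuple d e i 0 ρ (fun _ => 0) = pairTuple d e i ρ := by
  funext a
  unfold restTuple pairTuple
  rw [sub_zero, shift_zero]

lemma size_zero_virt (a : ℕ) (B : ∀ π : Mono K, HeightOneSpectrum (𝓞 π.F) → ℂ[X]) (ε : ℝ) :
    (0 : Virt K).size a B ε = 0 := by
  unfold Virt.size Virt.LFun
  rw [Finsupp.prod_zero_index, norm_one, Real.log_one, zero_div]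

/-- the limit of the size of a product -/
lemma prodD_lim (D : ProdData X d N) {F : Filter ℝ} (hF : F ≤ 𝓝[>] 0)
    (x : ℕ → Mono K → ℝ)
    (hx : ∀ p ∈ degrees d D.e (2 * D.m), ∀ π ∈ (D.ρ p.2).support,
      Tendsto (yM X d N p.1 π) F (𝓝 (x p.1 π))) :
    Tendsto D.size F (𝓝 (LT x d D.tuple)) := by
  have h0 : (0 : Virt K).shift 0 = 0 := shift_zero 0
  have h := prod_limM (κ := fun _ => 0) D.pot D.prod (fun _ _ _ => 0)
    (by
      intro p _ π hπ
      rw [h0] at hπ
      simp at hπ) hF x (by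
      intro p hp π hπ
      rw [sub_zero, shift_zero] at hπ
      exact hx p hp π hπ)
  rw [rest_zero] at h
  refine h.congr fun ε => ?_
  have e1 : ∑ p ∈ degrees d D.e (2 * D.m), ((0 : Virt K).shift 0).size p.1 (fun _ _ => 0) ε =
      0 := Finset.sum_eq_zero fun p _ => by rw [h0, size_zero_virt]
  simp only [e1, sub_zero]
  rfl

lemma prodD_order (D : ProdData X d N) {r : ℤ} (h : D.PoleOrder r) :
    Tendsto D.size (𝓝[>] 0) (𝓝 (r : ℝ)) := by
  have h1 := size_lim (product_sizeM D.pot D.prod).1 h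
  have e1 : -((-r : ℤ) : ℝ) = r := by push_cast; ring
  rw [e1] at h1
  exact h1

/-- **The Gram inequality.** -/
theorem tate_gram (hR : RestMoments X d N κ R) : TateGram X d N R κ := by
  intro l D c
  have hR' := rest_all hR
  set Rs : ℝ := ((∑ a ∈ Finset.range (2 * d + 1), R a : ℕ) : ℝ) with hRs
  have key : ∀ η : ℝ, 0 < η → ∀ᶠ ε : ℝ in 𝓝[>] 0,
      (∑ k, c k * ((D k).size ε - (D k).tate κ)) ^ 2 ≤
        Rs * ∑ k, ∑ k', c k * c k' * (tupleInter d (D k).tuple (D k').tuple : ℝ) + η := by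
    intro η hη
    by_contra hcon
    rw [Filter.not_eventually] at hcon
    obtain ⟨U, hU, hUP⟩ := exists_ultra_of hcon
    choose x hx using fun (a : ℕ) (π : Mono K) =>
      exists_lim (U := U) (hU (yM_bdd (X := X) (d := d) (N := N) a π))
    have h1 := (gram_tupleK hU hR' hx (fun k => (D k).tuple) c).2
    have h3 : Tendsto (fun ε : ℝ => (∑ k, c k * ((D k).size ε - (D k).tate κ)) ^ 2) U
        (𝓝 ((∑ k, c k * (LT x d (D k).tuple - (D k).tate κ)) ^ 2)) :=
      (tendsto_finsetSum _ fun k _ => ((prodD_lim (D k) hU x fun p _ π _ => hx p.1 π).sub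
        tendsto_const_nhds).const_mul _).pow 2
    have h4 := ge_of_tendsto h3 (hUP.mono fun ε hε => (not_le.1 hε).le)
    have h5 : (∑ k, c k * (LT x d (D k).tuple - (D k).tate κ)) ^ 2 ≤
      Rs * ∑ k, ∑ k', c k * c k' * (tupleInter d (D k).tuple (D k').tuple : ℝ) := h1
    linarith
  refine ⟨key, fun r h3 => ?_⟩
  refine le_of_forall_pos_le_add fun η hη => ?_
  have h4 : Tendsto (fun ε : ℝ => (∑ k, c k * ((D k).size ε - (D k).tate κ)) ^ 2)
      (𝓝[>] 0) (𝓝 ((∑ k, c k * ((r k : ℝ) - (D k).tate κ)) ^ 2)) :=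
    (tendsto_finsetSum _ fun k _ => ((prodD_order (D k) (h3 k)).sub
      tendsto_const_nhds).const_mul _).pow 2
  have h5 := le_of_tendsto h4 (key η hη)
  have e1 : ∑ k, c k * ((r k : ℝ) - (D k).tate κ) =
      ∑ k, c k * ((r k - (D k).tate κ : ℤ) : ℝ) := by
    refine Finset.sum_congr rfl fun k _ => ?_
    push_cast
    ring
  rw [e1] at h5
  exact h5

/-- the orders -/
lemma order_of_lim (D : ProdData X d N) {F : Filter ℝ} [F.NeBot] (hF : F ≤ 𝓝[>] 0) {L : ℝ}
    (h : Tendsto D.size F (𝓝 L)) (hL : |L - D.tate κ| < 1) {k : ℤ} (hk : D.PoleOrder k) :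
    k = D.tate κ := by
  have h4 := (prodD_order D hk).mono_left hF
  have h5 := tendsto_nhds_unique h h4
  rw [h5] at hL
  have e : (k : ℝ) - (D.tate κ : ℝ) = ((k - D.tate κ : ℤ) : ℝ) := by
    push_cast
    ring
  rw [e, ← Int.cast_abs] at hL
  have h6 : |k - D.tate κ| < 1 := by exact_mod_cast hL
  have h7 := Int.abs_lt_one_iff.1 h6
  linarith

/-- **The exceptional set.** -/
theorem tate_exceptional (hR : RestMoments X d N κ R) (r : ℕ) :
    TateExceptional X d N R κ r := by
  obtain ⟨U, hU⟩ := exists_ultra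
  choose x hx using fun (a : ℕ) (π : Mono K) =>
    exists_lim (U := U) (hU (yM_bdd (X := X) (d := d) (N := N) a π))
  have hR' := rest_all hR
  have hG := (gramForm_tup hU hR' hx).comp (fun D : ProdData X d N => D.tuple)
  obtain ⟨S, hS, hS2⟩ := hG.exceptional r 1 le_rfl
  refine ⟨S, by simpa using hS, fun D h1 h2 => ?_⟩
  have h3 := hS2 D h1 h2
  simp only [Nat.cast_one, div_one] at h3
  have h4 := prodD_lim D hU x fun p _ π _ => hx p.1 π
  refine ⟨?_, fun k hk => order_of_lim D hU h4 h3 hk⟩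
  have h5 : ∀ᶠ ε in (U : Filter ℝ), |D.size ε - D.tate κ| < 1 :=
    (h4.sub tendsto_const_nhds).abs.eventually_lt_const h3
  exact (h5.frequently).filter_mono hU

/-- **The exceptional set for monomial representations, with continuations.** -/
theorem tate_monomial (hR : RestMoments X d N κ R) (H : ContinuationsAll X d N) :
    TateMonomial X d N R κ := by
  classical
  obtain ⟨U, hU⟩ := exists_ultra
  choose x hx using fun (a : ℕ) (π : Mono K) =>
    exists_lim (U := U) (hU (yM_bdd (X := X) (d := d) (N := N) a π))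
  have hR' := rest_all hR
  have hG := (gramForm_tup hU hR' hx).comp
    (fun q : {q : ℕ × Mono K // q.1 ≤ 2 * d ∧ q.2.inter q.2 = 1} => sg q.1.1 q.1.2)
  obtain ⟨S, hS, hS2⟩ := hG.exceptional 1 1 le_rfl
  refine ⟨S.image Subtype.val, Finset.card_image_le.trans (by simpa using hS), fun D hD => ?_⟩
  have hsg : ∀ (a : ℕ), a ≤ 2 * d → ∀ π : Mono K, tupleInter d κ (sg a π) =
      (κ a).inter (Finsupp.single π 1) := by
    intro a ha π
    unfold tupleInter
    rw [Finset.sum_eq_single (⟨a, by omega⟩ : Fin (2 * d + 1))]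
    · unfold sg
      simp only [if_true]
    · intro b _ hb
      have h : ¬ ((b : ℕ) = a) := fun h => hb (Fin.ext h)
      unfold sg
      rw [if_neg h]
      exact inter_zero _
    · intro h
      exact absurd (Finset.mem_univ _) h
  have hint : ∀ p ∈ degrees d D.e (2 * D.m), ∀ π ∈ (D.ρ p.2).support,
      Tendsto (yM X d N p.1 π) (𝓝[>] 0) (𝓝 ((κ p.1).inter (Finsupp.single π 1) : ℝ)) := by
    intro p hp π hπ
    obtain ⟨h1, h2⟩ := hD p hp π hπ
    have hp1 := (mem_degrees.1 hp).2.1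
    obtain ⟨B₁, k₁, h4, h5⟩ := H p.1 hp1 π h1
    have h6 := twist_limM hp1 h4 h5
    have h7 := tendsto_nhds_unique (h6.mono_left hU) (hx p.1 π)
    have h8 := hS2 ⟨(p.1, π), hp1, h1⟩ (by
      simp only
      rw [GT_sg hp1, if_pos rfl]
      exact_mod_cast h1.le) (by
      intro s hs
      simp only
      rw [GT_sg hp1]
      split_ifs with h
      · exact_mod_cast h2 s.1 (Finset.mem_image_of_mem _ hs) h.symm
      · rfl)
    simp only [Nat.cast_one, div_one] at h8
    rw [LT_sg x hp1, ← h7, hsg p.1 hp1] at h8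
    have e : (-(k₁ : ℝ)) - ((κ p.1).inter (Finsupp.single π 1) : ℝ) =
        ((-k₁ - (κ p.1).inter (Finsupp.single π 1) : ℤ) : ℝ) := by
      push_cast
      ring
    rw [e, ← Int.cast_abs] at h8
    have h9 : |-k₁ - (κ p.1).inter (Finsupp.single π 1)| < 1 := by exact_mod_cast h8
    have h10 := Int.abs_lt_one_iff.1 h9
    have h11 : (-(k₁ : ℝ)) = ((κ p.1).inter (Finsupp.single π 1) : ℝ) := by
      have : -k₁ = (κ p.1).inter (Finsupp.single π 1) := by linarith
      exact_mod_cast this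
    rw [h11] at h6
    exact h6
  have h1 := prodD_lim D (le_refl (𝓝[>] (0 : ℝ)))
    (fun a π => ((κ a).inter (Finsupp.single π 1) : ℝ)) hint
  have e1 : LT (fun a π => ((κ a).inter (Finsupp.single π 1) : ℝ)) d D.tuple = D.tate κ := by
    unfold LT ProdData.tate tupleInter
    push_cast
    exact Finset.sum_congr rfl fun a _ => (inter_eq_xV (κ a) a (D.tuple a)).symm
  rw [e1] at h1
  exact ⟨h1, fun k hk => order_of_lim D (le_refl (𝓝[>] (0 : ℝ))) h1 (by simp) hk⟩

end Pool.Agent.X298.HC
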