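import Pool.Agent.X298.HC.KDefs

/-!
# The pole at `s = m + 1` for `X × Y` and the potentially abelian part of `X`: the statements

`X` is a projective variety of dimension `d` over a number field `K`, with Betti numbers `N a`; `κ a` is a
virtual representation of the Weil group of `K` whose dual is a part of `H^a(X)`, for example the largest
such part or zero.
-/

set_option autoImplicit false

namespace Pool.Agent.X298.HC

open NumberField IsDedekindDomain Filter Topology Polynomial
open Pool.Agent.W353.EH (size HasOrder)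

section
variable {K : Type} [Field K] [NumberField K] {n : ℕ}

/-- For all degrees `a ≤ 2 d` the dual of `κ a` is a part of `H^a(X)`, and `R a` is the square of the
dimension of the rest, or the order of the pole of the `L`-function of the tensor square of the rest
(see `RestMoment`). -/
def RestMoments (X : Set (MvPolynomial (Fin n) (𝓞 K))) (d : ℕ) (N : ℕ → ℕ) (κ : ℕ → Virt K)
    (R : ℕ → ℕ) : Prop :=
  ∀ a ≤ 2 * d, RestMoment X d a (N a) (κ a) (R a)

open Classical in
/-- In `H^i(X × Y)` the group `H^a(X)` is paired with `H^{i-a}(Y)`, given by `ρ (i - a)`: the representation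
`ρ (i - a)` for all `a ≤ 2 d` with `0 ≤ i - a ≤ 2 e`, and zero for the other `a`. -/
noncomputable def pairTuple (d e i : ℕ) (ρ : ℕ → Virt K) (a : ℕ) : Virt K :=
  if (a, i - a) ∈ degrees d e i then ρ (i - a) else 0

/-- A variety `Y` over `K` with potentially abelian cohomology, given by the representations `ρ b`, a
number `m`, and Euler factors of `L(H^{2m}(X × Y), s)`. -/
structure ProdData (X : Set (MvPolynomial (Fin n) (𝓞 K))) (d : ℕ) (N : ℕ → ℕ) where
  /-- the number of the coordinates -/
  n' : ℕ
  /-- the equations of `Y` -/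
  Y : Set (MvPolynomial (Fin n') (𝓞 K))
  /-- the dimension of `Y` -/
  e : ℕ
  /-- the Betti numbers of `Y` -/
  M : ℕ → ℕ
  /-- the representations for the cohomology of `Y` -/
  ρ : ℕ → Virt K
  m : ℕ
  /-- the Euler factors of `L(H^{2m}(X × Y), s)` -/
  B : HeightOneSpectrum (𝓞 K) → ℂ[X]
  pot : IsPotAbelian Y e M ρ
  prod : IsProduct X d N Y e M (2 * m) 0 B

variable {X : Set (MvPolynomial (Fin n) (𝓞 K))} {d : ℕ} {N : ℕ → ℕ}

/-- The tuple of the representations `ρ (2m - a)`, `a ≤ 2 d`. -/
noncomputable def ProdData.tuple (D : ProdData X d N) : ℕ → Virt K :=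
  pairTuple d D.e (2 * D.m) D.ρ

/-- The number `∑ ⟨κ_a, ρ_b⟩` over all `a + b = 2m`: the number of the Tate classes in the part of
`H^{2m}(X × Y)(m)` given by the duals of the `κ a` and the cohomology of `Y`. -/
noncomputable def ProdData.tate (D : ProdData X d N) (κ : ℕ → Virt K) : ℤ :=
  tupleInter d κ D.tuple

/-- `log |L(H^{2m}(X × Y), m + 1 + ε)| / log(1/ε)`; it tends to the order of the pole at `s = m + 1`, if there
is a meromorphic continuation. -/
noncomputable def ProdData.size (D : ProdData X d N) (ε : ℝ) : ℝ :=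
  Pool.Agent.W353.EH.size (2 * D.m) 0 D.B ε

/-- `L(H^{2m}(X × Y), s)` has a meromorphic continuation to a neighbourhood of `m + 1`, with a pole of
order `r` at this point. -/
def ProdData.PoleOrder (D : ProdData X d N) (r : ℤ) : Prop :=
  HasOrder (2 * D.m) 0 D.B (-r)

end

section
variable {K : Type} [Field K] [NumberField K] {n : ℕ}
  (X : Set (MvPolynomial (Fin n) (𝓞 K))) (d : ℕ) (N R : ℕ → ℕ) (κ : ℕ → Virt K)

/-- For finitely many products and real `c_k`, with `h_k = (D k).tate κ`, the orders `r_k` of the poles and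
the inner products `q_kl` of the tuples: `(∑ c_k (r_k - h_k))² ≤ (∑ R a) ∑ c_k c_l q_kl`, if there are
continuations, and without continuation the same with `size` instead of `r_k`, up to `η`, for all small
`ε > 0`. -/
def TateGram : Prop :=
  ∀ (l : ℕ) (D : Fin l → ProdData X d N) (c : Fin l → ℝ),
    (∀ η : ℝ, 0 < η → ∀ᶠ ε : ℝ in 𝓝[>] 0,
      (∑ k, c k * ((D k).size ε - (D k).tate κ)) ^ 2 ≤
        ((∑ a ∈ Finset.range (2 * d + 1), R a : ℕ) : ℝ) *
          ∑ k, ∑ k', c k * c k' * (tupleInter d (D k).tuple (D k').tuple : ℝ) + η) ∧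
    ∀ r : Fin l → ℤ, (∀ k, (D k).PoleOrder (r k)) →
      (∑ k, c k * ((r k - (D k).tate κ : ℤ) : ℝ)) ^ 2 ≤
        ((∑ a ∈ Finset.range (2 * d + 1), R a : ℕ) : ℝ) *
          ∑ k, ∑ k', c k * c k' * (tupleInter d (D k).tuple (D k').tuple : ℝ)

/-- There are at most `r ∑ R a` exceptional products such that for all products with a tuple of norm at
most `r` that is orthogonal to those of the exceptional ones the order of the pole is `tate κ`, and
without continuation `size` differs from this number by less than one for arbitrarily small `ε > 0`. -/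
def TateExceptional (r : ℕ) : Prop :=
  ∃ S : Finset (ProdData X d N), S.card ≤ r * ∑ a ∈ Finset.range (2 * d + 1), R a ∧
    ∀ D : ProdData X d N, tupleInter d D.tuple D.tuple ≤ r →
      (∀ D' ∈ S, tupleInter d D.tuple D'.tuple = 0) →
      (∃ᶠ ε : ℝ in 𝓝[>] 0, |D.size ε - D.tate κ| < 1) ∧
      ∀ k : ℤ, D.PoleOrder k → k = D.tate κ

/-- All `L(H^a(X) ⊗ π, s)`, `a ≤ 2 d`, `π` monomial and irreducible, have meromorphic continuations to
neighbourhoods of `s = a/2 + 1`. -/
def ContinuationsAll : Prop :=
  ∀ a ≤ 2 * d, ∀ π : Mono K, π.inter π = 1 →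
    ∃ (B : HeightOneSpectrum (𝓞 π.F) → ℂ[X]) (k : ℤ),
      IsTwistBy X d a (N a) π B ∧ HasOrder a π.τ B k

/-- There is a set `S` of at most `∑ R a` pairs `(a, π)`, `π` monomial, such that for all products for
which the `ρ b` are combinations of monomial irreducible representations (any number of them) not
equivalent to a `π` with `(2m - b, π) ∈ S` the order of the pole is `tate κ`, and `size` tends to this
number. -/
def TateMonomial : Prop :=
  ∃ S : Finset (ℕ × Mono K), S.card ≤ ∑ a ∈ Finset.range (2 * d + 1), R a ∧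
    ∀ D : ProdData X d N,
      (∀ p ∈ degrees d D.e (2 * D.m), ∀ π ∈ (D.ρ p.2).support,
        π.inter π = 1 ∧ ∀ s ∈ S, s.1 = p.1 → π.inter s.2 = 0) →
      Tendsto D.size (𝓝[>] 0) (𝓝 (D.tate κ)) ∧ ∀ k : ℤ, D.PoleOrder k → k = D.tate κ

end

end Pool.Agent.X298.HC
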