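import Pool.Agent.X298.HC.KOne
import Pool.Agent.X298.HC.H2

/-! The size of `L₂` of the product with a variety whose Albanese variety has potential complex
multiplication. -/

set_option autoImplicit false
set_option linter.unusedSectionVars false
open Filter Topology NumberField Ideal IsDedekindDomain ComplexConjugate Polynomial

namespace Pool.Agent.X298.HC

open Pool.Agent.W540.BE Pool.Agent.H341R2
open Pool.Agent.W353.TP (HX push res)
open Pool.Agent.W353.NF (vx nm_vx vx_asIdeal)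
open Pool.Agent.W353.EF (IsFrobenius)
open Pool.Agent.W353.EH (edgePoint size HasOrder IsEulerSystem)
open Pool.Agent.W353.PV (Eig alp pick_spec)

variable {K : Type} [Field K] [NumberField K] {n n' : ℕ}
variable {X : Set (MvPolynomial (Fin n) (𝓞 K))} {d N₁ N₂ : ℕ}
  {Y : Set (MvPolynomial (Fin n') (𝓞 K))} {e M₁ M₂ : ℕ} {ρ : Virt K}

/-- the size of `L₂` of the product -/
theorem product2_sizeM (hd : 1 ≤ d) (he : 1 ≤ e) (hY : IsPot1 Y e M₁ ρ)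
    {B : HeightOneSpectrum (𝓞 K) → ℂ[X]} (hB : IsProduct2 X d N₁ N₂ Y e M₁ M₂ B)
    {BX BY : HeightOneSpectrum (𝓞 K) → ℂ[X]} (hX : IsEulerSystem X d 2 N₂ 0 BX)
    (hY2 : IsEulerSystem Y e 2 M₂ 0 BY) :
    (∀ᶠ ε : ℝ in 𝓝[>] 0, Pool.Agent.W353.EF.LFun B (edgePoint 2 0 + ε) ≠ 0) ∧
    Tendsto (fun ε : ℝ => yV X d (fun _ => N₁) 1 ρ ε -
      (size 2 0 B ε - size 2 0 BX ε - size 2 0 BY ε)) (𝓝[>] 0) (𝓝 0) := by
  classical
  have hN : NormSys (nx K) := normSysH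
  set γ : HeightOneSpectrum (𝓞 K) → (Fin N₂ ⊕ Fin M₂) ⊕ (Fin N₁ × Fin M₁) → ℂ := fun v =>
    Sum.elim (Sum.elim (alp X d 2 N₂ K v) (alp Y e 2 M₂ K v)) (fun c => alp X d 1 N₁ K v c.1 *
      alp Y e 1 M₁ K v c.2) with hγ
  have hg : ∀ᶠ v : HeightOneSpectrum (𝓞 K) in cofinite,
      Eig X d 1 v (alp X d 1 N₁ K v) ∧ Eig X d 2 v (alp X d 2 N₂ K v) ∧
      Eig Y e 2 v (alp Y e 2 M₂ K v) ∧ Eig Y e 1 v (alp Y e 1 M₁ K v) ∧
      (∑ l, alp Y e 1 M₁ K v l =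
        (Ideal.absNorm v.asIdeal : ℂ) ^ ((1 : ℂ) / 2) * ρ.trace v) ∧
      ∀ z : ℂ, (B v).eval z = ∏ c, (1 - γ v c * z) := by
    filter_upwards [hB.1, hY] with v hv hv2
    obtain ⟨α, g, β, δ, h1, h2, h3, h4, h5⟩ := hv
    obtain ⟨β', h6, h7⟩ := hv2
    have e1 : Eig X d 1 v (alp X d 1 N₁ K v) := pick_spec ⟨α, h1⟩
    have e2 : Eig X d 2 v (alp X d 2 N₂ K v) := pick_spec ⟨g, h2⟩
    have e3 : Eig Y e 2 v (alp Y e 2 M₂ K v) := pick_spec ⟨δ, h4⟩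
    have e4 : Eig Y e 1 v (alp Y e 1 M₁ K v) := pick_spec ⟨β, h3⟩
    have u6 : Eig Y e 1 v β' := h6
    refine ⟨e1, e2, e3, e4, ?_, fun z => ?_⟩
    · rw [← h7]
      exact congrArg Multiset.sum (e4.unique' (by omega) u6)
    rw [h5 z, Fintype.prod_sum_type, Fintype.prod_sum_type, Fintype.prod_prod_type]
    have u2 : Eig X d 2 v g := h2
    have u3 : Eig Y e 2 v δ := h4
    have u1 : Eig X d 1 v α := h1
    have u4 : Eig Y e 1 v β := h3
    have f2 := congrArg (fun s : Multiset ℂ => (s.map fun a => (1 - a * z)).prod)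
      (u2.unique' (by omega) e2)
    have f3 := congrArg (fun s : Multiset ℂ => (s.map fun a => (1 - a * z)).prod)
      (u3.unique' (by omega) e3)
    have f1 := congrArg (fun s : Multiset ℂ => (s.map fun x =>
      ((Finset.univ.val.map β).map fun y => (1 - x * y * z)).prod).prod)
      (u1.unique' (by omega) e1)
    simp only [Multiset.map_map] at f1 f2 f3
    have f2' : ∏ k, (1 - g k * z) = ∏ k, (1 - alp X d 2 N₂ K v k * z) := f2
    have f3' : ∏ k, (1 - δ k * z) = ∏ k, (1 - alp Y e 2 M₂ K v k * z) := f3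
    have f1' : ∏ k, ∏ l, (1 - α k * β l * z) =
        ∏ k, ∏ l, (1 - alp X d 1 N₁ K v k * β l * z) := f1
    rw [f1', f2', f3']
    congr 1
    refine Finset.prod_congr rfl fun k _ => ?_
    have e8 := congrArg (fun s : Multiset ℂ =>
      (s.map fun y => (1 - alp X d 1 N₁ K v k * y * z)).prod) (u4.unique' (by omega) e4)
    simp only [Multiset.map_map] at e8
    exact e8
  have hnorm : ∀ᶠ v in cofinite, ∀ c, ‖γ v c‖ = (nm K v : ℝ) ^ (((2 : ℕ) : ℝ) / 2) := by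
    filter_upwards [hg] with v h1
    have h0 : (0 : ℝ) < nm K v := by exact_mod_cast nm_pos v
    rintro ((k | k) | c)
    · exact h1.2.1.norm k
    · exact h1.2.2.1.norm k
    · rw [hγ]
      simp only [Sum.elim_inr]
      have e1 : ‖alp X d 1 N₁ K v c.1‖ = (nm K v : ℝ) ^ (((1 : ℕ) : ℝ) / 2) := h1.1.norm c.1
      have e2 : ‖alp Y e 1 M₁ K v c.2‖ = (nm K v : ℝ) ^ (((1 : ℕ) : ℝ) / 2) :=
        h1.2.2.2.1.norm c.2
      rw [norm_mul, e1, e2, ← Real.rpow_add h0]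
      congr 1
      push_cast
      ring
  have h := link (((2 : ℕ) : ℝ) / 2) 0 γ hnorm B (hg.mono fun v hv => hv.2.2.2.2.2) (by
    intro v
    rw [edge_eq]
    exact hB.2 v)
  simp only [edge_eq] at h
  refine ⟨h.1, ?_⟩
  have hx := (euler_size (by omega : 2 ≤ 2 * d) hX).2
  have hy := (euler_size (by omega : 2 ≤ 2 * e) hY2).2
  -- bounds
  have hb1 : ∀ x : HX K, |(tX X d 1 N₁ (vx x) * ρ.trace (vx x)).re| ≤ N₁ * ρ.bd := by
    intro x
    refine (Complex.abs_re_le_norm _).trans ?_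
    rw [norm_mul]
    exact mul_le_mul (norm_tX_le X d 1 N₁ _) (norm_trace_le _ x) (norm_nonneg _)
      (Nat.cast_nonneg _)
  have hb2 : ∀ v, |(tX X d 2 N₂ v * zt 0 v).re| ≤ N₂ := by
    intro v
    refine (Complex.abs_re_le_norm _).trans ?_
    rw [norm_mul, norm_zt, mul_one]
    exact norm_tX_le X d 2 N₂ v
  have hb3 : ∀ v, |(tX Y e 2 M₂ v * zt 0 v).re| ≤ M₂ := by
    intro v
    refine (Complex.abs_re_le_norm _).trans ?_
    rw [norm_mul, norm_zt, mul_one]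
    exact norm_tX_le Y e 2 M₂ v
  have hx2 := EP_vx (K := K) hb2
  have hy2 := EP_vx (K := K) hb3
  set g : HeightOneSpectrum (𝓞 K) → ℝ := fun v =>
    (T (((2 : ℕ) : ℝ) / 2) γ v * zt 0 v).re with hgdef
  have hgb : ∀ v, |g v| ≤ (Fintype.card ((Fin N₂ ⊕ Fin M₂) ⊕ (Fin N₁ × Fin M₁)) : ℝ) := by
    intro v
    refine (Complex.abs_re_le_norm _).trans ?_
    rw [norm_mul, norm_zt, mul_one]
    exact norm_T_le _ _ v
  have hg2 := EP_vx (K := K) hgb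
  set F : HX K → ℝ := fun x => (tX X d 1 N₁ (vx x) * ρ.trace (vx x)).re +
    ((tX X d 2 N₂ (vx x) * zt 0 (vx x)).re + (tX Y e 2 M₂ (vx x) * zt 0 (vx x)).re) with hF
  have hb23 : ∀ x : HX K, |(tX X d 2 N₂ (vx x) * zt 0 (vx x)).re +
      (tX Y e 2 M₂ (vx x) * zt 0 (vx x)).re| ≤ (N₂ : ℝ) + M₂ :=
    fun x => (abs_add_le _ _).trans (add_le_add (hb2 _) (hb3 _))
  have hFb : ∀ x, |F x| ≤ N₁ * ρ.bd + ((N₂ : ℝ) + M₂) :=
    fun x => (abs_add_le _ _).trans (add_le_add (hb1 x) (hb23 x))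
  have hae : Tendsto (fun ε : ℝ => (EP (nx K) ε F) / lam ε -
      (EP (nx K) ε fun x => g (vx x)) / lam ε) (𝓝[>] 0) (𝓝 0) := by
    refine EPH_ae hFb (fun x => hgb (vx x)) ?_
    have hcof := vx_injective.tendsto_cofinite.eventually (hg.and hnorm)
    filter_upwards [hcof] with x hx
    obtain ⟨h1, h2⟩ := hx
    have hqc : ((nm K (vx x) : ℕ) : ℂ) ≠ 0 := by exact_mod_cast (nm_pos (vx x)).ne'
    have n1 : ∀ j, ‖alp X d 1 N₁ K (vx x) j‖ = (nm K (vx x) : ℝ) ^ (((1 : ℕ) : ℝ) / 2) :=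
      fun j => h1.1.norm j
    have n2 : ∀ j, ‖alp X d 2 N₂ K (vx x) j‖ = (nm K (vx x) : ℝ) ^ (((2 : ℕ) : ℝ) / 2) :=
      fun j => h1.2.1.norm j
    have n3 : ∀ j, ‖alp Y e 2 M₂ K (vx x) j‖ = (nm K (vx x) : ℝ) ^ (((2 : ℕ) : ℝ) / 2) :=
      fun j => h1.2.2.1.norm j
    have hz : zt 0 (vx x) = 1 := by
      unfold zt
      simp
    have e1 : tX X d 1 N₁ (vx x) * ρ.trace (vx x) =
        (∑ k, ∑ l, alp X d 1 N₁ K (vx x) k * alp Y e 1 M₁ K (vx x) l) *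
          ((nm K (vx x) : ℕ) : ℂ) ^ (-((((2 : ℕ) : ℝ) / 2 : ℝ) : ℂ)) * zt 0 (vx x) := by
      rw [tX, T_mul n1, hz, mul_one]
      have e3 : ((nm K (vx x) : ℕ) : ℂ) ^ (-((((2 : ℕ) : ℝ) / 2 : ℝ) : ℂ)) *
          (Ideal.absNorm (vx x).asIdeal : ℂ) ^ ((1 : ℂ) / 2) =
          ((nm K (vx x) : ℕ) : ℂ) ^ (-((((1 : ℕ) : ℝ) / 2 : ℝ) : ℂ)) := by
        have : (Ideal.absNorm (vx x).asIdeal : ℂ) = ((nm K (vx x) : ℕ) : ℂ) := rfl
        rw [this, ← Complex.cpow_add _ _ hqc]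
        congr 1
        push_cast
        ring
      rw [← Finset.sum_mul_sum, h1.2.2.2.2.1, ← e3]
      ring
    have t2 : tX X d 2 N₂ (vx x) = (∑ k, alp X d 2 N₂ K (vx x) k) *
        ((nm K (vx x) : ℕ) : ℂ) ^ (-((((2 : ℕ) : ℝ) / 2 : ℝ) : ℂ)) := T_mul n2
    have t3 : tX Y e 2 M₂ (vx x) = (∑ k, alp Y e 2 M₂ K (vx x) k) *
        ((nm K (vx x) : ℕ) : ℂ) ^ (-((((2 : ℕ) : ℝ) / 2 : ℝ) : ℂ)) := T_mul n3
    rw [hF, hgdef]
    simp only
    rw [T_mul h2, hγ]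
    simp only
    rw [Fintype.sum_sum_type, Fintype.sum_sum_type, Fintype.sum_prod_type]
    simp only [Sum.elim_inl, Sum.elim_inr]
    rw [t2, t3, e1, ← Complex.add_re, ← Complex.add_re]
    congr 1
    ring
  have h5 := ((((hae.add h.2).sub hg2).sub (hx.sub hx2)).sub (hy.sub hy2))
  simp only [add_zero, sub_zero] at h5
  refine h5.congr' ?_
  filter_upwards [self_mem_nhdsWithin] with ε hε
  have hε' : (0 : ℝ) < ε := hε
  have hsum : (EP (nx K) ε F) / lam ε = yV X d (fun _ => N₁) 1 ρ ε +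
      ((EP (nx K) ε fun x => (tX X d 2 N₂ (vx x) * zt 0 (vx x)).re) / lam ε +
      (EP (nx K) ε fun x => (tX Y e 2 M₂ (vx x) * zt 0 (vx x)).re) / lam ε) := by
    rw [hF, EP_add hN hε' hb1 hb23, EP_add hN hε' (fun x => hb2 (vx x)) (fun x => hb3 (vx x))]
    unfold yV
    ring
  rw [hsum]
  unfold size
  ring

end Pool.Agent.X298.HC
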