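import Pool.Agent.X298.HC.KAlb
import Pool.Agent.X298.HC.KPoleDefs

/-! The Gram inequality for tuples relative to the known part. -/

set_option autoImplicit false
set_option linter.unusedSectionVars false
open Filter Topology NumberField Ideal IsDedekindDomain ComplexConjugate Polynomial

namespace Pool.Agent.X298.HC

open Pool.Agent.W540.BE Pool.Agent.H341R2
open Pool.Agent.W353.TP (HX push res)
open Pool.Agent.W353.NF (vx nm_vx vx_asIdeal)
open Pool.Agent.W353.EH (edgePoint size HasOrder)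
open Pool.Agent.W353.EF (IsFrobenius)

variable {K : Type} [Field K] [NumberField K] {n : ℕ}
variable {X : Set (MvPolynomial (Fin n) (𝓞 K))} {d : ℕ} {N : ℕ → ℕ} {R : ℕ → ℕ}
  {κ : ℕ → Virt K}

/-- the second moments -/
lemma rest_all (hR : RestMoments X d N κ R) : ∀ δ : ℝ, 0 < δ →
    ∀ᶠ ε : ℝ in 𝓝[>] 0, ∑ a : Fin (2 * d + 1),
      (EP (nx K) ε fun x => ‖tK X d N a (κ a) x‖ ^ 2) / lam ε ≤
        ((∑ a ∈ Finset.range (2 * d + 1), R a : ℕ) : ℝ) + δ := by
  intro δ hδ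
  set c : ℝ := δ / (2 * d + 1) with hc
  have hc0 : 0 < c := by positivity
  have h1 : ∀ a : Fin (2 * d + 1), ∀ᶠ ε : ℝ in 𝓝[>] 0,
      (EP (nx K) ε fun x => ‖tK X d N a (κ a) x‖ ^ 2) / lam ε ≤ R a + c :=
    fun a => rest_bound (by omega) (hR a (by omega)) c hc0
  filter_upwards [Filter.eventually_all.2 h1] with ε h2
  refine (Finset.sum_le_sum fun a _ => h2 a).trans (le_of_eq ?_)
  rw [Finset.sum_add_distrib, Finset.sum_const, Finset.card_univ, Fintype.card_fin,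
    Finset.sum_range (fun a => R a)]
  push_cast
  rw [nsmul_eq_mul, hc]
  push_cast
  field_simp

/-- the mean of the rest -/
lemma mean_tK (a : ℕ) (κ ρ : Virt K) {ε : ℝ} (hε : 0 < ε) :
    (EP (nx K) ε fun x => (tK X d N a κ x * ρ.trace (vx x)).re) / lam ε = yV X d N a ρ ε -
      (EP (nx K) ε fun x => (conj (κ.trace (vx x)) * ρ.trace (vx x)).re) / lam ε := by
  have hN : NormSys (nx K) := normSysH
  have b2 : ∀ x : HX K, |(tX X d a (N a) (vx x) * ρ.trace (vx x)).re| ≤ N a * ρ.bd := by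
    intro x
    refine (Complex.abs_re_le_norm _).trans ?_
    rw [norm_mul]
    exact mul_le_mul (norm_tX_le X d a (N a) _) (norm_trace_le _ x) (norm_nonneg _)
      (Nat.cast_nonneg _)
  have b3 : ∀ x : HX K, |(-1) * (conj (κ.trace (vx x)) * ρ.trace (vx x)).re| ≤
      κ.bd * ρ.bd := by
    intro x
    rw [abs_mul, abs_neg, abs_one, one_mul]
    refine (Complex.abs_re_le_norm _).trans ?_
    rw [norm_mul, Complex.norm_conj]
    exact mul_le_mul (norm_trace_le _ x) (norm_trace_le _ x) (norm_nonneg _)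
      ((norm_nonneg _).trans (norm_trace_le κ x))
  have e2 : (fun x => (tK X d N a κ x * ρ.trace (vx x)).re) = fun x : HX K =>
      (tX X d a (N a) (vx x) * ρ.trace (vx x)).re +
      (-1) * (conj (κ.trace (vx x)) * ρ.trace (vx x)).re := by
    funext x
    unfold tK
    rw [sub_mul, Complex.sub_re]
    ring
  rw [e2, EP_add hN hε b2 b3, EP_const_mul]
  unfold yV
  ring

/-- **The Gram inequality for tuples, relative to the known part.** -/
theorem gram_tupleK {R : ℝ} {U : Ultrafilter ℝ} (hU : (U : Filter ℝ) ≤ 𝓝[>] 0)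
    (hR : ∀ δ : ℝ, 0 < δ → ∀ᶠ ε : ℝ in 𝓝[>] 0, ∑ a : Fin (2 * d + 1),
      (EP (nx K) ε fun x => ‖tK X d N a (κ a) x‖ ^ 2) / lam ε ≤ R + δ)
    {x : ℕ → Mono K → ℝ} (hx : ∀ a π, Tendsto (yM X d N a π) U (𝓝 (x a π)))
    {ι : Type*} [Fintype ι] (σ : ι → ℕ → Virt K) (c : ι → ℝ) :
    0 ≤ ∑ k, ∑ l, c k * c l * (tupleInter d (σ k) (σ l) : ℝ) ∧
    (∑ k, c k * (LT x d (σ k) - tupleInter d κ (σ k))) ^ 2 ≤
      R * ∑ k, ∑ l, c k * c l * (tupleInter d (σ k) (σ l) : ℝ) := by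
  classical
  set Bk : ι → ℝ := fun k => ∑ a : Fin (2 * d + 1), |((σ k a).bd)| with hBk
  refine engineA (K := K) (A := Fin (2 * d + 1)) hU (fun k a x => conj ((σ k a).trace (vx x)))
    Bk (fun k a x => ?_) (fun k l => (tupleInter d (σ k) (σ l) : ℝ)) (fun k l => ?_)
    (fun a x => tK X d N a (κ a) x) (b := ∑ a : Fin (2 * d + 1), |(N a : ℝ) + (κ a).bd|)
    (fun a x => ?_) (fun δ hδ => hU (hR δ hδ))
    (fun k => LT x d (σ k) - tupleInter d κ (σ k)) (fun k => ?_) c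
  · rw [Complex.norm_conj]
    refine (norm_trace_le _ x).trans ((le_abs_self _).trans ?_)
    exact Finset.single_le_sum (f := fun a : Fin (2 * d + 1) => |((σ k a).bd)|)
      (fun _ _ => abs_nonneg _) (Finset.mem_univ a)
  · have h1 : Tendsto (fun ε : ℝ => ∑ a : Fin (2 * d + 1), (EP (nx K) ε fun x =>
        (conj ((σ k a).trace (vx x)) * (σ l a).trace (vx x)).re) / lam ε) (𝓝[>] 0)
        (𝓝 (∑ a : Fin (2 * d + 1), ((σ k a).inter (σ l a) : ℝ))) :=
      tendsto_finsetSum _ fun a _ => gram_virt _ _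
    have e1 : (tupleInter d (σ k) (σ l) : ℝ) = ∑ a : Fin (2 * d + 1), ((σ k a).inter (σ l a) : ℝ) := by
      unfold tupleInter
      push_cast
      rfl
    rw [e1]
    refine (h1.mono_left hU).congr fun ε => ?_
    simp only [Complex.conj_conj]
  · refine (norm_tK_le a (κ a) _).trans ((le_abs_self _).trans ?_)
    exact Finset.single_le_sum (f := fun a : Fin (2 * d + 1) => |(N a : ℝ) + (κ a).bd|)
      (fun _ _ => abs_nonneg _) (Finset.mem_univ a)
  · have e1 : (tupleInter d κ (σ k) : ℝ) = ∑ a : Fin (2 * d + 1), ((κ a).inter (σ k a) : ℝ) := by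
      unfold tupleInter
      push_cast
      rfl
    have e2 : LT x d (σ k) - tupleInter d κ (σ k) =
        ∑ a : Fin (2 * d + 1), (xV x a (σ k a) - ((κ a).inter (σ k a) : ℝ)) := by
      rw [e1, Finset.sum_sub_distrib]
      rfl
    rw [e2]
    refine tendsto_finsetSum _ fun a _ => ?_
    have h1 := (yV_lim hU (ρ := σ k a) fun π _ => hx a π).sub
      ((gram_virt (κ a) (σ k a)).mono_left hU)
    refine h1.congr' ?_
    filter_upwards [hU self_mem_nhdsWithin] with ε hε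
    have hε' : (0 : ℝ) < ε := hε
    simp only [Complex.conj_conj]
    exact (mean_tK (X := X) (d := d) (N := N) (a : ℕ) (κ a) (σ k a) hε').symm

/-- the abstract form -/
theorem gramForm_tup {R : ℝ} {U : Ultrafilter ℝ} (hU : (U : Filter ℝ) ≤ 𝓝[>] 0)
    (hR : ∀ δ : ℝ, 0 < δ → ∀ᶠ ε : ℝ in 𝓝[>] 0, ∑ a : Fin (2 * d + 1),
      (EP (nx K) ε fun x => ‖tK X d N a (κ a) x‖ ^ 2) / lam ε ≤ R + δ)
    {x : ℕ → Mono K → ℝ} (hx : ∀ a π, Tendsto (yM X d N a π) U (𝓝 (x a π))) :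
    GramForm (ℕ → Virt K) (fun σ σ' => tupleInter d σ σ')
      (fun σ => LT x d σ - tupleInter d κ σ) R := by
  classical
  refine ⟨GT_comm, fun S c => ?_⟩
  have h := gram_tupleK hU hR hx (ι := {σ // σ ∈ S}) (fun s => s.1) (fun s => c s.1)
  have e1 : ∀ f : (ℕ → Virt K) → ℝ, ∑ s : {σ // σ ∈ S}, f s.1 = ∑ s ∈ S, f s :=
    fun f => Finset.sum_coe_sort S f
  have e2 : ∀ σ : ℕ → Virt K, ∑ l : {σ // σ ∈ S}, c σ * c l.1 * (tupleInter d σ l.1 : ℝ) =
      ∑ l ∈ S, c σ * c l * (tupleInter d σ l : ℝ) :=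
    fun σ => e1 (fun l => c σ * c l * (tupleInter d σ l : ℝ))
  rw [e1 (fun σ => c σ * (LT x d σ - tupleInter d κ σ)),
    e1 (fun σ => ∑ l : {σ // σ ∈ S}, c σ * c l.1 * (tupleInter d σ l.1 : ℝ)),
    Finset.sum_congr rfl fun σ _ => e2 σ] at h
  exact h

end Pool.Agent.X298.HC
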