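import Pool.Agent.X298.HC.Final

/-! The Künneth formula for the orders. -/

set_option autoImplicit false
set_option linter.unusedSectionVars false
open Filter Topology NumberField Ideal IsDedekindDomain ComplexConjugate Polynomial

namespace Pool.Agent.X298.HC

open Pool.Agent.W540.BE Pool.Agent.H341R2
open Pool.Agent.W353.EF (LFun)
open Pool.Agent.W353.EH (edgePoint size HasOrder IsEulerSystem)

variable {K : Type} [Field K] [NumberField K] {n : ℕ}
variable {X : Set (MvPolynomial (Fin n) (𝓞 K))} {d : ℕ} {N : ℕ → ℕ}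

/-- the exceptional set -/
theorem exists_S {R : ℕ → ℕ} (hR : SecondMoment X d N R) {U : Ultrafilter ℝ}
    (hU : (U : Filter ℝ) ≤ 𝓝[>] 0) (x : ℕ → HeckeChar K → ℝ → ℝ)
    (hx : ∀ a ψ τ, Tendsto (yX X d a (N a) ψ τ) U (𝓝 (x a ψ τ))) {δ : ℝ} (hδ : 0 < δ)
    (m : ℕ → ℕ) (hm : ∀ a, 2 * (R a : ℝ) ≤ m a * δ ^ 2) (A : Finset ℕ)
    (hA : ∀ a ∈ A, a ≤ 2 * d) :
    ∃ S : Finset (HeckeChar K × ℝ), S.card ≤ ∑ a ∈ A, m a ∧
      ∀ a ∈ A, ∀ (ψ : HeckeChar K) (τ : ℝ), (∀ s ∈ S, Distinct ψ s.1 τ s.2) →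
        |x a ψ τ| < δ := by
  classical
  have h1 : ∀ a : ℕ, ∃ S : Finset (HeckeChar K × ℝ), S.card ≤ m a ∧ (a ≤ 2 * d →
      ∀ (ψ : HeckeChar K) (τ : ℝ), (∀ s ∈ S, Distinct ψ s.1 τ s.2) → |x a ψ τ| < δ) := by
    intro a
    by_cases ha : a ≤ 2 * d
    swap
    · exact ⟨∅, by simp, fun h => absurd h ha⟩
    obtain ⟨S, -, -, h3, h4⟩ := exists_max
      (fun p q : HeckeChar K × ℝ => Distinct p.1 q.1 p.2 q.2) distinct_symm distinct_irrefl
      {p | δ ≤ |x a p.1 p.2|} (m a) (by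
        intro S hS hS2
        have h := card_large (X := X) (d := d) (a := a) (N := N a) (κ := {p // p ∈ S})
          (fun p => p.1.1) (fun p => p.1.2) (by
            intro k l hkl
            exact hS2 k.1 k.2 l.1 l.2 (fun h => hkl (Subtype.ext h))) hU
          (Nat.cast_nonneg (R a)) (second hR ha)
          (fun p => x a p.1.1 p.1.2) (fun p => hx a _ _) hδ (fun p => hS p.1 p.2)
        rw [Fintype.card_coe] at h
        have h5 : (S.card : ℝ) * δ ^ 2 ≤ m a * δ ^ 2 := h.trans (hm a)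
        have h6 : (S.card : ℝ) ≤ m a := le_of_mul_le_mul_right h5 (by positivity)
        exact_mod_cast h6)
    refine ⟨S, h3, fun _ ψ τ h => ?_⟩
    by_contra hcon
    push Not at hcon
    obtain ⟨s, hs, hs2⟩ := h4 (ψ, τ) hcon
    exact hs2 (h s hs)
  choose S hS1 hS2 using h1
  refine ⟨A.biUnion S, ?_, ?_⟩
  · exact Finset.card_biUnion_le.trans (Finset.sum_le_sum fun a _ => hS1 a)
  · intro a ha ψ τ h
    refine hS2 a (hA a ha) ψ τ fun s hs => h s ?_
    exact Finset.mem_biUnion.2 ⟨a, ha, hs⟩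

section
variable {n' : ℕ} {Y : Set (MvPolynomial (Fin n') (𝓞 K))} {e : ℕ} {M : ℕ → ℕ}
  {φ : ∀ b, Fin (M b) → HeckeChar K}

open scoped Classical in
/-- the contribution of the nontrivial characters -/
noncomputable def rest (x : ℕ → HeckeChar K → ℝ → ℝ) (d e : ℕ) (M : ℕ → ℕ)
    (φ : ∀ b, Fin (M b) → HeckeChar K) (i : ℕ) (τ : ℝ) : ℝ :=
  ∑ p ∈ degrees d e i, ∑ l ∈ Finset.univ.filter (fun l => ¬ (φ p.2 l).IsTrivial),
    x p.1 (φ p.2 l) τ

/-- the size of the product, minus the expected value -/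
theorem prod_lim (hY : IsHeckeType Y e M φ) {i : ℕ} {τ : ℝ}
    {B : HeightOneSpectrum (𝓞 K) → ℂ[X]} (hB : IsProduct X d N Y e M i τ B)
    (B' : ℕ → HeightOneSpectrum (𝓞 K) → ℂ[X])
    (hB' : ∀ p ∈ degrees d e i, trivials M φ p.2 ≠ 0 →
      IsEulerSystem X d p.1 (N p.1) τ (B' p.1)) {F : Filter ℝ} (hF : F ≤ 𝓝[>] 0)
    (x : ℕ → HeckeChar K → ℝ → ℝ)
    (hx : ∀ p ∈ degrees d e i, ∀ l, ¬ (φ p.2 l).IsTrivial →
      Tendsto (yX X d p.1 (N p.1) (φ p.2 l) τ) F (𝓝 (x p.1 (φ p.2 l) τ))) :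
    Tendsto (fun ε : ℝ => size i τ B ε -
      ∑ p ∈ degrees d e i, trivials M φ p.2 * size p.1 τ (B' p.1) ε) F
      (𝓝 (rest x d e M φ i τ)) := by
  classical
  have h1 := (product_size hY hB).2.mono_left hF
  -- trivial characters
  have h2 : ∀ p ∈ degrees d e i, Tendsto (fun ε : ℝ =>
      (∑ l ∈ Finset.univ.filter (fun l => (φ p.2 l).IsTrivial), yX X d p.1 (N p.1) (φ p.2 l) τ ε) -
        trivials M φ p.2 * size p.1 τ (B' p.1) ε) F (𝓝 0) := by
    intro p hp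
    obtain ⟨-, hp1, hp2⟩ := mem_degrees.1 hp
    have h3 : Tendsto (fun ε : ℝ => ∑ l ∈ Finset.univ.filter (fun l => (φ p.2 l).IsTrivial),
        (yX X d p.1 (N p.1) (φ p.2 l) τ ε - size p.1 τ (B' p.1) ε)) F (𝓝 0) := by
      have h4 : (0 : ℝ) = ∑ l ∈ Finset.univ.filter (fun l => (φ p.2 l).IsTrivial), 0 := by simp
      rw [h4]
      refine tendsto_finsetSum _ fun l hl => ?_
      rw [Finset.mem_filter] at hl
      have hne : trivials M φ p.2 ≠ 0 := by
        unfold trivials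
        rw [Finset.card_ne_zero]
        exact ⟨l, by rw [Finset.mem_filter]; exact hl⟩
      exact (twist_size hp1 (twist_of_euler hl.2 (hB' p hp hne))).2.mono_left hF
    refine h3.congr fun ε => ?_
    rw [Finset.sum_sub_distrib, Finset.sum_const, nsmul_eq_mul]
    rfl
  have h3 : Tendsto (fun ε : ℝ => ∑ p ∈ degrees d e i,
      ((∑ l ∈ Finset.univ.filter (fun l => (φ p.2 l).IsTrivial),
        yX X d p.1 (N p.1) (φ p.2 l) τ ε) -
        trivials M φ p.2 * size p.1 τ (B' p.1) ε)) F (𝓝 (∑ p ∈ degrees d e i, 0)) :=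
    tendsto_finsetSum _ h2
  rw [Finset.sum_const_zero] at h3
  have h4 : Tendsto (fun ε : ℝ => ∑ p ∈ degrees d e i,
      ∑ l ∈ Finset.univ.filter (fun l => ¬ (φ p.2 l).IsTrivial),
        yX X d p.1 (N p.1) (φ p.2 l) τ ε) F (𝓝 (rest x d e M φ i τ)) := by
    unfold rest
    refine tendsto_finsetSum _ fun p hp => tendsto_finsetSum _ fun l hl => ?_
    rw [Finset.mem_filter] at hl
    exact hx p hp l hl.2
  have h5 := (h3.add h4).sub h1
  rw [zero_add, sub_zero] at h5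
  refine h5.congr fun ε => ?_
  rw [Finset.sum_sub_distrib]
  have h6 : ∑ p ∈ degrees d e i, ∑ l, yX X d p.1 (N p.1) (φ p.2 l) τ ε =
      (∑ p ∈ degrees d e i, ∑ l ∈ Finset.univ.filter (fun l => (φ p.2 l).IsTrivial),
        yX X d p.1 (N p.1) (φ p.2 l) τ ε) +
      ∑ p ∈ degrees d e i, ∑ l ∈ Finset.univ.filter (fun l => ¬ (φ p.2 l).IsTrivial),
        yX X d p.1 (N p.1) (φ p.2 l) τ ε := by
    rw [← Finset.sum_add_distrib]
    refine Finset.sum_congr rfl fun p _ => ?_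
    rw [Finset.sum_filter_add_sum_filter_not]
  rw [h6]
  ring

/-- the contribution of the nontrivial characters is small -/
theorem rest_le (x : ℕ → HeckeChar K → ℝ → ℝ) {i : ℕ} {τ δ : ℝ}
    (h : ∀ p ∈ degrees d e i, ∀ l, ¬ (φ p.2 l).IsTrivial → |x p.1 (φ p.2 l) τ| ≤ δ) :
    |rest x d e M φ i τ| ≤ (∑ p ∈ degrees d e i, nontrivials M φ p.2 : ℕ) * δ := by
  classical
  unfold rest
  refine (Finset.abs_sum_le_sum_abs _ _).trans ?_
  rw [Nat.cast_sum, Finset.sum_mul]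
  refine Finset.sum_le_sum fun p hp => ?_
  refine (Finset.abs_sum_le_sum_abs _ _).trans ?_
  rw [← nsmul_eq_mul]
  refine Finset.sum_le_card_nsmul _ _ _ fun l hl => ?_
  rw [Finset.mem_filter] at hl
  exact h p hp l hl.2

/-- equality of the orders if the limit has absolute value less than one -/
theorem orders_eq (hY : IsHeckeType Y e M φ) {i : ℕ} {τ : ℝ}
    {B : HeightOneSpectrum (𝓞 K) → ℂ[X]} (hB : IsProduct X d N Y e M i τ B)
    (B' : ℕ → HeightOneSpectrum (𝓞 K) → ℂ[X])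
    (hB' : ∀ p ∈ degrees d e i, trivials M φ p.2 ≠ 0 →
      IsEulerSystem X d p.1 (N p.1) τ (B' p.1)) {F : Filter ℝ} [F.NeBot] (hF : F ≤ 𝓝[>] 0)
    {L : ℝ} (hL : |L| < 1)
    (h : Tendsto (fun ε : ℝ => size i τ B ε -
      ∑ p ∈ degrees d e i, trivials M φ p.2 * size p.1 τ (B' p.1) ε) F (𝓝 L))
    {k : ℤ} {k' : ℕ → ℤ} (hk : HasOrder i τ B k)
    (hk' : ∀ p ∈ degrees d e i, trivials M φ p.2 ≠ 0 → HasOrder p.1 τ (B' p.1) (k' p.1)) :
    k = ∑ p ∈ degrees d e i, trivials M φ p.2 * k' p.1 := by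
  have h1 := (size_lim (product_size hY hB).1 hk).mono_left hF
  have h2 : ∀ p ∈ degrees d e i, Tendsto (fun ε : ℝ =>
      (trivials M φ p.2 : ℝ) * size p.1 τ (B' p.1) ε) F
      (𝓝 ((trivials M φ p.2 : ℝ) * (-(k' p.1 : ℝ)))) := by
    intro p hp
    by_cases h0 : trivials M φ p.2 = 0
    · rw [h0]
      simp
    · obtain ⟨-, hp1, -⟩ := mem_degrees.1 hp
      classical
      have hne : (Finset.univ.filter fun l => (φ p.2 l).IsTrivial).Nonempty := by
        rw [← Finset.card_ne_zero]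
        exact h0
      obtain ⟨l, hl⟩ := hne
      rw [Finset.mem_filter] at hl
      have h3 := twist_size hp1 (twist_of_euler hl.2 (hB' p hp h0))
      exact ((size_lim h3.1 (hk' p hp h0)).mono_left hF).const_mul _
  have h3 := h1.sub (tendsto_finsetSum _ h2)
  have h4 := tendsto_nhds_unique h h3
  have h5 : L = ((-k + ∑ p ∈ degrees d e i, (trivials M φ p.2 : ℤ) * k' p.1 : ℤ) : ℝ) := by
    rw [h4]
    push_cast
    rw [sub_eq_add_neg, ← Finset.sum_neg_distrib]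
    congr 1
    exact Finset.sum_congr rfl fun p _ => by ring
  rw [h5, ← Int.cast_abs] at hL
  have h6 : |(-k + ∑ p ∈ degrees d e i, (trivials M φ p.2 : ℤ) * k' p.1)| < 1 := by
    exact_mod_cast hL
  have h7 := Int.abs_lt_one_iff.1 h6
  linarith

end

/-- **The Künneth formula, bounded number of characters.** -/
theorem kunneth_r (X : Set (MvPolynomial (Fin n) (𝓞 K))) (d : ℕ) (N R : ℕ → ℕ)
    (hR : SecondMoment X d N R) (A : Finset ℕ) (hA : ∀ a ∈ A, a ≤ 2 * d) (r : ℕ) :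
    ∃ S : Finset (HeckeChar K × ℝ), S.card ≤ 2 * (r + 1) ^ 2 * ∑ a ∈ A, R a ∧
      ∀ (n' : ℕ) (Y : Set (MvPolynomial (Fin n') (𝓞 K))) (e : ℕ) (M : ℕ → ℕ)
        (φ : ∀ b, Fin (M b) → HeckeChar K) (i : ℕ) (τ : ℝ), IsHeckeType Y e M φ →
        (∀ p ∈ degrees d e i, p.1 ∈ A) → ∑ p ∈ degrees d e i, nontrivials M φ p.2 ≤ r →
        (∀ p ∈ degrees d e i, ∀ l, ¬ (φ p.2 l).IsTrivial →
          ∀ s ∈ S, Distinct (φ p.2 l) s.1 τ s.2) →
        ∀ (B : HeightOneSpectrum (𝓞 K) → ℂ[X])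
          (B' : ℕ → HeightOneSpectrum (𝓞 K) → ℂ[X]), IsProduct X d N Y e M i τ B →
          (∀ p ∈ degrees d e i, trivials M φ p.2 ≠ 0 →
            IsEulerSystem X d p.1 (N p.1) τ (B' p.1)) →
          (∃ᶠ ε : ℝ in 𝓝[>] 0, |size i τ B ε -
            ∑ p ∈ degrees d e i, trivials M φ p.2 * size p.1 τ (B' p.1) ε| < 1) ∧
          ∀ (k : ℤ) (k' : ℕ → ℤ), HasOrder i τ B k →
            (∀ p ∈ degrees d e i, trivials M φ p.2 ≠ 0 → HasOrder p.1 τ (B' p.1) (k' p.1)) →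
            k = ∑ p ∈ degrees d e i, trivials M φ p.2 * k' p.1 := by
  obtain ⟨U, hU⟩ := exists_ultra
  choose x hx using fun (a : ℕ) (ψ : HeckeChar K) (τ : ℝ) =>
    exists_lim (U := U) (hU (yX_bdd X d a (N a) ψ τ))
  have hδ : (0 : ℝ) < 1 / ((r : ℝ) + 1) := by positivity
  obtain ⟨S, hS1, hS2⟩ := exists_S (X := X) (d := d) (N := N) hR hU x hx hδ
    (fun a => 2 * (r + 1) ^ 2 * R a) (by
      intro a
      push_cast
      have : ((r : ℝ) + 1) ≠ 0 := by positivity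
      apply le_of_eq
      field_simp) A hA
  refine ⟨S, ?_, ?_⟩
  · refine hS1.trans (le_of_eq ?_)
    rw [Finset.mul_sum]
  · intro n' Y e M φ i τ hY hAi hr hφ B B' hB hB'
    have h1 := prod_lim hY hB B' hB' hU x (fun p _ l _ => hx p.1 (φ p.2 l) τ)
    have h2 : |rest x d e M φ i τ| < 1 := by
      have h3 := rest_le (d := d) (e := e) (M := M) (φ := φ) x (i := i) (τ := τ)
        (δ := 1 / ((r : ℝ) + 1)) (by
        intro p hp l hl
        exact (hS2 p.1 (hAi p hp) (φ p.2 l) τ (hφ p hp l hl)).le)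
      refine h3.trans_lt ?_
      have h4 : ((∑ p ∈ degrees d e i, nontrivials M φ p.2 : ℕ) : ℝ) ≤ r := by exact_mod_cast hr
      calc ((∑ p ∈ degrees d e i, nontrivials M φ p.2 : ℕ) : ℝ) * (1 / ((r : ℝ) + 1))
          ≤ r * (1 / ((r : ℝ) + 1)) := mul_le_mul_of_nonneg_right h4 hδ.le
        _ < 1 := by
            rw [mul_one_div, div_lt_one (by positivity)]
            linarith
    refine ⟨?_, fun k k' hk hk' => orders_eq hY hB B' hB' hU h2 h1 hk hk'⟩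
    have h3 : ∀ᶠ ε in (U : Filter ℝ), |size i τ B ε -
        ∑ p ∈ degrees d e i, trivials M φ p.2 * size p.1 τ (B' p.1) ε| < 1 :=
      h1.abs.eventually_lt_const h2
    exact (h3.frequently).filter_mono hU

/-- **The Künneth formula for all products**, if there are continuations. -/
theorem kunneth_all (X : Set (MvPolynomial (Fin n) (𝓞 K))) (d : ℕ) (N R : ℕ → ℕ)
    (hR : SecondMoment X d N R) (A : Finset ℕ) (hA : ∀ a ∈ A, a ≤ 2 * d) (Θ : Set ℝ)
    (H : ∀ a ∈ A, ∀ (ψ : HeckeChar K), ∀ τ ∈ Θ,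
      ∃ (B : HeightOneSpectrum (𝓞 K) → ℂ[X]) (k : ℤ),
      IsTwist X d a (N a) ψ τ B ∧ HasOrder a τ B k) :
    ∃ S : Finset (HeckeChar K × ℝ), S.card ≤ 2 * ∑ a ∈ A, R a ∧
      ∀ (n' : ℕ) (Y : Set (MvPolynomial (Fin n') (𝓞 K))) (e : ℕ) (M : ℕ → ℕ)
        (φ : ∀ b, Fin (M b) → HeckeChar K) (i : ℕ), ∀ τ ∈ Θ, IsHeckeType Y e M φ →
        (∀ p ∈ degrees d e i, p.1 ∈ A) →
        (∀ p ∈ degrees d e i, ∀ l, ¬ (φ p.2 l).IsTrivial →
          ∀ s ∈ S, Distinct (φ p.2 l) s.1 τ s.2) →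
        ∀ (B : HeightOneSpectrum (𝓞 K) → ℂ[X])
          (B' : ℕ → HeightOneSpectrum (𝓞 K) → ℂ[X]), IsProduct X d N Y e M i τ B →
          (∀ p ∈ degrees d e i, trivials M φ p.2 ≠ 0 →
            IsEulerSystem X d p.1 (N p.1) τ (B' p.1)) →
          Tendsto (fun ε : ℝ => size i τ B ε -
            ∑ p ∈ degrees d e i, trivials M φ p.2 * size p.1 τ (B' p.1) ε) (𝓝[>] 0) (𝓝 0) ∧
          ∀ (k : ℤ) (k' : ℕ → ℤ), HasOrder i τ B k →
            (∀ p ∈ degrees d e i, trivials M φ p.2 ≠ 0 → HasOrder p.1 τ (B' p.1) (k' p.1)) →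
            k = ∑ p ∈ degrees d e i, trivials M φ p.2 * k' p.1 := by
  obtain ⟨U, hU⟩ := exists_ultra
  choose x hx using fun (a : ℕ) (ψ : HeckeChar K) (τ : ℝ) =>
    exists_lim (U := U) (hU (yX_bdd X d a (N a) ψ τ))
  obtain ⟨S, hS1, hS2⟩ := exists_S (X := X) (d := d) (N := N) hR hU x hx one_pos
    (fun a => 2 * R a) (by
      intro a
      push_cast
      apply le_of_eq
      ring) A hA
  refine ⟨S, ?_, ?_⟩
  · refine hS1.trans (le_of_eq ?_)
    rw [Finset.mul_sum]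
  · intro n' Y e M φ i τ hτ hY hAi hφ B B' hB hB'
    -- the limits are integers
    have hint : ∀ a ∈ A, ∀ ψ : HeckeChar K, (∀ s ∈ S, Distinct ψ s.1 τ s.2) →
        Tendsto (yX X d a (N a) ψ τ) (𝓝[>] 0) (𝓝 0) := by
      intro a ha ψ hψ
      obtain ⟨B₁, k₁, h1, h2⟩ := H a ha ψ τ hτ
      have h3 := twist_lim (hA a ha) h1 h2
      have h4 := tendsto_nhds_unique (h3.mono_left hU) (hx a ψ τ)
      have h5 := hS2 a ha ψ τ hψ
      rw [← h4, abs_neg, ← Int.cast_abs] at h5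
      have h6 : |k₁| < 1 := by exact_mod_cast h5
      have h7 := Int.abs_lt_one_iff.1 h6
      rw [h7] at h3
      simpa using h3
    have h1 := prod_lim hY hB B' hB' (le_refl (𝓝[>] (0 : ℝ))) (fun _ _ _ => 0) (by
      intro p hp l hl
      exact hint p.1 (hAi p hp) (φ p.2 l) (hφ p hp l hl))
    have h2 : rest (fun _ _ _ => 0) d e M φ i τ = 0 := by
      unfold rest
      simp
    rw [h2] at h1
    exact ⟨h1, fun k k' hk hk' => orders_eq hY hB B' hB' (le_refl (𝓝[>] (0 : ℝ)))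
      (by simp) h1 hk hk'⟩

end Pool.Agent.X298.HC
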