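import Pool.Agent.X298.HC.SDefs
import Pool.Agent.X298.HC.KDefs

/-!
# Products with varieties over extensions whose Albanese variety has potential complex multiplication:
definitions
-/

set_option autoImplicit false

namespace Pool.Agent.X298.HC

open NumberField IsDedekindDomain Filter Topology Polynomial
open Pool.Agent.W353.EF (IsFrobenius LFun)
open Pool.Agent.W353.EH (edgePoint size HasOrder IsEulerSystem)

section
variable (K : Type) [Field K] {E : Type} [Field E] [NumberField E] [Algebra K E]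

/-- The representation of the Weil group of `K` induced from the monomial representation `Ind ψ N^{-iτ}` of
the Weil group of `E`: it is given by the same Hecke character `ψ` of the same extension of `E`. -/
def Mono.ind (π : Mono E) : Mono K :=
  letI : Algebra K π.F := ((algebraMap E π.F).comp (algebraMap K E)).toAlgebra
  ⟨π.F, π.ψ, π.τ⟩

/-- The virtual representation of the Weil group of `K` induced from the virtual representation `ρ` of the
Weil group of `E`. -/
noncomputable def Virt.ind (ρ : Virt E) : Virt K := ρ.mapDomain (Mono.ind K)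

end

section
variable {K : Type} [Field K] [NumberField K] {E : Type} [Field E] [NumberField E] [Algebra K E]
  {n n' : ℕ}

/-- The polynomials `B v`, `v` a prime of `E`, are the Euler factors of `L(H^i(X_E) ⊗ H^i(X_E), s)`:
`B_v(z) = ∏ (1 - α_j α_k z)` for almost all `v`; the others are arbitrary, without a pole of
`1 / B_v(q_v^{-s})` at `s = i + 1 = edgePoint (2 i) 0`. -/
def IsSquareOver (X : Set (MvPolynomial (Fin n) (𝓞 K))) (d i N : ℕ)
    (B : HeightOneSpectrum (𝓞 E) → ℂ[X]) : Prop :=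
  (∀ᶠ v in cofinite, ∃ α : Fin N → ℂ, IsFrobenius X d i v α ∧
    ∀ z : ℂ, (B v).eval z = ∏ j, ∏ k, (1 - α j * α k * z)) ∧
  ∀ v, (B v).eval ((Ideal.absNorm v.asIdeal : ℂ) ^ (-edgePoint (2 * i) 0)) ≠ 0

/-- The polynomials `B v`, `v` a prime of `E`, are the Euler factors of
`L₂(s, X_E × Y) = L(H²(X_E × Y), s)` for geometrically connected `X` over `K` and `Y` over `E`, by the
theorem of Künneth: for almost all primes `v`, `B_v(z) = ∏ (1 - γ_k z) ∏ (1 - δ_l z) ∏ (1 - α_j β_l z)`,
where `α_j`, `γ_k` are the eigenvalues of Frobenius on `H¹(X_E)`, `H²(X_E)`, and `β_l`, `δ_l` those on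
`H¹(Y)`, `H²(Y)`.  At the other primes `B v` is an arbitrary polynomial, and no factor
`1 / B_v(q_v^{-s})` has a pole at `s = 2 = edgePoint 2 0`. -/
def IsProduct2Over (X : Set (MvPolynomial (Fin n) (𝓞 K))) (d N₁ N₂ : ℕ)
    (Y : Set (MvPolynomial (Fin n') (𝓞 E))) (e M₁ M₂ : ℕ)
    (B : HeightOneSpectrum (𝓞 E) → ℂ[X]) : Prop :=
  (∀ᶠ v in cofinite, ∃ (α : Fin N₁ → ℂ) (γ : Fin N₂ → ℂ) (β : Fin M₁ → ℂ) (δ : Fin M₂ → ℂ),
    IsFrobenius X d 1 v α ∧ IsFrobenius X d 2 v γ ∧ IsFrobenius Y e 1 v β ∧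
    IsFrobenius Y e 2 v δ ∧ ∀ z : ℂ, (B v).eval z =
      (∏ k, (1 - γ k * z)) * (∏ l, (1 - δ l * z)) * ∏ j, ∏ l, (1 - α j * β l * z)) ∧
  ∀ v, (B v).eval ((Ideal.absNorm v.asIdeal : ℂ) ^ (-edgePoint 2 0)) ≠ 0

/-- The dual of `κ` is a part of `H^1(X)` and `R` is the square of the dimension of the rest; or `κ = 0` and
`R` is the order of the pole of `L(H^1(X_E) ⊗ H^1(X_E), s)` at `s = 2`, if there is a meromorphic
continuation to a neighbourhood of this point. -/
def RestMomentOver (X : Set (MvPolynomial (Fin n) (𝓞 K))) (d N₁ : ℕ) (κ : Virt K)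
    (E : Type) [Field E] [NumberField E] [Algebra K E] (R : ℕ) : Prop :=
  (∃ s : ℕ, IsPart X d 1 N₁ s κ ∧ R = s ^ 2) ∨
  (κ = 0 ∧ ∃ B : HeightOneSpectrum (𝓞 E) → ℂ[X],
    IsSquareOver X d 1 N₁ B ∧ HasOrder (2 * 1) 0 B (-(R : ℤ)))

end

/-- A finite extension `E` of `K` and a variety `Y` over `E` whose Albanese variety has potential complex
multiplication, with the Euler factors of `L₂` for `X_E`, `Y` and `X_E × Y`. -/
structure AlbDataOver {K : Type} [Field K] [NumberField K] {n : ℕ}
    (X : Set (MvPolynomial (Fin n) (𝓞 K))) (d N₁ N₂ : ℕ) where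
  /-- the extension of `K` -/
  E : Type
  [field : Field E]
  [numberField : NumberField E]
  [algebra : Algebra K E]
  /-- the number of the coordinates -/
  n' : ℕ
  /-- the equations of `Y` -/
  Y : Set (MvPolynomial (Fin n') (𝓞 E))
  /-- the dimension of `Y` -/
  e : ℕ
  /-- the first Betti number of `Y` -/
  M₁ : ℕ
  /-- the second Betti number of `Y` -/
  M₂ : ℕ
  /-- the representation of the Weil group of `E` for `H^1(Y)` -/
  ρ : Virt E
  /-- the Euler factors of `L₂` for `X_E` -/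
  BX : HeightOneSpectrum (𝓞 E) → ℂ[X]
  /-- the Euler factors of `L₂` for `Y` -/
  BY : HeightOneSpectrum (𝓞 E) → ℂ[X]
  /-- the Euler factors of `L₂` for `X_E × Y` -/
  B : HeightOneSpectrum (𝓞 E) → ℂ[X]
  pos : 1 ≤ e
  pot : IsPot1 Y e M₁ ρ
  eulerX : IsEulerSystem X d 2 N₂ 0 BX
  eulerY : IsEulerSystem Y e 2 M₂ 0 BY
  prod : IsProduct2Over X d N₁ N₂ Y e M₁ M₂ B

attribute [instance] AlbDataOver.field AlbDataOver.numberField AlbDataOver.algebra

section
variable {K : Type} [Field K] [NumberField K] {n : ℕ}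
  {X : Set (MvPolynomial (Fin n) (𝓞 K))} {d N₁ N₂ : ℕ}

/-- The representation of the Weil group of `K` induced from the one for `H^1(Y)`. -/
noncomputable def AlbDataOver.rep (D : AlbDataOver X d N₁ N₂) : Virt K := D.ρ.ind K

/-- `log |L₂(2 + ε)| / log(1/ε)` for `X_E × Y`, minus the same for `X_E`, minus the same for `Y`; it tends
to `r(X_E × Y) - r(X_E) - r(Y)` for the orders `r` of the poles at `s = 2`, if there are
continuations. -/
noncomputable def AlbDataOver.defect (D : AlbDataOver X d N₁ N₂) (ε : ℝ) : ℝ :=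
  size 2 0 D.B ε - size 2 0 D.BX ε - size 2 0 D.BY ε

/-- The functions `L₂` for `X_E`, `Y` and `X_E × Y` have meromorphic continuations to neighbourhoods of
`s = 2`, and `r(X_E × Y) - r(X_E) - r(Y) = m` for the orders `r` of the poles at this point. -/
def AlbDataOver.HasDefect (D : AlbDataOver X d N₁ N₂) (m : ℤ) : Prop :=
  ∃ rX rY r : ℤ, HasOrder 2 0 D.BX (-rX) ∧ HasOrder 2 0 D.BY (-rY) ∧ HasOrder 2 0 D.B (-r) ∧
    m = r - rX - rY

/-- At almost all primes outside `A` the trace of the representation of the Weil group of `K` induced from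
the one for `H^1(Y)` is zero.  (If `Y` is a variety over `K` itself, this is the trace of Frobenius on
`H^1(Y)`, up to the factor `q_v^{1/2}`.) -/
def AlbDataOver.SupportedOn (D : AlbDataOver X d N₁ N₂) (A : Set (HeightOneSpectrum (𝓞 K))) :
    Prop :=
  ∀ᶠ v : HeightOneSpectrum (𝓞 K) in cofinite, v ∉ A → D.rep.trace v = 0

end

section
variable {K : Type} [Field K] [NumberField K] {n : ℕ}
  (X : Set (MvPolynomial (Fin n) (𝓞 K))) (d N₁ N₂ : ℕ) (κ : Virt K)
  (A : Set (HeightOneSpectrum (𝓞 K))) (R : ℝ)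

/-- For finitely many `(E_k, Y_k)` with traces vanishing outside `A` and real `c_k`, with `h_k` the
intertwining number of `κ` and `Ind ρ_k` (the rank of `Hom(A, Alb Y_k)` over `E_k` if `κ` is given by the
abelian variety `A`), and `q_kl` the one of `Ind ρ_k` and `Ind ρ_l`:
`(∑ c_k (defect_k(ε) - h_k))² ≤ R ∑ c_k c_l q_kl + η` for every `η > 0` and all small `ε > 0`, and
`(∑ c_k (m_k - h_k))² ≤ R ∑ c_k c_l q_kl` for `m_k = r(X × Y_k) - r(X) - r(Y_k)`, if there are
continuations. -/
def AlbSparseGram : Prop :=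
  ∀ (l : ℕ) (D : Fin l → AlbDataOver X d N₁ N₂) (c : Fin l → ℝ), (∀ k, (D k).SupportedOn A) →
    (∀ η : ℝ, 0 < η → ∀ᶠ ε : ℝ in 𝓝[>] 0,
      (∑ k, c k * ((D k).defect ε - κ.inter (D k).rep)) ^ 2 ≤
        R * ∑ k, ∑ k', c k * c k' * ((D k).rep.inter (D k').rep : ℝ) + η) ∧
    ∀ m : Fin l → ℤ, (∀ k, (D k).HasDefect (m k)) →
      (∑ k, c k * ((m k - κ.inter (D k).rep : ℤ) : ℝ)) ^ 2 ≤
        R * ∑ k, ∑ k', c k * c k' * ((D k).rep.inter (D k').rep : ℝ)

/-- If the traces vanish outside `A` and `R q < 1` for the intertwining number `q` of `Ind ρ` with itself,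
then `r(X_E × Y) = r(X_E) + r(Y) + h`, if there are continuations, and without continuations the defect
differs from `h` by at most a number less than one, for all small `ε > 0`. -/
def AlbSparseExact : Prop :=
  ∀ D : AlbDataOver X d N₁ N₂, D.SupportedOn A → R * D.rep.inter D.rep < 1 →
    (∃ c : ℝ, c < 1 ∧ ∀ᶠ ε : ℝ in 𝓝[>] 0, |D.defect ε - κ.inter D.rep| ≤ c) ∧
    ∀ m : ℤ, D.HasDefect m → m = κ.inter D.rep

/-- For all `r` and `k ≥ 1` there are at most `k² r R` exceptional pairs `(E_s, Y_s)` such that for all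
pairs `(E, Y)` with traces vanishing outside `A` for which `Ind ρ` has norm at most `r` and is orthogonal
to the `Ind ρ_s` the formula `r(X_E × Y) = r(X_E) + r(Y) + h` holds, if there are continuations, and
without continuations the defect differs from `h` by less than `1/k` for arbitrarily small `ε > 0`. -/
def AlbSparseExceptional : Prop :=
  ∀ r k : ℕ, 1 ≤ k → ∃ S : Finset (AlbDataOver X d N₁ N₂), (S.card : ℝ) ≤ k ^ 2 * r * R ∧
    ∀ D : AlbDataOver X d N₁ N₂, D.SupportedOn A → D.rep.inter D.rep ≤ r →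
      (∀ D' ∈ S, D.rep.inter D'.rep = 0) →
      (∃ᶠ ε : ℝ in 𝓝[>] 0, |D.defect ε - κ.inter D.rep| < 1 / k) ∧
      ∀ m : ℤ, D.HasDefect m → m = κ.inter D.rep

/-- The three statements together. -/
def AlbSparseAll : Prop :=
  AlbSparseGram X d N₁ N₂ κ A R ∧ AlbSparseExact X d N₁ N₂ κ A R ∧
    AlbSparseExceptional X d N₁ N₂ κ A R

end

end Pool.Agent.X298.HC
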