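import Pool.Agent.X298.HC.LSize

/-! Products with varieties over extensions: the theorems. -/

set_option autoImplicit false
set_option linter.unusedSectionVars false
open Filter Topology NumberField Ideal IsDedekindDomain ComplexConjugate Polynomial

namespace Pool.Agent.X298.HC

open Pool.Agent.W540.BE Pool.Agent.H341R2
open Pool.Agent.W353.TP (HX push res)
open Pool.Agent.W353.NF (vx nm_vx vx_asIdeal)
open Pool.Agent.W353.EF (IsFrobenius)
open Pool.Agent.W353.EH (edgePoint size HasOrder IsEulerSystem)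
open Pool.Agent.W353.PV (Eig alp pick_spec)

section
variable {K : Type} [Field K] [NumberField K] {n : ℕ}
variable {X : Set (MvPolynomial (Fin n) (𝓞 K))} {d N₁ N₂ : ℕ} {κ : Virt K}

/-- the rest is bounded by its dimension -/
lemma norm_restX_le {a N : ℕ} (ha : a ≤ 2 * d) {s : ℕ} (h : IsPart X d a N s κ) :
    ∀ᶠ x : HX K in cofinite, ‖tR (fun x : HX K => tX X d a N (vx x)) κ x‖ ≤ s := by
  have hcof : ∀ᶠ x : HX K in cofinite, ∃ (α : Fin N → ℂ) (J : Finset (Fin N)),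
      IsFrobenius X d a (vx x) α ∧ J.card = s ∧
      ∑ j ∈ Jᶜ, α j = (Ideal.absNorm (vx x).asIdeal : ℂ) ^ ((a : ℂ) / 2) *
        conj (κ.trace (vx x)) := vx_injective.tendsto_cofinite.eventually h
  filter_upwards [hcof] with x hx
  obtain ⟨α, J, e1, e2, e3⟩ := hx
  have e1' : Eig X d a (vx x) α := e1
  have e4 : Eig X d a (vx x) (alp X d a N K (vx x)) := pick_spec ⟨α, e1⟩
  have hq0 : (0 : ℝ) < nm K (vx x) := by exact_mod_cast nm_pos (vx x)
  have hqc : ((nm K (vx x) : ℕ) : ℂ) ≠ 0 := by exact_mod_cast (nm_pos (vx x)).ne'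
  have e5 : ∀ j, ‖alp X d a N K (vx x) j‖ = (nm K (vx x) : ℝ) ^ ((a : ℝ) / 2) :=
    fun j => e4.norm j
  have e6 : ∑ j, alp X d a N K (vx x) j = ∑ j, α j :=
    congrArg Multiset.sum (e4.unique' ha e1')
  have e7 : tX X d a N (vx x) = (∑ j, α j) * ((nm K (vx x) : ℕ) : ℂ) ^
      (-(((a : ℝ) / 2 : ℝ) : ℂ)) := by
    have : tX X d a N (vx x) = (∑ j, alp X d a N K (vx x) j) *
      ((nm K (vx x) : ℕ) : ℂ) ^ (-(((a : ℝ) / 2 : ℝ) : ℂ)) := T_mul e5
    rw [this, e6]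
  have e8 : ((nm K (vx x) : ℕ) : ℂ) ^ ((a : ℂ) / 2) * ((nm K (vx x) : ℕ) : ℂ) ^
      (-(((a : ℝ) / 2 : ℝ) : ℂ)) = 1 := by
    rw [← Complex.cpow_add _ _ hqc]
    have : (a : ℂ) / 2 + -(((a : ℝ) / 2 : ℝ) : ℂ) = 0 := by
      push_cast
      ring
    rw [this, Complex.cpow_zero]
  have e9 : (Ideal.absNorm (vx x).asIdeal : ℂ) = ((nm K (vx x) : ℕ) : ℂ) := rfl
  have e10 : tR (fun x : HX K => tX X d a N (vx x)) κ x = (∑ j ∈ J, α j) *
      ((nm K (vx x) : ℕ) : ℂ) ^ (-(((a : ℝ) / 2 : ℝ) : ℂ)) := by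
    unfold tR
    simp only
    rw [e7, ← Finset.sum_add_sum_compl J α, e3, e9, add_mul]
    have : ((nm K (vx x) : ℕ) : ℂ) ^ ((a : ℂ) / 2) * conj (κ.trace (vx x)) *
        ((nm K (vx x) : ℕ) : ℂ) ^ (-(((a : ℝ) / 2 : ℝ) : ℂ)) = conj (κ.trace (vx x)) := by
      rw [mul_assoc, mul_comm (conj (κ.trace (vx x))), ← mul_assoc, e8, one_mul]
    rw [this, add_sub_cancel_right]
  rw [e10, norm_mul, Complex.norm_natCast_cpow_of_pos (nm_pos (vx x))]
  have e12 : (-(((a : ℝ) / 2 : ℝ) : ℂ)).re = -((a : ℝ) / 2) := by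
    rw [Complex.neg_re, Complex.ofReal_re]
  rw [e12]
  have e13 : ‖∑ j ∈ J, α j‖ ≤ s * (nm K (vx x) : ℝ) ^ ((a : ℝ) / 2) := by
    refine (norm_sum_le _ _).trans (le_of_eq ?_)
    have : ∀ j ∈ J, ‖α j‖ = (nm K (vx x) : ℝ) ^ ((a : ℝ) / 2) := fun j _ => e1'.norm j
    rw [Finset.sum_congr rfl this, Finset.sum_const, e2, nsmul_eq_mul]
  calc _ ≤ (s * (nm K (vx x) : ℝ) ^ ((a : ℝ) / 2)) * (nm K (vx x) : ℝ) ^ (-((a : ℝ) / 2)) :=
        mul_le_mul_of_nonneg_right e13 (by positivity)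
    _ = s := by
        rw [mul_assoc, ← Real.rpow_add hq0, add_neg_cancel, Real.rpow_zero, mul_one]

/-- the limit of the defect -/
lemma defectO_lim (hd : 1 ≤ d) (D : AlbDataOver X d N₁ N₂) {m : ℤ} (h : D.HasDefect m) :
    Tendsto D.defect (𝓝[>] 0) (𝓝 (m : ℝ)) := by
  obtain ⟨rX, rY, r, h1, h2, h3, h4⟩ := h
  have h5 := ((size_lim (product2_sizeE (N₁ := N₁) hd D.pos D.pot D.prod D.eulerX
    D.eulerY).1 h3).sub (size_lim (euler_sizeE (by omega) D.eulerX).1 h1)).sub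
    (size_lim (euler_sizeE (by have := D.pos; omega) D.eulerY).1 h2)
  have e1 : (-((-r : ℤ) : ℝ) - -((-rX : ℤ) : ℝ) - -((-rY : ℤ) : ℝ)) = (m : ℝ) := by
    rw [h4]
    push_cast
    ring
  rw [e1] at h5
  exact h5

/-- **The theorem in terms of the second moment on `A`.** -/
theorem alb_sparse_all (hd : 1 ≤ d) {A : Set (HeightOneSpectrum (𝓞 K))} {R : ℝ} (hR0 : 0 ≤ R)
    (hR : ∀ δ : ℝ, 0 < δ → ∀ᶠ ε : ℝ in 𝓝[>] 0,
      (EP (nx K) ε fun x => ‖tA (fun x : HX K => tX X d 1 N₁ (vx x)) κ A x‖ ^ 2) / lam ε ≤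
        R + δ) : AlbSparseAll X d N₁ N₂ κ A R := by
  have ht : ∀ x : HX K, ‖(fun x : HX K => tX X d 1 N₁ (vx x)) x‖ ≤ (N₁ : ℝ) :=
    fun x => norm_tX_le X d 1 N₁ _
  have hsz : ∀ D : {D : AlbDataOver X d N₁ N₂ // D.SupportedOn A}, Tendsto (fun ε : ℝ =>
      gV (fun x : HX K => tX X d 1 N₁ (vx x)) D.1.rep ε - D.1.defect ε) (𝓝[>] 0) (𝓝 0) :=
    fun D => (product2_sizeE hd D.1.pos D.1.pot D.1.prod D.1.eulerX D.1.eulerY).2
  have hs : ∀ D : {D : AlbDataOver X d N₁ N₂ // D.SupportedOn A},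
      ∀ᶠ x : HX K in cofinite, vx x ∉ A → D.1.rep.trace (vx x) = 0 :=
    fun D => vx_injective.tendsto_cofinite.eventually D.2
  refine ⟨?_, ?_, ?_⟩
  · intro l D c hD
    have h := sparse_gram ht hR hsz hs (fun k => ⟨D k, hD k⟩) c
    exact ⟨h.1, fun m hm => h.2 m fun k => defectO_lim hd (D k) (hm k)⟩
  · intro D hD hc1
    obtain ⟨hc2, hc3⟩ := sparse_one ht hR hsz hs ⟨D, hD⟩
    simp only at hc2 hc3
    set c : ℝ := R * (D.rep.inter D.rep : ℝ) with hc
    refine ⟨?_, fun m hm => ?_⟩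
    · refine ⟨Real.sqrt ((1 + c) / 2), ?_, ?_⟩
      · rw [Real.sqrt_lt' one_pos]
        linarith
      · filter_upwards [hc2 ((1 - c) / 2) (by linarith)] with ε hε
        rw [← Real.sqrt_sq_eq_abs]
        refine Real.sqrt_le_sqrt ?_
        linarith
    · have h1 := hc3 m (defectO_lim hd D hm)
      refine int_eq_of_abs ?_
      have h2 : (((m - κ.inter D.rep : ℤ)) : ℝ) ^ 2 < 1 := h1.trans_lt hc1
      push_cast at h2
      exact (sq_lt_one_iff_abs_lt_one _).1 h2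
  · intro r k hk
    obtain ⟨S, hS, hS2⟩ := sparse_exceptional ht hR0 hR hsz hs r k hk
    classical
    refine ⟨S.image Subtype.val, ?_, fun D hD hr ho => ?_⟩
    · refine le_trans ?_ hS
      exact_mod_cast Finset.card_image_le
    · have h := hS2 ⟨D, hD⟩ hr (fun q hq => ho q.1 (Finset.mem_image_of_mem _ hq))
      exact ⟨h.1, fun m hm => h.2 m (defectO_lim hd D hm)⟩

end

section
variable {K F : Type} [Field K] [NumberField K] [Field F] [NumberField F] [Algebra K F] {n : ℕ}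
variable {X : Set (MvPolynomial (Fin n) (𝓞 K))} {d N₁ N₂ : ℕ} {κ : Virt K}

/-- the second moment over an extension from the order of the pole -/
lemma square_moment (hd : 1 ≤ d) {R : ℕ} {B : HeightOneSpectrum (𝓞 F) → ℂ[X]}
    (hB : IsSquareOver X d 1 N₁ B) (hR : HasOrder (2 * 1) 0 B (-(R : ℤ))) :
    ∀ δ : ℝ, 0 < δ → ∀ᶠ ε : ℝ in 𝓝[>] 0,
      (EP (nx K) ε fun x => cN K F x *
        ‖tR (fun x : HX K => tX X d 1 N₁ (vx x)) (0 : Virt K) x‖ ^ 2) / lam ε ≤ R + δ := by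
  intro δ hδ
  have h1 := square_sizeE (K := K) (by omega : 1 ≤ 2 * d) hB
  have hb : ∀ v, |‖tXF X d 1 N₁ F v‖ ^ 2| ≤ (N₁ : ℝ) ^ 2 := fun v => by
    rw [abs_of_nonneg (sq_nonneg _)]
    exact pow_le_pow_left₀ (norm_nonneg _) (norm_tXF_le F v) 2
  have h2 := (h1.2.add (size_lim h1.1 hR)).sub (EP_vx (K := F) hb)
  have e1 : (0 : ℝ) + -((-(R : ℤ) : ℤ) : ℝ) - 0 = R := by
    push_cast
    ring
  rw [e1] at h2
  filter_upwards [h2.eventually_lt_const (show (R : ℝ) < R + δ by linarith),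
    self_mem_nhdsWithin] with ε h3 hε
  have hε' : (0 : ℝ) < ε := hε
  have h4 := EP_res (K := K) (F := F) (g := fun x => ‖tX X d 1 N₁ (vx x)‖ ^ 2)
    (B := (N₁ : ℝ) ^ 2) (fun x => by
      rw [abs_of_nonneg (sq_nonneg _)]
      exact pow_le_pow_left₀ (norm_nonneg _) (norm_tX_le X d 1 N₁ _) 2) hε'
  have h5 : (EP (nx F) ε fun x => ‖tXF X d 1 N₁ F (vx x)‖ ^ 2) =
      EP (nx F) ε fun y => ‖tX X d 1 N₁ (vx (rs' K F y))‖ ^ 2 := by
    congr 1
    funext y
    have := tXF_vx (X := X) (d := d) (a := 1) (N := N₁) (K := K) (F := F) y.1 y.2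
    unfold rs'
    rw [← this]
  simp only [tR_zero]
  rw [← h4, ← h5]
  linarith

/-- the second moment on the primes that split completely -/
lemma restMomentOver_bound (hd : 1 ≤ d) [IsGalois K F] {R : ℕ}
    (h : RestMomentOver X d N₁ κ F R) : ∀ η : ℝ, 0 < η → ∀ᶠ ε : ℝ in 𝓝[>] 0,
      (EP (nx K) ε fun x =>
        ‖tA (fun x : HX K => tX X d 1 N₁ (vx x)) κ (splitPrimes K F) x‖ ^ 2) / lam ε ≤
        R / Module.finrank K F + η := by
  have ht : ∀ x : HX K, ‖(fun x : HX K => tX X d 1 N₁ (vx x)) x‖ ≤ (N₁ : ℝ) :=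
    fun x => norm_tX_le X d 1 N₁ _
  rcases h with ⟨s, h1, h2⟩ | ⟨h0, B, h2, h3⟩
  · intro η hη
    have h3 := second_dens ht (norm_restX_le (by omega) h1) (dens_split (K := K) (F := F)) η hη
    rw [h2]
    push_cast
    rw [mul_one_div] at h3
    exact h3
  · rw [h0]
    exact second_split ht (square_moment hd h2 h3)

/-- the support of an induced representation -/
lemma alb_supported (D : AlbDataOver X d N₁ N₂) (h : Nonempty (F →ₐ[K] D.E)) :
    D.SupportedOn (splitPrimes K F) := by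
  classical
  obtain ⟨f⟩ := h
  refine Filter.Eventually.of_forall fun v hv => ?_
  rw [trace_eq_sum]
  refine Finset.sum_eq_zero fun π' hπ' => ?_
  have h1 := Finsupp.mapDomain_support hπ'
  obtain ⟨π, -, rfl⟩ := Finset.mem_image.1 h1
  rw [trace_supp_all (F := F) ?_ hv, mul_zero]
  exact ⟨{ toRingHom := (algebraMap D.E π.F).comp (f : F →+* D.E)
           commutes' := fun k => by
            change algebraMap D.E π.F (f (algebraMap K F k)) =
              algebraMap D.E π.F (algebraMap K D.E k)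
            rw [f.commutes] }⟩

end

/-- **The theorem.** -/
theorem large_main (K : Type) [Field K] [NumberField K] {n : ℕ}
    (X : Set (MvPolynomial (Fin n) (𝓞 K))) (d N₁ N₂ : ℕ) (hd : 1 ≤ d) (κ : Virt K) :
    (∀ (s : ℕ) (A : Set (HeightOneSpectrum (𝓞 K))) (δ : ℝ), 0 ≤ δ → IsPart X d 1 N₁ s κ →
      DensityLE A δ → AlbSparseAll X d N₁ N₂ κ A (s ^ 2 * δ)) ∧
    ∀ (F : Type) [Field F] [NumberField F] [Algebra K F] [IsGalois K F],
      (∀ D : AlbDataOver X d N₁ N₂, Nonempty (F →ₐ[K] D.E) →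
        D.SupportedOn (splitPrimes K F)) ∧
      ∀ R : ℕ, RestMomentOver X d N₁ κ F R →
        AlbSparseAll X d N₁ N₂ κ (splitPrimes K F) (R / Module.finrank K F) :=
  ⟨fun s A δ hδ h1 h2 => alb_sparse_all hd (by positivity)
    (second_dens (fun x => norm_tX_le X d 1 N₁ _) (norm_restX_le (by omega) h1) h2),
    fun F _ _ _ _ => ⟨fun D h => alb_supported D h, fun R h => alb_sparse_all hd
      (by positivity) (restMomentOver_bound hd h)⟩⟩

end Pool.Agent.X298.HC
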