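import Pool.Agent.X298.HC.S2Main

/-! Representations induced from an extension: the support of the trace. -/

set_option autoImplicit false
set_option linter.unusedSectionVars false
open Filter Topology NumberField Ideal IsDedekindDomain ComplexConjugate Polynomial

namespace Pool.Agent.X298.HC

section
variable {K F : Type} [Field K] [NumberField K] [Field F] [NumberField F] [Algebra K F]

lemma absNorm_le_of_comap {R S : Type} [CommRing R] [IsDedekindDomain R] [Module.Free ℤ R]
    [CommRing S] [IsDedekindDomain S] [Module.Free ℤ S] [Module.Finite ℤ S] [Module.Finite ℤ R]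
    (g : R →+* S) {I : Ideal S} (hI : I ≠ ⊥) :
    Ideal.absNorm (I.comap g) ≤ Ideal.absNorm I := by
  have hfin : Finite (S ⧸ I) := Ideal.finiteQuotientOfFreeOfNeBot I hI
  rw [Ideal.absNorm_apply, Ideal.absNorm_apply, Submodule.cardQuot_apply,
    Submodule.cardQuot_apply]
  exact Nat.card_le_card_of_injective (Ideal.quotientMap I g le_rfl)
    (Ideal.quotientMap_injective' le_rfl)

lemma trace_supp_all {π : Mono K} (h : Nonempty (F →ₐ[K] π.F)) {v : HeightOneSpectrum (𝓞 K)}
    (hv : v ∉ splitPrimes K F) : π.trace v = 0 := by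
  obtain ⟨f⟩ := h
  have hE : IsEmpty {w : HeightOneSpectrum (𝓞 π.F) // IsAbove w v} := by
    constructor
    rintro ⟨w, h1, h2⟩
    apply hv
    set g : 𝓞 F →+* 𝓞 π.F := RingOfIntegers.mapRingHom (f : F →+* π.F) with hg
    have hcomp : g.comp (algebraMap (𝓞 K) (𝓞 F)) = algebraMap (𝓞 K) (𝓞 π.F) := by
      ext z
      simp only [RingHom.comp_apply]
      rw [hg]
      exact f.commutes (z : K)
    have h3 : (w.asIdeal.comap g).comap (algebraMap (𝓞 K) (𝓞 F)) = v.asIdeal := by
      rw [Ideal.comap_comap, hcomp, h1]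
    have hne : w.asIdeal.comap g ≠ ⊥ := by
      intro h0
      rw [h0, ← RingHom.ker_eq_comap_bot] at h3
      have hinj : Function.Injective (algebraMap (𝓞 K) (𝓞 F)) :=
        FaithfulSMul.algebraMap_injective _ _
      rw [(RingHom.injective_iff_ker_eq_bot _).1 hinj] at h3
      exact v.ne_bot h3.symm
    have hp : (w.asIdeal.comap g).IsPrime := Ideal.comap_isPrime g w.asIdeal
    refine ⟨⟨w.asIdeal.comap g, hp, hne⟩, h3, ?_⟩
    simp only
    refine le_antisymm ?_ ?_
    · rw [← h2]
      exact absNorm_le_of_comap g w.ne_bot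
    · rw [← h3]
      exact absNorm_le_of_comap _ hne
  unfold Mono.trace sumAbove
  rw [finsum_of_isEmpty, zero_mul]

/-- a motive induced from `F` -/
lemma supported_of_ind {M : PureMotive K} (D : TensorData M) (h : IndFrom' F D.ρ) :
    D.SupportedOn (splitPrimes K F) := by
  filter_upwards [D.pot] with v h1 h2
  rw [h1]
  have h3 : D.ρ.trace v = 0 := by
    rw [trace_eq_sum]
    refine Finset.sum_eq_zero fun π hπ => ?_
    rw [trace_supp_all (h π hπ) h2, mul_zero]
  rw [h3, mul_zero]

end

/-- **The theorem.** -/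
theorem sparse_main (K : Type) [Field K] [NumberField K] (M : PureMotive K) (κ : Virt K) :
    (∀ (s : ℕ) (A : Set (HeightOneSpectrum (𝓞 K))) (δ : ℝ), 0 ≤ δ → IsPartOf M s κ →
      DensityLE A δ → SparseAll M κ A (s ^ 2 * δ)) ∧
    ∀ (F : Type) [Field F] [NumberField F] [Algebra K F] [IsGalois K F],
      DensityLE (splitPrimes K F) (1 / Module.finrank K F) ∧
      (∀ D : TensorData M, IndFrom' F D.ρ → D.SupportedOn (splitPrimes K F)) ∧
      ∀ R : ℕ, RestOver M κ F R →
        SparseAll M κ (splitPrimes K F) (R / Module.finrank K F) := by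
  refine ⟨fun s A δ hδ h1 h2 => sparse_all (by positivity)
    (second_dens (norm_tM_le M) (norm_rest_le h1) h2), fun F _ _ _ _ => ⟨dens_split,
    fun D h => supported_of_ind D h, fun R h => sparse_all (by positivity)
      (restOver_bound h)⟩⟩

end Pool.Agent.X298.HC
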