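import Pool.Agent.X298.HC.LDefs
import Pool.Agent.X298.HC.KProd2
import Pool.Agent.X298.HC.S2Ind

/-! The sizes over an extension. -/

set_option autoImplicit false
set_option linter.unusedSectionVars false
open Filter Topology NumberField Ideal IsDedekindDomain ComplexConjugate Polynomial

namespace Pool.Agent.X298.HC

open Pool.Agent.W540.BE Pool.Agent.H341R2
open Pool.Agent.W353.TP (HX push res)
open Pool.Agent.W353.NF (vx nm_vx vx_asIdeal)
open Pool.Agent.W353.EF (IsFrobenius)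
open Pool.Agent.W353.EH (edgePoint size HasOrder IsEulerSystem)
open Pool.Agent.W353.PV (Eig alp pick_spec)

section
variable {K : Type} [Field K] [NumberField K] {E : Type} [Field E] [NumberField E] [Algebra K E]

/-- the trace of an induced representation -/
lemma trace_ind_mono (π : Mono E) (x : HX K) :
    (π.ind K).trace (vx x) = push K (fun y : HX E => π.trace (vx y)) x := by
  classical
  let _ : Algebra K π.F := ((algebraMap E π.F).comp (algebraMap K E)).toAlgebra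
  have hpi : π.ind K = ⟨π.F, π.ψ, π.τ⟩ := rfl
  have h1 : (π.ind K).trace (vx x) = wv K π.ψ π.τ x := trace_vx (π.ind K) x
  rw [h1]
  have h2 : ∀ y : HX E, π.trace (vx y) = wv E π.ψ π.τ y := fun y => trace_vx π y
  simp only [h2]
  unfold wv push
  rw [← Finset.sum_fiberwise_of_maps_to (s := Finset.univ.filter
      (fun z : 𝓞 π.F →+* ZMod (x.1 : ℕ) => res K z = x.2))
    (t := Finset.univ.filter (fun u : 𝓞 E →+* ZMod (x.1 : ℕ) => res K u = x.2))
    (g := fun z => res E z) (fun z hz => by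
      refine Finset.mem_filter.2 ⟨Finset.mem_univ _, ?_⟩
      rw [← (Finset.mem_filter.1 hz).2]
      rfl)]
  refine Finset.sum_congr rfl fun u hu => ?_
  refine Finset.sum_congr ?_ fun _ _ => rfl
  ext z
  simp only [Finset.mem_filter, Finset.mem_univ, true_and]
  constructor
  · rintro ⟨_, h4⟩
    exact h4
  · intro h4
    refine ⟨?_, h4⟩
    rw [← (Finset.mem_filter.1 hu).2, ← h4]
    rfl

lemma trace_ind (ρ : Virt E) (x : HX K) :
    (ρ.ind K).trace (vx x) = push K (fun y : HX E => ρ.trace (vx y)) x := by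
  classical
  have h1 : (ρ.ind K).trace (vx x) = ρ.sum fun π n => (n : ℂ) * (π.ind K).trace (vx x) := by
    unfold Virt.trace Virt.ind
    rw [Finsupp.sum_mapDomain_index (by intro π; simp) (by intro π m n; push_cast; ring)]
  rw [h1]
  unfold Finsupp.sum
  unfold push
  simp only [trace_eq_sum]
  rw [Finset.sum_comm]
  refine Finset.sum_congr rfl fun π _ => ?_
  rw [trace_ind_mono]
  unfold push
  rw [Finset.mul_sum]

end

section
variable {K : Type} [Field K] [NumberField K] {E : Type} [Field E] [NumberField E] [Algebra K E]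
  {n n' : ℕ}

/-- the size of the L-function over an extension -/
theorem euler_sizeE {X : Set (MvPolynomial (Fin n) (𝓞 K))} {d a N : ℕ} (ha : a ≤ 2 * d) {τ : ℝ}
    {B : HeightOneSpectrum (𝓞 E) → ℂ[X]} (hB : IsEulerSystem X d a N τ B) :
    (∀ᶠ ε : ℝ in 𝓝[>] 0, Pool.Agent.W353.EF.LFun B (edgePoint a τ + ε) ≠ 0) ∧
    Tendsto (fun ε : ℝ => (EP (nm E) ε fun v => (tXF X d a N E v * zt τ v).re) / lam ε -
      size a τ B ε) (𝓝[>] 0) (𝓝 0) := by
  have hg : ∀ᶠ v in cofinite, (∀ j, ‖alp X d a N E v j‖ = (nm E v : ℝ) ^ ((a : ℝ) / 2)) ∧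
      ∀ z : ℂ, (B v).eval z = ∏ j, (1 - alp X d a N E v j * z) := by
    refine hB.1.mono fun v hv => ?_
    obtain ⟨α, h1, h2⟩ := hv
    have h3 : Eig X d a v (alp X d a N E v) := pick_spec ⟨α, h1⟩
    refine ⟨fun j => h3.norm j, fun z => ?_⟩
    rw [h2 z]
    have h1' : Eig X d a v α := h1
    have h4 := congrArg (fun s : Multiset ℂ =>
      (s.map fun a => (1 - a * z)).prod) (h1'.unique' ha h3)
    simp only [Multiset.map_map] at h4
    exact h4
  have h := link ((a : ℝ) / 2) τ (fun v => alp X d a N E v) (hg.mono fun v hv => hv.1) B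
    (hg.mono fun v hv => hv.2) (by
      intro v
      rw [edge_eq]
      exact hB.2 v)
  simp only [edge_eq] at h
  exact h

/-- the second moment over an extension -/
theorem square_sizeE {X : Set (MvPolynomial (Fin n) (𝓞 K))} {d a N : ℕ} (ha : a ≤ 2 * d)
    {B : HeightOneSpectrum (𝓞 E) → ℂ[X]} (hB : IsSquareOver X d a N B) :
    (∀ᶠ ε : ℝ in 𝓝[>] 0, Pool.Agent.W353.EF.LFun B (edgePoint (2 * a) 0 + ε) ≠ 0) ∧
    Tendsto (fun ε : ℝ => (EP (nm E) ε fun v => ‖tXF X d a N E v‖ ^ 2) / lam ε -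
      size (2 * a) 0 B ε) (𝓝[>] 0) (𝓝 0) := by
  have hg : ∀ᶠ v in cofinite, Eig X d a v (alp X d a N E v) ∧
      ∀ z : ℂ, (B v).eval z = ∏ j, ∏ k, (1 - alp X d a N E v j * alp X d a N E v k * z) := by
    refine hB.1.mono fun v hv => ?_
    obtain ⟨α, h1, h2⟩ := hv
    have h3 : Eig X d a v (alp X d a N E v) := pick_spec ⟨α, h1⟩
    refine ⟨h3, fun z => ?_⟩
    rw [h2 z]
    have h1' : Eig X d a v α := h1
    have hu := h1'.unique' ha h3
    have h4 := congrArg (fun s : Multiset ℂ =>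
      (s.map fun x => (s.map fun y => (1 - x * y * z)).prod).prod) hu
    simp only [Multiset.map_map] at h4
    exact h4
  set γ : HeightOneSpectrum (𝓞 E) → Fin N × Fin N → ℂ := fun v c =>
    alp X d a N E v c.1 * alp X d a N E v c.2 with hγ
  have hnorm : ∀ᶠ v in cofinite, ∀ c, ‖γ v c‖ = (nm E v : ℝ) ^ (((2 * a : ℕ) : ℝ) / 2) := by
    refine hg.mono fun v hv c => ?_
    rw [hγ]
    simp only
    have h0 : (0 : ℝ) < nm E v := by exact_mod_cast nm_pos v
    have e1 := hv.1.norm c.1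
    have e2 := hv.1.norm c.2
    change ‖alp X d a N E v c.1‖ = (nm E v : ℝ) ^ ((a : ℝ) / 2) at e1
    change ‖alp X d a N E v c.2‖ = (nm E v : ℝ) ^ ((a : ℝ) / 2) at e2
    rw [norm_mul, e1, e2, ← Real.rpow_add h0]
    congr 1
    push_cast
    ring
  have h := link (((2 * a : ℕ) : ℝ) / 2) 0 γ hnorm B (by
      refine hg.mono fun v hv z => ?_
      rw [hv.2 z, Fintype.prod_prod_type]) (by
      intro v
      rw [edge_eq]
      exact hB.2 v)
  rw [edge_eq] at h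
  refine ⟨h.1, ?_⟩
  have hae : Tendsto (fun ε : ℝ => (EP (nm E) ε fun v => ‖tXF X d a N E v‖ ^ 2) / lam ε -
      (EP (nm E) ε fun v => (T (((2 * a : ℕ) : ℝ) / 2) γ v * zt 0 v).re) / lam ε) (𝓝[>] 0)
      (𝓝 0) := by
    refine EP_ae (B := (N : ℝ) * N) (fun v => ?_) (fun v => ?_) ?_
    · rw [abs_of_nonneg (sq_nonneg _), sq]
      exact mul_le_mul (norm_tXF_le E v) (norm_tXF_le E v) (norm_nonneg _)
        (Nat.cast_nonneg _)
    · refine (Complex.abs_re_le_norm _).trans ?_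
      rw [norm_mul, norm_zt, mul_one]
      refine (norm_T_le (((2 * a : ℕ) : ℝ) / 2) γ v).trans (le_of_eq ?_)
      rw [Fintype.card_prod, Fintype.card_fin, Nat.cast_mul]
    · filter_upwards [hg, hnorm] with v h1 h2
      have e1 : ∀ j, ‖alp X d a N E v j‖ = (nm E v : ℝ) ^ ((a : ℝ) / 2) := fun j => h1.1.norm j
      have him := h1.1.im ha
      have hqc : ((nm E v : ℕ) : ℂ) ≠ 0 := by exact_mod_cast (nm_pos v).ne'
      have h0 : (0 : ℝ) ≤ nm E v := by positivity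
      have ht : tXF X d a N E v = (((∑ j, alp X d a N E v j).re *
          (nm E v : ℝ) ^ (-((a : ℝ) / 2)) : ℝ) : ℂ) := by
        rw [tXF, T_mul e1, Complex.ofReal_mul, Complex.ofReal_cpow h0]
        congr 1
        · apply Complex.ext
          · rw [Complex.ofReal_re]
          · rw [Complex.ofReal_im]
            exact him
        · push_cast
          rfl
      have hT : T (((2 * a : ℕ) : ℝ) / 2) γ v * zt 0 v = tXF X d a N E v * tXF X d a N E v := by
        rw [T_mul h2, tXF, T_mul e1, hγ]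
        unfold zt
        simp only
        rw [Complex.ofReal_zero, zero_mul, neg_zero, Complex.cpow_zero, mul_one,
          Fintype.sum_prod_type]
        simp only
        rw [← Finset.sum_mul_sum]
        have e3 : ((nm E v : ℕ) : ℂ) ^ (-((((2 * a : ℕ) : ℝ) / 2 : ℝ) : ℂ)) =
            ((nm E v : ℕ) : ℂ) ^ (-((((a : ℕ) : ℝ) / 2 : ℝ) : ℂ)) *
            ((nm E v : ℕ) : ℂ) ^ (-((((a : ℕ) : ℝ) / 2 : ℝ) : ℂ)) := by
          rw [← Complex.cpow_add _ _ hqc]
          congr 1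
          push_cast
          ring
        rw [e3]
        ring
      rw [hT, ht, ← Complex.ofReal_mul, Complex.ofReal_re, Complex.norm_real, Real.norm_eq_abs,
        sq_abs, sq]
  have := hae.add h.2
  rw [add_zero] at this
  refine this.congr fun ε => ?_
  unfold size
  ring

variable {X : Set (MvPolynomial (Fin n) (𝓞 K))} {d N₁ N₂ : ℕ}
  {Y : Set (MvPolynomial (Fin n') (𝓞 E))} {e M₁ M₂ : ℕ} {ρ : Virt E}

/-- the size of `L₂` of the product over an extension -/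
theorem product2_sizeE (hd : 1 ≤ d) (he : 1 ≤ e) (hY : IsPot1 Y e M₁ ρ)
    {B : HeightOneSpectrum (𝓞 E) → ℂ[X]} (hB : IsProduct2Over X d N₁ N₂ Y e M₁ M₂ B)
    {BX BY : HeightOneSpectrum (𝓞 E) → ℂ[X]} (hX : IsEulerSystem X d 2 N₂ 0 BX)
    (hY2 : IsEulerSystem Y e 2 M₂ 0 BY) :
    (∀ᶠ ε : ℝ in 𝓝[>] 0, Pool.Agent.W353.EF.LFun B (edgePoint 2 0 + ε) ≠ 0) ∧
    Tendsto (fun ε : ℝ => gV (fun x : HX K => tX X d 1 N₁ (vx x)) (ρ.ind K) ε -
      (size 2 0 B ε - size 2 0 BX ε - size 2 0 BY ε)) (𝓝[>] 0) (𝓝 0) := by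
  classical
  have hN : NormSys (nx E) := normSysH
  set γ : HeightOneSpectrum (𝓞 E) → (Fin N₂ ⊕ Fin M₂) ⊕ (Fin N₁ × Fin M₁) → ℂ := fun v =>
    Sum.elim (Sum.elim (alp X d 2 N₂ E v) (alp Y e 2 M₂ E v)) (fun c => alp X d 1 N₁ E v c.1 *
      alp Y e 1 M₁ E v c.2) with hγ
  have hg : ∀ᶠ v : HeightOneSpectrum (𝓞 E) in cofinite,
      Eig X d 1 v (alp X d 1 N₁ E v) ∧ Eig X d 2 v (alp X d 2 N₂ E v) ∧
      Eig Y e 2 v (alp Y e 2 M₂ E v) ∧ Eig Y e 1 v (alp Y e 1 M₁ E v) ∧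
      (∑ l, alp Y e 1 M₁ E v l =
        (Ideal.absNorm v.asIdeal : ℂ) ^ ((1 : ℂ) / 2) * ρ.trace v) ∧
      ∀ z : ℂ, (B v).eval z = ∏ c, (1 - γ v c * z) := by
    filter_upwards [hB.1, hY] with v hv hv2
    obtain ⟨α, g, β, δ, h1, h2, h3, h4, h5⟩ := hv
    obtain ⟨β', h6, h7⟩ := hv2
    have e1 : Eig X d 1 v (alp X d 1 N₁ E v) := pick_spec ⟨α, h1⟩
    have e2 : Eig X d 2 v (alp X d 2 N₂ E v) := pick_spec ⟨g, h2⟩
    have e3 : Eig Y e 2 v (alp Y e 2 M₂ E v) := pick_spec ⟨δ, h4⟩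
    have e4 : Eig Y e 1 v (alp Y e 1 M₁ E v) := pick_spec ⟨β, h3⟩
    have u6 : Eig Y e 1 v β' := h6
    refine ⟨e1, e2, e3, e4, ?_, fun z => ?_⟩
    · rw [← h7]
      exact congrArg Multiset.sum (e4.unique' (by omega) u6)
    rw [h5 z, Fintype.prod_sum_type, Fintype.prod_sum_type, Fintype.prod_prod_type]
    have u2 : Eig X d 2 v g := h2
    have u3 : Eig Y e 2 v δ := h4
    have u1 : Eig X d 1 v α := h1
    have u4 : Eig Y e 1 v β := h3
    have f2 := congrArg (fun s : Multiset ℂ => (s.map fun a => (1 - a * z)).prod)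
      (u2.unique' (by omega) e2)
    have f3 := congrArg (fun s : Multiset ℂ => (s.map fun a => (1 - a * z)).prod)
      (u3.unique' (by omega) e3)
    have f1 := congrArg (fun s : Multiset ℂ => (s.map fun x =>
      ((Finset.univ.val.map β).map fun y => (1 - x * y * z)).prod).prod)
      (u1.unique' (by omega) e1)
    simp only [Multiset.map_map] at f1 f2 f3
    have f2' : ∏ k, (1 - g k * z) = ∏ k, (1 - alp X d 2 N₂ E v k * z) := f2
    have f3' : ∏ k, (1 - δ k * z) = ∏ k, (1 - alp Y e 2 M₂ E v k * z) := f3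
    have f1' : ∏ k, ∏ l, (1 - α k * β l * z) =
        ∏ k, ∏ l, (1 - alp X d 1 N₁ E v k * β l * z) := f1
    rw [f1', f2', f3']
    congr 1
    refine Finset.prod_congr rfl fun k _ => ?_
    have e8 := congrArg (fun s : Multiset ℂ =>
      (s.map fun y => (1 - alp X d 1 N₁ E v k * y * z)).prod) (u4.unique' (by omega) e4)
    simp only [Multiset.map_map] at e8
    exact e8
  have hnorm : ∀ᶠ v in cofinite, ∀ c, ‖γ v c‖ = (nm E v : ℝ) ^ (((2 : ℕ) : ℝ) / 2) := by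
    filter_upwards [hg] with v h1
    have h0 : (0 : ℝ) < nm E v := by exact_mod_cast nm_pos v
    rintro ((k | k) | c)
    · exact h1.2.1.norm k
    · exact h1.2.2.1.norm k
    · rw [hγ]
      simp only [Sum.elim_inr]
      have e1 : ‖alp X d 1 N₁ E v c.1‖ = (nm E v : ℝ) ^ (((1 : ℕ) : ℝ) / 2) := h1.1.norm c.1
      have e2 : ‖alp Y e 1 M₁ E v c.2‖ = (nm E v : ℝ) ^ (((1 : ℕ) : ℝ) / 2) :=
        h1.2.2.2.1.norm c.2
      rw [norm_mul, e1, e2, ← Real.rpow_add h0]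
      congr 1
      push_cast
      ring
  have h := link (((2 : ℕ) : ℝ) / 2) 0 γ hnorm B (hg.mono fun v hv => hv.2.2.2.2.2) (by
    intro v
    rw [edge_eq]
    exact hB.2 v)
  simp only [edge_eq] at h
  refine ⟨h.1, ?_⟩
  have hx := (euler_sizeE (by omega : 2 ≤ 2 * d) hX).2
  have hy := (euler_sizeE (by omega : 2 ≤ 2 * e) hY2).2
  -- bounds
  have hb1 : ∀ x : HX E, |(tXF X d 1 N₁ E (vx x) * ρ.trace (vx x)).re| ≤ N₁ * ρ.bd := by
    intro x
    refine (Complex.abs_re_le_norm _).trans ?_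
    rw [norm_mul]
    exact mul_le_mul (norm_tXF_le E _) (norm_trace_le _ x) (norm_nonneg _)
      (Nat.cast_nonneg _)
  have hb2 : ∀ v, |(tXF X d 2 N₂ E v * zt 0 v).re| ≤ N₂ := by
    intro v
    refine (Complex.abs_re_le_norm _).trans ?_
    rw [norm_mul, norm_zt, mul_one]
    exact norm_tXF_le E v
  have hb3 : ∀ v, |(tXF Y e 2 M₂ E v * zt 0 v).re| ≤ M₂ := by
    intro v
    refine (Complex.abs_re_le_norm _).trans ?_
    rw [norm_mul, norm_zt, mul_one]
    exact norm_tXF_le E v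
  have hx2 := EP_vx (K := E) hb2
  have hy2 := EP_vx (K := E) hb3
  set g : HeightOneSpectrum (𝓞 E) → ℝ := fun v =>
    (T (((2 : ℕ) : ℝ) / 2) γ v * zt 0 v).re with hgdef
  have hgb : ∀ v, |g v| ≤ (Fintype.card ((Fin N₂ ⊕ Fin M₂) ⊕ (Fin N₁ × Fin M₁)) : ℝ) := by
    intro v
    refine (Complex.abs_re_le_norm _).trans ?_
    rw [norm_mul, norm_zt, mul_one]
    exact norm_T_le _ _ v
  have hg2 := EP_vx (K := E) hgb
  set G : HX E → ℝ := fun x => (tXF X d 1 N₁ E (vx x) * ρ.trace (vx x)).re +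
    ((tXF X d 2 N₂ E (vx x) * zt 0 (vx x)).re + (tXF Y e 2 M₂ E (vx x) * zt 0 (vx x)).re) with hG
  have hb23 : ∀ x : HX E, |(tXF X d 2 N₂ E (vx x) * zt 0 (vx x)).re +
      (tXF Y e 2 M₂ E (vx x) * zt 0 (vx x)).re| ≤ (N₂ : ℝ) + M₂ :=
    fun x => (abs_add_le _ _).trans (add_le_add (hb2 _) (hb3 _))
  have hFb : ∀ x, |G x| ≤ N₁ * ρ.bd + ((N₂ : ℝ) + M₂) :=
    fun x => (abs_add_le _ _).trans (add_le_add (hb1 x) (hb23 x))
  have hae : Tendsto (fun ε : ℝ => (EP (nx E) ε G) / lam ε -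
      (EP (nx E) ε fun x => g (vx x)) / lam ε) (𝓝[>] 0) (𝓝 0) := by
    refine EPH_ae hFb (fun x => hgb (vx x)) ?_
    have hcof := vx_injective.tendsto_cofinite.eventually (hg.and hnorm)
    filter_upwards [hcof] with x hx
    obtain ⟨h1, h2⟩ := hx
    have hqc : ((nm E (vx x) : ℕ) : ℂ) ≠ 0 := by exact_mod_cast (nm_pos (vx x)).ne'
    have n1 : ∀ j, ‖alp X d 1 N₁ E (vx x) j‖ = (nm E (vx x) : ℝ) ^ (((1 : ℕ) : ℝ) / 2) :=
      fun j => h1.1.norm j
    have n2 : ∀ j, ‖alp X d 2 N₂ E (vx x) j‖ = (nm E (vx x) : ℝ) ^ (((2 : ℕ) : ℝ) / 2) :=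
      fun j => h1.2.1.norm j
    have n3 : ∀ j, ‖alp Y e 2 M₂ E (vx x) j‖ = (nm E (vx x) : ℝ) ^ (((2 : ℕ) : ℝ) / 2) :=
      fun j => h1.2.2.1.norm j
    have hz : zt 0 (vx x) = 1 := by
      unfold zt
      simp
    have e1 : tXF X d 1 N₁ E (vx x) * ρ.trace (vx x) =
        (∑ k, ∑ l, alp X d 1 N₁ E (vx x) k * alp Y e 1 M₁ E (vx x) l) *
          ((nm E (vx x) : ℕ) : ℂ) ^ (-((((2 : ℕ) : ℝ) / 2 : ℝ) : ℂ)) * zt 0 (vx x) := by
      rw [tXF, T_mul n1, hz, mul_one]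
      have e3 : ((nm E (vx x) : ℕ) : ℂ) ^ (-((((2 : ℕ) : ℝ) / 2 : ℝ) : ℂ)) *
          (Ideal.absNorm (vx x).asIdeal : ℂ) ^ ((1 : ℂ) / 2) =
          ((nm E (vx x) : ℕ) : ℂ) ^ (-((((1 : ℕ) : ℝ) / 2 : ℝ) : ℂ)) := by
        have : (Ideal.absNorm (vx x).asIdeal : ℂ) = ((nm E (vx x) : ℕ) : ℂ) := rfl
        rw [this, ← Complex.cpow_add _ _ hqc]
        congr 1
        push_cast
        ring
      rw [← Finset.sum_mul_sum, h1.2.2.2.2.1, ← e3]
      ring
    have t2 : tXF X d 2 N₂ E (vx x) = (∑ k, alp X d 2 N₂ E (vx x) k) *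
        ((nm E (vx x) : ℕ) : ℂ) ^ (-((((2 : ℕ) : ℝ) / 2 : ℝ) : ℂ)) := T_mul n2
    have t3 : tXF Y e 2 M₂ E (vx x) = (∑ k, alp Y e 2 M₂ E (vx x) k) *
        ((nm E (vx x) : ℕ) : ℂ) ^ (-((((2 : ℕ) : ℝ) / 2 : ℝ) : ℂ)) := T_mul n3
    rw [hG, hgdef]
    simp only
    rw [T_mul h2, hγ]
    simp only
    rw [Fintype.sum_sum_type, Fintype.sum_sum_type, Fintype.sum_prod_type]
    simp only [Sum.elim_inl, Sum.elim_inr]
    rw [t2, t3, e1, ← Complex.add_re, ← Complex.add_re]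
    congr 1
    ring
  have h5 := ((((hae.add h.2).sub hg2).sub (hx.sub hx2)).sub (hy.sub hy2))
  simp only [add_zero, sub_zero] at h5
  refine h5.congr' ?_
  filter_upwards [self_mem_nhdsWithin] with ε hε
  have hε' : (0 : ℝ) < ε := hε
  have hpush : (EP (nx E) ε fun x => (tXF X d 1 N₁ E (vx x) * ρ.trace (vx x)).re) =
      EP (nx K) ε fun x => (tX X d 1 N₁ (vx x) * (ρ.ind K).trace (vx x)).re := by
    have e2 := Pool.Agent.W353.TP.EH_push (K := K) hε' (h := fun y : HX E =>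
      (tXF X d 1 N₁ E (vx y) * ρ.trace (vx y)).re) hb1
    refine e2.trans ?_
    rw [EPH]
    congr 1
    funext x
    rw [trace_ind]
    unfold push
    rw [Finset.mul_sum, Complex.re_sum]
    refine Finset.sum_congr rfl fun u hu => ?_
    have h5 := (Finset.mem_filter.1 hu).2
    have h6 := tXF_vx (X := X) (d := d) (a := 1) (N := N₁) (K := K) x.1 u
    rw [h5] at h6
    change (tXF X d 1 N₁ E (vx (⟨x.1, u⟩ : HX E)) * ρ.trace (vx (⟨x.1, u⟩ : HX E))).re =
      (tX X d 1 N₁ (vx x) * ρ.trace (vx (⟨x.1, u⟩ : HX E))).re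
    rw [h6]
  have hsum : (EP (nx E) ε G) / lam ε = gV (fun x : HX K => tX X d 1 N₁ (vx x)) (ρ.ind K) ε +
      ((EP (nx E) ε fun x => (tXF X d 2 N₂ E (vx x) * zt 0 (vx x)).re) / lam ε +
      (EP (nx E) ε fun x => (tXF Y e 2 M₂ E (vx x) * zt 0 (vx x)).re) / lam ε) := by
    rw [hG, EP_add hN hε' hb1 hb23, EP_add hN hε' (fun x => hb2 (vx x)) (fun x => hb3 (vx x)),
      hpush]
    unfold gV
    ring
  rw [hsum]
  unfold size
  ring

end

end Pool.Agent.X298.HC
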