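import Pool.Agent.X298.HC.Core
import Pool.Agent.W353.PV.Sys
import Pool.Agent.W353.EH.Defs

/-! Euler products and the weighted prime sums. -/

set_option autoImplicit false
set_option linter.unusedSectionVars false
open Filter Topology NumberField Ideal IsDedekindDomain ComplexConjugate Polynomial

namespace Pool.Agent.X298.HC

open Pool.Agent.W540.BE Pool.Agent.H341R2
open Pool.Agent.W353.EF (LFun)

variable {K : Type} [Field K] [NumberField K]

/-- sums that differ at finitely many primes -/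
lemma EP_ae {f g : HeightOneSpectrum (𝓞 K) → ℝ} {B : ℝ} (hf : ∀ v, |f v| ≤ B)
    (hg : ∀ v, |g v| ≤ B) (h : ∀ᶠ v in cofinite, f v = g v) :
    Tendsto (fun ε : ℝ => (EP (nm K) ε f) / lam ε - (EP (nm K) ε g) / lam ε) (𝓝[>] 0)
      (𝓝 0) := by
  have hN : NormSys (nm K) := normSys
  have hfin : {v | ¬ f v = g v}.Finite := Filter.eventually_cofinite.1 h
  set r : HeightOneSpectrum (𝓞 K) → ℝ := fun v => f v - g v with hr
  have hr0 : ∀ v, v ∉ hfin.toFinset → r v = 0 := by
    intro v hv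
    rw [Set.Finite.mem_toFinset, Set.mem_ofPred_eq, not_not] at hv
    rw [hr]
    simp only
    rw [hv, sub_self]
  have hrb : ∀ v, |r v| ≤ 2 * B := by
    intro v
    rw [hr]
    simp only
    have := abs_le.1 (hf v)
    have := abs_le.1 (hg v)
    rw [abs_le]
    constructor <;> linarith [this.1, this.2]
  have hlim0 : Tendsto (fun ε : ℝ => (hfin.toFinset.card * (2 * B)) / lam ε) (𝓝[>] 0) (𝓝 0) :=
    tendsto_const_nhds.div_atTop lam_tendsto
  refine squeeze_zero_norm' ?_ hlim0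
  filter_upwards [self_mem_nhdsWithin, lam_tendsto.eventually_gt_atTop 0] with ε h1 h2
  have hε : (0 : ℝ) < ε := h1
  have h3 : EP (nm K) ε f = EP (nm K) ε g + EP (nm K) ε r := by
    rw [← EP_add hN hε hg hrb]
    congr 1
    funext v
    rw [hr]
    ring
  rw [h3, Real.norm_eq_abs]
  have h4 : (EP (nm K) ε g + EP (nm K) ε r) / lam ε - EP (nm K) ε g / lam ε =
      EP (nm K) ε r / lam ε := by ring
  rw [h4, abs_div, abs_of_pos h2]
  exact div_le_div_of_nonneg_right (EP_finsupp hN _ r hr0 _ hrb hε) h2.le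

open scoped Classical in
/-- normalised sum of the eigenvalues -/
noncomputable def T {ι : Type} [Fintype ι] (w : ℝ) (γ : HeightOneSpectrum (𝓞 K) → ι → ℂ)
    (v : HeightOneSpectrum (𝓞 K)) : ℂ :=
  if ∀ c, ‖γ v c‖ = (nm K v : ℝ) ^ w then (∑ c, γ v c) * ((nm K v : ℕ) : ℂ) ^ (-(w : ℂ)) else 0

/-- the twist by the height -/
noncomputable def zt (τ : ℝ) (v : HeightOneSpectrum (𝓞 K)) : ℂ :=
  ((nm K v : ℕ) : ℂ) ^ (-(τ * Complex.I))

lemma nm_pos (v : HeightOneSpectrum (𝓞 K)) : 0 < nm K v := by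
  have := two_le_nm v
  omega

lemma norm_zt (τ : ℝ) (v : HeightOneSpectrum (𝓞 K)) : ‖zt τ v‖ = 1 := norm_cpow_I (nm_pos v) τ

lemma av_eq (ψ : HeckeChar K) (τ : ℝ) (v : HeightOneSpectrum (𝓞 K)) :
    av ψ τ v = ψ.toFun v.asIdeal * zt τ v := rfl

lemma norm_T_le {ι : Type} [Fintype ι] (w : ℝ) (γ : HeightOneSpectrum (𝓞 K) → ι → ℂ)
    (v : HeightOneSpectrum (𝓞 K)) : ‖T w γ v‖ ≤ Fintype.card ι := by
  unfold T
  split_ifs with h
  · rw [norm_mul, Complex.norm_natCast_cpow_of_pos (nm_pos v)]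
    have h1 : ‖∑ c, γ v c‖ ≤ Fintype.card ι * (nm K v : ℝ) ^ w := by
      refine (norm_sum_le _ _).trans ?_
      rw [Finset.sum_congr rfl fun j _ => h j, Finset.sum_const, Finset.card_univ,
        nsmul_eq_mul]
    have h2 : (nm K v : ℝ) ^ w * (nm K v : ℝ) ^ (-(w : ℂ)).re = 1 := by
      have h0 : (0 : ℝ) < nm K v := by exact_mod_cast nm_pos v
      rw [← Real.rpow_add h0]
      simp
    calc ‖∑ c, γ v c‖ * (nm K v : ℝ) ^ (-(w : ℂ)).re
        ≤ Fintype.card ι * (nm K v : ℝ) ^ w * (nm K v : ℝ) ^ (-(w : ℂ)).re :=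
          mul_le_mul_of_nonneg_right h1 (by positivity)
      _ = Fintype.card ι := by rw [mul_assoc, h2, mul_one]
  · rw [norm_zero]
    positivity

/-- **The size of an Euler product on the edge.** -/
theorem link {ι : Type} [Fintype ι] (w τ : ℝ) (γ : HeightOneSpectrum (𝓞 K) → ι → ℂ)
    (hγ : ∀ᶠ v in cofinite, ∀ c, ‖γ v c‖ = (nm K v : ℝ) ^ w)
    (B : HeightOneSpectrum (𝓞 K) → ℂ[X])
    (hB : ∀ᶠ v in cofinite, ∀ z : ℂ, (B v).eval z = ∏ c, (1 - γ v c * z))
    (hB0 : ∀ v, (B v).eval (((nm K v : ℕ) : ℂ) ^ (-(w + 1 + τ * Complex.I : ℂ))) ≠ 0) :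
    (∀ᶠ ε : ℝ in 𝓝[>] 0, LFun B (w + 1 + τ * Complex.I + ε) ≠ 0) ∧
    Tendsto (fun ε : ℝ => (EP (nm K) ε fun v => (T w γ v * zt τ v).re) / lam ε -
      Real.log ‖LFun B (w + 1 + τ * Complex.I + ε)‖ / Real.log (1 / ε)) (𝓝[>] 0) (𝓝 0) := by
  classical
  have hN : NormSys (nm K) := normSys
  set m : ℝ := (Fintype.card ι : ℝ) with hm
  set Good : HeightOneSpectrum (𝓞 K) → Prop := fun v => (∀ c, ‖γ v c‖ = (nm K v : ℝ) ^ w) ∧
    ∀ z : ℂ, (B v).eval z = ∏ c, (1 - γ v c * z) with hGood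
  have hfin : {v | ¬ Good v}.Finite := by
    have := hγ.and hB
    rwa [Filter.eventually_cofinite] at this
  set a : HeightOneSpectrum (𝓞 K) → ℂ := fun v => if Good v then T w γ v * zt τ v else 0 with ha
  have hT : ∀ v, ‖T w γ v * zt τ v‖ ≤ m := by
    intro v
    rw [norm_mul, norm_zt, mul_one]
    exact norm_T_le w γ v
  have hab : ∀ v, ‖a v‖ ≤ m := by
    intro v
    rw [ha]
    simp only
    split_ifs
    · exact hT v
    · rw [norm_zero]; positivity
  have ha0 : ∀ v, ¬ Good v → a v = 0 := by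
    intro v hv
    rw [ha]
    simp only
    rw [if_neg hv]
  -- the logarithms of the local factors
  set G : ℝ → HeightOneSpectrum (𝓞 K) → ℂ := fun ε v => ∑ c, -Complex.log (1 - γ v c *
    ((nm K v : ℕ) : ℂ) ^ (-(w + 1 + τ * Complex.I + ε : ℂ))) with hGdef
  have hx : ∀ ε : ℝ, 0 < ε → ∀ v, Good v → ∀ c, ‖γ v c *
      ((nm K v : ℕ) : ℂ) ^ (-(w + 1 + τ * Complex.I + ε : ℂ))‖ = (nm K v : ℝ) ^ (-(1 + ε)) := by
    intro ε hε v hv c
    have h0 : (0 : ℝ) < nm K v := by exact_mod_cast nm_pos v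
    rw [norm_mul, hv.1 c, Complex.norm_natCast_cpow_of_pos (nm_pos v), ← Real.rpow_add h0]
    congr 1
    simp
    ring
  have hsm : ∀ ε : ℝ, 0 < ε → ∀ v, (nm K v : ℝ) ^ (-(1 + ε)) ≤ (nm K v : ℝ) ^ (-1 : ℝ) ∧
      (nm K v : ℝ) ^ (-1 : ℝ) ≤ 1 / 2 := by
    intro ε hε v
    have hq := two_le_nm v
    have hq1 : (1 : ℝ) ≤ nm K v := by
      have : 1 ≤ nm K v := by omega
      exact_mod_cast this
    have hq2 : (2 : ℝ) ≤ nm K v := by exact_mod_cast hq
    refine ⟨Real.rpow_le_rpow_of_exponent_le hq1 (by linarith), ?_⟩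
    rw [Real.rpow_neg_one, one_div]
    exact inv_anti₀ (by norm_num) hq2
  obtain ⟨C, hC⟩ := sizeP hN (Good := Good) hfin B (w + 1 + τ * Complex.I)
    (fun v _ => hB0 v) a hab ha0 G (C := m)
    (by
      intro ε hε v hv
      have h0 : (0 : ℝ) < nm K v := by exact_mod_cast nm_pos v
      have hqc : ((nm K v : ℕ) : ℂ) ≠ 0 := by exact_mod_cast (nm_pos v).ne'
      have h1 : a v * (((nm K v : ℝ) ^ (-(1 + ε)) : ℝ) : ℂ) = ∑ c, γ v c *
          ((nm K v : ℕ) : ℂ) ^ (-(w + 1 + τ * Complex.I + ε : ℂ)) := by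
        rw [ha]
        simp only
        rw [if_pos hv]
        unfold T zt
        rw [if_pos hv.1, ← Finset.sum_mul, Complex.ofReal_cpow h0.le, mul_assoc, mul_assoc]
        congr 1
        push_cast
        rw [← Complex.cpow_add _ _ hqc, ← Complex.cpow_add _ _ hqc]
        congr 1
        ring
      rw [h1, hGdef]
      simp only
      rw [← Finset.sum_sub_distrib]
      refine (norm_sum_le _ _).trans ?_
      have h2 : ∀ c, ‖-Complex.log (1 - γ v c *
          ((nm K v : ℕ) : ℂ) ^ (-(w + 1 + τ * Complex.I + ε : ℂ))) - γ v c *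
          ((nm K v : ℕ) : ℂ) ^ (-(w + 1 + τ * Complex.I + ε : ℂ))‖ ≤
          (nm K v : ℝ) ^ (-2 : ℝ) := by
        intro c
        have h3 := hx ε hε v hv c
        obtain ⟨h4, h5⟩ := hsm ε hε v
        refine (norm_neg_log_sub_le (by rw [h3]; exact h4.trans h5)).trans ?_
        rw [h3]
        calc ((nm K v : ℝ) ^ (-(1 + ε))) ^ 2 ≤ ((nm K v : ℝ) ^ (-1 : ℝ)) ^ 2 := by
              refine pow_le_pow_left₀ (by positivity) h4 2
          _ = (nm K v : ℝ) ^ (-2 : ℝ) := by
              rw [← Real.rpow_natCast, ← Real.rpow_mul h0.le]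
              norm_num
      refine (Finset.sum_le_sum fun c _ => h2 c).trans (le_of_eq ?_)
      rw [Finset.sum_const, Finset.card_univ, nsmul_eq_mul])
    (L := fun ε => LFun B (w + 1 + τ * Complex.I + ε))
    (by
      intro ε hε
      unfold Pool.Agent.W353.EF.LFun
      refine tprod_congr fun v => ?_
      split_ifs with hv
      · rw [hGdef]
        simp only
        rw [Complex.exp_sum]
        have h1 : (B v).eval ((Ideal.absNorm v.asIdeal : ℂ) ^
            (-(w + 1 + τ * Complex.I + ε : ℂ))) = ∏ c, (1 - γ v c *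
            ((nm K v : ℕ) : ℂ) ^ (-(w + 1 + τ * Complex.I + ε : ℂ))) := hv.2 _
        rw [h1, ← Finset.prod_inv_distrib]
        refine Finset.prod_congr rfl fun c _ => ?_
        have hne : 1 - γ v c *
            ((nm K v : ℕ) : ℂ) ^ (-(w + 1 + τ * Complex.I + ε : ℂ)) ≠ 0 := by
          intro h2
          have h3 : γ v c * ((nm K v : ℕ) : ℂ) ^ (-(w + 1 + τ * Complex.I + ε : ℂ)) = 1 :=
            (sub_eq_zero.1 h2).symm
          have h4 := hx ε hε v hv c
          obtain ⟨h5, h6⟩ := hsm ε hε v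
          rw [h3, norm_one] at h4
          linarith
        rw [Complex.exp_neg, Complex.exp_log hne]
      · rfl)
  refine ⟨hC.mono fun ε h => h.1, ?_⟩
  have hcmp : Tendsto (fun ε : ℝ => (EP (nm K) ε fun v => (a v).re) / lam ε -
      Real.log ‖LFun B (w + 1 + τ * Complex.I + ε)‖ / Real.log (1 / ε)) (𝓝[>] 0) (𝓝 0) := by
    refine size_compare (M := 2 * m) (C := C) ?_ (hC.mono fun ε h => h.2)
    filter_upwards [(EP_one K).eventually_lt_const (show (1 : ℝ) < 2 by norm_num),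
      self_mem_nhdsWithin, lam_tendsto.eventually_gt_atTop 0] with ε h1 h2 h3
    have hε : (0 : ℝ) < ε := h2
    have hb1 : ∀ v, |(a v).re| ≤ m := fun v => (Complex.abs_re_le_norm _).trans (hab v)
    have h8 : |EP (nm K) ε fun v => (a v).re| ≤ m * EP (nm K) ε fun _ => 1 := by
      rw [abs_le]
      constructor
      · have h9 := EP_le hN hε (φ := fun v => (-1) * (a v).re) (B := m)
          (fun v => by rw [abs_mul, abs_neg, abs_one, one_mul]; exact hb1 v) (b := m)
          (fun v => by have := (abs_le.1 (hb1 v)).1; linarith)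
        rw [EP_const_mul] at h9
        linarith
      · exact EP_le hN hε hb1 fun v => (le_abs_self _).trans (hb1 v)
    refine h8.trans ?_
    rw [div_lt_iff₀ h3] at h1
    have hm0 : 0 ≤ m := by positivity
    nlinarith
  have hae : Tendsto (fun ε : ℝ => (EP (nm K) ε fun v => (T w γ v * zt τ v).re) / lam ε -
      (EP (nm K) ε fun v => (a v).re) / lam ε) (𝓝[>] 0) (𝓝 0) := by
    refine EP_ae (B := m) (fun v => (Complex.abs_re_le_norm _).trans (hT v))
      (fun v => (Complex.abs_re_le_norm _).trans (hab v)) ?_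
    filter_upwards [hγ.and hB] with v hv
    rw [ha]
    simp only
    rw [if_pos hv]
  have := hae.add hcmp
  rw [add_zero] at this
  refine this.congr fun ε => ?_
  ring

end Pool.Agent.X298.HC
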