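import Pool.Agent.X298.HC.PDefs
import Pool.Agent.X298.HC.BC
import Pool.Agent.W353.TP.Tensor

/-!
# Virtual representations of Weil groups, twists by them, and products: definitions

`K` is a number field.  By the theorem of Brauer, in the version of Deligne for Weil groups, every
(virtual) unitary representation of the Weil group of `K` is an integral linear combination of
representations induced from unitary characters of the Weil groups of finite extensions `F` of `K`,
that is, from Hecke characters `ψ N^{-iτ}` of `F`.  All Artin representations are among them, and the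
representations attached to abelian varieties with potential complex multiplication.
-/

set_option autoImplicit false

namespace Pool.Agent.X298.HC

open NumberField IsDedekindDomain Filter Topology Polynomial
open Pool.Agent.W353.EF (IsFrobenius LFun)
open Pool.Agent.W353.EH (edgePoint size HasOrder)
open scoped TensorProduct

section
variable {F M : Type} [Field F] [NumberField F] [Field M] [NumberField M]

/-- The Hecke character `ψ ∘ N_{M/F}` of `M`, for an embedding `f` of `F` into `M`: its value at an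
ideal `I` of `M` is `ψ (N_{M/F} I)`. -/
noncomputable def HeckeChar.lift (ψ : HeckeChar F) (f : F →+* M) : HeckeChar M :=
  letI : Algebra F M := f.toAlgebra
  ψ.bc M

end

section
variable {K F F' : Type} [Field K] [NumberField K] [Field F] [NumberField F] [Algebra K F]
  [Field F'] [NumberField F'] [Algebra K F']

/-- The prime `w` of `F` lies above the prime `v` of `K`, and `N(w) = N(v)`. -/
def IsAbove (w : HeightOneSpectrum (𝓞 F)) (v : HeightOneSpectrum (𝓞 K)) : Prop :=
  w.asIdeal.comap (algebraMap (𝓞 K) (𝓞 F)) = v.asIdeal ∧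
    Ideal.absNorm w.asIdeal = Ideal.absNorm v.asIdeal

/-- The sum of `ψ(w)` over the primes `w` of `F` above the prime `v` of `K` with `N(w) = N(v)`. -/
noncomputable def sumAbove (ψ : HeckeChar F) (v : HeightOneSpectrum (𝓞 K)) : ℂ :=
  ∑ᶠ w : {w : HeightOneSpectrum (𝓞 F) // IsAbove w v}, ψ.toFun w.1.asIdeal

variable (K F F') in
/-- The projection to the factor `(F ⊗_K F')/m` of `F ⊗_K F'`. -/
noncomputable def toFac (m : MaximalSpectrum (F ⊗[K] F')) :
    F ⊗[K] F' →+* (F ⊗[K] F') ⧸ m.asIdeal := Ideal.Quotient.mk m.asIdeal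

variable (K F F') in
/-- The embedding of `F` into the factor `(F ⊗_K F')/m` of `F ⊗_K F'`. -/
noncomputable def fL (m : MaximalSpectrum (F ⊗[K] F')) : F →+* (F ⊗[K] F') ⧸ m.asIdeal :=
  (toFac K F F' m).comp Algebra.TensorProduct.includeLeftRingHom

variable (K F F') in
/-- The embedding of `F'` into the factor `(F ⊗_K F')/m` of `F ⊗_K F'`. -/
noncomputable def fR (m : MaximalSpectrum (F ⊗[K] F')) : F' →+* (F ⊗[K] F') ⧸ m.asIdeal :=
  (toFac K F F' m).comp (Algebra.TensorProduct.includeRight : F' →ₐ[K] F ⊗[K] F').toRingHom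

variable (K) in
/-- The characters `ψ ∘ N_{E/F} N^{-iτ}` and `ψ' ∘ N_{E/F'} N^{-iτ'}` of the factor `E = (F ⊗_K F')/m`
are equal. -/
def AgreeOn (ψ : HeckeChar F) (ψ' : HeckeChar F') (τ τ' : ℝ)
    (m : MaximalSpectrum (F ⊗[K] F')) : Prop :=
  ¬ Distinct (ψ.lift (fL K F F' m)) (ψ'.lift (fR K F F' m)) τ τ'

variable {n : ℕ}

/-- The polynomials `B v`, `v` a prime of `F`, are the Euler factors of `L(H^a(X_F) ⊗ ψ, s)`:
`B_v(z) = ∏ (1 - ψ(v) α_j z)` for almost all primes `v`, `α_1, …, α_N` the eigenvalues of Frobenius.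
At the other primes `B v` is an arbitrary polynomial, and no factor `1 / B_v(q_v^{-s})` has a pole at
`s = a/2 + 1 + iτ`. -/
def IsTwistOver (X : Set (MvPolynomial (Fin n) (𝓞 K))) (d a N : ℕ) (ψ : HeckeChar F) (τ : ℝ)
    (B : HeightOneSpectrum (𝓞 F) → ℂ[X]) : Prop :=
  (∀ᶠ v in cofinite, ∃ α : Fin N → ℂ, IsFrobenius X d a v α ∧
    ∀ z : ℂ, (B v).eval z = ∏ j, (1 - ψ.toFun v.asIdeal * α j * z)) ∧
  ∀ v, (B v).eval ((Ideal.absNorm v.asIdeal : ℂ) ^ (-edgePoint a τ)) ≠ 0

end

/-- A monomial representation `Ind ψ N^{-iτ}` of the Weil group of `K`: a finite extension `F` of `K`, a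
unitary Hecke character `ψ` of `F` and a real number `τ`. -/
structure Mono (K : Type) [Field K] where
  /-- the extension of `K` -/
  F : Type
  [field : Field F]
  [numberField : NumberField F]
  [algebra : Algebra K F]
  /-- the Hecke character -/
  ψ : HeckeChar F
  /-- the height -/
  τ : ℝ

attribute [instance] Mono.field Mono.numberField Mono.algebra

/-- Virtual representations of the Weil group of `K`: integral linear combinations of monomial
ones. -/
abbrev Virt (K : Type) [Field K] : Type 1 := Mono K →₀ ℤ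

section
variable {K : Type} [Field K] [NumberField K]

/-- The trace of the Frobenius at the prime `v` on `Ind ψ N^{-iτ}`: the sum of `ψ(w) N(v)^{-iτ}` over the
primes `w` of `F` above `v` with `N(w) = N(v)`. -/
noncomputable def Mono.trace (π : Mono K) (v : HeightOneSpectrum (𝓞 K)) : ℂ :=
  sumAbove π.ψ v * (Ideal.absNorm v.asIdeal : ℂ) ^ (-(π.τ * Complex.I))

/-- The trace of the Frobenius at the prime `v`. -/
noncomputable def Virt.trace (ρ : Virt K) (v : HeightOneSpectrum (𝓞 K)) : ℂ :=
  ρ.sum fun π n => (n : ℂ) * π.trace v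

/-- The intertwining number of the monomial representations for `(F, ψ, τ)` and `(F', ψ', τ')`, by the
formula of Mackey: the number of the factors `E` of `F ⊗_K F'` (a product of fields) such that the
characters `ψ ∘ N_{E/F}` and `ψ' ∘ N_{E/F'}` of `E` are equal (at the ideals prime to both moduli) and
`τ = τ'`. -/
noncomputable def Mono.inter (π π' : Mono K) : ℕ :=
  Nat.card {m : MaximalSpectrum (π.F ⊗[K] π'.F) // AgreeOn K π.ψ π'.ψ π.τ π'.τ m}

/-- The intertwining number of two virtual representations. -/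
noncomputable def Virt.inter (ρ ρ' : Virt K) : ℤ :=
  ρ.sum fun π n => ρ'.sum fun π' n' => n * n' * (π.inter π' : ℤ)

variable {n n' : ℕ}

/-- The polynomials `B v`, `v` a prime of `F`, are the Euler factors of
`L(H^a(X) ⊗ Ind ψ, s) = L(H^a(X_F) ⊗ ψ, s)`, for `π = (F, ψ, τ)`. -/
def IsTwistBy (X : Set (MvPolynomial (Fin n) (𝓞 K))) (d a N : ℕ) (π : Mono K)
    (B : HeightOneSpectrum (𝓞 π.F) → ℂ[X]) : Prop :=
  IsTwistOver X d a N π.ψ π.τ B

/-- `L(H^a(X) ⊗ ρ, s) = ∏ L(H^a(X_F) ⊗ ψ, s + iτ)^n` for a virtual representation `ρ`, the product over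
the triples `(F, ψ, τ)` in `ρ`, `n` their coefficients, and `B π` the Euler factors of
`L(H^a(X_F) ⊗ ψ, s)`. -/
noncomputable def Virt.LFun (ρ : Virt K)
    (B : ∀ π : Mono K, HeightOneSpectrum (𝓞 π.F) → ℂ[X]) (s : ℂ) : ℂ :=
  ρ.prod fun π n => (Pool.Agent.W353.EF.LFun (B π) (s + π.τ * Complex.I)) ^ n

/-- `log |L(H^a(X) ⊗ ρ, a/2 + 1 + ε)| / log(1/ε)`; it tends to `-m` if there is a meromorphic
continuation of order `m` at `a/2 + 1`. -/
noncomputable def Virt.size (a : ℕ) (ρ : Virt K)
    (B : ∀ π : Mono K, HeightOneSpectrum (𝓞 π.F) → ℂ[X]) (ε : ℝ) : ℝ :=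
  Real.log ‖ρ.LFun B (edgePoint a 0 + ε)‖ / Real.log (1 / ε)

/-- `L(H^a(X) ⊗ ρ, s)` has a meromorphic continuation to a neighbourhood of `a/2 + 1`, of order `m` at
this point. -/
def Virt.HasOrder (a : ℕ) (ρ : Virt K)
    (B : ∀ π : Mono K, HeightOneSpectrum (𝓞 π.F) → ℂ[X]) (m : ℤ) : Prop :=
  ∃ Λ : ℂ → ℂ, MeromorphicAt Λ (edgePoint a 0) ∧
    (∀ᶠ s in 𝓝 (edgePoint a 0), (a : ℝ) / 2 + 1 < s.re → Λ s = ρ.LFun B s) ∧
    meromorphicOrderAt Λ (edgePoint a 0) = m

/-- The twist by the power `N^{-iσ}` of the norm. -/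
def Mono.shift (σ : ℝ) (π : Mono K) : Mono K := ⟨π.F, π.ψ, π.τ + σ⟩

/-- The twist by the power `N^{-iσ}` of the norm. -/
noncomputable def Virt.shift (σ : ℝ) (ρ : Virt K) : Virt K := ρ.mapDomain (Mono.shift σ)

open Classical in
/-- In `H^i(X × Y)` the cohomology group `H^a(X)` is paired with `H^{i - a}(Y)`.  If `ρ b` and `κ b` are
virtual representations, `b ≤ 2e` (the first one describes `H^b(Y)` and the second one a part of it), then
`restTuple d e i τ ρ κ a` is the representation `(ρ b - κ b) N^{-iτ}`, `a + b = i`, for all `a ≤ 2d`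
with `0 ≤ i - a ≤ 2e`, and zero for the other `a`. -/
noncomputable def restTuple (d e i : ℕ) (τ : ℝ) (ρ κ : ℕ → Virt K) (a : ℕ) : Virt K :=
  if (a, i - a) ∈ degrees d e i then (ρ (i - a) - κ (i - a)).shift τ else 0

/-- The sum of the intertwining numbers of `σ a` and `σ' a` over all `a ≤ 2d`. -/
noncomputable def tupleInter (d : ℕ) (σ σ' : ℕ → Virt K) : ℤ :=
  ∑ a : Fin (2 * d + 1), (σ a).inter (σ' a)

/-- `Y` is a projective variety of dimension `e` over `K`, with the Betti numbers `M b`, with
potentially abelian cohomology: at almost all primes `v` the sum of the eigenvalues of Frobenius on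
`H^b(Y)` is `q_v^{b/2}` times the trace of Frobenius on a representation `ρ b` of the Weil group of
`K`.  By the theorems of Shimura, Taniyama, Weil, Deligne and Brauer this is so for all varieties over
`K` which, over an extension of `K`, are dominated by products of abelian varieties with complex
multiplication, Fermat hypersurfaces and linear varieties. -/
def IsPotAbelian (Y : Set (MvPolynomial (Fin n') (𝓞 K))) (e : ℕ) (M : ℕ → ℕ)
    (ρ : ℕ → Virt K) : Prop :=
  ∀ᶠ v : HeightOneSpectrum (𝓞 K) in cofinite, ∀ b ≤ 2 * e, ∃ β : Fin (M b) → ℂ,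
    IsFrobenius Y e b v β ∧
      ∑ l, β l = (Ideal.absNorm v.asIdeal : ℂ) ^ ((b : ℂ) / 2) * (ρ b).trace v

end

end Pool.Agent.X298.HC
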