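import Pool.Agent.X298.HC.MGram2

/-! The engine, for several components. -/

set_option autoImplicit false
set_option linter.unusedSectionVars false
open Filter Topology NumberField Ideal IsDedekindDomain ComplexConjugate

namespace Pool.Agent.X298.HC

open Pool.Agent.W540.BE Pool.Agent.H341R2
open Pool.Agent.W353.TP (HX)

/-- **The engine**, for an arbitrary set of primes. -/
theorem engineP {P : Type} {N : P → ℕ} (hN : NormSys N) (p0 : P) {κ : Type*} [Fintype κ]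
    {U : Ultrafilter ℝ} (hU : (U : Filter ℝ) ≤ 𝓝[>] 0)
    (hone : ∀ᶠ ε : ℝ in 𝓝[>] 0, 0 < EP N ε fun _ => 1)
    (vv : κ → P → ℂ) (B : κ → ℝ) (hvv : ∀ k v, ‖vv k v‖ ≤ B k)
    (G : κ → κ → ℝ) (hG : ∀ k l, Tendsto (fun ε : ℝ =>
      (EP N ε fun v => (vv k v * conj (vv l v)).re) / lam ε) U (𝓝 (G k l)))
    (t : P → ℂ) {b : ℝ} (ht : ∀ v, ‖t v‖ ≤ b)
    {R : ℝ} (hR : ∀ δ : ℝ, 0 < δ → ∀ᶠ ε : ℝ in (U : Filter ℝ),
      (EP N ε fun v => ‖t v‖ ^ 2) / lam ε ≤ R + δ)
    (x : κ → ℝ) (hx : ∀ k, Tendsto (fun ε : ℝ =>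
      (EP N ε fun v => (t v * conj (vv k v)).re) / lam ε) U (𝓝 (x k))) (c : κ → ℝ) :
    0 ≤ ∑ k, ∑ l, c k * c l * G k l ∧
    (∑ k, c k * x k) ^ 2 ≤ R * ∑ k, ∑ l, c k * c l * G k l := by
  classical
  have hl1 : Tendsto (fun ε : ℝ => ∑ k, c k * ((EP N ε fun v =>
      (t v * conj (vv k v)).re) / lam ε)) U (𝓝 (∑ k, c k * x k)) :=
    tendsto_finsetSum _ fun k _ => (hx k).const_mul _
  have hl2 : Tendsto (fun ε : ℝ => ∑ k, ∑ l, c k * c l * ((EP N ε fun v =>
      (vv k v * conj (vv l v)).re) / lam ε)) U (𝓝 (∑ k, ∑ l, c k * c l * G k l)) :=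
    tendsto_finsetSum _ fun k _ => tendsto_finsetSum _ fun l _ => (hG k l).const_mul _
  have hpos : ∀ᶠ ε : ℝ in (U : Filter ℝ), 0 < ε ∧ 0 < lam ε := by
    refine hU ?_
    filter_upwards [self_mem_nhdsWithin, lam_tendsto.eventually_gt_atTop 0] with ε h1 h2
    exact ⟨h1, h2⟩
  -- the Gram form is nonnegative
  have hg0 : ∀ᶠ ε : ℝ in (U : Filter ℝ), 0 ≤ ∑ k, ∑ l, c k * c l * ((EP N ε fun v =>
      (vv k v * conj (vv l v)).re) / lam ε) := by
    filter_upwards [hpos, hU hone] with ε ⟨h1, h2⟩ h0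
    have h3 := gram_sq hN p0 Finset.univ (fun _ => (1 : ℂ)) vv 1 (fun _ => by simp) B hvv c h1
    have h4 : 0 < EP N ε fun _ : P => ‖(1 : ℂ)‖ ^ 2 := by
      have h5 : (fun _ : P => ‖(1 : ℂ)‖ ^ 2) = fun _ => (1 : ℝ) := by
        funext v
        rw [norm_one, one_pow]
      rw [h5]
      exact h0
    have h7 : 0 ≤ ∑ k, ∑ l, (c k * c l) * EP N ε
        (fun v => (vv k v * conj (vv l v)).re) := by
      by_contra hcon
      push Not at hcon
      have h8 := mul_neg_of_pos_of_neg h4 hcon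
      have h9 := (sq_nonneg _).trans h3
      linarith
    have e2 : ∑ k, ∑ l, c k * c l * ((EP N ε fun v =>
        (vv k v * conj (vv l v)).re) / lam ε) =
        (∑ k, ∑ l, (c k * c l) * EP N ε fun v => (vv k v * conj (vv l v)).re) / lam ε := by
      rw [Finset.sum_div]
      refine Finset.sum_congr rfl fun k _ => ?_
      rw [Finset.sum_div]
      exact Finset.sum_congr rfl fun l _ => by ring
    rw [e2]
    exact div_nonneg h7 h2.le
  refine ⟨ge_of_tendsto hl2 hg0, ?_⟩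
  have key : ∀ δ : ℝ, 0 < δ → (∑ k, c k * x k) ^ 2 ≤
      (R + δ) * ∑ k, ∑ l, c k * c l * G k l := by
    intro δ hδ
    refine le_of_tendsto_of_tendsto (hl1.pow 2) (hl2.const_mul (R + δ)) ?_
    filter_upwards [hpos, hR δ hδ, hg0] with ε ⟨h1, h2⟩ h3 h4
    have h5 := gram_sq hN p0 Finset.univ t vv b ht B hvv c h1
    have e1 : ∑ k, c k * ((EP N ε fun v => (t v * conj (vv k v)).re) / lam ε) =
        (∑ k, c k * EP N ε fun v => (t v * conj (vv k v)).re) / lam ε := by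
      rw [Finset.sum_div]
      exact Finset.sum_congr rfl fun k _ => by ring
    have e2 : ∑ k, ∑ l, c k * c l * ((EP N ε fun v =>
        (vv k v * conj (vv l v)).re) / lam ε) =
        (∑ k, ∑ l, (c k * c l) * EP N ε fun v => (vv k v * conj (vv l v)).re) / lam ε := by
      rw [Finset.sum_div]
      refine Finset.sum_congr rfl fun k _ => ?_
      rw [Finset.sum_div]
      exact Finset.sum_congr rfl fun l _ => by ring
    have hT : (EP N ε fun v => ‖t v‖ ^ 2) ≤ (R + δ) * lam ε := (div_le_iff₀ h2).1 h3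
    rw [e2] at h4
    have h6 : 0 ≤ ∑ k, ∑ l, (c k * c l) * EP N ε (fun v => (vv k v * conj (vv l v)).re) := by
      have := mul_nonneg h4 h2.le
      rwa [div_mul_cancel₀ _ h2.ne'] at this
    rw [e1, e2, div_pow, div_le_iff₀ (by positivity)]
    refine h5.trans ?_
    calc _ ≤ ((R + δ) * lam ε) * ∑ k, ∑ l, (c k * c l) *
          EP N ε (fun v => (vv k v * conj (vv l v)).re) :=
        mul_le_mul_of_nonneg_right hT h6
      _ = _ := by
        field_simp
  have hcont : Tendsto (fun δ : ℝ => (R + δ) * ∑ k, ∑ l, c k * c l * G k l) (𝓝[>] 0)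
      (𝓝 ((R + 0) * ∑ k, ∑ l, c k * c l * G k l)) := by
    have : Continuous fun δ : ℝ => (R + δ) * ∑ k, ∑ l, c k * c l * G k l := by fun_prop
    exact (this.tendsto 0).mono_left nhdsWithin_le_nhds
  rw [add_zero] at hcont
  refine ge_of_tendsto hcont ?_
  filter_upwards [self_mem_nhdsWithin] with δ hδ
  exact key δ hδ

section
variable {K : Type} [Field K] [NumberField K]

/-- the norm on the set of pairs of a component and a prime -/
def ny (K : Type) [Field K] [NumberField K] (A : Type) (x : A × HX K) : ℕ := (x.2.1 : ℕ)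

variable {A : Type} [Fintype A]

lemma normSysY : NormSys (ny K A) := by
  refine ⟨fun x => x.2.1.2.two_le, fun r hr => ?_⟩
  have h1 := (normSysH (K := K)).summable r hr
  have h2 : Summable fun x : A × HX K => (1 : ℝ) * (nx K x.2 : ℝ) ^ r :=
    Summable.mul_of_nonneg (f := fun _ : A => (1 : ℝ)) (g := fun x => (nx K x : ℝ) ^ r)
      (summable_of_hasFiniteSupport (Set.toFinite _)) h1 (fun _ => zero_le_one)
      (fun x => by positivity)
  refine h2.congr fun x => ?_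
  rw [one_mul]
  rfl

lemma EPY {ε : ℝ} (hε : 0 < ε) {φ : A × HX K → ℝ} {B : ℝ} (hφ : ∀ x, |φ x| ≤ B) :
    EP (ny K A) ε φ = ∑ a, EP (nx K) ε fun x => φ (a, x) := by
  have hs := summable_EP (normSysY (K := K) (A := A)) hε hφ
  unfold EP
  rw [hs.tsum_prod, tsum_fintype]
  rfl

lemma EPY_pos [Nonempty A] : ∀ᶠ ε : ℝ in 𝓝[>] 0, 0 < EP (ny K A) ε fun _ => 1 := by
  filter_upwards [(EPH_one (K := K)).eventually_const_lt (show (0 : ℝ) < 1 by norm_num),
    self_mem_nhdsWithin, lam_tendsto.eventually_gt_atTop 0] with ε h1 h2 h3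
  rw [EPY (B := 1) h2 (fun _ => by simp)]
  refine Finset.sum_pos (fun a _ => ?_) Finset.univ_nonempty
  have := mul_pos h1 h3
  rwa [div_mul_cancel₀ _ h3.ne'] at this

/-- **The engine for several components.** -/
theorem engineA [Nonempty A] {κ : Type*} [Fintype κ]
    {U : Ultrafilter ℝ} (hU : (U : Filter ℝ) ≤ 𝓝[>] 0)
    (vv : κ → A → HX K → ℂ) (B : κ → ℝ) (hvv : ∀ k a v, ‖vv k a v‖ ≤ B k)
    (G : κ → κ → ℝ) (hG : ∀ k l, Tendsto (fun ε : ℝ => ∑ a,
      (EP (nx K) ε fun v => (vv k a v * conj (vv l a v)).re) / lam ε) U (𝓝 (G k l)))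
    (t : A → HX K → ℂ) {b : ℝ} (ht : ∀ a v, ‖t a v‖ ≤ b)
    {R : ℝ} (hR : ∀ δ : ℝ, 0 < δ → ∀ᶠ ε : ℝ in (U : Filter ℝ),
      ∑ a, (EP (nx K) ε fun v => ‖t a v‖ ^ 2) / lam ε ≤ R + δ)
    (x : κ → ℝ) (hx : ∀ k, Tendsto (fun ε : ℝ => ∑ a,
      (EP (nx K) ε fun v => (t a v * conj (vv k a v)).re) / lam ε) U (𝓝 (x k))) (c : κ → ℝ) :
    0 ≤ ∑ k, ∑ l, c k * c l * G k l ∧
    (∑ k, c k * x k) ^ 2 ≤ R * ∑ k, ∑ l, c k * c l * G k l := by
  classical
  obtain ⟨x0⟩ : Nonempty (HX K) := (Pool.Agent.W353.TP.sysH K).nonempty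
  obtain ⟨a0⟩ : Nonempty A := inferInstance
  have hpos : ∀ᶠ ε : ℝ in (U : Filter ℝ), 0 < ε := hU self_mem_nhdsWithin
  have hb0 : 0 ≤ b := (norm_nonneg _).trans (ht a0 x0)
  have hB0 : ∀ k, 0 ≤ B k := fun k => (norm_nonneg _).trans (hvv k a0 x0)
  refine engineP (normSysY (K := K) (A := A)) (a0, x0) hU EPY_pos
    (fun k x => vv k x.1 x.2) B (fun k x => hvv k x.1 x.2) G (fun k l => ?_)
    (fun x => t x.1 x.2) (b := b) (fun x => ht x.1 x.2) (fun δ hδ => ?_) x (fun k => ?_) c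
  · refine (hG k l).congr' ?_
    filter_upwards [hpos] with ε hε
    rw [EPY (B := B k * B l) hε fun x => ?_, Finset.sum_div]
    refine (Complex.abs_re_le_norm _).trans ?_
    rw [norm_mul, Complex.norm_conj]
    exact mul_le_mul (hvv k _ _) (hvv l _ _) (norm_nonneg _) (hB0 k)
  · filter_upwards [hR δ hδ, hpos] with ε h1 hε
    rw [EPY (B := b ^ 2) hε fun x => ?_, Finset.sum_div]
    · exact h1
    · rw [abs_of_nonneg (sq_nonneg _)]
      exact pow_le_pow_left₀ (norm_nonneg _) (ht _ _) 2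
  · refine (hx k).congr' ?_
    filter_upwards [hpos] with ε hε
    rw [EPY (B := b * B k) hε fun x => ?_, Finset.sum_div]
    refine (Complex.abs_re_le_norm _).trans ?_
    rw [norm_mul, Complex.norm_conj]
    exact mul_le_mul (ht _ _) (hvv k _ _) (norm_nonneg _) hb0

end

end Pool.Agent.X298.HC
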