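import Pool.Agent.X298.HC.MDefs
import Pool.Agent.X298.HC.Full

/-! Representations induced from Hecke characters: the Gram matrix. -/

set_option autoImplicit false
set_option linter.unusedSectionVars false
open Filter Topology NumberField Ideal IsDedekindDomain ComplexConjugate

namespace Pool.Agent.X298.HC

open Pool.Agent.W540.BE Pool.Agent.H341R2
open Pool.Agent.W353.TP (HX sysH push res card_hom_le Fac iL iR pairs_sum summable_HX
  tsum_HX EH_eq E_H lamH_sub sum_push push_abs_le EH_push iL_iR_coe)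
open Pool.Agent.W353.NF (vx nm_vx vx_asIdeal)
open scoped TensorProduct

section
variable {K : Type} [Field K] [NumberField K]

/-- the norm on the homomorphisms to prime fields -/
def nx (K : Type) [Field K] [NumberField K] (x : HX K) : ℕ := (x.1 : ℕ)

lemma normSysH : NormSys (nx K) := ⟨fun x => x.1.2.two_le, fun _ hr => summable_HX hr⟩

lemma EPH (ε : ℝ) (φ : HX K → ℝ) : EP (nx K) ε φ = (sysH K).E ε φ := rfl

lemma EPH_eq {ε : ℝ} (hε : 0 < ε) {φ : HX K → ℝ} {B : ℝ} (hφ : ∀ x, |φ x| ≤ B) :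
    EP (nx K) ε φ = E ε fun p => ∑ u : 𝓞 K →+* ZMod (p : ℕ), φ ⟨p, u⟩ := EH_eq hε hφ

lemma EPH_one : Tendsto (fun ε : ℝ => (EP (nx K) ε fun _ => 1) / lam ε) (𝓝[>] 0) (𝓝 1) := by
  obtain ⟨C, hC⟩ := lamH_sub (K := K)
  have e1 : ∀ ε : ℝ, (EP (nx K) ε fun _ => 1) = (sysH K).lam ε := by
    intro ε
    unfold EP Pool.Agent.H341R2.NormSys.lam
    refine tsum_congr fun x => ?_
    rw [one_mul]
    rfl
  have h1 : Tendsto (fun ε : ℝ => ((EP (nx K) ε fun _ => 1) - lam ε) / lam ε) (𝓝[>] 0)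
      (𝓝 0) := by
    have hlim0 : Tendsto (fun ε : ℝ => C / lam ε) (𝓝[>] 0) (𝓝 0) :=
      tendsto_const_nhds.div_atTop lam_tendsto
    refine squeeze_zero_norm' ?_ hlim0
    filter_upwards [hC, lam_tendsto.eventually_gt_atTop 0] with ε h1 h2
    rw [Real.norm_eq_abs, abs_div, abs_of_pos h2, e1]
    exact div_le_div_of_nonneg_right h1 h2.le
  have h2 := h1.add (tendsto_const_nhds (x := (1 : ℝ)))
  rw [zero_add] at h2
  refine h2.congr' ?_
  filter_upwards [lam_tendsto.eventually_gt_atTop 0] with ε h2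
  field_simp
  ring

/-- from prime ideals to homomorphisms -/
lemma EP_vx {g : HeightOneSpectrum (𝓞 K) → ℝ} {C : ℝ} (hg : ∀ v, |g v| ≤ C) :
    Tendsto (fun ε : ℝ => (EP (nm K) ε g) / lam ε - (EP (nx K) ε fun x => g (vx x)) / lam ε)
      (𝓝[>] 0) (𝓝 0) := by
  have hlim0 : Tendsto (fun ε : ℝ => (C * Module.finrank ℚ K * Pool.Agent.H921R2.TatePole.C0) /
      lam ε) (𝓝[>] 0) (𝓝 0) :=
    tendsto_const_nhds.div_atTop lam_tendsto
  refine squeeze_zero_norm' ?_ hlim0
  filter_upwards [self_mem_nhdsWithin, lam_tendsto.eventually_gt_atTop 0] with ε h1 h2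
  have hε : (0 : ℝ) < ε := h1
  have h3 := E_H hg hε
  rw [← sub_div, Real.norm_eq_abs, abs_div, abs_of_pos h2]
  exact div_le_div_of_nonneg_right h3 h2.le

/-- bounded functions have bounded means -/
lemma EPH_abs_le {φ : HX K → ℝ} {B : ℝ} (hB : ∀ x, |φ x| ≤ B) {ε : ℝ} (hε : 0 < ε) :
    |EP (nx K) ε φ| ≤ B * EP (nx K) ε fun _ => 1 := by
  have hN : NormSys (nx K) := normSysH
  rw [abs_le]
  constructor
  · have h9 := EP_le hN hε (φ := fun v => (-1) * φ v) (B := B)
      (fun v => by rw [abs_mul, abs_neg, abs_one, one_mul]; exact hB v) (b := B)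
      (fun v => by have := (abs_le.1 (hB v)).1; linarith)
    rw [EP_const_mul] at h9
    linarith
  · exact EP_le hN hε hB fun v => (le_abs_self _).trans (hB v)

end

section
variable {F M : Type} [Field F] [NumberField F] [Field M] [NumberField M] [Algebra F M]

/-- the relative norm of a prime of degree one -/
lemma relNorm_vx (y : HX M) : relNorm (𝓞 F) (vx y).asIdeal =
    (vx (⟨y.1, y.2.comp (algebraMap (𝓞 F) (𝓞 M))⟩ : HX F)).asIdeal := by
  set x : HX F := ⟨y.1, y.2.comp (algebraMap (𝓞 F) (𝓞 M))⟩ with hx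
  have h1 : relNorm (𝓞 F) (vx y).asIdeal ≤ (vx x).asIdeal := by
    refine (relNorm_le_comap (𝓞 F) (vx y).asIdeal).trans (le_of_eq ?_)
    rw [vx_asIdeal, vx_asIdeal, hx, RingHom.comap_ker]
  obtain ⟨J, hJ⟩ := Ideal.dvd_iff_le.2 h1
  have h2 : absNorm (relNorm (𝓞 F) (vx y).asIdeal) = (y.1 : ℕ) := by
    rw [absNorm_relNorm]
    exact nm_vx y
  have h3 : absNorm (vx x).asIdeal = (y.1 : ℕ) := nm_vx x
  rw [hJ, map_mul, h3] at h2
  have h4 : absNorm J = 1 := by
    have h5 : (0 : ℕ) < (y.1 : ℕ) := y.1.2.pos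
    exact Nat.eq_of_mul_eq_mul_left h5 (by rw [h2, mul_one])
  rw [Ideal.absNorm_eq_one_iff] at h4
  rw [hJ, h4, Ideal.mul_top]

end

section
variable {F M : Type} [Field F] [NumberField F] [Field M] [NumberField M]

lemma lift_vx (ψ : HeckeChar F) (f : F →+* M) (y : HX M) :
    (ψ.lift f).toFun (vx y).asIdeal =
      ψ.toFun (vx (⟨y.1, y.2.comp (RingOfIntegers.mapRingHom f)⟩ : HX F)).asIdeal := by
  let _ : Algebra F M := f.toAlgebra
  unfold HeckeChar.lift
  rw [bc_apply, relNorm_vx]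
  rfl

lemma av_lift (ψ : HeckeChar F) (f : F →+* M) (τ : ℝ) (y : HX M) :
    av (ψ.lift f) τ (vx y) =
      av ψ τ (vx (⟨y.1, y.2.comp (RingOfIntegers.mapRingHom f)⟩ : HX F)) := by
  unfold av
  rw [lift_vx, nm_vx, nm_vx]

end

section
variable {K F F' : Type} [Field K] [NumberField K] [Field F] [NumberField F] [Algebra K F]
  [Field F'] [NumberField F'] [Algebra K F']

lemma iL_eq (m : MaximalSpectrum (F ⊗[K] F')) :
    iL K F F' m = RingOfIntegers.mapRingHom (fL K F F' m) := by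
  refine RingHom.ext fun x => RingOfIntegers.ext ?_
  have h := iL_iR_coe m x (1 : 𝓞 F')
  rw [map_one, mul_one] at h
  rw [h]
  rfl

lemma iR_eq (m : MaximalSpectrum (F ⊗[K] F')) :
    iR K F F' m = RingOfIntegers.mapRingHom (fR K F F' m) := by
  refine RingHom.ext fun x => RingOfIntegers.ext ?_
  have h := iL_iR_coe m (1 : 𝓞 F) x
  rw [map_one, one_mul] at h
  rw [h]
  rfl

end

end Pool.Agent.X298.HC
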