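import Pool.Agent.X298.HC.MGram

/-! Representations induced from Hecke characters: the Gram matrix, continued. -/

set_option autoImplicit false
set_option linter.unusedSectionVars false
open Filter Topology NumberField Ideal IsDedekindDomain ComplexConjugate

namespace Pool.Agent.X298.HC

open Pool.Agent.W540.BE Pool.Agent.H341R2
open Pool.Agent.W353.TP (HX sysH push res card_hom_le Fac iL iR pairs_sum summable_HX
  tsum_HX EH_eq E_H lamH_sub sum_push push_abs_le EH_push iL_iR_coe)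
open Pool.Agent.W353.NF (vx nm_vx vx_asIdeal)
open scoped TensorProduct

/-- the norm on the primes -/
def np (p : Nat.Primes) : ℕ := (p : ℕ)

lemma normSysP : NormSys np := ⟨fun p => p.2.two_le, fun _ hr =>
  Pool.Agent.H341R2.summable_prime_rpow hr⟩

lemma EPp (ε : ℝ) (φ : Nat.Primes → ℝ) : EP np ε φ = E ε φ := rfl

lemma card_hom_dq {K : Type} [Field K] [NumberField K] (p : Nat.Primes) :
    (Fintype.card (𝓞 K →+* ZMod (p : ℕ)) : ℝ) ≤ Pool.Agent.W353.TP.dq K := by
  unfold Pool.Agent.W353.TP.dq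
  exact_mod_cast card_hom_le p

/-- functions that differ at finitely many primes -/
lemma E_finite {φ : Nat.Primes → ℝ} {B : ℝ} (hφ : ∀ p, |φ p| ≤ B) {N : ℤ} (hN : N ≠ 0)
    (h : ∀ p : Nat.Primes, ¬ ((p : ℕ) : ℤ) ∣ N → φ p = 0) :
    Tendsto (fun ε : ℝ => E ε φ / lam ε) (𝓝[>] 0) (𝓝 0) := by
  have hfin : {p : Nat.Primes | ((p : ℕ) : ℤ) ∣ N}.Finite := by
    have h1 : {p : Nat.Primes | ((p : ℕ) : ℤ) ∣ N} ⊆
        (fun p : Nat.Primes => (p : ℕ)) ⁻¹' (N.natAbs.divisors : Set ℕ) := by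
      intro p hp
      rw [Set.mem_preimage, Finset.mem_coe, Nat.mem_divisors]
      exact ⟨Int.natCast_dvd.1 hp, by omega⟩
    exact (Set.Finite.preimage (fun _ _ _ _ h => Subtype.ext h)
      (Finset.finite_toSet _)).subset h1
  have hlim0 : Tendsto (fun ε : ℝ => (hfin.toFinset.card * B) / lam ε) (𝓝[>] 0) (𝓝 0) :=
    tendsto_const_nhds.div_atTop lam_tendsto
  refine squeeze_zero_norm' ?_ hlim0
  filter_upwards [self_mem_nhdsWithin, lam_tendsto.eventually_gt_atTop 0] with ε h1 h2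
  rw [Real.norm_eq_abs, abs_div, abs_of_pos h2]
  refine div_le_div_of_nonneg_right ?_ h2.le
  have := EP_finsupp (normSysP : NormSys np) hfin.toFinset φ (fun p hp => by
    rw [Set.Finite.mem_toFinset, Set.mem_ofPred_eq] at hp
    exact h p hp) B hφ h1
  exact this

section
variable {K F F' : Type} [Field K] [NumberField K] [Field F] [NumberField F] [Algebra K F]
  [Field F'] [NumberField F'] [Algebra K F']

open Classical in
lemma norm_push_le {h : HX F → ℂ} (hb : ∀ y, ‖h y‖ ≤ 1) (x : HX K) :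
    ‖push K h x‖ ≤ Module.finrank ℚ F := by
  unfold push
  refine (norm_sum_le _ _).trans ?_
  refine (Finset.sum_le_sum fun ψ _ => hb _).trans ?_
  rw [Finset.sum_const, nsmul_eq_mul, mul_one]
  have h1 := Finset.card_filter_le (Finset.univ : Finset (𝓞 F →+* ZMod (x.1 : ℕ)))
    (fun ψ => res K ψ = x.2)
  rw [Finset.card_univ] at h1
  exact_mod_cast h1.trans (card_hom_le x.1)

/-- the function on the homomorphisms of a factor of the tensor product -/
noncomputable def fh (h : HX F → ℂ) (h' : HX F' → ℂ) (m : MaximalSpectrum (F ⊗[K] F'))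
    (y : HX (Fac K F F' m)) : ℂ :=
  conj (h ⟨y.1, y.2.comp (iL K F F' m)⟩) * h' ⟨y.1, y.2.comp (iR K F F' m)⟩

lemma norm_fh {h : HX F → ℂ} {h' : HX F' → ℂ} (hb : ∀ y, ‖h y‖ ≤ 1) (hb' : ∀ y, ‖h' y‖ ≤ 1)
    (m : MaximalSpectrum (F ⊗[K] F')) (y : HX (Fac K F F' m)) : ‖fh h h' m y‖ ≤ 1 := by
  unfold fh
  rw [norm_mul, Complex.norm_conj]
  exact mul_le_one₀ (hb _) (norm_nonneg _) (hb' _)

/-- **Mackey's formula for the means.** -/
theorem push_gram {h : HX F → ℂ} {h' : HX F' → ℂ} (hb : ∀ y, ‖h y‖ ≤ 1)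
    (hb' : ∀ y, ‖h' y‖ ≤ 1) : Tendsto (fun ε : ℝ =>
      (EP (nx K) ε fun x => (conj (push K h x) * push K h' x).re) / lam ε -
      ∑ m : MaximalSpectrum (F ⊗[K] F'),
        (EP (nx (Fac K F F' m)) ε fun y => (fh h h' m y).re) / lam ε) (𝓝[>] 0) (𝓝 0) := by
  classical
  obtain ⟨N, hN, hsum⟩ := pairs_sum K F F'
  set dF : ℝ := ((Module.finrank ℚ F : ℕ) : ℝ) with hdF
  set dF' : ℝ := ((Module.finrank ℚ F' : ℕ) : ℝ) with hdF'
  set A : Nat.Primes → ℝ := fun p => ∑ u : 𝓞 K →+* ZMod (p : ℕ),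
    (conj (push K h ⟨p, u⟩) * push K h' ⟨p, u⟩).re with hA
  set C : MaximalSpectrum (F ⊗[K] F') → Nat.Primes → ℝ := fun m p =>
    ∑ u : 𝓞 (Fac K F F' m) →+* ZMod (p : ℕ), (fh h h' m ⟨p, u⟩).re with hC
  have b1 : ∀ x : HX K, |(conj (push K h x) * push K h' x).re| ≤ dF * dF' := by
    intro x
    refine (Complex.abs_re_le_norm _).trans ?_
    rw [norm_mul, Complex.norm_conj]
    exact mul_le_mul (norm_push_le hb x) (norm_push_le hb' x) (norm_nonneg _) (by positivity)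
  have b2 : ∀ m (y : HX (Fac K F F' m)), |(fh h h' m y).re| ≤ 1 := fun m y =>
    (Complex.abs_re_le_norm _).trans (norm_fh hb hb' m y)
  have hAb : ∀ p, |A p| ≤ Module.finrank ℚ K * (dF * dF') := by
    intro p
    refine (Finset.abs_sum_le_sum_abs _ _).trans ?_
    refine (Finset.sum_le_sum fun u _ => b1 _).trans ?_
    rw [Finset.sum_const, nsmul_eq_mul, Finset.card_univ]
    exact mul_le_mul_of_nonneg_right (by exact_mod_cast card_hom_le p) (by positivity)
  have hCb : ∀ m p, |C m p| ≤ Pool.Agent.W353.TP.dq (Fac K F F' m) := by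
    intro m p
    refine (Finset.abs_sum_le_sum_abs _ _).trans ?_
    refine (Finset.sum_le_sum fun u _ => b2 m _).trans ?_
    rw [Finset.sum_const, nsmul_eq_mul, Finset.card_univ, mul_one]
    exact card_hom_dq p
  have hCs : ∀ p, |∑ m, C m p| ≤ ∑ m : MaximalSpectrum (F ⊗[K] F'),
      Pool.Agent.W353.TP.dq (Fac K F F' m) := fun p =>
    (Finset.abs_sum_le_sum_abs _ _).trans (Finset.sum_le_sum fun m _ => hCb m p)
  have heq : ∀ p : Nat.Primes, ¬ ((p : ℕ) : ℤ) ∣ N → A p + (-1) * ∑ m, C m p = 0 := by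
    intro p hp
    have h1 := hsum p hp (fun ψ ψ' => (conj (h ⟨p, ψ⟩) * h' ⟨p, ψ'⟩).re)
    have h2 : A p = ∑ u : 𝓞 K →+* ZMod (p : ℕ), (∑ ψ ∈ Finset.univ.filter
        (fun ψ : 𝓞 F →+* ZMod (p : ℕ) => res K ψ = u), ∑ ψ' ∈ Finset.univ.filter
        (fun ψ' : 𝓞 F' →+* ZMod (p : ℕ) => res K ψ' = u),
          (conj (h ⟨p, ψ⟩) * h' ⟨p, ψ'⟩).re) := by
      rw [hA]
      refine Finset.sum_congr rfl fun u _ => ?_
      unfold push
      rw [map_sum, Finset.sum_mul_sum, Complex.re_sum]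
      refine Finset.sum_congr rfl fun ψ _ => ?_
      rw [Complex.re_sum]
    rw [h2, h1]
    have h3 : ∑ m, C m p = ∑ m : MaximalSpectrum (F ⊗[K] F'),
        ∑ Ψ : 𝓞 (Fac K F F' m) →+* ZMod (p : ℕ),
        (conj (h ⟨p, Ψ.comp (iL K F F' m)⟩) * h' ⟨p, Ψ.comp (iR K F F' m)⟩).re := rfl
    rw [h3]
    ring
  have hmain := E_finite (φ := fun p => A p + (-1) * ∑ m, C m p)
    (B := Module.finrank ℚ K * (dF * dF') + ∑ m : MaximalSpectrum (F ⊗[K] F'),
      Pool.Agent.W353.TP.dq (Fac K F F' m)) (fun p => by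
      refine (abs_add_le _ _).trans (add_le_add (hAb p) ?_)
      rw [abs_mul, abs_neg, abs_one, one_mul]
      exact hCs p) hN heq
  refine hmain.congr' ?_
  filter_upwards [self_mem_nhdsWithin] with ε hε
  have hε' : (0 : ℝ) < ε := hε
  rw [E_add hε' hAb (B' := ∑ m : MaximalSpectrum (F ⊗[K] F'),
      Pool.Agent.W353.TP.dq (Fac K F F' m)) (fun p => by
      rw [abs_mul, abs_neg, abs_one, one_mul]
      exact hCs p), E_const_mul,
    E_sum hε' Finset.univ C (fun m => Pool.Agent.W353.TP.dq (Fac K F F' m)) (fun m _ p => hCb m p),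
    EPH_eq hε' b1, add_div]
  congr 1
  rw [← Finset.sum_div]
  have e1 : ∀ m, (EP (nx (Fac K F F' m)) ε fun y => (fh h h' m y).re) = E ε (C m) := fun m =>
    EPH_eq hε' (b2 m)
  rw [Finset.sum_congr rfl fun m _ => (e1 m).symm]
  ring

/-- the trace of the representation of the Weil group of `K` induced from `ψ N^{-iτ}` -/
noncomputable def wv (K : Type) {F : Type} [Field K] [NumberField K] [Field F] [NumberField F]
    [Algebra K F] (ψ : HeckeChar F) (τ : ℝ) (x : HX K) : ℂ :=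
  push K (fun y : HX F => av ψ τ (vx y)) x

lemma norm_wv (ψ : HeckeChar F) (τ : ℝ) (x : HX K) : ‖wv K ψ τ x‖ ≤ Module.finrank ℚ F :=
  norm_push_le (fun _ => norm_av_le _ _ _) x

variable (K) in
/-- the intertwining number of two induced representations, by Mackey's formula -/
noncomputable def gn (ψ : HeckeChar F) (ψ' : HeckeChar F') (τ σ : ℝ) : ℝ :=
  ∑ m : MaximalSpectrum (F ⊗[K] F'), same (ψ.lift (fL K F F' m)) (ψ'.lift (fR K F F' m)) τ σ

/-- **The Gram matrix.** -/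
theorem gramM (ψ : HeckeChar F) (ψ' : HeckeChar F') (τ σ : ℝ) : Tendsto (fun ε : ℝ =>
    (EP (nx K) ε fun x => (conj (wv K ψ τ x) * wv K ψ' σ x).re) / lam ε) (𝓝[>] 0)
    (𝓝 (gn K ψ ψ' τ σ)) := by
  have h1 := push_gram (K := K) (h := fun y : HX F => av ψ τ (vx y))
    (h' := fun y : HX F' => av ψ' σ (vx y)) (fun _ => norm_av_le _ _ _)
    (fun _ => norm_av_le _ _ _)
  have h2 : ∀ m : MaximalSpectrum (F ⊗[K] F'), Tendsto (fun ε : ℝ =>
      (EP (nx (Fac K F F' m)) ε fun y => (fh (fun y : HX F => av ψ τ (vx y))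
        (fun y : HX F' => av ψ' σ (vx y)) m y).re) / lam ε) (𝓝[>] 0)
      (𝓝 (same (ψ.lift (fL K F F' m)) (ψ'.lift (fR K F F' m)) τ σ)) := by
    intro m
    set ψ₁ := ψ.lift (fL K F F' m) with hψ₁
    set ψ₂ := ψ'.lift (fR K F F' m) with hψ₂
    have h3 := gram_hecke ψ₁ ψ₂ τ σ
    have h4 := EP_vx (K := Fac K F F' m) (g := fun v => (conj (av ψ₁ τ v) *
      conj (conj (av ψ₂ σ v))).re) (C := 1) (fun v => by
        refine (Complex.abs_re_le_norm _).trans ?_
        rw [norm_mul, Complex.norm_conj, Complex.norm_conj, Complex.norm_conj]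
        exact mul_le_one₀ (norm_av_le _ _ _) (norm_nonneg _) (norm_av_le _ _ _))
    have h5 := h3.sub h4
    rw [sub_zero] at h5
    refine h5.congr fun ε => ?_
    rw [sub_sub_cancel]
    congr 2
    funext y
    unfold fh
    rw [Complex.conj_conj, hψ₁, hψ₂, av_lift, av_lift, ← iL_eq, ← iR_eq]
  have h3 := h1.add (tendsto_finsetSum Finset.univ fun m _ => h2 m)
  rw [zero_add] at h3
  refine h3.congr fun ε => ?_
  rw [sub_add_cancel]
  rfl

end

end Pool.Agent.X298.HC
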