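import Pool.Agent.X298.HC.MProd
import Pool.Agent.X298.HC.Kun

/-! Limits of the sizes of the twists by virtual representations. -/

set_option autoImplicit false
set_option linter.unusedSectionVars false
open Filter Topology NumberField Ideal IsDedekindDomain ComplexConjugate Polynomial

namespace Pool.Agent.X298.HC

open Pool.Agent.W540.BE Pool.Agent.H341R2
open Pool.Agent.W353.TP (HX push res)
open Pool.Agent.W353.NF (vx nm_vx vx_asIdeal)
open Pool.Agent.W353.EH (edgePoint size HasOrder)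

section
variable {K : Type} [Field K] [NumberField K]

lemma inter_comm' (ρ ρ' : Virt K) : ρ.inter ρ' = ρ'.inter ρ := by
  have h1 := gram_virt ρ ρ'
  have h2 := gram_virt ρ' ρ
  have h3 : (ρ.inter ρ' : ℝ) = (ρ'.inter ρ : ℝ) := by
    refine tendsto_nhds_unique h1 (h2.congr fun ε => ?_)
    congr 2
    funext x
    rw [← Complex.conj_re, map_mul, Complex.conj_conj, mul_comm]
  exact_mod_cast h3

end

section
variable {K : Type} [Field K] [NumberField K] {n : ℕ}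
variable (X : Set (MvPolynomial (Fin n) (𝓞 K))) (d : ℕ) (N : ℕ → ℕ)

/-- the mean of a twist by a monomial representation -/
noncomputable def yM (a : ℕ) (π : Mono K) (ε : ℝ) : ℝ :=
  (EP (nx K) ε fun x => (tX X d a (N a) (vx x) * π.trace (vx x)).re) / lam ε

/-- the mean of a twist by a virtual representation -/
noncomputable def yV (a : ℕ) (ρ : Virt K) (ε : ℝ) : ℝ :=
  (EP (nx K) ε fun x => (tX X d a (N a) (vx x) * ρ.trace (vx x)).re) / lam ε

variable {X d N}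

lemma yM_bdd (a : ℕ) (π : Mono K) : ∀ᶠ ε : ℝ in 𝓝[>] 0,
    |yM X d N a π ε| ≤ 2 * (N a * Module.finrank ℚ π.F) := by
  filter_upwards [(EPH_one (K := K)).eventually_lt_const (show (1 : ℝ) < 2 by norm_num),
    self_mem_nhdsWithin, lam_tendsto.eventually_gt_atTop 0] with ε h1 h2 h3
  have hε : (0 : ℝ) < ε := h2
  have hb1 : ∀ x : HX K, |(tX X d a (N a) (vx x) * π.trace (vx x)).re| ≤
      N a * Module.finrank ℚ π.F := by
    intro x
    refine (Complex.abs_re_le_norm _).trans ?_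
    rw [norm_mul, trace_vx]
    exact mul_le_mul (norm_tX_le X d a (N a) _) (norm_wv _ _ _) (norm_nonneg _)
      (Nat.cast_nonneg _)
  have h8 := EPH_abs_le hb1 hε
  unfold yM
  rw [abs_div, abs_of_pos h3, div_le_iff₀ h3]
  refine h8.trans ?_
  rw [div_lt_iff₀ h3] at h1
  have hm0 : (0 : ℝ) ≤ N a * Module.finrank ℚ π.F := by positivity
  nlinarith

lemma yV_eq (a : ℕ) (ρ : Virt K) {ε : ℝ} (hε : 0 < ε) :
    yV X d N a ρ ε = ρ.sum fun π n => (n : ℝ) * yM X d N a π ε := by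
  have hN : NormSys (nx K) := normSysH
  unfold yV
  have e1 : (fun x : HX K => (tX X d a (N a) (vx x) * ρ.trace (vx x)).re) = fun x =>
      ∑ π ∈ ρ.support, (ρ π : ℝ) * (tX X d a (N a) (vx x) * π.trace (vx x)).re := by
    funext x
    rw [trace_eq_sum, Finset.mul_sum, Complex.re_sum]
    refine Finset.sum_congr rfl fun π _ => ?_
    have : tX X d a (N a) (vx x) * ((ρ π : ℂ) * π.trace (vx x)) =
        (((ρ π : ℝ)) : ℂ) * (tX X d a (N a) (vx x) * π.trace (vx x)) := by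
      push_cast
      ring
    rw [this, Complex.re_ofReal_mul]
  rw [e1, EP_sum hN hε _ _ (fun π => |(ρ π : ℝ)| * (N a * Module.finrank ℚ π.F)) (by
    intro π _ x
    rw [abs_mul]
    refine mul_le_mul_of_nonneg_left ?_ (abs_nonneg _)
    refine (Complex.abs_re_le_norm _).trans ?_
    rw [norm_mul, trace_vx]
    exact mul_le_mul (norm_tX_le X d a (N a) _) (norm_wv _ _ _) (norm_nonneg _)
      (Nat.cast_nonneg _)), Finset.sum_div]
  unfold Finsupp.sum
  refine Finset.sum_congr rfl fun π _ => ?_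
  rw [EP_const_mul]
  unfold yM
  ring

/-- the limit for a virtual representation, from those for the monomial ones -/
noncomputable def xV (x : ℕ → Mono K → ℝ) (a : ℕ) (ρ : Virt K) : ℝ :=
  ρ.sum fun π n => (n : ℝ) * x a π

lemma xV_add (x : ℕ → Mono K → ℝ) (a : ℕ) (ρ ρ' : Virt K) :
    xV x a (ρ + ρ') = xV x a ρ + xV x a ρ' := by
  unfold xV
  exact Finsupp.sum_add_index' (by intro; simp) (by intros; push_cast; ring)

lemma xV_sub (x : ℕ → Mono K → ℝ) (a : ℕ) (ρ ρ' : Virt K) :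
    xV x a (ρ - ρ') = xV x a ρ - xV x a ρ' := by
  rw [eq_sub_iff_add_eq, ← xV_add, sub_add_cancel]

lemma yV_lim {F : Filter ℝ} (hF : F ≤ 𝓝[>] 0) {x : ℕ → Mono K → ℝ} {a : ℕ} {ρ : Virt K}
    (hx : ∀ π ∈ ρ.support, Tendsto (yM X d N a π) F (𝓝 (x a π))) :
    Tendsto (yV X d N a ρ) F (𝓝 (xV x a ρ)) := by
  have h1 : Tendsto (fun ε : ℝ => ρ.sum fun π n => (n : ℝ) * yM X d N a π ε) F
      (𝓝 (xV x a ρ)) := by
    unfold xV Finsupp.sum
    exact tendsto_finsetSum _ fun π hπ => (hx π hπ).const_mul _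
  refine h1.congr' ?_
  filter_upwards [hF self_mem_nhdsWithin] with ε hε
  exact (yV_eq a ρ hε).symm

/-- the second moments -/
lemma second_all {R : ℕ → ℕ} (hR : SecondMoment X d N R) : ∀ δ : ℝ, 0 < δ →
    ∀ᶠ ε : ℝ in 𝓝[>] 0, ∑ a : Fin (2 * d + 1),
      (EP (nx K) ε fun x => ‖tX X d a (N a) (vx x)‖ ^ 2) / lam ε ≤
        ((∑ a ∈ Finset.range (2 * d + 1), R a : ℕ) : ℝ) + δ := by
  intro δ hδ
  set c : ℝ := δ / (2 * (2 * d + 1)) with hc
  have hc0 : 0 < c := by positivity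
  have h1 : ∀ a : Fin (2 * d + 1), ∀ᶠ ε : ℝ in 𝓝[>] 0,
      (EP (nx K) ε fun x => ‖tX X d a (N a) (vx x)‖ ^ 2) / lam ε ≤ R a + 2 * c := by
    intro a
    have h2 := second hR (show (a : ℕ) ≤ 2 * d by omega) c hc0
    have h3 := (second_vx (X := X) (d := d) (a := (a : ℕ)) (N := N a)).eventually_const_lt
      (show (-c) < 0 by linarith)
    filter_upwards [h2, h3] with ε h4 h5
    linarith
  filter_upwards [Filter.eventually_all.2 h1] with ε h2
  refine (Finset.sum_le_sum fun a _ => h2 a).trans (le_of_eq ?_)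
  rw [Finset.sum_add_distrib, Finset.sum_const, Finset.card_univ, Fintype.card_fin,
    Finset.sum_range (fun a => R a)]
  push_cast
  rw [nsmul_eq_mul, hc]
  push_cast
  field_simp

/-- the functional on the tuples -/
noncomputable def LT (x : ℕ → Mono K → ℝ) (d : ℕ) (σ : ℕ → Virt K) : ℝ :=
  ∑ a : Fin (2 * d + 1), xV x a (σ a)

lemma GT_comm (σ σ' : ℕ → Virt K) : tupleInter d σ σ' = tupleInter d σ' σ :=
  Finset.sum_congr rfl fun _ _ => inter_comm' _ _

/-- **The Gram inequality for tuples.** -/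
theorem gram_tuple {R : ℝ} {U : Ultrafilter ℝ} (hU : (U : Filter ℝ) ≤ 𝓝[>] 0)
    (hR : ∀ δ : ℝ, 0 < δ → ∀ᶠ ε : ℝ in 𝓝[>] 0, ∑ a : Fin (2 * d + 1),
      (EP (nx K) ε fun x => ‖tX X d a (N a) (vx x)‖ ^ 2) / lam ε ≤ R + δ)
    {x : ℕ → Mono K → ℝ} (hx : ∀ a π, Tendsto (yM X d N a π) U (𝓝 (x a π)))
    {κ : Type*} [Fintype κ] (σ : κ → ℕ → Virt K) (c : κ → ℝ) :
    0 ≤ ∑ k, ∑ l, c k * c l * (tupleInter d (σ k) (σ l) : ℝ) ∧
    (∑ k, c k * LT x d (σ k)) ^ 2 ≤ R * ∑ k, ∑ l, c k * c l * (tupleInter d (σ k) (σ l) : ℝ) := by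
  classical
  set Bk : κ → ℝ := fun k => ∑ a : Fin (2 * d + 1), |((σ k a).bd)| with hBk
  refine engineA (K := K) (A := Fin (2 * d + 1)) hU (fun k a x => conj ((σ k a).trace (vx x)))
    Bk (fun k a x => ?_) (fun k l => (tupleInter d (σ k) (σ l) : ℝ)) (fun k l => ?_)
    (fun a x => tX X d a (N a) (vx x)) (b := ∑ a : Fin (2 * d + 1), (N a : ℝ))
    (fun a x => ?_) (fun δ hδ => hU (hR δ hδ)) (fun k => LT x d (σ k)) (fun k => ?_) c
  · rw [Complex.norm_conj]
    refine (norm_trace_le _ x).trans ((le_abs_self _).trans ?_)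
    exact Finset.single_le_sum (f := fun a : Fin (2 * d + 1) => |((σ k a).bd)|)
      (fun _ _ => abs_nonneg _) (Finset.mem_univ a)
  · have h1 : Tendsto (fun ε : ℝ => ∑ a : Fin (2 * d + 1), (EP (nx K) ε fun x =>
        (conj ((σ k a).trace (vx x)) * (σ l a).trace (vx x)).re) / lam ε) (𝓝[>] 0)
        (𝓝 (∑ a : Fin (2 * d + 1), ((σ k a).inter (σ l a) : ℝ))) :=
      tendsto_finsetSum _ fun a _ => gram_virt _ _
    have e1 : (tupleInter d (σ k) (σ l) : ℝ) = ∑ a : Fin (2 * d + 1), ((σ k a).inter (σ l a) : ℝ) := by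
      unfold tupleInter
      push_cast
      rfl
    rw [e1]
    refine (h1.mono_left hU).congr fun ε => ?_
    simp only [Complex.conj_conj]
  · refine (norm_tX_le X d a (N a) _).trans ?_
    exact Finset.single_le_sum (f := fun a : Fin (2 * d + 1) => (N a : ℝ))
      (fun _ _ => Nat.cast_nonneg _) (Finset.mem_univ a)
  · unfold LT
    refine tendsto_finsetSum _ fun a _ => ?_
    refine (yV_lim hU (ρ := σ k a) fun π _ => hx a π).congr fun ε => ?_
    simp only [Complex.conj_conj]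
    rfl

/-- the inner products are nonnegative -/
lemma GT_nonneg {R : ℝ} {U : Ultrafilter ℝ} (hU : (U : Filter ℝ) ≤ 𝓝[>] 0)
    (hR : ∀ δ : ℝ, 0 < δ → ∀ᶠ ε : ℝ in 𝓝[>] 0, ∑ a : Fin (2 * d + 1),
      (EP (nx K) ε fun x => ‖tX X d a (N a) (vx x)‖ ^ 2) / lam ε ≤ R + δ)
    {x : ℕ → Mono K → ℝ} (hx : ∀ a π, Tendsto (yM X d N a π) U (𝓝 (x a π)))
    (σ : ℕ → Virt K) : 0 ≤ tupleInter d σ σ ∧ LT x d σ ^ 2 ≤ R * (tupleInter d σ σ : ℝ) := by
  have h := gram_tuple hU hR hx (κ := Unit) (fun _ => σ) (fun _ => 1)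
  simp only [Finset.univ_unique, Finset.sum_const, Finset.card_singleton, one_smul, one_mul] at h
  exact ⟨by exact_mod_cast h.1, h.2⟩

/-- **The number of pairwise orthogonal tuples with large values.** -/
theorem card_tuple {R : ℝ} (hR0 : 0 ≤ R) {U : Ultrafilter ℝ} (hU : (U : Filter ℝ) ≤ 𝓝[>] 0)
    (hR : ∀ δ : ℝ, 0 < δ → ∀ᶠ ε : ℝ in 𝓝[>] 0, ∑ a : Fin (2 * d + 1),
      (EP (nx K) ε fun x => ‖tX X d a (N a) (vx x)‖ ^ 2) / lam ε ≤ R + δ)
    {x : ℕ → Mono K → ℝ} (hx : ∀ a π, Tendsto (yM X d N a π) U (𝓝 (x a π)))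
    {κ : Type*} [Fintype κ] (σ : κ → ℕ → Virt K) (horth : ∀ k l, k ≠ l → tupleInter d (σ k) (σ l) = 0)
    {r : ℝ} (hr00 : 0 ≤ r) (hr : ∀ k, (tupleInter d (σ k) (σ k) : ℝ) ≤ r) {δ : ℝ} (hδ : 0 < δ)
    (hl : ∀ k, δ ≤ |LT x d (σ k)|) : (Fintype.card κ : ℝ) * δ ^ 2 ≤ r * R := by
  classical
  rcases isEmpty_or_nonempty κ with hE | ⟨⟨k0⟩⟩
  · rw [Fintype.card_of_isEmpty]
    rw [Nat.cast_zero, zero_mul]
    positivity
  have hq : ∀ k, 0 < (tupleInter d (σ k) (σ k) : ℝ) := by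
    intro k
    obtain ⟨h1, h2⟩ := GT_nonneg hU hR hx (σ k)
    rcases h1.lt_or_eq with h3 | h3
    · exact_mod_cast h3
    · exfalso
      rw [← h3, Int.cast_zero, mul_zero] at h2
      have h4 : LT x d (σ k) = 0 := by nlinarith [sq_nonneg (LT x d (σ k))]
      have h5 := hl k
      rw [h4, abs_zero] at h5
      linarith
  have hr0 : 0 < r := (hq k0).trans_le (hr k0)
  set q : κ → ℝ := fun k => (tupleInter d (σ k) (σ k) : ℝ) with hqd
  obtain ⟨-, h2⟩ := gram_tuple hU hR hx σ (fun k => LT x d (σ k) / q k)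
  have e1 : ∑ k, LT x d (σ k) / q k * LT x d (σ k) = ∑ k, LT x d (σ k) ^ 2 / q k :=
    Finset.sum_congr rfl fun k _ => by ring
  have e2 : ∑ k, ∑ l, LT x d (σ k) / q k * (LT x d (σ l) / q l) * (tupleInter d (σ k) (σ l) : ℝ) =
      ∑ k, LT x d (σ k) ^ 2 / q k := by
    refine Finset.sum_congr rfl fun k _ => ?_
    rw [Finset.sum_eq_single k]
    · have : (tupleInter d (σ k) (σ k) : ℝ) = q k := rfl
      rw [this]
      have hqk : q k ≠ 0 := (hq k).ne'
      field_simp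
    · intro l _ hlk
      rw [horth k l hlk.symm, Int.cast_zero, mul_zero]
    · intro h
      exact absurd (Finset.mem_univ k) h
  rw [e1, e2] at h2
  set s := ∑ k, LT x d (σ k) ^ 2 / q k with hs
  have hs0 : 0 ≤ s := Finset.sum_nonneg fun k _ => div_nonneg (sq_nonneg _) (hq k).le
  have h3 : s ≤ R := by
    by_contra hcon
    push Not at hcon
    have hspos : 0 < s := hR0.trans_lt hcon
    nlinarith
  have h4 : (Fintype.card κ : ℝ) * (δ ^ 2 / r) ≤ s := by
    rw [← nsmul_eq_mul, ← Finset.card_univ]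
    refine Finset.card_nsmul_le_sum _ _ _ fun k _ => ?_
    have h5 : δ ^ 2 ≤ LT x d (σ k) ^ 2 := by
      rw [← sq_abs (LT x d (σ k))]
      exact pow_le_pow_left₀ hδ.le (hl k) 2
    calc δ ^ 2 / r ≤ δ ^ 2 / q k := div_le_div_of_nonneg_left (sq_nonneg _) (hq k) (hr k)
      _ ≤ LT x d (σ k) ^ 2 / q k := div_le_div_of_nonneg_right h5 (hq k).le
  have h5 := h4.trans h3
  have h6 := mul_le_mul_of_nonneg_left h5 hr0.le
  have h7 : r * ((Fintype.card κ : ℝ) * (δ ^ 2 / r)) = (Fintype.card κ : ℝ) * δ ^ 2 := by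
    field_simp
  rwa [h7] at h6

end

end Pool.Agent.X298.HC
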