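import Pool.Agent.X298.HC.MLim

/-! The Künneth formula for products with varieties with potentially abelian cohomology. -/

set_option autoImplicit false
set_option linter.unusedSectionVars false
open Filter Topology NumberField Ideal IsDedekindDomain ComplexConjugate Polynomial

namespace Pool.Agent.X298.HC

open Pool.Agent.W540.BE Pool.Agent.H341R2
open Pool.Agent.W353.TP (HX push res)
open Pool.Agent.W353.NF (vx nm_vx vx_asIdeal)
open Pool.Agent.W353.EH (edgePoint size HasOrder)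

section
variable {K : Type} [Field K] [NumberField K]

lemma shift_zero (ρ : Virt K) : ρ.shift 0 = ρ := by
  unfold Virt.shift
  have h : (Mono.shift 0 : Mono K → Mono K) = id := by
    funext π
    unfold Mono.shift
    rw [add_zero]
    rfl
  rw [h, Finsupp.mapDomain_id]

lemma shift_sub (σ : ℝ) (ρ ρ' : Virt K) : (ρ - ρ').shift σ = ρ.shift σ - ρ'.shift σ := by
  unfold Virt.shift
  exact map_sub (Finsupp.mapDomain.addMonoidHom (Mono.shift σ)) ρ ρ'

lemma inter_shift (σ : ℝ) (ρ ρ' : Virt K) : (ρ.shift σ).inter (ρ'.shift σ) = ρ.inter ρ' := by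
  have h1 := gram_virt (ρ.shift σ) (ρ'.shift σ)
  have h2 := gram_virt ρ ρ'
  have h3 : ((ρ.shift σ).inter (ρ'.shift σ) : ℝ) = (ρ.inter ρ' : ℝ) := by
    refine tendsto_nhds_unique h1 (h2.congr fun ε => ?_)
    congr 2
    funext x
    rw [trace_shift, trace_shift, map_mul]
    have h4 : conj (zt σ (vx x)) * zt σ (vx x) = 1 := by
      rw [mul_comm, Complex.mul_conj, Complex.normSq_eq_norm_sq, norm_zt]
      simp
    have h5 : conj (ρ.trace (vx x)) * conj (zt σ (vx x)) * (ρ'.trace (vx x) * zt σ (vx x)) =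
        conj (ρ.trace (vx x)) * ρ'.trace (vx x) * (conj (zt σ (vx x)) * zt σ (vx x)) := by ring
    rw [h5, h4, mul_one]
  exact_mod_cast h3

lemma trace_sub (ρ ρ' : Virt K) (v : HeightOneSpectrum (𝓞 K)) :
    (ρ - ρ').trace v = ρ.trace v - ρ'.trace v := by
  have h : ∀ ρ ρ' : Virt K, (ρ + ρ').trace v = ρ.trace v + ρ'.trace v := by
    intro ρ ρ'
    unfold Virt.trace
    exact Finsupp.sum_add_index' (by intro; simp) (by intros; push_cast; ring)
  rw [eq_sub_iff_add_eq, ← h, sub_add_cancel]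

lemma zero_inter (ρ : Virt K) : (0 : Virt K).inter ρ = 0 := by
  unfold Virt.inter
  exact Finsupp.sum_zero_index

/-- sums over the degrees -/
lemma sum_degrees {A : Type*} [AddCommMonoid A] (d e i : ℕ) (f : ℕ × ℕ → A) :
    ∑ p ∈ degrees d e i, f p =
      ∑ a : Fin (2 * d + 1), if ((a : ℕ), i - a) ∈ degrees d e i then f (a, i - a) else 0 := by
  classical
  rw [← Finset.sum_filter]
  refine Finset.sum_bij' (fun p hp => (⟨p.1, by
      have := (mem_degrees.1 hp).2.1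
      omega⟩ : Fin (2 * d + 1))) (fun a _ => ((a : ℕ), i - a)) ?_ ?_ ?_ ?_ ?_
  · intro p hp
    rw [Finset.mem_filter]
    refine ⟨Finset.mem_univ _, ?_⟩
    have h1 := (mem_degrees.1 hp).1
    have h2 : ((p.1, i - p.1) : ℕ × ℕ) = p := Prod.ext rfl (by simp only; omega)
    simp only
    rw [h2]
    exact hp
  · intro a ha
    exact (Finset.mem_filter.1 ha).2
  · intro p hp
    have h1 := (mem_degrees.1 hp).1
    exact Prod.ext rfl (by simp only; omega)
  · intro a _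
    rfl
  · intro p hp
    have h1 := (mem_degrees.1 hp).1
    have h2 : ((p.1, i - p.1) : ℕ × ℕ) = p := Prod.ext rfl (by simp only; omega)
    simp only
    rw [h2]

end

section
variable {K : Type} [Field K] [NumberField K] {n n' : ℕ}
variable {X : Set (MvPolynomial (Fin n) (𝓞 K))} {d : ℕ} {N : ℕ → ℕ}
variable {Y : Set (MvPolynomial (Fin n') (𝓞 K))} {e : ℕ} {M : ℕ → ℕ}
  {ρ κ : ℕ → Virt K}

/-- the size of a twist by a virtual representation -/
lemma virt_size {a : ℕ} (ha : a ≤ 2 * d) {κ : Virt K}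
    {B : ∀ π : Mono K, HeightOneSpectrum (𝓞 π.F) → ℂ[X]}
    (hB : ∀ π ∈ κ.support, IsTwistBy X d a (N a) π (B π)) : ∀ᶠ ε : ℝ in 𝓝[>] 0,
      κ.LFun B (edgePoint a 0 + ε) ≠ 0 ∧
      κ.size a B ε = ∑ π ∈ κ.support, (κ π : ℝ) * size a π.τ (B π) ε := by
  have h1 : ∀ᶠ ε : ℝ in 𝓝[>] 0, ∀ π ∈ κ.support,
      Pool.Agent.W353.EF.LFun (B π) (edgePoint a π.τ + ε) ≠ 0 :=
    (Filter.eventually_all_finset _).2 fun π hπ => (twist_sizeM ha (hB π hπ)).1
  filter_upwards [h1] with ε h2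
  have e1 : ∀ π : Mono K, edgePoint a 0 + ε + π.τ * Complex.I = edgePoint a π.τ + ε := by
    intro π
    unfold edgePoint
    push_cast
    ring
  have e2 : κ.LFun B (edgePoint a 0 + ε) = ∏ π ∈ κ.support,
      (Pool.Agent.W353.EF.LFun (B π) (edgePoint a π.τ + ε)) ^ (κ π) := by
    unfold Virt.LFun Finsupp.prod
    exact Finset.prod_congr rfl fun π _ => by simp only [e1]
  have h3 : κ.LFun B (edgePoint a 0 + ε) ≠ 0 := by
    rw [e2, Finset.prod_ne_zero_iff]
    exact fun π hπ => zpow_ne_zero _ (h2 π hπ)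
  refine ⟨h3, ?_⟩
  unfold Virt.size Pool.Agent.W353.EH.size
  rw [e2, norm_prod, Real.log_prod fun π hπ => norm_ne_zero_iff.2 (zpow_ne_zero _ (h2 π hπ)),
    Finset.sum_div]
  refine Finset.sum_congr rfl fun π _ => ?_
  rw [norm_zpow, Real.log_zpow]
  ring

/-- the order of a twist by a virtual representation -/
lemma virt_lim {a : ℕ} (ha : a ≤ 2 * d) {κ : Virt K}
    {B : ∀ π : Mono K, HeightOneSpectrum (𝓞 π.F) → ℂ[X]}
    (hB : ∀ π ∈ κ.support, IsTwistBy X d a (N a) π (B π)) {m : ℤ} (hm : κ.HasOrder a B m) :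
    Tendsto (κ.size a B) (𝓝[>] 0) (𝓝 (-(m : ℝ))) := by
  obtain ⟨Λ, h1, h2, h3⟩ := hm
  exact Pool.Agent.W353.PV.lim_ord ((virt_size ha hB).mono fun _ h => h.1) h1
    (h2.mono fun s hs hs' => hs (by
      rw [edge_re] at hs'
      exact hs')) h3

/-- the size of the known part -/
lemma size_known {a : ℕ} (ha : a ≤ 2 * d) {κ : Virt K}
    {B : ∀ π : Mono K, HeightOneSpectrum (𝓞 π.F) → ℂ[X]}
    (hB : ∀ π ∈ κ.support, IsTwistBy X d a (N a) π (B π)) :
    Tendsto (fun ε : ℝ => yV X d N a κ ε - κ.size a B ε) (𝓝[>] 0) (𝓝 0) := by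
  have h1 : Tendsto (fun ε : ℝ => ∑ π ∈ κ.support, (κ π : ℝ) * (yM X d N a π ε -
      size a π.τ (B π) ε)) (𝓝[>] 0) (𝓝 (∑ π ∈ κ.support, (κ π : ℝ) * 0)) :=
    tendsto_finsetSum _ fun π hπ => (twist_sizeM ha (hB π hπ)).2.const_mul _
  have e1 : (∑ π ∈ κ.support, (κ π : ℝ) * 0) = 0 := by simp
  rw [e1] at h1
  refine h1.congr' ?_
  filter_upwards [self_mem_nhdsWithin, virt_size ha hB] with ε hε h2
  rw [yV_eq a κ hε, h2.2]
  unfold Finsupp.sum
  rw [← Finset.sum_sub_distrib]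
  exact Finset.sum_congr rfl fun π _ => by ring

/-- the limits of the sizes of the products -/
theorem prod_limM (hY : IsPotAbelian Y e M ρ) {i : ℕ} {τ : ℝ}
    {B : HeightOneSpectrum (𝓞 K) → ℂ[X]} (hB : IsProduct X d N Y e M i τ B)
    (B' : ℕ → ∀ π : Mono K, HeightOneSpectrum (𝓞 π.F) → ℂ[X])
    (hB' : ∀ p ∈ degrees d e i, ∀ π ∈ ((κ p.2).shift τ).support,
      IsTwistBy X d p.1 (N p.1) π (B' p.1 π)) {F : Filter ℝ} (hF : F ≤ 𝓝[>] 0)
    (x : ℕ → Mono K → ℝ)
    (hx : ∀ p ∈ degrees d e i, ∀ π ∈ ((ρ p.2 - κ p.2).shift τ).support,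
      Tendsto (yM X d N p.1 π) F (𝓝 (x p.1 π))) :
    Tendsto (fun ε : ℝ => size i τ B ε -
      ∑ p ∈ degrees d e i, ((κ p.2).shift τ).size p.1 (B' p.1) ε) F
      (𝓝 (LT x d (restTuple d e i τ ρ κ))) := by
  classical
  have h1 := (product_sizeM hY hB).2.mono_left hF
  have h2 : Tendsto (fun ε : ℝ => ∑ p ∈ degrees d e i, (yV X d N p.1 ((κ p.2).shift τ) ε -
      ((κ p.2).shift τ).size p.1 (B' p.1) ε)) F (𝓝 (∑ p ∈ degrees d e i, 0)) :=
    tendsto_finsetSum _ fun p hp =>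
      (size_known (mem_degrees.1 hp).2.1 (hB' p hp)).mono_left hF
  rw [Finset.sum_const_zero] at h2
  have h3 : Tendsto (fun ε : ℝ => ∑ p ∈ degrees d e i,
      yV X d N p.1 ((ρ p.2 - κ p.2).shift τ) ε) F (𝓝 (LT x d (restTuple d e i τ ρ κ))) := by
    have e1 : LT x d (restTuple d e i τ ρ κ) = ∑ p ∈ degrees d e i,
        xV x p.1 ((ρ p.2 - κ p.2).shift τ) := by
      rw [sum_degrees]
      unfold LT restTuple
      refine Finset.sum_congr rfl fun a _ => ?_
      split_ifs with h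
      · rfl
      · unfold xV
        exact Finsupp.sum_zero_index
    rw [e1]
    exact tendsto_finsetSum _ fun p hp => yV_lim hF (hx p hp)
  have h4 := (h2.add h3).sub h1
  rw [zero_add, sub_zero] at h4
  refine h4.congr' ?_
  filter_upwards [hF self_mem_nhdsWithin] with ε hε
  have hε' : (0 : ℝ) < ε := hε
  have e2 : ∀ p : ℕ × ℕ, yV X d N p.1 ((ρ p.2 - κ p.2).shift τ) ε =
      yV X d N p.1 ((ρ p.2).shift τ) ε - yV X d N p.1 ((κ p.2).shift τ) ε := by
    intro p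
    have e3 : ∀ σ : Virt K, yV X d N p.1 σ ε = xV (fun a π => yM X d N a π ε) p.1 σ :=
      fun σ => yV_eq p.1 σ hε'
    rw [e3, e3, e3, shift_sub, xV_sub]
  have e4 : ∀ p : ℕ × ℕ, (EP (nx K) ε fun x =>
      (tX X d p.1 (N p.1) (vx x) * ((ρ p.2).shift τ).trace (vx x)).re) / lam ε =
      yV X d N p.1 ((ρ p.2).shift τ) ε := fun _ => rfl
  simp only [e2, e4, Finset.sum_sub_distrib]
  ring

/-- the orders, if the limit is small -/
theorem orders_eqM (hY : IsPotAbelian Y e M ρ) {i : ℕ} {τ : ℝ}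
    {B : HeightOneSpectrum (𝓞 K) → ℂ[X]} (hB : IsProduct X d N Y e M i τ B)
    (B' : ℕ → ∀ π : Mono K, HeightOneSpectrum (𝓞 π.F) → ℂ[X])
    (hB' : ∀ p ∈ degrees d e i, ∀ π ∈ ((κ p.2).shift τ).support,
      IsTwistBy X d p.1 (N p.1) π (B' p.1 π)) {F : Filter ℝ} [F.NeBot] (hF : F ≤ 𝓝[>] 0)
    {L : ℝ} (hL : |L| < 1)
    (h : Tendsto (fun ε : ℝ => size i τ B ε -
      ∑ p ∈ degrees d e i, ((κ p.2).shift τ).size p.1 (B' p.1) ε) F (𝓝 L))
    {k : ℤ} {k' : ℕ → ℤ} (hk : HasOrder i τ B k)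
    (hk' : ∀ p ∈ degrees d e i, ((κ p.2).shift τ).HasOrder p.1 (B' p.1) (k' p.1)) :
    k = ∑ p ∈ degrees d e i, k' p.1 := by
  have h1 := (size_lim (product_sizeM hY hB).1 hk).mono_left hF
  have h2 : ∀ p ∈ degrees d e i, Tendsto (fun ε : ℝ =>
      ((κ p.2).shift τ).size p.1 (B' p.1) ε) F (𝓝 (-(k' p.1 : ℝ))) := fun p hp =>
    (virt_lim (mem_degrees.1 hp).2.1 (hB' p hp) (hk' p hp)).mono_left hF
  have h3 := h1.sub (tendsto_finsetSum _ h2)
  have h4 := tendsto_nhds_unique h h3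
  have h5 : L = ((-k + ∑ p ∈ degrees d e i, k' p.1 : ℤ) : ℝ) := by
    rw [h4]
    push_cast
    rw [sub_eq_add_neg, ← Finset.sum_neg_distrib]
    congr 1
    exact Finset.sum_congr rfl fun p _ => by ring
  rw [h5, ← Int.cast_abs] at hL
  have h6 : |(-k + ∑ p ∈ degrees d e i, k' p.1)| < 1 := by
    exact_mod_cast hL
  have h7 := Int.abs_lt_one_iff.1 h6
  linarith

/-- **The Künneth formula for products with varieties with potentially abelian cohomology.** -/
theorem kunneth_pa (X : Set (MvPolynomial (Fin n) (𝓞 K))) (d : ℕ) (N R : ℕ → ℕ)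
    (hR : SecondMoment X d N R) (r : ℕ) :
    ∃ S : Finset (ℕ → Virt K), S.card ≤ r * ∑ a ∈ Finset.range (2 * d + 1), R a ∧
      ∀ (n' : ℕ) (Y : Set (MvPolynomial (Fin n') (𝓞 K))) (e : ℕ) (M : ℕ → ℕ)
        (ρ κ : ℕ → Virt K) (i : ℕ) (τ : ℝ), IsPotAbelian Y e M ρ →
        tupleInter d (restTuple d e i τ ρ κ) (restTuple d e i τ ρ κ) ≤ r →
        (∀ σ ∈ S, tupleInter d (restTuple d e i τ ρ κ) σ = 0) →
        ∀ (B : HeightOneSpectrum (𝓞 K) → ℂ[X])
          (B' : ℕ → ∀ π : Mono K, HeightOneSpectrum (𝓞 π.F) → ℂ[X]),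
          IsProduct X d N Y e M i τ B →
          (∀ p ∈ degrees d e i, ∀ π ∈ ((κ p.2).shift τ).support,
            IsTwistBy X d p.1 (N p.1) π (B' p.1 π)) →
          (∃ᶠ ε : ℝ in 𝓝[>] 0, |size i τ B ε -
            ∑ p ∈ degrees d e i, ((κ p.2).shift τ).size p.1 (B' p.1) ε| < 1) ∧
          ∀ (k : ℤ) (k' : ℕ → ℤ), HasOrder i τ B k →
            (∀ p ∈ degrees d e i, ((κ p.2).shift τ).HasOrder p.1 (B' p.1) (k' p.1)) →
            k = ∑ p ∈ degrees d e i, k' p.1 := by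
  classical
  obtain ⟨U, hU⟩ := exists_ultra
  choose x hx using fun (a : ℕ) (π : Mono K) =>
    exists_lim (U := U) (hU (yM_bdd (X := X) (d := d) (N := N) a π))
  have hR' := second_all hR
  set Rs : ℕ := ∑ a ∈ Finset.range (2 * d + 1), R a with hRs
  -- the exceptional set
  obtain ⟨S, -, -, hS3, hS4⟩ := exists_max
    (P := {σ : ℕ → Virt K // 1 ≤ |LT x d σ| ∧ tupleInter d σ σ ≤ r})
    (fun σ σ' => tupleInter d σ.1 σ'.1 = 0) (fun σ σ' h => by rwa [GT_comm]) (by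
      intro σ h0
      obtain ⟨-, h2⟩ := GT_nonneg hU hR' hx σ.1
      rw [h0, Int.cast_zero, mul_zero] at h2
      have h4 : LT x d σ.1 = 0 := by nlinarith [sq_nonneg (LT x d σ.1)]
      have h5 := σ.2.1
      rw [h4, abs_zero] at h5
      linarith) Set.univ (r * Rs) (by
      intro S _ hS2
      have h := card_tuple (Nat.cast_nonneg Rs) hU hR' hx (κ := {σ // σ ∈ S})
        (fun k => k.1.1) (fun k l hkl => hS2 k.1 k.2 l.1 l.2 (fun h => hkl (Subtype.ext h)))
        (r := (r : ℝ)) (Nat.cast_nonneg r) (fun k => by exact_mod_cast k.1.2.2) one_pos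
        (fun k => k.1.2.1)
      rw [Fintype.card_coe, one_pow, mul_one] at h
      exact_mod_cast h)
  refine ⟨S.image Subtype.val, Finset.card_image_le.trans hS3, ?_⟩
  intro n' Y e M ρ κ i τ hY hr hσ B B' hB hB'
  have h1 := prod_limM hY hB B' hB' hU x (fun p _ π _ => hx p.1 π)
  have h2 : |LT x d (restTuple d e i τ ρ κ)| < 1 := by
    by_contra hcon
    push Not at hcon
    obtain ⟨s, hs, hs2⟩ := hS4 ⟨restTuple d e i τ ρ κ, hcon, hr⟩ (Set.mem_univ _)
    exact hs2 (hσ s.1 (Finset.mem_image_of_mem _ hs))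
  refine ⟨?_, fun k k' hk hk' => orders_eqM hY hB B' hB' hU h2 h1 hk hk'⟩
  have h3 : ∀ᶠ ε in (U : Filter ℝ), |size i τ B ε -
      ∑ p ∈ degrees d e i, ((κ p.2).shift τ).size p.1 (B' p.1) ε| < 1 :=
    h1.abs.eventually_lt_const h2
  exact (h3.frequently).filter_mono hU

end

end Pool.Agent.X298.HC
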