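import Pool.Agent.X298.HC.MMain

/-! The Künneth formula if there are continuations; the inequalities for families. -/

set_option autoImplicit false
set_option linter.unusedSectionVars false
open Filter Topology NumberField Ideal IsDedekindDomain ComplexConjugate Polynomial

namespace Pool.Agent.X298.HC

open Pool.Agent.W540.BE Pool.Agent.H341R2
open Pool.Agent.W353.TP (HX push res)
open Pool.Agent.W353.NF (vx nm_vx vx_asIdeal)
open Pool.Agent.W353.EH (edgePoint size HasOrder)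

section
variable {K : Type} [Field K] [NumberField K]

/-- the tuple with one monomial entry -/
noncomputable def sg (a : ℕ) (π : Mono K) (a' : ℕ) : Virt K :=
  if a' = a then Finsupp.single π 1 else 0

lemma inter_single (π π' : Mono K) :
    Virt.inter (Finsupp.single π 1) (Finsupp.single π' 1) = (π.inter π' : ℤ) := by
  unfold Virt.inter
  rw [Finsupp.sum_single_index (by simp), Finsupp.sum_single_index (by simp)]
  ring

lemma xV_single (x : ℕ → Mono K → ℝ) (a : ℕ) (π : Mono K) :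
    xV x a (Finsupp.single π 1) = x a π := by
  unfold xV
  rw [Finsupp.sum_single_index (by simp)]
  simp

lemma inter_zero (ρ : Virt K) : ρ.inter 0 = 0 := by
  rw [inter_comm', zero_inter]

lemma LT_sg (x : ℕ → Mono K → ℝ) {d a : ℕ} (ha : a ≤ 2 * d) (π : Mono K) :
    LT x d (sg a π) = x a π := by
  unfold LT
  rw [Finset.sum_eq_single (⟨a, by omega⟩ : Fin (2 * d + 1))]
  · unfold sg
    simp only [if_true]
    exact xV_single x a π
  · intro b _ hb
    have h : ¬ ((b : ℕ) = a) := fun h => hb (Fin.ext h)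
    unfold sg
    rw [if_neg h]
    unfold xV
    exact Finsupp.sum_zero_index
  · intro h
    exact absurd (Finset.mem_univ _) h

lemma GT_sg {d a a' : ℕ} (ha : a ≤ 2 * d) (π π' : Mono K) :
    tupleInter d (sg a π) (sg a' π') = if a = a' then (π.inter π' : ℤ) else 0 := by
  unfold tupleInter
  rw [Finset.sum_eq_single (⟨a, by omega⟩ : Fin (2 * d + 1))]
  · unfold sg
    simp only [if_true]
    split_ifs with h
    · exact inter_single π π'
    · exact inter_zero _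
  · intro b _ hb
    have h : ¬ ((b : ℕ) = a) := fun h => hb (Fin.ext h)
    unfold sg
    rw [if_neg h]
    exact zero_inter _
  · intro h
    exact absurd (Finset.mem_univ _) h

end

section
variable {K : Type} [Field K] [NumberField K] {n n' : ℕ}
variable {X : Set (MvPolynomial (Fin n) (𝓞 K))} {d : ℕ} {N : ℕ → ℕ}
variable {Y : Set (MvPolynomial (Fin n') (𝓞 K))} {e : ℕ} {M : ℕ → ℕ}
  {ρ κ : ℕ → Virt K}

lemma twist_limM {a : ℕ} (ha : a ≤ 2 * d) {π : Mono K} {B : HeightOneSpectrum (𝓞 π.F) → ℂ[X]}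
    (hB : IsTwistBy X d a (N a) π B) {m : ℤ} (hm : HasOrder a π.τ B m) :
    Tendsto (yM X d N a π) (𝓝[>] 0) (𝓝 (-(m : ℝ))) := by
  have h := twist_sizeM ha hB
  have h2 := h.2.add (size_lim h.1 hm)
  rw [zero_add] at h2
  refine h2.congr fun ε => ?_
  unfold yM
  ring

/-- **The Künneth formula, with continuations.** -/
theorem kunneth_mono (X : Set (MvPolynomial (Fin n) (𝓞 K))) (d : ℕ) (N R : ℕ → ℕ)
    (hR : SecondMoment X d N R) (Θ : Set (Mono K))
    (H : ∀ a ≤ 2 * d, ∀ π ∈ Θ, π.inter π = 1 →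
      ∃ (B : HeightOneSpectrum (𝓞 π.F) → ℂ[X]) (k : ℤ),
      IsTwistBy X d a (N a) π B ∧ HasOrder a π.τ B k) :
    ∃ S : Finset (ℕ × Mono K), S.card ≤ ∑ a ∈ Finset.range (2 * d + 1), R a ∧
      ∀ (n' : ℕ) (Y : Set (MvPolynomial (Fin n') (𝓞 K))) (e : ℕ) (M : ℕ → ℕ)
        (ρ κ : ℕ → Virt K) (i : ℕ) (τ : ℝ), IsPotAbelian Y e M ρ →
        (∀ p ∈ degrees d e i, ∀ π ∈ ((ρ p.2 - κ p.2).shift τ).support,
          π ∈ Θ ∧ π.inter π = 1 ∧ ∀ s ∈ S, s.1 = p.1 → π.inter s.2 = 0) →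
        ∀ (B : HeightOneSpectrum (𝓞 K) → ℂ[X])
          (B' : ℕ → ∀ π : Mono K, HeightOneSpectrum (𝓞 π.F) → ℂ[X]),
          IsProduct X d N Y e M i τ B →
          (∀ p ∈ degrees d e i, ∀ π ∈ ((κ p.2).shift τ).support,
            IsTwistBy X d p.1 (N p.1) π (B' p.1 π)) →
          Tendsto (fun ε : ℝ => size i τ B ε -
            ∑ p ∈ degrees d e i, ((κ p.2).shift τ).size p.1 (B' p.1) ε) (𝓝[>] 0) (𝓝 0) ∧
          ∀ (k : ℤ) (k' : ℕ → ℤ), HasOrder i τ B k →
            (∀ p ∈ degrees d e i, ((κ p.2).shift τ).HasOrder p.1 (B' p.1) (k' p.1)) →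
            k = ∑ p ∈ degrees d e i, k' p.1 := by
  classical
  obtain ⟨U, hU⟩ := exists_ultra
  choose x hx using fun (a : ℕ) (π : Mono K) =>
    exists_lim (U := U) (hU (yM_bdd (X := X) (d := d) (N := N) a π))
  have hR' := second_all hR
  set Rs : ℕ := ∑ a ∈ Finset.range (2 * d + 1), R a with hRs
  obtain ⟨S, -, -, hS3, hS4⟩ := exists_max
    (P := {q : ℕ × Mono K // q.1 ≤ 2 * d ∧ q.2.inter q.2 = 1 ∧ 1 ≤ |x q.1 q.2|})
    (fun q q' => tupleInter d (sg q.1.1 q.1.2) (sg q'.1.1 q'.1.2) = 0)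
    (fun q q' h => by rwa [GT_comm]) (by
      intro q h0
      rw [GT_sg q.2.1, if_pos rfl, q.2.2.1] at h0
      exact absurd h0 (by norm_num)) Set.univ Rs (by
      intro S _ hS2
      have h := card_tuple (Nat.cast_nonneg Rs) hU hR' hx (κ := {q // q ∈ S})
        (fun k => sg k.1.1.1 k.1.1.2)
        (fun k l hkl => hS2 k.1 k.2 l.1 l.2 (fun h => hkl (Subtype.ext h)))
        (r := (1 : ℝ)) zero_le_one (fun k => by
          rw [GT_sg k.1.2.1, if_pos rfl, k.1.2.2.1]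
          norm_num) one_pos
        (fun k => by
          rw [LT_sg x k.1.2.1]
          exact k.1.2.2.2)
      rw [Fintype.card_coe, one_pow, mul_one, one_mul] at h
      exact_mod_cast h)
  refine ⟨S.image Subtype.val, Finset.card_image_le.trans hS3, ?_⟩
  intro n' Y e M ρ κ i τ hY hσ B B' hB hB'
  have hint : ∀ p ∈ degrees d e i, ∀ π ∈ ((ρ p.2 - κ p.2).shift τ).support,
      Tendsto (yM X d N p.1 π) (𝓝[>] 0) (𝓝 0) := by
    intro p hp π hπ
    obtain ⟨h1, h2, h3⟩ := hσ p hp π hπ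
    have hp1 := (mem_degrees.1 hp).2.1
    obtain ⟨B₁, k₁, h4, h5⟩ := H p.1 hp1 π h1 h2
    have h6 := twist_limM hp1 h4 h5
    have h7 := tendsto_nhds_unique (h6.mono_left hU) (hx p.1 π)
    have h8 : |x p.1 π| < 1 := by
      by_contra hcon
      push Not at hcon
      obtain ⟨s, hs, hs2⟩ := hS4 ⟨(p.1, π), hp1, h2, hcon⟩ (Set.mem_univ _)
      apply hs2
      simp only
      rw [GT_sg hp1]
      split_ifs with h
      · exact_mod_cast h3 s.1 (Finset.mem_image_of_mem _ hs) h.symm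
      · rfl
    rw [← h7, abs_neg, ← Int.cast_abs] at h8
    have h9 : |k₁| < 1 := by exact_mod_cast h8
    have h10 := Int.abs_lt_one_iff.1 h9
    rw [h10] at h6
    simpa using h6
  have h1 := prod_limM hY hB B' hB' (le_refl (𝓝[>] (0 : ℝ))) (fun _ _ => 0) hint
  have h2 : LT (fun _ _ => 0) d (restTuple d e i τ ρ κ) = 0 := by
    unfold LT xV
    simp
  rw [h2] at h1
  exact ⟨h1, fun k k' hk hk' => orders_eqM hY hB B' hB' (le_refl (𝓝[>] (0 : ℝ)))
    (by simp) h1 hk hk'⟩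

/-- Bessel's inequality for orthogonal tuples -/
theorem bessel_tuple {R : ℝ} (hR0 : 0 ≤ R) {U : Ultrafilter ℝ} (hU : (U : Filter ℝ) ≤ 𝓝[>] 0)
    (hR : ∀ δ : ℝ, 0 < δ → ∀ᶠ ε : ℝ in 𝓝[>] 0, ∑ a : Fin (2 * d + 1),
      (EP (nx K) ε fun x => ‖tX X d a (N a) (vx x)‖ ^ 2) / lam ε ≤ R + δ)
    {x : ℕ → Mono K → ℝ} (hx : ∀ a π, Tendsto (yM X d N a π) U (𝓝 (x a π)))
    {ι : Type*} [Fintype ι] (σ : ι → ℕ → Virt K)
    (horth : ∀ k l, k ≠ l → tupleInter d (σ k) (σ l) = 0) :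
    ∑ k, LT x d (σ k) ^ 2 / (tupleInter d (σ k) (σ k) : ℝ) ≤ R := by
  classical
  set q : ι → ℝ := fun k => (tupleInter d (σ k) (σ k) : ℝ) with hqd
  have hq0 : ∀ k, 0 ≤ q k := fun k => by
    have := (GT_nonneg hU hR hx (σ k)).1
    rw [hqd]
    simp only
    exact_mod_cast this
  obtain ⟨-, h2⟩ := gram_tuple hU hR hx σ (fun k => LT x d (σ k) / q k)
  have e1 : ∑ k, LT x d (σ k) / q k * LT x d (σ k) = ∑ k, LT x d (σ k) ^ 2 / q k :=
    Finset.sum_congr rfl fun k _ => by ring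
  have e2 : ∑ k, ∑ l, LT x d (σ k) / q k * (LT x d (σ l) / q l) * (tupleInter d (σ k) (σ l) : ℝ) =
      ∑ k, LT x d (σ k) ^ 2 / q k := by
    refine Finset.sum_congr rfl fun k _ => ?_
    rw [Finset.sum_eq_single k]
    · have : (tupleInter d (σ k) (σ k) : ℝ) = q k := rfl
      rw [this]
      by_cases hqk : q k = 0
      · rw [hqk]
        simp
      · field_simp
    · intro l _ hlk
      rw [horth k l hlk.symm, Int.cast_zero, mul_zero]
    · intro h
      exact absurd (Finset.mem_univ k) h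
  rw [e1, e2] at h2
  set s := ∑ k, LT x d (σ k) ^ 2 / q k with hs
  have hs0 : 0 ≤ s := Finset.sum_nonneg fun k _ => div_nonneg (sq_nonneg _) (hq0 k)
  by_contra hcon
  push Not at hcon
  have hspos : 0 < s := hR0.trans_lt hcon
  nlinarith

/-- an ultrafilter in a filter -/
lemma exists_ultra_of {P : ℝ → Prop} (h : ∃ᶠ ε : ℝ in 𝓝[>] 0, P ε) :
    ∃ U : Ultrafilter ℝ, (U : Filter ℝ) ≤ 𝓝[>] 0 ∧ ∀ᶠ ε in (U : Filter ℝ), P ε := by
  have h1 : (𝓝[>] (0 : ℝ) ⊓ 𝓟 {ε | P ε}).NeBot := by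
    rw [← Filter.frequently_mem_iff_neBot]
    exact h
  refine ⟨Ultrafilter.of (𝓝[>] (0 : ℝ) ⊓ 𝓟 {ε | P ε}), (Ultrafilter.of_le _).trans inf_le_left,
    ?_⟩
  exact ((Ultrafilter.of_le _).trans inf_le_right) (mem_principal_self _)

/-- **Bessel's inequality for the products of `X` with a family of varieties.** -/
theorem bessel_products (X : Set (MvPolynomial (Fin n) (𝓞 K))) (d : ℕ) (N R : ℕ → ℕ)
    (hR : SecondMoment X d N R) {l : ℕ} (n' e i : Fin l → ℕ) (τ : Fin l → ℝ)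
    (Y : ∀ k, Set (MvPolynomial (Fin (n' k)) (𝓞 K))) (M : Fin l → ℕ → ℕ)
    (ρ κ : Fin l → ℕ → Virt K) (hY : ∀ k, IsPotAbelian (Y k) (e k) (M k) (ρ k))
    (horth : ∀ k k', k ≠ k' → tupleInter d (restTuple d (e k) (i k) (τ k) (ρ k) (κ k))
      (restTuple d (e k') (i k') (τ k') (ρ k') (κ k')) = 0)
    (B : Fin l → HeightOneSpectrum (𝓞 K) → ℂ[X])
    (B' : Fin l → ℕ → ∀ π : Mono K, HeightOneSpectrum (𝓞 π.F) → ℂ[X])
    (hB : ∀ k, IsProduct X d N (Y k) (e k) (M k) (i k) (τ k) (B k))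
    (hB' : ∀ k, ∀ p ∈ degrees d (e k) (i k), ∀ π ∈ ((κ k p.2).shift (τ k)).support,
      IsTwistBy X d p.1 (N p.1) π (B' k p.1 π)) {η : ℝ} (hη : 0 < η) :
    ∀ᶠ ε : ℝ in 𝓝[>] 0, ∑ k, (size (i k) (τ k) (B k) ε -
      ∑ p ∈ degrees d (e k) (i k), ((κ k p.2).shift (τ k)).size p.1 (B' k p.1) ε) ^ 2 /
      (tupleInter d (restTuple d (e k) (i k) (τ k) (ρ k) (κ k))
        (restTuple d (e k) (i k) (τ k) (ρ k) (κ k))) ≤
      ((∑ a ∈ Finset.range (2 * d + 1), R a : ℕ) : ℝ) + η := by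
  classical
  by_contra hcon
  rw [Filter.not_eventually] at hcon
  obtain ⟨U, hU, hUP⟩ := exists_ultra_of hcon
  choose x hx using fun (a : ℕ) (π : Mono K) =>
    exists_lim (U := U) (hU (yM_bdd (X := X) (d := d) (N := N) a π))
  have hR' := second_all hR
  have hb := bessel_tuple (Nat.cast_nonneg _) hU hR' hx
    (fun k => restTuple d (e k) (i k) (τ k) (ρ k) (κ k)) horth
  have hlim : Tendsto (fun ε : ℝ => ∑ k, (size (i k) (τ k) (B k) ε -
      ∑ p ∈ degrees d (e k) (i k), ((κ k p.2).shift (τ k)).size p.1 (B' k p.1) ε) ^ 2 /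
      (tupleInter d (restTuple d (e k) (i k) (τ k) (ρ k) (κ k))
        (restTuple d (e k) (i k) (τ k) (ρ k) (κ k)))) U
      (𝓝 (∑ k, LT x d (restTuple d (e k) (i k) (τ k) (ρ k) (κ k)) ^ 2 /
        (tupleInter d (restTuple d (e k) (i k) (τ k) (ρ k) (κ k))
        (restTuple d (e k) (i k) (τ k) (ρ k) (κ k))))) :=
    tendsto_finsetSum _ fun k _ => ((prod_limM (hY k) (hB k) (B' k) (hB' k) hU x
      (fun p _ π _ => hx p.1 π)).pow 2).div_const _
  have h1 := ge_of_tendsto hlim (hUP.mono fun ε hε => (not_le.1 hε).le)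
  linarith

end

end Pool.Agent.X298.HC
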