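import Pool.Agent.X298.HC.Sys

/-! The size of the product with a variety of Hecke type. -/

set_option autoImplicit false
set_option linter.unusedSectionVars false
open Filter Topology NumberField Ideal IsDedekindDomain ComplexConjugate Polynomial

namespace Pool.Agent.X298.HC

open Pool.Agent.W540.BE Pool.Agent.H341R2
open Pool.Agent.W353.EF (IsFrobenius)
open Pool.Agent.W353.EH (edgePoint size)
open Pool.Agent.W353.PV (Eig alp pick_spec)

variable {K : Type} [Field K] [NumberField K] {n n' : ℕ}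
variable {X : Set (MvPolynomial (Fin n) (𝓞 K))} {d : ℕ} {N : ℕ → ℕ}
variable {Y : Set (MvPolynomial (Fin n') (𝓞 K))} {e : ℕ} {M : ℕ → ℕ}
  {φ : ∀ b, Fin (M b) → HeckeChar K}

/-- the index set of the eigenvalues of the product -/
abbrev PI (d e i : ℕ) (N M : ℕ → ℕ) : Type :=
  (p : {p // p ∈ degrees d e i}) × (Fin (N p.1.1) × Fin (M p.1.2))

/-- the eigenvalues of the product -/
noncomputable def gam (X : Set (MvPolynomial (Fin n) (𝓞 K))) (d e i : ℕ) (N M : ℕ → ℕ)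
    (φ : ∀ b, Fin (M b) → HeckeChar K) (v : HeightOneSpectrum (𝓞 K)) (c : PI d e i N M) : ℂ :=
  alp X d c.1.1.1 (N c.1.1.1) K v c.2.1 *
    ((φ c.1.1.2 c.2.2).toFun v.asIdeal * (Ideal.absNorm v.asIdeal : ℂ) ^ ((c.1.1.2 : ℂ) / 2))

lemma mem_degrees {d e i : ℕ} {p : ℕ × ℕ} :
    p ∈ degrees d e i ↔ p.1 + p.2 = i ∧ p.1 ≤ 2 * d ∧ p.2 ≤ 2 * e := by
  unfold degrees
  rw [Finset.mem_filter, Finset.HasAntidiagonal.mem_antidiagonal]

/-- **The size of the product.** -/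
theorem product_size (hY : IsHeckeType Y e M φ) {i : ℕ} {τ : ℝ}
    {B : HeightOneSpectrum (𝓞 K) → ℂ[X]} (hB : IsProduct X d N Y e M i τ B) :
    (∀ᶠ ε : ℝ in 𝓝[>] 0, Pool.Agent.W353.EF.LFun B (edgePoint i τ + ε) ≠ 0) ∧
    Tendsto (fun ε : ℝ => (∑ p ∈ degrees d e i, ∑ l, yX X d p.1 (N p.1) (φ p.2 l) τ ε) -
      size i τ B ε) (𝓝[>] 0) (𝓝 0) := by
  classical
  have hN : NormSys (nm K) := normSys
  -- the good primes
  have hg : ∀ᶠ v : HeightOneSpectrum (𝓞 K) in cofinite,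
      (∀ a ≤ 2 * d, Eig X d a v (alp X d a (N a) K v)) ∧
      ∀ z : ℂ, (B v).eval z = ∏ c, (1 - gam X d e i N M φ v c * z) := by
    filter_upwards [hB.1, hY] with v hv hv2
    obtain ⟨α, β, h1, h2, h3⟩ := hv
    have h4 : ∀ a ≤ 2 * d, Eig X d a v (alp X d a (N a) K v) := fun a ha =>
      pick_spec ⟨α a, h1 a ha⟩
    refine ⟨h4, fun z => ?_⟩
    rw [h3 z]
    have h5 : ∏ c, (1 - gam X d e i N M φ v c * z) = ∏ p : {p // p ∈ degrees d e i},
        ∏ k, ∏ l, (1 - alp X d p.1.1 (N p.1.1) K v k *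
          ((φ p.1.2 l).toFun v.asIdeal * (Ideal.absNorm v.asIdeal : ℂ) ^ ((p.1.2 : ℂ) / 2)) *
            z) := by
      rw [Fintype.prod_sigma]
      refine Finset.prod_congr rfl fun p _ => ?_
      rw [Fintype.prod_prod_type]
      rfl
    rw [h5, ← Finset.prod_coe_sort (degrees d e i)]
    refine Finset.prod_congr rfl fun p _ => ?_
    obtain ⟨-, hp1, hp2⟩ := mem_degrees.1 p.2
    have e1 : Eig X d p.1.1 v (α p.1.1) := h1 _ hp1
    have e2 := e1.unique' hp1 (h4 _ hp1)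
    have e3 : Eig Y e p.1.2 v (β p.1.2) := h2 _ hp2
    have e4 : Eig Y e p.1.2 v (fun l => (φ p.1.2 l).toFun v.asIdeal *
        (Ideal.absNorm v.asIdeal : ℂ) ^ ((p.1.2 : ℂ) / 2)) := hv2 _ hp2
    have e5 := e3.unique' hp2 e4
    have e6 := congrArg (fun s : Multiset ℂ => (s.map fun x =>
      ((Finset.univ.val.map (β p.1.2)).map fun y => (1 - x * y * z)).prod).prod) e2
    simp only [Multiset.map_map] at e6
    have e7 : ∏ k, ∏ l, (1 - α p.1.1 k * β p.1.2 l * z) =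
        ∏ k, ∏ l, (1 - alp X d p.1.1 (N p.1.1) K v k * β p.1.2 l * z) := e6
    rw [e7]
    refine Finset.prod_congr rfl fun k _ => ?_
    have e8 := congrArg (fun s : Multiset ℂ =>
      (s.map fun y => (1 - alp X d p.1.1 (N p.1.1) K v k * y * z)).prod) e5
    simp only [Multiset.map_map] at e8
    exact e8
  have hne : ∀ᶠ v : HeightOneSpectrum (𝓞 K) in cofinite,
      ∀ p : {p // p ∈ degrees d e i}, ∀ l, (φ p.1.2 l).toFun v.asIdeal ≠ 0 := by
    rw [Filter.eventually_all]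
    intro p
    rw [Filter.eventually_all]
    intro l
    exact ae_ne _
  have hnorm : ∀ᶠ v in cofinite, ∀ c, ‖gam X d e i N M φ v c‖ =
      (nm K v : ℝ) ^ ((i : ℝ) / 2) := by
    filter_upwards [hg, hne] with v h1 h2
    intro c
    obtain ⟨hp0, hp1, hp2⟩ := mem_degrees.1 c.1.2
    have h0 : (0 : ℝ) < nm K v := by exact_mod_cast nm_pos v
    have e1 : ‖alp X d c.1.1.1 (N c.1.1.1) K v c.2.1‖ =
        (nm K v : ℝ) ^ ((c.1.1.1 : ℝ) / 2) := (h1.1 _ hp1).norm c.2.1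
    have e2 : ‖(Ideal.absNorm v.asIdeal : ℂ) ^ ((c.1.1.2 : ℂ) / 2)‖ =
        (nm K v : ℝ) ^ ((c.1.1.2 : ℝ) / 2) := by
      have := Complex.norm_natCast_cpow_of_pos (nm_pos v) ((c.1.1.2 : ℂ) / 2)
      have e3 : ((c.1.1.2 : ℂ) / 2).re = (c.1.1.2 : ℝ) / 2 := by simp
      rw [e3] at this
      exact this
    unfold gam
    rw [norm_mul, norm_mul, e1, norm_of_ne _ (h2 c.1 c.2.2), e2, one_mul, ← Real.rpow_add h0]
    congr 1
    have hi : (i : ℝ) = (c.1.1.1 : ℝ) + c.1.1.2 := by exact_mod_cast hp0.symm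
    rw [hi]
    ring
  have h := link ((i : ℝ) / 2) τ (gam X d e i N M φ) hnorm B (hg.mono fun v hv => hv.2) (by
    intro v
    rw [edge_eq]
    exact hB.2 v)
  simp only [edge_eq] at h
  refine ⟨h.1, ?_⟩
  -- the sum
  have hb1 : ∀ (a : ℕ) (ψ : HeckeChar K) v, |(tX X d a (N a) v * av ψ τ v).re| ≤ N a := by
    intro a ψ v
    refine (Complex.abs_re_le_norm _).trans ?_
    rw [norm_mul]
    calc _ ≤ (N a : ℝ) * 1 := mul_le_mul (norm_tX_le X d a (N a) v) (norm_av_le _ _ _)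
          (norm_nonneg _) (Nat.cast_nonneg _)
      _ = N a := mul_one _
  set F : HeightOneSpectrum (𝓞 K) → ℝ := fun v => ∑ p ∈ degrees d e i, ∑ l,
    (tX X d p.1 (N p.1) v * av (φ p.2 l) τ v).re with hF
  have hbl : ∀ p : ℕ × ℕ, ∀ v, |∑ l, (tX X d p.1 (N p.1) v * av (φ p.2 l) τ v).re| ≤
      M p.2 * N p.1 := by
    intro p v
    refine (Finset.abs_sum_le_sum_abs _ _).trans ?_
    refine (Finset.sum_le_sum fun l _ => hb1 p.1 (φ p.2 l) v).trans (le_of_eq ?_)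
    rw [Finset.sum_const, Finset.card_univ, Fintype.card_fin, nsmul_eq_mul]
  have hFb : ∀ v, |F v| ≤ ∑ p ∈ degrees d e i, ((M p.2 : ℝ) * N p.1) := by
    intro v
    refine (Finset.abs_sum_le_sum_abs _ _).trans ?_
    exact Finset.sum_le_sum fun p _ => hbl p v
  have hcard : (Fintype.card (PI d e i N M) : ℝ) = ∑ p ∈ degrees d e i, ((M p.2 : ℝ) * N p.1) := by
    rw [Fintype.card_sigma, ← Finset.sum_coe_sort (degrees d e i)]
    push_cast
    refine Finset.sum_congr rfl fun p _ => ?_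
    rw [Fintype.card_prod, Fintype.card_fin, Fintype.card_fin]
    push_cast
    ring
  have hsum : ∀ ε : ℝ, 0 < ε → (∑ p ∈ degrees d e i, ∑ l, yX X d p.1 (N p.1) (φ p.2 l) τ ε) =
      (EP (nm K) ε F) / lam ε := by
    intro ε hε
    rw [hF, EP_sum hN hε _ _ (fun p => (M p.2 : ℝ) * N p.1) (fun p _ v => hbl p v),
      Finset.sum_div]
    refine Finset.sum_congr rfl fun p _ => ?_
    rw [EP_sum hN hε _ _ (fun _ => (N p.1 : ℝ)) (fun l _ v => hb1 p.1 (φ p.2 l) v),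
      Finset.sum_div]
    rfl
  have hae : Tendsto (fun ε : ℝ => (EP (nm K) ε F) / lam ε -
      (EP (nm K) ε fun v => (T ((i : ℝ) / 2) (gam X d e i N M φ) v * zt τ v).re) / lam ε)
      (𝓝[>] 0) (𝓝 0) := by
    refine EP_ae (B := ∑ p ∈ degrees d e i, ((M p.2 : ℝ) * N p.1)) hFb (fun v => ?_) ?_
    · refine (Complex.abs_re_le_norm _).trans ?_
      rw [norm_mul, norm_zt, mul_one, ← hcard]
      exact norm_T_le _ _ v
    · filter_upwards [hg, hnorm] with v h1 h2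
      have hqc : ((nm K v : ℕ) : ℂ) ≠ 0 := by exact_mod_cast (nm_pos v).ne'
      rw [T_mul h2, hF]
      simp only
      have e1 : ∀ p ∈ degrees d e i, ∑ l, (tX X d p.1 (N p.1) v * av (φ p.2 l) τ v) =
          (∑ k, ∑ l, alp X d p.1 (N p.1) K v k * ((φ p.2 l).toFun v.asIdeal *
            (Ideal.absNorm v.asIdeal : ℂ) ^ ((p.2 : ℂ) / 2))) *
            ((nm K v : ℕ) : ℂ) ^ (-(((i : ℝ) / 2 : ℝ) : ℂ)) * zt τ v := by
        intro p hp
        obtain ⟨hp0, hp1, hp2⟩ := mem_degrees.1 hp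
        have e2 : ∀ j, ‖alp X d p.1 (N p.1) K v j‖ = (nm K v : ℝ) ^ ((p.1 : ℝ) / 2) :=
          fun j => (h1.1 _ hp1).norm j
        rw [tX, T_mul e2]
        have e3 : ((nm K v : ℕ) : ℂ) ^ (-(((i : ℝ) / 2 : ℝ) : ℂ)) *
            (Ideal.absNorm v.asIdeal : ℂ) ^ ((p.2 : ℂ) / 2) =
            ((nm K v : ℕ) : ℂ) ^ (-(((p.1 : ℝ) / 2 : ℝ) : ℂ)) := by
          have : (Ideal.absNorm v.asIdeal : ℂ) = ((nm K v : ℕ) : ℂ) := rfl
          rw [this, ← Complex.cpow_add _ _ hqc]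
          congr 1
          rw [← hp0]
          push_cast
          ring
        rw [← Finset.sum_mul_sum, ← e3, ← Finset.mul_sum]
        have e4 : ∑ l, av (φ p.2 l) τ v = (∑ l, (φ p.2 l).toFun v.asIdeal) * zt τ v := by
          rw [Finset.sum_mul]
          exact Finset.sum_congr rfl fun l _ => av_eq _ _ _
        rw [e4, ← Finset.sum_mul]
        ring
      have e2 : ∑ c, gam X d e i N M φ v c = ∑ p ∈ degrees d e i,
          ∑ k, ∑ l, alp X d p.1 (N p.1) K v k * ((φ p.2 l).toFun v.asIdeal *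
            (Ideal.absNorm v.asIdeal : ℂ) ^ ((p.2 : ℂ) / 2)) := by
        rw [Fintype.sum_sigma, ← Finset.sum_coe_sort (degrees d e i)]
        refine Finset.sum_congr rfl fun p _ => ?_
        rw [Fintype.sum_prod_type]
        rfl
      rw [e2, Finset.sum_mul, Finset.sum_mul, Complex.re_sum]
      refine Finset.sum_congr rfl fun p hp => ?_
      rw [← e1 p hp, Complex.re_sum]
  have := hae.add h.2
  rw [add_zero] at this
  refine this.congr' ?_
  filter_upwards [self_mem_nhdsWithin] with ε hε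
  rw [hsum ε hε]
  unfold size
  ring

end Pool.Agent.X298.HC
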