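import Pool.Agent.X298.HC.MSys
import Pool.Agent.X298.HC.ProdSize

/-! The size of the product with a variety with potentially abelian cohomology. -/

set_option autoImplicit false
set_option linter.unusedSectionVars false
open Filter Topology NumberField Ideal IsDedekindDomain ComplexConjugate Polynomial

namespace Pool.Agent.X298.HC

open Pool.Agent.W540.BE Pool.Agent.H341R2
open Pool.Agent.W353.TP (HX push res)
open Pool.Agent.W353.NF (vx nm_vx vx_asIdeal)
open Pool.Agent.W353.EF (IsFrobenius)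
open Pool.Agent.W353.EH (edgePoint size)
open Pool.Agent.W353.PV (Eig alp pick_spec)

section
variable {K : Type} [Field K] [NumberField K]

lemma vx_injective : Function.Injective (vx (K := K)) := by
  rintro ⟨p, u⟩ ⟨q, u'⟩ h
  have h1 : p = q := by
    apply Subtype.ext
    have h2 := congrArg (nm K) h
    rwa [nm_vx, nm_vx] at h2
  subst h1
  have : Fact (p : ℕ).Prime := ⟨p.2⟩
  have h3 := congrArg (fun w => w.asIdeal) h
  simp only [vx_asIdeal] at h3
  have h4 : u = u' := Pool.Agent.H921R2.TatePole.hom_ext_of_ker h3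
  rw [h4]

/-- sums that differ at finitely many homomorphisms -/
lemma EPH_ae {f g : HX K → ℝ} {B B' : ℝ} (hf : ∀ v, |f v| ≤ B)
    (hg : ∀ v, |g v| ≤ B') (h : ∀ᶠ v in cofinite, f v = g v) :
    Tendsto (fun ε : ℝ => (EP (nx K) ε f) / lam ε - (EP (nx K) ε g) / lam ε) (𝓝[>] 0)
      (𝓝 0) := by
  have hN : NormSys (nx K) := normSysH
  have hfin : {v | ¬ f v = g v}.Finite := Filter.eventually_cofinite.1 h
  set r : HX K → ℝ := fun v => f v - g v with hr
  have hr0 : ∀ v, v ∉ hfin.toFinset → r v = 0 := by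
    intro v hv
    rw [Set.Finite.mem_toFinset, Set.mem_ofPred_eq, not_not] at hv
    rw [hr]
    simp only
    rw [hv, sub_self]
  have hrb : ∀ v, |r v| ≤ B + B' := by
    intro v
    rw [hr]
    exact (abs_sub _ _).trans (add_le_add (hf v) (hg v))
  have hlim0 : Tendsto (fun ε : ℝ => (hfin.toFinset.card * (B + B')) / lam ε) (𝓝[>] 0) (𝓝 0) :=
    tendsto_const_nhds.div_atTop lam_tendsto
  refine squeeze_zero_norm' ?_ hlim0
  filter_upwards [self_mem_nhdsWithin, lam_tendsto.eventually_gt_atTop 0] with ε h1 h2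
  have hε : (0 : ℝ) < ε := h1
  have h3 : EP (nx K) ε f = EP (nx K) ε g + EP (nx K) ε r := by
    rw [← EP_add hN hε hg hrb]
    congr 1
    funext v
    rw [hr]
    ring
  rw [h3, Real.norm_eq_abs]
  have h4 : (EP (nx K) ε g + EP (nx K) ε r) / lam ε - EP (nx K) ε g / lam ε =
      EP (nx K) ε r / lam ε := by ring
  rw [h4, abs_div, abs_of_pos h2]
  exact div_le_div_of_nonneg_right (EP_finsupp hN _ r hr0 _ hrb hε) h2.le

lemma av_add (ψ : HeckeChar K) (τ σ : ℝ) (v : HeightOneSpectrum (𝓞 K)) :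
    av ψ (τ + σ) v = av ψ τ v * zt σ v := by
  have hqc : ((nm K v : ℕ) : ℂ) ≠ 0 := by exact_mod_cast (nm_pos v).ne'
  rw [av_eq, av_eq, mul_assoc]
  congr 1
  unfold zt
  rw [← Complex.cpow_add _ _ hqc]
  congr 1
  push_cast
  ring

lemma trace_shift_mono (σ : ℝ) (π : Mono K) (x : HX K) :
    (π.shift σ).trace (vx x) = π.trace (vx x) * zt σ (vx x) := by
  rw [trace_vx, trace_vx]
  unfold wv push
  rw [Finset.sum_mul]
  refine Finset.sum_congr rfl fun u _ => ?_
  have h1 := av_add π.ψ π.τ σ (vx (⟨x.1, u⟩ : HX π.F))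
  have h2 : zt σ (vx (⟨x.1, u⟩ : HX π.F)) = zt σ (vx x) := by
    unfold zt
    rw [nm_vx, nm_vx]
  rw [h2] at h1
  exact h1

lemma trace_shift (σ : ℝ) (ρ : Virt K) (x : HX K) :
    (ρ.shift σ).trace (vx x) = ρ.trace (vx x) * zt σ (vx x) := by
  unfold Virt.trace Virt.shift
  rw [Finsupp.sum_mapDomain_index (by intro π; simp) (by intro π m n; push_cast; ring)]
  unfold Finsupp.sum
  rw [Finset.sum_mul]
  refine Finset.sum_congr rfl fun π _ => ?_
  simp only
  rw [trace_shift_mono]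
  ring

end

section
variable {K : Type} [Field K] [NumberField K] {n n' : ℕ}
variable {X : Set (MvPolynomial (Fin n) (𝓞 K))} {d : ℕ} {N : ℕ → ℕ}
variable {Y : Set (MvPolynomial (Fin n') (𝓞 K))} {e : ℕ} {M : ℕ → ℕ}
  {ρ : ℕ → Virt K}

/-- the eigenvalues of the product -/
noncomputable def gamA (X : Set (MvPolynomial (Fin n) (𝓞 K))) (d : ℕ)
    (Y : Set (MvPolynomial (Fin n') (𝓞 K))) (e i : ℕ) (N M : ℕ → ℕ)
    (v : HeightOneSpectrum (𝓞 K)) (c : PI d e i N M) : ℂ :=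
  alp X d c.1.1.1 (N c.1.1.1) K v c.2.1 * alp Y e c.1.1.2 (M c.1.1.2) K v c.2.2

/-- **The size of the product.** -/
theorem product_sizeM (hY : IsPotAbelian Y e M ρ) {i : ℕ} {τ : ℝ}
    {B : HeightOneSpectrum (𝓞 K) → ℂ[X]} (hB : IsProduct X d N Y e M i τ B) :
    (∀ᶠ ε : ℝ in 𝓝[>] 0, Pool.Agent.W353.EF.LFun B (edgePoint i τ + ε) ≠ 0) ∧
    Tendsto (fun ε : ℝ => (∑ p ∈ degrees d e i, (EP (nx K) ε fun x =>
      (tX X d p.1 (N p.1) (vx x) * ((ρ p.2).shift τ).trace (vx x)).re) / lam ε) -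
      size i τ B ε) (𝓝[>] 0) (𝓝 0) := by
  classical
  have hN : NormSys (nx K) := normSysH
  -- the good primes
  have hg : ∀ᶠ v : HeightOneSpectrum (𝓞 K) in cofinite,
      (∀ a ≤ 2 * d, Eig X d a v (alp X d a (N a) K v)) ∧
      (∀ b ≤ 2 * e, Eig Y e b v (alp Y e b (M b) K v)) ∧
      (∀ b ≤ 2 * e, ∑ l, alp Y e b (M b) K v l =
        (Ideal.absNorm v.asIdeal : ℂ) ^ ((b : ℂ) / 2) * (ρ b).trace v) ∧
      ∀ z : ℂ, (B v).eval z = ∏ c, (1 - gamA X d Y e i N M v c * z) := by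
    filter_upwards [hB.1, hY] with v hv hv2
    obtain ⟨α, β, h1, h2, h3⟩ := hv
    have h4 : ∀ a ≤ 2 * d, Eig X d a v (alp X d a (N a) K v) := fun a ha =>
      pick_spec ⟨α a, h1 a ha⟩
    have h4' : ∀ b ≤ 2 * e, Eig Y e b v (alp Y e b (M b) K v) := fun b hb =>
      pick_spec ⟨β b, h2 b hb⟩
    refine ⟨h4, h4', fun b hb => ?_, fun z => ?_⟩
    · obtain ⟨β', h5, h6⟩ := hv2 b hb
      have e1 : Eig Y e b v β' := h5
      have e2 := congrArg Multiset.sum ((h4' b hb).unique' hb e1)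
      rw [← h6]
      exact e2
    · rw [h3 z]
      have h5 : ∏ c, (1 - gamA X d Y e i N M v c * z) = ∏ p : {p // p ∈ degrees d e i},
          ∏ k, ∏ l, (1 - alp X d p.1.1 (N p.1.1) K v k * alp Y e p.1.2 (M p.1.2) K v l * z) := by
        rw [Fintype.prod_sigma]
        refine Finset.prod_congr rfl fun p _ => ?_
        rw [Fintype.prod_prod_type]
        rfl
      rw [h5, ← Finset.prod_coe_sort (degrees d e i)]
      refine Finset.prod_congr rfl fun p _ => ?_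
      obtain ⟨-, hp1, hp2⟩ := mem_degrees.1 p.2
      have e1 : Eig X d p.1.1 v (α p.1.1) := h1 _ hp1
      have e2 := e1.unique' hp1 (h4 _ hp1)
      have e3 : Eig Y e p.1.2 v (β p.1.2) := h2 _ hp2
      have e5 := e3.unique' hp2 (h4' _ hp2)
      have e6 := congrArg (fun s : Multiset ℂ => (s.map fun x =>
        ((Finset.univ.val.map (β p.1.2)).map fun y => (1 - x * y * z)).prod).prod) e2
      simp only [Multiset.map_map] at e6
      have e7 : ∏ k, ∏ l, (1 - α p.1.1 k * β p.1.2 l * z) =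
          ∏ k, ∏ l, (1 - alp X d p.1.1 (N p.1.1) K v k * β p.1.2 l * z) := e6
      rw [e7]
      refine Finset.prod_congr rfl fun k _ => ?_
      have e8 := congrArg (fun s : Multiset ℂ =>
        (s.map fun y => (1 - alp X d p.1.1 (N p.1.1) K v k * y * z)).prod) e5
      simp only [Multiset.map_map] at e8
      exact e8
  have hnorm : ∀ᶠ v in cofinite, ∀ c, ‖gamA X d Y e i N M v c‖ =
      (nm K v : ℝ) ^ ((i : ℝ) / 2) := by
    filter_upwards [hg] with v h1
    intro c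
    obtain ⟨hp0, hp1, hp2⟩ := mem_degrees.1 c.1.2
    have h0 : (0 : ℝ) < nm K v := by exact_mod_cast nm_pos v
    have e1 : ‖alp X d c.1.1.1 (N c.1.1.1) K v c.2.1‖ =
        (nm K v : ℝ) ^ ((c.1.1.1 : ℝ) / 2) := (h1.1 _ hp1).norm c.2.1
    have e2 : ‖alp Y e c.1.1.2 (M c.1.1.2) K v c.2.2‖ =
        (nm K v : ℝ) ^ ((c.1.1.2 : ℝ) / 2) := (h1.2.1 _ hp2).norm c.2.2
    unfold gamA
    rw [norm_mul, e1, e2, ← Real.rpow_add h0]
    congr 1
    have hi : (i : ℝ) = (c.1.1.1 : ℝ) + c.1.1.2 := by exact_mod_cast hp0.symm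
    rw [hi]
    ring
  have h := link ((i : ℝ) / 2) τ (gamA X d Y e i N M) hnorm B
    (hg.mono fun v hv => hv.2.2.2) (by
    intro v
    rw [edge_eq]
    exact hB.2 v)
  simp only [edge_eq] at h
  refine ⟨h.1, ?_⟩
  set g : HeightOneSpectrum (𝓞 K) → ℝ := fun v =>
    (T ((i : ℝ) / 2) (gamA X d Y e i N M) v * zt τ v).re with hgdef
  have hgb : ∀ v, |g v| ≤ (Fintype.card (PI d e i N M) : ℝ) := by
    intro v
    refine (Complex.abs_re_le_norm _).trans ?_
    rw [norm_mul, norm_zt, mul_one]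
    exact norm_T_le _ _ v
  have h2 := EP_vx (K := K) hgb
  -- the sum
  have hb1 : ∀ (p : ℕ × ℕ) (x : HX K), |(tX X d p.1 (N p.1) (vx x) *
      ((ρ p.2).shift τ).trace (vx x)).re| ≤ N p.1 * ((ρ p.2).shift τ).bd := by
    intro p x
    refine (Complex.abs_re_le_norm _).trans ?_
    rw [norm_mul]
    exact mul_le_mul (norm_tX_le X d p.1 (N p.1) (vx x)) (norm_trace_le _ x)
      (norm_nonneg _) (Nat.cast_nonneg _)
  set F : HX K → ℝ := fun x => ∑ p ∈ degrees d e i,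
    (tX X d p.1 (N p.1) (vx x) * ((ρ p.2).shift τ).trace (vx x)).re with hF
  have hFb : ∀ x, |F x| ≤ ∑ p ∈ degrees d e i, N p.1 * ((ρ p.2).shift τ).bd := by
    intro x
    refine (Finset.abs_sum_le_sum_abs _ _).trans ?_
    exact Finset.sum_le_sum fun p _ => hb1 p x
  have hsum : ∀ ε : ℝ, 0 < ε → (∑ p ∈ degrees d e i, (EP (nx K) ε fun x =>
      (tX X d p.1 (N p.1) (vx x) * ((ρ p.2).shift τ).trace (vx x)).re) / lam ε) =
      (EP (nx K) ε F) / lam ε := by
    intro ε hε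
    rw [hF, EP_sum hN hε _ _ (fun p => N p.1 * ((ρ p.2).shift τ).bd) (fun p _ x => hb1 p x),
      Finset.sum_div]
  have hae : Tendsto (fun ε : ℝ => (EP (nx K) ε F) / lam ε -
      (EP (nx K) ε fun x => g (vx x)) / lam ε) (𝓝[>] 0) (𝓝 0) := by
    refine EPH_ae hFb (fun x => hgb (vx x)) ?_
    have hcof : ∀ᶠ x : HX K in cofinite, ((∀ a ≤ 2 * d, Eig X d a (vx x)
          (alp X d a (N a) K (vx x))) ∧
        (∀ b ≤ 2 * e, Eig Y e b (vx x) (alp Y e b (M b) K (vx x))) ∧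
        (∀ b ≤ 2 * e, ∑ l, alp Y e b (M b) K (vx x) l =
          (Ideal.absNorm (vx x).asIdeal : ℂ) ^ ((b : ℂ) / 2) * (ρ b).trace (vx x)) ∧
        ∀ z : ℂ, (B (vx x)).eval z = ∏ c, (1 - gamA X d Y e i N M (vx x) c * z)) ∧
        ∀ c, ‖gamA X d Y e i N M (vx x) c‖ = (nm K (vx x) : ℝ) ^ ((i : ℝ) / 2) :=
      vx_injective.tendsto_cofinite.eventually (hg.and hnorm)
    filter_upwards [hcof] with x hx
    obtain ⟨h1, h2⟩ := hx
    have hqc : ((nm K (vx x) : ℕ) : ℂ) ≠ 0 := by exact_mod_cast (nm_pos (vx x)).ne'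
    rw [hF, hgdef]
    simp only
    rw [T_mul h2]
    have e1 : ∀ p ∈ degrees d e i, tX X d p.1 (N p.1) (vx x) *
        ((ρ p.2).shift τ).trace (vx x) =
        (∑ k, ∑ l, alp X d p.1 (N p.1) K (vx x) k * alp Y e p.2 (M p.2) K (vx x) l) *
          ((nm K (vx x) : ℕ) : ℂ) ^ (-(((i : ℝ) / 2 : ℝ) : ℂ)) * zt τ (vx x) := by
      intro p hp
      obtain ⟨hp0, hp1, hp2⟩ := mem_degrees.1 hp
      have e2 : ∀ j, ‖alp X d p.1 (N p.1) K (vx x) j‖ =
          (nm K (vx x) : ℝ) ^ ((p.1 : ℝ) / 2) := fun j => (h1.1 _ hp1).norm j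
      rw [tX, T_mul e2, trace_shift]
      have e3 : ((nm K (vx x) : ℕ) : ℂ) ^ (-(((i : ℝ) / 2 : ℝ) : ℂ)) *
          (Ideal.absNorm (vx x).asIdeal : ℂ) ^ ((p.2 : ℂ) / 2) =
          ((nm K (vx x) : ℕ) : ℂ) ^ (-(((p.1 : ℝ) / 2 : ℝ) : ℂ)) := by
        have : (Ideal.absNorm (vx x).asIdeal : ℂ) = ((nm K (vx x) : ℕ) : ℂ) := rfl
        rw [this, ← Complex.cpow_add _ _ hqc]
        congr 1
        rw [← hp0]
        push_cast
        ring
      rw [← Finset.sum_mul_sum, h1.2.2.1 _ hp2, ← e3]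
      ring
    have e2 : ∑ c, gamA X d Y e i N M (vx x) c = ∑ p ∈ degrees d e i,
        ∑ k, ∑ l, alp X d p.1 (N p.1) K (vx x) k * alp Y e p.2 (M p.2) K (vx x) l := by
      rw [Fintype.sum_sigma, ← Finset.sum_coe_sort (degrees d e i)]
      refine Finset.sum_congr rfl fun p _ => ?_
      rw [Fintype.sum_prod_type]
      rfl
    rw [e2, Finset.sum_mul, Finset.sum_mul, Complex.re_sum]
    refine Finset.sum_congr rfl fun p hp => ?_
    rw [← e1 p hp]
  have h3 := (hae.add h.2).sub h2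
  rw [add_zero, sub_zero] at h3
  refine h3.congr' ?_
  filter_upwards [self_mem_nhdsWithin] with ε hε
  rw [hsum ε hε]
  unfold size
  ring

end

end Pool.Agent.X298.HC
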