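import Pool.Agent.X298.HC.MEng

/-! Virtual representations: traces, Gram matrix, sizes. -/

set_option autoImplicit false
set_option linter.unusedSectionVars false
open Filter Topology NumberField Ideal IsDedekindDomain ComplexConjugate Polynomial

namespace Pool.Agent.X298.HC

open Pool.Agent.W540.BE Pool.Agent.H341R2
open Pool.Agent.W353.TP (HX push res)
open Pool.Agent.W353.NF (vx nm_vx vx_asIdeal)
open Pool.Agent.W353.EF (IsFrobenius)
open Pool.Agent.W353.EH (edgePoint size)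
open Pool.Agent.W353.PV (Eig alp pick_spec Eig_ker)
open Pool.Agent.H921R2.TatePole (kerPrime kerPrime_bijective hom_ext_of_ker below_eq_of_mem nm_eq
  below deg)
open scoped TensorProduct

section
variable {K F : Type} [Field K] [NumberField K] [Field F] [NumberField F] [Algebra K F]

/-- the primes of norm `p` above a prime of norm `p` -/
lemma exists_hom (x : HX K) (w : HeightOneSpectrum (𝓞 F))
    (h1 : w.asIdeal.comap (algebraMap (𝓞 K) (𝓞 F)) = (vx x).asIdeal)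
    (h2 : Ideal.absNorm w.asIdeal = Ideal.absNorm (vx x).asIdeal) :
    ∃ u : 𝓞 F →+* ZMod (x.1 : ℕ), res K u = x.2 ∧ vx (⟨x.1, u⟩ : HX F) = w := by
  have : Fact (x.1 : ℕ).Prime := ⟨x.1.2⟩
  have hp : (((x.1 : ℕ) : 𝓞 F)) ∈ w.asIdeal := by
    have h3 : (((x.1 : ℕ) : 𝓞 K)) ∈ w.asIdeal.comap (algebraMap (𝓞 K) (𝓞 F)) := by
      rw [h1, vx_asIdeal, RingHom.mem_ker, map_natCast]
      exact ZMod.natCast_self _
    rw [Ideal.mem_comap, map_natCast] at h3
    exact h3
  have hb : below w = x.1 := below_eq_of_mem hp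
  have hn : Pool.Agent.H921R2.TatePole.nm w = (x.1 : ℕ) := by
    have h4 : Ideal.absNorm (vx x).asIdeal = (x.1 : ℕ) := nm_vx x
    exact h2.trans h4
  have hd : deg w = 1 := by
    have h3 := (nm_eq w).1
    rw [hn, hb] at h3
    have h4 : (x.1 : ℕ) ^ 1 = (x.1 : ℕ) ^ deg w := by
      rw [pow_one]
      exact h3
    exact (Nat.pow_right_injective x.1.2.two_le h4).symm
  obtain ⟨u, hu⟩ := (kerPrime_bijective (K := F) x.1).2 ⟨⟨w, hb⟩, hd⟩
  have hu' : vx (⟨x.1, u⟩ : HX F) = w := congrArg (fun v => v.1.1) hu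
  refine ⟨u, ?_, hu'⟩
  apply hom_ext_of_ker
  have h5 : RingHom.ker (res K u) = (RingHom.ker u).comap (algebraMap (𝓞 K) (𝓞 F)) := by
    unfold Pool.Agent.W353.TP.res
    rw [RingHom.comap_ker]
  have h6 : RingHom.ker u = w.asIdeal := by
    rw [← hu', vx_asIdeal]
  rw [h5, h6, h1, vx_asIdeal]

end

section
variable {K : Type} [Field K] [NumberField K]

theorem trace_vx (π : Mono K) (x : HX K) : π.trace (vx x) = wv K π.ψ π.τ x := by
  classical
  unfold Mono.trace sumAbove wv push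
  set S := Finset.univ.filter (fun u : 𝓞 π.F →+* ZMod (x.1 : ℕ) => res K u = x.2) with hS
  have h2 : Ideal.absNorm (vx x).asIdeal = (x.1 : ℕ) := nm_vx _
  have h3 : ∀ u : S, av π.ψ π.τ (vx (⟨x.1, u.1⟩ : HX π.F)) =
      π.ψ.toFun (vx (⟨x.1, u.1⟩ : HX π.F)).asIdeal *
        (Ideal.absNorm (vx x).asIdeal : ℂ) ^ (-(π.τ * Complex.I)) := by
    intro u
    rw [h2, av_eq]
    unfold zt
    rw [nm_vx]
  rw [← Finset.sum_coe_sort S, Finset.sum_congr rfl fun u _ => h3 u, ← Finset.sum_mul,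
    ← finsum_eq_sum_of_fintype]
  congr 1
  symm
  refine finsum_eq_of_bijective (fun u : S => (⟨vx (⟨x.1, u.1⟩ : HX π.F), ?_, ?_⟩ :
    {w : HeightOneSpectrum (𝓞 π.F) //
      w.asIdeal.comap (algebraMap (𝓞 K) (𝓞 π.F)) = (vx x).asIdeal ∧
      Ideal.absNorm w.asIdeal = Ideal.absNorm (vx x).asIdeal})) ⟨?_, ?_⟩ ?_
  · have h1 := (Finset.mem_filter.1 u.2).2
    rw [vx_asIdeal, vx_asIdeal, ← h1]
    unfold Pool.Agent.W353.TP.res
    rw [RingHom.comap_ker]
  · have h1 : Ideal.absNorm (vx (⟨x.1, u.1⟩ : HX π.F)).asIdeal = (x.1 : ℕ) := nm_vx _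
    rw [h1, h2]
  · intro u u' h
    have h1 := congrArg (fun w => w.1.asIdeal) h
    simp only [vx_asIdeal] at h1
    have : Fact (x.1 : ℕ).Prime := ⟨x.1.2⟩
    exact Subtype.ext (hom_ext_of_ker h1)
  · rintro ⟨w, h1, h2⟩
    obtain ⟨u, hu1, hu2⟩ := exists_hom x w h1 h2
    exact ⟨⟨u, Finset.mem_filter.2 ⟨Finset.mem_univ _, hu1⟩⟩, Subtype.ext hu2⟩
  · intro u
    rfl

theorem gn_eq (π π' : Mono K) : gn K π.ψ π'.ψ π.τ π'.τ = (π.inter π' : ℝ) := by
  classical
  unfold gn Mono.inter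
  rw [Nat.card_eq_fintype_card, Fintype.card_subtype, Finset.card_filter]
  push_cast
  refine Finset.sum_congr rfl fun m _ => ?_
  unfold same AgreeOn
  by_cases h : Distinct (π.ψ.lift (fL K π.F π'.F m)) (π'.ψ.lift (fR K π.F π'.F m)) π.τ π'.τ
  · rw [if_pos h, if_neg (fun h' => h' h)]
  · rw [if_neg h, if_pos h]

/-- the Gram matrix of the monomial representations -/
theorem gram_mono (π π' : Mono K) : Tendsto (fun ε : ℝ =>
    (EP (nx K) ε fun x => (conj (π.trace (vx x)) * π'.trace (vx x)).re) / lam ε) (𝓝[>] 0)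
    (𝓝 (π.inter π' : ℝ)) := by
  rw [← gn_eq]
  refine (gramM π.ψ π'.ψ π.τ π'.τ).congr fun ε => ?_
  congr 2
  funext x
  rw [trace_vx, trace_vx]

/-- a bound for the traces -/
noncomputable def Virt.bd (ρ : Virt K) : ℝ :=
  ∑ π ∈ ρ.support, |(ρ π : ℝ)| * Module.finrank ℚ π.F

lemma trace_eq_sum (ρ : Virt K) (v : HeightOneSpectrum (𝓞 K)) :
    ρ.trace v = ∑ π ∈ ρ.support, (ρ π : ℂ) * π.trace v := rfl

lemma norm_trace_le (ρ : Virt K) (x : HX K) : ‖ρ.trace (vx x)‖ ≤ ρ.bd := by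
  rw [trace_eq_sum]
  unfold Virt.bd
  refine (norm_sum_le _ _).trans (Finset.sum_le_sum fun π _ => ?_)
  rw [norm_mul, Complex.norm_intCast, trace_vx]
  exact mul_le_mul_of_nonneg_left (norm_wv _ _ _) (abs_nonneg _)

lemma inter_eq_sum (ρ ρ' : Virt K) : ρ.inter ρ' = ∑ π ∈ ρ.support, ∑ π' ∈ ρ'.support,
    ρ π * ρ' π' * (π.inter π' : ℤ) := rfl

/-- **The Gram matrix of the virtual representations.** -/
theorem gram_virt (ρ ρ' : Virt K) : Tendsto (fun ε : ℝ =>
    (EP (nx K) ε fun x => (conj (ρ.trace (vx x)) * ρ'.trace (vx x)).re) / lam ε) (𝓝[>] 0)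
    (𝓝 (ρ.inter ρ' : ℝ)) := by
  classical
  have hN : NormSys (nx K) := normSysH
  have h1 : Tendsto (fun ε : ℝ => ∑ π ∈ ρ.support, ∑ π' ∈ ρ'.support, ((ρ π : ℝ) * ρ' π') *
      ((EP (nx K) ε fun x => (conj (π.trace (vx x)) * π'.trace (vx x)).re) / lam ε)) (𝓝[>] 0)
      (𝓝 (∑ π ∈ ρ.support, ∑ π' ∈ ρ'.support, ((ρ π : ℝ) * ρ' π') * (π.inter π' : ℝ))) :=
    tendsto_finsetSum _ fun π _ => tendsto_finsetSum _ fun π' _ =>
      (gram_mono π π').const_mul _
  have e1 : (∑ π ∈ ρ.support, ∑ π' ∈ ρ'.support, ((ρ π : ℝ) * ρ' π') * (π.inter π' : ℝ)) =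
      (ρ.inter ρ' : ℝ) := by
    rw [inter_eq_sum]
    push_cast
    rfl
  rw [e1] at h1
  refine h1.congr' ?_
  filter_upwards [self_mem_nhdsWithin] with ε hε
  have hε' : (0 : ℝ) < ε := hε
  have hb : ∀ (π π' : Mono K) (x : HX K), |((ρ π : ℝ) * ρ' π') *
      (conj (π.trace (vx x)) * π'.trace (vx x)).re| ≤
      |(ρ π : ℝ) * ρ' π'| * (Module.finrank ℚ π.F * Module.finrank ℚ π'.F) := by
    intro π π' x
    rw [abs_mul]
    refine mul_le_mul_of_nonneg_left ?_ (abs_nonneg _)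
    refine (Complex.abs_re_le_norm _).trans ?_
    rw [norm_mul, Complex.norm_conj, trace_vx, trace_vx]
    exact mul_le_mul (norm_wv _ _ _) (norm_wv _ _ _) (norm_nonneg _) (Nat.cast_nonneg _)
  have e2 : (fun x => (conj (ρ.trace (vx x)) * ρ'.trace (vx x)).re) = fun x : HX K =>
      ∑ π ∈ ρ.support, ∑ π' ∈ ρ'.support, ((ρ π : ℝ) * ρ' π') *
        (conj (π.trace (vx x)) * π'.trace (vx x)).re := by
    funext x
    rw [trace_eq_sum, trace_eq_sum, map_sum, Finset.sum_mul_sum, Complex.re_sum]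
    refine Finset.sum_congr rfl fun π _ => ?_
    rw [Complex.re_sum]
    refine Finset.sum_congr rfl fun π' _ => ?_
    rw [map_mul, map_intCast]
    have : (ρ π : ℂ) * conj (π.trace (vx x)) * ((ρ' π' : ℂ) * π'.trace (vx x)) =
        (((ρ π : ℝ) * (ρ' π' : ℝ) : ℝ) : ℂ) * (conj (π.trace (vx x)) * π'.trace (vx x)) := by
      push_cast
      ring
    rw [this, Complex.re_ofReal_mul]
  rw [e2, EP_sum hN hε' _ _ (fun π => ∑ π' ∈ ρ'.support, |(ρ π : ℝ) * ρ' π'| *
    (Module.finrank ℚ π.F * Module.finrank ℚ π'.F)) (fun π _ x =>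
      (Finset.abs_sum_le_sum_abs _ _).trans (Finset.sum_le_sum fun π' _ => hb π π' x)),
    Finset.sum_div]
  refine Finset.sum_congr rfl fun π _ => ?_
  rw [EP_sum hN hε' _ _ (fun π' => |(ρ π : ℝ) * ρ' π'| *
    (Module.finrank ℚ π.F * Module.finrank ℚ π'.F)) (fun π' _ x => hb π π' x), Finset.sum_div]
  refine Finset.sum_congr rfl fun π' _ => ?_
  rw [EP_const_mul]
  ring

end

section
variable {K : Type} [Field K] [NumberField K] {n : ℕ}
variable {X : Set (MvPolynomial (Fin n) (𝓞 K))} {d a N : ℕ}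

variable (X d a N) in
/-- the normalised trace over an extension -/
noncomputable def tXF (F : Type) [Field F] [NumberField F] [Algebra K F]
    (v : HeightOneSpectrum (𝓞 F)) : ℂ :=
  T ((a : ℝ) / 2) (fun v => alp X d a N F v) v

lemma norm_tXF_le (F : Type) [Field F] [NumberField F] [Algebra K F]
    (v : HeightOneSpectrum (𝓞 F)) : ‖tXF X d a N F v‖ ≤ N := by
  have := norm_T_le ((a : ℝ) / 2) (fun v => alp X d a N F v) v
  rwa [Fintype.card_fin] at this

lemma tXF_self (v : HeightOneSpectrum (𝓞 K)) : tXF X d a N K v = tX X d a N v := rfl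

lemma tXF_vx {F : Type} [Field F] [NumberField F] [Algebra K F] (p : Nat.Primes)
    (u : 𝓞 F →+* ZMod (p : ℕ)) :
    tXF X d a N F (vx (⟨p, u⟩ : HX F)) = tX X d a N (vx (⟨p, res K u⟩ : HX K)) := by
  have e1 : alp X d a N F (vx (⟨p, u⟩ : HX F)) =
      alp X d a N K (vx (⟨p, res K u⟩ : HX K)) := by
    unfold alp
    congr 1
    funext α
    exact propext (Eig_ker p u α)
  unfold tXF tX T
  simp only [e1, nm_vx]

/-- **The size of a twist by a monomial representation.** -/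
theorem twist_sizeM (ha : a ≤ 2 * d) {π : Mono K} {B : HeightOneSpectrum (𝓞 π.F) → ℂ[X]}
    (hB : IsTwistBy X d a N π B) :
    (∀ᶠ ε : ℝ in 𝓝[>] 0, Pool.Agent.W353.EF.LFun B (edgePoint a π.τ + ε) ≠ 0) ∧
    Tendsto (fun ε : ℝ => (EP (nx K) ε fun x => (tX X d a N (vx x) * π.trace (vx x)).re) / lam ε -
      size a π.τ B ε) (𝓝[>] 0) (𝓝 0) := by
  classical
  have hg : ∀ᶠ v in cofinite, (∀ j, ‖alp X d a N π.F v j‖ = (nm π.F v : ℝ) ^ ((a : ℝ) / 2)) ∧
      ∀ z : ℂ, (B v).eval z = ∏ j, (1 - (π.ψ.toFun v.asIdeal * alp X d a N π.F v j) * z) := by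
    refine hB.1.mono fun v hv => ?_
    obtain ⟨α, h1, h2⟩ := hv
    have h3 : Eig X d a v (alp X d a N π.F v) := pick_spec ⟨α, h1⟩
    refine ⟨fun j => h3.norm j, fun z => ?_⟩
    rw [h2 z]
    have h1' : Eig X d a v α := h1
    have h4 := congrArg (fun s : Multiset ℂ =>
      (s.map fun a => (1 - (π.ψ.toFun v.asIdeal * a) * z)).prod) (h1'.unique' ha h3)
    simp only [Multiset.map_map] at h4
    exact h4
  set γ : HeightOneSpectrum (𝓞 π.F) → Fin N → ℂ := fun v j =>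
    π.ψ.toFun v.asIdeal * alp X d a N π.F v j with hγ
  have h := link ((a : ℝ) / 2) π.τ γ
    (by
      filter_upwards [hg, ae_ne π.ψ] with v h1 h2
      intro j
      rw [hγ]
      simp only
      rw [norm_mul, norm_of_ne π.ψ h2, one_mul]
      exact h1.1 j) B (hg.mono fun v hv => hv.2) (by
      intro v
      rw [edge_eq]
      exact hB.2 v)
  simp only [edge_eq] at h
  refine ⟨h.1, ?_⟩
  have hb0 : ∀ v, |(tXF X d a N π.F v * av π.ψ π.τ v).re| ≤ N := by
    intro v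
    refine (Complex.abs_re_le_norm _).trans ?_
    rw [norm_mul]
    calc _ ≤ (N : ℝ) * 1 := mul_le_mul (norm_tXF_le π.F v) (norm_av_le _ _ _)
          (norm_nonneg _) (Nat.cast_nonneg _)
      _ = N := mul_one _
  have hae : Tendsto (fun ε : ℝ => (EP (nm π.F) ε fun v =>
      (tXF X d a N π.F v * av π.ψ π.τ v).re) / lam ε -
      (EP (nm π.F) ε fun v => (T ((a : ℝ) / 2) γ v * zt π.τ v).re) / lam ε) (𝓝[>] 0) (𝓝 0) := by
    refine EP_ae (B := N) hb0 (fun v => ?_) ?_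
    · refine (Complex.abs_re_le_norm _).trans ?_
      rw [norm_mul, norm_zt, mul_one]
      have := norm_T_le ((a : ℝ) / 2) γ v
      rwa [Fintype.card_fin] at this
    · filter_upwards [hg, ae_ne π.ψ] with v h1 h2
      have h3 : ∀ j, ‖γ v j‖ = (nm π.F v : ℝ) ^ ((a : ℝ) / 2) := by
        intro j
        rw [hγ]
        simp only
        rw [norm_mul, norm_of_ne π.ψ h2, one_mul]
        exact h1.1 j
      rw [T_mul h3, tXF, T_mul h1.1, av_eq, hγ]
      simp only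
      rw [← Finset.mul_sum]
      congr 1
      ring
  have h2 := EP_vx (K := π.F) hb0
  have h3 := (hae.add h.2).sub h2
  rw [add_zero, sub_zero] at h3
  refine h3.congr' ?_
  filter_upwards [self_mem_nhdsWithin] with ε hε
  have hε' : (0 : ℝ) < ε := hε
  have e1 : (EP (nx π.F) ε fun y => (tXF X d a N π.F (vx y) * av π.ψ π.τ (vx y)).re) =
      EP (nx K) ε fun x => (tX X d a N (vx x) * π.trace (vx x)).re := by
    have e2 := Pool.Agent.W353.TP.EH_push (K := K) hε' (h := fun y : HX π.F =>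
      (tXF X d a N π.F (vx y) * av π.ψ π.τ (vx y)).re) (fun y => hb0 (vx y))
    refine e2.trans ?_
    rw [EPH]
    congr 1
    funext x
    rw [trace_vx]
    unfold wv push
    rw [Finset.mul_sum, Complex.re_sum]
    refine Finset.sum_congr rfl fun u hu => ?_
    have h5 := (Finset.mem_filter.1 hu).2
    have h6 := tXF_vx (X := X) (d := d) (a := a) (N := N) (K := K) x.1 u
    rw [h5] at h6
    change (tXF X d a N π.F (vx (⟨x.1, u⟩ : HX π.F)) * av π.ψ π.τ (vx (⟨x.1, u⟩ : HX π.F))).re =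
      (tX X d a N (vx x) * av π.ψ π.τ (vx (⟨x.1, u⟩ : HX π.F))).re
    rw [h6]
  rw [← e1]
  unfold size
  ring

/-- the second moment -/
lemma second_vx : Tendsto (fun ε : ℝ => (EP (nm K) ε fun v => ‖tX X d a N v‖ ^ 2) / lam ε -
    (EP (nx K) ε fun x => ‖tX X d a N (vx x)‖ ^ 2) / lam ε) (𝓝[>] 0) (𝓝 0) :=
  EP_vx (C := (N : ℝ) ^ 2) fun v => by
    rw [abs_of_nonneg (sq_nonneg _)]
    exact pow_le_pow_left₀ (norm_nonneg _) (norm_tX_le X d a N v) 2

end

end Pool.Agent.X298.HC
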