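import Pool.Agent.X298.HC.MMain2

/-! The twists of one cohomology group by virtual representations. -/

set_option autoImplicit false
set_option linter.unusedSectionVars false
open Filter Topology NumberField Ideal IsDedekindDomain ComplexConjugate Polynomial

namespace Pool.Agent.X298.HC

open Pool.Agent.W540.BE Pool.Agent.H341R2
open Pool.Agent.W353.TP (HX push res)
open Pool.Agent.W353.NF (vx nm_vx vx_asIdeal)
open Pool.Agent.W353.EH (edgePoint size HasOrder)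

/-- Bessel's inequality from the Gram inequality -/
lemma bessel_abs {ι : Type*} [Fintype ι] (L : ι → ℝ) (G : ι → ι → ℝ) {R : ℝ} (hR0 : 0 ≤ R)
    (hG0 : ∀ k, 0 ≤ G k k)
    (hG : ∀ c : ι → ℝ, (∑ k, c k * L k) ^ 2 ≤ R * ∑ k, ∑ l, c k * c l * G k l)
    (horth : ∀ k l, k ≠ l → G k l = 0) : ∑ k, L k ^ 2 / G k k ≤ R := by
  classical
  have h2 := hG (fun k => L k / G k k)
  have e1 : ∑ k, L k / G k k * L k = ∑ k, L k ^ 2 / G k k :=
    Finset.sum_congr rfl fun k _ => by ring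
  have e2 : ∑ k, ∑ l, L k / G k k * (L l / G l l) * G k l = ∑ k, L k ^ 2 / G k k := by
    refine Finset.sum_congr rfl fun k _ => ?_
    rw [Finset.sum_eq_single k]
    · by_cases hqk : G k k = 0
      · rw [hqk]
        simp
      · field_simp
    · intro l _ hlk
      rw [horth k l hlk.symm, mul_zero]
    · intro h
      exact absurd (Finset.mem_univ k) h
  rw [e1, e2] at h2
  set s := ∑ k, L k ^ 2 / G k k with hs
  have hs0 : 0 ≤ s := Finset.sum_nonneg fun k _ => div_nonneg (sq_nonneg _) (hG0 k)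
  by_contra hcon
  push Not at hcon
  have hspos : 0 < s := hR0.trans_lt hcon
  nlinarith

section
variable {K : Type} [Field K] [NumberField K] {n : ℕ}
variable {X : Set (MvPolynomial (Fin n) (𝓞 K))} {d : ℕ} {N : ℕ → ℕ}

lemma EPH_pos : ∀ᶠ ε : ℝ in 𝓝[>] 0, 0 < EP (nx K) ε fun _ => 1 := by
  filter_upwards [(EPH_one (K := K)).eventually_const_lt (show (0 : ℝ) < 1 by norm_num),
    lam_tendsto.eventually_gt_atTop 0] with ε h1 h3
  have := mul_pos h1 h3
  rwa [div_mul_cancel₀ _ h3.ne'] at this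

/-- **The Gram inequality for the twists of `H^a(X)`.** -/
theorem gram_one {a : ℕ} {R : ℝ} {U : Ultrafilter ℝ} (hU : (U : Filter ℝ) ≤ 𝓝[>] 0)
    (hR : ∀ δ : ℝ, 0 < δ → ∀ᶠ ε : ℝ in 𝓝[>] 0,
      (EP (nx K) ε fun x => ‖tX X d a (N a) (vx x)‖ ^ 2) / lam ε ≤ R + δ)
    {x : ℕ → Mono K → ℝ} (hx : ∀ a π, Tendsto (yM X d N a π) U (𝓝 (x a π)))
    {κ : Type*} [Fintype κ] (ρ : κ → Virt K) (c : κ → ℝ) :
    0 ≤ ∑ k, ∑ l, c k * c l * ((ρ k).inter (ρ l) : ℝ) ∧
    (∑ k, c k * xV x a (ρ k)) ^ 2 ≤ R * ∑ k, ∑ l, c k * c l * ((ρ k).inter (ρ l) : ℝ) := by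
  obtain ⟨x0⟩ : Nonempty (HX K) := (Pool.Agent.W353.TP.sysH K).nonempty
  refine engineP (normSysH (K := K)) x0 hU EPH_pos (fun k x => conj ((ρ k).trace (vx x)))
    (fun k => (ρ k).bd) (fun k x => ?_) (fun k l => ((ρ k).inter (ρ l) : ℝ)) (fun k l => ?_)
    (fun x => tX X d a (N a) (vx x)) (b := N a) (fun x => norm_tX_le X d a (N a) _)
    (fun δ hδ => hU (hR δ hδ)) (fun k => xV x a (ρ k)) (fun k => ?_) c
  · rw [Complex.norm_conj]
    exact norm_trace_le _ x
  · refine ((gram_virt (ρ k) (ρ l)).mono_left hU).congr fun ε => ?_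
    simp only [Complex.conj_conj]
  · refine (yV_lim hU (ρ := ρ k) fun π _ => hx a π).congr fun ε => ?_
    simp only [Complex.conj_conj]
    rfl

/-- the second moment on the homomorphisms -/
lemma second_one {R : ℕ → ℕ} (hR : SecondMoment X d N R) {a : ℕ} (ha : a ≤ 2 * d) :
    ∀ δ : ℝ, 0 < δ → ∀ᶠ ε : ℝ in 𝓝[>] 0,
      (EP (nx K) ε fun x => ‖tX X d a (N a) (vx x)‖ ^ 2) / lam ε ≤ R a + δ := by
  intro δ hδ
  have h2 := second hR ha (δ / 2) (by positivity)
  have h3 := (second_vx (X := X) (d := d) (a := a) (N := N a)).eventually_const_lt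
    (show (-(δ / 2)) < 0 by linarith)
  filter_upwards [h2, h3] with ε h4 h5
  linarith

lemma inter_nonneg {a : ℕ} {R : ℝ} {U : Ultrafilter ℝ} (hU : (U : Filter ℝ) ≤ 𝓝[>] 0)
    (hR : ∀ δ : ℝ, 0 < δ → ∀ᶠ ε : ℝ in 𝓝[>] 0,
      (EP (nx K) ε fun x => ‖tX X d a (N a) (vx x)‖ ^ 2) / lam ε ≤ R + δ)
    {x : ℕ → Mono K → ℝ} (hx : ∀ a π, Tendsto (yM X d N a π) U (𝓝 (x a π)))
    (ρ : Virt K) : 0 ≤ ρ.inter ρ ∧ xV x a ρ ^ 2 ≤ R * (ρ.inter ρ : ℝ) := by
  have h := gram_one hU hR hx (κ := Unit) (fun _ => ρ) (fun _ => 1)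
  simp only [Finset.univ_unique, Finset.sum_const, Finset.card_singleton, one_smul, one_mul] at h
  exact ⟨by exact_mod_cast h.1, h.2⟩

/-- **The Gram inequality for the sizes.** -/
theorem gram_sizes {R : ℕ → ℕ} (hR : SecondMoment X d N R) {a : ℕ} (ha : a ≤ 2 * d)
    {l : ℕ} (ρ : Fin l → Virt K)
    (B : Fin l → ∀ π : Mono K, HeightOneSpectrum (𝓞 π.F) → ℂ[X])
    (hB : ∀ k, ∀ π ∈ (ρ k).support, IsTwistBy X d a (N a) π (B k π)) (c : Fin l → ℝ)
    {η : ℝ} (hη : 0 < η) :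
    ∀ᶠ ε : ℝ in 𝓝[>] 0, (∑ k, c k * (ρ k).size a (B k) ε) ^ 2 ≤
      R a * ∑ k, ∑ k', c k * c k' * ((ρ k).inter (ρ k') : ℝ) + η := by
  by_contra hcon
  rw [Filter.not_eventually] at hcon
  obtain ⟨U, hU, hUP⟩ := exists_ultra_of hcon
  choose x hx using fun (a : ℕ) (π : Mono K) =>
    exists_lim (U := U) (hU (yM_bdd (X := X) (d := d) (N := N) a π))
  have h1 := (gram_one hU (second_one hR ha) hx ρ c).2
  have h2 : ∀ k, Tendsto ((ρ k).size a (B k)) U (𝓝 (xV x a (ρ k))) := by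
    intro k
    have h3 := (yV_lim hU (ρ := ρ k) fun π _ => hx a π).sub
      ((size_known ha (hB k)).mono_left hU)
    rw [sub_zero] at h3
    refine h3.congr fun ε => ?_
    ring
  have h3 : Tendsto (fun ε : ℝ => (∑ k, c k * (ρ k).size a (B k) ε) ^ 2) U
      (𝓝 ((∑ k, c k * xV x a (ρ k)) ^ 2)) :=
    (tendsto_finsetSum _ fun k _ => (h2 k).const_mul _).pow 2
  have h4 := ge_of_tendsto h3 (hUP.mono fun ε hε => (not_le.1 hε).le)
  linarith

/-- **The Gram inequality for the orders.** -/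
theorem gram_orders {R : ℕ → ℕ} (hR : SecondMoment X d N R) {a : ℕ} (ha : a ≤ 2 * d)
    {l : ℕ} (ρ : Fin l → Virt K)
    (B : Fin l → ∀ π : Mono K, HeightOneSpectrum (𝓞 π.F) → ℂ[X])
    (hB : ∀ k, ∀ π ∈ (ρ k).support, IsTwistBy X d a (N a) π (B k π)) (m : Fin l → ℤ)
    (hm : ∀ k, (ρ k).HasOrder a (B k) (m k)) (c : Fin l → ℝ) :
    (∑ k, c k * m k) ^ 2 ≤ R a * ∑ k, ∑ k', c k * c k' * ((ρ k).inter (ρ k') : ℝ) := by
  refine le_of_forall_pos_le_add fun η hη => ?_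
  have h1 : Tendsto (fun ε : ℝ => (∑ k, c k * (ρ k).size a (B k) ε) ^ 2) (𝓝[>] 0)
      (𝓝 ((∑ k, c k * (-(m k : ℝ))) ^ 2)) :=
    (tendsto_finsetSum _ fun k _ => (virt_lim ha (hB k) (hm k)).const_mul _).pow 2
  have h2 := le_of_tendsto h1 (gram_sizes hR ha ρ B hB c hη)
  have e1 : ∑ k, c k * (-(m k : ℝ)) = -∑ k, c k * m k := by
    rw [← Finset.sum_neg_distrib]
    exact Finset.sum_congr rfl fun k _ => by ring
  rw [e1, neg_sq] at h2
  exact h2

/-- **The exceptional set for the twists.** -/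
theorem twist_excM {R : ℕ → ℕ} (hR : SecondMoment X d N R) {a : ℕ} (ha : a ≤ 2 * d)
    (r k : ℕ) (hk : 1 ≤ k) : ∃ S : Finset (Virt K), S.card ≤ k ^ 2 * r * R a ∧
      ∀ (ρ : Virt K) (B : ∀ π : Mono K, HeightOneSpectrum (𝓞 π.F) → ℂ[X]),
        ρ.inter ρ ≤ r → (∀ σ ∈ S, ρ.inter σ = 0) →
        (∀ π ∈ ρ.support, IsTwistBy X d a (N a) π (B π)) →
        (∃ᶠ ε : ℝ in 𝓝[>] 0, |ρ.size a B ε| < 1 / k) ∧
        ∀ m : ℤ, ρ.HasOrder a B m → m = 0 := by
  classical
  obtain ⟨U, hU⟩ := exists_ultra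
  choose x hx using fun (a : ℕ) (π : Mono K) =>
    exists_lim (U := U) (hU (yM_bdd (X := X) (d := d) (N := N) a π))
  have hR' := second_one hR ha
  have hk0 : (0 : ℝ) < k := by exact_mod_cast hk
  obtain ⟨S, -, -, hS3, hS4⟩ := exists_max
    (P := {σ : Virt K // 1 / (k : ℝ) ≤ |xV x a σ| ∧ σ.inter σ ≤ r})
    (fun σ σ' => σ.1.inter σ'.1 = 0) (fun σ σ' h => by rwa [inter_comm']) (by
      intro σ h0
      obtain ⟨-, h2⟩ := inter_nonneg hU hR' hx σ.1
      rw [h0, Int.cast_zero, mul_zero] at h2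
      have h4 : xV x a σ.1 = 0 := by nlinarith [sq_nonneg (xV x a σ.1)]
      have h5 := σ.2.1
      rw [h4, abs_zero] at h5
      have : (0 : ℝ) < 1 / k := by positivity
      linarith) Set.univ (k ^ 2 * r * R a) (by
      intro S _ hS2
      have hb := bessel_abs (ι := {σ // σ ∈ S}) (fun s => xV x a s.1.1)
        (fun s t => (s.1.1.inter t.1.1 : ℝ)) (R := R a) (Nat.cast_nonneg _)
        (fun s => by exact_mod_cast (inter_nonneg hU hR' hx s.1.1).1)
        (fun c => (gram_one hU hR' hx (fun s : {σ // σ ∈ S} => s.1.1) c).2)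
        (fun s t hst => by
          have := hS2 s.1 s.2 t.1 t.2 (fun h => hst (Subtype.ext h))
          rw [this, Int.cast_zero])
      have hq : ∀ s : {σ // σ ∈ S}, 0 < (s.1.1.inter s.1.1 : ℝ) := by
        intro s
        obtain ⟨h1, h2⟩ := inter_nonneg hU hR' hx s.1.1
        rcases h1.lt_or_eq with h3 | h3
        · exact_mod_cast h3
        · exfalso
          rw [← h3, Int.cast_zero, mul_zero] at h2
          have h4 : xV x a s.1.1 = 0 := by nlinarith [sq_nonneg (xV x a s.1.1)]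
          have h5 := s.1.2.1
          rw [h4, abs_zero] at h5
          have : (0 : ℝ) < 1 / k := by positivity
          linarith
      rcases S.eq_empty_or_nonempty with hE | ⟨s0, hs0⟩
      · rw [hE, Finset.card_empty]
        exact Nat.zero_le _
      · have hr0 : (0 : ℝ) < r := (hq ⟨s0, hs0⟩).trans_le (by exact_mod_cast s0.2.2)
        have h4 : (Fintype.card {σ // σ ∈ S} : ℝ) * ((1 / (k : ℝ)) ^ 2 / r) ≤ R a := by
          refine le_trans ?_ hb
          rw [← nsmul_eq_mul, ← Finset.card_univ]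
          refine Finset.card_nsmul_le_sum _ _ _ fun s _ => ?_
          have h5 : (1 / (k : ℝ)) ^ 2 ≤ xV x a s.1.1 ^ 2 := by
            rw [← sq_abs (xV x a s.1.1)]
            exact pow_le_pow_left₀ (by positivity) s.1.2.1 2
          calc (1 / (k : ℝ)) ^ 2 / r ≤ (1 / (k : ℝ)) ^ 2 / (s.1.1.inter s.1.1 : ℝ) :=
                div_le_div_of_nonneg_left (sq_nonneg _) (hq s) (by exact_mod_cast s.1.2.2)
            _ ≤ xV x a s.1.1 ^ 2 / (s.1.1.inter s.1.1 : ℝ) :=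
                div_le_div_of_nonneg_right h5 (hq s).le
        rw [Fintype.card_coe] at h4
        have h6 : (S.card : ℝ) ≤ k ^ 2 * r * R a := by
          have h7 := mul_le_mul_of_nonneg_left h4 (by positivity : (0 : ℝ) ≤ k ^ 2 * r)
          have h8 : (k : ℝ) ^ 2 * r * (S.card * ((1 / (k : ℝ)) ^ 2 / r)) = S.card := by
            field_simp
          rwa [h8] at h7
        exact_mod_cast h6)
  refine ⟨S.image Subtype.val, Finset.card_image_le.trans hS3, ?_⟩
  intro ρ B hr hσ hB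
  have h2 : |xV x a ρ| < 1 / k := by
    by_contra hcon
    push Not at hcon
    obtain ⟨s, hs, hs2⟩ := hS4 ⟨ρ, hcon, hr⟩ (Set.mem_univ _)
    exact hs2 (hσ s.1 (Finset.mem_image_of_mem _ hs))
  have h1 : Tendsto (ρ.size a B) U (𝓝 (xV x a ρ)) := by
    have h3 := (yV_lim hU (ρ := ρ) fun π _ => hx a π).sub
      ((size_known ha hB).mono_left hU)
    rw [sub_zero] at h3
    refine h3.congr fun ε => ?_
    ring
  refine ⟨?_, fun m hm => ?_⟩
  · have h3 : ∀ᶠ ε in (U : Filter ℝ), |ρ.size a B ε| < 1 / k := h1.abs.eventually_lt_const h2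
    exact (h3.frequently).filter_mono hU
  · have h3 := (virt_lim ha hB hm).mono_left hU
    have h4 := tendsto_nhds_unique h3 h1
    rw [← h4, abs_neg, ← Int.cast_abs] at h2
    have h5 : (1 : ℝ) / k ≤ 1 := by
      rw [div_le_one hk0]
      exact_mod_cast hk
    have h6 : |m| < 1 := by exact_mod_cast h2.trans_le h5
    exact Int.abs_lt_one_iff.1 h6

end

end Pool.Agent.X298.HC
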