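import Pool.Agent.X298.HC.Ops

/-! The means of the values of a Hecke character at the primes are bounded: the `3-4-1` argument. -/

set_option autoImplicit false
set_option linter.unusedSectionVars false
open Filter Topology NumberField Ideal IsDedekindDomain ComplexConjugate

namespace Pool.Agent.X298.HC

open Pool.Agent.H484R2 Pool.Agent.W540.BE Pool.Agent.H341R2

variable {K : Type} [Field K] [NumberField K]

lemma path_edge (τ : ℝ) : Tendsto (fun ε : ℝ => (1 : ℂ) + τ * Complex.I + ε) (𝓝[>] 0)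
    (𝓝 (1 + τ * Complex.I)) := by
  have h1 : Tendsto (fun ε : ℝ => (1 : ℂ) + τ * Complex.I + ε) (𝓝 0)
      (𝓝 (1 + τ * Complex.I + ((0 : ℝ) : ℂ))) :=
    (continuous_const.add Complex.continuous_ofReal).tendsto 0
  rw [Complex.ofReal_zero, add_zero] at h1
  exact h1.mono_left nhdsWithin_le_nhds

lemma re_edge (τ : ℝ) {ε : ℝ} (hε : 0 < ε) : 1 < ((1 : ℂ) + τ * Complex.I + ε).re := by
  simp [hε]

/-- nontrivial at height `τ` -/
def NT (ψ : HeckeChar K) (τ : ℝ) : Prop :=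
  τ ≠ 0 ∨ ∃ b : Ideal (𝓞 K), ψ.toFun b ≠ 0 ∧ ψ.toFun b ≠ 1

lemma ne_bot_of_ne (ψ : HeckeChar K) {b : Ideal (𝓞 K)} (h : ψ.toFun b ≠ 0) : b ≠ ⊥ := by
  rintro rfl
  refine h (ψ.eq_zero _ ?_)
  intro hc
  rw [Ideal.isCoprime_iff_sup_eq, bot_sup_eq] at hc
  have h6 : absNorm (span {(ψ.modulus : 𝓞 K)}) = 1 := by
    rw [Ideal.absNorm_eq_one_iff]
    exact hc
  rw [Ideal.absNorm_span_natCast] at h6
  have h7 : ψ.modulus ∣ 1 := by
    rw [← h6]
    exact dvd_pow_self _ (by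
      have := Module.finrank_pos (R := ℤ) (M := 𝓞 K)
      omega)
  rw [Nat.dvd_one] at h7
  have := ψ.one_lt
  omega

lemma exists_analytic (ψ : HeckeChar K) (τ : ℝ) (h : NT ψ τ) :
    ∃ f : ℂ → ℂ, AnalyticAt ℂ f (1 + τ * Complex.I) ∧
      ∀ᶠ ε : ℝ in 𝓝[>] 0, f (1 + τ * Complex.I + ε) = LS ψ (1 + τ * Complex.I + ε) := by
  obtain ⟨f, hf1, hf2⟩ := analytic_LS ψ τ (h.imp_right fun ⟨b, hb1, hb2⟩ =>
    ⟨b, ne_bot_of_ne ψ hb1, coprime_of_ne ψ hb1, hb2⟩)
  refine ⟨f, hf1, ?_⟩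
  filter_upwards [(path_edge τ).eventually hf2, self_mem_nhdsWithin] with ε h1 h2
  exact h1 (re_edge τ h2)

/-- upper bound -/
theorem EP_up (ψ : HeckeChar K) (τ : ℝ) (h : NT ψ τ) : ∃ C : ℝ, ∀ᶠ ε : ℝ in 𝓝[>] 0,
    (EP (nm K) ε fun v => (av ψ τ v).re) ≤ C := by
  obtain ⟨f, hf1, hf2⟩ := exists_analytic ψ τ h
  obtain ⟨C, hC⟩ := size_LS ψ τ
  have h1 : Tendsto (fun ε : ℝ => ‖f (1 + τ * Complex.I + ε)‖) (𝓝[>] 0)
      (𝓝 ‖f (1 + τ * Complex.I)‖) := (hf1.continuousAt.tendsto.comp (path_edge τ)).norm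
  obtain ⟨B, hB⟩ := h1.isBoundedUnder_le
  refine ⟨C + B, ?_⟩
  filter_upwards [hC, hf2, Filter.eventually_map.1 hB] with ε h2 h3 h4
  rw [h3] at h4
  have h5 : Real.log ‖LS ψ (1 + τ * Complex.I + ε)‖ ≤ B :=
    (Real.log_le_self (norm_nonneg _)).trans h4
  have := (abs_le.1 h2).2
  linarith

lemma sq_re_nonneg {a : ℂ} (ha : ‖a‖ = 1 ∨ a = 0) : 0 ≤ 3 + 4 * a.re + (a * a).re := by
  rcases ha with ha | ha
  · have h1 : a.re ^ 2 + a.im ^ 2 = 1 := by
      have := Complex.normSq_eq_norm_sq a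
      rw [ha, Complex.normSq_apply] at this
      nlinarith
    rw [Complex.mul_re]
    nlinarith [sq_nonneg (a.re + 1)]
  · rw [ha]; norm_num

lemma norm_or (ψ : HeckeChar K) (I : Ideal (𝓞 K)) : ‖ψ.toFun I‖ = 1 ∨ ψ.toFun I = 0 := by
  by_cases h : IsCoprime I (span {(ψ.modulus : 𝓞 K)})
  · exact Or.inl (ψ.norm_eq_one I h)
  · exact Or.inr (ψ.eq_zero I h)

lemma av_or (ψ : HeckeChar K) (τ : ℝ) (v : HeightOneSpectrum (𝓞 K)) :
    ‖av ψ τ v‖ = 1 ∨ av ψ τ v = 0 := by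
  have hpos : 0 < nm K v := by have := two_le_nm v; omega
  unfold av
  rcases norm_or ψ v.asIdeal with h | h
  · left
    rw [norm_mul, norm_cpow_I hpos, h, one_mul]
  · right
    rw [h, zero_mul]

lemma av_sq (ψ : HeckeChar K) (τ : ℝ) (v : HeightOneSpectrum (𝓞 K)) :
    av ψ τ v * av ψ τ v = av (ψ.mul ψ) (2 * τ) v := by
  unfold av
  have hqc : ((nm K v : ℕ) : ℂ) ≠ 0 := by
    have := two_le_nm v
    have : nm K v ≠ 0 := by omega
    exact_mod_cast this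
  rw [mul_apply]
  have h1 : ((nm K v : ℕ) : ℂ) ^ (-(((2 * τ : ℝ) : ℂ) * Complex.I)) =
      ((nm K v : ℕ) : ℂ) ^ (-((τ : ℂ) * Complex.I)) *
        ((nm K v : ℕ) : ℂ) ^ (-((τ : ℂ) * Complex.I)) := by
    rw [← Complex.cpow_add _ _ hqc]
    congr 1
    push_cast
    ring
  rw [h1]
  ring

/-- **The means are bounded.** -/
theorem EP_bdd (ψ : HeckeChar K) (τ : ℝ) (h2 : NT (ψ.mul ψ) (2 * τ)) :
    ∃ C : ℝ, ∀ᶠ ε : ℝ in 𝓝[>] 0, |EP (nm K) ε fun v => (av ψ τ v).re| ≤ C := by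
  have hN : NormSys (nm K) := normSys
  have h1 : NT ψ τ := by
    rcases h2 with h | ⟨b, hb1, hb2⟩
    · left
      intro h0
      rw [h0, mul_zero] at h
      exact h rfl
    · right
      rw [mul_apply] at hb1 hb2
      refine ⟨b, left_ne_zero_of_mul hb1, fun h0 => hb2 ?_⟩
      rw [h0, one_mul]
  obtain ⟨C1, hC1⟩ := EP_up ψ τ h1
  obtain ⟨C2, hC2⟩ := EP_up (ψ.mul ψ) (2 * τ) h2
  obtain ⟨C, hC⟩ := size_LS ψ τ
  obtain ⟨f, hf1, hf2⟩ := exists_analytic ψ τ h1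
  -- the lower bound from `3-4-1`
  have hlow : ∀ᶠ ε : ℝ in 𝓝[>] 0, -(3 * EP (nm K) ε fun _ => 1) - C2 ≤
      4 * EP (nm K) ε fun v => (av ψ τ v).re := by
    filter_upwards [hC2, self_mem_nhdsWithin] with ε h3 h4
    have hε : (0 : ℝ) < ε := h4
    have hb : ∀ v, |(av ψ τ v).re| ≤ 1 := fun v =>
      (Complex.abs_re_le_norm _).trans (norm_av_le ψ τ v)
    have hb2 : ∀ v, |(av (ψ.mul ψ) (2 * τ) v).re| ≤ 1 := fun v =>
      (Complex.abs_re_le_norm _).trans (norm_av_le _ _ v)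
    have h5 : 0 ≤ EP (nm K) ε (fun v => (3 * 1 + 4 * (av ψ τ v).re) +
        (av (ψ.mul ψ) (2 * τ) v).re) := by
      refine EP_nonneg fun v => ?_
      rw [← av_sq, mul_one]
      exact sq_re_nonneg (av_or ψ τ v)
    rw [EP_add hN hε (B := 7) (B' := 1) (fun v => by
        have := abs_le.1 (hb v)
        rw [abs_le]
        constructor <;> linarith [this.1, this.2]) hb2,
      EP_add hN hε (B := 3) (B' := 4) (fun v => by norm_num) (fun v => by
        have := abs_le.1 (hb v)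
        rw [abs_le]
        constructor <;> linarith [this.1, this.2]), EP_const_mul, EP_const_mul] at h5
    linarith
  have hone := EP_one K
  by_cases hf0 : f (1 + τ * Complex.I) = 0
  · -- contradiction
    exfalso
    have hd := hf1.differentiableAt.hasDerivAt.isBigO_sub
    obtain ⟨B, hB⟩ := hd.bound
    have hB' := (path_edge τ).eventually hB
    obtain ⟨C3, hC3⟩ := lam_bounded
    have hBp : ∃ B' : ℝ, 0 < B' ∧ B ≤ B' := ⟨|B| + 1, by positivity, by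
      have := le_abs_self B
      linarith⟩
    obtain ⟨B', hB'0, hBB'⟩ := hBp
    have h6 : ∀ᶠ ε : ℝ in 𝓝[>] 0, (EP (nm K) ε fun v => (av ψ τ v).re) ≤
        C + (Real.log B' + (C3 - lam ε)) := by
      filter_upwards [hC, hf2, hB', self_mem_nhdsWithin, hC3] with ε h3 h4 h5 h7 h8
      have hε : (0 : ℝ) < ε := h7
      rw [hf0, sub_zero, add_sub_cancel_left, h4, Complex.norm_real, Real.norm_eq_abs,
        abs_of_pos hε] at h5
      have h9 : 0 < ‖LS ψ (1 + τ * Complex.I + ε)‖ :=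
        norm_pos_iff.2 (euler_LS ψ (re_edge τ hε)).1
      have h10 : Real.log ‖LS ψ (1 + τ * Complex.I + ε)‖ ≤ Real.log (B' * ε) := by
        refine Real.log_le_log h9 (h5.trans ?_)
        gcongr
      rw [Real.log_mul hB'0.ne' hε.ne'] at h10
      have h11 := (abs_le.1 h3).2
      have h12 := (abs_le.1 h8).2
      linarith
    have h13 : ∀ᶠ ε : ℝ in 𝓝[>] 0, (EP (nm K) ε fun _ => 1) / lam ε < 5 / 4 :=
      hone.eventually_lt_const (by norm_num)
    obtain ⟨ε, h14, h15, h16, h17, h18⟩ := (h6.and (hlow.and (h13.and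
      ((lam_tendsto.eventually_gt_atTop 0).and (lam_tendsto.eventually_gt_atTop
        (4 * (4 * (C + Real.log B' + C3) + C2))))))).exists
    rw [div_lt_iff₀ h17] at h16
    linarith
  · have h3 : Tendsto (fun ε : ℝ => Real.log ‖f (1 + τ * Complex.I + ε)‖) (𝓝[>] 0)
        (𝓝 (Real.log ‖f (1 + τ * Complex.I)‖)) :=
      ((hf1.continuousAt.tendsto.comp (path_edge τ)).norm).log (norm_ne_zero_iff.2 hf0)
    obtain ⟨B, hB⟩ := h3.abs.isBoundedUnder_le
    refine ⟨C + B, ?_⟩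
    filter_upwards [hC, hf2, Filter.eventually_map.1 hB] with ε h4 h5 h6
    rw [h5] at h6
    have h7 : (EP (nm K) ε fun v => (av ψ τ v).re) =
        ((EP (nm K) ε fun v => (av ψ τ v).re) - Real.log ‖LS ψ (1 + τ * Complex.I + ε)‖) +
          Real.log ‖LS ψ (1 + τ * Complex.I + ε)‖ := by ring
    rw [h7]
    exact (abs_add_le _ _).trans (add_le_add h4 h6)

end Pool.Agent.X298.HC
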