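import Pool.Agent.X298.HC.Contin

/-! The Dirichlet series of a nontrivial Hecke character has no pole at `1`. -/

set_option autoImplicit false
set_option linter.unusedSectionVars false
open Filter Topology NumberField NumberField.InfinitePlace NumberField.Units Module Ideal

namespace Pool.Agent.X298.HC

open Pool.Agent.H484R2 Pool.Agent.W45.Ch

variable {K : Type} [Field K] [NumberField K] (ψ : HeckeChar K) (J : Ideal (𝓞 K)) (hJ : J ≠ ⊥)
  (b : Ideal (𝓞 K))

open scoped Classical in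
/-- the indicator function of `J b` -/
noncomputable def ind (a : Idx K → ℤ) : ℂ := if (xJ K J hJ a : 𝓞 K) ∈ J * b then 1 else 0

lemma absNorm_mul_mem {y : 𝓞 K} (hy : y ∈ J) : (absNorm b : 𝓞 K) * y ∈ J * b := by
  rw [mul_comm J b]
  exact Ideal.mul_mem_mul (Ideal.absNorm_mem b) hy

lemma ind_period (a y : Idx K → ℤ) : ind J hJ b (a + (absNorm b : ℤ) • y) = ind J hJ b a := by
  classical
  unfold ind
  have h : (xJ K J hJ (a + (absNorm b : ℤ) • y) : 𝓞 K) =
      (xJ K J hJ a : 𝓞 K) + (absNorm b : 𝓞 K) * (xJ K J hJ y : 𝓞 K) := by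
    rw [xJ_add, xJ_smul]
    push_cast
    rfl
  have h1 : ((xJ K J hJ (a + (absNorm b : ℤ) • y) : 𝓞 K) ∈ J * b) ↔
      ((xJ K J hJ a : 𝓞 K) ∈ J * b) := by
    rw [h]
    exact Submodule.add_mem_iff_left _ (absNorm_mul_mem J b (xJ K J hJ y).2)
  exact if_congr h1 rfl rfl

lemma ind_period' (a y : Idx K → ℤ) (c : ℤ) :
    ind J hJ b (a + ((absNorm b : ℤ) * c) • y) = ind J hJ b a := by
  rw [mul_smul, ind_period]

lemma Wt_period' (a y : Idx K → ℤ) (c : ℤ) :
    Wt ψ J hJ (a + ((ψ.modulus : ℤ) * c) • y) = Wt ψ J hJ a := by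
  rw [mul_smul, Wt_period]

/-- index of `J b` in `J` -/
lemma card_quot (hJ : J ≠ ⊥) : Nat.card (J.toAddSubgroup ⧸
    ((J * b).toAddSubgroup.addSubgroupOf J.toAddSubgroup)) = absNorm b := by
  have h1 : (J * b).toAddSubgroup ≤ J.toAddSubgroup := Ideal.mul_le_left
  have h2 := AddSubgroup.relIndex_mul_index h1
  have h3 : ∀ I : Ideal (𝓞 K), I.toAddSubgroup.index = absNorm I := by
    intro I
    rw [Ideal.absNorm_apply, Submodule.cardQuot_apply]
    rfl
  rw [h3, h3, map_mul] at h2
  have hN : absNorm J ≠ 0 := by rwa [Ne, absNorm_eq_zero_iff]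
  have h4 : (J * b).toAddSubgroup.relIndex J.toAddSubgroup = absNorm b := by
    have : (J * b).toAddSubgroup.relIndex J.toAddSubgroup * absNorm J =
        absNorm b * absNorm J := by rw [h2, mul_comm]
    exact Nat.eq_of_mul_eq_mul_right (Nat.pos_of_ne_zero hN) this
  exact h4

lemma norm_ind_le (a : Idx K → ℤ) : ‖ind J hJ b a‖ ≤ 1 := by
  unfold ind
  split_ifs <;> simp

lemma per_Wt (c : ℕ) : Per (ψ.modulus * c) (Wt ψ J hJ) := by
  intro a y
  rw [Nat.cast_mul]
  exact Wt_period' ψ J hJ a y c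

lemma per_ind : Per (ψ.modulus * absNorm b) (ind J hJ b) := by
  intro a y
  rw [Nat.cast_mul, mul_comm]
  exact ind_period' J hJ b a y _

/-- the mean value of the weight on `J b` -/
lemma avg_ind (hb : b ≠ ⊥) (hc : IsCoprime b (span {(ψ.modulus : 𝓞 K)}))
    [NeZero (ψ.modulus * absNorm b)] :
    (absNorm b : ℂ) * avg (ψ.modulus * absNorm b) (fun a => Wt ψ J hJ a * ind J hJ b a) =
      avg (ψ.modulus * absNorm b) (Wt ψ J hJ) := by
  classical
  set m := ψ.modulus * absNorm b with hm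
  -- coprimality of the norm
  have hcop : Nat.Coprime (absNorm b) ψ.modulus := by
    rw [Nat.coprime_iff_gcd_eq_one]
    by_contra hne
    obtain ⟨p, hp, hp1⟩ := Nat.exists_prime_and_dvd hne
    have hp2 : p ∣ absNorm b := hp1.trans (Nat.gcd_dvd_left _ _)
    have hp3 : p ∣ ψ.modulus := hp1.trans (Nat.gcd_dvd_right _ _)
    -- a prime ideal above `p` dividing `b`
    obtain ⟨P, hP1, hP2, hP3⟩ : ∃ P : Ideal (𝓞 K), P.IsPrime ∧ b ≤ P ∧ (p : 𝓞 K) ∈ P := by
      by_contra hcon
      push Not at hcon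
      have hco : IsCoprime b (span {(p : 𝓞 K)}) := by
        rw [Ideal.isCoprime_iff_sup_eq]
        by_contra h1
        obtain ⟨P, hP, hle⟩ := Ideal.exists_le_maximal _ h1
        exact hcon P hP.isPrime (le_sup_left.trans hle)
          (hle (Ideal.mem_sup_right (Ideal.mem_span_singleton_self _)))
      -- then `p` is a unit modulo `b`
      obtain ⟨u, hu, v, hv, huv⟩ := Ideal.isCoprime_iff_exists.1 hco
      rw [Ideal.mem_span_singleton] at hv
      obtain ⟨w, hw⟩ := hv
      -- an element of order `p` in the quotient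
      have hfin : Finite (𝓞 K ⧸ b) := by
        have : absNorm b ≠ 0 := by rwa [Ne, absNorm_eq_zero_iff]
        rw [Ideal.absNorm_apply, Submodule.cardQuot_apply] at this
        exact Nat.finite_of_card_ne_zero this
      let _ : Fintype (𝓞 K ⧸ b) := Fintype.ofFinite _
      have : Fact p.Prime := ⟨hp⟩
      have hcard : p ∣ Fintype.card (𝓞 K ⧸ b) := by
        rw [Ideal.absNorm_apply, Submodule.cardQuot_apply, Nat.card_eq_fintype_card] at hp2
        exact hp2
      obtain ⟨x, hx⟩ := exists_prime_addOrderOf_dvd_card p hcard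
      have hx0 : (p : 𝓞 K ⧸ b) * x = 0 := by
        have := addOrderOf_nsmul_eq_zero x
        rw [hx, nsmul_eq_mul] at this
        exact this
      have hunit : (p : 𝓞 K ⧸ b) * (Ideal.Quotient.mk b w) = 1 := by
        have h2 : (p : 𝓞 K) * w = 1 - u := by
          rw [← hw, ← huv]; ring
        have h3 := congrArg (Ideal.Quotient.mk b) h2
        rw [map_mul, map_natCast, map_sub, map_one, Ideal.Quotient.eq_zero_iff_mem.2 hu,
          sub_zero] at h3
        exact h3
      have hx1 : x = 0 := by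
        calc x = ((p : 𝓞 K ⧸ b) * (Ideal.Quotient.mk b w)) * x := by rw [hunit, one_mul]
          _ = (Ideal.Quotient.mk b w) * ((p : 𝓞 K ⧸ b) * x) := by ring
          _ = 0 := by rw [hx0, mul_zero]
      rw [hx1, addOrderOf_zero] at hx
      exact hp.one_lt.ne hx
    rw [Ideal.isCoprime_iff_sup_eq] at hc
    have h4 : b ⊔ span {(ψ.modulus : 𝓞 K)} ≤ P := by
      refine sup_le hP2 ?_
      rw [Ideal.span_singleton_le_iff_mem]
      obtain ⟨k, hk⟩ := hp3
      rw [hk, Nat.cast_mul]
      exact P.mul_mem_right _ hP3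
    rw [hc] at h4
    exact hP1.ne_top (top_le_iff.1 h4)
  -- the multiplier
  obtain ⟨e, he1, he2⟩ : ∃ e : ℤ, (∃ c : ℤ, e = (ψ.modulus : ℤ) * c) ∧
      ∃ c : ℤ, e = 1 + (absNorm b : ℤ) * c := by
    have h1 : IsCoprime (absNorm b : ℤ) (ψ.modulus : ℤ) := by exact_mod_cast hcop.isCoprime
    obtain ⟨u, v, huv⟩ := h1
    exact ⟨v * ψ.modulus, ⟨v, mul_comm _ _⟩, -u, by linarith⟩
  obtain ⟨c1, hc1⟩ := he1
  obtain ⟨c2, hc2⟩ := he2
  set H := (J * b).toAddSubgroup.addSubgroupOf J.toAddSubgroup with hH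
  set Q := J.toAddSubgroup ⧸ H with hQ
  have hcQ : Nat.card Q = absNorm b := card_quot J b hJ
  have hbn : absNorm b ≠ 0 := by rwa [Ne, absNorm_eq_zero_iff]
  have hfinQ : Finite Q := Nat.finite_of_card_ne_zero (by rw [hcQ]; exact hbn)
  let _ : Fintype Q := Fintype.ofFinite _
  -- coordinates of the representatives
  set cc : Q → Idx K → ℤ := fun q =>
    (bJ K J hJ).equivFun ⟨(Quotient.out q : J.toAddSubgroup).1,
      (Quotient.out q : J.toAddSubgroup).2⟩ with hcc
  have hxc : ∀ q : Q, (xJ K J hJ (cc q) : 𝓞 K) = (Quotient.out q : J.toAddSubgroup).1 := by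
    intro q
    rw [hcc]
    unfold xJ
    rw [LinearEquiv.symm_apply_apply]
  have hone : ∀ a : Idx K → ℤ, ∑ q : Q, ind J hJ b (a + e • cc q) = 1 := by
    intro a
    have h1 : ∀ q : Q, ind J hJ b (a + e • cc q) = if q = -(QuotientAddGroup.mk
        (⟨(xJ K J hJ a : 𝓞 K), (xJ K J hJ a).2⟩ : J.toAddSubgroup) : Q) then 1 else 0 := by
      intro q
      have h2 : a + e • cc q = (a + cc q) + ((absNorm b : ℤ) * c2) • cc q := by
        rw [hc2, add_smul, one_smul, add_assoc]
      rw [h2, ind_period']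
      unfold ind
      have h3 : ((xJ K J hJ (a + cc q) : 𝓞 K) ∈ J * b) ↔ q = -(QuotientAddGroup.mk
        (⟨(xJ K J hJ a : 𝓞 K), (xJ K J hJ a).2⟩ : J.toAddSubgroup) : Q) := by
        rw [eq_neg_iff_add_eq_zero]
        conv_rhs => rw [← QuotientAddGroup.out_eq' q]
        rw [← QuotientAddGroup.mk_add, QuotientAddGroup.eq_zero_iff,
          AddSubgroup.mem_addSubgroupOf, xJ_add, hxc q, add_comm]
        rfl
      exact if_congr h3 rfl rfl
    rw [Finset.sum_congr rfl fun q _ => h1 q,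
      Finset.sum_ite_eq' Finset.univ _ (fun _ => (1 : ℂ)), if_pos (Finset.mem_univ _)]
  have hper : Per m (fun a => Wt ψ J hJ a * ind J hJ b a) := by
    intro a y
    simp only
    rw [per_Wt ψ J hJ (absNorm b) a y, per_ind ψ J hJ b a y]
  have htr : ∀ q : Q, avg m (fun a => Wt ψ J hJ a * ind J hJ b a) =
      avg m (fun a => Wt ψ J hJ a * ind J hJ b (a + e • cc q)) := by
    intro q
    rw [← avg_translate hper (e • cc q)]
    congr 1
    funext a
    congr 1
    rw [hc1]
    exact Wt_period' ψ J hJ a _ _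
  have hsum : ∑ q : Q, avg m (fun a => Wt ψ J hJ a * ind J hJ b a) = avg m (Wt ψ J hJ) := by
    rw [Finset.sum_congr rfl fun q _ => htr q]
    rw [← avg_sum (Finset.univ : Finset Q) (fun q a => Wt ψ J hJ a * ind J hJ b (a + e • cc q))]
    congr 1
    funext a
    rw [← Finset.mul_sum, hone, mul_one]
  rw [Finset.sum_const, Finset.card_univ, ← Nat.card_eq_fintype_card, hcQ, nsmul_eq_mul] at hsum
  exact hsum

end Pool.Agent.X298.HC
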