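import Pool.Agent.X298.HC.NoPole

/-! The Dirichlet series of a nontrivial Hecke character is analytic on the edge. -/

set_option autoImplicit false
set_option linter.unusedSectionVars false
open Filter Topology NumberField NumberField.InfinitePlace NumberField.Units Module Ideal

namespace Pool.Agent.X298.HC

open Pool.Agent.H484R2 Pool.Agent.W45.Ch

variable {K : Type} [Field K] [NumberField K] (ψ : HeckeChar K)

open scoped Classical in
/-- the values on the multiples of `b` -/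
noncomputable def vb (b : Ideal (𝓞 K)) (I : NZI K) : ℂ := if b ∣ I.1 then ψ.toFun I.1 else 0

lemma norm_vb_le (b : Ideal (𝓞 K)) (I : NZI K) : ‖vb ψ b I‖ ≤ 1 := by
  unfold vb
  split_ifs
  · exact norm_le_one ψ _
  · simp

lemma lamJ_vb (b J : Ideal (𝓞 K)) (hJ : J ≠ ⊥) (a : Idx K → ℤ) (s : ℂ) :
    lamJ (vb ψ b) J hJ a * gJ K J hJ a s =
      (Wt ψ J hJ a * ind J hJ b a) * gX ψ.n ψ.t J hJ a s := by
  classical
  have h := Wt_mul_gX ψ J hJ a s
  rw [mul_right_comm, h]
  by_cases ha : a = 0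
  · subst ha
    rw [gJ_zero, mul_zero, mul_zero, zero_mul]
  · rw [lamJ_ne _ J hJ ha, lamJ_ne _ J hJ ha, mul_right_comm]
    congr 1
    have h1 := qI_spec K J hJ (mkX J hJ a ha)
    have h2 : b ∣ (qI K J hJ (mkX J hJ a ha)).1 ↔ (xJ K J hJ a : 𝓞 K) ∈ J * b := by
      rw [← mul_dvd_mul_iff_right hJ, h1, Ideal.dvd_iff_le, Ideal.span_singleton_le_iff_mem,
        mul_comm J b]
      rfl
    unfold vb vI ind
    by_cases h3 : b ∣ (qI K J hJ (mkX J hJ a ha)).1
    · rw [if_pos h3, if_pos (h2.1 h3), mul_one]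
    · rw [if_neg h3, if_neg (fun h => h3 (h2.2 h)), mul_zero]

lemma summable_vI {s : ℂ} (hs : 1 < s.re) :
    Summable fun I : NZI K => vI ψ I * (absNorm I.1 : ℂ) ^ (-s) :=
  (hasSum_ideals (norm_vI_le ψ) hs).summable

/-- the sum over the multiples of `b` -/
lemma tsum_vb {b : Ideal (𝓞 K)} (hb : b ≠ ⊥) (s : ℂ) :
    ∑' I : NZI K, vb ψ b I * (absNorm I.1 : ℂ) ^ (-s) =
      ψ.toFun b * (absNorm b : ℂ) ^ (-s) * LS ψ s := by
  classical
  let e : NZI K → NZI K := fun I => ⟨b * I.1, mul_ne_zero hb I.2⟩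
  have he : Function.Injective e := by
    intro I I' h
    have h1 : b * I.1 = b * I'.1 := congrArg Subtype.val h
    exact Subtype.ext (mul_left_cancel₀ hb h1)
  have hsupp : Function.support (fun I : NZI K => vb ψ b I * (absNorm I.1 : ℂ) ^ (-s)) ⊆
      Set.range e := by
    intro I hI
    rw [Function.mem_support] at hI
    by_contra hcon
    apply hI
    have : ¬ b ∣ I.1 := by
      rintro ⟨I', hI'⟩
      refine hcon ⟨⟨I', ?_⟩, Subtype.ext hI'.symm⟩
      rintro rfl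
      exact I.2 (by rw [hI', Ideal.mul_bot])
    unfold vb
    rw [if_neg this, zero_mul]
  rw [← he.tsum_eq hsupp, LS, ← tsum_mul_left]
  refine tsum_congr fun I => ?_
  unfold vb vI
  simp only [e]
  rw [if_pos (dvd_mul_right _ _), map_mul, map_mul, Nat.cast_mul]
  have h1 : ((absNorm b : ℂ) * (absNorm I.1 : ℂ)) ^ (-s) =
      (absNorm b : ℂ) ^ (-s) * (absNorm I.1 : ℂ) ^ (-s) :=
    Complex.natCast_mul_natCast_cpow _ _ _
  rw [h1]
  ring

lemma path_one : Tendsto (fun ε : ℝ => (1 : ℂ) + ε) (𝓝[>] 0) (𝓝 1) := by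
  have h1 : Tendsto (fun ε : ℝ => (1 : ℂ) + ε) (𝓝 0) (𝓝 (1 + ((0 : ℝ) : ℂ))) := by
    exact (continuous_const.add Complex.continuous_ofReal).tendsto 0
  rw [Complex.ofReal_zero, add_zero] at h1
  exact h1.mono_left nhdsWithin_le_nhds

lemma re_one_add {ε : ℝ} (hε : 0 < ε) : 1 < ((1 : ℂ) + ε).re := by
  rw [Complex.add_re, Complex.one_re, Complex.ofReal_re]
  linarith

/-- the limit of the sum over all ideals -/
lemma tendsto_ideals {l : NZI K → ℂ} (hl : ∀ I, ‖l I‖ ≤ 1)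
    (L : ClassGroup (𝓞 K) → ℂ) (hL : ∀ C, Tendsto (fun ε : ℝ => (ε : ℂ) *
      ∑' a, lamJ l (rep K C).1 (rep K C).2 a * gJ K (rep K C).1 (rep K C).2 a (1 + ε))
      (𝓝[>] 0) (𝓝 (L C))) :
    Tendsto (fun ε : ℝ => (ε : ℂ) * ∑' I : NZI K, l I * (absNorm I.1 : ℂ) ^ (-((1 : ℂ) + ε)))
      (𝓝[>] 0) (𝓝 (∑ C : ClassGroup (𝓞 K), (absNorm (rep K C).1 : ℂ) / (torsionOrder K : ℂ) *
        L C)) := by
  have h1 : Tendsto (fun ε : ℝ => ∑ C : ClassGroup (𝓞 K),
      (absNorm (rep K C).1 : ℂ) ^ ((1 : ℂ) + ε) / (torsionOrder K : ℂ) * ((ε : ℂ) *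
      ∑' a, lamJ l (rep K C).1 (rep K C).2 a * gJ K (rep K C).1 (rep K C).2 a (1 + ε)))
      (𝓝[>] 0) (𝓝 (∑ C : ClassGroup (𝓞 K), (absNorm (rep K C).1 : ℂ) ^ (1 : ℂ) /
        (torsionOrder K : ℂ) * L C)) := by
    refine tendsto_finsetSum _ fun C _ => ?_
    refine Tendsto.mul ?_ (hL C)
    refine Tendsto.div_const ?_ _
    have hJ0 : (absNorm (rep K C).1 : ℂ) ≠ 0 := by
      have : absNorm (rep K C).1 ≠ 0 := by
        rw [Ne, absNorm_eq_zero_iff]
        exact (rep K C).2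
      exact_mod_cast this
    have hd : Continuous fun z : ℂ => (absNorm (rep K C).1 : ℂ) ^ z := by
      have : Differentiable ℂ fun z : ℂ => (absNorm (rep K C).1 : ℂ) ^ z := by
        intro z
        exact DifferentiableAt.const_cpow differentiableAt_id (Or.inl hJ0)
      exact this.continuous
    exact (hd.tendsto 1).comp path_one
  simp only [Complex.cpow_one] at h1
  refine h1.congr' ?_
  filter_upwards [self_mem_nhdsWithin] with ε hε
  rw [(hasSum_ideals hl (re_one_add hε)).tsum_eq, Finset.mul_sum]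
  refine Finset.sum_congr rfl fun C _ => ?_
  ring

/-- **No pole at `1`.** -/
theorem no_pole {b : Ideal (𝓞 K)} (hc : IsCoprime b (span {(ψ.modulus : 𝓞 K)}))
    (hψ : ψ.toFun b ≠ 1) (hb : b ≠ ⊥) :
    Tendsto (fun ε : ℝ => (ε : ℂ) * LS ψ (1 + ε)) (𝓝[>] 0) (𝓝 0) := by
  have hbn : absNorm b ≠ 0 := by rwa [Ne, absNorm_eq_zero_iff]
  have hbc : (absNorm b : ℂ) ≠ 0 := by exact_mod_cast hbn
  have hM := ψ.one_lt
  haveI : NeZero (ψ.modulus * absNorm b) := ⟨mul_ne_zero (by omega) hbn⟩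
  choose ρ hρ using fun C : ClassGroup (𝓞 K) =>
    tendsto_weighted (dataX ψ.n ψ.t (rep K C).1 (rep K C).2 ψ.sum_t)
  set A : ClassGroup (𝓞 K) → ℂ := fun C => avg (ψ.modulus * absNorm b)
    (Wt ψ (rep K C).1 (rep K C).2) with hA
  have h1 := tendsto_ideals (l := vI ψ) (norm_vI_le ψ) (fun C => A C * ρ C) (by
    intro C
    have := hρ C (ψ.modulus * absNorm b) (Wt ψ (rep K C).1 (rep K C).2) (norm_Wt_le ψ _ _)
      (per_Wt ψ _ _ _)
    refine this.congr fun ε => ?_
    congr 1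
    exact tsum_congr fun a => Wt_mul_gX ψ _ _ a _)
  have h2 := tendsto_ideals (l := vb ψ b) (norm_vb_le ψ b)
    (fun C => (absNorm b : ℂ)⁻¹ * (A C * ρ C)) (by
    intro C
    have h3 := hρ C (ψ.modulus * absNorm b)
      (fun a => Wt ψ (rep K C).1 (rep K C).2 a * ind (rep K C).1 (rep K C).2 b a)
      (by
        intro a
        rw [norm_mul]
        have := norm_Wt_le ψ (rep K C).1 (rep K C).2 a
        have := norm_ind_le (rep K C).1 (rep K C).2 b a
        calc _ ≤ (1 : ℝ) * 1 := by gcongr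
          _ = 1 := one_mul _)
      (by
        intro a y
        simp only
        rw [per_Wt ψ _ _ (absNorm b) a y, per_ind ψ _ _ b a y])
    have h4 := avg_ind ψ (rep K C).1 (rep K C).2 b hb hc
    have h5 : avg (ψ.modulus * absNorm b) (fun a => Wt ψ (rep K C).1 (rep K C).2 a *
        ind (rep K C).1 (rep K C).2 b a) = (absNorm b : ℂ)⁻¹ * A C := by
      rw [hA]
      simp only
      rw [← h4, inv_mul_cancel_left₀ hbc]
    rw [h5, mul_assoc] at h3
    refine h3.congr fun ε => ?_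
    congr 1
    exact tsum_congr fun a => (lamJ_vb ψ b _ _ a _).symm)
  set R : ℂ := ∑ C : ClassGroup (𝓞 K), (absNorm (rep K C).1 : ℂ) / (torsionOrder K : ℂ) *
    (A C * ρ C) with hR
  have h3 : ∑ C : ClassGroup (𝓞 K), (absNorm (rep K C).1 : ℂ) / (torsionOrder K : ℂ) *
      ((absNorm b : ℂ)⁻¹ * (A C * ρ C)) = (absNorm b : ℂ)⁻¹ * R := by
    rw [hR, Finset.mul_sum]
    exact Finset.sum_congr rfl fun C _ => by ring
  rw [h3] at h2
  -- the second computation
  have h4 : Tendsto (fun ε : ℝ => (ε : ℂ) *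
      ∑' I : NZI K, vb ψ b I * (absNorm I.1 : ℂ) ^ (-((1 : ℂ) + ε)))
      (𝓝[>] 0) (𝓝 (ψ.toFun b * (absNorm b : ℂ) ^ (-(1 : ℂ)) * R)) := by
    have hd : Continuous fun z : ℂ => (absNorm b : ℂ) ^ (-z) := by
      have : Differentiable ℂ fun z : ℂ => (absNorm b : ℂ) ^ (-z) := by
        intro z
        exact DifferentiableAt.const_cpow (by fun_prop) (Or.inl hbc)
      exact this.continuous
    have h5 := ((hd.tendsto 1).comp path_one).const_mul (ψ.toFun b)
    refine (h5.mul h1).congr fun ε => ?_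
    simp only [Function.comp_apply]
    rw [tsum_vb ψ hb, LS]
    ring
  have h5 := tendsto_nhds_unique h2 h4
  rw [Complex.cpow_neg, Complex.cpow_one] at h5
  have h6 : (ψ.toFun b - 1) * ((absNorm b : ℂ)⁻¹ * R) = 0 := by
    rw [sub_mul, one_mul, sub_eq_zero]
    rw [← mul_assoc]
    exact h5.symm
  have h7 : R = 0 := by
    rcases mul_eq_zero.1 h6 with h | h
    · exact absurd (sub_eq_zero.1 h) hψ
    · rcases mul_eq_zero.1 h with h' | h'
      · exact absurd h' (inv_ne_zero hbc)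
      · exact h'
  rw [h7] at h1
  exact h1

/-- `L(z, ψ)` is analytic at the points of the edge -/
theorem analytic_LS (t : ℝ) (h : t ≠ 0 ∨ ∃ b : Ideal (𝓞 K), b ≠ ⊥ ∧
    IsCoprime b (span {(ψ.modulus : 𝓞 K)}) ∧ ψ.toFun b ≠ 1) :
    ∃ f : ℂ → ℂ, AnalyticAt ℂ f (1 + t * Complex.I) ∧
      ∀ᶠ z in 𝓝 ((1 : ℂ) + t * Complex.I), 1 < z.re → f z = LS ψ z := by
  obtain ⟨g, hg1, hg2⟩ := continuation ψ t
  by_cases ht : t = 0
  swap
  · have hne : (1 : ℂ) + t * Complex.I - 1 ≠ 0 := by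
      rw [add_sub_cancel_left]
      have : (t : ℂ) ≠ 0 := by exact_mod_cast ht
      exact mul_ne_zero this Complex.I_ne_zero
    refine ⟨fun z => g z / (z - 1), hg1.div (analyticAt_id.sub analyticAt_const) hne, ?_⟩
    filter_upwards [hg2] with z hz hz1
    have hz1' : z - 1 ≠ 0 := by
      intro h0
      have : z = 1 := sub_eq_zero.1 h0
      rw [this, Complex.one_re] at hz1
      exact lt_irrefl _ hz1
    rw [hz hz1, mul_div_cancel_left₀ _ hz1']
  · obtain ⟨b, hb, hbc, hψ⟩ := h.resolve_left (fun h => h ht)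
    subst ht
    rw [Complex.ofReal_zero, zero_mul, add_zero] at hg1 hg2 ⊢
    have h1 := no_pole ψ hbc hψ hb
    have h2 : Tendsto (fun ε : ℝ => g (1 + ε)) (𝓝[>] 0) (𝓝 (g 1)) :=
      (hg1.continuousAt.tendsto).comp path_one
    have h3 : g 1 = 0 := by
      refine tendsto_nhds_unique (h2.congr' ?_) h1
      filter_upwards [path_one.eventually hg2, self_mem_nhdsWithin] with ε h4 h5
      rw [h4 (re_one_add h5), add_sub_cancel_left]
    refine ⟨dslope g 1, ?_, ?_⟩
    · obtain ⟨p, hp⟩ := hg1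
      exact ⟨_, hp.has_fpower_series_dslope_fslope⟩
    · filter_upwards [hg2] with z hz hz1
      have hz1' : z ≠ 1 := by
        rintro rfl
        rw [Complex.one_re] at hz1
        exact lt_irrefl _ hz1
      rw [dslope_of_ne _ hz1', slope_def_field, h3, sub_zero, hz hz1,
        mul_div_cancel_left₀ _ (sub_ne_zero.2 hz1')]

end Pool.Agent.X298.HC
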