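import Pool.Agent.X298.HC.Euler
import Pool.Agent.W540.BE.Size
import Pool.Agent.W540.BE.Core

/-! Products and conjugates of Hecke characters; the means of their values at the primes. -/

set_option autoImplicit false
set_option linter.unusedSectionVars false
open Filter Topology NumberField Ideal IsDedekindDomain ComplexConjugate

namespace Pool.Agent.X298.HC

open Pool.Agent.H484R2 Pool.Agent.W540.BE Pool.Agent.H341R2

variable {K : Type} [Field K] [NumberField K]

lemma coprime_mul (I : Ideal (𝓞 K)) (m n : ℕ) :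
    IsCoprime I (span {((m * n : ℕ) : 𝓞 K)}) ↔
      IsCoprime I (span {(m : 𝓞 K)}) ∧ IsCoprime I (span {(n : 𝓞 K)}) := by
  rw [Nat.cast_mul, ← Ideal.span_singleton_mul_span_singleton, IsCoprime.mul_right_iff]

/-- product of Hecke characters -/
noncomputable def HeckeChar.mul (ψ φ : HeckeChar K) : HeckeChar K where
  modulus := ψ.modulus * φ.modulus
  one_lt := by
    have := ψ.one_lt
    have := φ.one_lt
    nlinarith
  toFun := ψ.toFun * φ.toFun
  norm_eq_one := by
    intro I hI
    rw [coprime_mul] at hI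
    rw [MonoidHom.mul_apply, norm_mul, ψ.norm_eq_one I hI.1, φ.norm_eq_one I hI.2, one_mul]
  eq_zero := by
    intro I hI
    rw [coprime_mul, not_and_or] at hI
    rw [MonoidHom.mul_apply]
    rcases hI with h | h
    · rw [ψ.eq_zero I h, zero_mul]
    · rw [φ.eq_zero I h, mul_zero]
  n := fun w => ψ.n w + φ.n w
  t := fun w => ψ.t w + φ.t w
  sum_t := by rw [Finset.sum_add_distrib, ψ.sum_t, φ.sum_t, add_zero]
  principal := by
    intro x hx h
    rw [Nat.cast_mul] at h
    rw [MonoidHom.mul_apply, ψ.principal x hx ((dvd_mul_right _ _).trans h),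
      φ.principal x hx ((dvd_mul_left _ _).trans h)]
    have hx' : (x : K) ≠ 0 := RingOfIntegers.coe_ne_zero_iff.mpr hx
    unfold archimedean
    rw [← Finset.prod_mul_distrib]
    refine Finset.prod_congr rfl fun w _ => ?_
    have h1 : w.embedding (x : K) / ((w (x : K) : ℝ) : ℂ) ≠ 0 := by
      intro h0
      have := norm_ang w hx'
      rw [h0, norm_zero] at this
      exact zero_ne_one this
    rw [zpow_add₀ h1, add_mul, Complex.ofReal_add, add_mul, Complex.exp_add]
    ring

/-- conjugate of a Hecke character -/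
noncomputable def HeckeChar.conj (ψ : HeckeChar K) : HeckeChar K where
  modulus := ψ.modulus
  one_lt := ψ.one_lt
  toFun := (starRingEnd ℂ : ℂ →* ℂ).comp ψ.toFun
  norm_eq_one := by
    intro I hI
    have h : ‖(starRingEnd ℂ) (ψ.toFun I)‖ = 1 := by
      rw [Complex.norm_conj]
      exact ψ.norm_eq_one I hI
    exact h
  eq_zero := by
    intro I hI
    have h : (starRingEnd ℂ) (ψ.toFun I) = 0 := by
      rw [ψ.eq_zero I hI, map_zero]
    exact h
  n := fun w => -ψ.n w
  t := fun w => -ψ.t w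
  sum_t := by rw [Finset.sum_neg_distrib, ψ.sum_t, neg_zero]
  principal := by
    intro x hx h
    have hx' : (x : K) ≠ 0 := RingOfIntegers.coe_ne_zero_iff.mpr hx
    change (starRingEnd ℂ) (ψ.toFun (span {x})) = _
    rw [ψ.principal x hx h]
    unfold archimedean
    rw [map_prod]
    refine Finset.prod_congr rfl fun w _ => ?_
    have h1 := norm_ang w hx'
    rw [map_mul, map_zpow₀, ← Complex.exp_conj, map_mul, Complex.conj_ofReal, Complex.conj_I]
    have h2 : (starRingEnd ℂ) (w.embedding (x : K) / ((w (x : K) : ℝ) : ℂ)) =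
        (w.embedding (x : K) / ((w (x : K) : ℝ) : ℂ))⁻¹ := by
      rw [Complex.inv_def, Complex.normSq_eq_norm_sq, h1]
      simp
    rw [h2, inv_zpow', neg_mul, Complex.ofReal_neg, neg_mul, mul_neg]

lemma mul_apply (ψ φ : HeckeChar K) (I : Ideal (𝓞 K)) :
    (ψ.mul φ).toFun I = ψ.toFun I * φ.toFun I := rfl

lemma conj_apply (ψ : HeckeChar K) (I : Ideal (𝓞 K)) :
    ψ.conj.toFun I = (starRingEnd ℂ) (ψ.toFun I) := rfl

lemma coprime_of_ne (ψ : HeckeChar K) {I : Ideal (𝓞 K)} (h : ψ.toFun I ≠ 0) :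
    IsCoprime I (span {(ψ.modulus : 𝓞 K)}) := by
  by_contra hc
  exact h (ψ.eq_zero I hc)

/-- the value at a prime, twisted by a power of the norm -/
noncomputable def av (ψ : HeckeChar K) (τ : ℝ) (v : HeightOneSpectrum (𝓞 K)) : ℂ :=
  ψ.toFun v.asIdeal * ((nm K v : ℕ) : ℂ) ^ (-(τ * Complex.I))

lemma norm_av_le (ψ : HeckeChar K) (τ : ℝ) (v : HeightOneSpectrum (𝓞 K)) : ‖av ψ τ v‖ ≤ 1 := by
  unfold av
  have hpos : 0 < nm K v := by have := two_le_nm v; omega
  rw [norm_mul, norm_cpow_I hpos, mul_one]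
  exact norm_le_one ψ _

/-- the mean of the values at the primes and the Dirichlet series -/
theorem size_LS (ψ : HeckeChar K) (τ : ℝ) : ∃ C : ℝ, ∀ᶠ ε : ℝ in 𝓝[>] 0,
    |(EP (nm K) ε fun v => (av ψ τ v).re) - Real.log ‖LS ψ (1 + τ * Complex.I + ε)‖| ≤ C := by
  classical
  have hN : NormSys (nm K) := normSys
  have h := sizeP hN (Good := fun _ => True) (by simp) (fun _ => (0 : Polynomial ℂ))
    (1 + τ * Complex.I) (fun p hp => absurd trivial hp) (av ψ τ) (norm_av_le ψ τ)
    (fun p hp => absurd trivial hp)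
    (fun ε v => -Complex.log (1 - ψ.toFun v.asIdeal *
      ((nm K v : ℕ) : ℂ) ^ (-(1 + τ * Complex.I + ε : ℂ)))) (C := 1)
    (by
      intro ε hε v _
      have hq := two_le_nm v
      set q := nm K v with hqd
      have hq0 : (0 : ℝ) < q := by
        have : 0 < q := by omega
        exact_mod_cast this
      have hq1 : (1 : ℝ) ≤ q := by
        have : 1 ≤ q := by omega
        exact_mod_cast this
      have hq2 : (2 : ℝ) ≤ q := by exact_mod_cast hq
      have hqc : (q : ℂ) ≠ 0 := by
        have : q ≠ 0 := by omega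
        exact_mod_cast this
      set z : ℂ := ψ.toFun v.asIdeal * (q : ℂ) ^ (-(1 + τ * Complex.I + ε : ℂ)) with hz
      have hzn : ‖z‖ ≤ (q : ℝ) ^ (-(1 + ε)) := by
        rw [hz, norm_mul, Complex.norm_natCast_cpow_of_pos (by omega)]
        have h1 : (-(1 + τ * Complex.I + ε : ℂ)).re = -(1 + ε) := by simp
        rw [h1]
        calc ‖ψ.toFun v.asIdeal‖ * (q : ℝ) ^ (-(1 + ε)) ≤ 1 * (q : ℝ) ^ (-(1 + ε)) := by
              gcongr
              exact norm_le_one ψ _
          _ = _ := one_mul _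
      have hsmall : (q : ℝ) ^ (-(1 + ε)) ≤ (q : ℝ) ^ (-1 : ℝ) :=
        Real.rpow_le_rpow_of_exponent_le hq1 (by linarith)
      have hhalf : (q : ℝ) ^ (-1 : ℝ) ≤ 1 / 2 := by
        rw [Real.rpow_neg_one, one_div]
        exact inv_anti₀ (by norm_num) hq2
      have h2 : av ψ τ v * (((q : ℝ) ^ (-(1 + ε)) : ℝ) : ℂ) = z := by
        unfold av
        rw [hz, Complex.ofReal_cpow hq0.le, mul_assoc]
        congr 1
        rw [← hqd]
        push_cast
        rw [← Complex.cpow_add _ _ hqc]
        congr 1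
        ring
      rw [h2]
      refine (norm_neg_log_sub_le (hzn.trans (hsmall.trans hhalf))).trans ?_
      rw [one_mul]
      calc ‖z‖ ^ 2 ≤ ((q : ℝ) ^ (-1 : ℝ)) ^ 2 := by
            refine pow_le_pow_left₀ (norm_nonneg _) (hzn.trans hsmall) 2
        _ = (q : ℝ) ^ (-2 : ℝ) := by
            rw [← Real.rpow_natCast, ← Real.rpow_mul hq0.le]
            norm_num)
    (L := fun ε => LS ψ (1 + τ * Complex.I + ε))
    (by
      intro ε hε
      have hre : 1 < (1 + τ * Complex.I + ε : ℂ).re := by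
        simp [hε]
      obtain ⟨-, h2⟩ := euler_LS ψ hre
      rw [← h2.tprod_eq]
      refine tprod_congr fun v => ?_
      rw [if_pos trivial]
      have hq := two_le_nm v
      have hne : 1 - ψ.toFun v.asIdeal *
          ((nm K v : ℕ) : ℂ) ^ (-(1 + τ * Complex.I + ε : ℂ)) ≠ 0 := by
        intro h0
        have h3 : ψ.toFun v.asIdeal *
          ((nm K v : ℕ) : ℂ) ^ (-(1 + τ * Complex.I + ε : ℂ)) = 1 := (sub_eq_zero.1 h0).symm
        have h4 : ‖ψ.toFun v.asIdeal *
          ((nm K v : ℕ) : ℂ) ^ (-(1 + τ * Complex.I + ε : ℂ))‖ < 1 := by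
          rw [norm_mul, Complex.norm_natCast_cpow_of_pos (by omega)]
          have h5 : (-(1 + τ * Complex.I + ε : ℂ)).re = -(1 + ε) := by simp
          rw [h5]
          have hq1 : (1 : ℝ) < nm K v := by
            have : 1 < nm K v := by omega
            exact_mod_cast this
          have h6 : (nm K v : ℝ) ^ (-(1 + ε)) < 1 :=
            Real.rpow_lt_one_of_one_lt_of_neg hq1 (by linarith)
          have h7 := norm_le_one ψ v.asIdeal
          have h8 : 0 ≤ (nm K v : ℝ) ^ (-(1 + ε)) := by positivity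
          nlinarith [norm_nonneg (ψ.toFun v.asIdeal)]
        rw [h3, norm_one] at h4
        exact lt_irrefl _ h4
      rw [Complex.exp_neg, Complex.exp_log hne]
      rfl)
  obtain ⟨C, hC⟩ := h
  exact ⟨C, hC.mono fun ε h => h.2⟩

end Pool.Agent.X298.HC
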