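import Pool.Agent.X298.HC.SDefs
import Pool.Agent.X298.HC.LDefs
import Pool.Agent.X298.HC.PoleDefs

/-!
# The pole at `s = m + 1` of the products `X × Y`, when the unknown part has few nonzero traces: the
statements

`X` is a projective variety of dimension `d` over a number field `K`, with Betti numbers `N a`.  For every
degree `a ≤ 2 d` there are given a virtual representation `κX a` of the Weil group of `K` whose dual is a
part of `H^a(X)`, a set `A a` of primes, and a bound `r a` for the second moment of the rest of `H^a(X)` on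
`A a`.
-/

set_option autoImplicit false

namespace Pool.Agent.X298.HC

open NumberField IsDedekindDomain Filter Topology Polynomial
open Pool.Agent.W353.EH (size HasOrder)

/-- The dual of `κ` is a part of `H^a(X)`, and `r = s² δ`, where `s` is the dimension of the rest and the
upper density of `A` is at most `δ`; or `κ = 0`, `A` is the set of the primes of `K` with a prime of `F` of
the same norm above them, for a Galois extension `F` of `K`, and `r` is the order of the pole of
`L(H^a(X_F) ⊗ H^a(X_F), s)` at `s = a + 1`, divided by `[F : K]` (a meromorphic continuation to a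
neighbourhood of this point is assumed).  For `F = K` the set `A` contains all primes. -/
def RestOn {K : Type} [Field K] [NumberField K] {n : ℕ} (X : Set (MvPolynomial (Fin n) (𝓞 K)))
    (d a N : ℕ) (κ : Virt K) (A : Set (HeightOneSpectrum (𝓞 K))) (r : ℝ) : Prop :=
  (∃ (s : ℕ) (δ : ℝ), IsPart X d a N s κ ∧ DensityLE A δ ∧ r = s ^ 2 * δ) ∨
  (κ = 0 ∧ ∃ (F : Type) (_ : Field F) (_ : NumberField F) (_ : Algebra K F) (_ : IsGalois K F)
    (B : HeightOneSpectrum (𝓞 F) → ℂ[X]) (R : ℕ), A = splitPrimes K F ∧
    IsSquareOver X d a N B ∧ HasOrder (2 * a) 0 B (-(R : ℤ)) ∧ r = R / Module.finrank K F)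

section
variable {K : Type} [Field K] [NumberField K] {n : ℕ}
  {X : Set (MvPolynomial (Fin n) (𝓞 K))} {d : ℕ} {N : ℕ → ℕ}

/-- For all `a ≤ 2 d` the trace of the rest `ρ (2m - a) - κ (2m - a)` is zero at almost all primes outside
`A a`. -/
def PoleData.SupportedOn (D : PoleData X d N) (A : ℕ → Set (HeightOneSpectrum (𝓞 K))) : Prop :=
  ∀ a ≤ 2 * d, ∀ᶠ v : HeightOneSpectrum (𝓞 K) in cofinite, v ∉ A a → (D.rest a).trace v = 0

/-- The functions `L(H^{2m}(X × Y), s)` and `L(H^a(X) ⊗ κ (2m - a), s)` have meromorphic continuations to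
neighbourhoods of `m + 1` and `a/2 + 1`, and `j` is the order of the pole of the first one minus the sum
of the orders of the poles of the others. -/
def PoleData.HasJump (D : PoleData X d N) (j : ℤ) : Prop :=
  ∃ (k : ℤ) (k' : ℕ → ℤ), HasOrder (2 * D.m) 0 D.B k ∧
    (∀ p ∈ degrees d D.e (2 * D.m), (D.κ p.2).HasOrder p.1 (D.B' p.1) (k' p.1)) ∧
    j = -k - ∑ p ∈ degrees d D.e (2 * D.m), -k' p.1

end

section
variable {K : Type} [Field K] [NumberField K] {n : ℕ}
  (X : Set (MvPolynomial (Fin n) (𝓞 K))) (d : ℕ) (N : ℕ → ℕ) (κX : ℕ → Virt K)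
  (A : ℕ → Set (HeightOneSpectrum (𝓞 K))) (r : ℕ → ℝ)

/-- For finitely many products with rests with traces vanishing outside the `A a`, and real `c_k`, with
`h_k` the sum over `a ≤ 2 d` of the intertwining numbers of `κX a` and the rest of degree `a`, and
`Q a = ∑ c_k c_l ⟨rest_k a, rest_l a⟩`: for every `η > 0` and all small `ε > 0`
`|∑ c_k (defect_k(ε) - h_k)| ≤ ∑_a √(r a Q a) + η`, and if there are continuations,
`|∑ c_k (j_k - h_k)| ≤ ∑_a √(r a Q a)` for the differences `j_k` of the orders of the poles. -/
def PoleSparseGram : Prop :=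
  ∀ (l : ℕ) (D : Fin l → PoleData X d N) (c : Fin l → ℝ), (∀ k, (D k).SupportedOn A) →
    (∀ η : ℝ, 0 < η → ∀ᶠ ε : ℝ in 𝓝[>] 0,
      |∑ k, c k * ((D k).defect ε - tupleInter d κX (D k).rest)| ≤
        ∑ a ∈ Finset.range (2 * d + 1), Real.sqrt (r a *
          ∑ k, ∑ k', c k * c k' * (((D k).rest a).inter ((D k').rest a) : ℝ)) + η) ∧
    ∀ j : Fin l → ℤ, (∀ k, (D k).HasJump (j k)) →
      |∑ k, c k * ((j k - tupleInter d κX (D k).rest : ℤ) : ℝ)| ≤
        ∑ a ∈ Finset.range (2 * d + 1), Real.sqrt (r a *
          ∑ k, ∑ k', c k * c k' * (((D k).rest a).inter ((D k').rest a) : ℝ))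

/-- If the traces of the rests vanish outside the `A a`, and `∑_a √(r a q a) < 1` for the intertwining
numbers `q a` of the rest of degree `a` with itself, then the order of the pole of `L(H^{2m}(X × Y), s)`
at `s = m + 1` is the sum of the orders of the poles of the `L(H^a(X) ⊗ κ (2m - a), s)` at `a/2 + 1` and
of the intertwining numbers of `κX a` and the rest of degree `a`, if there are continuations; without
continuations the defect differs from the sum of these numbers by at most a number less than one, for
all small `ε > 0`. -/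
def PoleSparseExact : Prop :=
  ∀ D : PoleData X d N, D.SupportedOn A →
    ∑ a ∈ Finset.range (2 * d + 1), Real.sqrt (r a *
      ((D.rest a).inter (D.rest a) : ℝ)) < 1 →
    (∃ c : ℝ, c < 1 ∧ ∀ᶠ ε : ℝ in 𝓝[>] 0, |D.defect ε - tupleInter d κX D.rest| ≤ c) ∧
    ∀ j : ℤ, D.HasJump j → j = tupleInter d κX D.rest

end

section
variable {K : Type} [Field K] [NumberField K] {n : ℕ}
  {X : Set (MvPolynomial (Fin n) (𝓞 K))} {d : ℕ} {N : ℕ → ℕ}

/-- For all `a ≤ 2 d` the rest of degree `a` is a combination of representations induced from Hecke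
characters of extensions of `F`, that is, it is induced from `F`. -/
def PoleData.InducedFrom (D : PoleData X d N) (F : Type) [Field F] [NumberField F]
    [Algebra K F] : Prop :=
  ∀ a ≤ 2 * d, ∀ π ∈ (D.rest a).support, Nonempty (F →ₐ[K] π.F)

end

end Pool.Agent.X298.HC
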