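import Pool.Agent.X298.HC.PSDefs
import Pool.Agent.X298.HC.LMain
import Pool.Agent.X298.HC.MMain2

/-! Products when the unknown part has few nonzero traces: the theorems. -/

set_option autoImplicit false
set_option linter.unusedSectionVars false
open Filter Topology NumberField Ideal IsDedekindDomain ComplexConjugate Polynomial

namespace Pool.Agent.X298.HC

open Pool.Agent.W540.BE Pool.Agent.H341R2
open Pool.Agent.W353.TP (HX push res)
open Pool.Agent.W353.NF (vx nm_vx vx_asIdeal)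
open Pool.Agent.W353.EF (IsFrobenius)
open Pool.Agent.W353.EH (edgePoint size HasOrder IsEulerSystem)
open Pool.Agent.W353.PV (Eig alp pick_spec)

section
variable {K : Type} [Field K] [NumberField K] {n : ℕ}
variable {X : Set (MvPolynomial (Fin n) (𝓞 K))} {d : ℕ} {N : ℕ → ℕ} {κX : ℕ → Virt K}
  {A : ℕ → Set (HeightOneSpectrum (𝓞 K))} {r : ℕ → ℝ}

/-- the mean of the rest of degree `a` -/
noncomputable def gA (X : Set (MvPolynomial (Fin n) (𝓞 K))) (d : ℕ) (N : ℕ → ℕ) (a : ℕ)
    (ρ : Virt K) (ε : ℝ) : ℝ := gV (fun x : HX K => tX X d a (N a) (vx x)) ρ ε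

lemma gV_zero (t : HX K → ℂ) (ε : ℝ) : gV t 0 ε = 0 := by
  unfold gV
  simp only [zero_trace, mul_zero, Complex.zero_re]
  rw [EP]
  simp

/-- the defect as a sum of means -/
lemma defect_mean (D : PoleData X d N) : Tendsto (fun ε : ℝ =>
    (∑ a ∈ Finset.range (2 * d + 1), gA X d N a (D.rest a) ε) - D.defect ε) (𝓝[>] 0) (𝓝 0) := by
  classical
  have h1 := (product_sizeM D.pot D.prod).2
  have h2 : Tendsto (fun ε : ℝ => ∑ p ∈ degrees d D.e (2 * D.m), (yV X d N p.1 (D.κ p.2) ε -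
      (D.κ p.2).size p.1 (D.B' p.1) ε)) (𝓝[>] 0)
      (𝓝 (∑ p ∈ degrees d D.e (2 * D.m), 0)) :=
    tendsto_finsetSum _ fun p hp => size_known (mem_degrees.1 hp).2.1 (D.twist p hp)
  rw [Finset.sum_const_zero] at h2
  have h4 := h1.sub h2
  rw [sub_zero] at h4
  refine h4.congr' ?_
  filter_upwards [self_mem_nhdsWithin] with ε hε
  have hε' : (0 : ℝ) < ε := hε
  have e2 : ∀ p : ℕ × ℕ, yV X d N p.1 (D.ρ p.2 - D.κ p.2) ε =
      yV X d N p.1 (D.ρ p.2) ε - yV X d N p.1 (D.κ p.2) ε := by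
    intro p
    have e3 : ∀ σ : Virt K, yV X d N p.1 σ ε = xV (fun a π => yM X d N a π ε) p.1 σ :=
      fun σ => yV_eq p.1 σ hε'
    rw [e3, e3, e3, xV_sub]
  have e5 : ∑ a ∈ Finset.range (2 * d + 1), gA X d N a (D.rest a) ε =
      ∑ p ∈ degrees d D.e (2 * D.m), yV X d N p.1 (D.ρ p.2 - D.κ p.2) ε := by
    rw [sum_degrees, Finset.sum_range]
    refine Finset.sum_congr rfl fun a _ => ?_
    unfold PoleData.rest restTuple
    split_ifs with h
    · rw [shift_zero]
      rfl
    · exact gV_zero _ _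
  rw [e5]
  have e4 : ∀ p : ℕ × ℕ, (EP (nx K) ε fun x =>
      (tX X d p.1 (N p.1) (vx x) * ((D.ρ p.2).shift 0).trace (vx x)).re) / lam ε =
      yV X d N p.1 (D.ρ p.2) ε := fun p => by
    rw [shift_zero]
    rfl
  simp only [e2, e4, Finset.sum_sub_distrib]
  unfold PoleData.defect
  ring

/-- the limit of the defect -/
lemma jump_lim (D : PoleData X d N) {j : ℤ} (h : D.HasJump j) :
    Tendsto D.defect (𝓝[>] 0) (𝓝 (j : ℝ)) := by
  obtain ⟨k, k', h1, h2, h3⟩ := h
  have h4 := size_lim (product_sizeM D.pot D.prod).1 h1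
  have h5 : ∀ p ∈ degrees d D.e (2 * D.m), Tendsto (fun ε : ℝ =>
      (D.κ p.2).size p.1 (D.B' p.1) ε) (𝓝[>] 0) (𝓝 (-(k' p.1 : ℝ))) := fun p hp =>
    virt_lim (mem_degrees.1 hp).2.1 (D.twist p hp) (h2 p hp)
  have h6 := h4.sub (tendsto_finsetSum _ h5)
  have e1 : (-(k : ℝ) - ∑ p ∈ degrees d D.e (2 * D.m), -(k' p.1 : ℝ)) = (j : ℝ) := by
    rw [h3]
    push_cast
    ring
  rw [e1] at h6
  exact h6

/-- the second moment over an extension from the order of the pole, in degree `a` -/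
lemma square_momentA {F : Type} [Field F] [NumberField F] [Algebra K F] {a N : ℕ}
    (ha : a ≤ 2 * d) {R : ℕ} {B : HeightOneSpectrum (𝓞 F) → ℂ[X]}
    (hB : IsSquareOver X d a N B) (hR : HasOrder (2 * a) 0 B (-(R : ℤ))) :
    ∀ δ : ℝ, 0 < δ → ∀ᶠ ε : ℝ in 𝓝[>] 0,
      (EP (nx K) ε fun x => cN K F x *
        ‖tR (fun x : HX K => tX X d a N (vx x)) (0 : Virt K) x‖ ^ 2) / lam ε ≤ R + δ := by
  intro δ hδ
  have h1 := square_sizeE (K := K) ha hB
  have hb : ∀ v, |‖tXF X d a N F v‖ ^ 2| ≤ (N : ℝ) ^ 2 := fun v => by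
    rw [abs_of_nonneg (sq_nonneg _)]
    exact pow_le_pow_left₀ (norm_nonneg _) (norm_tXF_le F v) 2
  have h2 := (h1.2.add (size_lim h1.1 hR)).sub (EP_vx (K := F) hb)
  have e1 : (0 : ℝ) + -((-(R : ℤ) : ℤ) : ℝ) - 0 = R := by
    push_cast
    ring
  rw [e1] at h2
  filter_upwards [h2.eventually_lt_const (show (R : ℝ) < R + δ by linarith),
    self_mem_nhdsWithin] with ε h3 hε
  have hε' : (0 : ℝ) < ε := hε
  have h4 := EP_res (K := K) (F := F) (g := fun x => ‖tX X d a N (vx x)‖ ^ 2)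
    (B := (N : ℝ) ^ 2) (fun x => by
      rw [abs_of_nonneg (sq_nonneg _)]
      exact pow_le_pow_left₀ (norm_nonneg _) (norm_tX_le X d a N _) 2) hε'
  have h5 : (EP (nx F) ε fun x => ‖tXF X d a N F (vx x)‖ ^ 2) =
      EP (nx F) ε fun y => ‖tX X d a N (vx (rs' K F y))‖ ^ 2 := by
    congr 1
    funext y
    have := tXF_vx (X := X) (d := d) (a := a) (N := N) (K := K) (F := F) y.1 y.2
    unfold rs'
    rw [← this]
  simp only [tR_zero]
  rw [← h4, ← h5]
  linarith

/-- the bound for the second moment on `A` -/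
lemma restOn_bound {a N : ℕ} (ha : a ≤ 2 * d) {κ : Virt K} {A : Set (HeightOneSpectrum (𝓞 K))}
    {r : ℝ} (h : RestOn X d a N κ A r) : ∀ η : ℝ, 0 < η → ∀ᶠ ε : ℝ in 𝓝[>] 0,
      (EP (nx K) ε fun x => ‖tA (fun x : HX K => tX X d a N (vx x)) κ A x‖ ^ 2) / lam ε ≤
        r + η := by
  have ht : ∀ x : HX K, ‖(fun x : HX K => tX X d a N (vx x)) x‖ ≤ (N : ℝ) :=
    fun x => norm_tX_le X d a N _
  rcases h with ⟨s, δ, h1, h2, h3⟩ | ⟨h0, F, _, _, _, _, B, R, h1, h2, h3, h4⟩
  · rw [h3]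
    exact second_dens ht (norm_restX_le ha h1) h2
  · rw [h0, h1, h4]
    exact second_split ht (square_momentA ha h2 h3)

/-- **The inequality.** -/
theorem pole_sparse_gram (hr : ∀ a ≤ 2 * d, RestOn X d a (N a) (κX a) (A a) (r a)) :
    PoleSparseGram X d N κX A r := by
  classical
  intro l D c hD
  set Q : ℕ → ℝ := fun a => ∑ k, ∑ k', c k * c k' *
    (((D k).rest a).inter ((D k').rest a) : ℝ) with hQ
  have hone : ∀ a ≤ 2 * d, ∀ η : ℝ, 0 < η → ∀ᶠ ε : ℝ in 𝓝[>] 0,
      |∑ k, c k * (gA X d N a ((D k).rest a) ε - (κX a).inter ((D k).rest a))| ≤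
        Real.sqrt (r a * Q a) + η := by
    intro a ha η hη
    have h := (sparse_gram (P := Fin l) (t := fun x : HX K => tX X d a (N a) (vx x))
      (κ := κX a) (A := A a) (R := r a) (rep := fun k => (D k).rest a)
      (sz := fun k => gA X d N a ((D k).rest a)) (fun x => norm_tX_le X d a (N a) _)
      (restOn_bound ha (hr a ha))
      (fun k => by
        unfold gA
        simp) (fun k => vx_injective.tendsto_cofinite.eventually (hD k a ha)) (fun k => k) c).1
      (η ^ 2) (by positivity)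
    filter_upwards [h] with ε hε
    have h1 := Real.sqrt_le_sqrt hε
    rw [Real.sqrt_sq_eq_abs] at h1
    refine h1.trans ?_
    have h2 : Real.sqrt (r a * Q a + η ^ 2) ≤ Real.sqrt (r a * Q a) + Real.sqrt (η ^ 2) := by
      rcases le_total 0 (r a * Q a) with h3 | h3
      · rw [Real.sqrt_le_iff]
        refine ⟨by positivity, ?_⟩
        nlinarith [Real.sq_sqrt h3, Real.sq_sqrt (sq_nonneg η),
          mul_nonneg (Real.sqrt_nonneg (r a * Q a)) (Real.sqrt_nonneg (η ^ 2))]
      · have h4 : Real.sqrt (r a * Q a) = 0 := Real.sqrt_eq_zero_of_nonpos h3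
        rw [h4, zero_add]
        exact Real.sqrt_le_sqrt (by linarith)
    refine h2.trans (le_of_eq ?_)
    rw [Real.sqrt_sq hη.le]
  have hmain : ∀ η : ℝ, 0 < η → ∀ᶠ ε : ℝ in 𝓝[>] 0,
      |∑ k, c k * ((D k).defect ε - tupleInter d κX (D k).rest)| ≤
        ∑ a ∈ Finset.range (2 * d + 1), Real.sqrt (r a * Q a) + η := by
    intro η hη
    have h1 : ∀ᶠ ε : ℝ in 𝓝[>] 0, ∀ a ∈ Finset.range (2 * d + 1),
        |∑ k, c k * (gA X d N a ((D k).rest a) ε - (κX a).inter ((D k).rest a))| ≤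
          Real.sqrt (r a * Q a) + η / (2 * (2 * d + 1)) :=
      (Filter.eventually_all_finset _).2 fun a ha =>
        hone a (by have := Finset.mem_range.1 ha; omega) _ (by positivity)
    have h2 : Tendsto (fun ε : ℝ => ∑ k, c k * ((∑ a ∈ Finset.range (2 * d + 1),
        gA X d N a ((D k).rest a) ε) - (D k).defect ε)) (𝓝[>] 0) (𝓝 (∑ k, c k * 0)) :=
      tendsto_finsetSum _ fun k _ => (defect_mean (D k)).const_mul _
    simp only [mul_zero, Finset.sum_const_zero] at h2
    filter_upwards [h1, h2.abs.eventually_lt_const (show |(0 : ℝ)| < η / 2 by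
      rw [abs_zero]
      positivity)] with ε h3 h4
    have e1 : ∑ k, c k * ((D k).defect ε - tupleInter d κX (D k).rest) =
        (∑ a ∈ Finset.range (2 * d + 1), ∑ k, c k * (gA X d N a ((D k).rest a) ε -
          (κX a).inter ((D k).rest a))) -
        ∑ k, c k * ((∑ a ∈ Finset.range (2 * d + 1), gA X d N a ((D k).rest a) ε) -
          (D k).defect ε) := by
      rw [Finset.sum_comm, ← Finset.sum_sub_distrib]
      refine Finset.sum_congr rfl fun k _ => ?_
      rw [← Finset.mul_sum, ← mul_sub, Finset.sum_sub_distrib]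
      congr 1
      unfold tupleInter
      push_cast
      rw [Finset.sum_range (fun a => ((κX a).inter ((D k).rest a) : ℝ))]
      ring
    rw [e1]
    refine (abs_sub _ _).trans ?_
    have h5 : |∑ a ∈ Finset.range (2 * d + 1), ∑ k, c k * (gA X d N a ((D k).rest a) ε -
        (κX a).inter ((D k).rest a))| ≤ ∑ a ∈ Finset.range (2 * d + 1),
        (Real.sqrt (r a * Q a) + η / (2 * (2 * d + 1))) :=
      (Finset.abs_sum_le_sum_abs _ _).trans (Finset.sum_le_sum h3)
    rw [Finset.sum_add_distrib, Finset.sum_const, Finset.card_range, nsmul_eq_mul] at h5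
    have h6 : ((2 * d + 1 : ℕ) : ℝ) * (η / (2 * (2 * d + 1))) = η / 2 := by
      push_cast
      field_simp
    rw [h6] at h5
    linarith
  refine ⟨hmain, fun j hj => ?_⟩
  have h1 : Tendsto (fun ε : ℝ => |∑ k, c k * ((D k).defect ε -
      tupleInter d κX (D k).rest)|) (𝓝[>] 0)
      (𝓝 |∑ k, c k * ((j k : ℝ) - tupleInter d κX (D k).rest)|) :=
    (tendsto_finsetSum _ fun k _ => ((jump_lim (D k) (hj k)).sub
      tendsto_const_nhds).const_mul _).abs
  push_cast
  refine le_of_forall_pos_le_add fun η hη => le_of_tendsto h1 (hmain η hη)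

/-- **The exact formula.** -/
theorem pole_sparse_exact (hr : ∀ a ≤ 2 * d, RestOn X d a (N a) (κX a) (A a) (r a)) :
    PoleSparseExact X d N κX A r := by
  intro D hD h1
  obtain ⟨h2, h3⟩ := pole_sparse_gram hr 1 (fun _ => D) (fun _ => 1) (fun _ => hD)
  simp only [Fin.sum_univ_one, one_mul, mul_one] at h2 h3
  set c := ∑ a ∈ Finset.range (2 * d + 1), Real.sqrt (r a *
      ((D.rest a).inter (D.rest a) : ℝ)) with hc
  refine ⟨⟨c + (1 - c) / 2, by linarith, h2 _ (by linarith)⟩, fun j hj => ?_⟩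
  have h4 := h3 (fun _ => j) (fun _ => hj)
  refine int_eq_of_abs ?_
  push_cast at h4
  exact h4.trans_lt h1

end

section
variable {K F : Type} [Field K] [NumberField K] [Field F] [NumberField F] [Algebra K F] {n : ℕ}
variable {X : Set (MvPolynomial (Fin n) (𝓞 K))} {d : ℕ} {N : ℕ → ℕ}

/-- rests induced from `F` -/
lemma pole_supported (D : PoleData X d N) (h : D.InducedFrom F) :
    D.SupportedOn (fun _ => splitPrimes K F) := by
  intro a ha
  refine Filter.Eventually.of_forall fun v hv => ?_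
  rw [trace_eq_sum]
  refine Finset.sum_eq_zero fun π hπ => ?_
  rw [trace_supp_all (h a ha π hπ) hv, mul_zero]

end

end Pool.Agent.X298.HC
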