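import Pool.Agent.X298.HC.Data

/-! The periodic weight attached to a Hecke character. -/

set_option autoImplicit false
open Filter Topology NumberField NumberField.InfinitePlace Module Ideal

namespace Pool.Agent.X298.HC

open Pool.Agent.H484R2

variable {K : Type} [Field K] [NumberField K] (ψ : HeckeChar K)

/-- coprimality only depends on the class modulo `M J` -/
lemma coprime_iff {M : 𝓞 K} {J I I' : Ideal (𝓞 K)} (hJ : J ≠ ⊥) {x x' y : 𝓞 K}
    (hx : I * J = span {x}) (hx' : I' * J = span {x'}) (hy : y ∈ J) (h : x' = x + M * y) :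
    IsCoprime I (span {M}) → IsCoprime I' (span {M}) := by
  intro hI
  rw [Ideal.isCoprime_iff_sup_eq] at hI ⊢
  have h1 : (I ⊔ span {M}) * J ≤ (I' ⊔ span {M}) * J := by
    rw [Ideal.sup_mul, Ideal.sup_mul, hx]
    refine sup_le ?_ le_sup_right
    rw [Ideal.span_singleton_le_iff_mem]
    have e : x = x' - M * y := by rw [h]; ring
    rw [e]
    refine Ideal.sub_mem _ ?_ ?_
    · refine Ideal.mem_sup_left ?_
      rw [hx']
      exact Ideal.mem_span_singleton_self x'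
    · refine Ideal.mem_sup_right ?_
      exact Ideal.mul_mem_mul (Ideal.mem_span_singleton_self M) hy
  rw [hI, Ideal.one_eq_top.symm, one_mul] at h1
  have h2 : (1 : Ideal (𝓞 K)) * J ≤ (I' ⊔ span {M}) * J := by rwa [one_mul]
  have h3 : (I' ⊔ span {M}) * J ∣ 1 * J := Ideal.dvd_iff_le.mpr h2
  have h4 : (I' ⊔ span {M}) ∣ 1 := (mul_dvd_mul_iff_right hJ).1 h3
  rw [← Ideal.isUnit_iff, isUnit_iff_dvd_one]
  exact h4

/-- the key relation -/
lemma val_rel {J I I' : Ideal (𝓞 K)} (hJ : J ≠ ⊥) (hI0 : I ≠ ⊥) {x x' y : 𝓞 K}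
    (hx : I * J = span {x}) (hx' : I' * J = span {x'}) (hy : y ∈ J)
    (h : x' = x + (ψ.modulus : 𝓞 K) * y) (hx0 : x ≠ 0) (hx'0 : x' ≠ 0) :
    ψ.toFun I' * archimedean ψ.n ψ.t (x : K) = ψ.toFun I * archimedean ψ.n ψ.t (x' : K) := by
  have hM1 := ψ.one_lt
  by_cases hc : IsCoprime I (span {(ψ.modulus : 𝓞 K)})
  swap
  · have hc' : ¬ IsCoprime I' (span {(ψ.modulus : 𝓞 K)}) := by
      intro h1
      refine hc (coprime_iff (x := x') (x' := x) (y := -y) hJ hx' hx (J.neg_mem hy) ?_ h1)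
      rw [h]; ring
    rw [ψ.eq_zero I hc, ψ.eq_zero I' hc', zero_mul, zero_mul]
  -- `b ∈ I` with `b ≡ 1`
  obtain ⟨b, hb, c, hc2, hbc⟩ := Ideal.isCoprime_iff_exists.1 hc
  rw [Ideal.mem_span_singleton] at hc2
  have hbdvd : (ψ.modulus : 𝓞 K) ∣ b - 1 := by
    have : b - 1 = -c := by rw [← hbc]; ring
    rw [this]
    exact (dvd_neg).2 hc2
  have hb0 : b ≠ 0 := by
    rintro rfl
    rw [zero_sub, dvd_neg] at hbdvd
    have h1 : IsUnit (ψ.modulus : 𝓞 K) := isUnit_of_dvd_one hbdvd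
    have h2 : absNorm (span {(ψ.modulus : 𝓞 K)}) = 1 := by
      rw [Ideal.absNorm_eq_one_iff]
      exact Ideal.span_singleton_eq_top.2 h1
    rw [Ideal.absNorm_span_natCast] at h2
    have h3 : ψ.modulus ∣ 1 := by
      rw [← h2]
      exact dvd_pow_self _ (by
        have := Module.finrank_pos (R := ℤ) (M := 𝓞 K)
        omega)
    rw [Nat.dvd_one] at h3
    omega
  have hJI : b * y ∈ span {x} := by
    rw [← hx]
    exact Ideal.mul_mem_mul hb hy
  obtain ⟨d, hd⟩ := Ideal.mem_span_singleton.1 hJI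
  set b' : 𝓞 K := b + (ψ.modulus : 𝓞 K) * d with hb'
  have hkey : b' * x = b * x' := by
    rw [hb', h]
    linear_combination (-(ψ.modulus : 𝓞 K)) * hd
  have hb'0 : b' ≠ 0 := by
    intro h0
    rw [h0, zero_mul] at hkey
    exact (mul_ne_zero hb0 hx'0) hkey.symm
  have hb'dvd : (ψ.modulus : 𝓞 K) ∣ b' - 1 := by
    have : b' - 1 = (b - 1) + (ψ.modulus : 𝓞 K) * d := by rw [hb']; ring
    rw [this]
    exact dvd_add hbdvd (dvd_mul_right _ _)
  -- the complement
  have hIb : I ∣ span {b} := by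
    rw [Ideal.dvd_iff_le, Ideal.span_singleton_le_iff_mem]
    exact hb
  obtain ⟨Z, hZ⟩ := hIb
  have hZ' : span {b'} = Z * I' := by
    have h1 : span {b'} * (I * J) = (Z * I') * (I * J) := by
      rw [hx, Ideal.span_singleton_mul_span_singleton, hkey,
        ← Ideal.span_singleton_mul_span_singleton, hZ, ← hx']
      rw [← hx]
      ring
    have h2 : I * J ≠ ⊥ := mul_ne_zero hI0 hJ
    exact mul_right_cancel₀ h2 h1
  have e1 : ψ.toFun I * ψ.toFun Z = archimedean ψ.n ψ.t (b : K) := by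
    rw [← map_mul, ← hZ, ψ.principal b hb0 hbdvd]
  have e2 : ψ.toFun Z * ψ.toFun I' = archimedean ψ.n ψ.t (b' : K) := by
    rw [← map_mul, ← hZ', ψ.principal b' hb'0 hb'dvd]
  have k0 : ∀ {z : 𝓞 K}, z ≠ 0 → (z : K) ≠ 0 := fun hz => RingOfIntegers.coe_ne_zero_iff.mpr hz
  have e3 : archimedean ψ.n ψ.t (b' : K) * archimedean ψ.n ψ.t (x : K) =
      archimedean ψ.n ψ.t (b : K) * archimedean ψ.n ψ.t (x' : K) := by
    rw [← arch_mul _ _ (k0 hb'0) (k0 hx0), ← arch_mul _ _ (k0 hb0) (k0 hx'0)]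
    congr 1
    have := congrArg (algebraMap (𝓞 K) K) hkey
    simpa using this
  have hZ0 : ψ.toFun Z ≠ 0 := by
    intro h0
    rw [h0, mul_zero] at e1
    exact arch_ne_zero ψ.n ψ.t (k0 hb0) e1.symm
  apply mul_left_cancel₀ hZ0
  rw [← mul_assoc, e2, e3, ← e1]
  ring

end Pool.Agent.X298.HC
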