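import Pool.Agent.X298.HC.SDefs
import Pool.Agent.X298.HC.Ops
import Pool.Agent.X298.HC.Link

/-!
# Tensor products with motives with few nonzero traces: definitions, continued
-/

set_option autoImplicit false

namespace Pool.Agent.X298.HC

open NumberField IsDedekindDomain Filter Topology Polynomial ComplexConjugate

section
variable {K : Type} [Field K] [NumberField K]

/-- The complex conjugate of a monomial representation. -/
noncomputable def Mono.dual (π : Mono K) : Mono K := ⟨π.F, π.ψ.conj, -π.τ⟩

/-- The complex conjugate of a virtual representation. -/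
noncomputable def Virt.dual (ρ : Virt K) : Virt K := ρ.mapDomain Mono.dual

/-- The motive `M ⊗ M^∨`, of weight zero, with the eigenvalues `α_j conj(α_k) q_v^{-w}`. -/
noncomputable def PureMotive.endo (M : PureMotive K) : PureMotive K where
  w := 0
  rank := M.rank * M.rank
  α v j := M.α v (finProdFinEquiv.symm j).1 * conj (M.α v (finProdFinEquiv.symm j).2) *
    (Ideal.absNorm v.asIdeal : ℂ) ^ (-(M.w : ℂ))
  pure := by
    filter_upwards [M.pure] with v hv
    intro j
    have h0 : (0 : ℝ) < Ideal.absNorm v.asIdeal := by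
      have := Pool.Agent.X298.HC.nm_pos v
      exact_mod_cast this
    rw [norm_mul, norm_mul, Complex.norm_conj, hv, hv,
      Complex.norm_natCast_cpow_of_pos (by exact_mod_cast h0), Complex.neg_re,
      Complex.intCast_re, ← Real.rpow_add h0, ← Real.rpow_add h0]
    congr 1
    push_cast
    ring

/-- The representation `Ind ψ N^{-iτ}` of the Weil group of `K`, for a Hecke character `ψ` of `F`. -/
def monoOf (K : Type) [Field K] {F : Type} [Field F] [NumberField F] [Algebra K F]
    (ψ : HeckeChar F) (τ : ℝ) : Mono K := ⟨F, ψ, τ⟩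

/-- The dual of `κ` is a part of `M`, and `R` is the square of the dimension of the rest; or `κ = 0` and
`R` is the order of the pole of `L((M ⊗ M^∨)_F, s)` at `s = 1`, if there is a meromorphic continuation to
a neighbourhood of this point. -/
def RestOver (M : PureMotive K) (κ : Virt K) (F : Type) [Field F] [NumberField F] [Algebra K F]
    (R : ℕ) : Prop :=
  (∃ s : ℕ, IsPartOf M s κ ∧ R = s ^ 2) ∨
  (κ = 0 ∧ ∃ (ψ : HeckeChar F) (B : HeightOneSpectrum (𝓞 (monoOf K ψ 0).F) → ℂ[X]),
    ψ.IsTrivial ∧ IsTwistOf M.endo (monoOf K ψ 0) B ∧ HasOrderW 0 0 B (-(R : ℤ)))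

variable (F : Type) [Field F] [NumberField F] [Algebra K F] in
/-- `ρ` is a combination of representations induced from Hecke characters of extensions of `F`, that is,
it is induced from `F`. -/
def IndFrom' (ρ : Virt K) : Prop := ∀ π ∈ ρ.support, Nonempty (F →ₐ[K] π.F)

section
variable {M : PureMotive K}

/-- At almost all primes outside `A` the trace of Frobenius on `M'` is zero. -/
def TensorData.SupportedOn (D : TensorData M) (A : Set (HeightOneSpectrum (𝓞 K))) : Prop :=
  ∀ᶠ v : HeightOneSpectrum (𝓞 K) in cofinite, v ∉ A → ∑ l, D.M'.α v l = 0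

end

variable (M : PureMotive K) (κ : Virt K) (A : Set (HeightOneSpectrum (𝓞 K))) (R : ℝ)

/-- For finitely many pairs `(M'_k, τ_k)` with traces vanishing outside `A` and real `c_k`, with `h_k` the
intertwining number of `κ` and `ρ_k N^{-iτ_k}`, and `q_kl` those of the `ρ_k N^{-iτ_k}`: the orders `m_k` of
`L(M ⊗ M'_k, s)` at `(w + w'_k)/2 + 1 + iτ_k` satisfy `(∑ c_k (m_k + h_k))² ≤ R ∑ c_k c_l q_kl`, if they
exist, and without continuations the same holds with `size` instead of `-m_k`, up to `η`, for all small
`ε > 0`. -/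
def SparseGram : Prop :=
  ∀ (l : ℕ) (D : Fin l → TensorData M) (c : Fin l → ℝ), (∀ k, (D k).SupportedOn A) →
    (∀ η : ℝ, 0 < η → ∀ᶠ ε : ℝ in 𝓝[>] 0,
      (∑ k, c k * ((D k).size ε - κ.inter (D k).rep)) ^ 2 ≤
        R * ∑ k, ∑ k', c k * c k' * ((D k).rep.inter (D k').rep : ℝ) + η) ∧
    ∀ m : Fin l → ℤ, (∀ k, (D k).HasOrder (m k)) →
      (∑ k, c k * ((m k + κ.inter (D k).rep : ℤ) : ℝ)) ^ 2 ≤
        R * ∑ k, ∑ k', c k * c k' * ((D k).rep.inter (D k').rep : ℝ)

/-- If the trace on `M'` vanishes outside `A` and `R q < 1` for the intertwining number `q` of `ρ` with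
itself, then the order of `L(M ⊗ M', s)` at the edge point is `-h`, if it exists, and without continuation
`size` differs from `h` by at most a number less than one, for all small `ε > 0`.  If the traces on `M`
and on `κ` are real, then the same holds if `R (q + q') < 2`, where `q'` is the intertwining number of
`ρ N^{-iτ}` and its complex conjugate. -/
def SparseExact : Prop :=
  ∀ D : TensorData M, D.SupportedOn A →
    (R * D.rep.inter D.rep < 1 ∨
      ((∀ᶠ v : HeightOneSpectrum (𝓞 K) in cofinite, (∑ j, M.α v j).im = 0) ∧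
        (∀ᶠ v : HeightOneSpectrum (𝓞 K) in cofinite, (κ.trace v).im = 0) ∧
        R * (D.rep.inter D.rep + D.rep.inter D.rep.dual) < 2)) →
    (∃ c : ℝ, c < 1 ∧ ∀ᶠ ε : ℝ in 𝓝[>] 0, |D.size ε - κ.inter D.rep| ≤ c) ∧
    ∀ m : ℤ, D.HasOrder m → m = -κ.inter D.rep

/-- For all `r` and `k ≥ 1` there are at most `k² r R` exceptional pairs `(M'_s, τ_s)` such that for all
pairs `(M', τ)` with traces vanishing outside `A` for which `ρ N^{-iτ}` has norm at most `r` and is
orthogonal to the `ρ_s N^{-iτ_s}` the order at the edge point is `-h`, if it exists, and without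
continuation `size` differs from `h` by less than `1/k` for arbitrarily small `ε > 0`. -/
def SparseExceptional : Prop :=
  ∀ r k : ℕ, 1 ≤ k → ∃ S : Finset (TensorData M), (S.card : ℝ) ≤ k ^ 2 * r * R ∧
    ∀ D : TensorData M, D.SupportedOn A → D.rep.inter D.rep ≤ r →
      (∀ D' ∈ S, D.rep.inter D'.rep = 0) →
      (∃ᶠ ε : ℝ in 𝓝[>] 0, |D.size ε - κ.inter D.rep| < 1 / k) ∧
      ∀ m : ℤ, D.HasOrder m → m = -κ.inter D.rep

/-- The three statements together. -/
def SparseAll : Prop := SparseGram M κ A R ∧ SparseExact M κ A R ∧ SparseExceptional M κ A R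

end

end Pool.Agent.X298.HC
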