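import Pool.Agent.X298.HC.SDual
import Pool.Agent.X298.HC.GMain

/-! Tensor products with motives with few nonzero traces. -/

set_option autoImplicit false
set_option linter.unusedSectionVars false
open Filter Topology NumberField Ideal IsDedekindDomain ComplexConjugate Polynomial

namespace Pool.Agent.X298.HC

open Pool.Agent.W540.BE Pool.Agent.H341R2
open Pool.Agent.W353.TP (HX push res)
open Pool.Agent.W353.NF (vx nm_vx vx_asIdeal)
open Pool.Agent.W353.EF (LFun)

section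
variable {K : Type} [Field K] [NumberField K] {M : PureMotive K} {κ : Virt K}

/-- the rest is bounded by its dimension -/
lemma norm_rest_le {s : ℕ} (h : IsPartOf M s κ) :
    ∀ᶠ x : HX K in cofinite, ‖tR (tM M) κ x‖ ≤ s := by
  have hcof := vx_injective.tendsto_cofinite.eventually (M.pure.and h)
  filter_upwards [hcof] with x hx
  obtain ⟨e1, J, e2, e3⟩ := hx
  have hq0 : (0 : ℝ) < nm K (vx x) := by exact_mod_cast nm_pos (vx x)
  have hqc : ((nm K (vx x) : ℕ) : ℂ) ≠ 0 := by exact_mod_cast (nm_pos (vx x)).ne'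
  have n1 : ∀ j, ‖M.α (vx x) j‖ = (nm K (vx x) : ℝ) ^ ((M.w : ℝ) / 2) := fun j => e1 j
  have e8 : ((nm K (vx x) : ℕ) : ℂ) ^ ((M.w : ℂ) / 2) * ((nm K (vx x) : ℕ) : ℂ) ^
      (-(((M.w : ℝ) / 2 : ℝ) : ℂ)) = 1 := by
    rw [← Complex.cpow_add _ _ hqc]
    have : (M.w : ℂ) / 2 + -(((M.w : ℝ) / 2 : ℝ) : ℂ) = 0 := by
      push_cast
      ring
    rw [this, Complex.cpow_zero]
  have e9 : (Ideal.absNorm (vx x).asIdeal : ℂ) = ((nm K (vx x) : ℕ) : ℂ) := rfl
  have e10 : tR (tM M) κ x = (∑ j ∈ J, M.α (vx x) j) * ((nm K (vx x) : ℕ) : ℂ) ^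
      (-(((M.w : ℝ) / 2 : ℝ) : ℂ)) := by
    unfold tR tM
    rw [T_mul n1, ← Finset.sum_add_sum_compl J (M.α (vx x)), e3, e9, add_mul]
    have : ((nm K (vx x) : ℕ) : ℂ) ^ ((M.w : ℂ) / 2) * conj (κ.trace (vx x)) *
        ((nm K (vx x) : ℕ) : ℂ) ^ (-(((M.w : ℝ) / 2 : ℝ) : ℂ)) = conj (κ.trace (vx x)) := by
      rw [mul_assoc, mul_comm (conj (κ.trace (vx x))), ← mul_assoc, e8, one_mul]
    rw [this, add_sub_cancel_right]
  rw [e10, norm_mul, Complex.norm_natCast_cpow_of_pos (nm_pos (vx x))]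
  have e12 : (-(((M.w : ℝ) / 2 : ℝ) : ℂ)).re = -((M.w : ℝ) / 2) := by
    rw [Complex.neg_re, Complex.ofReal_re]
  rw [e12]
  have e13 : ‖∑ j ∈ J, M.α (vx x) j‖ ≤ s * (nm K (vx x) : ℝ) ^ ((M.w : ℝ) / 2) := by
    refine (norm_sum_le _ _).trans (le_of_eq ?_)
    rw [Finset.sum_congr rfl fun j _ => n1 j, Finset.sum_const, e2, nsmul_eq_mul]
  calc _ ≤ (s * (nm K (vx x) : ℝ) ^ ((M.w : ℝ) / 2)) *
        (nm K (vx x) : ℝ) ^ (-((M.w : ℝ) / 2)) :=
        mul_le_mul_of_nonneg_right e13 (by positivity)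
    _ = s := by
        rw [mul_assoc, ← Real.rpow_add hq0, add_neg_cancel, Real.rpow_zero, mul_one]

/-- the trace of the representation vanishes outside `A` -/
lemma supp_rep {A : Set (HeightOneSpectrum (𝓞 K))} {D : TensorData M} (h : D.SupportedOn A) :
    ∀ᶠ x : HX K in cofinite, vx x ∉ A → D.rep.trace (vx x) = 0 := by
  have hcof := vx_injective.tendsto_cofinite.eventually (h.and D.pot)
  filter_upwards [hcof] with x hx hA
  obtain ⟨h1, h2⟩ := hx
  rw [h1 hA] at h2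
  have hq : (Ideal.absNorm (vx x).asIdeal : ℂ) ^ ((D.M'.w : ℂ) / 2) ≠ 0 := by
    have hqc : ((nm K (vx x) : ℕ) : ℂ) ≠ 0 := by exact_mod_cast (nm_pos (vx x)).ne'
    intro h0
    exact hqc ((Complex.cpow_eq_zero_iff _ _).1 h0).1
  have h3 : D.ρ.trace (vx x) = 0 := by
    rcases mul_eq_zero.1 h2.symm with h4 | h4
    · exact absurd h4 hq
    · exact h4
  unfold TensorData.rep
  rw [trace_shift, h3, zero_mul]

/-- the traces of the motive are real -/
lemma real_tM (h : ∀ᶠ v : HeightOneSpectrum (𝓞 K) in cofinite, (∑ j, M.α v j).im = 0) :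
    ∀ᶠ x : HX K in cofinite, conj (tM M x) = tM M x := by
  have hcof := vx_injective.tendsto_cofinite.eventually (M.pure.and h)
  filter_upwards [hcof] with x hx
  obtain ⟨e1, e2⟩ := hx
  have n1 : ∀ j, ‖M.α (vx x) j‖ = (nm K (vx x) : ℝ) ^ ((M.w : ℝ) / 2) := fun j => e1 j
  unfold tM
  rw [T_mul n1, map_mul, Complex.conj_eq_iff_im.2 e2]
  congr 1
  have hq0 : (0 : ℝ) < nm K (vx x) := by exact_mod_cast nm_pos (vx x)
  have e3 : ((nm K (vx x) : ℕ) : ℂ) ^ (-(((M.w : ℝ) / 2 : ℝ) : ℂ)) =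
      (((nm K (vx x) : ℝ) ^ (-((M.w : ℝ) / 2)) : ℝ) : ℂ) := by
    rw [Complex.ofReal_cpow hq0.le]
    push_cast
    rfl
  rw [e3, Complex.conj_ofReal]

/-- **The theorem in terms of the second moment on `A`.** -/
theorem sparse_all {A : Set (HeightOneSpectrum (𝓞 K))} {R : ℝ} (hR0 : 0 ≤ R)
    (hR : ∀ δ : ℝ, 0 < δ → ∀ᶠ ε : ℝ in 𝓝[>] 0,
      (EP (nx K) ε fun x => ‖tA (tM M) κ A x‖ ^ 2) / lam ε ≤ R + δ) : SparseAll M κ A R := by
  have hsz : ∀ D : {D : TensorData M // D.SupportedOn A}, Tendsto (fun ε : ℝ =>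
      gV (tM M) D.1.rep ε - D.1.size ε) (𝓝[>] 0) (𝓝 0) := fun D => (tensor_size D.1).2
  have hs : ∀ D : {D : TensorData M // D.SupportedOn A},
      ∀ᶠ x : HX K in cofinite, vx x ∉ A → D.1.rep.trace (vx x) = 0 := fun D => supp_rep D.2
  have hneg : ∀ (m h : ℤ), ((-m - h : ℤ) : ℝ) = -((m + h : ℤ) : ℝ) := by
    intro m h
    push_cast
    ring
  refine ⟨?_, ?_, ?_⟩
  · intro l D c hD
    have h := sparse_gram (norm_tM_le M) hR hsz hs (fun k => ⟨D k, hD k⟩) c
    refine ⟨h.1, fun m hm => ?_⟩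
    have h1 := h.2 (fun k => -m k) (fun k => by
      have := dataG_order (D k) (hm k)
      push_cast
      exact this)
    have e1 : (∑ k, c k * ((-m k - κ.inter (D k).rep : ℤ) : ℝ)) =
        -(∑ k, c k * ((m k + κ.inter (D k).rep : ℤ) : ℝ)) := by
      rw [← Finset.sum_neg_distrib]
      exact Finset.sum_congr rfl fun k _ => by rw [hneg]; ring
    simp only at h1
    rw [e1, neg_sq] at h1
    exact h1
  · intro D hD h0
    have key : ∃ c : ℝ, c < 1 ∧ (∀ η : ℝ, 0 < η → ∀ᶠ ε : ℝ in 𝓝[>] 0,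
        (D.size ε - κ.inter D.rep) ^ 2 ≤ c + η) ∧
        ∀ m : ℤ, Tendsto D.size (𝓝[>] 0) (𝓝 (m : ℝ)) →
          ((m - κ.inter D.rep : ℤ) : ℝ) ^ 2 ≤ c := by
      rcases h0 with h0 | ⟨h1, h2, h3⟩
      · have h := sparse_one (norm_tM_le M) hR hsz hs ⟨D, hD⟩
        exact ⟨_, h0, h.1, h.2⟩
      · have h := sparse_real (norm_tM_le M) (real_tM h1)
          (vx_injective.tendsto_cofinite.eventually
            (h2.mono fun v hv => Complex.conj_eq_iff_im.2 hv)) hR (ρ := D.rep) (sz := D.size)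
          (tensor_size D).2 (supp_rep hD)
        refine ⟨R * (D.rep.inter D.rep + D.rep.inter D.rep.dual) / 2, by linarith,
          fun η hη => ?_, fun m hm => ?_⟩
        · filter_upwards [h.1 η hη] with ε h4
          linarith
        · have := h.2 m hm
          linarith
    obtain ⟨c, hc1, hc2, hc3⟩ := key
    refine ⟨?_, fun m hm => ?_⟩
    · have hc0 : 0 ≤ (1 + c) / 2 := by
        by_contra hcon
        push Not at hcon
        obtain ⟨ε, hε⟩ := (hc2 ((1 - c) / 2) (by linarith)).exists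
        nlinarith [sq_nonneg (D.size ε - κ.inter D.rep)]
      refine ⟨Real.sqrt ((1 + c) / 2), ?_, ?_⟩
      · rw [Real.sqrt_lt' one_pos]
        linarith
      · filter_upwards [hc2 ((1 - c) / 2) (by linarith)] with ε hε
        rw [← Real.sqrt_sq_eq_abs]
        refine Real.sqrt_le_sqrt ?_
        linarith
    · have h1 := hc3 (-m) (by
        have := dataG_order D hm
        push_cast
        exact this)
      rw [hneg, neg_sq] at h1
      have h2 : ((m + κ.inter D.rep : ℤ) : ℝ) ^ 2 < 1 := h1.trans_lt hc1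
      have h3 : (m + κ.inter D.rep) ^ 2 < 1 := by exact_mod_cast h2
      have h4 : m + κ.inter D.rep = 0 := by
        by_contra hne
        have : 1 ≤ (m + κ.inter D.rep) ^ 2 := by
          have := sq_nonneg (m + κ.inter D.rep)
          have h5 : (m + κ.inter D.rep) ^ 2 ≠ 0 := pow_ne_zero 2 hne
          omega
        omega
      linarith
  · intro r k hk
    obtain ⟨S, hS, hS2⟩ := sparse_exceptional (norm_tM_le M) hR0 hR hsz hs r k hk
    classical
    refine ⟨S.image Subtype.val, ?_, fun D hD hr ho => ?_⟩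
    · refine le_trans ?_ hS
      exact_mod_cast Finset.card_image_le
    · have h := hS2 ⟨D, hD⟩ hr (fun q hq => ho q.1 (Finset.mem_image_of_mem _ hq))
      refine ⟨h.1, fun m hm => ?_⟩
      have h1 := h.2 (-m) (by
        have := dataG_order D hm
        push_cast
        exact this)
      linarith

end

section
variable {K F : Type} [Field K] [NumberField K] [Field F] [NumberField F] [Algebra K F]
  {M : PureMotive K} {κ : Virt K}

/-- the second moment over `F` from the order of the pole -/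
lemma endo_moment {R : ℕ} {ψ : HeckeChar F}
    {B : HeightOneSpectrum (𝓞 (monoOf K ψ 0).F) → ℂ[X]} (hψ : ψ.IsTrivial)
    (hB : IsTwistOf M.endo (monoOf K ψ 0) B) (hR : HasOrderW 0 0 B (-(R : ℤ))) :
    ∀ δ : ℝ, 0 < δ → ∀ᶠ ε : ℝ in 𝓝[>] 0,
      (EP (nx K) ε fun x => cN K F x * ‖tR (tM M) (0 : Virt K) x‖ ^ 2) / lam ε ≤ R + δ := by
  classical
  have h1 := twist_sizeG hB
  have h2 : Tendsto (sizeW M.endo.w (monoOf K ψ 0).τ B) (𝓝[>] 0) (𝓝 (-((-(R : ℤ) : ℤ) : ℝ))) :=
    sizeW_lim h1.1 hR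
  have h3 := h1.2.add h2
  have hb1 : ∀ x : HX K, |(tM M.endo x * (monoOf K ψ 0).trace (vx x)).re| ≤
      M.endo.rank * Module.finrank ℚ (monoOf K ψ 0).F := by
    intro x
    refine (Complex.abs_re_le_norm _).trans ?_
    rw [norm_mul, trace_vx]
    exact mul_le_mul (norm_tM_le _ x) (norm_wv _ _ _) (norm_nonneg _) (Nat.cast_nonneg _)
  have hb2 : ∀ x : HX K, |(cN K F x : ℝ) * ‖tR (tM M) (0 : Virt K) x‖ ^ 2| ≤
      Module.finrank ℚ F * (M.rank : ℝ) ^ 2 := by
    intro x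
    rw [tR_zero, abs_of_nonneg (by positivity)]
    exact mul_le_mul (cN_le x) (pow_le_pow_left₀ (norm_nonneg _) (norm_tM_le M x) 2)
      (by positivity) (Nat.cast_nonneg _)
  have hψ1 : ∀ᶠ y : HX F in cofinite, av ψ 0 (vx y) = 1 := by
    have := vx_injective.tendsto_cofinite.eventually (ae_ne ψ)
    filter_upwards [this] with y hy
    unfold av
    rw [hψ _ hy]
    simp
  have hψ2 : ∀ᶠ x : HX K in cofinite, (monoOf K ψ 0).trace (vx x) = (cN K F x : ℂ) := by
    have hfin : {y : HX F | ¬ av ψ 0 (vx y) = 1}.Finite := hψ1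
    have himg := hfin.image (rs' K F)
    filter_upwards [himg.eventually_cofinite_notMem] with x hx
    rw [trace_vx]
    unfold wv push cN
    rw [Finset.card_eq_sum_ones]
    push_cast
    refine Finset.sum_congr rfl fun u hu => ?_
    by_contra hne
    apply hx
    refine ⟨⟨x.1, u⟩, hne, ?_⟩
    unfold rs'
    simp only
    rw [(Finset.mem_filter.1 hu).2]
  have h4 := EPH_ae hb1 hb2 (by
    have hcof := vx_injective.tendsto_cofinite.eventually (M.pure.and M.endo.pure)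
    filter_upwards [hcof, hψ2] with x hx hx2
    obtain ⟨e1, e2⟩ := hx
    have hqc : ((nm K (vx x) : ℕ) : ℂ) ≠ 0 := by exact_mod_cast (nm_pos (vx x)).ne'
    have hq0 : (0 : ℝ) < nm K (vx x) := by exact_mod_cast nm_pos (vx x)
    have n1 : ∀ j, ‖M.α (vx x) j‖ = (nm K (vx x) : ℝ) ^ ((M.w : ℝ) / 2) := fun j => e1 j
    have n2 : ∀ j, ‖M.endo.α (vx x) j‖ = (nm K (vx x) : ℝ) ^ ((M.endo.w : ℝ) / 2) :=
      fun j => e2 j
    have e3 : tM M.endo x = ((‖tM M x‖ ^ 2 : ℝ) : ℂ) := by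
      unfold tM
      rw [T_mul n2, T_mul n1]
      have e4 : ∑ j, M.endo.α (vx x) j = (∑ j, M.α (vx x) j) * conj (∑ k, M.α (vx x) k) *
          (Ideal.absNorm (vx x).asIdeal : ℂ) ^ (-(M.w : ℂ)) := by
        unfold PureMotive.endo
        simp only
        rw [← Equiv.sum_comp finProdFinEquiv]
        simp only [Equiv.symm_apply_apply]
        rw [Fintype.sum_prod_type, map_sum, Finset.sum_mul_sum, Finset.sum_mul]
        exact Finset.sum_congr rfl fun j _ => by rw [Finset.sum_mul]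
      rw [e4, Complex.mul_conj, Complex.normSq_eq_norm_sq, norm_mul, mul_pow]
      have e5 : ((nm K (vx x) : ℕ) : ℂ) ^ (-(((M.endo.w : ℝ) / 2 : ℝ) : ℂ)) = 1 := by
        unfold PureMotive.endo
        simp
      rw [e5, mul_one, Complex.norm_natCast_cpow_of_pos (nm_pos (vx x))]
      have e6 : (Ideal.absNorm (vx x).asIdeal : ℂ) ^ (-(M.w : ℂ)) =
          (((nm K (vx x) : ℝ) ^ (-(M.w : ℝ)) : ℝ) : ℂ) := by
        rw [Complex.ofReal_cpow hq0.le]
        push_cast
        rfl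
      rw [e6, ← Complex.ofReal_mul]
      congr 2
      have e7 : (-(((M.w : ℝ) / 2 : ℝ) : ℂ)).re = -((M.w : ℝ) / 2) := by
        rw [Complex.neg_re, Complex.ofReal_re]
      rw [e7, ← Real.rpow_natCast, ← Real.rpow_mul hq0.le]
      congr 1
      push_cast
      ring
    rw [hx2, e3, tR_zero]
    have e8 : (((‖tM M x‖ ^ 2 : ℝ) : ℂ) * (cN K F x : ℂ)) =
        (((cN K F x : ℝ) * ‖tM M x‖ ^ 2 : ℝ) : ℂ) := by
      push_cast
      ring
    rw [e8, Complex.ofReal_re])
  intro δ hδ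
  have h5 := h3.sub h4
  have e9 : (0 : ℝ) + -((-(R : ℤ) : ℤ) : ℝ) - 0 = R := by push_cast; ring
  rw [e9] at h5
  have h6 := h5.eventually_lt_const (show (R : ℝ) < R + δ by linarith)
  filter_upwards [h6] with ε h7
  unfold gM at h7
  linarith

/-- the second moment on the primes that split completely -/
lemma restOver_bound [IsGalois K F] {R : ℕ} (h : RestOver M κ F R) :
    ∀ η : ℝ, 0 < η → ∀ᶠ ε : ℝ in 𝓝[>] 0,
      (EP (nx K) ε fun x => ‖tA (tM M) κ (splitPrimes K F) x‖ ^ 2) / lam ε ≤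
        R / Module.finrank K F + η := by
  rcases h with ⟨s, h1, h2⟩ | ⟨h0, ψ, B, h1, h2, h3⟩
  · intro η hη
    have h3 := second_dens (norm_tM_le M) (norm_rest_le h1) (dens_split (K := K) (F := F)) η hη
    rw [h2]
    push_cast
    rw [mul_one_div] at h3
    exact h3
  · rw [h0]
    exact second_split (norm_tM_le M) (endo_moment h1 h2 h3)

end

end Pool.Agent.X298.HC
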