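import Pool.Agent.X298.HC.SEng

/-! The second moment on a set of primes. -/

set_option autoImplicit false
set_option linter.unusedSectionVars false
open Filter Topology NumberField Ideal IsDedekindDomain ComplexConjugate Polynomial

namespace Pool.Agent.X298.HC

open Pool.Agent.W540.BE Pool.Agent.H341R2
open Pool.Agent.W353.TP (HX push res)
open Pool.Agent.W353.NF (vx nm_vx vx_asIdeal)

section
variable {K : Type} [Field K] [NumberField K] {A : Set (HeightOneSpectrum (𝓞 K))}

open Classical in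
/-- the density as a mean over the homomorphisms to prime fields -/
lemma dens_lim (A : Set (HeightOneSpectrum (𝓞 K))) : Tendsto (fun ε : ℝ =>
    (∑' v : A, (Ideal.absNorm v.1.asIdeal : ℝ) ^ (-(1 + ε))) / Real.log (1 / ε) -
      (EP (nx K) ε fun x => if vx x ∈ A then 1 else 0) / lam ε) (𝓝[>] 0) (𝓝 0) := by
  have hN : NormSys (nm K) := normSys
  set g : HeightOneSpectrum (𝓞 K) → ℝ := fun v => if v ∈ A then 1 else 0 with hg
  have hgb : ∀ v, |g v| ≤ 1 := by
    intro v
    rw [hg]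
    simp only
    split_ifs <;> simp
  have e1 : ∀ ε : ℝ, (∑' v : A, (Ideal.absNorm v.1.asIdeal : ℝ) ^ (-(1 + ε))) =
      EP (nm K) ε g := by
    intro ε
    unfold EP
    rw [tsum_subtype A (fun v : HeightOneSpectrum (𝓞 K) =>
      (Ideal.absNorm v.asIdeal : ℝ) ^ (-(1 + ε)))]
    refine tsum_congr fun v => ?_
    rw [hg]
    simp only [Set.indicator_apply, ite_mul, one_mul, zero_mul]
    rfl
  have h1 : Tendsto (fun ε : ℝ => (EP (nm K) ε g) / lam ε - (EP (nm K) ε g) / Real.log (1 / ε))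
      (𝓝[>] 0) (𝓝 0) := by
    refine size_compare (M := 2) (C := 0) ?_ (Filter.Eventually.of_forall fun ε => by simp)
    have h2 := (EP_vx (K := K) (g := fun _ => (1 : ℝ)) (C := 1) (fun _ => by simp)).add
      (EPH_one (K := K))
    rw [zero_add] at h2
    filter_upwards [h2.eventually_lt_const (show (1 : ℝ) < 2 by norm_num), self_mem_nhdsWithin,
      lam_tendsto.eventually_gt_atTop 0] with ε h3 h4 h5
    have hε : (0 : ℝ) < ε := h4
    rw [sub_add_cancel, div_lt_iff₀ h5] at h3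
    have h6 := EP_le hN hε hgb (b := 1) (fun v => (le_abs_self _).trans (hgb v))
    rw [abs_of_nonneg (EP_nonneg fun v => by
      rw [hg]
      simp only
      split_ifs <;> norm_num)]
    rw [one_mul] at h6
    exact h6.trans h3.le
  have h2 := (EP_vx hgb).sub h1
  rw [sub_zero] at h2
  refine h2.congr fun ε => ?_
  rw [e1]
  ring

open Classical in
lemma dens_bound {δ : ℝ} (h : DensityLE A δ) : ∀ η : ℝ, 0 < η → ∀ᶠ ε : ℝ in 𝓝[>] 0,
    (EP (nx K) ε fun x => if vx x ∈ A then 1 else 0) / lam ε ≤ δ + η := by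
  intro η hη
  filter_upwards [h (η / 2) (by positivity), (dens_lim A).eventually_const_lt
    (show -(η / 2) < 0 by linarith)] with ε h1 h2
  linarith

open Classical in
lemma dens_of {δ : ℝ} (h : ∀ η : ℝ, 0 < η → ∀ᶠ ε : ℝ in 𝓝[>] 0,
    (EP (nx K) ε fun x => if vx x ∈ A then 1 else 0) / lam ε ≤ δ + η) : DensityLE A δ := by
  intro η hη
  filter_upwards [h (η / 2) (by positivity), (dens_lim A).eventually_lt_const
    (show 0 < η / 2 by linarith)] with ε h1 h2
  linarith

variable {κ : Virt K} {t : HX K → ℂ} {b : ℝ}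

/-- the second moment on a set of given density, for a bounded rest -/
theorem second_dens (ht : ∀ x, ‖t x‖ ≤ b) {s : ℝ} (hs : ∀ᶠ x : HX K in cofinite, ‖tR t κ x‖ ≤ s)
    {δ : ℝ} (h : DensityLE A δ) : ∀ η : ℝ, 0 < η → ∀ᶠ ε : ℝ in 𝓝[>] 0,
      (EP (nx K) ε fun x => ‖tA t κ A x‖ ^ 2) / lam ε ≤ s ^ 2 * δ + η := by
  classical
  intro η hη
  have hN : NormSys (nx K) := normSysH
  have b1 : ∀ x : HX K, |‖tA t κ A x‖ ^ 2| ≤ (b + κ.bd) ^ 2 := fun x => by
    rw [abs_of_nonneg (sq_nonneg _)]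
    exact pow_le_pow_left₀ (norm_nonneg _) (norm_tA_le ht κ x) 2
  have b2 : ∀ x : HX K, |(-s ^ 2) * (if vx x ∈ A then (1 : ℝ) else 0)| ≤ s ^ 2 := fun x => by
    split_ifs
    · rw [mul_one, abs_neg, abs_of_nonneg (sq_nonneg _)]
    · rw [mul_zero, abs_zero]
      positivity
  have h1 := EPH_le_ae (f := fun x : HX K => ‖tA t κ A x‖ ^ 2 +
    (-s ^ 2) * (if vx x ∈ A then (1 : ℝ) else 0)) (B := (b + κ.bd) ^ 2 + s ^ 2) (b := 0)
    (fun x => (abs_add_le _ _).trans (add_le_add (b1 x) (b2 x))) (by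
      filter_upwards [hs] with x hx
      unfold tA
      split_ifs
      · have := pow_le_pow_left₀ (norm_nonneg _) hx 2
        linarith
      · simp) (δ := η / 2) (by positivity)
  filter_upwards [h1, dens_bound h (η / (2 * (s ^ 2 + 1))) (by positivity),
    self_mem_nhdsWithin, lam_tendsto.eventually_gt_atTop 0] with ε h2 h3 h4 h5
  have hε : (0 : ℝ) < ε := h4
  rw [EP_add hN hε b1 b2, EP_const_mul, add_div, mul_div_assoc] at h2
  have h6 : s ^ 2 * ((EP (nx K) ε fun x => if vx x ∈ A then 1 else 0) / lam ε) ≤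
      s ^ 2 * (δ + η / (2 * (s ^ 2 + 1))) := mul_le_mul_of_nonneg_left h3 (sq_nonneg s)
  have h7 : s ^ 2 * (η / (2 * (s ^ 2 + 1))) ≤ η / 2 := by
    have h8 : s ^ 2 * (η / (2 * (s ^ 2 + 1))) = (s ^ 2 / (s ^ 2 + 1)) * (η / 2) := by
      field_simp
    rw [h8]
    have h9 : s ^ 2 / (s ^ 2 + 1) ≤ 1 := by
      rw [div_le_one (by positivity)]
      linarith
    nlinarith
  linarith [h2, h6, h7, mul_add (s ^ 2) δ (η / (2 * (s ^ 2 + 1)))]

end

section
variable {K F : Type} [Field K] [NumberField K] [Field F] [NumberField F] [Algebra K F]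

lemma cN_ne_zero (x : HX K) : cN K F x ≠ 0 ↔ vx x ∈ splitPrimes K F := by
  classical
  constructor
  · intro h
    unfold cN at h
    obtain ⟨u, hu⟩ := Finset.card_pos.1 (Nat.pos_of_ne_zero h)
    have hu1 := (Finset.mem_filter.1 hu).2
    refine ⟨vx (⟨x.1, u⟩ : HX F), ?_, ?_⟩
    · rw [vx_asIdeal, vx_asIdeal, ← hu1]
      unfold Pool.Agent.W353.TP.res
      rw [RingHom.comap_ker]
    · have h1 : Ideal.absNorm (vx (⟨x.1, u⟩ : HX F)).asIdeal = (x.1 : ℕ) := nm_vx _
      have h2 : Ideal.absNorm (vx x).asIdeal = (x.1 : ℕ) := nm_vx _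
      rw [h1, h2]
  · rintro ⟨w, h1, h2⟩
    obtain ⟨u, hu1, -⟩ := exists_hom x w h1 h2
    unfold cN
    exact (Finset.card_pos.2 ⟨u, Finset.mem_filter.2 ⟨Finset.mem_univ _, hu1⟩⟩).ne'

variable {κ : Virt K} {t : HX K → ℂ} {b R : ℝ}

/-- the second moment on the primes that split completely in a Galois extension -/
theorem second_split [IsGalois K F] (ht : ∀ x, ‖t x‖ ≤ b)
    (hR : ∀ δ : ℝ, 0 < δ → ∀ᶠ ε : ℝ in 𝓝[>] 0,
      (EP (nx K) ε fun x => cN K F x * ‖tR t κ x‖ ^ 2) / lam ε ≤ R + δ) :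
    ∀ η : ℝ, 0 < η → ∀ᶠ ε : ℝ in 𝓝[>] 0,
      (EP (nx K) ε fun x => ‖tA t κ (splitPrimes K F) x‖ ^ 2) / lam ε ≤
        R / Module.finrank K F + η := by
  classical
  intro η hη
  have hN : NormSys (nx K) := normSysH
  have hfd : FiniteDimensional K F := Module.Finite.of_restrictScalars_finite ℚ K F
  set n : ℝ := (Module.finrank K F : ℝ) with hn
  have hn0 : (0 : ℝ) < n := by
    rw [hn]
    exact_mod_cast Module.finrank_pos
  have b1 : ∀ x : HX K, |n * ‖tA t κ (splitPrimes K F) x‖ ^ 2| ≤ n * (b + κ.bd) ^ 2 := fun x => by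
    rw [abs_of_nonneg (by positivity)]
    exact mul_le_mul_of_nonneg_left
      (pow_le_pow_left₀ (norm_nonneg _) (norm_tA_le ht κ x) 2) hn0.le
  have b2 : ∀ x : HX K, |(-1) * (cN K F x * ‖tR t κ x‖ ^ 2)| ≤
      Module.finrank ℚ F * (b + κ.bd) ^ 2 := fun x => by
    rw [abs_mul, abs_neg, abs_one, one_mul, abs_of_nonneg (by positivity)]
    exact mul_le_mul (cN_le x) (pow_le_pow_left₀ (norm_nonneg _) (norm_tR_le ht κ x) 2)
      (by positivity) (Nat.cast_nonneg _)
  have h1 := EPH_le_ae (f := fun x : HX K => n * ‖tA t κ (splitPrimes K F) x‖ ^ 2 +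
    (-1) * (cN K F x * ‖tR t κ x‖ ^ 2)) (b := 0)
    (fun x => (abs_add_le _ _).trans (add_le_add (b1 x) (b2 x))) (by
      filter_upwards [cN_gal (K := K) (F := F)] with x hx
      unfold tA
      split_ifs with h
      · have h2 : (n : ℝ) ≤ cN K F x := by
          rw [hn]
          exact_mod_cast hx ((cN_ne_zero x).2 h)
        have := mul_le_mul_of_nonneg_right h2 (sq_nonneg ‖tR t κ x‖)
        linarith
      · rw [norm_zero]
        have : 0 ≤ (cN K F x : ℝ) * ‖tR t κ x‖ ^ 2 := by positivity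
        linarith) (δ := n * η / 2) (by positivity)
  filter_upwards [h1, hR (n * η / 2) (by positivity), self_mem_nhdsWithin,
    lam_tendsto.eventually_gt_atTop 0] with ε h2 h3 h4 h5
  have hε : (0 : ℝ) < ε := h4
  rw [EP_add hN hε b1 b2, EP_const_mul, EP_const_mul, add_div, mul_div_assoc] at h2
  have h6 : n * ((EP (nx K) ε fun x => ‖tA t κ (splitPrimes K F) x‖ ^ 2) / lam ε) ≤
      R + n * η := by
    have e1 : (-1) * (EP (nx K) ε fun x => (cN K F x : ℝ) * ‖tR t κ x‖ ^ 2) / lam ε =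
      -((EP (nx K) ε fun x => (cN K F x : ℝ) * ‖tR t κ x‖ ^ 2) / lam ε) := by ring
    rw [e1] at h2
    linarith
  have h7 : R / n + η = (R + n * η) / n := by field_simp
  rw [h7, le_div_iff₀ hn0, mul_comm]
  exact h6

/-- the mean of the number of the primes above -/
lemma mean_cN : Tendsto (fun ε : ℝ => (EP (nx K) ε fun x => (cN K F x : ℝ)) / lam ε) (𝓝[>] 0)
    (𝓝 1) := by
  refine (EPH_one (K := F)).congr' ?_
  filter_upwards [self_mem_nhdsWithin] with ε hε
  have h := EP_res (K := K) (F := F) (g := fun _ => (1 : ℝ)) (B := 1) (fun _ => by simp) hε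
  rw [h]
  simp only [mul_one]

/-- the density of the primes that split completely in a Galois extension -/
theorem dens_split [IsGalois K F] :
    DensityLE (splitPrimes K F) (1 / Module.finrank K F) := by
  classical
  refine dens_of fun η hη => ?_
  have h := second_split (K := K) (F := F) (κ := 0) (t := fun _ => 1) (b := 1) (R := 1)
    (fun _ => by simp) (by
      intro δ hδ
      simp only [tR_zero, norm_one, one_pow, mul_one]
      exact (mean_cN.eventually_lt_const (show (1 : ℝ) < 1 + δ by linarith)).mono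
        fun ε h => h.le) η hη
  filter_upwards [h] with ε h1
  refine le_trans (le_of_eq ?_) h1
  congr 2
  funext x
  unfold tA
  split_ifs
  · rw [tR_zero, norm_one, one_pow]
  · simp

end

end Pool.Agent.X298.HC
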