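import Pool.Agent.X298.HC.GDefs

/-!
# Tensor products with motives with few nonzero traces: definitions
-/

set_option autoImplicit false

namespace Pool.Agent.X298.HC

open NumberField IsDedekindDomain Filter Topology Polynomial ComplexConjugate

section
variable {K : Type} [Field K] [NumberField K]

/-- The upper Dirichlet density of the set `A` of primes of `K` is at most `δ`. -/
def DensityLE (A : Set (HeightOneSpectrum (𝓞 K))) (δ : ℝ) : Prop :=
  ∀ η : ℝ, 0 < η → ∀ᶠ ε : ℝ in 𝓝[>] 0,
    (∑' v : A, (Ideal.absNorm v.1.asIdeal : ℝ) ^ (-(1 + ε))) / Real.log (1 / ε) ≤ δ + η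

/-- The primes `v` of `K` with a prime `w` of `F` above `v` with `N(w) = N(v)`.  If `F` is a Galois
extension of `K`, then these are, up to finitely many, the primes that split completely in `F`. -/
def splitPrimes (K F : Type) [Field K] [NumberField K] [Field F] [NumberField F] [Algebra K F] :
    Set (HeightOneSpectrum (𝓞 K)) :=
  {v | ∃ w : HeightOneSpectrum (𝓞 F), IsAbove w v}

end

end Pool.Agent.X298.HC
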