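import Pool.Agent.X298.HC.SBound
import Pool.Agent.X298.HC.S2Defs

/-! Dual representations and motives with real traces. -/

set_option autoImplicit false
set_option linter.unusedSectionVars false
open Filter Topology NumberField Ideal IsDedekindDomain ComplexConjugate Polynomial

namespace Pool.Agent.X298.HC

open Pool.Agent.W540.BE Pool.Agent.H341R2
open Pool.Agent.W353.TP (HX push res)
open Pool.Agent.W353.NF (vx nm_vx vx_asIdeal)

variable {K : Type} [Field K] [NumberField K]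

lemma av_conj {F : Type} [Field F] [NumberField F] (ψ : HeckeChar F) (τ : ℝ)
    (v : HeightOneSpectrum (𝓞 F)) : av ψ.conj (-τ) v = conj (av ψ τ v) := by
  unfold av
  rw [map_mul, conj_apply, conj_cpow_I (nm_pos v)]
  congr 2
  push_cast
  ring

lemma trace_dual_mono (π : Mono K) (x : HX K) :
    π.dual.trace (vx x) = conj (π.trace (vx x)) := by
  rw [trace_vx, trace_vx]
  unfold wv push
  rw [map_sum]
  exact Finset.sum_congr rfl fun u _ => av_conj π.ψ π.τ _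

lemma trace_dual (ρ : Virt K) (x : HX K) : ρ.dual.trace (vx x) = conj (ρ.trace (vx x)) := by
  unfold Virt.trace Virt.dual
  rw [Finsupp.sum_mapDomain_index (by intro π; simp) (by intro π m n; push_cast; ring)]
  unfold Finsupp.sum
  rw [map_sum]
  refine Finset.sum_congr rfl fun π _ => ?_
  simp only
  rw [trace_dual_mono, map_mul, map_intCast]

lemma trace_add (ρ ρ' : Virt K) (v : HeightOneSpectrum (𝓞 K)) :
    (ρ + ρ').trace v = ρ.trace v + ρ'.trace v := by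
  unfold Virt.trace
  rw [Finsupp.sum_add_index' (by intro π; simp) (by intro π m n; push_cast; ring)]

/-- the mean of a product of traces -/
noncomputable def iM (ρ ρ' : Virt K) (ε : ℝ) : ℝ :=
  (EP (nx K) ε fun x => (conj (ρ.trace (vx x)) * ρ'.trace (vx x)).re) / lam ε

lemma iM_lim (ρ ρ' : Virt K) : Tendsto (iM ρ ρ') (𝓝[>] 0) (𝓝 (ρ.inter ρ' : ℝ)) :=
  gram_virt ρ ρ'

lemma iM_bd (ρ ρ' : Virt K) (x : HX K) :
    |(conj (ρ.trace (vx x)) * ρ'.trace (vx x)).re| ≤ ρ.bd * ρ'.bd := by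
  refine (Complex.abs_re_le_norm _).trans ?_
  rw [norm_mul, Complex.norm_conj]
  exact mul_le_mul (norm_trace_le _ x) (norm_trace_le _ x) (norm_nonneg _)
    ((norm_nonneg _).trans (norm_trace_le ρ x))

lemma inter_add_right (ρ ρ₁ ρ₂ : Virt K) :
    ρ.inter (ρ₁ + ρ₂) = ρ.inter ρ₁ + ρ.inter ρ₂ := by
  have hN : NormSys (nx K) := normSysH
  have h1 := (iM_lim ρ ρ₁).add (iM_lim ρ ρ₂)
  have h2 := iM_lim ρ (ρ₁ + ρ₂)
  have h3 : ((ρ.inter (ρ₁ + ρ₂) : ℤ) : ℝ) = ρ.inter ρ₁ + ρ.inter ρ₂ := by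
    refine tendsto_nhds_unique h2 (h1.congr' ?_)
    filter_upwards [self_mem_nhdsWithin] with ε hε
    have hε' : (0 : ℝ) < ε := hε
    unfold iM
    rw [← add_div, ← EP_add hN hε' (iM_bd ρ ρ₁) (iM_bd ρ ρ₂)]
    congr 2
    funext x
    rw [trace_add, mul_add, Complex.add_re]
  exact_mod_cast h3

lemma inter_add_left (ρ ρ₁ ρ₂ : Virt K) :
    (ρ₁ + ρ₂).inter ρ = ρ₁.inter ρ + ρ₂.inter ρ := by
  rw [inter_comm', inter_add_right, inter_comm' ρ, inter_comm' ρ]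

lemma inter_dual_dual (ρ ρ' : Virt K) : ρ.dual.inter ρ'.dual = ρ.inter ρ' := by
  have h1 := iM_lim ρ.dual ρ'.dual
  have h2 := iM_lim ρ ρ'
  have h3 : ((ρ.dual.inter ρ'.dual : ℤ) : ℝ) = ρ.inter ρ' := by
    refine tendsto_nhds_unique h1 (h2.congr fun ε => ?_)
    unfold iM
    congr 2
    funext x
    rw [trace_dual, trace_dual, ← Complex.conj_re, map_mul]
  exact_mod_cast h3

lemma inter_of_real {κ : Virt K} (hκ : ∀ᶠ x : HX K in cofinite,
    conj (κ.trace (vx x)) = κ.trace (vx x)) (ρ : Virt K) : κ.inter ρ.dual = κ.inter ρ := by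
  have h1 := iM_lim κ ρ.dual
  have h2 := iM_lim κ ρ
  have h3 := EPH_ae (iM_bd κ ρ.dual) (iM_bd κ ρ) (by
    filter_upwards [hκ] with x hx
    rw [trace_dual, hx]
    conv_rhs => rw [← hx]
    rw [← Complex.conj_re, map_mul, Complex.conj_conj])
  have h4 := h1.sub h2
  have h5 : ((κ.inter ρ.dual : ℤ) : ℝ) - κ.inter ρ = 0 := tendsto_nhds_unique h4 h3
  have h6 : ((κ.inter ρ.dual : ℤ) : ℝ) = κ.inter ρ := by linarith
  exact_mod_cast h6

variable {κ : Virt K} {t : HX K → ℂ} {b R : ℝ} {A : Set (HeightOneSpectrum (𝓞 K))}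

lemma gV_bd (ht : ∀ x, ‖t x‖ ≤ b) (ρ : Virt K) (x : HX K) :
    |(t x * ρ.trace (vx x)).re| ≤ b * ρ.bd := by
  refine (Complex.abs_re_le_norm _).trans ?_
  rw [norm_mul]
  exact mul_le_mul (ht x) (norm_trace_le _ x) (norm_nonneg _) ((norm_nonneg _).trans (ht x))

lemma gV_dual (ht : ∀ x, ‖t x‖ ≤ b) (hr : ∀ᶠ x in cofinite, conj (t x) = t x) (ρ : Virt K) :
    Tendsto (fun ε => gV t (ρ + ρ.dual) ε - 2 * gV t ρ ε) (𝓝[>] 0) (𝓝 0) := by
  have hN : NormSys (nx K) := normSysH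
  have h1 := EPH_ae (gV_bd ht ρ.dual) (gV_bd ht ρ) (by
    filter_upwards [hr] with x hx
    rw [trace_dual]
    conv_rhs => rw [← hx]
    rw [← Complex.conj_re, map_mul, Complex.conj_conj])
  refine h1.congr' ?_
  filter_upwards [self_mem_nhdsWithin] with ε hε
  have hε' : (0 : ℝ) < ε := hε
  have e1 : gV t (ρ + ρ.dual) ε = gV t ρ ε + gV t ρ.dual ε := by
    unfold gV
    rw [← add_div, ← EP_add hN hε' (gV_bd ht ρ) (gV_bd ht ρ.dual)]
    congr 2
    funext x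
    rw [trace_add, mul_add, Complex.add_re]
  rw [e1]
  unfold gV
  ring

/-- **One representation, for real traces.** -/
theorem sparse_real (ht : ∀ x, ‖t x‖ ≤ b) (hr : ∀ᶠ x in cofinite, conj (t x) = t x)
    (hκ : ∀ᶠ x : HX K in cofinite, conj (κ.trace (vx x)) = κ.trace (vx x))
    (hR : ∀ δ : ℝ, 0 < δ → ∀ᶠ ε : ℝ in 𝓝[>] 0,
      (EP (nx K) ε fun x => ‖tA t κ A x‖ ^ 2) / lam ε ≤ R + δ)
    {ρ : Virt K} {sz : ℝ → ℝ}
    (hsz : Tendsto (fun ε => gV t ρ ε - sz ε) (𝓝[>] 0) (𝓝 0))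
    (hs : ∀ᶠ x : HX K in cofinite, vx x ∉ A → ρ.trace (vx x) = 0) :
    (∀ η : ℝ, 0 < η → ∀ᶠ ε : ℝ in 𝓝[>] 0,
      2 * (sz ε - κ.inter ρ) ^ 2 ≤ R * (ρ.inter ρ + ρ.inter ρ.dual) + η) ∧
    ∀ m : ℤ, Tendsto sz (𝓝[>] 0) (𝓝 m) →
      2 * ((m - κ.inter ρ : ℤ) : ℝ) ^ 2 ≤ R * (ρ.inter ρ + ρ.inter ρ.dual) := by
  have h1 : κ.inter (ρ + ρ.dual) = 2 * κ.inter ρ := by
    rw [inter_add_right, inter_of_real hκ]
    ring
  have h2 : (ρ + ρ.dual).inter (ρ + ρ.dual) = 2 * (ρ.inter ρ + ρ.inter ρ.dual) := by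
    rw [inter_add_right, inter_add_left, inter_add_left, inter_dual_dual,
      inter_comm' ρ.dual ρ]
    ring
  have h3 : Tendsto (fun ε => gV t (ρ + ρ.dual) ε - 2 * sz ε) (𝓝[>] 0) (𝓝 0) := by
    have h4 := (gV_dual ht hr ρ).add (hsz.const_mul 2)
    rw [mul_zero, add_zero] at h4
    refine h4.congr fun ε => ?_
    ring
  have h4 := sparse_one (P := Unit) (rep := fun _ => ρ + ρ.dual) (sz := fun _ ε => 2 * sz ε)
    (κ := κ) ht hR (fun _ => h3) (fun _ => by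
      filter_upwards [hs] with x hx h
      rw [trace_add, trace_dual, hx h, map_zero, add_zero]) ()
  simp only [h1, h2] at h4
  refine ⟨fun η hη => ?_, fun m hm => ?_⟩
  · filter_upwards [h4.1 (2 * η) (by positivity)] with ε h5
    push_cast at h5
    nlinarith
  · have h5 := h4.2 (2 * m) (by
      push_cast
      exact hm.const_mul 2)
    push_cast at h5 ⊢
    nlinarith

end Pool.Agent.X298.HC
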