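import Pool.Agent.X298.HC.SSup
import Pool.Agent.X298.HC.KNorm
import Pool.Agent.X298.HC.SDefs

/-! Families of representations supported on a set of primes. -/

set_option autoImplicit false
set_option linter.unusedSectionVars false
open Filter Topology NumberField Ideal IsDedekindDomain ComplexConjugate Polynomial

namespace Pool.Agent.X298.HC

open Pool.Agent.W540.BE Pool.Agent.H341R2
open Pool.Agent.W353.TP (HX push res)
open Pool.Agent.W353.NF (vx nm_vx vx_asIdeal)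

section
variable {P : Type*} {G : P → P → ℤ} {L : P → ℝ} {R : ℝ}

/-- the exceptional set, for real `R` -/
theorem GramForm.exceptional_real (h : GramForm P G L R) (hR : 0 ≤ R) (r k : ℕ) (hk : 1 ≤ k) :
    ∃ S : Finset P, (S.card : ℝ) ≤ k ^ 2 * r * R ∧
      ∀ p, G p p ≤ r → (∀ s ∈ S, G p s = 0) → |L p| < 1 / k := by
  classical
  have hk0 : (0 : ℝ) < k := by exact_mod_cast hk
  have hself : ∀ p : {p : P // 1 / (k : ℝ) ≤ |L p| ∧ G p p ≤ r}, G p.1 p.1 ≠ 0 := by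
    intro p h0
    obtain ⟨-, h2⟩ := h.self p.1
    rw [h0, Int.cast_zero, mul_zero] at h2
    have h4 : L p.1 = 0 := by nlinarith [sq_nonneg (L p.1)]
    have h5 := p.2.1
    rw [h4, abs_zero] at h5
    have : (0 : ℝ) < 1 / k := by positivity
    linarith
  obtain ⟨S, -, -, hS3, hS4⟩ := exists_max
    (P := {p : P // 1 / (k : ℝ) ≤ |L p| ∧ G p p ≤ r})
    (fun p q => G p.1 q.1 = 0) (fun p q h' => by rwa [h.symm]) hself Set.univ
      ⌊(k : ℝ) ^ 2 * r * R⌋₊ (by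
      intro S _ hS2
      have hf := h.comp (Q := {p : {p : P // 1 / (k : ℝ) ≤ |L p| ∧ G p p ≤ r} // p ∈ S})
        (fun p => p.1.1)
      have hq : ∀ s : {p // p ∈ S}, 0 < (G s.1.1 s.1.1 : ℝ) := fun s => by
        have h1 := (h.self s.1.1).1
        have h2 := hself s.1
        exact_mod_cast lt_of_le_of_ne h1 (Ne.symm h2)
      have hb := bessel_abs (ι := {p // p ∈ S}) (fun s => L s.1.1)
        (fun s t => (G s.1.1 t.1.1 : ℝ)) (R := R) hR
        (fun s => (hq s).le) (fun c => (hf.gram Finset.univ c).2)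
        (fun s t hst => by
          have := hS2 s.1 s.2 t.1 t.2 (fun h => hst (Subtype.ext h))
          rw [this, Int.cast_zero])
      refine Nat.le_floor ?_
      rcases S.eq_empty_or_nonempty with hE | ⟨s0, hs0⟩
      · rw [hE, Finset.card_empty, Nat.cast_zero]
        positivity
      · have hr0 : (0 : ℝ) < r := (hq ⟨s0, hs0⟩).trans_le (by exact_mod_cast s0.2.2)
        have h4 : (Fintype.card {p // p ∈ S} : ℝ) * ((1 / (k : ℝ)) ^ 2 / r) ≤ R := by
          refine le_trans ?_ hb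
          rw [← nsmul_eq_mul, ← Finset.card_univ]
          refine Finset.card_nsmul_le_sum _ _ _ fun s _ => ?_
          have h5 : (1 / (k : ℝ)) ^ 2 ≤ L s.1.1 ^ 2 := by
            rw [← sq_abs (L s.1.1)]
            exact pow_le_pow_left₀ (by positivity) s.1.2.1 2
          calc (1 / (k : ℝ)) ^ 2 / r ≤ (1 / (k : ℝ)) ^ 2 / (G s.1.1 s.1.1 : ℝ) :=
                div_le_div_of_nonneg_left (sq_nonneg _) (hq s) (by exact_mod_cast s.1.2.2)
            _ ≤ L s.1.1 ^ 2 / (G s.1.1 s.1.1 : ℝ) :=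
                div_le_div_of_nonneg_right h5 (hq s).le
        rw [Fintype.card_coe] at h4
        have h7 := mul_le_mul_of_nonneg_left h4 (by positivity : (0 : ℝ) ≤ k ^ 2 * r)
        have h8 : (k : ℝ) ^ 2 * r * (S.card * ((1 / (k : ℝ)) ^ 2 / r)) = S.card := by
          field_simp
        rwa [h8] at h7)
  refine ⟨S.image Subtype.val, ?_, ?_⟩
  · have h1 : ((S.image Subtype.val).card : ℝ) ≤ S.card := by
      exact_mod_cast Finset.card_image_le
    refine h1.trans ?_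
    exact (Nat.cast_le.2 hS3).trans (Nat.floor_le (by positivity))
  intro p hr hσ
  by_contra hcon
  push Not at hcon
  obtain ⟨s, hs, hs2⟩ := hS4 ⟨p, hcon, hr⟩ (Set.mem_univ _)
  exact hs2 (hσ s.1 (Finset.mem_image_of_mem _ hs))

end

section
variable {K : Type} [Field K] [NumberField K] {κ : Virt K} {t : HX K → ℂ} {b : ℝ}
  {A : Set (HeightOneSpectrum (𝓞 K))}

open Classical in
/-- the rest at the primes in `A` -/
noncomputable def tA (t : HX K → ℂ) (κ : Virt K) (A : Set (HeightOneSpectrum (𝓞 K)))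
    (x : HX K) : ℂ :=
  if vx x ∈ A then tR t κ x else 0

lemma norm_tA_le (ht : ∀ x, ‖t x‖ ≤ b) (κ : Virt K) (x : HX K) :
    ‖tA t κ A x‖ ≤ b + κ.bd := by
  unfold tA
  split_ifs
  · exact norm_tR_le ht κ x
  · rw [norm_zero]
    exact (norm_nonneg _).trans (norm_tR_le ht κ x)

lemma zero_trace (v : HeightOneSpectrum (𝓞 K)) : (0 : Virt K).trace v = 0 := by
  unfold Virt.trace
  exact Finsupp.sum_zero_index

lemma tR_zero (t : HX K → ℂ) (x : HX K) : tR t 0 x = t x := by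
  unfold tR
  rw [zero_trace, map_zero, sub_zero]

/-- the means of the rest at the primes in `A` -/
lemma tA_mean (ht : ∀ x, ‖t x‖ ≤ b) {ρ : Virt K}
    (hρ : ∀ᶠ x : HX K in cofinite, vx x ∉ A → ρ.trace (vx x) = 0) :
    Tendsto (fun ε => gV (tA t κ A) ρ ε - (gV t ρ ε - κ.inter ρ)) (𝓝[>] 0) (𝓝 0) := by
  classical
  have hb1 : ∀ x : HX K, |(tA t κ A x * ρ.trace (vx x)).re| ≤ (b + κ.bd) * ρ.bd := by
    intro x
    refine (Complex.abs_re_le_norm _).trans ?_
    rw [norm_mul]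
    exact mul_le_mul (norm_tA_le ht κ x) (norm_trace_le _ x) (norm_nonneg _)
      ((norm_nonneg _).trans (norm_tR_le ht κ x))
  have hb2 : ∀ x : HX K, |(tR t κ x * ρ.trace (vx x)).re| ≤ (b + κ.bd) * ρ.bd := by
    intro x
    refine (Complex.abs_re_le_norm _).trans ?_
    rw [norm_mul]
    exact mul_le_mul (norm_tR_le ht κ x) (norm_trace_le _ x) (norm_nonneg _)
      ((norm_nonneg _).trans (norm_tR_le ht κ x))
  have h1 := EPH_ae hb1 hb2 (by
    filter_upwards [hρ] with x hx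
    unfold tA
    split_ifs with h
    · rfl
    · rw [hx h, mul_zero, mul_zero])
  have h2 := (h1.add (tendsto_const_nhds (x := (κ.inter ρ : ℝ)))).sub (gram_virt κ ρ)
  rw [zero_add, sub_self] at h2
  refine h2.congr' ?_
  filter_upwards [self_mem_nhdsWithin] with ε hε
  have hε' : (0 : ℝ) < ε := hε
  rw [mean_tR ht κ ρ hε']
  unfold gV
  ring

variable {P : Type*} {rep : P → Virt K} {sz : P → ℝ → ℝ} {R : ℝ}

/-- **The Gram inequality.** -/
theorem sparse_gram (ht : ∀ x, ‖t x‖ ≤ b)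
    (hR : ∀ δ : ℝ, 0 < δ → ∀ᶠ ε : ℝ in 𝓝[>] 0,
      (EP (nx K) ε fun x => ‖tA t κ A x‖ ^ 2) / lam ε ≤ R + δ)
    (hsz : ∀ p, Tendsto (fun ε => gV t (rep p) ε - sz p ε) (𝓝[>] 0) (𝓝 0))
    (hs : ∀ p, ∀ᶠ x : HX K in cofinite, vx x ∉ A → (rep p).trace (vx x) = 0)
    {l : ℕ} (D : Fin l → P) (c : Fin l → ℝ) :
    (∀ η : ℝ, 0 < η → ∀ᶠ ε : ℝ in 𝓝[>] 0,
      (∑ k, c k * (sz (D k) ε - κ.inter (rep (D k)))) ^ 2 ≤
        R * ∑ k, ∑ k', c k * c k' * ((rep (D k)).inter (rep (D k')) : ℝ) + η) ∧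
    ∀ m : Fin l → ℤ, (∀ k, Tendsto (sz (D k)) (𝓝[>] 0) (𝓝 (m k))) →
      (∑ k, c k * ((m k - κ.inter (rep (D k)) : ℤ) : ℝ)) ^ 2 ≤
        R * ∑ k, ∑ k', c k * c k' * ((rep (D k)).inter (rep (D k')) : ℝ) := by
  have h := fam_gram (κ := (0 : Virt K)) (t := tA t κ A) (norm_tA_le ht κ) (R := R)
    (by simpa only [tR_zero] using hR) (rep := rep)
    (sz := fun p ε => sz p ε - κ.inter (rep p)) (by
      intro p
      have h1 := (tA_mean ht (κ := κ) (hs p)).add (hsz p)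
      rw [add_zero] at h1
      refine h1.congr fun ε => ?_
      ring) D c
  simp only [zero_inter, Int.cast_zero, sub_zero] at h
  refine ⟨h.1, fun m hm => ?_⟩
  refine h.2 (fun k => m k - κ.inter (rep (D k))) fun k => ?_
  have h1 := (hm k).sub (tendsto_const_nhds (x := (κ.inter (rep (D k)) : ℝ)))
  push_cast
  exact h1

/-- **The exceptional set.** -/
theorem sparse_exceptional (ht : ∀ x, ‖t x‖ ≤ b) (hR0 : 0 ≤ R)
    (hR : ∀ δ : ℝ, 0 < δ → ∀ᶠ ε : ℝ in 𝓝[>] 0,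
      (EP (nx K) ε fun x => ‖tA t κ A x‖ ^ 2) / lam ε ≤ R + δ)
    (hsz : ∀ p, Tendsto (fun ε => gV t (rep p) ε - sz p ε) (𝓝[>] 0) (𝓝 0))
    (hs : ∀ p, ∀ᶠ x : HX K in cofinite, vx x ∉ A → (rep p).trace (vx x) = 0)
    (r k : ℕ) (hk : 1 ≤ k) : ∃ S : Finset P, (S.card : ℝ) ≤ k ^ 2 * r * R ∧
      ∀ p : P, (rep p).inter (rep p) ≤ r → (∀ q ∈ S, (rep p).inter (rep q) = 0) →
        (∃ᶠ ε : ℝ in 𝓝[>] 0, |sz p ε - κ.inter (rep p)| < 1 / k) ∧
        ∀ m : ℤ, Tendsto (sz p) (𝓝[>] 0) (𝓝 m) → m = κ.inter (rep p) := by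
  obtain ⟨U, hU⟩ := exists_ultra
  have htA := norm_tA_le (A := A) ht κ
  choose x hx using fun (π : Mono K) => exists_lim (U := U) (hU (gM_bdd htA π))
  have hG := (gramForm_gen (κ := (0 : Virt K)) htA hU (R := R)
    (by simpa only [tR_zero] using hR) hx).comp rep
  obtain ⟨S, hS, hS2⟩ := hG.exceptional_real hR0 r k hk
  refine ⟨S, hS, fun p h1 h2 => ?_⟩
  have h3 := hS2 p h1 h2
  have h4 := fam_lim (rep := rep) (sz := fun p ε => sz p ε - κ.inter (rep p)) htA (by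
      intro p
      have h1 := (tA_mean ht (κ := κ) (hs p)).add (hsz p)
      rw [add_zero] at h1
      refine h1.congr fun ε => ?_
      ring) p hU fun π _ => hx π
  simp only [zero_inter, Int.cast_zero, sub_zero] at h3
  refine ⟨?_, fun m hm => ?_⟩
  · have h5 : ∀ᶠ ε in (U : Filter ℝ), |sz p ε - κ.inter (rep p)| < 1 / k :=
      h4.abs.eventually_lt_const h3
    exact (h5.frequently).filter_mono hU
  · have h5 := tendsto_nhds_unique h4 ((hm.mono_left hU).sub tendsto_const_nhds)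
    rw [h5] at h3
    refine int_eq_of_abs (h3.trans_le ?_)
    have hk0 : (0 : ℝ) < k := by exact_mod_cast hk
    rw [div_le_one hk0]
    exact_mod_cast hk

/-- **One representation.** -/
theorem sparse_one (ht : ∀ x, ‖t x‖ ≤ b)
    (hR : ∀ δ : ℝ, 0 < δ → ∀ᶠ ε : ℝ in 𝓝[>] 0,
      (EP (nx K) ε fun x => ‖tA t κ A x‖ ^ 2) / lam ε ≤ R + δ)
    (hsz : ∀ p, Tendsto (fun ε => gV t (rep p) ε - sz p ε) (𝓝[>] 0) (𝓝 0))
    (hs : ∀ p, ∀ᶠ x : HX K in cofinite, vx x ∉ A → (rep p).trace (vx x) = 0) (p : P) :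
    (∀ η : ℝ, 0 < η → ∀ᶠ ε : ℝ in 𝓝[>] 0,
      (sz p ε - κ.inter (rep p)) ^ 2 ≤ R * (rep p).inter (rep p) + η) ∧
    ∀ m : ℤ, Tendsto (sz p) (𝓝[>] 0) (𝓝 m) →
      ((m - κ.inter (rep p) : ℤ) : ℝ) ^ 2 ≤ R * (rep p).inter (rep p) := by
  have h := sparse_gram ht hR hsz hs (fun _ : Fin 1 => p) (fun _ => 1)
  simp only [Fin.sum_univ_one, one_mul] at h
  exact ⟨h.1, fun m hm => h.2 (fun _ => m) fun _ => hm⟩

end

end Pool.Agent.X298.HC
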