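import Pool.Agent.X298.HC.GFam

/-! Representations supported on the primes that split completely in a Galois extension. -/

set_option autoImplicit false
set_option linter.unusedSectionVars false
open Filter Topology NumberField Ideal IsDedekindDomain ComplexConjugate Polynomial

namespace Pool.Agent.X298.HC

open Pool.Agent.W540.BE Pool.Agent.H341R2
open Pool.Agent.W353.TP (HX push res sysH)
open Pool.Agent.W353.NF (vx nm_vx vx_asIdeal)

section
variable (K F : Type) [Field K] [NumberField K] [Field F] [NumberField F] [Algebra K F]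

open Classical in
/-- the number of the extensions of a homomorphism -/
noncomputable def cN (x : HX K) : ℕ :=
  (Finset.univ.filter fun u : 𝓞 F →+* ZMod (x.1 : ℕ) => res K u = x.2).card

/-- the restriction of a prime of degree one -/
noncomputable def rs' (y : HX F) : HX K := ⟨y.1, res K y.2⟩

variable {K F}

lemma push_res (g : HX K → ℝ) (x : HX K) :
    push K (fun y : HX F => g (rs' K F y)) x = cN K F x * g x := by
  classical
  unfold push cN
  have : ∀ u ∈ Finset.univ.filter (fun u : 𝓞 F →+* ZMod (x.1 : ℕ) => res K u = x.2),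
      g (rs' K F ⟨x.1, u⟩) = g x := by
    intro u hu
    have h1 := (Finset.mem_filter.1 hu).2
    unfold rs'
    simp only
    rw [h1]
  rw [Finset.sum_congr rfl this, Finset.sum_const, nsmul_eq_mul]

/-- the mean over the primes of `F` -/
lemma EP_res {g : HX K → ℝ} {B : ℝ} (hg : ∀ x, |g x| ≤ B) {ε : ℝ} (hε : 0 < ε) :
    (EP (nx F) ε fun y => g (rs' K F y)) = EP (nx K) ε fun x => cN K F x * g x := by
  have h := Pool.Agent.W353.TP.EH_push (K := K) hε (h := fun y : HX F => g (rs' K F y))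
    (fun y => hg _)
  rw [EPH, h, EPH]
  congr 1
  funext x
  exact push_res g x

lemma cN_le (x : HX K) : (cN K F x : ℝ) ≤ Module.finrank ℚ F := by
  have h := Pool.Agent.W353.TP.push_abs_le (K := K) (F := F) (h := fun _ => (1 : ℝ)) (B := 1)
    (fun _ => by rw [abs_one]) x
  have h2 := push_res (F := F) (fun _ : HX K => (1 : ℝ)) x
  rw [h2, mul_one, mul_one] at h
  exact (le_abs_self _).trans h

lemma finite_zero {D : 𝓞 F} (hD : D ≠ 0) : {y : HX F | y.2 D = 0}.Finite := by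
  have h1 : {v : HeightOneSpectrum (𝓞 F) | v.asIdeal ∣ Ideal.span {D}}.Finite :=
    Ideal.finite_factors (by
      intro h
      exact hD (Ideal.span_singleton_eq_bot.1 h))
  refine (h1.preimage (vx_injective (K := F)).injOn).subset ?_
  intro y hy
  simp only [Set.mem_preimage, Set.mem_setOf_eq]
  rw [Ideal.dvd_span_singleton, vx_asIdeal, RingHom.mem_ker]
  exact hy

/-- in a Galois extension almost every prime with one prime of degree one above it splits
completely -/
lemma cN_gal [IsGalois K F] : ∀ᶠ x : HX K in cofinite,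
    cN K F x ≠ 0 → Module.finrank K F ≤ cN K F x := by
  classical
  have hex : ∀ σ τ : 𝓞 F ≃ₐ[𝓞 K] 𝓞 F, σ ≠ τ → ∃ a : 𝓞 F, σ a - τ a ≠ 0 := by
    intro σ τ h
    by_contra hcon
    push Not at hcon
    exact h (AlgEquiv.ext fun a => sub_eq_zero.1 (hcon a))
  have hfinG : Finite (𝓞 F ≃ₐ[𝓞 K] 𝓞 F) :=
    Finite.of_equiv _ (galRestrict (𝓞 K) K F (𝓞 F)).toEquiv
  have : Fintype (𝓞 F ≃ₐ[𝓞 K] 𝓞 F) := Fintype.ofFinite _
  choose! a ha using hex
  have hbad : {y : HX F | ∃ σ τ : 𝓞 F ≃ₐ[𝓞 K] 𝓞 F, σ ≠ τ ∧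
      y.2 (σ (a σ τ) - τ (a σ τ)) = 0}.Finite := by
    have : {y : HX F | ∃ σ τ : 𝓞 F ≃ₐ[𝓞 K] 𝓞 F, σ ≠ τ ∧ y.2 (σ (a σ τ) - τ (a σ τ)) = 0} ⊆
        ⋃ σ : 𝓞 F ≃ₐ[𝓞 K] 𝓞 F, ⋃ τ : 𝓞 F ≃ₐ[𝓞 K] 𝓞 F,
          (if σ ≠ τ then {y : HX F | y.2 (σ (a σ τ) - τ (a σ τ)) = 0} else ∅) := by
      rintro y ⟨σ, τ, h1, h2⟩
      simp only [Set.mem_iUnion]
      exact ⟨σ, τ, by rw [if_pos h1]; exact h2⟩
    refine (Set.finite_iUnion fun σ => Set.finite_iUnion fun τ => ?_).subset this
    split_ifs with h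
    · exact finite_zero (ha σ τ h)
    · exact Set.finite_empty
  have himg := hbad.image (rs' K F)
  have hev : ∀ᶠ x : HX K in cofinite, x ∉ rs' K F '' {y : HX F |
      ∃ σ τ : 𝓞 F ≃ₐ[𝓞 K] 𝓞 F, σ ≠ τ ∧ y.2 (σ (a σ τ) - τ (a σ τ)) = 0} :=
    himg.eventually_cofinite_notMem
  filter_upwards [hev] with x hx h0
  unfold cN at h0 ⊢
  obtain ⟨u0, hu0⟩ := Finset.card_pos.1 (Nat.pos_of_ne_zero h0)
  have hu1 := (Finset.mem_filter.1 hu0).2
  have hcard : Module.finrank K F = Fintype.card (𝓞 F ≃ₐ[𝓞 K] 𝓞 F) := by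
    rw [← IsGalois.card_aut_eq_finrank K F, ← Nat.card_eq_fintype_card]
    exact Nat.card_congr (galRestrict (𝓞 K) K F (𝓞 F)).toEquiv
  rw [hcard, ← Finset.card_univ]
  refine Finset.card_le_card_of_injOn (fun σ : 𝓞 F ≃ₐ[𝓞 K] 𝓞 F =>
    u0.comp (σ : 𝓞 F →+* 𝓞 F)) ?_ ?_
  · intro σ _
    simp only [Finset.coe_filter, Finset.mem_univ, true_and, Set.mem_setOf_eq]
    rw [← hu1]
    ext z
    simp only [Pool.Agent.W353.TP.res, RingHom.comp_apply]
    congr 1
    exact σ.commutes z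
  · intro σ _ τ _ h
    by_contra hne
    apply hx
    refine ⟨⟨x.1, u0⟩, ⟨σ, τ, hne, ?_⟩, ?_⟩
    · have h2 := congrArg (fun f : 𝓞 F →+* ZMod (x.1 : ℕ) => f (a σ τ)) h
      simp only [RingHom.comp_apply] at h2
      change u0 (σ (a σ τ) - τ (a σ τ)) = 0
      rw [map_sub, sub_eq_zero]
      exact h2
    · unfold rs'
      simp only
      rw [hu1]

/-- `ρ` is a combination of representations induced from extensions of `F` -/
lemma trace_supp {π : Mono K} (h : Nonempty (F →ₐ[K] π.F)) {x : HX K} (hx : cN K F x = 0) :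
    π.trace (vx x) = 0 := by
  classical
  obtain ⟨f⟩ := h
  rw [trace_vx]
  unfold wv push
  refine Finset.sum_eq_zero fun u hu => ?_
  exfalso
  have hu1 := (Finset.mem_filter.1 hu).2
  unfold cN at hx
  rw [Finset.card_eq_zero] at hx
  set g : 𝓞 F →+* 𝓞 π.F := RingOfIntegers.mapRingHom (f : F →+* π.F) with hg
  have h1 : u.comp g ∈ Finset.univ.filter
      (fun u : 𝓞 F →+* ZMod (x.1 : ℕ) => res K u = x.2) := by
    refine Finset.mem_filter.2 ⟨Finset.mem_univ _, ?_⟩
    rw [← hu1]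
    ext z
    simp only [Pool.Agent.W353.TP.res, RingHom.comp_apply]
    congr 1
    apply RingOfIntegers.coe_injective
    rw [hg]
    exact f.commutes (z : K)
  rw [hx] at h1
  exact absurd h1 (Finset.notMem_empty _)

variable (F) in
/-- `ρ` is induced from `F` -/
def IndFrom (ρ : Virt K) : Prop := ∀ π ∈ ρ.support, Nonempty (F →ₐ[K] π.F)

lemma virt_supp {ρ : Virt K} (h : IndFrom F ρ) {x : HX K} (hx : cN K F x = 0) :
    ρ.trace (vx x) = 0 := by
  rw [trace_eq_sum]
  refine Finset.sum_eq_zero fun π hπ => ?_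
  rw [trace_supp (h π hπ) hx, mul_zero]

end

end Pool.Agent.X298.HC
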