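import Pool.Agent.X298.HC.Per

/-! Sums over the nonzero ideals as sums over lattices. -/

set_option autoImplicit false
open Filter Topology NumberField NumberField.InfinitePlace NumberField.Units Module Ideal
open nonZeroDivisors

namespace Pool.Agent.X298.HC

open Pool.Agent.H484R2 Pool.Agent.W45.Ch

variable {K : Type} [Field K] [NumberField K]

section general
variable (l : NZI K → ℂ) (J : Ideal (𝓞 K)) (hJ : J ≠ ⊥)

/-- the element with coordinates `a` -/
noncomputable def mkX (a : Idx K → ℤ) (ha : a ≠ 0) : XJ K J :=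
  ⟨(xJ K J hJ a : 𝓞 K), (xJ K J hJ a).2, by
    have := xK_ne_zero K J hJ ha
    unfold xK at this
    exact RingOfIntegers.coe_ne_zero_iff.mp this⟩

open scoped Classical in
/-- the weight of the ideal belonging to `a` -/
noncomputable def lamJ (a : Idx K → ℤ) : ℂ :=
  if h : a = 0 then 0 else l (qI K J hJ (mkX J hJ a h))

lemma lamJ_zero : lamJ l J hJ 0 = 0 := by simp [lamJ]

lemma lamJ_ne {a : Idx K → ℤ} (ha : a ≠ 0) : lamJ l J hJ a = l (qI K J hJ (mkX J hJ a ha)) := by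
  simp [lamJ, ha]

variable {l}

lemma norm_lamJ_le (hl : ∀ I, ‖l I‖ ≤ 1) (a : Idx K → ℤ) : ‖lamJ l J hJ a‖ ≤ 1 := by
  unfold lamJ
  split_ifs
  · simp
  · exact hl _

lemma hasSum_XJ (hl : ∀ I, ‖l I‖ ≤ 1) {s : ℂ} (hs : 1 < s.re) :
    HasSum (fun x : XJ K J => l (qI K J hJ x) * Fw K (x.1 : K) s)
      (∑' a, lamJ l J hJ a * gJ K J hJ a s) := by
  classical
  have h := (summable_weighted (dataJ K J hJ) hs (lamJ l J hJ)
    (norm_lamJ_le J hJ hl)).hasSum
  let e : {a : Idx K → ℤ // a ≠ 0} ≃ XJ K J :=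
    { toFun := fun a => mkX J hJ a.1 a.2
      invFun := fun x => ⟨(bJ K J hJ).equivFun ⟨x.1, x.2.1⟩, by
        intro h0
        have := (LinearEquiv.map_eq_zero_iff _).mp h0
        exact x.2.2 (congrArg Subtype.val this)⟩
      left_inv := by
        intro a
        apply Subtype.ext
        simp only [mkX, xJ]
        exact LinearEquiv.apply_symm_apply _ _
      right_inv := by
        intro x
        apply Subtype.ext
        simp only [mkX, xJ]
        rw [LinearEquiv.symm_apply_apply] }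
  rw [← e.hasSum_iff]
  have h2 : HasSum ((fun a : Idx K → ℤ => lamJ l J hJ a * gJ K J hJ a s) ∘
      (Subtype.val : {a : Idx K → ℤ // a ≠ 0} → _))
      (∑' a, lamJ l J hJ a * gJ K J hJ a s) := by
    refine (Function.Injective.hasSum_iff Subtype.val_injective ?_).mpr h
    intro a ha
    have : a = 0 := by
      by_contra h0
      exact ha ⟨⟨a, h0⟩, rfl⟩
    rw [this, gJ_zero, mul_zero]
  have hfun : (fun x : XJ K J => l (qI K J hJ x) * Fw K (x.1 : K) s) ∘ e =
      ((fun a : Idx K → ℤ => lamJ l J hJ a * gJ K J hJ a s) ∘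
      (Subtype.val : {a : Idx K → ℤ // a ≠ 0} → _)) := by
    funext a
    simp only [Function.comp_apply]
    rw [gJ_ne K J hJ a.2, lamJ_ne _ J hJ a.2]
    rfl
  rw [hfun]
  exact h2

/-- the sum over one ideal class -/
lemma hasSum_class (hl : ∀ I, ‖l I‖ ≤ 1) (C : ClassGroup (𝓞 K))
    (hC : ClassGroup.mk0 ⟨J, mem_nonZeroDivisors_of_ne_zero hJ⟩ = C⁻¹) {s : ℂ} (hs : 1 < s.re) :
    HasSum (fun I : NZI K => open scoped Classical in
      if cls K I = C then l I * (absNorm I.1 : ℂ) ^ (-s) else 0)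
      ((absNorm J : ℂ) ^ s / (torsionOrder K : ℂ) *
        ∑' a, lamJ l J hJ a * gJ K J hJ a s) := by
  classical
  have h2 := (hasSum_XJ J hJ hl hs).tsum_fiberwise (qI K J hJ)
  have hJ0 : (absNorm J : ℂ) ≠ 0 := by
    have : absNorm J ≠ 0 := by rwa [Ne, absNorm_eq_zero_iff]
    exact_mod_cast this
  have hw : (torsionOrder K : ℂ) ≠ 0 := by exact_mod_cast torsionOrder_ne_zero K
  have h3 := h2.mul_left ((absNorm J : ℂ) ^ s / (torsionOrder K : ℂ))
  have hf : (fun I : NZI K => if cls K I = C then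
        l I * (absNorm I.1 : ℂ) ^ (-s) else 0) =
      fun I : NZI K => (absNorm J : ℂ) ^ s / (torsionOrder K : ℂ) *
        ∑' b : (qI K J hJ ⁻¹' {I} : Set (XJ K J)),
          l (qI K J hJ (b : XJ K J)) * Fw K ((b : XJ K J).1 : K) s := by
    funext I
    have h4 : ∑' b : (qI K J hJ ⁻¹' {I} : Set (XJ K J)),
          l (qI K J hJ (b : XJ K J)) * Fw K ((b : XJ K J).1 : K) s =
        l I *
        ∑' b : (qI K J hJ ⁻¹' {I} : Set (XJ K J)), Fw K ((b : XJ K J).1 : K) s := by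
      rw [← tsum_mul_left]
      refine tsum_congr fun b => ?_
      have h5 : qI K J hJ (b : XJ K J) = I := b.2
      rw [h5]
    rw [h4]
    split_ifs with hI
    · rw [← principal_iff K J hJ C hC] at hI
      obtain ⟨x₀, hx₀⟩ := hI
      rw [tsum_fiber_pos K J hJ I x₀ hx₀]
      rw [Complex.cpow_neg (absNorm J : ℂ)]
      have hJs : (absNorm J : ℂ) ^ s ≠ 0 := by
        rw [Complex.cpow_def_of_ne_zero hJ0]
        exact Complex.exp_ne_zero _
      field_simp
    · rw [← principal_iff K J hJ C hC] at hI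
      rw [tsum_fiber_neg K J hJ I hI, mul_zero, mul_zero]
  rw [hf]
  exact h3

/-- sum over all nonzero ideals -/
lemma hasSum_ideals (hl : ∀ I, ‖l I‖ ≤ 1) {s : ℂ} (hs : 1 < s.re) :
    HasSum (fun I : NZI K => l I * (absNorm I.1 : ℂ) ^ (-s))
      (∑ C : ClassGroup (𝓞 K), (absNorm (rep K C).1 : ℂ) ^ s / (torsionOrder K : ℂ) *
        ∑' a, lamJ l (rep K C).1 (rep K C).2 a * gJ K (rep K C).1 (rep K C).2 a s) := by
  classical
  have h := hasSum_sum (s := (Finset.univ : Finset (ClassGroup (𝓞 K))))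
    (fun C _ => hasSum_class (rep K C).1 (rep K C).2 hl C (rep_spec K C) hs)
  have hf : (fun I : NZI K => l I * (absNorm I.1 : ℂ) ^ (-s)) =
      fun I : NZI K => ∑ C : ClassGroup (𝓞 K), if cls K I = C then
        l I * (absNorm I.1 : ℂ) ^ (-s) else 0 := by
    funext I
    rw [Finset.sum_ite_eq]
    simp
  rw [hf]
  exact h

end general

section hecke
variable (ψ : HeckeChar K) (J : Ideal (𝓞 K)) (hJ : J ≠ ⊥)

lemma norm_le_one (I : Ideal (𝓞 K)) : ‖ψ.toFun I‖ ≤ 1 := by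
  by_cases h : IsCoprime I (span {(ψ.modulus : 𝓞 K)})
  · exact (ψ.norm_eq_one I h).le
  · rw [ψ.eq_zero I h, norm_zero]
    exact zero_le_one

/-- the values on the nonzero ideals -/
noncomputable def vI (I : NZI K) : ℂ := ψ.toFun I.1

lemma norm_vI_le (I : NZI K) : ‖vI ψ I‖ ≤ 1 := norm_le_one ψ I.1

/-- the periodic weight -/
noncomputable def Wt (a : Idx K → ℤ) : ℂ :=
  lamJ (vI ψ) J hJ a / archimedean ψ.n ψ.t (xK K J hJ a)

lemma Wt_zero : Wt ψ J hJ 0 = 0 := by
  unfold Wt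
  rw [lamJ_zero, zero_div]

lemma norm_Wt_le (a : Idx K → ℤ) : ‖Wt ψ J hJ a‖ ≤ 1 := by
  by_cases ha : a = 0
  · subst ha
    rw [Wt_zero, norm_zero]
    exact zero_le_one
  · unfold Wt
    rw [norm_div, norm_arch _ _ (xK_ne_zero K J hJ ha), div_one]
    exact norm_lamJ_le J hJ (norm_vI_le ψ) a

lemma Wt_mul_gX (a : Idx K → ℤ) (s : ℂ) :
    Wt ψ J hJ a * gX ψ.n ψ.t J hJ a s = lamJ (vI ψ) J hJ a * gJ K J hJ a s := by
  by_cases ha : a = 0
  · subst ha
    rw [Wt_zero, lamJ_zero, zero_mul, zero_mul]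
  · unfold Wt gX
    have := arch_ne_zero ψ.n ψ.t (xK_ne_zero K J hJ ha)
    field_simp

lemma xJ_add (a b : Idx K → ℤ) : (xJ K J hJ (a + b) : 𝓞 K) = xJ K J hJ a + xJ K J hJ b := by
  unfold xJ
  rw [map_add]
  rfl

lemma xJ_smul (m : ℤ) (a : Idx K → ℤ) : (xJ K J hJ (m • a) : 𝓞 K) = m * xJ K J hJ a := by
  unfold xJ
  rw [map_smul]
  simp

/-- the weight is periodic modulo the modulus -/
lemma Wt_period (a y : Idx K → ℤ) :
    Wt ψ J hJ (a + (ψ.modulus : ℤ) • y) = Wt ψ J hJ a := by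
  have hx : (xJ K J hJ (a + (ψ.modulus : ℤ) • y) : 𝓞 K) =
      (xJ K J hJ a : 𝓞 K) + (ψ.modulus : 𝓞 K) * (xJ K J hJ y : 𝓞 K) := by
    rw [xJ_add, xJ_smul]
    push_cast
    rfl
  have k0 : ∀ {z : 𝓞 K}, z ≠ 0 → (z : K) ≠ 0 := fun hz => RingOfIntegers.coe_ne_zero_iff.mpr hz
  -- multiples of the modulus have weight zero
  have hzero : ∀ b : Idx K → ℤ, Wt ψ J hJ ((ψ.modulus : ℤ) • b) = 0 := by
    intro b
    by_cases hb : (ψ.modulus : ℤ) • b = 0
    · rw [hb, Wt_zero]
    · unfold Wt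
      rw [lamJ_ne _ J hJ hb]
      have h1 : vI ψ (qI K J hJ (mkX J hJ ((ψ.modulus : ℤ) • b) hb)) = 0 := by
        refine ψ.eq_zero _ ?_
        intro hc
        set I := qI K J hJ (mkX J hJ ((ψ.modulus : ℤ) • b) hb) with hI
        have h2 : I.1 * J = span {(xJ K J hJ ((ψ.modulus : ℤ) • b) : 𝓞 K)} :=
          qI_spec K J hJ (mkX J hJ ((ψ.modulus : ℤ) • b) hb)
        have h3 : I.1 * J ≤ span {(ψ.modulus : 𝓞 K)} * J := by
          rw [h2, Ideal.span_singleton_le_iff_mem, xJ_smul]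
          push_cast
          exact Ideal.mul_mem_mul (Ideal.mem_span_singleton_self _) (xJ K J hJ b).2
        have h4 : span {(ψ.modulus : 𝓞 K)} ∣ I.1 := by
          have := Ideal.dvd_iff_le.mpr h3
          exact (mul_dvd_mul_iff_right hJ).1 this
        rw [Ideal.isCoprime_iff_sup_eq] at hc
        have h5 : I.1 ≤ span {(ψ.modulus : 𝓞 K)} := Ideal.le_of_dvd h4
        rw [sup_eq_right.2 h5] at hc
        have h6 : absNorm (span {(ψ.modulus : 𝓞 K)}) = 1 := by
          rw [Ideal.absNorm_eq_one_iff]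
          exact hc
        rw [Ideal.absNorm_span_natCast] at h6
        have h7 : ψ.modulus ∣ 1 := by
          rw [← h6]
          exact dvd_pow_self _ (by
            have := Module.finrank_pos (R := ℤ) (M := 𝓞 K)
            omega)
        rw [Nat.dvd_one] at h7
        have := ψ.one_lt
        omega
      rw [h1, zero_div]
  by_cases ha : a = 0
  · subst ha
    rw [zero_add, hzero, Wt_zero]
  by_cases hb : a + (ψ.modulus : ℤ) • y = 0
  · rw [hb, Wt_zero]
    have : a = (ψ.modulus : ℤ) • (-y) := by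
      rw [smul_neg]
      exact eq_neg_of_add_eq_zero_left hb
    rw [this, hzero]
  · unfold Wt
    rw [lamJ_ne _ J hJ ha, lamJ_ne _ J hJ hb]
    have h1 := qI_spec K J hJ (mkX J hJ a ha)
    have h2 := qI_spec K J hJ (mkX J hJ _ hb)
    have h3 := val_rel ψ hJ (qI K J hJ (mkX J hJ a ha)).2 h1 h2 (xJ K J hJ y).2 hx
      (mkX J hJ a ha).2.2 (mkX J hJ _ hb).2.2
    have a1 := arch_ne_zero ψ.n ψ.t (xK_ne_zero K J hJ ha)
    have a2 := arch_ne_zero ψ.n ψ.t (xK_ne_zero K J hJ hb)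
    rw [div_eq_div_iff a2 a1]
    exact h3

/-- The Dirichlet series of a Hecke character. -/
noncomputable def LS (s : ℂ) : ℂ := ∑' I : NZI K, vI ψ I * (absNorm I.1 : ℂ) ^ (-s)

lemma LS_eq {s : ℂ} (hs : 1 < s.re) : LS ψ s =
    ∑ C : ClassGroup (𝓞 K), (absNorm (rep K C).1 : ℂ) ^ s / (torsionOrder K : ℂ) *
        ∑' a, Wt ψ (rep K C).1 (rep K C).2 a * gX ψ.n ψ.t (rep K C).1 (rep K C).2 a s := by
  rw [LS, (hasSum_ideals (norm_vI_le ψ) hs).tsum_eq]
  refine Finset.sum_congr rfl fun C _ => ?_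
  congr 1
  exact tsum_congr fun a => (Wt_mul_gX ψ _ _ a s).symm

end hecke

end Pool.Agent.X298.HC
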