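import Pool.Agent.X298.HC.Link

/-! The sizes of the twists and of the products. -/

set_option autoImplicit false
set_option linter.unusedSectionVars false
open Filter Topology NumberField Ideal IsDedekindDomain ComplexConjugate Polynomial

namespace Pool.Agent.X298.HC

open Pool.Agent.W540.BE Pool.Agent.H341R2
open Pool.Agent.W353.EF (IsFrobenius)
open Pool.Agent.W353.EH (edgePoint size)
open Pool.Agent.W353.PV (Eig alp pick_spec)

variable {K : Type} [Field K] [NumberField K] {n n' : ℕ}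

theorem edge_eq (i : ℕ) (τ : ℝ) :
    ((((i : ℝ) / 2 : ℝ) : ℂ) + 1 + (τ : ℂ) * Complex.I) = edgePoint i τ := by
  unfold edgePoint
  push_cast
  ring

/-- almost all values are nonzero -/
lemma ae_ne (ψ : HeckeChar K) : ∀ᶠ v : HeightOneSpectrum (𝓞 K) in cofinite,
    ψ.toFun v.asIdeal ≠ 0 := by
  have hM : span {(ψ.modulus : 𝓞 K)} ≠ 0 := by
    rw [Ne, Ideal.zero_eq_bot, Ideal.span_singleton_eq_bot]
    have := ψ.one_lt
    have : ψ.modulus ≠ 0 := by omega
    exact_mod_cast this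
  rw [Filter.eventually_cofinite]
  refine (Ideal.finite_factors hM).subset fun v hv => ?_
  rw [Set.mem_ofPred_eq, not_not] at hv
  rw [Set.mem_ofPred_eq]
  by_contra hd
  have hc : IsCoprime v.asIdeal (span {(ψ.modulus : 𝓞 K)}) := by
    rw [Ideal.isCoprime_iff_sup_eq]
    have hmax := v.isMaximal
    by_contra h1
    have h2 := hmax.eq_of_le h1 le_sup_left
    exact hd (Ideal.dvd_iff_le.2 (by rw [h2]; exact le_sup_right))
  have := ψ.norm_eq_one _ hc
  rw [hv, norm_zero] at this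
  exact zero_ne_one this

section
variable (X : Set (MvPolynomial (Fin n) (𝓞 K))) (d a N : ℕ)

/-- the normalised trace -/
noncomputable def tX (v : HeightOneSpectrum (𝓞 K)) : ℂ :=
  T ((a : ℝ) / 2) (fun v => alp X d a N K v) v

lemma norm_tX_le (v : HeightOneSpectrum (𝓞 K)) : ‖tX X d a N v‖ ≤ N := by
  have := norm_T_le ((a : ℝ) / 2) (fun v => alp X d a N K v) v
  rwa [Fintype.card_fin] at this

/-- the normalised mean -/
noncomputable def yX (ψ : HeckeChar K) (τ ε : ℝ) : ℝ :=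
  (EP (nm K) ε fun v => (tX X d a N v * av ψ τ v).re) / lam ε

end

variable {X : Set (MvPolynomial (Fin n) (𝓞 K))} {d a N : ℕ}

/-- a factor of the eigenvalues comes out of the normalised sum -/
lemma T_mul {ι : Type} [Fintype ι] {w : ℝ} {γ : HeightOneSpectrum (𝓞 K) → ι → ℂ}
    {v : HeightOneSpectrum (𝓞 K)} (h : ∀ c, ‖γ v c‖ = (nm K v : ℝ) ^ w) :
    T w γ v = (∑ c, γ v c) * ((nm K v : ℕ) : ℂ) ^ (-(w : ℂ)) := by
  unfold T
  rw [if_pos h]

/-- the size of a twist -/
theorem twist_size (ha : a ≤ 2 * d) {ψ : HeckeChar K} {τ : ℝ}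
    {B : HeightOneSpectrum (𝓞 K) → ℂ[X]} (hB : IsTwist X d a N ψ τ B) :
    (∀ᶠ ε : ℝ in 𝓝[>] 0, Pool.Agent.W353.EF.LFun B (edgePoint a τ + ε) ≠ 0) ∧
    Tendsto (fun ε : ℝ => yX X d a N ψ τ ε - size a τ B ε) (𝓝[>] 0) (𝓝 0) := by
  have hg : ∀ᶠ v in cofinite, (∀ j, ‖alp X d a N K v j‖ = (nm K v : ℝ) ^ ((a : ℝ) / 2)) ∧
      ∀ z : ℂ, (B v).eval z = ∏ j, (1 - (ψ.toFun v.asIdeal * alp X d a N K v j) * z) := by
    refine hB.1.mono fun v hv => ?_
    obtain ⟨α, h1, h2⟩ := hv
    have h3 : Eig X d a v (alp X d a N K v) := pick_spec ⟨α, h1⟩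
    refine ⟨fun j => h3.norm j, fun z => ?_⟩
    rw [h2 z]
    have h1' : Eig X d a v α := h1
    have h4 := congrArg (fun s : Multiset ℂ =>
      (s.map fun a => (1 - (ψ.toFun v.asIdeal * a) * z)).prod) (h1'.unique' ha h3)
    simp only [Multiset.map_map] at h4
    exact h4
  set γ : HeightOneSpectrum (𝓞 K) → Fin N → ℂ := fun v j =>
    ψ.toFun v.asIdeal * alp X d a N K v j with hγ
  have h := link ((a : ℝ) / 2) τ γ
    (by
      filter_upwards [hg, ae_ne ψ] with v h1 h2
      intro j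
      rw [hγ]
      simp only
      rw [norm_mul, norm_of_ne ψ h2, one_mul]
      exact h1.1 j) B (hg.mono fun v hv => hv.2) (by
      intro v
      rw [edge_eq]
      exact hB.2 v)
  simp only [edge_eq] at h
  refine ⟨h.1, ?_⟩
  have hae : Tendsto (fun ε : ℝ => (EP (nm K) ε fun v => (tX X d a N v * av ψ τ v).re) / lam ε -
      (EP (nm K) ε fun v => (T ((a : ℝ) / 2) γ v * zt τ v).re) / lam ε) (𝓝[>] 0) (𝓝 0) := by
    refine EP_ae (B := N) (fun v => ?_) (fun v => ?_) ?_
    · refine (Complex.abs_re_le_norm _).trans ?_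
      rw [norm_mul]
      calc _ ≤ (N : ℝ) * 1 := mul_le_mul (norm_tX_le X d a N v) (norm_av_le _ _ _)
            (norm_nonneg _) (Nat.cast_nonneg _)
        _ = N := mul_one _
    · refine (Complex.abs_re_le_norm _).trans ?_
      rw [norm_mul, norm_zt, mul_one]
      have := norm_T_le ((a : ℝ) / 2) γ v
      rwa [Fintype.card_fin] at this
    · filter_upwards [hg, ae_ne ψ] with v h1 h2
      have h3 : ∀ j, ‖γ v j‖ = (nm K v : ℝ) ^ ((a : ℝ) / 2) := by
        intro j
        rw [hγ]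
        simp only
        rw [norm_mul, norm_of_ne ψ h2, one_mul]
        exact h1.1 j
      rw [T_mul h3, tX, T_mul h1.1, av_eq, hγ]
      simp only
      rw [← Finset.mul_sum]
      congr 1
      ring
  have := hae.add h.2
  rw [add_zero] at this
  refine this.congr fun ε => ?_
  unfold yX size
  ring

/-- the L-function itself is the twist by a trivial character -/
theorem twist_of_euler {ψ : HeckeChar K} (hψ : ψ.IsTrivial) {τ : ℝ}
    {B : HeightOneSpectrum (𝓞 K) → ℂ[X]}
    (hB : Pool.Agent.W353.EH.IsEulerSystem X d a N τ B) : IsTwist X d a N ψ τ B := by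
  refine ⟨?_, hB.2⟩
  filter_upwards [hB.1, ae_ne ψ] with v h1 h2
  obtain ⟨α, h3, h4⟩ := h1
  refine ⟨α, h3, fun z => ?_⟩
  rw [h4 z, hψ _ h2]
  simp only [one_mul]

/-- the means for trivial characters -/
theorem yX_trivial {ψ φ : HeckeChar K} (hψ : ψ.IsTrivial) (hφ : φ.IsTrivial) (τ : ℝ) :
    Tendsto (fun ε : ℝ => yX X d a N ψ τ ε - yX X d a N φ τ ε) (𝓝[>] 0) (𝓝 0) := by
  refine EP_ae (B := N) (fun v => ?_) (fun v => ?_) ?_
  · refine (Complex.abs_re_le_norm _).trans ?_
    rw [norm_mul]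
    calc _ ≤ (N : ℝ) * 1 := mul_le_mul (norm_tX_le X d a N v) (norm_av_le _ _ _)
          (norm_nonneg _) (Nat.cast_nonneg _)
      _ = N := mul_one _
  · refine (Complex.abs_re_le_norm _).trans ?_
    rw [norm_mul]
    calc _ ≤ (N : ℝ) * 1 := mul_le_mul (norm_tX_le X d a N v) (norm_av_le _ _ _)
          (norm_nonneg _) (Nat.cast_nonneg _)
      _ = N := mul_one _
  · filter_upwards [ae_ne ψ, ae_ne φ] with v h1 h2
    rw [av_eq, av_eq, hψ _ h1, hφ _ h2]

/-- the second moment -/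
theorem square_size (ha : a ≤ 2 * d) {B : HeightOneSpectrum (𝓞 K) → ℂ[X]}
    (hB : IsSquare X d a N B) :
    (∀ᶠ ε : ℝ in 𝓝[>] 0, Pool.Agent.W353.EF.LFun B (edgePoint (2 * a) 0 + ε) ≠ 0) ∧
    Tendsto (fun ε : ℝ => (EP (nm K) ε fun v => ‖tX X d a N v‖ ^ 2) / lam ε -
      size (2 * a) 0 B ε) (𝓝[>] 0) (𝓝 0) := by
  have hg : ∀ᶠ v in cofinite, Eig X d a v (alp X d a N K v) ∧
      ∀ z : ℂ, (B v).eval z = ∏ j, ∏ k, (1 - alp X d a N K v j * alp X d a N K v k * z) := by
    refine hB.1.mono fun v hv => ?_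
    obtain ⟨α, h1, h2⟩ := hv
    have h3 : Eig X d a v (alp X d a N K v) := pick_spec ⟨α, h1⟩
    refine ⟨h3, fun z => ?_⟩
    rw [h2 z]
    have h1' : Eig X d a v α := h1
    have hu := h1'.unique' ha h3
    have h4 := congrArg (fun s : Multiset ℂ =>
      (s.map fun x => (s.map fun y => (1 - x * y * z)).prod).prod) hu
    simp only [Multiset.map_map] at h4
    exact h4
  set γ : HeightOneSpectrum (𝓞 K) → Fin N × Fin N → ℂ := fun v c =>
    alp X d a N K v c.1 * alp X d a N K v c.2 with hγ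
  have hnorm : ∀ᶠ v in cofinite, ∀ c, ‖γ v c‖ = (nm K v : ℝ) ^ (((2 * a : ℕ) : ℝ) / 2) := by
    refine hg.mono fun v hv c => ?_
    rw [hγ]
    simp only
    have h0 : (0 : ℝ) < nm K v := by exact_mod_cast nm_pos v
    have e1 := hv.1.norm c.1
    have e2 := hv.1.norm c.2
    change ‖alp X d a N K v c.1‖ = (nm K v : ℝ) ^ ((a : ℝ) / 2) at e1
    change ‖alp X d a N K v c.2‖ = (nm K v : ℝ) ^ ((a : ℝ) / 2) at e2
    rw [norm_mul, e1, e2, ← Real.rpow_add h0]
    congr 1
    push_cast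
    ring
  have h := link (((2 * a : ℕ) : ℝ) / 2) 0 γ hnorm B (by
      refine hg.mono fun v hv z => ?_
      rw [hv.2 z, Fintype.prod_prod_type]) (by
      intro v
      rw [edge_eq]
      exact hB.2 v)
  rw [edge_eq] at h
  refine ⟨h.1, ?_⟩
  have hae : Tendsto (fun ε : ℝ => (EP (nm K) ε fun v => ‖tX X d a N v‖ ^ 2) / lam ε -
      (EP (nm K) ε fun v => (T (((2 * a : ℕ) : ℝ) / 2) γ v * zt 0 v).re) / lam ε) (𝓝[>] 0)
      (𝓝 0) := by
    refine EP_ae (B := (N : ℝ) * N) (fun v => ?_) (fun v => ?_) ?_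
    · rw [abs_of_nonneg (sq_nonneg _), sq]
      exact mul_le_mul (norm_tX_le X d a N v) (norm_tX_le X d a N v) (norm_nonneg _)
        (Nat.cast_nonneg _)
    · refine (Complex.abs_re_le_norm _).trans ?_
      rw [norm_mul, norm_zt, mul_one]
      refine (norm_T_le (((2 * a : ℕ) : ℝ) / 2) γ v).trans (le_of_eq ?_)
      rw [Fintype.card_prod, Fintype.card_fin, Nat.cast_mul]
    · filter_upwards [hg, hnorm] with v h1 h2
      have e1 : ∀ j, ‖alp X d a N K v j‖ = (nm K v : ℝ) ^ ((a : ℝ) / 2) := fun j => h1.1.norm j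
      have him := h1.1.im ha
      have hqc : ((nm K v : ℕ) : ℂ) ≠ 0 := by exact_mod_cast (nm_pos v).ne'
      have h0 : (0 : ℝ) ≤ nm K v := by positivity
      have ht : tX X d a N v = (((∑ j, alp X d a N K v j).re *
          (nm K v : ℝ) ^ (-((a : ℝ) / 2)) : ℝ) : ℂ) := by
        rw [tX, T_mul e1, Complex.ofReal_mul, Complex.ofReal_cpow h0]
        congr 1
        · apply Complex.ext
          · rw [Complex.ofReal_re]
          · rw [Complex.ofReal_im]
            exact him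
        · push_cast
          rfl
      have hT : T (((2 * a : ℕ) : ℝ) / 2) γ v * zt 0 v = tX X d a N v * tX X d a N v := by
        rw [T_mul h2, tX, T_mul e1, hγ]
        unfold zt
        simp only
        rw [Complex.ofReal_zero, zero_mul, neg_zero, Complex.cpow_zero, mul_one,
          Fintype.sum_prod_type]
        simp only
        rw [← Finset.sum_mul_sum]
        have e3 : ((nm K v : ℕ) : ℂ) ^ (-((((2 * a : ℕ) : ℝ) / 2 : ℝ) : ℂ)) =
            ((nm K v : ℕ) : ℂ) ^ (-((((a : ℕ) : ℝ) / 2 : ℝ) : ℂ)) *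
            ((nm K v : ℕ) : ℂ) ^ (-((((a : ℕ) : ℝ) / 2 : ℝ) : ℂ)) := by
          rw [← Complex.cpow_add _ _ hqc]
          congr 1
          push_cast
          ring
        rw [e3]
        ring
      rw [hT, ht, ← Complex.ofReal_mul, Complex.ofReal_re, Complex.norm_real, Real.norm_eq_abs,
        sq_abs, sq]
  have := hae.add h.2
  rw [add_zero] at this
  refine this.congr fun ε => ?_
  unfold size
  ring

end Pool.Agent.X298.HC
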