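import Pool.Agent.X298.HC.ProdSize

/-! Limits along an ultrafilter. -/

set_option autoImplicit false
set_option linter.unusedSectionVars false
open Filter Topology NumberField Ideal IsDedekindDomain ComplexConjugate Polynomial

namespace Pool.Agent.X298.HC

open Pool.Agent.W540.BE Pool.Agent.H341R2

variable {K : Type} [Field K] [NumberField K] {n : ℕ}

/-- limits of bounded functions along an ultrafilter -/
lemma exists_lim {U : Ultrafilter ℝ} {f : ℝ → ℝ} {C : ℝ} (h : ∀ᶠ ε in (U : Filter ℝ), |f ε| ≤ C) :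
    ∃ x : ℝ, Tendsto f U (𝓝 x) := by
  have h1 : ∀ᶠ ε in (U : Filter ℝ), f ε ∈ Set.Icc (-C) C := by
    filter_upwards [h] with ε hε
    exact abs_le.1 hε
  obtain ⟨x, -, hx⟩ := isCompact_Icc.ultrafilter_le_nhds (U.map f) (by
    rw [le_principal_iff]
    exact h1)
  exact ⟨x, hx⟩

section
variable (X : Set (MvPolynomial (Fin n) (𝓞 K))) (d a N : ℕ)

lemma yX_bdd (ψ : HeckeChar K) (τ : ℝ) : ∀ᶠ ε : ℝ in 𝓝[>] 0, |yX X d a N ψ τ ε| ≤ 2 * N := by
  have hN : NormSys (nm K) := normSys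
  filter_upwards [(EP_one K).eventually_lt_const (show (1 : ℝ) < 2 by norm_num),
    self_mem_nhdsWithin, lam_tendsto.eventually_gt_atTop 0] with ε h1 h2 h3
  have hε : (0 : ℝ) < ε := h2
  have hb1 : ∀ v, |(tX X d a N v * av ψ τ v).re| ≤ N := by
    intro v
    refine (Complex.abs_re_le_norm _).trans ?_
    rw [norm_mul]
    calc _ ≤ (N : ℝ) * 1 := mul_le_mul (norm_tX_le X d a N v) (norm_av_le _ _ _)
          (norm_nonneg _) (Nat.cast_nonneg _)
      _ = N := mul_one _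
  have h8 : |EP (nm K) ε fun v => (tX X d a N v * av ψ τ v).re| ≤ N * EP (nm K) ε fun _ => 1 := by
    rw [abs_le]
    constructor
    · have h9 := EP_le hN hε (φ := fun v => (-1) * (tX X d a N v * av ψ τ v).re) (B := N)
        (fun v => by rw [abs_mul, abs_neg, abs_one, one_mul]; exact hb1 v) (b := N)
        (fun v => by have := (abs_le.1 (hb1 v)).1; linarith)
      rw [EP_const_mul] at h9
      linarith
    · exact EP_le hN hε hb1 fun v => (le_abs_self _).trans (hb1 v)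
  unfold yX
  rw [abs_div, abs_of_pos h3, div_le_iff₀ h3]
  refine h8.trans ?_
  rw [div_lt_iff₀ h3] at h1
  have hm0 : (0 : ℝ) ≤ N := Nat.cast_nonneg _
  nlinarith

lemma sq_mean : ∀ δ : ℝ, 0 < δ → ∀ᶠ ε : ℝ in 𝓝[>] 0,
    (EP (nm K) ε fun v => ‖tX X d a N v‖ ^ 2) / lam ε ≤ (N : ℝ) ^ 2 + δ := by
  have hN : NormSys (nm K) := normSys
  intro δ hδ
  have h0 : Tendsto (fun ε : ℝ => (N : ℝ) ^ 2 * ((EP (nm K) ε fun _ => 1) / lam ε)) (𝓝[>] 0)
      (𝓝 ((N : ℝ) ^ 2 * 1)) := (EP_one K).const_mul _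
  filter_upwards [h0.eventually_lt_const (show (N : ℝ) ^ 2 * 1 < (N : ℝ) ^ 2 + δ by linarith),
    self_mem_nhdsWithin, lam_tendsto.eventually_gt_atTop 0] with ε h1 h2 h3
  have hε : (0 : ℝ) < ε := h2
  have hb : ∀ v, |‖tX X d a N v‖ ^ 2| ≤ (N : ℝ) ^ 2 := by
    intro v
    rw [abs_of_nonneg (sq_nonneg _)]
    exact pow_le_pow_left₀ (norm_nonneg _) (norm_tX_le X d a N v) 2
  have h4 : (EP (nm K) ε fun v => ‖tX X d a N v‖ ^ 2) ≤ (N : ℝ) ^ 2 * EP (nm K) ε fun _ => 1 :=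
    EP_le hN hε hb fun v => (le_abs_self _).trans (hb v)
  calc (EP (nm K) ε fun v => ‖tX X d a N v‖ ^ 2) / lam ε
      ≤ ((N : ℝ) ^ 2 * EP (nm K) ε fun _ => 1) / lam ε := div_le_div_of_nonneg_right h4 h3.le
    _ = (N : ℝ) ^ 2 * ((EP (nm K) ε fun _ => 1) / lam ε) := by ring
    _ ≤ _ := h1.le

variable {X d a N}

/-- Bessel's inequality for the limits, with a bound `R` of the second moment -/
theorem bessel_lim {κ : Type*} [Fintype κ] (ψ : κ → HeckeChar K) (τ : κ → ℝ)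
    (hsep : ∀ k l, k ≠ l → Distinct (ψ k) (ψ l) (τ k) (τ l)) {U : Ultrafilter ℝ}
    (hU : (U : Filter ℝ) ≤ 𝓝[>] 0) {R : ℝ} (hR0 : 0 ≤ R)
    (hR : ∀ δ : ℝ, 0 < δ → ∀ᶠ ε : ℝ in 𝓝[>] 0,
      (EP (nm K) ε fun v => ‖tX X d a N v‖ ^ 2) / lam ε ≤ R + δ)
    (x : κ → ℝ) (hx : ∀ k, Tendsto (yX X d a N (ψ k) (τ k)) U (𝓝 (x k)))
    (J : Finset κ) (hJ : ∀ k ∈ J, ∀ l ∈ J, k ≠ l →
      ¬ SquaresDistinct (ψ k) (ψ l) (τ k) (τ l) → 0 ≤ x k * x l) :
    ∑ k ∈ J, x k ^ 2 ≤ R := by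
  classical
  set c : κ → ℝ := fun k => if k ∈ J then x k else 0 with hc
  obtain ⟨C, hC⟩ : ∃ C : ℝ, ∀ k, |c k| ≤ C := by
    refine ⟨∑ k, |c k|, fun k => ?_⟩
    exact Finset.single_le_sum (f := fun k => |c k|) (fun _ _ => abs_nonneg _)
      (Finset.mem_univ k)
  have h1 : ∀ η : ℝ, 0 < η → (∑ k, c k * x k) ^ 2 ≤ R * ∑ k, c k ^ 2 + η := by
    intro η hη
    have h2 := core ψ τ hsep (tX X d a N) (b := N) (norm_tX_le X d a N) (fun _ => R) (b' := R)
      (Eventually.of_forall fun _ => ⟨hR0, le_rfl⟩) hR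
      (fun k => yX X d a N (ψ k) (τ k)) (fun k => by
        refine tendsto_const_nhds.congr fun ε => ?_
        unfold yX
        rw [sub_self]) C hη
    have h3 : Tendsto (fun ε => (∑ k, c k * yX X d a N (ψ k) (τ k) ε) ^ 2) U
        (𝓝 ((∑ k, c k * x k) ^ 2)) :=
      (tendsto_finsetSum _ fun k _ => (hx k).const_mul _).pow 2
    refine le_of_tendsto h3 ?_
    filter_upwards [hU h2] with ε h4
    refine h4 c hC ?_
    intro k l hkl hs
    rw [hc]
    simp only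
    by_cases hk : k ∈ J
    · by_cases hl : l ∈ J
      · rw [if_pos hk, if_pos hl]
        exact hJ k hk l hl hkl hs
      · rw [if_neg hl, mul_zero]
    · rw [if_neg hk, zero_mul]
  have h2 : (∑ k, c k * x k) ^ 2 ≤ R * ∑ k, c k ^ 2 := le_of_forall_pos_le_add h1
  have h3 : ∑ k, c k * x k = ∑ k ∈ J, x k ^ 2 := by
    rw [← Finset.sum_filter_add_sum_filter_not Finset.univ (· ∈ J)]
    have e1 : Finset.univ.filter (· ∈ J) = J := by ext k; simp
    rw [e1]
    have e2 : ∑ k ∈ Finset.univ.filter (fun k => k ∉ J), c k * x k = 0 := by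
      refine Finset.sum_eq_zero fun k hk => ?_
      rw [Finset.mem_filter] at hk
      rw [hc]
      simp only
      rw [if_neg hk.2, zero_mul]
    rw [e2, add_zero]
    refine Finset.sum_congr rfl fun k hk => ?_
    rw [hc]
    simp only
    rw [if_pos hk, sq]
  have h4 : ∑ k, c k ^ 2 = ∑ k ∈ J, x k ^ 2 := by
    rw [← Finset.sum_filter_add_sum_filter_not Finset.univ (· ∈ J)]
    have e1 : Finset.univ.filter (· ∈ J) = J := by ext k; simp
    rw [e1]
    have e2 : ∑ k ∈ Finset.univ.filter (fun k => k ∉ J), c k ^ 2 = 0 := by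
      refine Finset.sum_eq_zero fun k hk => ?_
      rw [Finset.mem_filter] at hk
      rw [hc]
      simp only
      rw [if_neg hk.2]
      norm_num
    rw [e2, add_zero]
    refine Finset.sum_congr rfl fun k hk => ?_
    rw [hc]
    simp only
    rw [if_pos hk]
  rw [h3, h4] at h2
  set s := ∑ k ∈ J, x k ^ 2 with hs
  have hs0 : 0 ≤ s := Finset.sum_nonneg fun _ _ => sq_nonneg _
  by_contra hcon
  push Not at hcon
  have hspos : 0 < s := hR0.trans_lt hcon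
  nlinarith

/-- the number of the large limits -/
theorem card_large {κ : Type*} [Fintype κ] (ψ : κ → HeckeChar K) (τ : κ → ℝ)
    (hsep : ∀ k l, k ≠ l → Distinct (ψ k) (ψ l) (τ k) (τ l)) {U : Ultrafilter ℝ}
    (hU : (U : Filter ℝ) ≤ 𝓝[>] 0) {R : ℝ} (hR0 : 0 ≤ R)
    (hR : ∀ δ : ℝ, 0 < δ → ∀ᶠ ε : ℝ in 𝓝[>] 0,
      (EP (nm K) ε fun v => ‖tX X d a N v‖ ^ 2) / lam ε ≤ R + δ) (x : κ → ℝ)
    (hx : ∀ k, Tendsto (yX X d a N (ψ k) (τ k)) U (𝓝 (x k))) {δ : ℝ} (hδ : 0 < δ)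
    (hl : ∀ k, δ ≤ |x k|) : (Fintype.card κ : ℝ) * δ ^ 2 ≤ 2 * R := by
  classical
  have hp := bessel_lim ψ τ hsep hU hR0 hR x hx
    (Finset.univ.filter fun k => 0 ≤ x k) (by
      intro k hk l hl _ _
      rw [Finset.mem_filter] at hk hl
      exact mul_nonneg hk.2 hl.2)
  have hn := bessel_lim ψ τ hsep hU hR0 hR x hx
    (Finset.univ.filter fun k => ¬ 0 ≤ x k) (by
      intro k hk l hl _ _
      rw [Finset.mem_filter, not_le] at hk hl
      exact (mul_pos_of_neg_of_neg hk.2 hl.2).le)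
  have h1 : ∑ k, x k ^ 2 ≤ 2 * R := by
    rw [← Finset.sum_filter_add_sum_filter_not Finset.univ (fun k => 0 ≤ x k)]
    linarith
  refine le_trans ?_ h1
  rw [← nsmul_eq_mul, ← Finset.card_univ]
  refine Finset.card_nsmul_le_sum _ _ _ fun k _ => ?_
  rw [← sq_abs (x k)]
  exact pow_le_pow_left₀ hδ.le (hl k) 2

/-- a maximal set of pairwise distinct elements -/
lemma exists_max {P : Type*} (R : P → P → Prop) (hsym : ∀ p q, R p q → R q p)
    (hirr : ∀ p, ¬ R p p) (A : Set P) (m : ℕ)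
    (h : ∀ S : Finset P, (∀ p ∈ S, p ∈ A) → (∀ p ∈ S, ∀ q ∈ S, p ≠ q → R p q) → S.card ≤ m) :
    ∃ S : Finset P, (∀ p ∈ S, p ∈ A) ∧ (∀ p ∈ S, ∀ q ∈ S, p ≠ q → R p q) ∧ S.card ≤ m ∧
      ∀ p ∈ A, ∃ s ∈ S, ¬ R p s := by
  classical
  set Q : ℕ → Prop := fun k => ∃ S : Finset P, (∀ p ∈ S, p ∈ A) ∧
    (∀ p ∈ S, ∀ q ∈ S, p ≠ q → R p q) ∧ S.card = k with hQ
  have hQ0 : Q 0 := ⟨∅, by simp, by simp, rfl⟩
  set k := Nat.findGreatest Q m with hk
  have hk1 : Q k := Nat.findGreatest_spec (Nat.zero_le m) hQ0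
  obtain ⟨S, h1, h2, h3⟩ := hk1
  refine ⟨S, h1, h2, h S h1 h2, fun p hp => ?_⟩
  by_contra hcon
  push Not at hcon
  have hpS : p ∉ S := fun hm => hirr p (hcon p hm)
  have hins : Q (k + 1) := by
    refine ⟨insert p S, ?_, ?_, ?_⟩
    · intro q hq
      rcases Finset.mem_insert.1 hq with rfl | hq
      · exact hp
      · exact h1 q hq
    · intro q hq r hr hqr
      rcases Finset.mem_insert.1 hq with hq' | hq'
      · rcases Finset.mem_insert.1 hr with hr' | hr'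
        · exact absurd (hq'.trans hr'.symm) hqr
        · rw [hq']
          exact hcon r hr'
      · rcases Finset.mem_insert.1 hr with hr' | hr'
        · rw [hr']
          exact hsym _ _ (hcon q hq')
        · exact h2 q hq' r hr' hqr
    · rw [Finset.card_insert_of_notMem hpS, h3]
  obtain ⟨S', h1', h2', h3'⟩ := hins
  have hle : k + 1 ≤ m := by
    rw [← h3']
    exact h S' h1' h2'
  have := Nat.le_findGreatest (P := Q) hle ⟨S', h1', h2', h3'⟩
  omega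

lemma distinct_symm (p q : HeckeChar K × ℝ) (h : Distinct p.1 q.1 p.2 q.2) :
    Distinct q.1 p.1 q.2 p.2 := by
  rcases h with h | ⟨I, h1, h2, h3⟩
  · exact Or.inl h.symm
  · exact Or.inr ⟨I, h2, h1, h3.symm⟩

lemma distinct_irrefl (p : HeckeChar K × ℝ) : ¬ Distinct p.1 p.1 p.2 p.2 := by
  rintro (h | ⟨I, -, -, h⟩)
  · exact h rfl
  · exact h rfl

end

end Pool.Agent.X298.HC
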